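import Pool.Agent.Helper92.DT.Defs

/-!
# Project LT (MP_fb29e9_nt): every oval, almost every lattice, all centres. Definitions

Plan: /team-store/h60_LT_README.md. A frame is a pair `f = (e₁, e₂)` of vectors of the plane, `k ∈ ℤ²` stands for the frequency `k₁ e₁ + k₂ e₂`; `h` is homogeneous of degree one
(the phase), `sl h θ τ = h (e_θ + τ e_θ^⊥)`. Coordinates: `e₁ = T e_θ`, `e₂ = T (x e_θ + y e_θ^⊥)`; then `h (k₁ e₁ + k₂ e₂) = T u · sl h θ (y t)`, `u = uu x k`, `t = tt x k` (`u > 0`).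
-/

open MeasureTheory Real Set Filter Topology

set_option autoImplicit false

namespace Pool.Agent.Helper60.LT

open Pool.Agent.Helper22.AE
open Pool.Agent.Helper92.GC (dt tp Tq uu tt arc gs dd)
open Pool.Agent.Helper92.DT (m12 IsMul12)

/-- a frame of the plane -/
abbrev Fr : Type := (ℝ × ℝ) × (ℝ × ℝ)

/-- conditions on a slice `p τ = h (e + τ e^⊥)` of the phase -/
structure Cv (c₁ B : ℝ) (p : ℝ → ℝ) : Prop where
  sm : ContDiff ℝ 4 p
  lo : ∀ τ, |τ| ≤ 1 → c₁ ≤ deriv (deriv p) τ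
  d2 : ∀ τ, |τ| ≤ 1 → |deriv (deriv p) τ| ≤ B
  d3 : ∀ τ, |τ| ≤ 1 → |deriv (deriv (deriv p)) τ| ≤ B
  d4 : ∀ τ, |τ| ≤ 1 → |deriv (deriv (deriv (deriv p))) τ| ≤ B

/-- the slice of `h` in the direction `θ` -/
noncomputable def sl (h : ℝ × ℝ → ℝ) (θ τ : ℝ) : ℝ := h (cos θ - τ * sin θ, sin θ + τ * cos θ)

/-- the class of phases: continuous, homogeneous of degree one, all slices in `Cv c₁ B` -/
structure Hom (c₁ B : ℝ) (h : ℝ × ℝ → ℝ) : Prop where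
  cont : Continuous h
  hom : ∀ (s : ℝ) (v : ℝ × ℝ), 0 < s → h (s * v.1, s * v.2) = s * h v
  cv : ∀ θ, Cv c₁ B (sl h θ)

/-- the smallness constant for `y ρ` -/
noncomputable def k₀ (c₁ B : ℝ) : ℝ := c₁ ^ 2 / (100 * (B + 1) ^ 2)

/-- the phase in coordinates: `u p(y t)` -/
noncomputable def pf (p : ℝ → ℝ) (x y : ℝ) (k : ℤ × ℤ) : ℝ := uu x k * p (y * tt x k)

/-- the function `f` of the linearised family -/
noncomputable def fy (p : ℝ → ℝ) (y t : ℝ) : ℝ := (p (y * t) - p 0 - deriv p 0 * (y * t)) / y ^ 2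

/-- the function `g` of the linearised family -/
noncomputable def gy (p : ℝ → ℝ) (y t : ℝ) : ℝ := t * (p 0 - p (y * t) + y * t * deriv p (y * t)) / y ^ 2

/-- the ratio `r = g'' / f''` -/
noncomputable def ry (p : ℝ → ℝ) (y t : ℝ) : ℝ := 3 * t + y * t ^ 2 * deriv (deriv (deriv p)) (y * t) / deriv (deriv p) (y * t)

open Classical in
/-- the frequencies of a state: `K/L ≤ T u ≤ L K`, `|k₂| ≤ S u` -/
noncomputable def st (L S K T x : ℝ) : Finset (ℤ × ℤ) :=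
  (box ⌈(1 + |x| * S + S) * (L * K / T)⌉₊).filter (fun k => K ≤ L * (T * uu x k) ∧ T * uu x k ≤ L * K ∧ |(k.2 : ℝ)| ≤ S * uu x k)

open Classical in
/-- the frequencies of a shell: `K/L ≤ T u ≤ L K`, `ρ/2 < |t| ≤ ρ` -/
noncomputable def sh (L ρ K T x : ℝ) : Finset (ℤ × ℤ) := (st L ρ K T x).filter (fun k => ρ / 2 * uu x k < |(k.2 : ℝ)|)

/-- the twelfth moment over the centres, in coordinates -/
noncomputable def W (p : ℝ → ℝ) (y : ℝ) (S : Finset (ℤ × ℤ)) (a : ℤ × ℤ → ℂ) (T x : ℝ) : ℝ :=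
  m12 S (fun k => a k * ee (T * pf p x y k))

/-- the same for the linearised family at `x₀` -/
noncomputable def lf (p : ℝ → ℝ) (x₀ y : ℝ) (S : Finset (ℤ × ℤ)) (a : ℤ × ℤ → ℂ) (R Z : ℝ) : ℝ :=
  m12 S (fun k => a k * ee (R * (uu x₀ k * fy p y (tt x₀ k)) + Z * (uu x₀ k * gy p y (tt x₀ k))))

/-- the integral of `W` over a rectangle -/
noncomputable def BX (p : ℝ → ℝ) (y : ℝ) (S : Finset (ℤ × ℤ)) (a : ℤ × ℤ → ℂ) (T₁ T₂ x₁ x₂ : ℝ) : ℝ :=
  ∫ T in Icc T₁ T₂, ∫ x in Icc x₁ x₂, W p y S a T x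

/-- length of the first vector -/
noncomputable def Tf (f : Fr) : ℝ := sqrt (f.1.1 ^ 2 + f.1.2 ^ 2)

/-- the shear of a frame -/
noncomputable def xf (f : Fr) : ℝ := (f.1.1 * f.2.1 + f.1.2 * f.2.2) / (f.1.1 ^ 2 + f.1.2 ^ 2)

/-- determinant -/
noncomputable def df (f : Fr) : ℝ := f.1.1 * f.2.2 - f.1.2 * f.2.1

/-- the height of a frame -/
noncomputable def yf (f : Fr) : ℝ := df f / (f.1.1 ^ 2 + f.1.2 ^ 2)

/-- the vector `k₁ e₁ + k₂ e₂` -/
noncomputable def vf (f : Fr) (k : ℤ × ℤ) : ℝ × ℝ := (k.1 * f.1.1 + k.2 * f.2.1, k.1 * f.1.2 + k.2 * f.2.2)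

/-- the frame with coordinates `θ, y, T, x` -/
noncomputable def fr (θ y T x : ℝ) : Fr :=
  ((T * cos θ, T * sin θ), (T * (x * cos θ - y * sin θ), T * (x * sin θ + y * cos θ)))

/-- the frame `(n₁ e₁ + n₂ e₂, n₁' e₁ + n₂' e₂)` -/
noncomputable def ac (n n' : ℤ × ℤ) (f : Fr) : Fr := (vf f n, vf f n')

/-- a complement of a primitive vector: `n₁ n₂' - n₂ n₁' = 1` -/
noncomputable def co (n : ℤ × ℤ) : ℤ × ℤ :=
  open Classical in if h : ∃ n' : ℤ × ℤ, n.1 * n'.2 - n.2 * n'.1 = 1 then h.choose else 0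

/-- the twelfth moment of the state sum of a frame -/
noncomputable def PP (h : ℝ × ℝ → ℝ) (L S K : ℝ) (f : Fr) : ENNReal :=
  ENNReal.ofReal (m12 (st L S K (Tf f) (xf f)) (fun k => ee (h (vf f k))))

/-- the twelfth moment of the shell sum of a frame -/
noncomputable def QQ (h : ℝ × ℝ → ℝ) (L ρ K : ℝ) (f : Fr) : ENNReal :=
  ENNReal.ofReal (m12 (sh L ρ K (Tf f) (xf f)) (fun k => ee (h (vf f k))))

/-- the primitive vectors of size about `D` in the frame `f` -/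
def NN (β D : ℝ) (f : Fr) (n : ℤ × ℤ) : Prop :=
  n.1 * (co n).2 - n.2 * (co n).1 = 1 ∧ D * Tf f ≤ β * Tf (ac n (co n) f) ∧ Tf (ac n (co n) f) ≤ β * D * Tf f ∧ |(n.2 : ℝ)| ≤ β * D

open Classical in
/-- sum of a function over the frames with first vector of size about `D` -/
noncomputable def NS (β D : ℝ) (Φ : Fr → ENNReal) (f : Fr) : ENNReal :=
  ∑' n : ℤ × ℤ, if NN β D f n then Φ (ac n (co n) f) else 0

/-- a box of frames modulo the shears -/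
def EE (Δ₀ y₀ β : ℝ) : Set Fr :=
  {f | 0 < Tf f ∧ 0 ≤ xf f ∧ xf f < 1 ∧ Δ₀ ≤ β * df f ∧ df f ≤ β * Δ₀ ∧ y₀ ≤ β * yf f ∧ yf f ≤ β * y₀}

/-- the final bound -/
noncomputable def BB (H G : ℝ) : ℝ := H ^ 12 + H ^ 18 * G ^ (-(3 / 2) : ℝ) + H ^ 22 * G ^ (-(5 / 2) : ℝ)

/-- the indicator of `I` is a multiplier of norm at most `C` on every set of frequencies that contains `I` -/
def Cut (C : ℝ) (I : Finset (ℤ × ℤ)) : Prop :=
  open Classical in ∀ S : Finset (ℤ × ℤ), I ⊆ S → IsMul12 S (fun k => if k ∈ I then 1 else 0) C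

end Pool.Agent.Helper60.LT
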