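import Pool.Agent.Helper60.LT.G1

/-!
# LT-GD: the induction hypothesis

PROOF of `bnd_zero`. `H₀ = K/√(Δ₀/y₀) ≤ 1`, so `H₀^22 ≤ H₀^12 H₀^e` (`e ≤ 1`), `triv` (G1), `BB ≥ H₀^12`, `K^a ≥ 1`.
-/

open MeasureTheory Real Set Filter Topology

set_option autoImplicit false

namespace Pool.Agent.Helper60.LT

/-- the bound for all states with `H₀ ≤ K^b` -/
def Bnd (c₁ B a e b : ℝ) : Prop :=
  ∀ L β Y s₀ : ℝ, 1 ≤ L → 1 ≤ β → 0 < Y → 0 < s₀ → ∃ C : ℝ, 1 ≤ C ∧ ∀ (h : ℝ × ℝ → ℝ) (Δ₀ y₀ K S : ℝ), Hom c₁ B h → 0 < Δ₀ → 0 < y₀ → y₀ ≤ Y →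
    1 ≤ √(Δ₀ / y₀) → s₀ ≤ S → S ≤ 3 → 11 / 10 * (β * y₀ * S) ≤ k₀ c₁ B → 1 ≤ K → K / √(Δ₀ / y₀) ≤ K ^ b →
      ∫⁻ f in EE Δ₀ y₀ β, PP h L S K f ≤ ENNReal.ofReal (C * K ^ a * (K / √(Δ₀ / y₀)) ^ e * (Δ₀ ^ 2 / y₀) * BB (K / √(Δ₀ / y₀)) (K * y₀ ^ 2))

theorem bnd_zero {c₁ B a e : ℝ} (ha : 0 ≤ a) (he : 0 < e) (he1 : e ≤ 1) : Bnd c₁ B a e 0 := by
  intro L β Y s₀ hL hβ _ _
  obtain ⟨C, hC, hT⟩ := triv hL hβ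
  refine ⟨C, hC, fun h Δ₀ y₀ K S _ hΔ hy _ _ hs hS _ hK hH => ?_⟩
  have hK0 : 0 < K := by linarith
  have hS0 : 0 ≤ S := by linarith
  refine (hT h Δ₀ y₀ K S hΔ hy hK0 hS0 hS).trans (ENNReal.ofReal_le_ofReal ?_)
  have hT0 : 0 < √(Δ₀ / y₀) := sqrt_pos.mpr (by positivity)
  rw [rpow_zero] at hH
  set H := K / √(Δ₀ / y₀) with hHd
  have hH0 : 0 < H := by positivity
  have hG : 0 < K * y₀ ^ 2 := by positivity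
  have hB := (BB_pos hH0 hG).2.1
  have hKa : 1 ≤ K ^ a := one_le_rpow hK ha
  have hHe : 0 < H ^ e := rpow_pos_of_pos hH0 _
  have h1 : H ≤ H ^ e := by
    have := rpow_le_rpow_of_exponent_ge hH0 hH he1
    rwa [rpow_one] at this
  have h2 : H ^ 10 ≤ H := by
    have := pow_le_pow_of_le_one hH0.le hH (show 1 ≤ 10 by norm_num)
    rwa [pow_one] at this
  have h3 : H ^ 22 ≤ H ^ e * BB H (K * y₀ ^ 2) := by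
    calc H ^ 22 = H ^ 10 * H ^ 12 := by ring
      _ ≤ H ^ e * BB H (K * y₀ ^ 2) := mul_le_mul (h2.trans h1) hB (by positivity) hHe.le
  have h4 : 0 ≤ C * (Δ₀ ^ 2 / y₀) := by positivity
  have h5 : 0 ≤ C * (Δ₀ ^ 2 / y₀) * (H ^ e * BB H (K * y₀ ^ 2)) := mul_nonneg h4 (by positivity : (0:ℝ) ≤ H ^ 22) |>.trans (mul_le_mul_of_nonneg_left h3 h4)
  calc C * (Δ₀ ^ 2 / y₀) * H ^ 22 ≤ C * (Δ₀ ^ 2 / y₀) * (H ^ e * BB H (K * y₀ ^ 2)) := mul_le_mul_of_nonneg_left h3 h4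
    _ ≤ K ^ a * (C * (Δ₀ ^ 2 / y₀) * (H ^ e * BB H (K * y₀ ^ 2))) := le_mul_of_one_le_left h5 hKa
    _ = C * K ^ a * H ^ e * (Δ₀ ^ 2 / y₀) * BB H (K * y₀ ^ 2) := by ring

end Pool.Agent.Helper60.LT
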