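import Pool.Agent.Helper60.LT.C1

/-!
# LT-C3: decomposition into cusps and natural arcs

`arc x S N r` = the `k ∈ S` with `⌊N (tt x k + 6)/12⌋₊ = r` (GC.Defs).
PROOFS. `cut_inter`: let `S' ⊇ I ∩ P`, `U = S' ∪ I`; on `U` the indicator of `I` has norm `C` (`Cut`), the indicator of `P` norm `24^n` (as in `cut_poly`, use `cut_poly` for the finite set `U.filter P`), the product is the indicator of `I ∩ P` (`mul12_comp`); go from `U` to `S'` by
extension by zero as in `cut_diff`. For `u = uu x k > 0` the conditions `|t - s| u_n² ≤ q⁻³` and `⌊N (t + 6)/12⌋₊ = r` (`t + 6 ≥ 0`) are two linear inequalities each: `k.2 - s u ≤ c u`, `s u - k.2 ≤ c u`, `12 r u ≤ N (k.2 + 6 u)`, `N (k.2 + 6 u) < 12 (r + 1) u`.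
`decomp`: `N` = the finite set of all `n` with `NQ q x n` (`finite_NQ`). Call the arc `(m, r)` good if there is `n` with `IsCoprime`, `q < uu x n ≤ 2 q⁴`, `48 uu² ≤ M^m < 48 M uu²`, `|tt x n| ≤ 4` and `|t - tt x n| uu x n ^ 2 ≤ 3/2` for all `t` with `⌊M^m (t + 6)/12⌋₊ = r`, `|t| ≤ 18/5`.
`Kf m` = the `k ∈ S` in no cusp, whose arc of level `m` is good and whose arcs of all levels `m' < m` are not good (`⌊M^(m') (t+6)/12⌋₊ = ⌊M^m (t+6)/12⌋₊ / M^(m-m')`, `Nat.floor_div_natCast`; see MM.E1 `e1_arcarc`). Disjointness of the cusps: `sep_cusp` with `t = t'`.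
Covering: `k ∈ S` in no cusp, `natural` gives `n`, `exists_nat_pow_near` gives `m` with `48 u² ≤ M^m < 48 M u²` (`u = uu x n`), the arc of level `m` of `k` is good as its length is `12/M^m ≤ 1/(4 u²)`; so there is a smallest good level `m₀ ≤ m`, `M^(m₀) ≤ M^m < 48 M 4 q⁸`.
The arcs: if `arc x (Kf m) (M^m) r` is not empty then `(m, r)` is good and the arcs of smaller level which contain it are not good, so it consists of all `k ∈ S` in the arc that are in no cusp; by `sep_cusp` (`12/M^m ≤ 1/(4 u²) ≤ 1/(4 q²)`) at most one cusp meets the arc: `cut_inter`, `cut_diff`: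
norm `24² C + 24⁴ C`.
-/

open MeasureTheory Real Set Filter Topology

set_option autoImplicit false

namespace Pool.Agent.Helper60.LT

open Pool.Agent.Helper22.AE
open Pool.Agent.Helper92.GC (dt tp Tq uu tt arc gs dd)
open Pool.Agent.Helper92.DT (m12 IsMul12)

private lemma mul_poly_c3 (n : ℕ) (x y z : Fin n → ℝ) (s : Fin n → Bool) (U : Finset (ℤ × ℤ)) :
    open Classical in IsMul12 U (fun k => if (∀ i, if s i then z i ≤ x i * (k.1 : ℝ) + y i * (k.2 : ℝ)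
      else z i < x i * (k.1 : ℝ) + y i * (k.2 : ℝ)) then 1 else 0) (24 ^ n) := by
  classical
  induction n with
  | zero =>
    refine Helper92.DT.mul12_congr (fun k _ => ?_) (b := fun _ => (1 : ℂ)) ?_
    · rw [if_pos (fun i => i.elim0)]
    · have := Helper92.DT.mul12_const U 1
      rwa [norm_one, ← pow_zero (24 : ℝ)] at this
  | succ n ih =>
    have h1 := ih (fun i => x i.succ) (fun i => y i.succ) (fun i => z i.succ) (fun i => s i.succ)
    have h0 : IsMul12 U (fun k => if (if s 0 then z 0 ≤ x 0 * (k.1 : ℝ) + y 0 * (k.2 : ℝ)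
        else z 0 < x 0 * (k.1 : ℝ) + y 0 * (k.2 : ℝ)) then 1 else 0) 24 := by
      cases hs : s 0
      · simpa using Helper92.DT.mul12_half_lt U (x 0) (y 0) (z 0)
      · simpa using Helper92.DT.mul12_half U (x 0) (y 0) (z 0)
    have h2 := Helper92.DT.mul12_comp h0 h1
    rw [pow_succ, mul_comm]
    refine Helper92.DT.mul12_congr (fun k _ => ?_) h2
    by_cases c0 : (if s 0 then z 0 ≤ x 0 * (k.1 : ℝ) + y 0 * (k.2 : ℝ)
        else z 0 < x 0 * (k.1 : ℝ) + y 0 * (k.2 : ℝ))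
    · by_cases c1 : ∀ i : Fin n, (if s i.succ then z i.succ ≤ x i.succ * (k.1 : ℝ) + y i.succ * (k.2 : ℝ)
        else z i.succ < x i.succ * (k.1 : ℝ) + y i.succ * (k.2 : ℝ))
      · rw [if_pos c0, if_pos c1, if_pos (Fin.forall_fin_succ.mpr ⟨c0, c1⟩), one_mul]
      · rw [if_pos c0, if_neg c1, if_neg (fun h => c1 (Fin.forall_fin_succ.mp h).2), mul_zero]
    · rw [if_neg c0, if_neg (fun h => c0 (Fin.forall_fin_succ.mp h).1), zero_mul]

theorem cut_inter {C : ℝ} {I : Finset (ℤ × ℤ)} (h : Cut C I) (hC : 0 ≤ C) (n : ℕ) (x y z : Fin n → ℝ) (s : Fin n → Bool) (J : Finset (ℤ × ℤ))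
    (hJ : ∀ k, k ∈ J ↔ k ∈ I ∧ ∀ i, if s i then z i ≤ x i * (k.1 : ℝ) + y i * (k.2 : ℝ) else z i < x i * (k.1 : ℝ) + y i * (k.2 : ℝ)) :
    Cut (24 ^ n * C) J := by
  classical
  intro S hS
  have h1 := h (S ∪ I) Finset.subset_union_right
  have h2 := mul_poly_c3 n x y z s (S ∪ I)
  have h3 := Helper92.DT.mul12_comp h2 h1
  refine Helper92.DT.mul12_mono (Finset.subset_union_left (s₂ := I)) (Helper92.DT.mul12_congr (fun k _ => ?_) h3)
  by_cases hI : k ∈ I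
  · by_cases hP : (∀ i, if s i then z i ≤ x i * (k.1 : ℝ) + y i * (k.2 : ℝ) else z i < x i * (k.1 : ℝ) + y i * (k.2 : ℝ))
    · rw [if_pos hI, if_pos hP, if_pos ((hJ k).mpr ⟨hI, hP⟩), one_mul]
    · rw [if_pos hI, if_neg hP, if_neg (fun h => hP ((hJ k).mp h).2), zero_mul]
  · rw [if_neg hI, if_neg (fun h => hI ((hJ k).mp h).1), mul_zero]

open Classical in
/-- the frequencies in the cusp of `n` -/
noncomputable def cus (q x : ℝ) (S : Finset (ℤ × ℤ)) (n : ℤ × ℤ) : Finset (ℤ × ℤ) :=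
  S.filter (fun k => |tt x k - tt x n| * uu x n ^ 2 ≤ q⁻¹ ^ 3)

/-- the frequencies of a set in an interval of slopes, closed on the left -/
private lemma cut_slopes_c3 {C x a b : ℝ} {I J : Finset (ℤ × ℤ)} (hI : ∀ k ∈ I, 0 < uu x k) (h : Cut C I) (hC : 0 ≤ C)
    (hJ : ∀ k, k ∈ J ↔ k ∈ I ∧ a ≤ tt x k ∧ tt x k ≤ b) : Cut (24 ^ 2 * C) J := by
  refine cut_inter h hC 2 ![-a, b] ![1 - a * x, b * x - 1] ![0, 0] ![true, true] J fun k => ?_
  rw [hJ k]
  refine and_congr_right fun hk => ?_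
  have hu := hI k hk
  have e : tt x k * uu x k = (k.2 : ℝ) := by
    unfold tt
    rw [div_mul_cancel₀ _ hu.ne']
  have eu : uu x k = (k.1 : ℝ) + x * (k.2 : ℝ) := rfl
  have e1 : -a * (k.1 : ℝ) + (1 - a * x) * (k.2 : ℝ) = (tt x k - a) * uu x k := by
    linear_combination (-1) * e + a * eu
  have e2 : b * (k.1 : ℝ) + (b * x - 1) * (k.2 : ℝ) = (b - tt x k) * uu x k := by
    linear_combination e - b * eu
  simp only [Fin.forall_fin_two, Matrix.cons_val_zero, Matrix.cons_val_one, if_true]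
  rw [e1, e2, mul_nonneg_iff_of_pos_right hu, mul_nonneg_iff_of_pos_right hu, sub_nonneg, sub_nonneg]

private lemma cut_slopes_lt_c3 {C x a b : ℝ} {I J : Finset (ℤ × ℤ)} (hI : ∀ k ∈ I, 0 < uu x k) (h : Cut C I) (hC : 0 ≤ C)
    (hJ : ∀ k, k ∈ J ↔ k ∈ I ∧ a ≤ tt x k ∧ tt x k < b) : Cut (24 ^ 2 * C) J := by
  refine cut_inter h hC 2 ![-a, b] ![1 - a * x, b * x - 1] ![0, 0] ![true, false] J fun k => ?_
  rw [hJ k]
  refine and_congr_right fun hk => ?_
  have hu := hI k hk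
  have e : tt x k * uu x k = (k.2 : ℝ) := by
    unfold tt
    rw [div_mul_cancel₀ _ hu.ne']
  have eu : uu x k = (k.1 : ℝ) + x * (k.2 : ℝ) := rfl
  have e1 : -a * (k.1 : ℝ) + (1 - a * x) * (k.2 : ℝ) = (tt x k - a) * uu x k := by
    linear_combination (-1) * e + a * eu
  have e2 : b * (k.1 : ℝ) + (b * x - 1) * (k.2 : ℝ) = (b - tt x k) * uu x k := by
    linear_combination e - b * eu
  simp only [Fin.forall_fin_two, Matrix.cons_val_zero, Matrix.cons_val_one, if_true, Bool.false_eq_true, if_false]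
  rw [e1, e2, mul_nonneg_iff_of_pos_right hu, mul_pos_iff_of_pos_right hu, sub_nonneg, sub_pos]

/-- the cusps have cuts -/
private lemma cut_cus_c3 {C x q : ℝ} {I : Finset (ℤ × ℤ)} (hI : ∀ k ∈ I, 0 < uu x k) (h : Cut C I) (hC : 0 ≤ C) {n : ℤ × ℤ}
    (hn : 0 < uu x n) : Cut (24 ^ 2 * C) (cus q x I n) := by
  classical
  refine cut_slopes_c3 (a := tt x n - q⁻¹ ^ 3 / uu x n ^ 2) (b := tt x n + q⁻¹ ^ 3 / uu x n ^ 2) hI h hC fun k => ?_
  unfold cus
  rw [Finset.mem_filter]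
  refine and_congr_right fun _ => ?_
  rw [← le_div_iff₀ (by positivity), abs_le]
  constructor
  · rintro ⟨h1, h2⟩
    constructor <;> linarith
  · rintro ⟨h1, h2⟩
    constructor <;> linarith

/-- the arcs have cuts -/
private lemma cut_arc_c3 {C x : ℝ} {I : Finset (ℤ × ℤ)} (hI : ∀ k ∈ I, 0 < uu x k) (hI2 : ∀ k ∈ I, -6 ≤ tt x k) (h : Cut C I) (hC : 0 ≤ C)
    {N : ℕ} (hN : 0 < N) (r : ℕ) : Cut (24 ^ 2 * C) (arc x I N r) := by
  classical
  have hN' : (0 : ℝ) < N := by exact_mod_cast hN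
  refine cut_slopes_lt_c3 (a := 12 * r / N - 6) (b := 12 * (r + 1) / N - 6) hI h hC fun k => ?_
  unfold arc
  rw [Finset.mem_filter]
  refine and_congr_right fun hk => ?_
  have h6 := hI2 k hk
  have h7 : 0 ≤ (N : ℝ) * ((tt x k + 6) / 12) := mul_nonneg hN'.le (by linarith)
  rw [Nat.floor_eq_iff h7]
  have e1 : (r : ℝ) ≤ (N : ℝ) * ((tt x k + 6) / 12) ↔ 12 * r / N - 6 ≤ tt x k := by
    rw [sub_le_iff_le_add, div_le_iff₀ hN']
    constructor <;> intro h <;> nlinarith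
  have e2 : (N : ℝ) * ((tt x k + 6) / 12) < r + 1 ↔ tt x k < 12 * (r + 1) / N - 6 := by
    rw [lt_sub_iff_add_lt, lt_div_iff₀ hN']
    constructor <;> intro h <;> nlinarith
  rw [e1, e2]

private lemma floor_close_c3 {A s t : ℝ} (hA : 0 < A) (hs : -6 ≤ s) (ht : -6 ≤ t) (h : ⌊A * ((s + 6) / 12)⌋₊ = ⌊A * ((t + 6) / 12)⌋₊) :
    |s - t| ≤ 12 / A := by
  have h1 : 0 ≤ A * ((s + 6) / 12) := mul_nonneg hA.le (by linarith)
  have h2 : 0 ≤ A * ((t + 6) / 12) := mul_nonneg hA.le (by linarith)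
  have a1 := Nat.floor_le h1
  have a2 := Nat.lt_floor_add_one (A * ((s + 6) / 12))
  have b1 := Nat.floor_le h2
  have b2 := Nat.lt_floor_add_one (A * ((t + 6) / 12))
  rw [h] at a1 a2
  have c1 : s - t ≤ 12 / A := by
    rw [le_div_iff₀ hA]
    nlinarith
  have c2 : t - s ≤ 12 / A := by
    rw [le_div_iff₀ hA]
    nlinarith
  rw [abs_le]
  constructor <;> linarith

/-- an arc of level `m` which is natural -/
private def good_c3 (M : ℕ) (q x : ℝ) (m r : ℕ) : Prop :=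
  ∃ n : ℤ × ℤ, IsCoprime n.1 n.2 ∧ q < uu x n ∧ uu x n ≤ 2 * q ^ 4 ∧ 48 * uu x n ^ 2 ≤ (M : ℝ) ^ m ∧
    (M : ℝ) ^ m < 48 * M * uu x n ^ 2 ∧ |tt x n| ≤ 4 ∧
    ∀ t : ℝ, |t| ≤ 18 / 5 → ⌊(M : ℝ) ^ m * ((t + 6) / 12)⌋₊ = r → |t - tt x n| * uu x n ^ 2 ≤ 3 / 2

private lemma idx_div_c3 {M : ℕ} (hM : 0 < M) {m m' : ℕ} (h : m' ≤ m) (y : ℝ) :
    ⌊(M : ℝ) ^ m' * y⌋₊ = ⌊(M : ℝ) ^ m * y⌋₊ / M ^ (m - m') := by
  have hM' : (0 : ℝ) < M := by exact_mod_cast hM
  have e : (M : ℝ) ^ m = (M : ℝ) ^ m' * (M : ℝ) ^ (m - m') := by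
    rw [← pow_add, Nat.add_sub_cancel' h]
  rw [← Nat.floor_div_natCast, e, Nat.cast_pow]
  congr 1
  rw [eq_div_iff (pow_pos hM' _).ne']
  ring

theorem decomp {M : ℕ} (hM : 2 ≤ M) {q x C : ℝ} (hq : 20 ≤ q) {S : Finset (ℤ × ℤ)} (hS : ∀ k ∈ S, 0 < uu x k ∧ |tt x k| ≤ 18 / 5) (hC0 : 0 ≤ C)
    (hC : Cut C S) : ∃ (N : Finset (ℤ × ℤ)) (Kf : ℕ → Finset (ℤ × ℤ)), (∀ n, n ∈ N ↔ NQ q x n) ∧
      (∀ n ∈ N, ∀ n' ∈ N, n ≠ n' → Disjoint (cus q x S n) (cus q x S n')) ∧ (∀ m, Kf m ⊆ S) ∧ (∀ m m', m ≠ m' → Disjoint (Kf m) (Kf m')) ∧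
      (∀ n ∈ N, ∀ m, Disjoint (cus q x S n) (Kf m)) ∧
      (∀ k ∈ S, (∃ n ∈ N, k ∈ cus q x S n) ∨ ∃ m : ℕ, (M : ℝ) ^ m < 200 * M * q ^ 8 ∧ k ∈ Kf m) ∧
      (∀ n ∈ N, Cut (576 * C) (cus q x S n)) ∧
      ∀ m r, (arc x (Kf m) (M ^ m) r).Nonempty → ∃ n : ℤ × ℤ, IsCoprime n.1 n.2 ∧ q < uu x n ∧ uu x n ≤ 2 * q ^ 4 ∧ 48 * uu x n ^ 2 ≤ (M : ℝ) ^ m ∧
        (M : ℝ) ^ m < 48 * M * uu x n ^ 2 ∧ |tt x n| ≤ 4 ∧ (∀ k ∈ arc x (Kf m) (M ^ m) r, |tt x k - tt x n| * uu x n ^ 2 ≤ 3 / 2) ∧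
        Cut (400000 * C) (arc x (Kf m) (M ^ m) r) := by
  classical
  have hM0 : 0 < M := by omega
  have hMr : (0 : ℝ) < M := by exact_mod_cast hM0
  have hM2 : (2 : ℝ) ≤ M := by exact_mod_cast hM
  have hM1 : (1 : ℝ) < M := by linarith
  have hq0 : 0 < q := by linarith
  have hpos : ∀ k ∈ S, 0 < uu x k := fun k hk => (hS k hk).1
  have hm6 : ∀ k ∈ S, -6 ≤ tt x k := fun k hk => by
    have := neg_le_of_abs_le (hS k hk).2
    linarith
  obtain ⟨N, hN⟩ : ∃ N : Finset (ℤ × ℤ), ∀ n, n ∈ N ↔ NQ q x n :=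
    ⟨(finite_NQ q x).toFinset, fun n => by rw [Set.Finite.mem_toFinset]; rfl⟩
  let ix : ℕ → ℤ × ℤ → ℕ := fun m k => ⌊(M : ℝ) ^ m * ((tt x k + 6) / 12)⌋₊
  let Kf : ℕ → Finset (ℤ × ℤ) := fun m => S.filter (fun k => (∀ n ∈ N, k ∉ cus q x S n) ∧
    good_c3 M q x m (ix m k) ∧ ∀ m' < m, ¬ good_c3 M q x m' (ix m' k))
  have hmK : ∀ m k, k ∈ Kf m ↔ k ∈ S ∧ (∀ n ∈ N, k ∉ cus q x S n) ∧
      good_c3 M q x m (ix m k) ∧ ∀ m' < m, ¬ good_c3 M q x m' (ix m' k) := fun m k => Finset.mem_filter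
  have hmc : ∀ n k, k ∈ cus q x S n ↔ k ∈ S ∧ |tt x k - tt x n| * uu x n ^ 2 ≤ q⁻¹ ^ 3 := fun n k =>
    Finset.mem_filter
  refine ⟨N, Kf, hN, ?_, ?_, ?_, ?_, ?_, ?_, ?_⟩
  · intro n hn n' hn' hne
    rw [Finset.disjoint_left]
    intro k hk hk'
    refine hne (sep_cusp hq ((hN n).mp hn) ((hN n').mp hn') ((hmc n k).mp hk).2 ((hmc n' k).mp hk').2 ?_)
    rw [sub_self, abs_zero]
    positivity
  · intro m
    exact Finset.filter_subset _ _
  · intro m m' hne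
    rw [Finset.disjoint_left]
    intro k hk hk'
    rw [hmK] at hk hk'
    rcases lt_or_gt_of_ne hne with h | h
    · exact hk'.2.2.2 m h hk.2.2.1
    · exact hk.2.2.2 m' h hk'.2.2.1
  · intro n hn m
    rw [Finset.disjoint_left]
    intro k hk hk'
    exact ((hmK m k).mp hk').2.1 n hn hk
  · intro k hk
    by_cases hc : ∃ n ∈ N, k ∈ cus q x S n
    · exact Or.inl hc
    right
    push Not at hc
    obtain ⟨n, hn1, hn2, hn3, hn4, hn5⟩ := natural (x := x) (t := tt x k) hq (by linarith [(hS k hk).2]) (fun n hn => by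
      by_contra hcon
      push Not at hcon
      exact hc n ((hN n).mpr hn) ((hmc n k).mpr ⟨hk, hcon⟩))
    have hu0 : 0 < uu x n := by linarith
    have hex : ∃ m : ℕ, 48 * uu x n ^ 2 ≤ (M : ℝ) ^ m := by
      obtain ⟨m, hm⟩ := pow_unbounded_of_one_lt (48 * uu x n ^ 2) hM1
      exact ⟨m, hm.le⟩
    obtain ⟨m, hm1, hm2⟩ : ∃ m : ℕ, 48 * uu x n ^ 2 ≤ (M : ℝ) ^ m ∧ (M : ℝ) ^ m < 48 * M * uu x n ^ 2 := by
      refine ⟨Nat.find hex, Nat.find_spec hex, ?_⟩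
      rcases Nat.eq_zero_or_pos (Nat.find hex) with h0 | h0
      · rw [h0, pow_zero]
        nlinarith
      · have h1 := Nat.find_min hex (Nat.sub_one_lt (Nat.pos_iff_ne_zero.mp h0))
        push Not at h1
        have e : (M : ℝ) ^ (Nat.find hex) = M * (M : ℝ) ^ (Nat.find hex - 1) := by
          rw [← pow_succ', Nat.sub_add_cancel h0]
        rw [e]
        nlinarith
    have hMm : (0 : ℝ) < (M : ℝ) ^ m := pow_pos hMr m
    have hgood : good_c3 M q x m (ix m k) := by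
      refine ⟨n, hn1, hn2, hn3, hm1, hm2, hn5, fun t ht hf => ?_⟩
      have ht6 : -6 ≤ t := by
        have := neg_le_of_abs_le ht
        linarith
      have h1 := floor_close_c3 hMm ht6 (hm6 k hk) hf
      have h2 : |t - tt x k| * uu x n ^ 2 ≤ 1 / 4 := by
        have h3 : 12 / (M : ℝ) ^ m * uu x n ^ 2 ≤ 1 / 4 := by
          rw [div_mul_eq_mul_div, div_le_iff₀ hMm]
          linarith
        exact (mul_le_mul_of_nonneg_right h1 (by positivity)).trans h3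
      have h4 : |t - tt x n| ≤ |t - tt x k| + |tt x k - tt x n| := abs_sub_le _ _ _
      nlinarith [mul_le_mul_of_nonneg_right h4 (by positivity : (0:ℝ) ≤ uu x n ^ 2)]
    have hex2 : ∃ m, good_c3 M q x m (ix m k) := ⟨m, hgood⟩
    refine ⟨Nat.find hex2, ?_, (hmK _ k).mpr ⟨hk, hc, Nat.find_spec hex2, fun m' hm' => Nat.find_min hex2 hm'⟩⟩
    have h1 : (M : ℝ) ^ (Nat.find hex2) ≤ (M : ℝ) ^ m := pow_le_pow_right₀ hM1.le (Nat.find_min' hex2 hgood)
    have h2 : uu x n ^ 2 ≤ (2 * q ^ 4) ^ 2 := pow_le_pow_left₀ hu0.le hn3 2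
    have h3 : 48 * M * uu x n ^ 2 ≤ 48 * M * (2 * q ^ 4) ^ 2 := mul_le_mul_of_nonneg_left h2 (by positivity)
    have h4 : (0 : ℝ) < M * q ^ 8 := by positivity
    calc (M : ℝ) ^ (Nat.find hex2) ≤ (M : ℝ) ^ m := h1
      _ < 48 * M * uu x n ^ 2 := hm2
      _ ≤ 48 * M * (2 * q ^ 4) ^ 2 := h3
      _ = 192 * (M * q ^ 8) := by ring
      _ ≤ 200 * (M * q ^ 8) := by linarith
      _ = 200 * M * q ^ 8 := by ring
  · intro n hn
    have h1 := cut_cus_c3 (q := q) hpos hC hC0 (n := n) (by have := ((hN n).mp hn).2.1; linarith)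
    have e : (24 : ℝ) ^ 2 * C = 576 * C := by norm_num
    rwa [e] at h1
  · rintro m r ⟨k₀, hk₀⟩
    have hma : ∀ (I : Finset (ℤ × ℤ)) k, k ∈ arc x I (M ^ m) r ↔ k ∈ I ∧ ix m k = r := by
      intro I k
      unfold arc
      rw [Finset.mem_filter, Nat.cast_pow]
    have h0 := (hma _ _).mp hk₀
    have h00 := (hmK m k₀).mp h0.1
    have hg := h00.2.2.1
    rw [h0.2] at hg
    obtain ⟨n, hn1, hn2, hn3, hn4, hn5, hn6, hn7⟩ := hg
    have hu0 : 0 < uu x n := by linarith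
    have hMm : (0 : ℝ) < (M : ℝ) ^ m := pow_pos hMr m
    -- the arc consists of all frequencies of the arc of `S` in no cusp
    have hgoodr : good_c3 M q x m r := ⟨n, hn1, hn2, hn3, hn4, hn5, hn6, hn7⟩
    have hKa : ∀ k, k ∈ arc x (Kf m) (M ^ m) r ↔ k ∈ arc x S (M ^ m) r ∧ ∀ n ∈ N, k ∉ cus q x S n := by
      intro k
      rw [hma, hma, hmK]
      constructor
      · rintro ⟨⟨h1, h2, -, -⟩, h3⟩
        exact ⟨⟨h1, h3⟩, h2⟩
      · rintro ⟨⟨h1, h3⟩, h2⟩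
        refine ⟨⟨h1, h2, by rw [h3]; exact hgoodr, fun m' hm' => ?_⟩, h3⟩
        have h4 := h00.2.2.2 m' hm'
        have e1 : ix m' k = ix m' k₀ := by
          have a1 : ix m' k = ix m k / M ^ (m - m') := idx_div_c3 hM0 hm'.le _
          have a2 : ix m' k₀ = ix m k₀ / M ^ (m - m') := idx_div_c3 hM0 hm'.le _
          rw [a1, a2, h3, h0.2]
        rwa [e1]
    refine ⟨n, hn1, hn2, hn3, hn4, hn5, hn6, fun k hk => ?_, ?_⟩
    · have h1 := (hma _ _).mp ((hKa k).mp hk).1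
      exact hn7 _ (hS k h1.1).2 h1.2
    · have hcA : Cut (24 ^ 2 * C) (arc x S (M ^ m) r) := cut_arc_c3 hpos hm6 hC hC0 (pow_pos hM0 m) r
      by_cases hcus : ∃ n₁ ∈ N, ∃ k₁ ∈ arc x S (M ^ m) r, k₁ ∈ cus q x S n₁
      · obtain ⟨n₁, hn₁, k₁, hk₁, hk₁'⟩ := hcus
        have hAp : ∀ k ∈ arc x S (M ^ m) r, 0 < uu x k := fun k hk => hpos k ((hma _ _).mp hk).1
        have hcC := cut_cus_c3 (q := q) hAp hcA (by positivity) (n := n₁) (by have := ((hN n₁).mp hn₁).2.1; linarith)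
        have hsub : cus q x (arc x S (M ^ m) r) n₁ ⊆ arc x S (M ^ m) r := Finset.filter_subset _ _
        have e : arc x (Kf m) (M ^ m) r = arc x S (M ^ m) r \ cus q x (arc x S (M ^ m) r) n₁ := by
          ext k
          rw [hKa, Finset.mem_sdiff]
          refine and_congr_right fun hk => ?_
          have hkS := ((hma _ _).mp hk).1
          have e1 : k ∈ cus q x (arc x S (M ^ m) r) n₁ ↔ k ∈ cus q x S n₁ := by
            unfold cus
            rw [Finset.mem_filter, Finset.mem_filter]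
            exact ⟨fun h => ⟨hkS, h.2⟩, fun h => ⟨hk, h.2⟩⟩
          rw [e1]
          constructor
          · intro h
            exact h n₁ hn₁
          · intro h n₂ hn₂ hk₂
            have h5 : n₂ = n₁ := by
              refine sep_cusp hq ((hN n₂).mp hn₂) ((hN n₁).mp hn₁) ((hmc n₂ k).mp hk₂).2 ((hmc n₁ k₁).mp hk₁').2 ?_
              have h6 : |tt x k - tt x k₁| ≤ 12 / (M : ℝ) ^ m := by
                apply floor_close_c3 hMm (hm6 k hkS) (hm6 k₁ ((hma _ _).mp hk₁).1)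
                have a1 : ix m k = r := ((hma _ _).mp hk).2
                have a2 : ix m k₁ = r := ((hma _ _).mp hk₁).2
                exact a1.trans a2.symm
              have h7 : 12 / (M : ℝ) ^ m ≤ 1 / (4 * q ^ 2) := by
                rw [div_le_div_iff₀ hMm (by positivity)]
                nlinarith
              exact h6.trans h7
            rw [h5] at hk₂
            exact h hk₂
        rw [e]
        refine cut_weaken (cut_diff hcA hcC hsub) ?_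
        nlinarith
      · push Not at hcus
        have e : arc x (Kf m) (M ^ m) r = arc x S (M ^ m) r := by
          ext k
          rw [hKa]
          exact ⟨fun h => h.1, fun h => ⟨h, fun n₂ hn₂ => hcus n₂ hn₂ k h⟩⟩
        rw [e]
        refine cut_weaken hcA ?_
        nlinarith

end Pool.Agent.Helper60.LT
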