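import Pool.Agent.Helper60.LT.Defs
import Pool.Agent.Helper92.DT.R2

/-!
# LT-A1: sizes, cuts, sums

PROOFS. `mem_st`: the three conditions imply `|k.2| ≤ S u ≤ S L K/T`, `|k.1| ≤ u + |x| |k.2|`, so `k` lies in the box (`Nat.le_ceil`).
`m12_le_card`: `‖tp‖ ≤ card` (`tp_norm_le`, GC.R0), `∫ ‖tp‖^12 ≤ card^10 ∫ ‖tp‖^2`, and `∫ ‖tp‖^2 = ∑ ‖a k‖^2 ≤ card` (Parseval: as in `n6_gs_card` (GC.T1), or `ee_int` (GC.R0)).
`m12_union`: pointwise `tp S a = ∑_i tp (I i) a`, `‖∑_{i ∈ s} z_i‖^12 ≤ card^11 ∑ ‖z_i‖^12` (`inner_le`.. : `Finset.inner_mul_le_norm_mul_norm` is not needed: `pow_sum_div_card_le_sum_pow` / `inner_le_nnorm_mul_nnorm`;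
Mathlib: `inner`.. use `Real.inner_le_Lp_mul_Lq` or `Finset.sum_pow_le_card_pow_mul_sum_pow`-type lemma `inv_pow`.. (name: `inner_..`): `(∑ x_i)^(n+1) ≤ card^n ∑ x_i^(n+1)` is `inner_le...`= `Finset.pow_sum_le`? it is `pow_sum_div_card_le_sum_pow`), integrate.
`m12_cut`: `IsMul12` with `a` on `S`: `m12 I a = m12 S (1_I a)` (`m12_filter`, `S.filter (· ∈ I) = I`).
`cut_poly`: on every `S` the indicator of a half plane is a multiplier of norm `24` (`mul12_half`, `mul12_half_lt`), induction on `n` with `mul12_comp`, `mul12_congr` (start: `mul12_const S 1`).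
`cut_diff`: let `S ⊇ I \ J`, `U = S ∪ I`; on `U`: `1_(I \ J) = 1_I - 1_J` (norm `C + C'` by `mul12_add`, `mul12_const (-1)`, `mul12_comp`); for `a` put `a' = a` on `S`, `0` elsewhere: `m12 S (1 a) = m12 U (1 a')`, `m12 U a' = m12 S a`.
`st_card`: if `k ∈ st` then `u ≥ 1/3` (`k.2 = 0`: `u = k.1` is a positive integer; `|k.2| ≥ 1`: `u ≥ 1/S ≥ 1/3`), so `st ≠ ∅` implies `L K/T ≥ 1/3`. `k.2` has at most `2 S L K/T + 1` values, `k.1` for given `k.2` at most `L K/T + 1`.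
-/

open MeasureTheory Real Set Filter Topology

set_option autoImplicit false

namespace Pool.Agent.Helper60.LT

open Pool.Agent.Helper22.AE
open Pool.Agent.Helper92.GC (dt tp Tq uu tt arc gs dd)
open Pool.Agent.Helper92.DT (m12 IsMul12)

private theorem pos34 {L K T u : ℝ} (hT : 0 < T) (hL : 0 < L) (hK : 0 < K) (h : K ≤ L * (T * u)) : 0 < u := by
  by_contra hu
  push Not at hu
  have h1 : L * (T * u) ≤ 0 := mul_nonpos_of_nonneg_of_nonpos hL.le (mul_nonpos_of_nonneg_of_nonpos hT.le hu)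
  linarith

theorem mem_st {L S K T x : ℝ} (hT : 0 < T) (hL : 0 < L) (hK : 0 < K) (hS : 0 ≤ S) {k : ℤ × ℤ} :
    k ∈ st L S K T x ↔ K ≤ L * (T * uu x k) ∧ T * uu x k ≤ L * K ∧ |(k.2 : ℝ)| ≤ S * uu x k := by
  unfold st
  rw [Finset.mem_filter]
  refine ⟨fun h => h.2, fun h => ⟨?_, h⟩⟩
  obtain ⟨h1, h2, h3⟩ := h
  have hu := pos34 hT hL hK h1
  set u := uu x k with hu'
  have hM : u ≤ L * K / T := by
    rw [le_div_iff₀ hT]
    linarith
  have hM0 : 0 ≤ L * K / T := by positivity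
  have hx := abs_nonneg x
  have h4 : |(k.2 : ℝ)| ≤ S * (L * K / T) := h3.trans (mul_le_mul_of_nonneg_left hM hS)
  have h5 : |(k.1 : ℝ)| ≤ L * K / T + |x| * (S * (L * K / T)) := by
    have e : (k.1 : ℝ) = u - x * (k.2 : ℝ) := by
      rw [hu']
      unfold uu
      ring
    rw [e]
    refine (abs_sub _ _).trans ?_
    rw [abs_mul, abs_of_pos hu]
    exact add_le_add hM (mul_le_mul_of_nonneg_left h4 hx)
  have hle := Nat.le_ceil ((1 + |x| * S + S) * (L * K / T))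
  have h6 : L * K / T + |x| * (S * (L * K / T)) ≤ (1 + |x| * S + S) * (L * K / T) := by
    nlinarith [mul_nonneg hS hM0]
  have h7 : S * (L * K / T) ≤ (1 + |x| * S + S) * (L * K / T) := by
    nlinarith [mul_nonneg hS hM0, mul_nonneg hx (mul_nonneg hS hM0)]
  unfold box
  rw [Finset.mem_product, Finset.mem_Icc, Finset.mem_Icc]
  have a1 := abs_le.1 (h5.trans (h6.trans hle))
  have a2 := abs_le.1 (h4.trans (h7.trans hle))
  refine ⟨⟨?_, ?_⟩, ⟨?_, ?_⟩⟩
  · exact_mod_cast a1.1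
  · exact_mod_cast a1.2
  · exact_mod_cast a2.1
  · exact_mod_cast a2.2

private theorem tq34 : IsProbabilityMeasure ((volume : Measure (ℝ × ℝ)).restrict Tq) := by
  constructor
  unfold Tq
  rw [Measure.restrict_apply_univ, Measure.volume_eq_prod, Measure.prod_prod, Real.volume_Icc,
    sub_zero, ENNReal.ofReal_one, mul_one]

private theorem int34 {E : Type} [NormedAddCommGroup E] {f : ℝ × ℝ → E} (hf : Continuous f) :
    Integrable f (volume.restrict Tq) := by
  have h1 : IsCompact Tq := isCompact_Icc.prod isCompact_Icc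
  exact hf.continuousOn.integrableOn_compact h1

private theorem dtc34 (k : ℤ × ℤ) : Continuous (fun c : ℝ × ℝ => ee (dt k c)) := by
  refine ee_cont.comp ?_
  unfold dt
  fun_prop

private theorem l2_34 (S : Finset (ℤ × ℤ)) (b : ℤ × ℤ → ℂ) :
    ∫ c in Tq, ‖tp S b c‖ ^ 2 = ∑ k ∈ S, ‖b k‖ ^ 2 := by
  have := tq34
  have hE : ∀ (z : ℂ) (k : ℤ × ℤ), Integrable (fun c => z * ee (dt k c)) (volume.restrict Tq) :=
    fun z k => int34 (continuous_const.mul (dtc34 k))
  have hneg : ∀ (k : ℤ × ℤ) (c : ℝ × ℝ), dt (-k) c = -dt k c := by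
    intro k c
    unfold dt
    rw [Prod.fst_neg, Prod.snd_neg]
    push_cast
    ring
  have e1 : ∀ c, (((‖tp S b c‖ ^ 2 : ℝ)) : ℂ) =
      ∑ k ∈ S, ∑ k' ∈ S, (b k * (starRingEnd ℂ) (b k')) * ee (dt (k - k') c) := by
    intro c
    rw [← Complex.normSq_eq_norm_sq, ← Complex.mul_conj]
    unfold tp
    rw [map_sum, Finset.sum_mul_sum]
    refine Finset.sum_congr rfl fun k _ => Finset.sum_congr rfl fun k' _ => ?_
    rw [map_mul, sub_eq_add_neg, Pool.Agent.Helper92.GC.dt_add, hneg, ee_add, ee_neg]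
    ring
  have e2 : ((∫ c in Tq, ‖tp S b c‖ ^ 2 : ℝ) : ℂ) = ((∑ k ∈ S, ‖b k‖ ^ 2 : ℝ) : ℂ) := by
    have e0 : ((∫ c in Tq, ‖tp S b c‖ ^ 2 : ℝ) : ℂ) = ∫ c in Tq, ((‖tp S b c‖ ^ 2 : ℝ) : ℂ) :=
      integral_complex_ofReal.symm
    have e3 : ∫ c in Tq, ((‖tp S b c‖ ^ 2 : ℝ) : ℂ) = ∫ c in Tq, (∑ k ∈ S, ∑ k' ∈ S,
        (b k * (starRingEnd ℂ) (b k')) * ee (dt (k - k') c)) :=
      integral_congr_ae (Filter.Eventually.of_forall fun q => e1 q)
    refine e0.trans (e3.trans ?_)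
    rw [integral_finsetSum]
    · rw [Complex.ofReal_sum]
      refine Finset.sum_congr rfl fun k hk => ?_
      rw [integral_finsetSum]
      · rw [Finset.sum_eq_single_of_mem k hk]
        · rw [integral_const_mul, Pool.Agent.Helper92.GC.ee_int, sub_self, if_pos rfl, mul_one, Complex.mul_conj,
            Complex.normSq_eq_norm_sq]
        · intro k' _ hne
          rw [integral_const_mul, Pool.Agent.Helper92.GC.ee_int, if_neg (sub_ne_zero.2 (Ne.symm hne)), mul_zero]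
      · intro k' _
        exact hE _ _
    · intro k _
      exact integrable_finsetSum _ fun k' _ => hE _ _
  exact_mod_cast e2

theorem m12_le_card (S : Finset (ℤ × ℤ)) {a : ℤ × ℤ → ℂ} (ha : ∀ k ∈ S, ‖a k‖ ≤ 1) : m12 S a ≤ (S.card : ℝ) ^ 11 := by
  have hn : ∀ c, ‖tp S a c‖ ≤ (S.card : ℝ) := by
    intro c
    refine (Pool.Agent.Helper92.GC.tp_norm_le S a c).trans ?_
    refine (Finset.sum_le_card_nsmul _ _ 1 fun k hk => ha k hk).trans (by simp)
  have h1 : ∫ c in Tq, ‖tp S a c‖ ^ 2 ≤ (S.card : ℝ) := by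
    rw [l2_34]
    refine (Finset.sum_le_card_nsmul _ _ 1 fun k hk => ?_).trans (by simp)
    exact pow_le_one₀ (norm_nonneg _) (ha k hk)
  have hint : Integrable (fun c => ‖tp S a c‖ ^ 2) (volume.restrict Tq) :=
    int34 ((Pool.Agent.Helper92.GC.tp_cont S a).norm.pow 2)
  unfold m12
  have h3 : ∫ c in Tq, ‖tp S a c‖ ^ 12 ≤ ∫ c in Tq, (S.card : ℝ) ^ 10 * ‖tp S a c‖ ^ 2 := by
    refine integral_mono_of_nonneg (Filter.Eventually.of_forall fun q => by positivity)
      (hint.const_mul _) (Filter.Eventually.of_forall fun c => ?_)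
    have h4 : ‖tp S a c‖ ^ 12 = ‖tp S a c‖ ^ 10 * ‖tp S a c‖ ^ 2 := by ring
    change ‖tp S a c‖ ^ 12 ≤ _
    rw [h4]
    exact mul_le_mul_of_nonneg_right (pow_le_pow_left₀ (norm_nonneg _) (hn c) 10) (by positivity)
  rw [integral_const_mul] at h3
  refine h3.trans ?_
  have h5 : (S.card : ℝ) ^ 11 = (S.card : ℝ) ^ 10 * S.card := by ring
  rw [h5]
  exact mul_le_mul_of_nonneg_left h1 (by positivity)

theorem m12_union {ι : Type} (s : Finset ι) (I : ι → Finset (ℤ × ℤ)) (S : Finset (ℤ × ℤ)) (a : ℤ × ℤ → ℂ)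
    (hd : ∀ i ∈ s, ∀ j ∈ s, i ≠ j → Disjoint (I i) (I j)) (hS : ∀ k, k ∈ S ↔ ∃ i ∈ s, k ∈ I i) :
    m12 S a ≤ (s.card : ℝ) ^ 11 * ∑ i ∈ s, m12 (I i) a := by
  classical
  have hSU : S = s.biUnion I := by
    ext k
    rw [hS, Finset.mem_biUnion]
  have htp : ∀ c, tp S a c = ∑ i ∈ s, tp (I i) a c := by
    intro c
    rw [hSU]
    unfold tp
    rw [Finset.sum_biUnion]
    intro i hi j hj hij
    exact hd i hi j hj hij
  have hc : ∀ i, Continuous (fun c => ‖tp (I i) a c‖ ^ 12) := fun i =>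
    (Pool.Agent.Helper92.GC.tp_cont (I i) a).norm.pow 12
  have hpt : ∀ c, ‖tp S a c‖ ^ 12 ≤ (s.card : ℝ) ^ 11 * ∑ i ∈ s, ‖tp (I i) a c‖ ^ 12 := by
    intro c
    have h1 : ‖tp S a c‖ ≤ ∑ i ∈ s, ‖tp (I i) a c‖ := by
      rw [htp]
      exact norm_sum_le _ _
    have h2 := pow_le_pow_left₀ (norm_nonneg _) h1 12
    refine h2.trans ?_
    have h3 := pow_sum_div_card_le_sum_pow (s := s) (f := fun i => ‖tp (I i) a c‖) (n := 11)
      (fun i _ => norm_nonneg _)
    rcases s.eq_empty_or_nonempty with hs | hs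
    · subst hs
      simp
    · have h4 : (0 : ℝ) < (s.card : ℝ) ^ 11 := by
        have : 0 < s.card := hs.card_pos
        positivity
      rw [div_le_iff₀ h4] at h3
      have h5 : (∑ i ∈ s, ‖tp (I i) a c‖) ^ 12 ≤ (∑ i ∈ s, ‖tp (I i) a c‖ ^ 12) * (s.card : ℝ) ^ 11 := h3
      linarith
  have hI : Integrable (fun c => (s.card : ℝ) ^ 11 * ∑ i ∈ s, ‖tp (I i) a c‖ ^ 12) (volume.restrict Tq) :=
    int34 (continuous_const.mul (continuous_finsetSum _ fun i _ => hc i))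
  unfold m12
  refine (integral_mono_of_nonneg (Filter.Eventually.of_forall fun q => by positivity) hI
    (Filter.Eventually.of_forall hpt)).trans (le_of_eq ?_)
  rw [integral_const_mul, integral_finsetSum _ fun i _ => int34 (hc i)]

theorem m12_cut {C : ℝ} {I S : Finset (ℤ × ℤ)} (h : Cut C I) (hI : I ⊆ S) (a : ℤ × ℤ → ℂ) : m12 I a ≤ C ^ 12 * m12 S a := by
  classical
  have h1 := (h S hI).2 a
  have e : S.filter (fun k => k ∈ I) = I := by
    ext k
    rw [Finset.mem_filter]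
    exact ⟨fun hk => hk.2, fun hk => ⟨hI hk, hk⟩⟩
  have h2 : m12 I a = m12 S (fun k => (if k ∈ I then 1 else 0) * a k) := by
    have h3 := Pool.Agent.Helper92.DT.m12_filter S (fun k => k ∈ I) a
    have e' : @Finset.filter (ℤ × ℤ) (fun k => k ∈ I) (fun k => Classical.propDecidable _) S = I := by
      rw [← e]
      ext k
      simp only [Finset.mem_filter]
      tauto
    rw [e'] at h3
    rw [h3]
    refine Pool.Agent.Helper92.DT.m12_congr fun k _ => ?_
    by_cases hk : k ∈ I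
    · simp only [hk, if_true]
    · simp only [hk, if_false]
  rw [h2]
  refine le_trans (le_of_eq (Pool.Agent.Helper92.DT.m12_congr fun k _ => ?_)) h1
  by_cases hk : k ∈ I
  · simp only [hk, if_true]
  · simp only [hk, if_false]

theorem cut_weaken {C C' : ℝ} {I : Finset (ℤ × ℤ)} (h : Cut C I) (hC : C ≤ C') : Cut C' I :=
  fun S hS => Pool.Agent.Helper92.DT.mul12_weaken (h S hS) hC

open Classical in
private theorem poly34 (n : ℕ) : ∀ (x y z : Fin n → ℝ) (s : Fin n → Bool) (S : Finset (ℤ × ℤ)),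
    IsMul12 S (fun k => if ∀ i, if s i then z i ≤ x i * (k.1 : ℝ) + y i * (k.2 : ℝ) else z i < x i * (k.1 : ℝ) + y i * (k.2 : ℝ)
      then 1 else 0) (24 ^ n) := by
  induction n with
  | zero =>
    intro x y z s S
    have h1 := Pool.Agent.Helper92.DT.mul12_const S 1
    rw [norm_one] at h1
    rw [pow_zero]
    refine Pool.Agent.Helper92.DT.mul12_congr (fun k _ => ?_) h1
    rw [if_pos fun i => i.elim0]
  | succ n ih =>
    intro x y z s S
    have h1 := ih (fun i => x i.succ) (fun i => y i.succ) (fun i => z i.succ) (fun i => s i.succ) S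
    have h2 : IsMul12 S (fun k => if (if s 0 then z 0 ≤ x 0 * (k.1 : ℝ) + y 0 * (k.2 : ℝ) else
        z 0 < x 0 * (k.1 : ℝ) + y 0 * (k.2 : ℝ)) then 1 else 0) 24 := by
      by_cases hs : s 0
      · refine Pool.Agent.Helper92.DT.mul12_congr (fun k _ => ?_) (Pool.Agent.Helper92.DT.mul12_half S (x 0) (y 0) (z 0))
        simp only [hs, if_true]
      · refine Pool.Agent.Helper92.DT.mul12_congr (fun k _ => ?_) (Pool.Agent.Helper92.DT.mul12_half_lt S (x 0) (y 0) (z 0))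
        simp only [hs, Bool.false_eq_true, if_false]
    have h3 := Pool.Agent.Helper92.DT.mul12_comp h2 h1
    have e : (24 : ℝ) ^ (n + 1) = 24 * 24 ^ n := by ring
    rw [e]
    refine Pool.Agent.Helper92.DT.mul12_congr (fun k _ => ?_) h3
    simp only [Fin.forall_fin_succ]
    by_cases ha : (if s 0 then z 0 ≤ x 0 * (k.1 : ℝ) + y 0 * (k.2 : ℝ) else z 0 < x 0 * (k.1 : ℝ) + y 0 * (k.2 : ℝ))
    · simp only [ha, if_true, true_and, one_mul]
    · simp only [ha, if_false, false_and, zero_mul]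

/-- convex polygons -/
theorem cut_poly (n : ℕ) (x y z : Fin n → ℝ) (s : Fin n → Bool) (I : Finset (ℤ × ℤ))
    (hI : ∀ k, k ∈ I ↔ ∀ i, if s i then z i ≤ x i * (k.1 : ℝ) + y i * (k.2 : ℝ) else z i < x i * (k.1 : ℝ) + y i * (k.2 : ℝ)) :
    Cut (24 ^ n) I := by
  classical
  intro S _
  refine Pool.Agent.Helper92.DT.mul12_congr (fun k _ => ?_) (poly34 n x y z s S)
  by_cases hk : k ∈ I
  · have h1 := (hI k).1 hk
    rw [if_pos h1, if_pos hk]
  · have h1 := fun h => hk ((hI k).2 h)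
    rw [if_neg h1, if_neg hk]

theorem cut_diff {C C' : ℝ} {I J : Finset (ℤ × ℤ)} (h : Cut C I) (h' : Cut C' J) (hJ : J ⊆ I) : Cut (C + C') (I \ J) := by
  classical
  intro S hS
  have hU1 : I ⊆ S ∪ I := Finset.subset_union_right
  have h1 := h (S ∪ I) hU1
  have h2 := h' (S ∪ I) (hJ.trans hU1)
  have h3 := Pool.Agent.Helper92.DT.mul12_comp (Pool.Agent.Helper92.DT.mul12_const (S ∪ I) (-1)) h2
  have h4 := Pool.Agent.Helper92.DT.mul12_add h1 h3
  rw [norm_neg, norm_one, one_mul] at h4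
  have h5 := Pool.Agent.Helper92.DT.mul12_mono (Finset.subset_union_left : S ⊆ S ∪ I) h4
  refine Pool.Agent.Helper92.DT.mul12_congr (fun k _ => ?_) h5
  by_cases hI : k ∈ I
  · by_cases hk : k ∈ J
    · simp [hI, hk]
    · simp [hI, hk]
  · have hk : k ∉ J := fun h => hI (hJ h)
    simp [hI, hk]

private theorem large34 {L S K T x : ℝ} (hL : 1 ≤ L) (hT : 0 < T) (hK : 0 < K) (hS : 0 ≤ S) (hS3 : S ≤ 3) {k : ℤ × ℤ}
    (hk : k ∈ st L S K T x) : 1 / 3 ≤ uu x k ∧ 1 / 3 ≤ L * (K / T) := by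
  have hL0 : 0 < L := by linarith
  obtain ⟨h1, h2, h3⟩ := (mem_st hT hL0 hK hS).1 hk
  have hu := pos34 hT hL0 hK h1
  have h4 : 1 / 3 ≤ uu x k := by
    by_cases h0 : k.2 = 0
    · have e : uu x k = (k.1 : ℝ) := by
        unfold uu
        rw [h0]
        simp
      rw [e] at hu ⊢
      have h5 : (0 : ℤ) < k.1 := by exact_mod_cast hu
      have h6 : (1 : ℝ) ≤ (k.1 : ℝ) := by exact_mod_cast h5
      linarith
    · have h5 : (1 : ℝ) ≤ |(k.2 : ℝ)| := by
        have := Int.one_le_abs h0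
        exact_mod_cast this
      nlinarith
  refine ⟨h4, h4.trans ?_⟩
  rw [← mul_div_assoc, le_div_iff₀ hT]
  linarith

theorem st_card {L : ℝ} (hL : 1 ≤ L) : ∃ C : ℝ, 1 ≤ C ∧ ∀ S K T x : ℝ, 0 < T → 0 < K → 0 ≤ S → S ≤ 3 →
    ((st L S K T x).card : ℝ) ≤ C * (S * (K / T) ^ 2 + K / T) := by
  classical
  refine ⟨8 * L ^ 2 + 4 * L, by nlinarith, fun S K T x hT hK hS hS3 => ?_⟩
  have hL0 : 0 < L := by linarith
  have hKT : 0 < K / T := by positivity
  rcases (st L S K T x).eq_empty_or_nonempty with he | ⟨k₀, hk₀⟩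
  · rw [he, Finset.card_empty, Nat.cast_zero]
    positivity
  obtain ⟨-, hM⟩ := large34 hL hT hK hS hS3 hk₀
  set M := L * (K / T) with hMdef
  have hM0 : 0 < M := by positivity
  have hprop : ∀ k ∈ st L S K T x, 0 ≤ uu x k ∧ uu x k ≤ M ∧ |(k.2 : ℝ)| ≤ S * M := by
    intro k hk
    obtain ⟨h1, h2, h3⟩ := (mem_st hT hL0 hK hS).1 hk
    have hu := pos34 hT hL0 hK h1
    have h4 : uu x k ≤ M := by
      rw [hMdef, ← mul_div_assoc, le_div_iff₀ hT]
      linarith
    exact ⟨hu.le, h4, h3.trans (mul_le_mul_of_nonneg_left h4 hS)⟩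
  have hfib : ∀ j ∈ (st L S K T x).image Prod.snd,
      ((st L S K T x).filter (fun k => k.2 = j)).card ≤ ⌊M + 1⌋₊ := by
    intro j _
    have hsub : ((st L S K T x).filter (fun k => k.2 = j)).image Prod.fst ⊆
        Finset.Icc ⌈-(x * (j : ℝ))⌉ ⌊M - x * (j : ℝ)⌋ := by
      intro h hh
      obtain ⟨k, hk, rfl⟩ := Finset.mem_image.1 hh
      obtain ⟨hk1, hk2⟩ := Finset.mem_filter.1 hk
      obtain ⟨h1, h2, -⟩ := hprop k hk1
      have e : uu x k = (k.1 : ℝ) + x * (j : ℝ) := by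
        unfold uu
        rw [hk2]
      rw [e] at h1 h2
      rw [Finset.mem_Icc]
      exact ⟨Int.ceil_le.2 (by linarith), Int.le_floor.2 (by linarith)⟩
    have hinj : (((st L S K T x).filter (fun k => k.2 = j)).image Prod.fst).card =
        ((st L S K T x).filter (fun k => k.2 = j)).card := by
      apply Finset.card_image_of_injOn
      intro k hk l hl hkl
      have h1 := (Finset.mem_filter.1 (Finset.mem_coe.1 hk)).2
      have h2 := (Finset.mem_filter.1 (Finset.mem_coe.1 hl)).2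
      exact Prod.ext hkl (h1.trans h2.symm)
    rw [← hinj]
    refine (Finset.card_le_card hsub).trans ?_
    rw [Int.card_Icc]
    apply Nat.le_floor
    have h1 := Int.floor_le (M - x * (j : ℝ))
    have h2 := Int.le_ceil (-(x * (j : ℝ)))
    have h3 : (((⌊M - x * (j : ℝ)⌋ + 1 - ⌈-(x * (j : ℝ))⌉).toNat : ℤ) : ℝ) ≤ M + 1 := by
      rw [Int.toNat_eq_max]
      push_cast
      apply max_le
      · linarith
      · linarith
    exact_mod_cast h3
  have hcard := Finset.card_le_mul_card_image (f := Prod.snd) (st L S K T x) ⌊M + 1⌋₊ hfib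
  have himg : (((st L S K T x).image Prod.snd).card : ℝ) ≤ 2 * (S * M) + 1 := by
    have hsub : (st L S K T x).image Prod.snd ⊆ Finset.Icc (-⌊S * M⌋) ⌊S * M⌋ := by
      intro j hj
      obtain ⟨k, hk, rfl⟩ := Finset.mem_image.1 hj
      obtain ⟨-, -, h3⟩ := hprop k hk
      have h4 := abs_le.1 h3
      rw [Finset.mem_Icc]
      refine ⟨?_, Int.le_floor.2 h4.2⟩
      have h5 : -k.2 ≤ ⌊S * M⌋ := Int.le_floor.2 (by push_cast; linarith)
      linarith
    have h1 : (((st L S K T x).image Prod.snd).card : ℝ) ≤ ((Finset.Icc (-⌊S * M⌋) ⌊S * M⌋).card : ℝ) := by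
      exact_mod_cast Finset.card_le_card hsub
    refine h1.trans ?_
    rw [Int.card_Icc]
    have h0 : 0 ≤ ⌊S * M⌋ := Int.floor_nonneg.2 (by positivity)
    have h2 : (((⌊S * M⌋ + 1 - -⌊S * M⌋).toNat : ℤ) : ℝ) ≤ 2 * (S * M) + 1 := by
      rw [Int.toNat_of_nonneg (by linarith)]
      push_cast
      have := Int.floor_le (S * M)
      linarith
    exact_mod_cast h2
  have hfl : ((⌊M + 1⌋₊ : ℕ) : ℝ) ≤ M + 1 := Nat.floor_le (by linarith)
  have h1 : ((st L S K T x).card : ℝ) ≤ (M + 1) * (2 * (S * M) + 1) := by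
    have h2 : ((st L S K T x).card : ℝ) ≤ (⌊M + 1⌋₊ : ℝ) * (((st L S K T x).image Prod.snd).card : ℝ) := by
      exact_mod_cast hcard
    refine h2.trans ?_
    exact mul_le_mul hfl himg (Nat.cast_nonneg _) (by linarith)
  refine h1.trans ?_
  have h2 : M + 1 ≤ 4 * M := by linarith
  have h3 : (M + 1) * (2 * (S * M) + 1) ≤ 4 * M * (2 * (S * M) + 1) :=
    mul_le_mul_of_nonneg_right h2 (by positivity)
  refine h3.trans ?_
  have e : 4 * M * (2 * (S * M) + 1) = 8 * L ^ 2 * (S * (K / T) ^ 2) + 4 * L * (K / T) := by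
    rw [hMdef]
    ring
  rw [e]
  have q1 : 0 ≤ S * (K / T) ^ 2 := by positivity
  nlinarith [mul_nonneg hL0.le q1, mul_nonneg (sq_nonneg L) hKT.le]

/-- if there is a frequency then `K/T` is not small -/
theorem st_large {L S K T x : ℝ} (hL : 1 ≤ L) (hT : 0 < T) (hK : 0 < K) (hS : 0 ≤ S) (hS3 : S ≤ 3) {k : ℤ × ℤ} (hk : k ∈ st L S K T x) :
    1 / 3 ≤ uu x k ∧ 1 / 3 ≤ L * (K / T) :=
  large34 hL hT hK hS hS3 hk

end Pool.Agent.Helper60.LT
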