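import Pool.Agent.Helper60.LT.A1

/-!
# LT-A2: integral changes of variables, periodicity

PROOFS. `m12_image`: `tp (S.image φ) a c = ∑_{k ∈ S} a (φ k) ee (φ k · c)`; expand `‖·‖^12` into characters: the integral over `Tq` of a product of six terms and six conjugates is `1` if the signed sum of the frequencies
is zero and `0` otherwise (`ee_int`, GC.R0); `φ` is additive and injective, so the signed sum of the `φ k_i` is zero iff that of the `k_i` is. (Or by `m12_eq` (DT.R0) with a bijection of the index sets.)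
Coordinates: `T > 0`: `Tf (fr θ y T x) = T`, etc. by `cos² + sin² = 1`; `vf (fr θ y T x) k = T ((k₁ + x k₂) e_θ + y k₂ e_θ^⊥)` and, for `u = uu x k > 0`, `= (T u) • (e_θ + (y t) e_θ^⊥)`, `Hom.hom`.
`PP_shear`: the frame `g = (e₁, e₂ + e₁)` has `Tf g = Tf f`, `xf g = xf f + 1`, `vf g k = vf f (k₁ + k₂, k₂)`, `uu (x+1) k = uu x (k₁ + k₂, k₂)`; `st .. (x+1)` is mapped onto `st .. x` by the bijection
`k ↦ (k₁ + k₂, k₂)` (`mem_st`; if `Tf f = 0` or the parameters are degenerate the statement is only needed for `0 < Tf f`), `m12_image`.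
`PP_co`: two complements of `n` differ by a multiple of `n`: if `n₁ n₂' - n₂ n₁' = 1` and `n₁ n₂'' - n₂ n₁'' = 1` then `n'' = n' + j n` (as `n'' - n'` is proportional to the primitive vector `n`), apply `PP_shear` `|j|` times
(`vf f (n' + n) = vf f n' + vf f n`).
-/

open MeasureTheory Real Set Filter Topology

set_option autoImplicit false

namespace Pool.Agent.Helper60.LT

open Pool.Agent.Helper22.AE
open Pool.Agent.Helper92.GC (dt tp Tq uu tt arc gs dd)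
open Pool.Agent.Helper92.DT (m12 IsMul12)

open Pool.Agent.Helper92.GC (S3 cub)

private theorem image_s3_32 (φ : ℤ × ℤ → ℤ × ℤ) (hadd : ∀ k l, φ (k + l) = φ k + φ l) (S : Finset (ℤ × ℤ)) :
    S3 (S.image φ) = (S3 S).image φ := by
  unfold S3
  ext l
  simp only [Finset.mem_image, Finset.mem_product]
  constructor
  · rintro ⟨⟨x, y, z⟩, ⟨⟨x', hx, rfl⟩, ⟨y', hy, rfl⟩, ⟨z', hz, rfl⟩⟩, rfl⟩
    exact ⟨x' + y' + z', ⟨(x', y', z'), ⟨hx, hy, hz⟩, rfl⟩, by rw [hadd, hadd]⟩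
  · rintro ⟨w, ⟨⟨x, y, z⟩, ⟨hx, hy, hz⟩, rfl⟩, rfl⟩
    exact ⟨(φ x, φ y, φ z), ⟨⟨x, hx, rfl⟩, ⟨y, hy, rfl⟩, ⟨z, hz, rfl⟩⟩, by rw [hadd, hadd]⟩

private theorem image_cub_32 (φ : ℤ × ℤ → ℤ × ℤ) (hadd : ∀ k l, φ (k + l) = φ k + φ l) (hφ : Function.Injective φ) (S : Finset (ℤ × ℤ))
    (a : ℤ × ℤ → ℂ) (l : ℤ × ℤ) : cub (S.image φ) a (φ l) = cub S (fun k => a (φ k)) l := by
  unfold cub
  rw [Finset.sum_filter, Finset.sum_filter]
  simp only [Finset.sum_product]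
  rw [Finset.sum_image (fun x _ y _ h => hφ h)]
  refine Finset.sum_congr rfl fun x _ => ?_
  rw [Finset.sum_image (fun x _ y _ h => hφ h)]
  refine Finset.sum_congr rfl fun y _ => ?_
  rw [Finset.sum_image (fun x _ y _ h => hφ h)]
  refine Finset.sum_congr rfl fun z _ => ?_
  rw [← hadd, ← hadd]
  simp only [hφ.eq_iff]

theorem m12_image (φ : ℤ × ℤ → ℤ × ℤ) (hadd : ∀ k l, φ (k + l) = φ k + φ l) (hinj : Function.Injective φ) (S : Finset (ℤ × ℤ))
    (a : ℤ × ℤ → ℂ) : m12 (S.image φ) a = m12 S (fun k => a (φ k)) := by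
  rw [Pool.Agent.Helper92.DT.m12_eq, Pool.Agent.Helper92.DT.m12_eq]
  have h3 := image_s3_32 φ hadd S
  have h6 : Pool.Agent.Helper92.DT.S6 (S.image φ) = (Pool.Agent.Helper92.DT.S6 S).image φ := by
    unfold Pool.Agent.Helper92.DT.S6
    rw [h3]
    ext l
    simp only [Finset.mem_image, Finset.mem_product]
    constructor
    · rintro ⟨⟨x, y⟩, ⟨⟨x', hx, rfl⟩, ⟨y', hy, rfl⟩⟩, rfl⟩
      exact ⟨x' + y', ⟨(x', y'), ⟨hx, hy⟩, rfl⟩, by rw [hadd]⟩
    · rintro ⟨w, ⟨⟨x, y⟩, ⟨hx, hy⟩, rfl⟩, rfl⟩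
      exact ⟨(φ x, φ y), ⟨⟨x, hx, rfl⟩, ⟨y, hy, rfl⟩⟩, by rw [hadd]⟩
  rw [h6, Finset.sum_image (fun x _ y _ h => hinj h)]
  refine Finset.sum_congr rfl fun l _ => ?_
  have h4 : Pool.Agent.Helper92.DT.six (S.image φ) a (φ l) = Pool.Agent.Helper92.DT.six S (fun k => a (φ k)) l := by
    unfold Pool.Agent.Helper92.DT.six
    rw [h3, Finset.sum_filter, Finset.sum_filter]
    simp only [Finset.sum_product]
    rw [Finset.sum_image (fun x _ y _ h => hinj h)]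
    refine Finset.sum_congr rfl fun x _ => ?_
    rw [Finset.sum_image (fun x _ y _ h => hinj h)]
    refine Finset.sum_congr rfl fun y _ => ?_
    rw [← hadd, image_cub_32 φ hadd hinj, image_cub_32 φ hadd hinj]
    simp only [hinj.eq_iff]
  rw [h4]

theorem fr_coord {θ y T x : ℝ} (hT : 0 < T) : Tf (fr θ y T x) = T ∧ xf (fr θ y T x) = x ∧ yf (fr θ y T x) = y ∧ df (fr θ y T x) = T ^ 2 * y := by
  have h1 := cos_sq_add_sin_sq θ
  have hT2 : T ^ 2 ≠ 0 := by positivity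
  have h2 : (T * cos θ) ^ 2 + (T * sin θ) ^ 2 = T ^ 2 := by
    linear_combination T ^ 2 * h1
  have h3 : df (fr θ y T x) = T ^ 2 * y := by
    simp only [df, fr]
    linear_combination T ^ 2 * y * h1
  refine ⟨?_, ?_, ?_, h3⟩
  · simp only [Tf, fr]
    rw [h2, sqrt_sq hT.le]
  · simp only [xf, fr]
    rw [h2, div_eq_iff hT2]
    linear_combination T ^ 2 * x * h1
  · unfold yf
    rw [h3]
    simp only [fr]
    rw [h2]
    field_simp

theorem vf_fr {c₁ B : ℝ} {h : ℝ × ℝ → ℝ} (hh : Hom c₁ B h) {θ y T x : ℝ} (hT : 0 < T) {k : ℤ × ℤ} (hu : 0 < uu x k) :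
    h (vf (fr θ y T x) k) = T * pf (sl h θ) x y k := by
  have h1 := hh.hom (T * uu x k) (cos θ - (y * tt x k) * sin θ, sin θ + (y * tt x k) * cos θ) (mul_pos hT hu)
  have h2 : uu x k * tt x k = k.2 := by
    unfold tt
    field_simp
  have h3 : (k.1 : ℝ) = uu x k - x * k.2 := by
    unfold uu
    ring
  have h4 : vf (fr θ y T x) k = (T * uu x k * (cos θ - (y * tt x k) * sin θ), T * uu x k * (sin θ + (y * tt x k) * cos θ)) := by
    simp only [vf, fr]
    rw [h3]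
    refine Prod.ext ?_ ?_
    · simp only
      linear_combination (T * y * sin θ) * h2
    · simp only
      linear_combination (-(T * y * cos θ)) * h2
  rw [h4]
  simp only at h1
  rw [h1]
  unfold pf sl
  ring

private theorem upos_32 {L S K T x : ℝ} (hT : 0 < T) (hL : 0 < L) (hK : 0 < K) (hS : 0 ≤ S) {k : ℤ × ℤ} (hk : k ∈ st L S K T x) :
    0 < uu x k := by
  have h1 := ((mem_st hT hL hK hS).1 hk).1
  have h2 : 0 < L * (T * uu x k) := hK.trans_le h1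
  exact pos_of_mul_pos_right (pos_of_mul_pos_right h2 hL.le) hT.le

theorem PP_fr {c₁ B : ℝ} {h : ℝ × ℝ → ℝ} (hh : Hom c₁ B h) {θ y T x L S K : ℝ} (hT : 0 < T) (hL : 0 < L) (hK : 0 < K) (hS : 0 ≤ S) :
    PP h L S K (fr θ y T x) = ENNReal.ofReal (W (sl h θ) y (st L S K T x) (fun _ => 1) T x) := by
  obtain ⟨h1, h2, -, -⟩ := fr_coord (θ := θ) (y := y) (x := x) hT
  unfold PP W
  rw [h1, h2]
  congr 1
  refine Pool.Agent.Helper92.DT.m12_congr fun k hk => ?_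
  rw [vf_fr hh hT (upos_32 hT hL hK hS hk), one_mul]

theorem QQ_fr {c₁ B : ℝ} {h : ℝ × ℝ → ℝ} (hh : Hom c₁ B h) {θ y T x L ρ K : ℝ} (hT : 0 < T) (hL : 0 < L) (hK : 0 < K) (hρ : 0 ≤ ρ) :
    QQ h L ρ K (fr θ y T x) = ENNReal.ofReal (W (sl h θ) y (sh L ρ K T x) (fun _ => 1) T x) := by
  obtain ⟨h1, h2, -, -⟩ := fr_coord (θ := θ) (y := y) (x := x) hT
  unfold QQ W
  rw [h1, h2]
  congr 1
  refine Pool.Agent.Helper92.DT.m12_congr fun k hk => ?_
  have hk' : k ∈ st L ρ K T x := by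
    unfold sh at hk
    exact (Finset.mem_filter.1 hk).1
  rw [vf_fr hh hT (upos_32 hT hL hK hρ hk'), one_mul]

/-- every frame with `T > 0` has coordinates -/
theorem fr_surj {f : Fr} (hf : 0 < Tf f) : ∃ θ ∈ Ioc (-π) π, f = fr θ (yf f) (Tf f) (xf f) := by
  obtain ⟨⟨a, b⟩, ⟨c, d⟩⟩ := f
  set z : ℂ := ⟨a, b⟩ with hz
  have hn : ‖z‖ = Tf ((a, b), (c, d)) := by
    rw [Complex.norm_def, Complex.normSq_apply]
    unfold Tf
    congr 1
    simp only [hz]
    ring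
  have hc : Tf ((a, b), (c, d)) * cos z.arg = a := by
    rw [← hn, Complex.norm_mul_cos_arg]
  have hs : Tf ((a, b), (c, d)) * sin z.arg = b := by
    rw [← hn, Complex.norm_mul_sin_arg]
  have h0 : 0 < a ^ 2 + b ^ 2 := by
    have : 0 < sqrt (a ^ 2 + b ^ 2) := hf
    exact sqrt_pos.1 this
  refine ⟨z.arg, Complex.arg_mem_Ioc z, ?_⟩
  have e1 : Tf ((a, b), (c, d)) * (xf ((a, b), (c, d)) * cos z.arg - yf ((a, b), (c, d)) * sin z.arg) = c := by
    have : Tf ((a, b), (c, d)) * (xf ((a, b), (c, d)) * cos z.arg - yf ((a, b), (c, d)) * sin z.arg) =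
        xf ((a, b), (c, d)) * a - yf ((a, b), (c, d)) * b := by
      linear_combination xf ((a, b), (c, d)) * hc - yf ((a, b), (c, d)) * hs
    rw [this]
    simp only [xf, yf, df]
    field_simp
    ring
  have e2 : Tf ((a, b), (c, d)) * (xf ((a, b), (c, d)) * sin z.arg + yf ((a, b), (c, d)) * cos z.arg) = d := by
    have : Tf ((a, b), (c, d)) * (xf ((a, b), (c, d)) * sin z.arg + yf ((a, b), (c, d)) * cos z.arg) =
        xf ((a, b), (c, d)) * b + yf ((a, b), (c, d)) * a := by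
      linear_combination xf ((a, b), (c, d)) * hs + yf ((a, b), (c, d)) * hc
    rw [this]
    simp only [xf, yf, df]
    field_simp
    ring
  unfold fr
  rw [hc, hs, e1, e2]

private def sr32 (k : ℤ × ℤ) : ℤ × ℤ := (k.1 + k.2, k.2)

private theorem sr_inj_32 : Function.Injective sr32 := by
  rintro ⟨a, b⟩ ⟨c, d⟩ h
  simp only [sr32, Prod.mk.injEq] at h
  obtain ⟨h1, h2⟩ := h
  subst h2
  have : a = c := by omega
  rw [this]

private theorem sr_add_32 (k l : ℤ × ℤ) : sr32 (k + l) = sr32 k + sr32 l := by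
  simp only [sr32, Prod.fst_add, Prod.snd_add, Prod.mk_add_mk, Prod.mk.injEq, and_true]
  ring

private theorem uu_sr_32 (x : ℝ) (k : ℤ × ℤ) : uu x (sr32 k) = uu (x + 1) k := by
  simp only [uu, sr32]
  push_cast
  ring

private theorem st_sr_32 {L S K T x : ℝ} (hT : 0 < T) (hL : 0 < L) (hK : 0 < K) (hS : 0 ≤ S) :
    (st L S K T (x + 1)).image sr32 = st L S K T x := by
  ext k
  rw [Finset.mem_image]
  constructor
  · rintro ⟨l, hl, rfl⟩
    rw [mem_st hT hL hK hS] at hl ⊢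
    rw [uu_sr_32]
    exact hl
  · intro hk
    have hk2 : sr32 (k.1 - k.2, k.2) = k := by
      simp [sr32]
    refine ⟨(k.1 - k.2, k.2), ?_, hk2⟩
    rw [mem_st hT hL hK hS] at hk ⊢
    rw [← uu_sr_32, hk2]
    exact hk

private theorem sh_sr_32 {L ρ K T x : ℝ} (hT : 0 < T) (hL : 0 < L) (hK : 0 < K) (hS : 0 ≤ ρ) :
    (sh L ρ K T (x + 1)).image sr32 = sh L ρ K T x := by
  classical
  unfold sh
  ext k
  rw [Finset.mem_image, Finset.mem_filter]
  constructor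
  · rintro ⟨l, hl, rfl⟩
    rw [Finset.mem_filter] at hl
    refine ⟨?_, ?_⟩
    · rw [← st_sr_32 hT hL hK hS]
      exact Finset.mem_image_of_mem _ hl.1
    · rw [uu_sr_32]
      exact hl.2
  · rintro ⟨hk, hk1⟩
    rw [← st_sr_32 hT hL hK hS, Finset.mem_image] at hk
    obtain ⟨l, hl, rfl⟩ := hk
    refine ⟨l, Finset.mem_filter.2 ⟨hl, ?_⟩, rfl⟩
    rw [uu_sr_32] at hk1
    exact hk1

private theorem xf_sr_32 {f : Fr} (hf : 0 < Tf f) : xf (f.1, (f.2.1 + f.1.1, f.2.2 + f.1.2)) = xf f + 1 := by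
  have h0 : 0 < f.1.1 ^ 2 + f.1.2 ^ 2 := sqrt_pos.1 hf
  simp only [xf]
  field_simp
  ring

private theorem vf_sr_32 (f : Fr) (k : ℤ × ℤ) : vf (f.1, (f.2.1 + f.1.1, f.2.2 + f.1.2)) k = vf f (sr32 k) := by
  simp only [vf, sr32]
  refine Prod.ext ?_ ?_
  · simp only
    push_cast
    ring
  · simp only
    push_cast
    ring

theorem PP_shear {h : ℝ × ℝ → ℝ} {L S K : ℝ} (hL : 0 < L) (hK : 0 < K) (hS : 0 ≤ S) (f : Fr) (hf : 0 < Tf f) :
    PP h L S K (f.1, (f.2.1 + f.1.1, f.2.2 + f.1.2)) = PP h L S K f := by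
  have hT : Tf (f.1, (f.2.1 + f.1.1, f.2.2 + f.1.2)) = Tf f := rfl
  unfold PP
  rw [hT, xf_sr_32 hf, ← st_sr_32 (x := xf f) hf hL hK hS, m12_image sr32 sr_add_32 sr_inj_32]
  congr 1
  refine Pool.Agent.Helper92.DT.m12_congr fun k _ => ?_
  rw [vf_sr_32]

theorem QQ_shear {h : ℝ × ℝ → ℝ} {L S K : ℝ} (hL : 0 < L) (hK : 0 < K) (hS : 0 ≤ S) (f : Fr) (hf : 0 < Tf f) :
    QQ h L S K (f.1, (f.2.1 + f.1.1, f.2.2 + f.1.2)) = QQ h L S K f := by
  have hT : Tf (f.1, (f.2.1 + f.1.1, f.2.2 + f.1.2)) = Tf f := rfl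
  unfold QQ
  rw [hT, xf_sr_32 hf, ← sh_sr_32 (x := xf f) hf hL hK hS, m12_image sr32 sr_add_32 sr_inj_32]
  congr 1
  refine Pool.Agent.Helper92.DT.m12_congr fun k _ => ?_
  rw [vf_sr_32]

private theorem Tf_ac_32 (n m m' : ℤ × ℤ) (f : Fr) : Tf (ac n m f) = Tf (ac n m' f) := rfl

private theorem ac_step_32 (n m : ℤ × ℤ) (f : Fr) :
    ac n (m + n) f = ((ac n m f).1, ((ac n m f).2.1 + (ac n m f).1.1, (ac n m f).2.2 + (ac n m f).1.2)) := by
  simp only [ac, vf, Prod.fst_add, Prod.snd_add]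
  refine Prod.ext rfl (Prod.ext ?_ ?_)
  · simp only
    push_cast
    ring
  · simp only
    push_cast
    ring

private theorem PP_nat_32 {h : ℝ × ℝ → ℝ} {L S K : ℝ} (hL : 0 < L) (hK : 0 < K) (hS : 0 ≤ S) (f : Fr) {n m : ℤ × ℤ}
    (hf : 0 < Tf (ac n m f)) (j : ℕ) : PP h L S K (ac n (m + j • n) f) = PP h L S K (ac n m f) := by
  induction j with
  | zero => rw [zero_smul, add_zero]
  | succ j ih =>
    rw [succ_nsmul, ← add_assoc, ac_step_32]
    rw [PP_shear hL hK hS (ac n (m + j • n) f) (by rw [Tf_ac_32 n _ m]; exact hf)]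
    exact ih

/-- the complement is irrelevant -/
theorem PP_co {h : ℝ × ℝ → ℝ} {L S K : ℝ} (hL : 0 < L) (hK : 0 < K) (hS : 0 ≤ S) (f : Fr) {n n' : ℤ × ℤ} (hn : n.1 * n'.2 - n.2 * n'.1 = 1)
    (hf : 0 < Tf (ac n n' f)) : PP h L S K (ac n n' f) = PP h L S K (ac n (co n) f) := by
  have hex : ∃ n' : ℤ × ℤ, n.1 * n'.2 - n.2 * n'.1 = 1 := ⟨n', hn⟩
  have hc : n.1 * (co n).2 - n.2 * (co n).1 = 1 := by
    unfold co
    rw [dif_pos hex]
    exact hex.choose_spec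
  have hd : n.1 * ((co n).2 - n'.2) = n.2 * ((co n).1 - n'.1) := by
    linear_combination hc - hn
  obtain ⟨j, hj⟩ : ∃ j : ℤ, co n = n' + j • n := by
    refine ⟨((co n).1 - n'.1) * n'.2 - ((co n).2 - n'.2) * n'.1, Prod.ext ?_ ?_⟩
    · simp only [Prod.fst_add, Prod.smul_fst, smul_eq_mul]
      linear_combination (-((co n).1 - n'.1)) * hn + n'.1 * hd
    · simp only [Prod.snd_add, Prod.smul_snd, smul_eq_mul]
      linear_combination (-((co n).2 - n'.2)) * hn + n'.2 * hd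
  obtain ⟨m, hm | hm⟩ := Int.eq_nat_or_neg j
  · have h1 : co n = n' + m • n := by
      rw [hj, hm, natCast_zsmul]
    rw [h1, PP_nat_32 hL hK hS f hf]
  · have h1 : n' = co n + m • n := by
      rw [hj, hm, neg_smul, natCast_zsmul, neg_add_cancel_right]
    rw [h1, PP_nat_32 hL hK hS f (by rw [Tf_ac_32 n _ n']; exact hf)]

theorem co_spec {n : ℤ × ℤ} (hn : IsCoprime n.1 n.2) : n.1 * (co n).2 - n.2 * (co n).1 = 1 := by
  obtain ⟨a, b, hab⟩ := hn
  have hex : ∃ n' : ℤ × ℤ, n.1 * n'.2 - n.2 * n'.1 = 1 := ⟨(-b, a), by simp only; linear_combination hab⟩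
  unfold co
  rw [dif_pos hex]
  exact hex.choose_spec

end Pool.Agent.Helper60.LT
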