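import Pool.Agent.Helper60.LT.A2

/-!
# LT-A3: transfer to the frame of a primitive vector

PROOF. `T = Tf f`, `x = xf f`, `y = yf f`, `e₁ = T e`, `e₂ = T (x e + y e^⊥)` (`fr_surj`), `n' = co n`, `g = ac n n' f`, `T' = Tf g`. For `k` put `k' = (k₁ n₂' - k₂ n₁', n₁ k₂ - n₂ k₁)`, so `k = k'₁ n + k'₂ n'`
(`det = 1`), `vf f k = vf g k'`, `k'₂ = dd n k`. `vf f k = T (u_k e + y k₂ e^⊥)`, so `T'² = T² (u_n² + y² n₂²)` and `T'² uu (xf g) k' = ⟨vf f n, vf f k⟩ = T² (u_n u_k + y² n₂ k₂)`. With `s = tt x n`, `t = tt x k`: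
`T' uu (xf g) k' = T u_k (1 + y² s t)/√(1 + y² s²)`, between `(9/10) T u_k` and `(11/10) T u_k` as `y|s|, y|t| ≤ 1/4`; `k'₂ = n₁ k₂ - n₂ k₁ = u_n k₂ - n₂ u_k = u_n u_k (t - s)` and
`k'₂/uu (xf g) k' = u_n² (t - s) (1 + y² s²)/(1 + y² s t)`, of absolute value `≤ σ (17/16)/(15/16) ≤ 6σ/5`.
So the image `I'` of `I` under the unimodular map `k ↦ k'` is contained in `S' = st (2L) (6σ/5) K T' (xf g)`, `m12 I (ee h(vf f ·)) = m12 I' (ee h(vf g ·))` (`m12_image` for the inverse map `k' ↦ k'₁ n + k'₂ n'`), and with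
`S''` the image of `S'` under `k' ↦ k'₁ n + k'₂ n'`: `I ⊆ S''`, `m12_cut`, `m12_image` again.
-/

open MeasureTheory Real Set Filter Topology

set_option autoImplicit false

namespace Pool.Agent.Helper60.LT

open Pool.Agent.Helper22.AE
open Pool.Agent.Helper92.GC (dt tp Tq uu tt arc gs dd)
open Pool.Agent.Helper92.DT (m12 IsMul12)

private lemma Tf_sq_h4 (f : Fr) : Tf f ^ 2 = f.1.1 ^ 2 + f.1.2 ^ 2 := by
  unfold Tf
  exact Real.sq_sqrt (by positivity)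

/-- inner products in the frame `f` -/
private lemma inner_h4 {f : Fr} (hf : 0 < Tf f) (k l : ℤ × ℤ) :
    (vf f k).1 * (vf f l).1 + (vf f k).2 * (vf f l).2 =
      Tf f ^ 2 * (uu (xf f) k * uu (xf f) l + yf f ^ 2 * ((k.2 : ℝ) * (l.2 : ℝ))) := by
  have hN : 0 < f.1.1 ^ 2 + f.1.2 ^ 2 := by
    rw [← Tf_sq_h4]
    positivity
  rw [Tf_sq_h4]
  unfold vf uu xf yf df
  field_simp
  ring

private lemma Tf_ac_sq_h4 {f : Fr} (hf : 0 < Tf f) (n n' : ℤ × ℤ) :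
    Tf (ac n n' f) ^ 2 = Tf f ^ 2 * (uu (xf f) n ^ 2 + yf f ^ 2 * (n.2 : ℝ) ^ 2) := by
  rw [Tf_sq_h4]
  have h := inner_h4 hf n n
  show (vf f n).1 ^ 2 + (vf f n).2 ^ 2 = _
  rw [pow_two, pow_two, h]
  ring

private lemma Tf_nonneg_h4 (f : Fr) : 0 ≤ Tf f := Real.sqrt_nonneg _

private lemma s2_h4 {y s : ℝ} (hy : 0 < y) (hs : y * |s| ≤ 1 / 4) : y ^ 2 * s ^ 2 ≤ 1 / 16 := by
  have h1 : (y * |s|) ^ 2 ≤ (1 / 4) ^ 2 := pow_le_pow_left₀ (by positivity) hs 2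
  rw [mul_pow, sq_abs] at h1
  linarith

private lemma st_h4 {y s t : ℝ} (hy : 0 < y) (hs : y * |s| ≤ 1 / 4) (ht : y * |t| ≤ 1 / 4) :
    |y ^ 2 * (s * t)| ≤ 1 / 16 := by
  have h1 : |y ^ 2 * (s * t)| = (y * |s|) * (y * |t|) := by
    rw [abs_mul, abs_mul, abs_of_pos (by positivity : 0 < y ^ 2)]
    ring
  rw [h1]
  calc (y * |s|) * (y * |t|) ≤ (1 / 4) * (1 / 4) := mul_le_mul hs ht (by positivity) (by norm_num)
    _ = 1 / 16 := by norm_num

private lemma le_of_sq_le_sq_h4 {a b : ℝ} (h : a ^ 2 ≤ b ^ 2) (hb : 0 ≤ b) : a ≤ b :=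
  le_trans (le_abs_self a) (abs_le_of_sq_le_sq h hb)

/-- the frame `g`: the estimates -/
private lemma est_h4 {f : Fr} (hf : 0 < Tf f) (hy : 0 < yf f) {n n' : ℤ × ℤ}
    (hdet : n.1 * n'.2 - n.2 * n'.1 = 1) (hun : 0 < uu (xf f) n) (hsn : yf f * |tt (xf f) n| ≤ 1 / 4)
    {k : ℤ × ℤ} (huk : 0 < uu (xf f) k) (hsk : yf f * |tt (xf f) k| ≤ 1 / 4) (k' : ℤ × ℤ)
    (hk1 : k.1 = k'.1 * n.1 + k'.2 * n'.1) (hk2 : k.2 = k'.1 * n.2 + k'.2 * n'.2) :
    0 < Tf (ac n n' f) ∧ 9 / 10 * (Tf f * uu (xf f) k) ≤ Tf (ac n n' f) * uu (xf (ac n n' f)) k' ∧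
      Tf (ac n n' f) * uu (xf (ac n n' f)) k' ≤ 11 / 10 * (Tf f * uu (xf f) k) ∧
      |(k'.2 : ℝ)| ≤ 6 / 5 * (|tt (xf f) k - tt (xf f) n| * uu (xf f) n ^ 2) * uu (xf (ac n n' f)) k' := by
  set T := Tf f with hT
  set y := yf f with hyy
  set x := xf f with hx
  set un := uu x n with hun'
  set uk := uu x k with huk'
  set s := tt x n with hs
  set t := tt x k with ht
  set g := ac n n' f with hg
  set T' := Tf g with hT'
  set u' := uu (xf g) k' with hu'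
  have hn2 : (n.2 : ℝ) = s * un := by
    rw [hs]
    unfold tt
    rw [← hun']
    field_simp
  have hk2r : (k.2 : ℝ) = t * uk := by
    rw [ht]
    unfold tt
    rw [← huk']
    field_simp
  have hs2 := s2_h4 hy hsn
  have hst := abs_le.1 (st_h4 hy hsn hsk)
  -- `T'`
  have hT'2 : T' ^ 2 = T ^ 2 * un ^ 2 * (1 + y ^ 2 * s ^ 2) := by
    rw [hT', hg, Tf_ac_sq_h4 hf, hn2]
    ring
  have hT'0 : 0 < T' := by
    have h1 : 0 < T' ^ 2 := by
      rw [hT'2]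
      have : 0 ≤ y ^ 2 * s ^ 2 := by positivity
      positivity
    have h2 : 0 ≤ T' := Tf_nonneg_h4 g
    exact lt_of_le_of_ne h2 (fun h3 => by rw [← h3] at h1; simp at h1)
  have hTun : 0 < T * un := mul_pos hf hun
  -- `vf g k' = vf f k`
  have hvf : vf g k' = vf f k := by
    rw [hg]
    unfold ac vf
    rw [hk1, hk2]
    ext
    · push_cast
      ring
    · push_cast
      ring
  -- `u'`
  have hu'eq : T' ^ 2 * u' = T ^ 2 * (un * uk) * (1 + y ^ 2 * (s * t)) := by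
    have h1 := inner_h4 (f := g) hT'0 (1, 0) k'
    have h2 : vf g (1, 0) = vf f n := by
      rw [hg]
      unfold ac
      ext
      · simp [vf]
      · simp [vf]
    rw [hvf, h2, inner_h4 hf n k] at h1
    have h3 : uu (xf g) (1, 0) = 1 := by simp [uu]
    rw [h3, ← hu'] at h1
    simp only [Int.cast_zero, zero_mul, mul_zero, add_zero, one_mul] at h1
    rw [← h1, ← hT, ← hx, ← hyy, ← hun', ← huk', hn2, hk2r]
    ring
  -- square root
  have hr1 : T * un ≤ T' := by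
    have h1 : (T * un) ^ 2 ≤ T' ^ 2 := by
      rw [hT'2]
      have : 0 ≤ y ^ 2 * s ^ 2 := by positivity
      have h2 : 0 < T ^ 2 * un ^ 2 := by positivity
      nlinarith
    exact le_of_sq_le_sq_h4 h1 hT'0.le
  have hr2 : T' ≤ 104 / 100 * (T * un) := by
    have h1 : T' ^ 2 ≤ (104 / 100 * (T * un)) ^ 2 := by
      rw [hT'2]
      have h2 : 0 < T ^ 2 * un ^ 2 := by positivity
      nlinarith
    exact le_of_sq_le_sq_h4 h1 (by positivity)
  -- `T' u'`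
  obtain ⟨c, hc⟩ : ∃ c, c = 1 + y ^ 2 * (s * t) := ⟨_, rfl⟩
  have hc1 : 15 / 16 ≤ c := by rw [hc]; linarith [hst.1]
  have hc2 : c ≤ 17 / 16 := by rw [hc]; linarith [hst.2]
  have hu'0 : 0 < u' := by
    have h1 : 0 < T' ^ 2 * u' := by
      rw [hu'eq, ← hc]
      positivity
    exact (mul_pos_iff_of_pos_left (by positivity)).1 h1
  have hkey : T' * (T' * u') = (T * un) * (T * uk * c) := by
    have h1 : T' * (T' * u') = T' ^ 2 * u' := by ring
    rw [h1, hu'eq, hc]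
    ring
  have hTuk : 0 < T * uk := mul_pos hf huk
  have hlow : 9 / 10 * (T * uk) ≤ T' * u' := by
    by_contra hcon
    push Not at hcon
    have h1 : T' * (T' * u') < 104 / 100 * (T * un) * (9 / 10 * (T * uk)) := by
      calc T' * (T' * u') < T' * (9 / 10 * (T * uk)) := mul_lt_mul_of_pos_left hcon hT'0
        _ ≤ 104 / 100 * (T * un) * (9 / 10 * (T * uk)) :=
          mul_le_mul_of_nonneg_right hr2 (by positivity)
    rw [hkey] at h1
    have h2 : (T * un) * (T * uk * c) < (T * un) * (T * uk * (936 / 1000)) := by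
      calc _ < _ := h1
        _ = _ := by ring
    have h3 := lt_of_mul_lt_mul_left h2 hTun.le
    have h4 := lt_of_mul_lt_mul_left h3 hTuk.le
    linarith
  have hup : T' * u' ≤ 11 / 10 * (T * uk) := by
    by_contra hcon
    push Not at hcon
    have h1 : (T * un) * (11 / 10 * (T * uk)) < T' * (T' * u') := by
      calc (T * un) * (11 / 10 * (T * uk)) ≤ T' * (11 / 10 * (T * uk)) :=
            mul_le_mul_of_nonneg_right hr1 (by positivity)
        _ < T' * (T' * u') := mul_lt_mul_of_pos_left hcon hT'0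
    rw [hkey] at h1
    have h3 := lt_of_mul_lt_mul_left h1 hTun.le
    nlinarith
  -- `k'₂`
  have hk'2 : (k'.2 : ℝ) = un * uk * (t - s) := by
    have h1 : k'.2 = n.1 * k.2 - n.2 * k.1 := by
      rw [hk1, hk2]
      linear_combination (-k'.2) * hdet
    have h2 : (k'.2 : ℝ) = (n.1 : ℝ) * k.2 - n.2 * k.1 := by
      rw [h1]
      push_cast
      ring
    have h3 : (n.1 : ℝ) = un - x * n.2 := by
      rw [hun']
      unfold uu
      ring
    have h4 : (k.1 : ℝ) = uk - x * k.2 := by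
      rw [huk']
      unfold uu
      ring
    rw [h2, h3, h4, hn2, hk2r]
    ring
  refine ⟨hT'0, hlow, hup, ?_⟩
  -- `un uk = un² u' (1 + y² s²)/c`
  have h5 : un * uk * c = un ^ 2 * (1 + y ^ 2 * s ^ 2) * u' := by
    have h6 : T ^ 2 * (un * uk * c) = T ^ 2 * (un ^ 2 * (1 + y ^ 2 * s ^ 2) * u') := by
      have h7 := hu'eq
      rw [hT'2, ← hc] at h7
      linarith
    exact mul_left_cancel₀ (by positivity) h6
  have h8 : un * uk ≤ 6 / 5 * (un ^ 2 * u') := by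
    have h9 : un * uk * (15 / 16) ≤ un * uk * c := mul_le_mul_of_nonneg_left hc1 (by positivity)
    have h10 : un ^ 2 * (1 + y ^ 2 * s ^ 2) * u' ≤ un ^ 2 * (17 / 16) * u' := by
      refine mul_le_mul_of_nonneg_right (mul_le_mul_of_nonneg_left (by linarith) (by positivity)) hu'0.le
    have h11 : 0 < un ^ 2 * u' := by positivity
    nlinarith
  rw [hk'2, abs_mul, abs_of_pos (mul_pos hun huk)]
  calc un * uk * |t - s| ≤ 6 / 5 * (un ^ 2 * u') * |t - s| :=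
        mul_le_mul_of_nonneg_right h8 (abs_nonneg _)
    _ = 6 / 5 * (|t - s| * un ^ 2) * u' := by ring

theorem transfer {h : ℝ × ℝ → ℝ} {L K σ C : ℝ} (hL : 1 ≤ L) (hK : 0 < K) (hσ : 0 < σ) {f : Fr} (hf : 0 < Tf f) (hy : 0 < yf f)
    {n : ℤ × ℤ} (hn : IsCoprime n.1 n.2) (hun : 0 < uu (xf f) n) (hsn : yf f * |tt (xf f) n| ≤ 1 / 4) {I : Finset (ℤ × ℤ)} (hC : Cut C I)
    (hI : ∀ k ∈ I, K ≤ L * (Tf f * uu (xf f) k) ∧ Tf f * uu (xf f) k ≤ L * K ∧ yf f * |tt (xf f) k| ≤ 1 / 4 ∧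
      |tt (xf f) k - tt (xf f) n| * uu (xf f) n ^ 2 ≤ σ) :
    ENNReal.ofReal (m12 I (fun k => ee (h (vf f k)))) ≤ ENNReal.ofReal (C ^ 12) * PP h (2 * L) (6 * σ / 5) K (ac n (co n) f) := by
  classical
  obtain ⟨a, b, hab⟩ := hn
  have hex : ∃ n' : ℤ × ℤ, n.1 * n'.2 - n.2 * n'.1 = 1 := ⟨(-b, a), by dsimp only; linarith⟩
  have hdet : n.1 * (co n).2 - n.2 * (co n).1 = 1 := by
    unfold co
    rw [dif_pos hex]
    exact hex.choose_spec
  obtain ⟨n', hn'⟩ : ∃ n', n' = co n := ⟨_, rfl⟩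
  rw [← hn'] at hdet ⊢
  let ψ : ℤ × ℤ → ℤ × ℤ := fun k' => (k'.1 * n.1 + k'.2 * n'.1, k'.1 * n.2 + k'.2 * n'.2)
  let φ : ℤ × ℤ → ℤ × ℤ := fun k => (k.1 * n'.2 - k.2 * n'.1, n.1 * k.2 - n.2 * k.1)
  have hφψ : ∀ k, ψ (φ k) = k := by
    intro k
    ext
    · show (k.1 * n'.2 - k.2 * n'.1) * n.1 + (n.1 * k.2 - n.2 * k.1) * n'.1 = k.1
      linear_combination k.1 * hdet
    · show (k.1 * n'.2 - k.2 * n'.1) * n.2 + (n.1 * k.2 - n.2 * k.1) * n'.2 = k.2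
      linear_combination k.2 * hdet
  have hψφ : ∀ k, φ (ψ k) = k := by
    intro k
    ext
    · show (k.1 * n.1 + k.2 * n'.1) * n'.2 - (k.1 * n.2 + k.2 * n'.2) * n'.1 = k.1
      linear_combination k.1 * hdet
    · show n.1 * (k.1 * n.2 + k.2 * n'.2) - n.2 * (k.1 * n.1 + k.2 * n'.1) = k.2
      linear_combination k.2 * hdet
  have hadd : ∀ k l, ψ (k + l) = ψ k + ψ l := by
    intro k l
    ext
    · show (k.1 + l.1) * n.1 + (k.2 + l.2) * n'.1 = (k.1 * n.1 + k.2 * n'.1) + (l.1 * n.1 + l.2 * n'.1)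
      ring
    · show (k.1 + l.1) * n.2 + (k.2 + l.2) * n'.2 = (k.1 * n.2 + k.2 * n'.2) + (l.1 * n.2 + l.2 * n'.2)
      ring
  have hinj : Function.Injective ψ := Function.LeftInverse.injective hψφ
  obtain ⟨g, hg⟩ : ∃ g, g = ac n n' f := ⟨_, rfl⟩
  rw [← hg]
  have hsub : I ⊆ (st (2 * L) (6 * σ / 5) K (Tf g) (xf g)).image ψ := by
    intro k hk
    rw [Finset.mem_image]
    refine ⟨φ k, ?_, hφψ k⟩
    obtain ⟨h1, h2, h3, h4⟩ := hI k hk
    have huk : 0 < uu (xf f) k := by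
      have h5 : 0 < L * (Tf f * uu (xf f) k) := hK.trans_le h1
      have h6 : 0 < Tf f * uu (xf f) k := (mul_pos_iff_of_pos_left (by linarith)).1 h5
      exact (mul_pos_iff_of_pos_left hf).1 h6
    have hp := congrArg Prod.fst (hφψ k)
    have hp2 := congrArg Prod.snd (hφψ k)
    obtain ⟨e1, e2, e3, e4⟩ := est_h4 hf hy hdet hun hsn huk h3 (φ k) hp.symm hp2.symm
    rw [← hg] at e1 e2 e3 e4
    rw [mem_st e1 (by linarith) hK (by positivity)]
    have hu' : 0 < uu (xf g) (φ k) := by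
      have h5 : 0 < Tf g * uu (xf g) (φ k) := by
        have : 0 < Tf f * uu (xf f) k := mul_pos hf huk
        linarith
      exact (mul_pos_iff_of_pos_left e1).1 h5
    have hTk : 0 < Tf f * uu (xf f) k := mul_pos hf huk
    refine ⟨?_, ?_, ?_⟩
    · nlinarith
    · nlinarith
    · refine e4.trans ?_
      have h5 : 6 / 5 * (|tt (xf f) k - tt (xf f) n| * uu (xf f) n ^ 2) ≤ 6 * σ / 5 := by linarith
      exact mul_le_mul_of_nonneg_right h5 hu'.le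
  have hcut := m12_cut hC hsub (fun k => ee (h (vf f k)))
  rw [m12_image ψ hadd hinj] at hcut
  have hvf : ∀ k, vf f (ψ k) = vf g k := by
    intro k
    rw [hg]
    ext
    · show ((k.1 * n.1 + k.2 * n'.1 : ℤ) : ℝ) * f.1.1 + ((k.1 * n.2 + k.2 * n'.2 : ℤ) : ℝ) * f.2.1 =
        (k.1 : ℝ) * (n.1 * f.1.1 + n.2 * f.2.1) + (k.2 : ℝ) * (n'.1 * f.1.1 + n'.2 * f.2.1)
      push_cast
      ring
    · show ((k.1 * n.1 + k.2 * n'.1 : ℤ) : ℝ) * f.1.2 + ((k.1 * n.2 + k.2 * n'.2 : ℤ) : ℝ) * f.2.2 =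
        (k.1 : ℝ) * (n.1 * f.1.2 + n.2 * f.2.2) + (k.2 : ℝ) * (n'.1 * f.1.2 + n'.2 * f.2.2)
      push_cast
      ring
  simp only [hvf] at hcut
  unfold PP
  rw [← ENNReal.ofReal_mul (by positivity)]
  exact ENNReal.ofReal_le_ofReal hcut

/-- size of the new first vector -/
theorem Tf_ac {f : Fr} (hf : 0 < Tf f) (hy : 0 < yf f) {n n' : ℤ × ℤ} (hun : 0 < uu (xf f) n) (hsn : yf f * |tt (xf f) n| ≤ 1 / 4) :
    uu (xf f) n * Tf f ≤ Tf (ac n n' f) ∧ Tf (ac n n' f) ≤ 11 / 10 * (uu (xf f) n * Tf f) := by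
  have hn2 : (n.2 : ℝ) = tt (xf f) n * uu (xf f) n := by
    unfold tt
    field_simp
  have hs2 := s2_h4 hy hsn
  have hT'2 : Tf (ac n n' f) ^ 2 = Tf f ^ 2 * uu (xf f) n ^ 2 * (1 + yf f ^ 2 * tt (xf f) n ^ 2) := by
    rw [Tf_ac_sq_h4 hf, hn2]
    ring
  have h0 : 0 ≤ yf f ^ 2 * tt (xf f) n ^ 2 := by positivity
  have h2 : 0 < Tf f ^ 2 * uu (xf f) n ^ 2 := by positivity
  constructor
  · refine le_of_sq_le_sq_h4 ?_ (Tf_nonneg_h4 _)
    rw [hT'2]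
    nlinarith
  · refine le_of_sq_le_sq_h4 ?_ (by positivity)
    rw [hT'2]
    nlinarith

end Pool.Agent.Helper60.LT
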