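import Pool.Agent.Helper60.LT.A2

/-!
# LT-A4: measurability

PROOF. The map `f ↦ st L S K (Tf f) (xf f)` has values in the countable type `Finset (ℤ × ℤ)`; for every finite set `S'` the set `{f | st .. = S'}` is measurable: it is the intersection over `k` of
`{f | k ∈ st ..} ↔ k ∈ S'`, and `{f | k ∈ st ..}` is given by inequalities between measurable functions (`box ⌈..⌉₊`: `k ∈ box N ↔ |k.1| ≤ N ∧ |k.2| ≤ N`, `Nat.ceil` is measurable). For fixed `S'` the function
`f ↦ m12 S' (ee h(vf f ·))` is continuous (finite sums of continuous functions of the parameters, `continuous_parametric_integral_of_continuous` on the compact `Tq`, as in GC.Q4 `m6_cont56`). Then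
`PP = ∑_{S'} 1_(st = S') · ofReal (m12 S' ..)` (`measurable_to_countable'` and composition: `Measurable` of `(S', f) ↦ ..` on `Finset × Fr` with the countable first factor: `measurable_from_prod_countable_right`).
`NS`: countable sum (`Measurable.ennreal_tsum`) of measurable functions; `{f | NN β D f n}` is given by inequalities between continuous functions, `f ↦ ac n n' f` is linear.
`EE`: inequalities between measurable functions.
-/

open MeasureTheory Real Set Filter Topology

set_option autoImplicit false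

namespace Pool.Agent.Helper60.LT

open Pool.Agent.Helper22.AE
open Pool.Agent.Helper92.GC (dt tp Tq uu tt arc gs dd)
open Pool.Agent.Helper92.DT (m12 IsMul12)

/-- `m12` depends continuously on the coefficients -/
private theorem m12_fin38 (S : Finset (ℤ × ℤ)) :
    Continuous (fun z : S → ℂ => ∫ c in Tq, ‖∑ k : S, z k * ee (dt (k : ℤ × ℤ) c)‖ ^ 12) := by
  have hcomp : IsCompact Tq := isCompact_Icc.prod isCompact_Icc
  refine continuous_parametric_integral_of_continuous
    (f := fun (z : S → ℂ) (c : ℝ × ℝ) => ‖∑ k : S, z k * ee (dt (k : ℤ × ℤ) c)‖ ^ 12) ?_ hcomp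
  have h1 : Continuous (fun q : (S → ℂ) × (ℝ × ℝ) => ∑ k : S, q.1 k * ee (dt (k : ℤ × ℤ) q.2)) := by
    unfold dt
    refine continuous_finsetSum _ fun k _ => ?_
    exact Continuous.mul ((continuous_apply k).comp continuous_fst) (ee_cont.comp (by fun_prop))
  exact h1.norm.pow 12

private theorem m12_contOn38 {X : Type} [TopologicalSpace X] (S : Finset (ℤ × ℤ)) (b : X → ℤ × ℤ → ℂ)
    (s : Set X) (hb : ∀ k ∈ S, ContinuousOn (fun q => b q k) s) :
    ContinuousOn (fun q => m12 S (b q)) s := by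
  have h1 : (fun q => m12 S (b q)) =
      (fun z : S → ℂ => ∫ c in Tq, ‖∑ k : S, z k * ee (dt (k : ℤ × ℤ) c)‖ ^ 12) ∘
        fun q => fun k : S => b q k := by
    funext q
    simp only [Function.comp, m12, tp]
    congr 1
    funext c
    rw [← Finset.sum_coe_sort S (fun k => b q k * ee (dt k c))]
  rw [h1]
  exact (m12_fin38 S).comp_continuousOn (continuousOn_pi.2 fun k => hb k k.2)

private theorem m12_cont38 {X : Type} [TopologicalSpace X] (S : Finset (ℤ × ℤ)) (b : X → ℤ × ℤ → ℂ)
    (hb : ∀ k ∈ S, Continuous (fun q => b q k)) : Continuous (fun q => m12 S (b q)) := by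
  rw [← continuousOn_univ]
  exact m12_contOn38 S b univ fun k hk => (hb k hk).continuousOn

private theorem glue38 {α β ι : Type} [MeasurableSpace α] [MeasurableSpace β] [Countable ι]
    (σ : α → ι) (hσ : ∀ i, MeasurableSet {a | σ a = i}) (F : ι → α → β) (hF : ∀ i, Measurable (F i)) :
    Measurable (fun a => F (σ a) a) := by
  intro s hs
  have h1 : (fun a => F (σ a) a) ⁻¹' s = ⋃ i, {a | σ a = i} ∩ (F i) ⁻¹' s := by
    ext a
    simp
  rw [h1]
  exact MeasurableSet.iUnion fun i => (hσ i).inter (hF i hs)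

private theorem fin_meas38 {α : Type} [MeasurableSpace α] (σ : α → Finset (ℤ × ℤ))
    (hσ : ∀ k, MeasurableSet {a | k ∈ σ a}) (S : Finset (ℤ × ℤ)) : MeasurableSet {a | σ a = S} := by
  have h1 : {a | σ a = S} = ⋂ k, {a | k ∈ σ a ↔ k ∈ S} := by
    ext a
    simp [Finset.ext_iff]
  rw [h1]
  refine MeasurableSet.iInter fun k => ?_
  by_cases hk : k ∈ S
  · have h2 : {a | k ∈ σ a ↔ k ∈ S} = {a | k ∈ σ a} := by
      ext a
      exact ⟨fun h => h.2 hk, fun h => ⟨fun _ => hk, fun _ => h⟩⟩
    rw [h2]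
    exact hσ k
  · have h2 : {a | k ∈ σ a ↔ k ∈ S} = {a | k ∈ σ a}ᶜ := by
      ext a
      exact ⟨fun h h' => hk (h.1 h'), fun h => ⟨fun h' => absurd h' h, fun h' => absurd h' hk⟩⟩
    rw [h2]
    exact (hσ k).compl

private theorem Tf_meas38 : Measurable Tf := by
  unfold Tf
  fun_prop

private theorem xf_meas38 : Measurable xf := by
  unfold xf
  fun_prop

private theorem df_meas38 : Measurable df := by
  unfold df
  fun_prop

private theorem yf_meas38 : Measurable yf := by
  unfold yf df
  fun_prop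

private theorem vf_cont38 (k : ℤ × ℤ) : Continuous (fun f => vf f k) := by
  unfold vf
  fun_prop

private theorem ac_cont38 (n n' : ℤ × ℤ) : Continuous (ac n n') := by
  unfold ac
  exact (vf_cont38 n).prodMk (vf_cont38 n')

private theorem uu_meas38 (k : ℤ × ℤ) : Measurable (fun f => uu (xf f) k) := by
  unfold uu
  exact measurable_const.add (xf_meas38.mul measurable_const)

private theorem st_meas38 (L S K : ℝ) (k : ℤ × ℤ) :
    MeasurableSet {f | k ∈ st L S K (Tf f) (xf f)} := by
  have hN : Measurable (fun f : Fr => ⌈(1 + |xf f| * S + S) * (L * K / Tf f)⌉₊) := by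
    refine Nat.measurable_ceil.comp ?_
    exact ((measurable_const.add (xf_meas38.abs.mul measurable_const)).add measurable_const).mul
      (measurable_const.div Tf_meas38)
  have h1 : MeasurableSet {f : Fr | k ∈ box ⌈(1 + |xf f| * S + S) * (L * K / Tf f)⌉₊} :=
    hN (MeasurableSet.of_discrete (s := {N : ℕ | k ∈ box N}))
  have hTu : Measurable (fun f => Tf f * uu (xf f) k) := Tf_meas38.mul (uu_meas38 k)
  have h2 : MeasurableSet {f : Fr | K ≤ L * (Tf f * uu (xf f) k)} :=
    measurableSet_le measurable_const (measurable_const.mul hTu)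
  have h3 : MeasurableSet {f : Fr | Tf f * uu (xf f) k ≤ L * K} :=
    measurableSet_le hTu measurable_const
  have h4 : MeasurableSet {f : Fr | |(k.2 : ℝ)| ≤ S * uu (xf f) k} :=
    measurableSet_le measurable_const (measurable_const.mul (uu_meas38 k))
  have h5 : {f | k ∈ st L S K (Tf f) (xf f)} =
      {f : Fr | k ∈ box ⌈(1 + |xf f| * S + S) * (L * K / Tf f)⌉₊} ∩
        ({f : Fr | K ≤ L * (Tf f * uu (xf f) k)} ∩ ({f : Fr | Tf f * uu (xf f) k ≤ L * K} ∩
          {f : Fr | |(k.2 : ℝ)| ≤ S * uu (xf f) k})) := by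
    ext f
    simp only [st, Set.mem_ofPred_eq, Finset.mem_filter, Set.mem_inter_iff]
  rw [h5]
  exact h1.inter (h2.inter (h3.inter h4))

private theorem sh_meas38 (L ρ K : ℝ) (k : ℤ × ℤ) :
    MeasurableSet {f | k ∈ sh L ρ K (Tf f) (xf f)} := by
  have h1 := st_meas38 L ρ K k
  have h2 : MeasurableSet {f : Fr | ρ / 2 * uu (xf f) k < |(k.2 : ℝ)|} :=
    measurableSet_lt (measurable_const.mul (uu_meas38 k)) measurable_const
  have h3 : {f | k ∈ sh L ρ K (Tf f) (xf f)} = {f | k ∈ st L ρ K (Tf f) (xf f)} ∩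
      {f : Fr | ρ / 2 * uu (xf f) k < |(k.2 : ℝ)|} := by
    ext f
    simp only [sh, Set.mem_ofPred_eq, Finset.mem_filter, Set.mem_inter_iff]
  rw [h3]
  exact h1.inter h2

private theorem mom_meas38 {h : ℝ × ℝ → ℝ} (hh : Continuous h) (S : Finset (ℤ × ℤ)) :
    Measurable (fun f : Fr => ENNReal.ofReal (m12 S (fun k => ee (h (vf f k))))) := by
  refine ENNReal.measurable_ofReal.comp (Continuous.measurable ?_)
  exact m12_cont38 S (fun (f : Fr) k => ee (h (vf f k))) fun k _ =>
    ee_cont.comp (hh.comp (vf_cont38 k))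

theorem PP_meas {h : ℝ × ℝ → ℝ} (hh : Continuous h) (L S K : ℝ) : Measurable (PP h L S K) :=
  glue38 (fun f : Fr => st L S K (Tf f) (xf f)) (fin_meas38 _ (st_meas38 L S K))
    (fun S' f => ENNReal.ofReal (m12 S' (fun k => ee (h (vf f k))))) (mom_meas38 hh)

theorem QQ_meas {h : ℝ × ℝ → ℝ} (hh : Continuous h) (L S K : ℝ) : Measurable (QQ h L S K) :=
  glue38 (fun f : Fr => sh L S K (Tf f) (xf f)) (fin_meas38 _ (sh_meas38 L S K))
    (fun S' f => ENNReal.ofReal (m12 S' (fun k => ee (h (vf f k))))) (mom_meas38 hh)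

theorem NS_meas {Φ : Fr → ENNReal} (hΦ : Measurable Φ) (β D : ℝ) : Measurable (NS β D Φ) := by
  unfold NS
  refine Measurable.ennreal_tsum fun n => ?_
  have hac : Measurable (ac n (co n)) := (ac_cont38 n (co n)).measurable
  have hT : Measurable (fun f => Tf (ac n (co n) f)) := Tf_meas38.comp hac
  refine Measurable.ite ?_ (hΦ.comp hac) measurable_const
  have h1 : MeasurableSet {f : Fr | D * Tf f ≤ β * Tf (ac n (co n) f)} :=
    measurableSet_le (measurable_const.mul Tf_meas38) (measurable_const.mul hT)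
  have h2 : MeasurableSet {f : Fr | Tf (ac n (co n) f) ≤ β * D * Tf f} :=
    measurableSet_le hT (measurable_const.mul Tf_meas38)
  exact (MeasurableSet.const _).inter (h1.inter (h2.inter (MeasurableSet.const _)))

theorem EE_meas (Δ₀ y₀ β : ℝ) : MeasurableSet (EE Δ₀ y₀ β) := by
  unfold EE
  exact (measurableSet_lt measurable_const Tf_meas38).inter
    ((measurableSet_le measurable_const xf_meas38).inter
    ((measurableSet_lt xf_meas38 measurable_const).inter
    ((measurableSet_le measurable_const (measurable_const.mul df_meas38)).inter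
    ((measurableSet_le df_meas38 measurable_const).inter
    ((measurableSet_le measurable_const (measurable_const.mul yf_meas38)).inter
    (measurableSet_le yf_meas38 measurable_const))))))

theorem fr_meas : Measurable (fun q : ℝ × ℝ × ℝ × ℝ => fr q.1 q.2.1 q.2.2.1 q.2.2.2) := by
  unfold fr
  refine Continuous.measurable ?_
  fun_prop

/-- for a fixed set of frequencies everything is continuous in `(T, x)` -/
theorem W_cont {p : ℝ → ℝ} (hp : Continuous p) {y : ℝ} {S : Finset (ℤ × ℤ)} (a : ℤ × ℤ → ℂ) {s : Set ℝ} (hs : ∀ x ∈ s, ∀ k ∈ S, uu x k ≠ 0) :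
    ContinuousOn (fun q : ℝ × ℝ => W p y S a q.1 q.2) (univ ×ˢ s) := by
  unfold W
  refine m12_contOn38 S (fun (q : ℝ × ℝ) k => a k * ee (q.1 * pf p q.2 y k)) _ fun k hk => ?_
  have hu : Continuous (fun q : ℝ × ℝ => uu q.2 k) := by
    unfold uu
    fun_prop
  have ht : ContinuousOn (fun q : ℝ × ℝ => tt q.2 k) (univ ×ˢ s) := by
    unfold tt
    exact continuousOn_const.div hu.continuousOn fun q hq => hs q.2 hq.2 k hk
  have hpf : ContinuousOn (fun q : ℝ × ℝ => pf p q.2 y k) (univ ×ˢ s) := by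
    unfold pf
    exact hu.continuousOn.mul (hp.comp_continuousOn (continuousOn_const.mul ht))
  exact continuousOn_const.mul (ee_cont.comp_continuousOn (continuousOn_fst.mul hpf))

theorem lf_cont {p : ℝ → ℝ} {x₀ y : ℝ} {S : Finset (ℤ × ℤ)} (a : ℤ × ℤ → ℂ) :
    Continuous (fun q : ℝ × ℝ => lf p x₀ y S a q.1 q.2) := by
  unfold lf
  refine m12_cont38 S (fun (q : ℝ × ℝ) k =>
    a k * ee (q.1 * (uu x₀ k * fy p y (tt x₀ k)) + q.2 * (uu x₀ k * gy p y (tt x₀ k)))) fun k _ => ?_
  exact continuous_const.mul (ee_cont.comp (by fun_prop))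

theorem lf_le {p : ℝ → ℝ} {x₀ y : ℝ} {S : Finset (ℤ × ℤ)} {a : ℤ × ℤ → ℂ} (ha : ∀ k, ‖a k‖ ≤ 1) (R Z : ℝ) : lf p x₀ y S a R Z ≤ (S.card : ℝ) ^ 12 := by
  unfold lf
  refine (m12_le_card S fun k _ => ?_).trans ?_
  · rw [norm_mul, ee_norm, mul_one]
    exact ha k
  · rcases Nat.eq_zero_or_pos S.card with h | h
    · rw [h]
      norm_num
    · have h1 : (1 : ℝ) ≤ S.card := by exact_mod_cast h
      exact pow_le_pow_right₀ h1 (by norm_num)

end Pool.Agent.Helper60.LT
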