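import Pool.Agent.Helper60.LT.A4

/-!
# LT-A5: the cusp at the origin

`RR` is the twelfth moment of the frequencies with `k.2 ≠ 0` of a state.
PROOFS. `RR_meas`, `RR_fr`: as `PP_meas` (A4), `PP_fr` (A2). `cusp_split`: `st L S K T x` is the disjoint union of `{k.2 = 0}`, of the shells `sh L (S/2^j) K T x`, `j < N`, and of the `k` with `0 < |k.2| ≤ (S/2^N) u` (`u = uu x k > 0`; for `k.2 ≠ 0`, `|t| ≤ S` either `|t| ≤ S/2^N` or there is a unique
`j < N` with `S/2^(j+1) < |t| ≤ S/2^j`); `m12_union` for `N + 2` sets. On `{k.2 = 0}`: `uu x k = k.1`, `0 < k.1 ≤ L K/T`, so at most `L K/T` elements and `m12_le_card`. (`0 < Tf f`; all moments as `ENNReal.ofReal`; `ENNReal.ofReal_add`, `ofReal_mul`, `ofReal_sum_of_nonneg`.)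
`PP_triv`: `m12_le_card`, `st_card`. `PP_zero`: `st_large`.
-/

open MeasureTheory Real Set Filter Topology

set_option autoImplicit false

namespace Pool.Agent.Helper60.LT

open Pool.Agent.Helper22.AE
open Pool.Agent.Helper92.GC (dt tp Tq uu tt arc gs dd)
open Pool.Agent.Helper92.DT (m12 IsMul12)

open Classical in
/-- the frequencies of a state with `k.2 ≠ 0` -/
noncomputable def s0 (L S K T x : ℝ) : Finset (ℤ × ℤ) := (st L S K T x).filter (fun k => k.2 ≠ 0)

/-- the twelfth moment of the frequencies with `k.2 ≠ 0` -/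
noncomputable def RR (h : ℝ × ℝ → ℝ) (L S K : ℝ) (f : Fr) : ENNReal :=
  ENNReal.ofReal (m12 (s0 L S K (Tf f) (xf f)) (fun k => ee (h (vf f k))))

private lemma Tf_meas_h4 : Measurable Tf := by
  unfold Tf
  fun_prop

private lemma xf_meas_h4 : Measurable xf := by
  unfold xf
  fun_prop

private lemma ee_cont_h4 : Continuous ee := by
  unfold ee
  fun_prop

private lemma mem_meas_h4 (L S K : ℝ) (k : ℤ × ℤ) :
    MeasurableSet {f : Fr | k ∈ s0 L S K (Tf f) (xf f)} := by
  classical
  have hT := Tf_meas_h4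
  have hx := xf_meas_h4
  have hg : Measurable (fun f : Fr => ⌈(1 + |xf f| * S + S) * (L * K / Tf f)⌉₊) := by
    apply Nat.measurable_ceil.comp
    have h1 : Measurable (fun f : Fr => |xf f|) := hx.abs
    exact (((h1.mul_const S).const_add 1).add_const S).mul (measurable_const.div hT)
  have hu : Measurable (fun f : Fr => uu (xf f) k) := by
    unfold uu
    exact (hx.mul_const _).const_add _
  have e : {f : Fr | k ∈ s0 L S K (Tf f) (xf f)} =
      (fun f : Fr => ⌈(1 + |xf f| * S + S) * (L * K / Tf f)⌉₊) ⁻¹' {N | k ∈ box N} ∩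
      ({f : Fr | K ≤ L * (Tf f * uu (xf f) k)} ∩ ({f : Fr | Tf f * uu (xf f) k ≤ L * K} ∩
        ({f : Fr | |(k.2 : ℝ)| ≤ S * uu (xf f) k} ∩ {f : Fr | k.2 ≠ 0}))) := by
    ext f
    simp only [s0, st, Finset.mem_filter, Set.mem_ofPred_eq, Set.mem_inter_iff, Set.mem_preimage]
    tauto
  rw [e]
  refine (hg (MeasurableSet.of_discrete)).inter ?_
  refine (measurableSet_le measurable_const ((hT.mul hu).const_mul L)).inter ?_
  refine (measurableSet_le (hT.mul hu) measurable_const).inter ?_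
  refine (measurableSet_le measurable_const (hu.const_mul S)).inter ?_
  exact MeasurableSet.const _

private lemma fix_meas_h4 {h : ℝ × ℝ → ℝ} (hh : Continuous h) (S' : Finset (ℤ × ℤ)) :
    Measurable (fun f : Fr => m12 S' (fun k => ee (h (vf f k)))) := by
  unfold m12
  have hc : Continuous (fun p : Fr × (ℝ × ℝ) => ‖tp S' (fun k => ee (h (vf p.1 k))) p.2‖ ^ 12) := by
    unfold tp
    refine (Continuous.norm ?_).pow 12
    refine continuous_finsetSum _ fun k _ => ?_
    refine Continuous.mul ?_ ?_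
    · refine ee_cont_h4.comp (hh.comp ?_)
      unfold vf
      fun_prop
    · refine ee_cont_h4.comp ?_
      unfold dt
      fun_prop
  exact (hc.stronglyMeasurable.integral_prod_right' (ν := volume.restrict Tq)).measurable

theorem RR_meas {h : ℝ × ℝ → ℝ} (hh : Continuous h) (L S K : ℝ) : Measurable (RR h L S K) := by
  classical
  unfold RR
  refine Measurable.ennreal_ofReal ?_
  have heq : ∀ S' : Finset (ℤ × ℤ), MeasurableSet {f : Fr | s0 L S K (Tf f) (xf f) = S'} := by
    intro S'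
    have e : {f : Fr | s0 L S K (Tf f) (xf f) = S'} =
        ⋂ k : ℤ × ℤ, {f : Fr | k ∈ s0 L S K (Tf f) (xf f) ↔ k ∈ S'} := by
      ext f
      simp only [Set.mem_ofPred_eq, Set.mem_iInter]
      exact Finset.ext_iff
    rw [e]
    refine MeasurableSet.iInter fun k => ?_
    by_cases hk : k ∈ S'
    · simp only [hk, iff_true]
      exact mem_meas_h4 L S K k
    · simp only [hk, iff_false]
      exact (mem_meas_h4 L S K k).compl
  intro A hA
  have e : (fun f : Fr => m12 (s0 L S K (Tf f) (xf f)) (fun k => ee (h (vf f k)))) ⁻¹' A =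
      ⋃ S' : Finset (ℤ × ℤ), ({f : Fr | s0 L S K (Tf f) (xf f) = S'} ∩
        (fun f : Fr => m12 S' (fun k => ee (h (vf f k)))) ⁻¹' A) := by
    ext f
    simp only [Set.mem_preimage, Set.mem_iUnion, Set.mem_inter_iff, Set.mem_ofPred_eq]
    constructor
    · intro hf
      exact ⟨_, rfl, hf⟩
    · rintro ⟨S', hS', hf⟩
      rw [hS']
      exact hf
  rw [e]
  exact MeasurableSet.iUnion fun S' => (heq S').inter (fix_meas_h4 hh S' hA)

theorem RR_fr {c₁ B : ℝ} {h : ℝ × ℝ → ℝ} (hh : Hom c₁ B h) {θ y T x L S K : ℝ} (hT : 0 < T) (hL : 0 < L) (hK : 0 < K) (hS : 0 ≤ S) :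
    RR h L S K (fr θ y T x) = ENNReal.ofReal (W (sl h θ) y (s0 L S K T x) (fun _ => 1) T x) := by
  obtain ⟨e1, e2, -, -⟩ := fr_coord (θ := θ) (y := y) (T := T) (x := x) hT
  unfold RR W
  rw [e1, e2]
  congr 1
  refine Pool.Agent.Helper92.DT.m12_congr fun k hk => ?_
  have hk' : k ∈ st L S K T x := (Finset.mem_filter.1 hk).1
  rw [mem_st hT hL hK hS] at hk'
  have hu : 0 < uu x k := by
    have h1 : 0 < L * (T * uu x k) := hK.trans_le hk'.1
    have h2 : 0 < T * uu x k := (mul_pos_iff_of_pos_left hL).1 h1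
    exact (mul_pos_iff_of_pos_left hT).1 h2
  rw [vf_fr hh hT hu, one_mul]

theorem cusp_split {h : ℝ × ℝ → ℝ} {L S K : ℝ} (hL : 1 ≤ L) (hK : 0 < K) (hS : 0 < S) (f : Fr) (hf : 0 < Tf f) (N : ℕ) :
    PP h L S K f ≤ ENNReal.ofReal (((N : ℝ) + 2) ^ 11) * (ENNReal.ofReal ((L * (K / Tf f)) ^ 11) +
      ∑ j ∈ Finset.range N, QQ h L (S / 2 ^ j) K f + RR h L (S / 2 ^ N) K f) := by
  classical
  obtain ⟨T, hTd⟩ : ∃ T, T = Tf f := ⟨_, rfl⟩
  obtain ⟨x, hxd⟩ : ∃ x, x = xf f := ⟨_, rfl⟩
  obtain ⟨a, had⟩ : ∃ a : ℤ × ℤ → ℂ, a = fun k => ee (h (vf f k)) := ⟨_, rfl⟩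
  unfold PP QQ RR
  rw [← hTd, ← hxd, ← had]
  rw [← hTd] at hf
  have hL0 : 0 < L := by linarith
  have hSj : ∀ j : ℕ, 0 < S / 2 ^ j := fun j => by positivity
  have hupos : ∀ (S' : ℝ) (k : ℤ × ℤ), 0 ≤ S' → k ∈ st L S' K T x → 0 < uu x k := by
    intro S' k hS' hk
    rw [mem_st hf hL0 hK hS'] at hk
    have h1 : 0 < L * (T * uu x k) := hK.trans_le hk.1
    have h2 : 0 < T * uu x k := (mul_pos_iff_of_pos_left hL0).1 h1
    exact (mul_pos_iff_of_pos_left hf).1 h2
  have hmono : ∀ (j : ℕ) (k : ℤ × ℤ), k ∈ st L (S / 2 ^ j) K T x → k ∈ st L S K T x := by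
    intro j k hk
    have hu := hupos _ k (hSj j).le hk
    rw [mem_st hf hL0 hK (hSj j).le] at hk
    rw [mem_st hf hL0 hK hS.le]
    refine ⟨hk.1, hk.2.1, hk.2.2.trans ?_⟩
    refine mul_le_mul_of_nonneg_right ?_ hu.le
    exact div_le_self hS.le (one_le_pow₀ (by norm_num))
  let I : ℕ → Finset (ℤ × ℤ) := fun i => if i < N then sh L (S / 2 ^ i) K T x
    else if i = N then s0 L (S / 2 ^ N) K T x else (st L S K T x).filter (fun k => k.2 = 0)
  have hI1 : ∀ i, i < N → I i = sh L (S / 2 ^ i) K T x := fun i hi => if_pos hi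
  have hI2 : I N = s0 L (S / 2 ^ N) K T x := by
    show (if N < N then _ else if N = N then _ else _) = _
    rw [if_neg (lt_irrefl N), if_pos rfl]
  have hI3 : I (N + 1) = (st L S K T x).filter (fun k => k.2 = 0) := by
    show (if N + 1 < N then _ else if N + 1 = N then _ else _) = _
    rw [if_neg (by omega), if_neg (by omega)]
  have hmem1 : ∀ (i : ℕ) (k : ℤ × ℤ), k ∈ sh L (S / 2 ^ i) K T x ↔
      k ∈ st L (S / 2 ^ i) K T x ∧ S / 2 ^ (i + 1) * uu x k < |(k.2 : ℝ)| := by
    intro i k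
    unfold sh
    rw [Finset.mem_filter]
    have e : S / 2 ^ (i + 1) = S / 2 ^ i / 2 := by
      rw [pow_succ, div_mul_eq_div_div]
    rw [e]
  have hanti : ∀ {i j : ℕ}, i ≤ j → S / 2 ^ j ≤ S / 2 ^ i := by
    intro i j hij
    exact div_le_div_of_nonneg_left hS.le (by positivity) (pow_le_pow_right₀ (by norm_num) hij)
  have hlt : ∀ i j, i < j → j < N + 2 → Disjoint (I i) (I j) := by
    intro i j hij hj
    rw [Finset.disjoint_left]
    intro k h1 h2
    rcases Nat.lt_or_ge i N with hi | hi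
    · rw [hI1 i hi, hmem1] at h1
      have hu := hupos _ k (hSj i).le h1.1
      rcases Nat.lt_or_ge j N with hj' | hj'
      · rw [hI1 j hj', hmem1, mem_st hf hL0 hK (hSj j).le] at h2
        have h3 := h2.1.2.2
        have h4 : S / 2 ^ j * uu x k ≤ S / 2 ^ (i + 1) * uu x k :=
          mul_le_mul_of_nonneg_right (hanti hij) hu.le
        linarith [h1.2]
      · rcases (by omega : j = N ∨ j = N + 1) with h5 | h5
        · rw [h5, hI2] at h2
          unfold s0 at h2
          rw [Finset.mem_filter, mem_st hf hL0 hK (hSj N).le] at h2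
          have h3 := h2.1.2.2
          have h4 : S / 2 ^ N * uu x k ≤ S / 2 ^ (i + 1) * uu x k :=
            mul_le_mul_of_nonneg_right (hanti hi) hu.le
          linarith [h1.2]
        · rw [h5, hI3, Finset.mem_filter] at h2
          have h3 := h1.2
          rw [h2.2, Int.cast_zero, abs_zero] at h3
          have h4 : 0 < S / 2 ^ (i + 1) * uu x k := mul_pos (hSj _) hu
          linarith
    · have hiN : i = N := by omega
      have hjN : j = N + 1 := by omega
      rw [hiN, hI2] at h1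
      unfold s0 at h1
      rw [hjN, hI3, Finset.mem_filter] at h2
      rw [Finset.mem_filter] at h1
      exact h1.2 h2.2
  have hun := m12_union (Finset.range (N + 2)) I (st L S K T x) a (by
    intro i hi j hj hij
    rw [Finset.mem_range] at hi hj
    rcases Nat.lt_or_ge i j with h1 | h1
    · exact hlt i j h1 hj
    · exact (hlt j i (by omega) hi).symm) (by
    intro k
    constructor
    · intro hk
      have hu := hupos S k hS.le hk
      by_cases hk2 : k.2 = 0
      · refine ⟨N + 1, Finset.mem_range.2 (by omega), ?_⟩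
        rw [hI3, Finset.mem_filter]
        exact ⟨hk, hk2⟩
      · have hkk := hk
        rw [mem_st hf hL0 hK hS.le] at hkk
        by_cases hkN : |(k.2 : ℝ)| ≤ S / 2 ^ N * uu x k
        · refine ⟨N, Finset.mem_range.2 (by omega), ?_⟩
          rw [hI2]
          unfold s0
          rw [Finset.mem_filter, mem_st hf hL0 hK (hSj N).le]
          exact ⟨⟨hkk.1, hkk.2.1, hkN⟩, hk2⟩
        · have hex : ∃ m : ℕ, ¬ |(k.2 : ℝ)| ≤ S / 2 ^ m * uu x k := ⟨N, hkN⟩
          have hm := Nat.find_spec hex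
          have hmN : Nat.find hex ≤ N := Nat.find_min' hex hkN
          have hm0 : Nat.find hex ≠ 0 := by
            intro h0
            rw [h0, pow_zero, div_one] at hm
            exact hm hkk.2.2
          have hm1 := Nat.find_min hex (m := Nat.find hex - 1) (by omega)
          rw [not_not] at hm1
          refine ⟨Nat.find hex - 1, Finset.mem_range.2 (by omega), ?_⟩
          rw [hI1 _ (by omega), hmem1, mem_st hf hL0 hK (hSj _).le]
          refine ⟨⟨hkk.1, hkk.2.1, hm1⟩, ?_⟩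
          rw [Nat.sub_add_cancel (Nat.pos_of_ne_zero hm0)]
          exact not_le.1 hm
    · rintro ⟨i, hi, hk⟩
      rw [Finset.mem_range] at hi
      rcases Nat.lt_or_ge i N with h1 | h1
      · rw [hI1 i h1, hmem1] at hk
        exact hmono i k hk.1
      · rcases (by omega : i = N ∨ i = N + 1) with h2 | h2
        · rw [h2, hI2] at hk
          unfold s0 at hk
          exact hmono N k (Finset.mem_filter.1 hk).1
        · rw [h2, hI3] at hk
          exact (Finset.mem_filter.1 hk).1)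
  rw [Finset.card_range, Finset.sum_range_succ, Finset.sum_range_succ, hI2, hI3,
    Finset.sum_congr rfl (fun i hi => by rw [hI1 i (Finset.mem_range.1 hi)])] at hun
  -- the frequencies with `k.2 = 0`
  have hKT : 0 ≤ L * (K / T) := by positivity
  have hz : m12 ((st L S K T x).filter (fun k => k.2 = 0)) a ≤ (L * (K / T)) ^ 11 := by
    refine (m12_le_card _ (by
      intro k _
      rw [had]
      unfold ee
      rw [Complex.norm_exp_ofReal_mul_I])).trans ?_
    refine pow_le_pow_left₀ (Nat.cast_nonneg _) ?_ 11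
    have hc := Finset.card_le_card_of_injOn (s := (st L S K T x).filter (fun k => k.2 = 0))
      (t := Finset.Icc (1 : ℤ) ⌊L * (K / T)⌋) (fun k => k.1) ?_ ?_
    · rw [Int.card_Icc] at hc
      have h1 : ((⌊L * (K / T)⌋ + 1 - 1).toNat : ℝ) ≤ L * (K / T) := by
        have h2 : (0 : ℤ) ≤ ⌊L * (K / T)⌋ := Int.floor_nonneg.2 hKT
        have h3 : (((⌊L * (K / T)⌋ + 1 - 1).toNat : ℤ) : ℝ) = ((⌊L * (K / T)⌋ : ℤ) : ℝ) := by
          rw [Int.toNat_of_nonneg (by linarith)]
          push_cast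
          ring
        have h4 : ((⌊L * (K / T)⌋ + 1 - 1).toNat : ℝ) = ((⌊L * (K / T)⌋ : ℤ) : ℝ) := by
          rw [← h3]
          norm_cast
        rw [h4]
        exact Int.floor_le _
      exact le_trans (by exact_mod_cast hc) h1
    · intro k hk
      rw [Finset.mem_coe, Finset.mem_filter] at hk
      have hu := hupos S k hS.le hk.1
      have hk1 := hk.1
      rw [mem_st hf hL0 hK hS.le] at hk1
      have huk : uu x k = (k.1 : ℝ) := by
        unfold uu
        rw [hk.2]
        simp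
      rw [huk] at hu hk1
      rw [Finset.mem_coe, Finset.mem_Icc]
      constructor
      · have : (0 : ℤ) < k.1 := by exact_mod_cast hu
        show (1 : ℤ) ≤ k.1
        omega
      · rw [Int.le_floor]
        have h2 := hk1.2.1
        have h3 : L * (K / T) = L * K / T := by ring
        rw [h3, le_div_iff₀ hf]
        linarith
    · intro k hk l hl hkl
      rw [Finset.mem_coe, Finset.mem_filter] at hk hl
      ext
      · exact hkl
      · rw [hk.2, hl.2]
  -- conclusion
  have hnn : ∀ S' : Finset (ℤ × ℤ), 0 ≤ m12 S' a := fun S' => Pool.Agent.Helper92.DT.m12_nonneg _ _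
  have hsum0 : 0 ≤ ∑ i ∈ Finset.range N, m12 (sh L (S / 2 ^ i) K T x) a :=
    Finset.sum_nonneg fun i _ => hnn _
  have hfin : m12 (st L S K T x) a ≤ ((N : ℝ) + 2) ^ 11 * ((L * (K / T)) ^ 11 +
      ∑ i ∈ Finset.range N, m12 (sh L (S / 2 ^ i) K T x) a + m12 (s0 L (S / 2 ^ N) K T x) a) := by
    refine hun.trans ?_
    have e : (((N + 2 : ℕ) : ℝ)) = (N : ℝ) + 2 := by push_cast; ring
    rw [e]
    refine mul_le_mul_of_nonneg_left ?_ (by positivity)
    linarith
  refine (ENNReal.ofReal_le_ofReal hfin).trans (le_of_eq ?_)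
  rw [ENNReal.ofReal_mul (by positivity), ENNReal.ofReal_add (by positivity) (hnn _),
    ENNReal.ofReal_add (by positivity) hsum0, ENNReal.ofReal_sum_of_nonneg (fun i _ => hnn _)]

theorem PP_triv {L : ℝ} (hL : 1 ≤ L) : ∃ C : ℝ, 1 ≤ C ∧ ∀ (h : ℝ × ℝ → ℝ) (S K : ℝ) (f : Fr), 0 < K → 0 ≤ S → S ≤ 3 → 0 < Tf f →
    PP h L S K f ≤ ENNReal.ofReal (C * ((K / Tf f) ^ 22 + (K / Tf f) ^ 11)) := by
  obtain ⟨C, hC1, hC⟩ := st_card hL
  refine ⟨(3 * C) ^ 11 * 2 ^ 10, ?_, ?_⟩
  · have h1 : (1 : ℝ) ≤ (3 * C) ^ 11 := one_le_pow₀ (by linarith)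
    nlinarith
  · intro h S K f hK hS hS3 hf
    unfold PP
    refine ENNReal.ofReal_le_ofReal ?_
    have hKT : 0 < K / Tf f := by positivity
    refine (m12_le_card _ (by
      intro k _
      unfold ee
      rw [Complex.norm_exp_ofReal_mul_I])).trans ?_
    have h1 := hC S K (Tf f) (xf f) hf hK hS hS3
    have h2 : C * (S * (K / Tf f) ^ 2 + K / Tf f) ≤ 3 * C * ((K / Tf f) ^ 2 + K / Tf f) := by
      have h3 : 0 ≤ C := by linarith
      have h4 : S * (K / Tf f) ^ 2 ≤ 3 * (K / Tf f) ^ 2 := mul_le_mul_of_nonneg_right hS3 (by positivity)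
      nlinarith [mul_nonneg h3 hKT.le]
    calc ((st L S K (Tf f) (xf f)).card : ℝ) ^ 11 ≤ (3 * C * ((K / Tf f) ^ 2 + K / Tf f)) ^ 11 :=
          pow_le_pow_left₀ (Nat.cast_nonneg _) (h1.trans h2) 11
      _ = (3 * C) ^ 11 * ((K / Tf f) ^ 2 + K / Tf f) ^ 11 := by rw [mul_pow]
      _ ≤ (3 * C) ^ 11 * (2 ^ 10 * (((K / Tf f) ^ 2) ^ 11 + (K / Tf f) ^ 11)) := by
          refine mul_le_mul_of_nonneg_left ?_ (by positivity)
          exact add_pow_le (by positivity) hKT.le 11
      _ = (3 * C) ^ 11 * 2 ^ 10 * ((K / Tf f) ^ 22 + (K / Tf f) ^ 11) := by ring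

theorem PP_zero {h : ℝ × ℝ → ℝ} {L S K : ℝ} (hL : 1 ≤ L) (hK : 0 < K) (hS : 0 ≤ S) (hS3 : S ≤ 3) {f : Fr} (hf : 0 < Tf f) (hs : L * (K / Tf f) < 1 / 3) :
    PP h L S K f = 0 := by
  have he : st L S K (Tf f) (xf f) = ∅ := by
    rw [Finset.eq_empty_iff_forall_notMem]
    intro k hk
    have h1 := (st_large hL hf hK hS hS3 hk).2
    linarith
  unfold PP
  rw [he]
  have h1 : m12 ∅ (fun k => ee (h (vf f k))) = 0 := by
    unfold m12 tp
    simp
  rw [h1, ENNReal.ofReal_zero]

end Pool.Agent.Helper60.LT
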