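import Pool.Agent.Helper60.LT.Defs
import Pool.Agent.Helper78.CG.Defs

/-!
# LT-B1: the curve of the linearised family

PROOF. `f = fy p y`, `f' t = (p'(y t) - p'(0))/y`, `f'' t = p''(y t)` (chain rule; `p` is `C⁴`). With `q s = p 0 - p s + s p' s`, `q' s = s p'' s`: `g t = t q(y t)/y²`, `g' t = q(y t)/y² + t² p''(y t)`,
`g'' t = 3 t p''(y t) + y t² p'''(y t) = r t · p''(y t)`. `|y t| ≤ y ρ ≤ k₀ ≤ 1/100`, so `c₁ ≤ f'' ≤ B` and (`ψ = p'''/p''` at `y t`, `|ψ| ≤ B/c₁`) `|r t| ≤ 3ρ + k₀ ρ B/c₁ ≤ 4 ρ`.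
Slope: `r' t = 3 + 2 y t ψ(y t) + y² t² ψ'(y t)`, `|ψ'| = |p''''/p'' - (p'''/p'')²| ≤ B/c₁ + B²/c₁²`, `|2 y t ψ| ≤ 2 k₀ B/c₁ ≤ 1/50`, `|y² t² ψ'| ≤ k₀² (B/c₁ + B²/c₁²) ≤ 1/50`; so `2 ≤ r' ≤ 4`
(mean value theorem on `[t', t]`).
-/

open MeasureTheory Real Set Filter Topology

set_option autoImplicit false

namespace Pool.Agent.Helper60.LT

open Pool.Agent.Helper78.CG (Crv Crv6)

private theorem smul_mul' (y t : ℝ) : HasDerivAt (fun s : ℝ => y * s) y t := by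
  simpa using (hasDerivAt_id t).const_mul y

private theorem comp_y {q q' : ℝ → ℝ} (y t : ℝ) (h : ∀ s, HasDerivAt q (q' s) s) :
    HasDerivAt (fun s => q (y * s)) (q' (y * t) * y) t :=
  (h (y * t)).comp t (smul_mul' y t)

private theorem hd_all {p : ℝ → ℝ} (h : ContDiff ℝ 4 p) :
    (∀ s, HasDerivAt p (deriv p s) s) ∧ (∀ s, HasDerivAt (deriv p) (deriv (deriv p) s) s) ∧
    (∀ s, HasDerivAt (deriv (deriv p)) (deriv (deriv (deriv p)) s) s) ∧
    (∀ s, HasDerivAt (deriv (deriv (deriv p))) (deriv (deriv (deriv (deriv p))) s) s) := by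
  have h4 : ContDiff ℝ ((3 : ℕ∞) + 1 : WithTop ℕ∞) p := by
    have : ((3 : ℕ∞) + 1 : WithTop ℕ∞) = 4 := by norm_num
    rw [this]; exact h
  rw [contDiff_succ_iff_deriv] at h4
  obtain ⟨d1, -, h3⟩ := h4
  have h3' : ContDiff ℝ ((2 : ℕ∞) + 1 : WithTop ℕ∞) (deriv p) := by
    have : ((2 : ℕ∞) + 1 : WithTop ℕ∞) = ((3 : ℕ∞) : WithTop ℕ∞) := by norm_num
    rw [this]; exact h3
  rw [contDiff_succ_iff_deriv] at h3'
  obtain ⟨d2, -, h2⟩ := h3'
  have h2' : ContDiff ℝ ((1 : ℕ∞) + 1 : WithTop ℕ∞) (deriv (deriv p)) := by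
    have : ((1 : ℕ∞) + 1 : WithTop ℕ∞) = ((2 : ℕ∞) : WithTop ℕ∞) := by norm_num
    rw [this]; exact h2
  rw [contDiff_succ_iff_deriv] at h2'
  obtain ⟨d3, -, h1⟩ := h2'
  have d4 : Differentiable ℝ (deriv (deriv (deriv p))) := h1.differentiable (by norm_num)
  exact ⟨fun s => (d1 s).hasDerivAt, fun s => (d2 s).hasDerivAt, fun s => (d3 s).hasDerivAt, fun s => (d4 s).hasDerivAt⟩

private theorem fy_d1 {p : ℝ → ℝ} (h : ContDiff ℝ 4 p) {y : ℝ} (hy : 0 < y) (t : ℝ) :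
    HasDerivAt (fy p y) ((deriv p (y * t) - deriv p 0) / y) t := by
  obtain ⟨e1, e2, e3, e4⟩ := hd_all h
  have := (((comp_y y t e1).sub_const (p 0)).sub ((smul_mul' y t).const_mul (deriv p 0))).div_const (y ^ 2)
  refine (this.congr_deriv ?_).congr_of_eventuallyEq (Filter.Eventually.of_forall fun s => ?_)
  · field_simp
  · rfl

private theorem fy_d2 {p : ℝ → ℝ} (h : ContDiff ℝ 4 p) {y : ℝ} (hy : 0 < y) (t : ℝ) :
    HasDerivAt (fun s => (deriv p (y * s) - deriv p 0) / y) (deriv (deriv p) (y * t)) t := by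
  obtain ⟨e1, e2, e3, e4⟩ := hd_all h
  have := ((comp_y y t e2).sub_const (deriv p 0)).div_const y
  refine (this.congr_deriv ?_)
  field_simp

private theorem gy_d1 {p : ℝ → ℝ} (h : ContDiff ℝ 4 p) {y : ℝ} (hy : 0 < y) (t : ℝ) :
    HasDerivAt (gy p y) ((p 0 - p (y * t) + y * t * deriv p (y * t)) / y ^ 2 + t ^ 2 * deriv (deriv p) (y * t)) t := by
  obtain ⟨e1, e2, e3, e4⟩ := hd_all h
  have a := ((comp_y y t e1).const_sub (p 0)).add ((smul_mul' y t).mul (comp_y y t e2))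
  have := ((hasDerivAt_id t).mul a).div_const (y ^ 2)
  refine (this.congr_deriv ?_).congr_of_eventuallyEq (Filter.Eventually.of_forall fun s => ?_)
  · simp only [id, Pi.add_apply, Pi.mul_apply]
    field_simp
    ring
  · rfl

private theorem gy_d2 {p : ℝ → ℝ} (h : ContDiff ℝ 4 p) {y : ℝ} (hy : 0 < y) (t : ℝ) (h0 : deriv (deriv p) (y * t) ≠ 0) :
    HasDerivAt (fun s => (p 0 - p (y * s) + y * s * deriv p (y * s)) / y ^ 2 + s ^ 2 * deriv (deriv p) (y * s))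
      (ry p y t * deriv (deriv p) (y * t)) t := by
  obtain ⟨e1, e2, e3, e4⟩ := hd_all h
  have a := (((comp_y y t e1).const_sub (p 0)).add ((smul_mul' y t).mul (comp_y y t e2))).div_const (y ^ 2)
  have b := (hasDerivAt_pow 2 t).mul (comp_y y t e3)
  refine ((a.add b).congr_deriv ?_)
  simp only [ry]
  field_simp
  ring

private theorem ry_d {p : ℝ → ℝ} (h : ContDiff ℝ 4 p) {y : ℝ} (t : ℝ) (h0 : deriv (deriv p) (y * t) ≠ 0) :
    HasDerivAt (ry p y) (3 + (2 * y * t * (deriv (deriv (deriv p)) (y * t) / deriv (deriv p) (y * t))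
      + (y * t) ^ 2 * (deriv (deriv (deriv (deriv p))) (y * t) / deriv (deriv p) (y * t)
        - (deriv (deriv (deriv p)) (y * t) / deriv (deriv p) (y * t)) ^ 2))) t := by
  obtain ⟨e1, e2, e3, e4⟩ := hd_all h
  have a := ((((hasDerivAt_pow 2 t).const_mul y).mul (comp_y y t e4)).div (comp_y y t e3) h0)
  have b := ((hasDerivAt_id t).const_mul 3).add a
  refine (b.congr_deriv ?_).congr_of_eventuallyEq (Filter.Eventually.of_forall fun s => ?_)
  · simp only [Pi.mul_apply]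
    field_simp
    simp only [Nat.cast_ofNat, Nat.add_one_sub_one, pow_one]
    ring
  · rfl

private theorem k0_facts {c₁ B : ℝ} (hc : 0 < c₁) (hc1 : c₁ ≤ 1) (hB : 1 ≤ B) :
    0 < k₀ c₁ B ∧ k₀ c₁ B ≤ 1 / 100 ∧ k₀ c₁ B * (B / c₁) ≤ 1 / 100 ∧
      k₀ c₁ B ^ 2 * (B / c₁ + (B / c₁) ^ 2) ≤ 1 / 50 := by
  have h1 : k₀ c₁ B * (B / c₁) ≤ 1 / 100 := by
    unfold k₀
    rw [div_mul_div_comm, div_le_div_iff₀ (by positivity) (by norm_num)]
    have : c₁ ^ 2 * B ≤ c₁ * (B + 1) ^ 2 := by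
      have : c₁ ^ 2 ≤ c₁ * 1 := by nlinarith
      calc c₁ ^ 2 * B ≤ c₁ * 1 * B := by gcongr
        _ ≤ c₁ * (B + 1) ^ 2 := by nlinarith [mul_pos hc (by linarith : (0:ℝ) < B)]
    nlinarith
  have h0 : 0 < k₀ c₁ B := by unfold k₀; positivity
  have hr : 1 ≤ B / c₁ := by rw [le_div_iff₀ hc]; linarith
  refine ⟨h0, by nlinarith, h1, ?_⟩
  have h2 : k₀ c₁ B ≤ 1 / 100 := by nlinarith
  have h3 : 0 ≤ k₀ c₁ B * (B / c₁) := by positivity
  calc k₀ c₁ B ^ 2 * (B / c₁ + (B / c₁) ^ 2) = k₀ c₁ B * (k₀ c₁ B * (B / c₁)) + (k₀ c₁ B * (B / c₁)) ^ 2 := by ring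
    _ ≤ 1 / 50 := by nlinarith

private theorem arg_le {c₁ B y ρ t : ℝ} (hc : 0 < c₁) (hc1 : c₁ ≤ 1) (hB : 1 ≤ B) (hy : 0 < y)
    (h : y * ρ ≤ k₀ c₁ B) (ht : |t| ≤ ρ) : |y * t| ≤ k₀ c₁ B ∧ |y * t| ≤ 1 := by
  have h1 : |y * t| ≤ y * ρ := by
    rw [abs_mul, abs_of_pos hy]; gcongr
  have := (k0_facts hc hc1 hB).2.1
  constructor <;> linarith

theorem crv_fy {c₁ B : ℝ} (hc : 0 < c₁) (hc1 : c₁ ≤ 1) (hB : 1 ≤ B) {p : ℝ → ℝ} (hp : Cv c₁ B p) {y ρ : ℝ} (hy : 0 < y) (hρ : 0 < ρ)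
    (h : y * ρ ≤ k₀ c₁ B) : Crv c₁ (B + 4) ρ (fy p y) (gy p y) (ry p y) := by
  obtain ⟨k0, k1, k2, k3⟩ := k0_facts hc hc1 hB
  have hψ : ∀ s : ℝ, |s| ≤ 1 → |deriv (deriv (deriv p)) s / deriv (deriv p) s| ≤ B / c₁ := by
    intro s hs
    have := hp.lo s hs
    rw [abs_div]
    have h2 : c₁ ≤ |deriv (deriv p) s| := this.trans (le_abs_self _)
    exact div_le_div₀ (by linarith) (hp.d3 s hs) hc h2
  have hψ4 : ∀ s : ℝ, |s| ≤ 1 → |deriv (deriv (deriv (deriv p))) s / deriv (deriv p) s| ≤ B / c₁ := by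
    intro s hs
    have := hp.lo s hs
    rw [abs_div]
    have h2 : c₁ ≤ |deriv (deriv p) s| := this.trans (le_abs_self _)
    exact div_le_div₀ (by linarith) (hp.d4 s hs) hc h2
  refine ⟨⟨_, _, fun s => deriv (deriv p) (y * s), fun t ht => ⟨fy_d1 hp.sm hy t, fy_d2 hp.sm hy t, gy_d1 hp.sm hy t, ?_, ?_, ?_⟩⟩, ?_, ?_⟩
  · obtain ⟨a, b⟩ := arg_le hc hc1 hB hy h ht
    have := hp.lo _ b
    exact gy_d2 hp.sm hy t (by linarith)
  · obtain ⟨a, b⟩ := arg_le hc hc1 hB hy h ht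
    exact hp.lo _ b
  · obtain ⟨a, b⟩ := arg_le hc hc1 hB hy h ht
    have := hp.d2 _ b
    have := le_abs_self (deriv (deriv p) (y * t))
    show deriv (deriv p) (y * t) ≤ B + 4
    linarith
  · intro t ht
    obtain ⟨a, b⟩ := arg_le hc hc1 hB hy h ht
    have e : ry p y t = 3 * t + t * ((y * t) * (deriv (deriv (deriv p)) (y * t) / deriv (deriv p) (y * t))) := by
      unfold ry; ring
    rw [e]
    have e1 : |(y * t) * (deriv (deriv (deriv p)) (y * t) / deriv (deriv p) (y * t))| ≤ 1 / 100 := by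
      rw [abs_mul]
      calc |y * t| * |deriv (deriv (deriv p)) (y * t) / deriv (deriv p) (y * t)| ≤ k₀ c₁ B * (B / c₁) := by
            gcongr; exact hψ _ b
        _ ≤ 1 / 100 := k2
    calc |3 * t + t * ((y * t) * (deriv (deriv (deriv p)) (y * t) / deriv (deriv p) (y * t)))|
        ≤ |3 * t| + |t * ((y * t) * (deriv (deriv (deriv p)) (y * t) / deriv (deriv p) (y * t)))| := abs_add_le _ _
      _ = 3 * |t| + |t| * |(y * t) * (deriv (deriv (deriv p)) (y * t) / deriv (deriv p) (y * t))| := by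
            rw [abs_mul, abs_mul t]; norm_num
      _ ≤ 3 * ρ + ρ * (1 / 100) := by gcongr
      _ ≤ (B + 4) * ρ := by nlinarith
  · intro t t' ht ht' hle
    rcases eq_or_lt_of_le hle with he | hlt
    · subst he; simp
    have hint : ∀ s ∈ Icc t' t, |s| ≤ ρ := by
      intro s hs
      rw [abs_le] at ht ht' ⊢
      exact ⟨ht'.1.trans hs.1, hs.2.trans ht.2⟩
    have hder : ∀ s ∈ Icc t' t, HasDerivAt (ry p y) (3 + (2 * y * s * (deriv (deriv (deriv p)) (y * s) / deriv (deriv p) (y * s))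
      + (y * s) ^ 2 * (deriv (deriv (deriv (deriv p))) (y * s) / deriv (deriv p) (y * s)
        - (deriv (deriv (deriv p)) (y * s) / deriv (deriv p) (y * s)) ^ 2))) s := by
      intro s hs
      obtain ⟨a, b⟩ := arg_le hc hc1 hB hy h (hint s hs)
      have := hp.lo _ b
      exact ry_d hp.sm s (by linarith)
    obtain ⟨c, hcI, hce⟩ := exists_hasDerivAt_eq_slope (ry p y) _ hlt
      (fun s hs => (hder s hs).continuousAt.continuousWithinAt) (fun s hs => hder s ⟨hs.1.le, hs.2.le⟩)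
    have hcI' : c ∈ Icc t' t := ⟨hcI.1.le, hcI.2.le⟩
    obtain ⟨a, b⟩ := arg_le hc hc1 hB hy h (hint c hcI')
    have b1 : |2 * y * c * (deriv (deriv (deriv p)) (y * c) / deriv (deriv p) (y * c))
      + (y * c) ^ 2 * (deriv (deriv (deriv (deriv p))) (y * c) / deriv (deriv p) (y * c)
        - (deriv (deriv (deriv p)) (y * c) / deriv (deriv p) (y * c)) ^ 2)| ≤ 1 := by
      have x1 : |2 * y * c * (deriv (deriv (deriv p)) (y * c) / deriv (deriv p) (y * c))| ≤ 2 * (1 / 100) := by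
        have : 2 * y * c * (deriv (deriv (deriv p)) (y * c) / deriv (deriv p) (y * c))
          = 2 * ((y * c) * (deriv (deriv (deriv p)) (y * c) / deriv (deriv p) (y * c))) := by ring
        rw [this, abs_mul, abs_mul]
        have : |y * c| * |deriv (deriv (deriv p)) (y * c) / deriv (deriv p) (y * c)| ≤ 1 / 100 :=
          le_trans (mul_le_mul a (hψ _ b) (abs_nonneg _) k0.le) k2
        rw [abs_of_pos (by norm_num : (0:ℝ) < 2)]
        linarith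
      have x2 : |(y * c) ^ 2 * (deriv (deriv (deriv (deriv p))) (y * c) / deriv (deriv p) (y * c)
        - (deriv (deriv (deriv p)) (y * c) / deriv (deriv p) (y * c)) ^ 2)| ≤ 1 / 50 := by
        rw [abs_mul, abs_pow]
        have y1 : |deriv (deriv (deriv (deriv p))) (y * c) / deriv (deriv p) (y * c)
        - (deriv (deriv (deriv p)) (y * c) / deriv (deriv p) (y * c)) ^ 2| ≤ B / c₁ + (B / c₁) ^ 2 := by
          refine (abs_sub _ _).trans ?_
          have := hψ _ b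
          have h3 := hψ4 _ b
          have h4 : |(deriv (deriv (deriv p)) (y * c) / deriv (deriv p) (y * c)) ^ 2| ≤ (B / c₁) ^ 2 := by
            rw [abs_pow]; gcongr
          linarith
        exact le_trans (mul_le_mul (pow_le_pow_left₀ (abs_nonneg _) a 2) y1 (abs_nonneg _) (by positivity)) k3
      refine (abs_add_le _ _).trans ?_
      linarith
    rw [abs_le] at b1
    have hpos : 0 < t - t' := by linarith
    rw [eq_div_iff hpos.ne'] at hce
    rw [← hce]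
    constructor
    · apply mul_le_mul_of_nonneg_right _ hpos.le
      linarith [b1.1]
    · apply mul_le_mul_of_nonneg_right _ hpos.le
      linarith [b1.2]

theorem crv6_fy {c₁ B : ℝ} (hc : 0 < c₁) (hc1 : c₁ ≤ 1) (hB : 1 ≤ B) {p : ℝ → ℝ} (hp : Cv c₁ B p) {y ρ : ℝ} (hy : 0 < y) (hρ : 0 < ρ)
    (h : y * ρ ≤ k₀ c₁ B) : Crv6 c₁ (B + 4) ρ (fy p y) := by
  obtain ⟨⟨f1, g1, φ, hh⟩, -, -⟩ := crv_fy hc hc1 hB hp hy hρ h
  exact ⟨⟨f1, φ, fun t ht => ⟨(hh t ht).1, (hh t ht).2.1, (hh t ht).2.2.2.2.1, (hh t ht).2.2.2.2.2⟩⟩⟩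

end Pool.Agent.Helper60.LT
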