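import Pool.Agent.Helper60.LT.Defs
import Pool.Agent.Helper92.DT.R4

/-!
# LT-B2: the family near `x₀` is the linearised family

PROOFS. `phase_expand`: `uu (x₀ + ξ) k = u (1 + ξ t)`, `tt (x₀ + ξ) k = t / (1 + ξ t)` with `u = uu x₀ k`, `t = tt x₀ k`, `k.2 = u t`, `k.1 = u - x₀ u t`; then an identity in `p 0, p' 0, p(y t), p'(y t), p(y t/(1 + ξ t))`: `unfold` everything, `field_simp`, `ring`.
`ch_bd`: `φ s = (1 + s t) p(y t/(1 + s t))` has `φ' s = t (p v - v p' v)`, `φ'' s = y² t⁴ p''(v)/(1 + s t)³`, `v = y t/(1 + s t)`, `|v| ≤ y ρ/(9/10) ≤ 5/9`; `ch = φ ξ - φ 0 - ξ φ' 0`; Taylor (or twice the mean value theorem) on `[0, ξ]` resp. `[ξ, 0]`,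
`|φ''| ≤ B y² ρ⁴/(9/10)³`.
`ch_lip`: `ch p y ξ t - ch p y ξ t'` is the second order Taylor remainder in `s` of `φ_s(t) - φ_s(t')`; its second derivative is `G(t) - G(t')`, `G t = y² t⁴ p''(v)/(1 + s t)³`, `G' t = y² (4 t³ p''(v)/(1 + s t)³ + t⁴ p'''(v) y/(1 + s t)⁵ - 3 s t⁴ p''(v)/(1 + s t)⁴)`,
`|G'| ≤ 7 B y² ρ³`, so `|ch t - ch t'| ≤ (7/2) B y² ξ² ρ³ |t - t'|`. (Or directly: `d/dt ch = ξ p(v)... `; or bound `|∂_t ch|` by the mean value theorem in `ξ`.)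
`loc`: as `Helper76.MM.A3.loc`: `phase_expand`, `m12_shift` removes the linear form, `mul12_exp` (DT.R4) with `U = lam H`, `χ = ± T ch`, `t₁ = -ρ`, `t₂ = ρ`, constant `80 B lam`.
-/

open MeasureTheory Real Set Filter Topology

set_option autoImplicit false

namespace Pool.Agent.Helper60.LT

open Pool.Agent.Helper22.AE
open Pool.Agent.Helper92.GC (dt tp Tq uu tt arc gs dd)
open Pool.Agent.Helper92.DT (m12 IsMul12)

/-- the remainder, a function of the slope -/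
noncomputable def ch (p : ℝ → ℝ) (y ξ t : ℝ) : ℝ :=
  (1 + ξ * t) * p (y * t / (1 + ξ * t)) - p (y * t) - ξ * (t * (p (y * t) - y * t * deriv p (y * t)))

private theorem mvt56 {f f' : ℝ → ℝ} {B : ℝ} (h1 : ∀ x, HasDerivAt f (f' x) x)
    (hB : ∀ x, |x| ≤ 1 → |f' x| ≤ B) {v w : ℝ} (hv : |v| ≤ 1) (hw : |w| ≤ 1) : |f v - f w| ≤ B * |v - w| := by
  have h := (convex_Icc (-1 : ℝ) 1).norm_image_sub_le_of_norm_hasDerivWithin_le (f := f) (f' := f') (C := B)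
    (fun x _ => (h1 x).hasDerivWithinAt) (fun x hx => hB x (abs_le.2 hx)) (abs_le.1 hw) (abs_le.1 hv)
  simpa only [norm_eq_abs] using h

private theorem T2_56 {f f' f'' : ℝ → ℝ} {B : ℝ} (h1 : ∀ x, HasDerivAt f (f' x) x) (h2 : ∀ x, HasDerivAt f' (f'' x) x)
    (hB : ∀ x, |x| ≤ 1 → |f'' x| ≤ B) {v w : ℝ} (hv : |v| ≤ 1) (hw : |w| ≤ 1) :
    |f v - f w - (v - w) * f' w| ≤ B * (v - w) ^ 2 / 2 := by
  have hgd : ∀ s : ℝ, HasDerivAt (fun s : ℝ => f (w + s * (v - w)) - s * ((v - w) * f' w))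
      ((v - w) * (f' (w + s * (v - w)) - f' w)) s := by
    intro s
    have e1 : HasDerivAt (fun s : ℝ => w + s * (v - w)) (v - w) s := by
      simpa using ((hasDerivAt_id s).mul_const (v - w)).const_add w
    have e2 := (h1 (w + s * (v - w))).comp s e1
    have e3 := e2.sub ((hasDerivAt_id s).mul_const ((v - w) * f' w))
    refine e3.congr_deriv ?_
    ring
  have hsq : ∀ s : ℝ, HasDerivAt (fun s : ℝ => s ^ 2) (2 * s) s := by
    intro s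
    simpa using hasDerivAt_pow 2 s
  obtain ⟨c, hc, hc2⟩ := exists_ratio_hasDerivAt_eq_ratio_slope
    (fun s : ℝ => f (w + s * (v - w)) - s * ((v - w) * f' w)) (fun s => (v - w) * (f' (w + s * (v - w)) - f' w))
    (zero_lt_one (α := ℝ)) (fun s _ => (hgd s).continuousAt.continuousWithinAt) (fun s _ => hgd s)
    (fun s => s ^ 2) (fun s => 2 * s) (fun s _ => (hsq s).continuousAt.continuousWithinAt) (fun s _ => hsq s)
  have hc0 : 0 < c := hc.1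
  have hcv : |w + c * (v - w)| ≤ 1 := by
    have e : w + c * (v - w) = (1 - c) * w + c * v := by ring
    rw [e]
    refine (abs_add_le _ _).trans ?_
    rw [abs_mul, abs_mul, abs_of_pos hc0, abs_of_pos (by linarith [hc.2] : 0 < 1 - c)]
    nlinarith [hc.2]
  have h3 := mvt56 h2 hB hcv hw
  have e1 : w + c * (v - w) - w = c * (v - w) := by ring
  rw [e1, abs_mul, abs_of_pos hc0] at h3
  have e2 : w + 1 * (v - w) = v := by ring
  have e3 : w + 0 * (v - w) = w := by ring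
  simp only [e2, e3] at hc2
  have h4 : (f v - f w - (v - w) * f' w) * (2 * c) = (v - w) * (f' (w + c * (v - w)) - f' w) := by
    linear_combination -hc2
  have h5 : |f v - f w - (v - w) * f' w| * (2 * c) ≤ B * (v - w) ^ 2 / 2 * (2 * c) := by
    have h6 : |f v - f w - (v - w) * f' w| * (2 * c) = |v - w| * |f' (w + c * (v - w)) - f' w| := by
      rw [← abs_mul, ← h4, abs_mul, abs_of_pos (by positivity : 0 < 2 * c)]
    rw [h6]
    calc |v - w| * |f' (w + c * (v - w)) - f' w| ≤ |v - w| * (B * (c * |v - w|)) :=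
          mul_le_mul_of_nonneg_left h3 (abs_nonneg _)
      _ = B * |v - w| ^ 2 / 2 * (2 * c) := by ring
      _ = _ := by rw [sq_abs]
  exact le_of_mul_le_mul_right h5 (by positivity)

private theorem ch_eq56 (p : ℝ → ℝ) (y ξ t : ℝ) (hq : 1 + ξ * t ≠ 0) : ch p y ξ t =
    (1 + ξ * t) * (p (y * t / (1 + ξ * t)) - p (y * t) - (y * t / (1 + ξ * t) - y * t) * deriv p (y * t)) := by
  unfold ch
  have e : (1 + ξ * t) * (y * t / (1 + ξ * t) - y * t) = -(ξ * t * (y * t)) := by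
    field_simp
    ring
  linear_combination deriv p (y * t) * e

private theorem deriv_ch56 {p p' p'' : ℝ → ℝ} (hp' : deriv p = p') (h1 : ∀ x, HasDerivAt p (p' x) x) (h2 : ∀ x, HasDerivAt p' (p'' x) x)
    {y ξ t : ℝ} (hq : 1 + ξ * t ≠ 0) :
    HasDerivAt (fun t => ch p y ξ t) (ξ * (p (y * t / (1 + ξ * t)) - p (y * t) - (y * t / (1 + ξ * t) - y * t) * p' (y * t)) +
      y / (1 + ξ * t) * (p' (y * t / (1 + ξ * t)) - p' (y * t) - (y * t / (1 + ξ * t) - y * t) * p'' (y * t)) +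
      y ^ 2 * ξ ^ 2 * t ^ 3 * (2 + ξ * t) / (1 + ξ * t) ^ 2 * p'' (y * t)) t := by
  unfold ch
  rw [hp']
  have e1 : HasDerivAt (fun t : ℝ => 1 + ξ * t) ξ t := by
    simpa using ((hasDerivAt_id t).const_mul ξ).const_add 1
  have e2 : HasDerivAt (fun t : ℝ => y * t) y t := by
    simpa using (hasDerivAt_id t).const_mul y
  have e3 : HasDerivAt (fun t : ℝ => y * t / (1 + ξ * t)) (y / (1 + ξ * t) ^ 2) t := by
    refine (e2.div e1 hq).congr_deriv ?_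
    field_simp
    ring
  have e4 : HasDerivAt (fun t : ℝ => p (y * t / (1 + ξ * t))) (p' (y * t / (1 + ξ * t)) * (y / (1 + ξ * t) ^ 2)) t :=
    (h1 (y * t / (1 + ξ * t))).comp t e3
  have e5 : HasDerivAt (fun t : ℝ => p (y * t)) (p' (y * t) * y) t := (h1 (y * t)).comp t e2
  have e6 : HasDerivAt (fun t : ℝ => p' (y * t)) (p'' (y * t) * y) t := (h2 (y * t)).comp t e2
  have e7 := ((e1.mul e4).sub e5).sub (((hasDerivAt_id t).mul (e5.sub (e2.mul e6))).const_mul ξ)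
  refine e7.congr_deriv ?_
  simp only [id, Pi.sub_apply, Pi.mul_apply]
  field_simp
  ring

private theorem ch_bd_aux56 {p p' p'' : ℝ → ℝ} {B : ℝ} (hB0 : 0 ≤ B) (hp' : deriv p = p') (h1 : ∀ x, HasDerivAt p (p' x) x)
    (h2 : ∀ x, HasDerivAt p' (p'' x) x) (hB : ∀ x, |x| ≤ 1 → |p'' x| ≤ B)
    {y ρ ξ t : ℝ} (hy : 0 < y) (hyρ : y * ρ ≤ 1 / 2)
    (hξ : |ξ| * ρ ≤ 1 / 10) (ht : |t| ≤ ρ) : |ch p y ξ t| ≤ B * (y ^ 2 * ξ ^ 2 * ρ ^ 4) := by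
  have hξt : |ξ * t| ≤ 1 / 10 := by
    rw [abs_mul]
    exact (mul_le_mul_of_nonneg_left ht (abs_nonneg _)).trans hξ
  have hq : 9 / 10 ≤ 1 + ξ * t := by linarith [(abs_le.1 hξt).1]
  have hq0 : 0 < 1 + ξ * t := by linarith
  have hw : |y * t| ≤ 1 / 2 := by
    rw [abs_mul, abs_of_pos hy]
    exact (mul_le_mul_of_nonneg_left ht hy.le).trans hyρ
  have hv : |y * t / (1 + ξ * t)| ≤ 1 := by
    rw [abs_div, abs_of_pos hq0, div_le_one hq0]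
    linarith
  have h3 := T2_56 h1 h2 hB hv (hw.trans (by norm_num))
  rw [ch_eq56 p y ξ t hq0.ne', hp', abs_mul, abs_of_pos hq0]
  have e : (1 + ξ * t) * (y * t / (1 + ξ * t) - y * t) = -(ξ * t * (y * t)) := by
    field_simp
    ring
  have h4 : (1 + ξ * t) * |p (y * t / (1 + ξ * t)) - p (y * t) - (y * t / (1 + ξ * t) - y * t) * p' (y * t)| * (1 + ξ * t) ≤
      B * (y ^ 2 * ξ ^ 2 * t ^ 4) / 2 := by
    calc (1 + ξ * t) * |p (y * t / (1 + ξ * t)) - p (y * t) - (y * t / (1 + ξ * t) - y * t) * p' (y * t)| * (1 + ξ * t)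
        ≤ (1 + ξ * t) * (B * (y * t / (1 + ξ * t) - y * t) ^ 2 / 2) * (1 + ξ * t) :=
          mul_le_mul_of_nonneg_right (mul_le_mul_of_nonneg_left h3 hq0.le) hq0.le
      _ = B * ((1 + ξ * t) * (y * t / (1 + ξ * t) - y * t)) ^ 2 / 2 := by ring
      _ = B * (y ^ 2 * ξ ^ 2 * t ^ 4) / 2 := by rw [e]; ring
  have h5 : t ^ 4 ≤ ρ ^ 4 := by
    have h6 := pow_le_pow_left₀ (abs_nonneg t) ht 4
    rwa [Even.pow_abs (by decide)] at h6
  have h6 : B * (y ^ 2 * ξ ^ 2 * t ^ 4) ≤ B * (y ^ 2 * ξ ^ 2 * ρ ^ 4) :=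
    mul_le_mul_of_nonneg_left (mul_le_mul_of_nonneg_left h5 (by positivity)) hB0
  have h7 : 0 ≤ B * (y ^ 2 * ξ ^ 2 * ρ ^ 4) := by positivity
  nlinarith

private theorem ch_lip_aux56 {p p' p'' p3 : ℝ → ℝ} {B : ℝ} (hB0 : 0 ≤ B) (hp' : deriv p = p') (h1 : ∀ x, HasDerivAt p (p' x) x)
    (h2 : ∀ x, HasDerivAt p' (p'' x) x) (h3 : ∀ x, HasDerivAt p'' (p3 x) x) (hB : ∀ x, |x| ≤ 1 → |p'' x| ≤ B)
    (hB3 : ∀ x, |x| ≤ 1 → |p3 x| ≤ B)
    {y ρ ξ t t' : ℝ} (hy : 0 < y) (hρ : 0 ≤ ρ) (hyρ : y * ρ ≤ 1 / 2)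
    (hξ : |ξ| * ρ ≤ 1 / 10) (ht : |t| ≤ ρ) (ht' : |t'| ≤ ρ) :
    |ch p y ξ t - ch p y ξ t'| ≤ 20 * B * (y ^ 2 * ξ ^ 2 * ρ ^ 3) * |t - t'| := by
  have hder : ∀ t, |t| ≤ ρ → 1 + ξ * t ≠ 0 ∧
      |ξ * (p (y * t / (1 + ξ * t)) - p (y * t) - (y * t / (1 + ξ * t) - y * t) * p' (y * t)) +
      y / (1 + ξ * t) * (p' (y * t / (1 + ξ * t)) - p' (y * t) - (y * t / (1 + ξ * t) - y * t) * p'' (y * t)) +
      y ^ 2 * ξ ^ 2 * t ^ 3 * (2 + ξ * t) / (1 + ξ * t) ^ 2 * p'' (y * t)| ≤ 20 * B * (y ^ 2 * ξ ^ 2 * ρ ^ 3) := by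
    intro t ht
    have hξt : |ξ * t| ≤ 1 / 10 := by
      rw [abs_mul]
      exact (mul_le_mul_of_nonneg_left ht (abs_nonneg _)).trans hξ
    have hq : 9 / 10 ≤ 1 + ξ * t := by linarith [(abs_le.1 hξt).1]
    have hq0 : 0 < 1 + ξ * t := by linarith
    have hw : |y * t| ≤ 1 / 2 := by
      rw [abs_mul, abs_of_pos hy]
      exact (mul_le_mul_of_nonneg_left ht hy.le).trans hyρ
    have hw1 : |y * t| ≤ 1 := hw.trans (by norm_num)
    have hv : |y * t / (1 + ξ * t)| ≤ 1 := by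
      rw [abs_div, abs_of_pos hq0, div_le_one hq0]
      linarith
    refine ⟨hq0.ne', ?_⟩
    set q := 1 + ξ * t with hqdef
    have hqi : 1 / q ≤ 10 / 9 := by
      rw [div_le_iff₀ hq0]
      linarith
    have hqne : q ≠ 0 := hq0.ne'
    have hvw : y * t / q - y * t = -(y * ξ * t ^ 2) * (1 / q) := by
      calc y * t / q - y * t = (y * t - y * t * q) / q := by field_simp
        _ = -(y * ξ * t ^ 2) * (1 / q) := by
          rw [show y * t - y * t * q = -(y * ξ * t ^ 2) by rw [hqdef]; ring]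
          ring
    have hvw2 : (y * t / q - y * t) ^ 2 ≤ 2 * (y ^ 2 * ξ ^ 2 * t ^ 4) := by
      rw [hvw]
      have e : (-(y * ξ * t ^ 2) * (1 / q)) ^ 2 = (y ^ 2 * ξ ^ 2 * t ^ 4) * (1 / q) ^ 2 := by ring
      rw [e]
      have h4 : (1 / q) ^ 2 ≤ 2 := by
        have := pow_le_pow_left₀ (by positivity) hqi 2
        exact this.trans (by norm_num)
      have h5 : 0 ≤ y ^ 2 * ξ ^ 2 * t ^ 4 := by positivity
      nlinarith
    have ht4 : t ^ 4 ≤ ρ ^ 4 := by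
      have h6 := pow_le_pow_left₀ (abs_nonneg t) ht 4
      rwa [Even.pow_abs (by decide)] at h6
    have ht3 : |t| ^ 3 ≤ ρ ^ 3 := pow_le_pow_left₀ (abs_nonneg t) ht 3
    have a1 := T2_56 h1 h2 hB hv hw1
    have a2 := T2_56 h2 h3 hB3 hv hw1
    have a3 := hB _ hw1
    have b0 : B * (y * t / q - y * t) ^ 2 / 2 ≤ B * (y ^ 2 * ξ ^ 2 * ρ ^ 4) := by
      have h6 : B * (y * t / q - y * t) ^ 2 ≤ B * (2 * (y ^ 2 * ξ ^ 2 * t ^ 4)) := mul_le_mul_of_nonneg_left hvw2 hB0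
      have h7 : B * (y ^ 2 * ξ ^ 2 * t ^ 4) ≤ B * (y ^ 2 * ξ ^ 2 * ρ ^ 4) :=
        mul_le_mul_of_nonneg_left (mul_le_mul_of_nonneg_left ht4 (by positivity)) hB0
      linarith
    have hK : 0 ≤ B * (y ^ 2 * ξ ^ 2 * ρ ^ 3) := by positivity
    have b1 : |ξ * (p (y * t / q) - p (y * t) - (y * t / q - y * t) * p' (y * t))| ≤ B * (y ^ 2 * ξ ^ 2 * ρ ^ 3) := by
      rw [abs_mul]
      calc |ξ| * |p (y * t / q) - p (y * t) - (y * t / q - y * t) * p' (y * t)|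
          ≤ |ξ| * (B * (y ^ 2 * ξ ^ 2 * ρ ^ 4)) := mul_le_mul_of_nonneg_left (a1.trans b0) (abs_nonneg _)
        _ = (B * (y ^ 2 * ξ ^ 2 * ρ ^ 3)) * (|ξ| * ρ) := by ring
        _ ≤ (B * (y ^ 2 * ξ ^ 2 * ρ ^ 3)) * 1 := mul_le_mul_of_nonneg_left (by linarith) hK
        _ = _ := mul_one _
    have b2 : |y / q * (p' (y * t / q) - p' (y * t) - (y * t / q - y * t) * p'' (y * t))| ≤ B * (y ^ 2 * ξ ^ 2 * ρ ^ 3) := by
      rw [abs_mul, abs_of_pos (div_pos hy hq0)]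
      calc y / q * |p' (y * t / q) - p' (y * t) - (y * t / q - y * t) * p'' (y * t)|
          ≤ y / q * (B * (y ^ 2 * ξ ^ 2 * ρ ^ 4)) := mul_le_mul_of_nonneg_left (a2.trans b0) (by positivity)
        _ = (B * (y ^ 2 * ξ ^ 2 * ρ ^ 3)) * ((y * ρ) * (1 / q)) := by ring
        _ ≤ (B * (y ^ 2 * ξ ^ 2 * ρ ^ 3)) * (1 / 2 * (10 / 9)) := by
            refine mul_le_mul_of_nonneg_left (mul_le_mul hyρ hqi (by positivity) (by norm_num)) hK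
        _ ≤ _ := by linarith
    have b3 : |y ^ 2 * ξ ^ 2 * t ^ 3 * (2 + ξ * t) / q ^ 2 * p'' (y * t)| ≤ 3 * (B * (y ^ 2 * ξ ^ 2 * ρ ^ 3)) := by
      have e : y ^ 2 * ξ ^ 2 * t ^ 3 * (2 + ξ * t) / q ^ 2 * p'' (y * t) =
          (y ^ 2 * ξ ^ 2) * (t ^ 3 * p'' (y * t)) * ((2 + ξ * t) * (1 / q) ^ 2) := by
        field_simp
      rw [e, abs_mul, abs_mul, abs_of_nonneg (by positivity : 0 ≤ y ^ 2 * ξ ^ 2), abs_mul (t ^ 3), abs_pow t 3]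
      have h6 : |(2 + ξ * t) * (1 / q) ^ 2| ≤ 3 := by
        rw [abs_mul, abs_of_nonneg (by positivity : 0 ≤ (1 / q) ^ 2), abs_of_pos (by linarith [(abs_le.1 hξt).1])]
        have h7 : (1 / q) ^ 2 ≤ (10 / 9) ^ 2 := pow_le_pow_left₀ (by positivity) hqi 2
        have h8 := (abs_le.1 hξt).2
        calc (2 + ξ * t) * (1 / q) ^ 2 ≤ (21 / 10) * (10 / 9) ^ 2 :=
              mul_le_mul (by linarith) h7 (by positivity) (by norm_num)
          _ ≤ 3 := by norm_num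
      have h9 : |t| ^ 3 * |p'' (y * t)| ≤ ρ ^ 3 * B := mul_le_mul ht3 a3 (abs_nonneg _) (by positivity)
      calc y ^ 2 * ξ ^ 2 * (|t| ^ 3 * |p'' (y * t)|) * |(2 + ξ * t) * (1 / q) ^ 2|
          ≤ y ^ 2 * ξ ^ 2 * (ρ ^ 3 * B) * 3 :=
            mul_le_mul (mul_le_mul_of_nonneg_left h9 (by positivity)) h6 (abs_nonneg _) (by positivity)
        _ = _ := by ring
    have := abs_add_three (ξ * (p (y * t / q) - p (y * t) - (y * t / q - y * t) * p' (y * t)))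
      (y / q * (p' (y * t / q) - p' (y * t) - (y * t / q - y * t) * p'' (y * t)))
      (y ^ 2 * ξ ^ 2 * t ^ 3 * (2 + ξ * t) / q ^ 2 * p'' (y * t))
    linarith
  have h := (convex_Icc (-ρ) ρ).norm_image_sub_le_of_norm_hasDerivWithin_le (f := fun t => ch p y ξ t)
    (C := 20 * B * (y ^ 2 * ξ ^ 2 * ρ ^ 3))
    (fun x hx => (deriv_ch56 hp' h1 h2 (hder x (abs_le.2 hx)).1).hasDerivWithinAt)
    (fun x hx => (hder x (abs_le.2 hx)).2) (abs_le.1 ht') (abs_le.1 ht)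
  simpa only [norm_eq_abs] using h

private theorem cv1_56 {c₁ B : ℝ} {p : ℝ → ℝ} (hp : Cv c₁ B p) (x : ℝ) : HasDerivAt p (deriv p x) x :=
  (hp.sm.differentiable (by norm_num)).differentiableAt.hasDerivAt

private theorem cv2_56 {c₁ B : ℝ} {p : ℝ → ℝ} (hp : Cv c₁ B p) (x : ℝ) :
    HasDerivAt (deriv p) (deriv (deriv p) x) x := by
  have h : ContDiff ℝ 3 (deriv p) := ContDiff.iterate_deriv' 3 1 hp.sm
  exact (h.differentiable (by norm_num)).differentiableAt.hasDerivAt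

private theorem cv3_56 {c₁ B : ℝ} {p : ℝ → ℝ} (hp : Cv c₁ B p) (x : ℝ) :
    HasDerivAt (deriv (deriv p)) (deriv (deriv (deriv p)) x) x := by
  have h : ContDiff ℝ 2 (deriv (deriv p)) := ContDiff.iterate_deriv' 2 2 hp.sm
  exact (h.differentiable (by norm_num)).differentiableAt.hasDerivAt

private lemma ee_add56 (x y : ℝ) : ee (x + y) = ee x * ee y := by
  unfold ee
  rw [← Complex.exp_add]
  congr 1
  push_cast
  ring

theorem phase_expand {p : ℝ → ℝ} {T x₀ ξ y : ℝ} (hy : y ≠ 0) {k : ℤ × ℤ} (hu : 0 < uu x₀ k) (h1 : 0 < 1 + ξ * tt x₀ k) :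
    T * pf p (x₀ + ξ) y k = dt k (T * p 0, T * (p 0 * (x₀ + ξ) + deriv p 0 * y)) +
      (y ^ 2 * T * (uu x₀ k * fy p y (tt x₀ k)) + -(y ^ 2 * T * ξ) * (uu x₀ k * gy p y (tt x₀ k))) + uu x₀ k * (T * ch p y ξ (tt x₀ k)) := by
  have hu0 : uu x₀ k ≠ 0 := hu.ne'
  have ht : (k.2 : ℝ) = uu x₀ k * tt x₀ k := by
    unfold tt
    rw [mul_div_cancel₀ _ hu0]
  have hk1 : (k.1 : ℝ) = uu x₀ k - x₀ * (uu x₀ k * tt x₀ k) := by
    rw [← ht]
    unfold uu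
    ring
  have hu1 : uu (x₀ + ξ) k = uu x₀ k * (1 + ξ * tt x₀ k) := by
    have e : uu (x₀ + ξ) k = uu x₀ k + ξ * (k.2 : ℝ) := by
      unfold uu
      ring
    rw [e, ht]
    ring
  have ht1 : tt (x₀ + ξ) k = tt x₀ k / (1 + ξ * tt x₀ k) := by
    have e : tt (x₀ + ξ) k = (k.2 : ℝ) / uu (x₀ + ξ) k := rfl
    rw [e, hu1, ht, mul_div_mul_left _ _ hu0]
  unfold pf
  rw [hu1, ht1, ← mul_div_assoc]
  unfold dt fy gy ch
  simp only
  rw [hk1, ht]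
  field_simp
  ring

theorem ch_bd {c₁ B : ℝ} (hc : 0 < c₁) (hB : 1 ≤ B) {p : ℝ → ℝ} (hp : Cv c₁ B p) {y ρ ξ t : ℝ} (hy : 0 < y) (hρ : 0 ≤ ρ) (hyρ : y * ρ ≤ 1 / 2)
    (hξ : |ξ| * ρ ≤ 1 / 10) (ht : |t| ≤ ρ) : |ch p y ξ t| ≤ B * (y ^ 2 * ξ ^ 2 * ρ ^ 4) := by
  exact ch_bd_aux56 (by linarith) rfl (cv1_56 hp) (cv2_56 hp) hp.d2 hy hyρ hξ ht

theorem ch_lip {c₁ B : ℝ} (hc : 0 < c₁) (hB : 1 ≤ B) {p : ℝ → ℝ} (hp : Cv c₁ B p) {y ρ ξ t t' : ℝ} (hy : 0 < y) (hρ : 0 ≤ ρ) (hyρ : y * ρ ≤ 1 / 2)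
    (hξ : |ξ| * ρ ≤ 1 / 10) (ht : |t| ≤ ρ) (ht' : |t'| ≤ ρ) :
    |ch p y ξ t - ch p y ξ t'| * (2 * ρ) ≤ 40 * B * (y ^ 2 * ξ ^ 2 * ρ ^ 4) * |t - t'| := by
  have h := ch_lip_aux56 (by linarith) rfl (cv1_56 hp) (cv2_56 hp) (cv3_56 hp) hp.d2 hp.d3 hy hρ hyρ hξ ht ht'
  calc |ch p y ξ t - ch p y ξ t'| * (2 * ρ) ≤ 20 * B * (y ^ 2 * ξ ^ 2 * ρ ^ 3) * |t - t'| * (2 * ρ) :=
        mul_le_mul_of_nonneg_right h (by linarith)
    _ = _ := by ring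

theorem loc {c₁ B lam : ℝ} (hc : 0 < c₁) (hB : 1 ≤ B) (hl : 1 ≤ lam) : ∃ C : ℝ, 1 ≤ C ∧
    ∀ (p : ℝ → ℝ) (S : Finset (ℤ × ℤ)) (a : ℤ × ℤ → ℂ) (x₀ ξ T y ρ H : ℝ), Cv c₁ B p → 0 < H → 0 ≤ T → 0 < y → 0 ≤ ρ → y * ρ ≤ 1 / 2 → |ξ| * ρ ≤ 1 / 10 →
      T * y ^ 2 * ξ ^ 2 * ρ ^ 4 * H ≤ 2 → (∀ k ∈ S, 0 < uu x₀ k ∧ uu x₀ k ≤ lam * H ∧ |tt x₀ k| ≤ ρ) →
      W p y S a T (x₀ + ξ) ≤ C * lf p x₀ y S a (y ^ 2 * T) (-(y ^ 2 * T * ξ)) ∧
      lf p x₀ y S a (y ^ 2 * T) (-(y ^ 2 * T * ξ)) ≤ C * W p y S a T (x₀ + ξ) := by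
  refine ⟨exp (3800 * (80 * B * lam)) ^ 12, one_le_pow₀ (one_le_exp (by positivity)), ?_⟩
  intro p S a x₀ ξ T y ρ H hp hH hT hy hρ hyρ hξ hsmall hS
  have hl0 : 0 < lam := by linarith
  have hB0 : 0 < B := by linarith
  have hU : 0 < lam * H := by positivity
  have hmem : ∀ t ∈ Icc (-ρ) ρ, |t| ≤ ρ := fun t ht => abs_le.2 ht
  have hS' : ∀ k ∈ S, 0 < uu x₀ k ∧ uu x₀ k ≤ lam * H ∧ -ρ ≤ tt x₀ k ∧ tt x₀ k ≤ ρ := by
    intro k hk
    obtain ⟨h1, h2, h3⟩ := hS k hk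
    have h4 := abs_le.1 h3
    exact ⟨h1, h2, h4.1, h4.2⟩
  have hUe : 80 * B * lam / (lam * H) = 80 * B / H := by
    field_simp
  have hsm : T * (B * (y ^ 2 * ξ ^ 2 * ρ ^ 4)) * H ≤ 2 * B := by
    have e : T * (B * (y ^ 2 * ξ ^ 2 * ρ ^ 4)) * H = B * (T * y ^ 2 * ξ ^ 2 * ρ ^ 4 * H) := by ring
    rw [e]
    nlinarith
  have hbd : ∀ s : ℝ, |s| ≤ 1 → ∀ t ∈ Icc (-ρ) ρ, |s * (T * ch p y ξ t)| ≤ 80 * B * lam / (lam * H) := by
    intro s hs t ht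
    have h1 := ch_bd hc hB hp hy hρ hyρ hξ (hmem t ht)
    rw [hUe, abs_mul, abs_mul, abs_of_nonneg hT, le_div_iff₀ hH]
    have h2 : T * |ch p y ξ t| ≤ T * (B * (y ^ 2 * ξ ^ 2 * ρ ^ 4)) := mul_le_mul_of_nonneg_left h1 hT
    have h3 : T * |ch p y ξ t| * H ≤ T * (B * (y ^ 2 * ξ ^ 2 * ρ ^ 4)) * H := mul_le_mul_of_nonneg_right h2 hH.le
    have h5 : 0 ≤ T * |ch p y ξ t| * H := by positivity
    calc |s| * (T * |ch p y ξ t|) * H = |s| * (T * |ch p y ξ t| * H) := by ring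
      _ ≤ 1 * (T * |ch p y ξ t| * H) := mul_le_mul_of_nonneg_right hs h5
      _ ≤ 80 * B := by linarith
  have hlp : ∀ s : ℝ, |s| ≤ 1 → ∀ x ∈ Icc (-ρ) ρ, ∀ x' ∈ Icc (-ρ) ρ,
      |s * (T * ch p y ξ x) - s * (T * ch p y ξ x')| * (ρ - -ρ) ≤ 80 * B * lam / (lam * H) * |x - x'| := by
    intro s hs x hx x' hx'
    have h1 := ch_lip hc hB hp hy hρ hyρ hξ (hmem x hx) (hmem x' hx')
    have e1 : s * (T * ch p y ξ x) - s * (T * ch p y ξ x') = s * (T * (ch p y ξ x - ch p y ξ x')) := by ring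
    have e2 : ρ - -ρ = 2 * ρ := by ring
    rw [hUe, e1, e2, abs_mul, abs_mul, abs_of_nonneg hT, div_mul_eq_mul_div, le_div_iff₀ hH]
    have h2 : T * (|ch p y ξ x - ch p y ξ x'| * (2 * ρ)) ≤ T * (40 * B * (y ^ 2 * ξ ^ 2 * ρ ^ 4) * |x - x'|) :=
      mul_le_mul_of_nonneg_left h1 hT
    have h3 : T * (|ch p y ξ x - ch p y ξ x'| * (2 * ρ)) * H ≤ T * (40 * B * (y ^ 2 * ξ ^ 2 * ρ ^ 4) * |x - x'|) * H :=
      mul_le_mul_of_nonneg_right h2 hH.le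
    have h4 : T * (40 * B * (y ^ 2 * ξ ^ 2 * ρ ^ 4) * |x - x'|) * H = 40 * |x - x'| * (T * (B * (y ^ 2 * ξ ^ 2 * ρ ^ 4)) * H) := by ring
    have h5 : 40 * |x - x'| * (T * (B * (y ^ 2 * ξ ^ 2 * ρ ^ 4)) * H) ≤ 40 * |x - x'| * (2 * B) :=
      mul_le_mul_of_nonneg_left hsm (by positivity)
    have h6 : 0 ≤ T * (|ch p y ξ x - ch p y ξ x'| * (2 * ρ)) * H := by positivity
    calc |s| * (T * |ch p y ξ x - ch p y ξ x'|) * (2 * ρ) * H = |s| * (T * (|ch p y ξ x - ch p y ξ x'| * (2 * ρ)) * H) := by ring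
      _ ≤ 1 * (T * (|ch p y ξ x - ch p y ξ x'| * (2 * ρ)) * H) := mul_le_mul_of_nonneg_right hs h6
      _ ≤ 80 * B * |x - x'| := by linarith
  have hm1 := Pool.Agent.Helper92.DT.mul12_exp (S := S) (β := x₀) hU (by linarith : -ρ ≤ ρ) hS'
    (χ := fun t => 1 * (T * ch p y ξ t)) (B := 80 * B * lam) (hbd 1 (by norm_num)) (hlp 1 (by norm_num))
  have hm2 := Pool.Agent.Helper92.DT.mul12_exp (S := S) (β := x₀) hU (by linarith : -ρ ≤ ρ) hS'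
    (χ := fun t => -1 * (T * ch p y ξ t)) (B := 80 * B * lam) (hbd (-1) (by norm_num)) (hlp (-1) (by norm_num))
  -- the phases
  obtain ⟨c, hcd⟩ : ∃ c : ℝ × ℝ, c = (T * p 0, T * (p 0 * (x₀ + ξ) + deriv p 0 * y)) := ⟨_, rfl⟩
  have hph : ∀ k ∈ S, T * pf p (x₀ + ξ) y k = dt k c + (y ^ 2 * T * (uu x₀ k * fy p y (tt x₀ k)) +
      -(y ^ 2 * T * ξ) * (uu x₀ k * gy p y (tt x₀ k))) + uu x₀ k * (1 * (T * ch p y ξ (tt x₀ k))) := by
    intro k hk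
    obtain ⟨h1, -, h3⟩ := hS k hk
    have h4 : |ξ * tt x₀ k| ≤ 1 / 10 := by
      rw [abs_mul]
      exact (mul_le_mul_of_nonneg_left h3 (abs_nonneg _)).trans hξ
    rw [phase_expand hy.ne' h1 (by linarith [(abs_le.1 h4).1]), hcd, one_mul]
  have hph2 : ∀ k ∈ S, y ^ 2 * T * (uu x₀ k * fy p y (tt x₀ k)) + -(y ^ 2 * T * ξ) * (uu x₀ k * gy p y (tt x₀ k)) =
      dt k (-c) + T * pf p (x₀ + ξ) y k + uu x₀ k * (-1 * (T * ch p y ξ (tt x₀ k))) := by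
    intro k hk
    rw [hph k hk]
    have : dt k (-c) = -dt k c := by
      unfold dt
      rw [Prod.fst_neg, Prod.snd_neg]
      ring
    rw [this]
    ring
  constructor
  · have e1 : W p y S a T (x₀ + ξ) = m12 S (fun k => ee (uu x₀ k * (1 * (T * ch p y ξ (tt x₀ k)))) *
        (a k * ee (y ^ 2 * T * (uu x₀ k * fy p y (tt x₀ k)) + -(y ^ 2 * T * ξ) * (uu x₀ k * gy p y (tt x₀ k))))) := by
      rw [← Pool.Agent.Helper92.DT.m12_shift S _ c]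
      unfold W
      refine Pool.Agent.Helper92.DT.m12_congr fun k hk => ?_
      rw [hph k hk, ee_add56, ee_add56]
      ring
    rw [e1]
    exact hm1.2 _
  · have e1 : lf p x₀ y S a (y ^ 2 * T) (-(y ^ 2 * T * ξ)) = m12 S (fun k => ee (uu x₀ k * (-1 * (T * ch p y ξ (tt x₀ k)))) *
        (a k * ee (T * pf p (x₀ + ξ) y k))) := by
      rw [← Pool.Agent.Helper92.DT.m12_shift S _ (-c)]
      unfold lf
      refine Pool.Agent.Helper92.DT.m12_congr fun k hk => ?_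
      rw [hph2 k hk, ee_add56, ee_add56]
      ring
    rw [e1]
    exact hm2.2 _

end Pool.Agent.Helper60.LT
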