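import Pool.Agent.Helper60.LT.A4
import Pool.Agent.Helper76.MM.A6
import Pool.Agent.Helper76.MM.A7
import Pool.Agent.Helper76.MM.A1
import Pool.Agent.Helper78.CG.Defs

/-!
# LT-B3: the linearised family against weights

The variables `R = y² T`, `Z = -y² T ξ`; `dR dZ = y⁴ T dT dξ`.
PROOFS. `LL_eq`: as in MM.A1 (`Fubini`; `n12 (mu2 v w) (hs ..)` is the power `1/6` of `∫ v w lf`).
`low_LL`: the map `(T, ξ) ↦ (y² T, -y² T ξ)` sends `[T₁, T₁ + X₁] × [0, ξ₁]` into `[y² T₁, y² T₁ + y² X₁] × [-4 y² T₁ ξ₁, 0]` (`X₁ ≤ T₁`), Jacobian `y⁴ T ≥ y⁴ T₁`, there `v ≥ c₀/(y² X₁)`, `w ≥ c₀/(4 y² T₁ ξ₁)` (`IsDw.low`). (For fixed `T` substitute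
`Z = -y² T ξ`, then `R = y² T`; one dimensional substitutions suffice as the inner integral is over an interval; or as `Helper76.MM.A4` / `A6`: `low2`.) `C = 4/c₀²`.
`up_LL`: `v ≤ Cd 0/(y² X₁)`, `w ≤ Cd 0/(4 y² T₁ ξ₁)` (`dec 0`). Near region: `|R - y² T₁| ≤ κ y² X₁`, `|Z| ≤ κ 4 y² T₁ ξ₁`; it is covered by `|T - T₁| ≤ κ X₁ ≤ T₁/4`, `|ξ| ≤ |Z|/(y² T) ≤ (16/3) κ ξ₁ ≤ 8 κ ξ₁`. The rest: `dw_tail` (Q1) for `v` at `y² T₁`
(distance `≥ κ` lengths) and for `w` at `-4 y² T₁ ξ₁` (distance `≥ κ - 1 ≥ κ/2` lengths), `lf ≤ D`; see `up2` (MM.A6).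
-/

open MeasureTheory Real Set Filter Topology

set_option autoImplicit false

namespace Pool.Agent.Helper60.LT

open Pool.Agent.Helper22.AE
open Pool.Agent.Helper92.GC (dt tp Tq uu tt arc gs dd IsDw)
open Pool.Agent.Helper92.DT (m12 IsMul12)
open Pool.Agent.Helper22.AC (IsWt)
open Pool.Agent.Helper78.CD (n12)
open Pool.Agent.Helper78.CE (hs mu2)
open Pool.Agent.Helper78.CG (ff)

/-- the linearised family against two weights -/
noncomputable def LL (v w : ℝ → ℝ) (p : ℝ → ℝ) (x₀ y : ℝ) (S : Finset (ℤ × ℤ)) (a : ℤ × ℤ → ℂ) : ℝ :=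
  ∫ R, ∫ Z, v R * w Z * lf p x₀ y S a R Z

private theorem h54_tq : IsProbabilityMeasure ((volume : Measure (ℝ × ℝ)).restrict Tq) := by
  constructor
  unfold Tq
  rw [Measure.restrict_apply_univ, Measure.volume_eq_prod, Measure.prod_prod, Real.volume_Icc,
    sub_zero, ENNReal.ofReal_one, mul_one]

private theorem m12_le54 (S : Finset (ℤ × ℤ)) (b : ℤ × ℤ → ℂ) {M : ℝ} (hb : ∑ k ∈ S, ‖b k‖ ≤ M) : m12 S b ≤ M ^ 12 := by
  have := h54_tq
  have h1 : ∀ c, ‖tp S b c‖ ^ 12 ≤ M ^ 12 := fun c =>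
    pow_le_pow_left₀ (norm_nonneg _) ((Pool.Agent.Helper92.GC.tp_norm_le S b c).trans hb) 12
  unfold m12
  calc ∫ c in Tq, ‖tp S b c‖ ^ 12 ≤ ∫ _c in Tq, M ^ 12 := by
        refine integral_mono ?_ (integrable_const _) h1
        refine Integrable.of_bound (C := M ^ 12) ((Pool.Agent.Helper92.GC.tp_cont S b).norm.pow 12).aestronglyMeasurable
          (Eventually.of_forall fun c => ?_)
        rw [Real.norm_of_nonneg (by positivity)]
        exact h1 c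
    _ = M ^ 12 := by simp

private theorem lf_nonneg54 (p : ℝ → ℝ) (x₀ y : ℝ) (S : Finset (ℤ × ℤ)) (a : ℤ × ℤ → ℂ) (R Z : ℝ) :
    0 ≤ lf p x₀ y S a R Z :=
  Pool.Agent.Helper92.DT.m12_nonneg _ _

theorem LL_nonneg {X Z : ℝ} {v w : ℝ → ℝ} (hv : IsWt X v) (hw : IsWt Z w) (p : ℝ → ℝ) (x₀ y : ℝ) (S : Finset (ℤ × ℤ)) (a : ℤ × ℤ → ℂ) :
    0 ≤ LL v w p x₀ y S a := by
  unfold LL
  refine integral_nonneg fun t => integral_nonneg fun g => ?_
  exact mul_nonneg (mul_nonneg (hv.nonneg t) (hw.nonneg g)) (lf_nonneg54 _ _ _ _ _ _ _)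

private theorem wint54 {v : ℝ → ℝ} (h1 : ∫ R, v R = 1) : Integrable v := by
  by_contra hcon
  rw [integral_undef hcon] at h1
  exact zero_ne_one h1

private theorem h54_prob {X : ℝ} {v : ℝ → ℝ} (hv : IsWt X v) :
    IsProbabilityMeasure ((volume : Measure ℝ).withDensity fun R => ENNReal.ofReal (v R)) := by
  have hint : Integrable v := wint54 hv.int_one
  constructor
  rw [withDensity_apply _ MeasurableSet.univ, Measure.restrict_univ,
    ← ofReal_integral_eq_lintegral_ofReal hint (Eventually.of_forall hv.nonneg), hv.int_one,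
    ENNReal.ofReal_one]

private theorem hs_cont54 (S : Finset (ℤ × ℤ)) (a : ℤ × ℤ → ℂ) (f g : ℤ × ℤ → ℝ) : Continuous (hs S a f g) := by
  unfold hs
  refine continuous_finsetSum _ fun k _ => continuous_const.mul (ee_cont.comp ?_)
  unfold dt
  fun_prop

private theorem hs_norm54 (S : Finset (ℤ × ℤ)) (a : ℤ × ℤ → ℂ) (f g : ℤ × ℤ → ℝ) (q : (ℝ × ℝ) × (ℝ × ℝ)) :
    ‖hs S a f g q‖ ≤ ∑ k ∈ S, ‖a k‖ := by
  unfold hs
  refine (norm_sum_le _ _).trans (le_of_eq (Finset.sum_congr rfl fun k _ => ?_))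
  rw [norm_mul, ee_norm, mul_one]

private theorem hs_slice54 (p : ℝ → ℝ) (x₀ y : ℝ) (S : Finset (ℤ × ℤ)) (a : ℤ × ℤ → ℂ) (t g : ℝ) (c : ℝ × ℝ) :
    hs S a (ff x₀ (fy p y)) (ff x₀ (gy p y)) (c, (t, g)) =
      tp S (fun k => a k * ee (t * (uu x₀ k * fy p y (tt x₀ k)) + g * (uu x₀ k * gy p y (tt x₀ k)))) c := by
  unfold hs tp
  refine Finset.sum_congr rfl fun k _ => ?_
  change a k * ee (dt k c + t * (uu x₀ k * fy p y (tt x₀ k)) + g * (uu x₀ k * gy p y (tt x₀ k))) = _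
  rw [add_assoc, ee_add]
  ring

theorem LL_eq {X Z : ℝ} {v w : ℝ → ℝ} (hv : IsWt X v) (hw : IsWt Z w) (p : ℝ → ℝ) (x₀ y : ℝ) (S : Finset (ℤ × ℤ)) (a : ℤ × ℤ → ℂ) :
    n12 (mu2 v w) (hs S a (ff x₀ (fy p y)) (ff x₀ (gy p y))) = LL v w p x₀ y S a ^ (1 / 6 : ℝ) := by
  unfold n12
  congr 1
  have := h54_tq
  have := h54_prob hv
  have := h54_prob hw
  have hint : Integrable (fun q => ‖hs S a (ff x₀ (fy p y)) (ff x₀ (gy p y)) q‖ ^ 12) (mu2 v w) := by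
    unfold mu2
    refine Integrable.of_bound (C := (∑ k ∈ S, ‖a k‖) ^ 12) ((hs_cont54 S a _ _).norm.pow 12).aestronglyMeasurable
      (Eventually.of_forall fun q => ?_)
    rw [Real.norm_of_nonneg (by positivity)]
    exact pow_le_pow_left₀ (norm_nonneg _) (hs_norm54 S a _ _ q) 12
  have hlf : ∀ t g, ∫ c in Tq, ‖hs S a (ff x₀ (fy p y)) (ff x₀ (gy p y)) (c, (t, g))‖ ^ 12 = lf p x₀ y S a t g := by
    intro t g
    unfold lf m12
    simp only [hs_slice54]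
  have e1 : ∫ q, ‖hs S a (ff x₀ (fy p y)) (ff x₀ (gy p y)) q‖ ^ 12 ∂(mu2 v w) =
      ∫ q : ℝ × ℝ, lf p x₀ y S a q.1 q.2 ∂(((volume : Measure ℝ).withDensity fun R => ENNReal.ofReal (v R)).prod
        ((volume : Measure ℝ).withDensity fun R => ENNReal.ofReal (w R))) := by
    unfold mu2 at hint ⊢
    rw [integral_prod_symm _ hint]
    refine integral_congr_ae (Eventually.of_forall fun q => ?_)
    exact hlf q.1 q.2
  have hint2 : Integrable (fun q : ℝ × ℝ => lf p x₀ y S a q.1 q.2)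
      (((volume : Measure ℝ).withDensity fun R => ENNReal.ofReal (v R)).prod
        ((volume : Measure ℝ).withDensity fun R => ENNReal.ofReal (w R))) := by
    refine Integrable.of_bound (C := (∑ k ∈ S, ‖a k‖) ^ 12) (lf_cont a).aestronglyMeasurable
      (Eventually.of_forall fun q => ?_)
    rw [Real.norm_of_nonneg (lf_nonneg54 _ _ _ _ _ _ _)]
    refine m12_le54 S _ (le_of_eq (Finset.sum_congr rfl fun k _ => ?_))
    rw [norm_mul, ee_norm, mul_one]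
  rw [e1, integral_prod _ hint2, integral_withDensity_eq_integral_toReal_smul
    (hv.cont.measurable.ennreal_ofReal) (Filter.Eventually.of_forall fun _ => ENNReal.ofReal_lt_top)]
  unfold LL
  refine integral_congr_ae (Eventually.of_forall fun t => ?_)
  simp only
  rw [ENNReal.toReal_ofReal (hv.nonneg t), smul_eq_mul, integral_withDensity_eq_integral_toReal_smul
    (hw.cont.measurable.ennreal_ofReal) (Filter.Eventually.of_forall fun _ => ENNReal.ofReal_lt_top), ← integral_const_mul]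
  refine integral_congr_ae (Eventually.of_forall fun g => ?_)
  simp only
  rw [ENNReal.toReal_ofReal (hw.nonneg g), smul_eq_mul]
  ring

/-! ### one dimensional tools -/

private lemma sub54 {c : ℝ} (hc : 0 < c) {a b : ℝ} (hab : a ≤ b) (F : ℝ → ℝ) :
    ∫ T in Icc a b, F (c * T) = c⁻¹ * ∫ R in Icc (c * a) (c * b), F R := by
  rw [integral_Icc_eq_integral_Ioc, integral_Icc_eq_integral_Ioc, ← intervalIntegral.integral_of_le hab,
    ← intervalIntegral.integral_of_le (mul_le_mul_of_nonneg_left hab hc.le),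
    intervalIntegral.integral_comp_mul_left _ hc.ne', smul_eq_mul]

private lemma subn54 {c : ℝ} (hc : 0 < c) {a b : ℝ} (hab : a ≤ b) (F : ℝ → ℝ) :
    ∫ ξ in Icc a b, F (-(c * ξ)) = c⁻¹ * ∫ Z in Icc (-(c * b)) (-(c * a)), F Z := by
  have h1 := sub54 hc hab (fun z => F (-z))
  have hcab : c * a ≤ c * b := mul_le_mul_of_nonneg_left hab hc.le
  rw [h1]
  congr 1
  rw [integral_Icc_eq_integral_Ioc, integral_Icc_eq_integral_Ioc, ← intervalIntegral.integral_of_le hcab,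
    ← intervalIntegral.integral_of_le (neg_le_neg hcab), intervalIntegral.integral_comp_neg]

private theorem vG54 {v : ℝ → ℝ} (hvi : Integrable v) {f : ℝ → ℝ} {D : ℝ} (hf : Continuous f)
    (h0 : ∀ t, 0 ≤ f t) (hD : ∀ t, f t ≤ D) : Integrable (fun t => v t * f t) := by
  refine hvi.mul_bdd (c := D) hf.aestronglyMeasurable (Filter.Eventually.of_forall fun t => ?_)
  rw [Real.norm_of_nonneg (h0 t)]
  exact hD t

private theorem contI54 {w : ℝ → ℝ} (hwi : Integrable w) (hw0 : ∀ g, 0 ≤ w g) {G : ℝ → ℝ → ℝ} {D : ℝ}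
    (hwc : Continuous w)
    (hG : Continuous (fun q : ℝ × ℝ => G q.1 q.2)) (h0 : ∀ t g, 0 ≤ G t g) (hD : ∀ t g, G t g ≤ D) :
    Continuous (fun t => ∫ g, w g * G t g) := by
  refine continuous_of_dominated (bound := fun g => w g * D) ?_ ?_ (hwi.mul_const D) ?_
  · intro t
    have : Continuous fun g => w g * G t g := hwc.mul (hG.comp (by fun_prop : Continuous fun g : ℝ => (t, g)))
    exact this.aestronglyMeasurable
  · intro t
    refine Filter.Eventually.of_forall fun g => ?_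
    rw [Real.norm_of_nonneg (mul_nonneg (hw0 g) (h0 t g))]
    exact mul_le_mul_of_nonneg_left (hD t g) (hw0 g)
  · refine Filter.Eventually.of_forall fun g => ?_
    exact continuous_const.mul (hG.comp (by fun_prop : Continuous fun t : ℝ => (t, g)))

/-- the weight is at least `c₀/X` on its core -/
private lemma low54 {X R₁ c₀ : ℝ} {v : ℝ → ℝ} {Cd : ℕ → ℝ} (hX : 0 < X) (hc : 0 < c₀) (hv : IsDw X R₁ v c₀ Cd)
    {F : ℝ → ℝ} (hF : Continuous F) (h0 : ∀ t, 0 ≤ F t) (hi : Integrable (fun t => v t * F t)) :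
    ∫ t in Icc R₁ (R₁ + X), F t ≤ (X / c₀) * ∫ t, v t * F t := by
  have hk : 0 < X / c₀ := by positivity
  have h1 : ∫ t in Icc R₁ (R₁ + X), F t ≤ ∫ t in Icc R₁ (R₁ + X), (X / c₀) * (v t * F t) := by
    refine setIntegral_mono_on (hF.continuousOn.integrableOn_compact isCompact_Icc)
      (hi.const_mul _).integrableOn measurableSet_Icc fun t ht => ?_
    have h2 := hv.low t ht
    have h3 : 1 ≤ (X / c₀) * v t := by
      calc (1 : ℝ) = (X / c₀) * (c₀ / X) := by field_simp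
        _ ≤ _ := mul_le_mul_of_nonneg_left h2 hk.le
    calc F t = 1 * F t := (one_mul _).symm
      _ ≤ ((X / c₀) * v t) * F t := mul_le_mul_of_nonneg_right h3 (h0 t)
      _ = _ := by ring
  refine h1.trans ?_
  rw [integral_const_mul]
  exact mul_le_mul_of_nonneg_left (setIntegral_le_integral hi (Filter.Eventually.of_forall fun t =>
    mul_nonneg (hv.wt.nonneg t) (h0 t))) hk.le

private lemma setmono54 {F : ℝ → ℝ} (hF : Continuous F) (h0 : ∀ t, 0 ≤ F t) {a b a' b' : ℝ} (h1 : a' ≤ a) (h2 : b ≤ b') :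
    ∫ t in Icc a b, F t ≤ ∫ t in Icc a' b', F t := by
  refine setIntegral_mono_set (hF.continuousOn.integrableOn_compact isCompact_Icc) ?_
    (Icc_subset_Icc h1 h2).eventuallyLE
  exact Filter.Eventually.of_forall h0

theorem low_LL {c₀ : ℝ} {Cd : ℕ → ℝ} (hc : 0 < c₀) : ∃ C : ℝ, 1 ≤ C ∧
    ∀ (p : ℝ → ℝ) (S : Finset (ℤ × ℤ)) (a : ℤ × ℤ → ℂ) (x₀ y T₁ X₁ ξ₁ : ℝ) (v w : ℝ → ℝ), 0 < y → 0 < X₁ → X₁ ≤ T₁ → 0 < ξ₁ → (∀ k, ‖a k‖ ≤ 1) →
      IsDw (y ^ 2 * X₁) (y ^ 2 * T₁) v c₀ Cd → IsDw (4 * y ^ 2 * T₁ * ξ₁) (-(4 * y ^ 2 * T₁ * ξ₁)) w c₀ Cd →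
      ∫ T in Icc T₁ (T₁ + X₁), ∫ ξ in Icc 0 ξ₁, lf p x₀ y S a (y ^ 2 * T) (-(y ^ 2 * T * ξ)) ≤ C * (X₁ * ξ₁) * LL v w p x₀ y S a := by
  refine ⟨max 1 (4 / c₀ ^ 2), le_max_left _ _, ?_⟩
  intro p S a x₀ y T₁ X₁ ξ₁ v w hy hX hXT hξ ha hv hw
  have hT : 0 < T₁ := hX.trans_le hXT
  have hy2 : 0 < y ^ 2 := by positivity
  have hLn := LL_nonneg hv.wt hw.wt p x₀ y S a
  obtain ⟨G, hGd⟩ : ∃ G : ℝ → ℝ → ℝ, G = fun R Z => lf p x₀ y S a R Z := ⟨_, rfl⟩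
  have hG : Continuous (fun q : ℝ × ℝ => G q.1 q.2) := by
    rw [hGd]
    exact lf_cont a
  have h0 : ∀ R Z, 0 ≤ G R Z := by
    intro R Z
    rw [hGd]
    exact lf_nonneg54 _ _ _ _ _ _ _
  have hD : ∀ R Z, G R Z ≤ (S.card : ℝ) ^ 12 := by
    intro R Z
    rw [hGd]
    exact lf_le ha R Z
  have hvi := wint54 hv.wt.int_one
  have hwi := wint54 hw.wt.int_one
  have hw0 := hw.wt.nonneg
  have hv0 := hv.wt.nonneg
  have hGt : ∀ t, Continuous fun g => G t g := fun t => hG.comp (by fun_prop : Continuous fun g : ℝ => (t, g))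
  have hwG : ∀ t, Integrable (fun g => w g * G t g) := fun t => vG54 hwi (hGt t) (h0 t) (hD t)
  obtain ⟨J, hJd⟩ : ∃ J : ℝ → ℝ, J = fun t => ∫ g, w g * G t g := ⟨_, rfl⟩
  have hJc : Continuous J := by
    rw [hJd]
    exact contI54 hwi hw0 hw.wt.cont hG h0 hD
  have hJ0 : ∀ t, 0 ≤ J t := by
    intro t
    rw [hJd]
    exact integral_nonneg fun g => mul_nonneg (hw0 g) (h0 t g)
  have hJD : ∀ t, J t ≤ (S.card : ℝ) ^ 12 := by
    intro t
    rw [hJd]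
    have h1 : ∫ g, w g * G t g ≤ ∫ g, w g * (S.card : ℝ) ^ 12 :=
      integral_mono (hwG t) (hwi.mul_const _) fun g => mul_le_mul_of_nonneg_left (hD t g) (hw0 g)
    rwa [integral_mul_const, hw.wt.int_one, one_mul] at h1
  have hvJ : Integrable (fun t => v t * J t) := vG54 hvi hJc hJ0 hJD
  have hLL : LL v w p x₀ y S a = ∫ t, v t * J t := by
    unfold LL
    refine integral_congr_ae (Filter.Eventually.of_forall fun t => ?_)
    simp only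
    rw [hJd, hGd]
    simp only
    rw [← integral_const_mul]
    refine integral_congr_ae (Filter.Eventually.of_forall fun g => ?_)
    simp only
    ring
  have hY : 0 < 4 * y ^ 2 * T₁ * ξ₁ := by positivity
  have hinner : ∀ T ∈ Icc T₁ (T₁ + X₁), ∫ ξ in Icc 0 ξ₁, G (y ^ 2 * T) (-(y ^ 2 * T * ξ)) ≤ (4 * ξ₁ / c₀) * J (y ^ 2 * T) := by
    intro T hTm
    have hT0 : 0 < T := hT.trans_le hTm.1
    have hcT : 0 < y ^ 2 * T := by positivity
    rw [subn54 hcT hξ.le (fun Z => G (y ^ 2 * T) Z)]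
    have h1 : ∫ Z in Icc (-(y ^ 2 * T * ξ₁)) (-(y ^ 2 * T * 0)), G (y ^ 2 * T) Z ≤
        ∫ Z in Icc (-(4 * y ^ 2 * T₁ * ξ₁)) (-(4 * y ^ 2 * T₁ * ξ₁) + 4 * y ^ 2 * T₁ * ξ₁), G (y ^ 2 * T) Z := by
      refine setmono54 (hGt _) (h0 _) ?_ ?_
      · have h2 : T ≤ 4 * T₁ := by linarith [hTm.2]
        have h3 : y ^ 2 * T * ξ₁ ≤ y ^ 2 * (4 * T₁) * ξ₁ := by gcongr
        linarith
      · rw [mul_zero]
        linarith
    have h2 := low54 hY hc hw (hGt (y ^ 2 * T)) (h0 _) (hwG _)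
    have h3 : ∫ t, w t * G (y ^ 2 * T) t = J (y ^ 2 * T) := by rw [hJd]
    rw [h3] at h2
    have h4 : (y ^ 2 * T)⁻¹ ≤ (y ^ 2 * T₁)⁻¹ := inv_anti₀ (by positivity) (mul_le_mul_of_nonneg_left hTm.1 hy2.le)
    calc (y ^ 2 * T)⁻¹ * ∫ Z in Icc (-(y ^ 2 * T * ξ₁)) (-(y ^ 2 * T * 0)), G (y ^ 2 * T) Z
        ≤ (y ^ 2 * T)⁻¹ * (4 * y ^ 2 * T₁ * ξ₁ / c₀ * J (y ^ 2 * T)) :=
          mul_le_mul_of_nonneg_left (h1.trans h2) (by positivity)
      _ ≤ (y ^ 2 * T₁)⁻¹ * (4 * y ^ 2 * T₁ * ξ₁ / c₀ * J (y ^ 2 * T)) :=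
          mul_le_mul_of_nonneg_right h4 (mul_nonneg (by positivity) (hJ0 _))
      _ = (4 * ξ₁ / c₀) * J (y ^ 2 * T) := by
          field_simp
  have hFc : Continuous (fun T => ∫ ξ in Icc 0 ξ₁, G (y ^ 2 * T) (-(y ^ 2 * T * ξ))) :=
    Pool.Agent.Helper76.MM.inner_cont (F := fun T ξ => G (y ^ 2 * T) (-(y ^ 2 * T * ξ)))
      (hG.comp (by fun_prop : Continuous fun q : ℝ × ℝ => (y ^ 2 * q.1, -(y ^ 2 * q.1 * q.2)))) 0 ξ₁
  have hJc2 : Continuous (fun T => (4 * ξ₁ / c₀) * J (y ^ 2 * T)) := by fun_prop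
  have h5 : ∫ T in Icc T₁ (T₁ + X₁), ∫ ξ in Icc 0 ξ₁, G (y ^ 2 * T) (-(y ^ 2 * T * ξ)) ≤
      ∫ T in Icc T₁ (T₁ + X₁), (4 * ξ₁ / c₀) * J (y ^ 2 * T) :=
    setIntegral_mono_on (hFc.continuousOn.integrableOn_compact isCompact_Icc)
      (hJc2.continuousOn.integrableOn_compact isCompact_Icc) measurableSet_Icc hinner
  rw [integral_const_mul, sub54 hy2 (by linarith) J] at h5
  have h6 := low54 (by positivity : 0 < y ^ 2 * X₁) hc hv hJc hJ0 hvJ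
  rw [← mul_add, ← hLL] at h6
  have h7 : ∫ T in Icc T₁ (T₁ + X₁), ∫ ξ in Icc 0 ξ₁, lf p x₀ y S a (y ^ 2 * T) (-(y ^ 2 * T * ξ)) ≤
      (4 * ξ₁ / c₀) * ((y ^ 2)⁻¹ * (y ^ 2 * X₁ / c₀ * LL v w p x₀ y S a)) := by
    rw [hGd] at h5
    refine h5.trans ?_
    exact mul_le_mul_of_nonneg_left (mul_le_mul_of_nonneg_left h6 (by positivity)) (by positivity)
  refine h7.trans ?_
  calc (4 * ξ₁ / c₀) * ((y ^ 2)⁻¹ * (y ^ 2 * X₁ / c₀ * LL v w p x₀ y S a)) =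
        4 / c₀ ^ 2 * (X₁ * ξ₁) * LL v w p x₀ y S a := by field_simp
    _ ≤ max 1 (4 / c₀ ^ 2) * (X₁ * ξ₁) * LL v w p x₀ y S a := by
        refine mul_le_mul_of_nonneg_right ?_ hLn
        exact mul_le_mul_of_nonneg_right (le_max_right _ _) (by positivity)

/-- tails of the weights -/
private theorem tail54 {X R₁ κ c₀ : ℝ} {v : ℝ → ℝ} {Cd : ℕ → ℝ} (hX : 0 < X) (hκ : 0 < κ) {A B : ℝ}
    (hfar : ∀ t ∈ (Icc A B)ᶜ, κ * X ≤ |t - R₁|) (hv : IsDw X R₁ v c₀ Cd) (n : ℕ) :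
    ∫ t in (Icc A B)ᶜ, v t ≤ κ⁻¹ ^ n * (π * (Cd n + Cd (n + 2))) := by
  obtain ⟨h1, h2⟩ := Pool.Agent.Helper92.GC.dw_tail hX hv n
  have hvi := wint54 hv.wt.int_one
  have h3 : ∫ t in (Icc A B)ᶜ, v t ≤ ∫ t in (Icc A B)ᶜ, κ⁻¹ ^ n * (v t * (|t - R₁| / X) ^ n) := by
    refine setIntegral_mono_on hvi.integrableOn (h1.const_mul _).integrableOn measurableSet_Icc.compl fun t ht => ?_
    have hone : 1 ≤ κ⁻¹ * (|t - R₁| / X) := by
      rw [inv_mul_eq_div, le_div_iff₀ hκ, one_mul, le_div_iff₀ hX]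
      exact hfar t ht
    have hpow : 1 ≤ κ⁻¹ ^ n * (|t - R₁| / X) ^ n := by
      rw [← mul_pow]
      exact one_le_pow₀ hone
    calc v t = v t * 1 := (mul_one _).symm
      _ ≤ v t * (κ⁻¹ ^ n * (|t - R₁| / X) ^ n) := mul_le_mul_of_nonneg_left hpow (hv.wt.nonneg t)
      _ = _ := by ring
  refine h3.trans ?_
  have h4 : ∫ t in (Icc A B)ᶜ, κ⁻¹ ^ n * (v t * (|t - R₁| / X) ^ n) ≤
      ∫ t, κ⁻¹ ^ n * (v t * (|t - R₁| / X) ^ n) :=
    setIntegral_le_integral (h1.const_mul _) (Filter.Eventually.of_forall fun t => by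
      have := hv.wt.nonneg t
      positivity)
  refine h4.trans ?_
  rw [integral_const_mul]
  exact mul_le_mul_of_nonneg_left h2 (by positivity)

/-- two weights, near and far -/
private theorem up54 {kv kw Av Bv Aw Bw τv τw D : ℝ} {v w : ℝ → ℝ} (hvc : Continuous v) (hwc : Continuous w)
    (hv0 : ∀ t, 0 ≤ v t) (hw0 : ∀ t, 0 ≤ w t) (hv1 : ∫ t, v t = 1) (hw1 : ∫ t, w t = 1)
    (hvle : ∀ t, v t ≤ kv) (hwle : ∀ t, w t ≤ kw)
    (htv : ∫ t in (Icc Av Bv)ᶜ, v t ≤ τv) (htw : ∫ t in (Icc Aw Bw)ᶜ, w t ≤ τw)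
    {G : ℝ → ℝ → ℝ} (hG : Continuous (fun q : ℝ × ℝ => G q.1 q.2)) (h0 : ∀ t g, 0 ≤ G t g)
    (hD : ∀ t g, G t g ≤ D) :
    ∫ t, ∫ g, v t * w g * G t g ≤ kv * kw * (∫ t in Icc Av Bv, ∫ g in Icc Aw Bw, G t g) + D * (τv + τw) := by
  have hvi := wint54 hv1
  have hwi := wint54 hw1
  have hD0 : 0 ≤ D := (h0 0 0).trans (hD 0 0)
  have hGt : ∀ t, Continuous fun g => G t g := fun t => hG.comp (by fun_prop : Continuous fun g : ℝ => (t, g))
  have hwG : ∀ t, Integrable (fun g => w g * G t g) := fun t => vG54 hwi (hGt t) (h0 t) (hD t)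
  have hI0 : ∀ t, 0 ≤ ∫ g, w g * G t g := fun t => integral_nonneg fun g => mul_nonneg (hw0 g) (h0 t g)
  have hID : ∀ t, ∫ g, w g * G t g ≤ D := by
    intro t
    have h1 : ∫ g, w g * G t g ≤ ∫ g, w g * D :=
      integral_mono (hwG t) (hwi.mul_const D) fun g => mul_le_mul_of_nonneg_left (hD t g) (hw0 g)
    rwa [integral_mul_const, hw1, one_mul] at h1
  have hIc := contI54 hwi hw0 hwc hG h0 hD
  have hvI : Integrable (fun t => v t * ∫ g, w g * G t g) := vG54 hvi hIc hI0 hID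
  have hkv : 0 ≤ kv := (hv0 0).trans (hvle 0)
  have hkw : 0 ≤ kw := (hw0 0).trans (hwle 0)
  have hJc : Continuous (fun t => ∫ g in Icc Aw Bw, G t g) :=
    Pool.Agent.Helper76.MM.inner_cont (F := G) hG Aw Bw
  have hJ0 : ∀ t, 0 ≤ ∫ g in Icc Aw Bw, G t g := fun t => integral_nonneg fun g => h0 t g
  have hIle : ∀ t, ∫ g, w g * G t g ≤ kw * (∫ g in Icc Aw Bw, G t g) + D * τw := by
    intro t
    rw [← integral_add_compl (measurableSet_Icc : MeasurableSet (Icc Aw Bw)) (hwG t)]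
    refine add_le_add ?_ ?_
    · rw [← integral_const_mul]
      refine setIntegral_mono_on (hwG t).integrableOn
        (((hGt t).continuousOn.integrableOn_compact isCompact_Icc).const_mul _) measurableSet_Icc fun g _ => ?_
      exact mul_le_mul_of_nonneg_right (hwle g) (h0 t g)
    · have h1 : ∫ g in (Icc Aw Bw)ᶜ, w g * G t g ≤ ∫ g in (Icc Aw Bw)ᶜ, w g * D :=
        setIntegral_mono_on (hwG t).integrableOn (hwi.mul_const D).integrableOn measurableSet_Icc.compl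
          fun g _ => mul_le_mul_of_nonneg_left (hD t g) (hw0 g)
      rw [integral_mul_const] at h1
      refine h1.trans ?_
      rw [mul_comm]
      exact mul_le_mul_of_nonneg_left htw hD0
  have hτw0 : 0 ≤ τw := le_trans (setIntegral_nonneg measurableSet_Icc.compl fun g _ => hw0 g) htw
  have heq : ∫ t, ∫ g, v t * w g * G t g = ∫ t, v t * ∫ g, w g * G t g := by
    refine integral_congr_ae (Filter.Eventually.of_forall fun t => ?_)
    simp only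
    rw [← integral_const_mul]
    refine integral_congr_ae (Filter.Eventually.of_forall fun g => ?_)
    simp only
    ring
  rw [heq, ← integral_add_compl (measurableSet_Icc : MeasurableSet (Icc Av Bv)) hvI]
  have hfar : ∫ t in (Icc Av Bv)ᶜ, v t * ∫ g, w g * G t g ≤ D * τv := by
    have h1 : ∫ t in (Icc Av Bv)ᶜ, v t * ∫ g, w g * G t g ≤ ∫ t in (Icc Av Bv)ᶜ, v t * D :=
      setIntegral_mono_on hvI.integrableOn (hvi.mul_const D).integrableOn measurableSet_Icc.compl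
        fun t _ => mul_le_mul_of_nonneg_left (hID t) (hv0 t)
    rw [integral_mul_const] at h1
    refine h1.trans ?_
    rw [mul_comm]
    exact mul_le_mul_of_nonneg_left htv hD0
  have hJi : IntegrableOn (fun t => kv * kw * ∫ g in Icc Aw Bw, G t g) (Icc Av Bv) :=
    (hJc.continuousOn.integrableOn_compact isCompact_Icc).const_mul _
  have hnear : ∫ t in Icc Av Bv, v t * ∫ g, w g * G t g ≤
      kv * kw * (∫ t in Icc Av Bv, ∫ g in Icc Aw Bw, G t g) + D * τw := by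
    have h1 : ∫ t in Icc Av Bv, v t * ∫ g, w g * G t g ≤
        ∫ t in Icc Av Bv, (kv * kw * (∫ g in Icc Aw Bw, G t g) + v t * (D * τw)) := by
      refine setIntegral_mono_on hvI.integrableOn (hJi.add (hvi.mul_const _).integrableOn) measurableSet_Icc
        fun t _ => ?_
      calc v t * ∫ g, w g * G t g ≤ v t * (kw * (∫ g in Icc Aw Bw, G t g) + D * τw) :=
            mul_le_mul_of_nonneg_left (hIle t) (hv0 t)
        _ = v t * (kw * (∫ g in Icc Aw Bw, G t g)) + v t * (D * τw) := by ring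
        _ ≤ kv * (kw * (∫ g in Icc Aw Bw, G t g)) + v t * (D * τw) := by
            gcongr
            · exact mul_nonneg hkw (hJ0 t)
            · exact hvle t
        _ = _ := by ring
    refine h1.trans ?_
    rw [integral_add hJi (hvi.mul_const _).integrableOn, integral_const_mul, integral_mul_const]
    refine add_le_add le_rfl ?_
    have h2 : ∫ t in Icc Av Bv, v t ≤ 1 := by
      rw [← hv1]
      exact setIntegral_le_integral hvi (Filter.Eventually.of_forall hv0)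
    calc (∫ t in Icc Av Bv, v t) * (D * τw) ≤ 1 * (D * τw) :=
          mul_le_mul_of_nonneg_right h2 (mul_nonneg hD0 hτw0)
      _ = D * τw := one_mul _
  refine (add_le_add hnear hfar).trans (le_of_eq ?_)
  ring

theorem up_LL {c₀ : ℝ} {Cd : ℕ → ℝ} (hc : 0 < c₀) (n : ℕ) : ∃ C : ℝ, 1 ≤ C ∧ ∃ E : ℝ, 1 ≤ E ∧
    ∀ (p : ℝ → ℝ) (S : Finset (ℤ × ℤ)) (a : ℤ × ℤ → ℂ) (x₀ y T₁ X₁ ξ₁ κ D : ℝ) (v w : ℝ → ℝ), 0 < y → 0 < X₁ → 0 < ξ₁ → 4 ≤ κ → κ * X₁ ≤ T₁ / 4 → (∀ k, ‖a k‖ ≤ 1) →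
      IsDw (y ^ 2 * X₁) (y ^ 2 * T₁) v c₀ Cd → IsDw (4 * y ^ 2 * T₁ * ξ₁) (-(4 * y ^ 2 * T₁ * ξ₁)) w c₀ Cd → (∀ R Z, lf p x₀ y S a R Z ≤ D) →
      LL v w p x₀ y S a ≤ C / (X₁ * ξ₁) * (∫ T in Icc (T₁ - κ * X₁) (T₁ + κ * X₁), ∫ ξ in Icc (-(8 * κ * ξ₁)) (8 * κ * ξ₁), lf p x₀ y S a (y ^ 2 * T) (-(y ^ 2 * T * ξ))) +
        E * D * κ⁻¹ ^ n := by
  refine ⟨1 + Cd 0 ^ 2, by nlinarith [sq_nonneg (Cd 0)],
    1 + (1 + 2 ^ n) * (π * (|Cd n| + |Cd (n + 2)|)), by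
      have : 0 ≤ (1 + (2:ℝ) ^ n) * (π * (|Cd n| + |Cd (n + 2)|)) := by positivity
      linarith, ?_⟩
  intro p S a x₀ y T₁ X₁ ξ₁ κ D v w hy hX hξ hκ hκX ha hv hw hlf
  have hκ0 : 0 < κ := by linarith
  have hκX0 : 0 < κ * X₁ := by positivity
  have hT : 0 < T₁ := by linarith
  have hy2 : 0 < y ^ 2 := by positivity
  have hXv : 0 < y ^ 2 * X₁ := by positivity
  have hXw : 0 < 4 * y ^ 2 * T₁ * ξ₁ := by positivity
  obtain ⟨G, hGd⟩ : ∃ G : ℝ → ℝ → ℝ, G = fun R Z => lf p x₀ y S a R Z := ⟨_, rfl⟩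
  have hG : Continuous (fun q : ℝ × ℝ => G q.1 q.2) := by
    rw [hGd]
    exact lf_cont a
  have h0 : ∀ R Z, 0 ≤ G R Z := by
    intro R Z
    rw [hGd]
    exact lf_nonneg54 _ _ _ _ _ _ _
  have hD : ∀ R Z, G R Z ≤ D := by
    intro R Z
    rw [hGd]
    exact hlf R Z
  have hD0 : 0 ≤ D := (h0 0 0).trans (hD 0 0)
  have hGt : ∀ t, Continuous fun g => G t g := fun t => hG.comp (by fun_prop : Continuous fun g : ℝ => (t, g))
  have hvle : ∀ t, v t ≤ Cd 0 / (y ^ 2 * X₁) := fun t => by have := hv.dec 0 t; simpa using this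
  have hwle : ∀ t, w t ≤ Cd 0 / (4 * y ^ 2 * T₁ * ξ₁) := fun t => by have := hw.dec 0 t; simpa using this
  have htv : ∫ t in (Icc (y ^ 2 * (T₁ - κ * X₁)) (y ^ 2 * (T₁ + κ * X₁)))ᶜ, v t ≤ κ⁻¹ ^ n * (π * (Cd n + Cd (n + 2))) := by
    refine tail54 hXv hκ0 (fun t ht => ?_) hv n
    rw [mem_compl_iff, mem_Icc, not_and_or, not_le, not_le] at ht
    have e1 : 0 < y ^ 2 * (κ * X₁) := by positivity
    rcases ht with ht | ht
    · rw [abs_of_neg (by nlinarith)]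
      nlinarith
    · rw [abs_of_pos (by nlinarith)]
      nlinarith
  have htw : ∫ t in (Icc (-(κ * (4 * y ^ 2 * T₁ * ξ₁))) (κ * (4 * y ^ 2 * T₁ * ξ₁)))ᶜ, w t ≤
      (κ / 2)⁻¹ ^ n * (π * (Cd n + Cd (n + 2))) := by
    refine tail54 hXw (by positivity) (fun t ht => ?_) hw n
    rw [mem_compl_iff, mem_Icc, not_and_or, not_le, not_le] at ht
    rcases ht with ht | ht
    · rw [abs_of_neg (by nlinarith)]
      nlinarith
    · rw [abs_of_pos (by nlinarith)]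
      nlinarith
  have hmain := up54 hv.wt.cont hw.wt.cont hv.wt.nonneg hw.wt.nonneg hv.wt.int_one hw.wt.int_one hvle hwle htv htw hG h0 hD
  have hLL : LL v w p x₀ y S a = ∫ t, ∫ g, v t * w g * G t g := by
    rw [hGd]
    rfl
  rw [hLL]
  refine hmain.trans ?_
  -- the near part
  obtain ⟨II, hII⟩ : ∃ II : ℝ, II = ∫ T in Icc (T₁ - κ * X₁) (T₁ + κ * X₁), ∫ ξ in Icc (-(8 * κ * ξ₁)) (8 * κ * ξ₁),
      G (y ^ 2 * T) (-(y ^ 2 * T * ξ)) := ⟨_, rfl⟩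
  have hII' : ∫ T in Icc (T₁ - κ * X₁) (T₁ + κ * X₁), ∫ ξ in Icc (-(8 * κ * ξ₁)) (8 * κ * ξ₁),
      lf p x₀ y S a (y ^ 2 * T) (-(y ^ 2 * T * ξ)) = II := by
    rw [hII, hGd]
  rw [hII']
  have hII0 : 0 ≤ II := by
    rw [hII]
    exact integral_nonneg fun T => integral_nonneg fun ξ => h0 _ _
  have hnear : ∫ t in Icc (y ^ 2 * (T₁ - κ * X₁)) (y ^ 2 * (T₁ + κ * X₁)),
      ∫ g in Icc (-(κ * (4 * y ^ 2 * T₁ * ξ₁))) (κ * (4 * y ^ 2 * T₁ * ξ₁)), G t g ≤ y ^ 2 * (5 / 4 * (y ^ 2 * T₁) * II) := by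
    have h1 := sub54 hy2 (by linarith : T₁ - κ * X₁ ≤ T₁ + κ * X₁)
      (fun t => ∫ g in Icc (-(κ * (4 * y ^ 2 * T₁ * ξ₁))) (κ * (4 * y ^ 2 * T₁ * ξ₁)), G t g)
    have h2 : ∫ t in Icc (y ^ 2 * (T₁ - κ * X₁)) (y ^ 2 * (T₁ + κ * X₁)),
        ∫ g in Icc (-(κ * (4 * y ^ 2 * T₁ * ξ₁))) (κ * (4 * y ^ 2 * T₁ * ξ₁)), G t g =
        y ^ 2 * ∫ T in Icc (T₁ - κ * X₁) (T₁ + κ * X₁),
          ∫ g in Icc (-(κ * (4 * y ^ 2 * T₁ * ξ₁))) (κ * (4 * y ^ 2 * T₁ * ξ₁)), G (y ^ 2 * T) g := by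
      rw [h1, mul_inv_cancel_left₀ hy2.ne']
    rw [h2]
    refine mul_le_mul_of_nonneg_left ?_ hy2.le
    have hc1 : Continuous (fun T => ∫ g in Icc (-(κ * (4 * y ^ 2 * T₁ * ξ₁))) (κ * (4 * y ^ 2 * T₁ * ξ₁)), G (y ^ 2 * T) g) :=
      Pool.Agent.Helper76.MM.inner_cont (F := fun T g => G (y ^ 2 * T) g)
        (hG.comp (by fun_prop : Continuous fun q : ℝ × ℝ => (y ^ 2 * q.1, q.2))) _ _
    have hc2 : Continuous (fun T => ∫ ξ in Icc (-(8 * κ * ξ₁)) (8 * κ * ξ₁), G (y ^ 2 * T) (-(y ^ 2 * T * ξ))) :=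
      Pool.Agent.Helper76.MM.inner_cont (F := fun T ξ => G (y ^ 2 * T) (-(y ^ 2 * T * ξ)))
        (hG.comp (by fun_prop : Continuous fun q : ℝ × ℝ => (y ^ 2 * q.1, -(y ^ 2 * q.1 * q.2)))) _ _
    rw [hII, ← integral_const_mul]
    refine setIntegral_mono_on (hc1.continuousOn.integrableOn_compact isCompact_Icc)
      ((hc2.continuousOn.integrableOn_compact isCompact_Icc).const_mul _) measurableSet_Icc fun T hTm => ?_
    have hT1 : 3 / 4 * T₁ ≤ T := by linarith [hTm.1]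
    have hT2 : T ≤ 5 / 4 * T₁ := by linarith [hTm.2]
    have hT0 : 0 < T := by linarith
    have hcT : 0 < y ^ 2 * T := by positivity
    have hκξ : 0 < κ * ξ₁ := by positivity
    have h3 := subn54 hcT (by linarith : -(8 * κ * ξ₁) ≤ 8 * κ * ξ₁) (fun Z => G (y ^ 2 * T) Z)
    have h4 : ∫ Z in Icc (-(y ^ 2 * T * (8 * κ * ξ₁))) (-(y ^ 2 * T * (-(8 * κ * ξ₁)))), G (y ^ 2 * T) Z =
        (y ^ 2 * T) * ∫ ξ in Icc (-(8 * κ * ξ₁)) (8 * κ * ξ₁), G (y ^ 2 * T) (-(y ^ 2 * T * ξ)) := by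
      rw [h3, mul_inv_cancel_left₀ hcT.ne']
    have hcov : κ * (4 * y ^ 2 * T₁ * ξ₁) ≤ y ^ 2 * T * (8 * κ * ξ₁) := by
      have e1 : 0 < y ^ 2 * (κ * ξ₁) := by positivity
      have e2 : 4 * T₁ ≤ 8 * T := by linarith
      calc κ * (4 * y ^ 2 * T₁ * ξ₁) = (y ^ 2 * (κ * ξ₁)) * (4 * T₁) := by ring
        _ ≤ (y ^ 2 * (κ * ξ₁)) * (8 * T) := mul_le_mul_of_nonneg_left e2 e1.le
        _ = _ := by ring
    have h5 : ∫ g in Icc (-(κ * (4 * y ^ 2 * T₁ * ξ₁))) (κ * (4 * y ^ 2 * T₁ * ξ₁)), G (y ^ 2 * T) g ≤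
        ∫ Z in Icc (-(y ^ 2 * T * (8 * κ * ξ₁))) (-(y ^ 2 * T * (-(8 * κ * ξ₁)))), G (y ^ 2 * T) Z := by
      refine setmono54 (hGt _) (h0 _) (neg_le_neg hcov) ?_
      rw [mul_neg, neg_neg]
      exact hcov
    refine h5.trans ?_
    rw [h4]
    refine mul_le_mul_of_nonneg_right ?_ (integral_nonneg fun ξ => h0 _ _)
    calc y ^ 2 * T ≤ y ^ 2 * (5 / 4 * T₁) := mul_le_mul_of_nonneg_left hT2 hy2.le
      _ = _ := by ring
  have hk : 0 ≤ Cd 0 / (y ^ 2 * X₁) * (Cd 0 / (4 * y ^ 2 * T₁ * ξ₁)) :=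
    mul_nonneg ((hv.wt.nonneg 0).trans (hvle 0)) ((hw.wt.nonneg 0).trans (hwle 0))
  have h6 : Cd 0 / (y ^ 2 * X₁) * (Cd 0 / (4 * y ^ 2 * T₁ * ξ₁)) *
      (∫ t in Icc (y ^ 2 * (T₁ - κ * X₁)) (y ^ 2 * (T₁ + κ * X₁)),
        ∫ g in Icc (-(κ * (4 * y ^ 2 * T₁ * ξ₁))) (κ * (4 * y ^ 2 * T₁ * ξ₁)), G t g) ≤
      (1 + Cd 0 ^ 2) / (X₁ * ξ₁) * II := by
    calc _ ≤ Cd 0 / (y ^ 2 * X₁) * (Cd 0 / (4 * y ^ 2 * T₁ * ξ₁)) * (y ^ 2 * (5 / 4 * (y ^ 2 * T₁) * II)) :=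
          mul_le_mul_of_nonneg_left hnear hk
      _ = (5 / 16 * Cd 0 ^ 2) / (X₁ * ξ₁) * II := by
          field_simp
          ring
      _ ≤ (1 + Cd 0 ^ 2) / (X₁ * ξ₁) * II := by
          refine mul_le_mul_of_nonneg_right ?_ hII0
          refine div_le_div_of_nonneg_right ?_ (by positivity)
          nlinarith [sq_nonneg (Cd 0)]
  have h7 : D * (κ⁻¹ ^ n * (π * (Cd n + Cd (n + 2))) + (κ / 2)⁻¹ ^ n * (π * (Cd n + Cd (n + 2)))) ≤
      (1 + (1 + 2 ^ n) * (π * (|Cd n| + |Cd (n + 2)|))) * D * κ⁻¹ ^ n := by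
    have e1 : (κ / 2)⁻¹ ^ n = 2 ^ n * κ⁻¹ ^ n := by
      rw [← mul_pow]
      congr 1
      field_simp
    rw [e1]
    have e2 : Cd n + Cd (n + 2) ≤ |Cd n| + |Cd (n + 2)| := add_le_add (le_abs_self _) (le_abs_self _)
    have e3 : 0 ≤ D * κ⁻¹ ^ n := by positivity
    have e4 : (1 + (2:ℝ) ^ n) * (π * (Cd n + Cd (n + 2))) ≤ (1 + 2 ^ n) * (π * (|Cd n| + |Cd (n + 2)|)) := by
      have : 0 < π := Real.pi_pos
      gcongr
    calc D * (κ⁻¹ ^ n * (π * (Cd n + Cd (n + 2))) + 2 ^ n * κ⁻¹ ^ n * (π * (Cd n + Cd (n + 2))))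
        = (D * κ⁻¹ ^ n) * ((1 + 2 ^ n) * (π * (Cd n + Cd (n + 2)))) := by ring
      _ ≤ (D * κ⁻¹ ^ n) * ((1 + 2 ^ n) * (π * (|Cd n| + |Cd (n + 2)|))) := mul_le_mul_of_nonneg_left e4 e3
      _ ≤ (D * κ⁻¹ ^ n) * (1 + (1 + 2 ^ n) * (π * (|Cd n| + |Cd (n + 2)|))) :=
          mul_le_mul_of_nonneg_left (by linarith) e3
      _ = _ := by ring
  exact add_le_add h6 h7

end Pool.Agent.Helper60.LT
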