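import Pool.Agent.Helper60.LT.B1
import Pool.Agent.Helper60.LT.B2
import Pool.Agent.Helper60.LT.B3
import Pool.Agent.Helper78.CG.Main

/-!
# LT-B4: decoupling on one window

Window: `T ∈ [T₁, T₁ + X/(4κ)]`, `x ∈ [x₀, x₀ + ξ₁]`, `ξ₁ = 1/(16 κ ρ² √G)`, `G = y² X H`.
PROOF of `half`. Put `X₁ = X/(4κ)`; weights `v` : `IsDw (y² X₁) (y² T₁)`, `w` : `IsDw (4 y² T₁ ξ₁) (-(4 y² T₁ ξ₁))` (`exists_dw`, Q1; `c₀`, `Cd` from there). `x = x₀ + ξ` (`icc_shift`, MM.A7). For `0 ≤ ξ ≤ ξ₁`: `ξ ρ ≤ 1/(16 κ ρ √G) ≤ 1/10` and `T y² ξ² ρ⁴ H ≤ 5 X y² H ρ⁴ ξ₁² ≤ 2`,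
so `loc` (first part) and `low_LL`; `y ρ ≤ k₀ ≤ 1/2`. (`W_cont`, `lf_cont` for integrability; `iter_mono` (MM.A7).)
PROOF of `window`. `half`; `dec12` (with `c = c₁`, `C₀ = B + 4`, `crv_fy`, `LL_eq`), its condition: `1/X₂ = 1/(4 y² T₁ ξ₁) ≤ 4 κ ρ² H/√G` (`y² X = G/H`), `ρ/(y² X₁) = 4 κ ρ H/G`. Then for every arc `up_LL` (`κ X₁ = X/4 ≤ T₁/4`, `D = card S ^ 12`, `lf_le`, card of the arc at most card of `S`)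
and `loc` (second part) on the large window: `|ξ| ≤ 8 κ ξ₁ = 1/(2 ρ² √G)`, `|ξ| ρ ≤ 1/20`, `T ≤ T₁ + X/4 ≤ (17/4) X`, `T y² ξ² ρ⁴ H ≤ (17/4)/4 ≤ 2`. Constants: `(C X₁ ξ₁)^(1/6) · (C/(X₁ ξ₁) A + E D κ⁻ⁿ)^(1/6) ≤ C' (A + X ξ₁ E D κ⁻ⁿ)^(1/6)`.
-/

open MeasureTheory Real Set Filter Topology

set_option autoImplicit false

namespace Pool.Agent.Helper60.LT

open Pool.Agent.Helper22.AE
open Pool.Agent.Helper92.GC (dt tp Tq uu tt arc gs dd IsDw exists_dw)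
open Pool.Agent.Helper92.DT (m12 IsMul12 m12_nonneg)
open Pool.Agent.Helper22.AC (IsWt)
open Pool.Agent.Helper76.MM (icc_shift iter_mono iter_nonneg)

private lemma W_nonneg45 (p : ℝ → ℝ) (y : ℝ) (S : Finset (ℤ × ℤ)) (a : ℤ × ℤ → ℂ) (T x : ℝ) :
    0 ≤ W p y S a T x := m12_nonneg _ _

private lemma BX_nonneg45 (p : ℝ → ℝ) (y : ℝ) (S : Finset (ℤ × ℤ)) (a : ℤ × ℤ → ℂ)
    (T₁ T₂ x₁ x₂ : ℝ) : 0 ≤ BX p y S a T₁ T₂ x₁ x₂ :=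
  iter_nonneg fun T _ x _ => W_nonneg45 p y S a T x

private lemma k0_le45 {c₁ B : ℝ} (hc : 0 < c₁) (hc1 : c₁ ≤ 1) (hB : 1 ≤ B) : k₀ c₁ B ≤ 1 / 2 := by
  unfold k₀
  rw [div_le_iff₀ (by positivity)]
  nlinarith only [hc1, hB, hc]

private lemma uu_ne45 {x₀ ξ ρ : ℝ} {k : ℤ × ℤ} (hu : 0 < uu x₀ k) (ht : |tt x₀ k| ≤ ρ)
    (hξ : |ξ| * ρ ≤ 1 / 10) : uu (x₀ + ξ) k ≠ 0 := by
  have h1 : uu (x₀ + ξ) k = uu x₀ k * (1 + ξ * tt x₀ k) := by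
    have h : uu (x₀ + ξ) k = uu x₀ k + ξ * (k.2 : ℝ) := by
      unfold uu
      ring
    unfold tt
    rw [h]
    field_simp
  have h2 : |ξ * tt x₀ k| ≤ 1 / 10 := by
    rw [abs_mul]
    exact (mul_le_mul_of_nonneg_left ht (abs_nonneg _)).trans hξ
  have h3 := (abs_le.1 h2).1
  rw [h1]
  exact (mul_pos hu (by linarith)).ne'

/-- continuity on a shifted window -/
private lemma W_cont45 {p : ℝ → ℝ} (hp : Continuous p) {x₀ y ρ : ℝ} {S : Finset (ℤ × ℤ)}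
    (a : ℤ × ℤ → ℂ) {T₁ T₂ ξ₁ ξ₂ : ℝ} (hS : ∀ k ∈ S, 0 < uu x₀ k ∧ |tt x₀ k| ≤ ρ)
    (hξ : ∀ ξ ∈ Icc ξ₁ ξ₂, |ξ| * ρ ≤ 1 / 10) :
    ContinuousOn (fun q : ℝ × ℝ => W p y S a q.1 (x₀ + q.2)) (Icc T₁ T₂ ×ˢ Icc ξ₁ ξ₂) := by
  have h1 := W_cont hp (y := y) (S := S) a (s := {x | ∀ k ∈ S, uu x k ≠ 0}) (fun x hx => hx)
  refine h1.comp (f := fun q : ℝ × ℝ => (q.1, x₀ + q.2)) (by fun_prop) ?_
  rintro ⟨T, ξ⟩ hq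
  exact ⟨mem_univ _, fun k hk => uu_ne45 (hS k hk).1 (hS k hk).2 (hξ ξ hq.2)⟩

private lemma lf_cont45 {p : ℝ → ℝ} {x₀ y : ℝ} {S : Finset (ℤ × ℤ)} (a : ℤ × ℤ → ℂ) (C : ℝ)
    (s : Set (ℝ × ℝ)) :
    ContinuousOn (fun q : ℝ × ℝ => C * lf p x₀ y S a (y ^ 2 * q.1) (-(y ^ 2 * q.1 * q.2))) s := by
  have h1 := lf_cont (p := p) (x₀ := x₀) (y := y) (S := S) a
  have h2 : Continuous fun q : ℝ × ℝ => ((y ^ 2 * q.1, -(y ^ 2 * q.1 * q.2)) : ℝ × ℝ) := by fun_prop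
  exact ((h1.comp h2).continuousOn).const_smul C

private lemma BX_shift45 (p : ℝ → ℝ) (y : ℝ) (S : Finset (ℤ × ℤ)) (a : ℤ × ℤ → ℂ)
    (T₁ T₂ x₀ ξ₁ ξ₂ : ℝ) : BX p y S a T₁ T₂ (x₀ + ξ₁) (x₀ + ξ₂) =
      ∫ T in Icc T₁ T₂, ∫ ξ in Icc ξ₁ ξ₂, W p y S a T (x₀ + ξ) := by
  unfold BX
  congr 1
  ext T
  rw [icc_shift _ x₀]
  congr 2
  ring_nf

/-- the numbers of a window -/
private lemma nums45 {y ρ X H G κ ξ₁ : ℝ} (hy : 0 < y) (hρ : 0 < ρ) (hH : 0 < H) (hX : 0 < X)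
    (hκ : 4 ≤ κ) (hG : G = y ^ 2 * X * H) (hρG : 10 ≤ ρ * √G) (hξ : ξ₁ = 1 / (16 * κ * ρ ^ 2 * √G)) :
    0 < G ∧ 0 < √G ∧ 0 < ξ₁ ∧ 8 * κ * ξ₁ * ρ ≤ 1 / 20 ∧ X * y ^ 2 * (8 * κ * ξ₁) ^ 2 * ρ ^ 4 * H = 1 / 4 := by
  have hG0 : 0 < G := by
    rw [hG]
    positivity
  have hs : 0 < √G := Real.sqrt_pos.2 hG0
  have hκ0 : 0 < κ := by linarith
  have hss : √G * √G = G := Real.mul_self_sqrt hG0.le
  refine ⟨hG0, hs, by rw [hξ]; positivity, ?_, ?_⟩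
  · have h1 : 8 * κ * ξ₁ * ρ = 1 / (2 * (ρ * √G)) := by
      rw [hξ]
      field_simp
      ring
    rw [h1]
    exact one_div_le_one_div_of_le (by norm_num) (by linarith)
  · have h1 : X * y ^ 2 * (8 * κ * ξ₁) ^ 2 * ρ ^ 4 * H = G * (8 * κ * ξ₁) ^ 2 * ρ ^ 4 := by
      rw [hG]
      ring
    have h2 : 8 * κ * ξ₁ = 1 / (2 * ρ ^ 2 * √G) := by
      rw [hξ]
      field_simp
      ring
    rw [h1, h2, div_pow, one_pow]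
    have h3 : (2 * ρ ^ 2 * √G) ^ 2 = 4 * ρ ^ 4 * G := by
      calc (2 * ρ ^ 2 * √G) ^ 2 = 4 * ρ ^ 4 * (√G * √G) := by ring
        _ = _ := by rw [hss]
    rw [h3]
    field_simp

/-- the smallness condition of `loc` -/
private lemma small45 {y ρ X H κ ξ₁ ξ T : ℝ} (hH : 0 < H) (hT0 : 0 ≤ T) (hT : T ≤ 5 * X)
    (h : X * y ^ 2 * (8 * κ * ξ₁) ^ 2 * ρ ^ 4 * H = 1 / 4) (hξ : |ξ| ≤ 8 * κ * ξ₁) :
    T * y ^ 2 * ξ ^ 2 * ρ ^ 4 * H ≤ 2 := by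
  have h1 : ξ ^ 2 ≤ (8 * κ * ξ₁) ^ 2 := by
    rw [← sq_abs ξ]
    exact pow_le_pow_left₀ (abs_nonneg _) hξ 2
  have h2 : T * y ^ 2 * ξ ^ 2 * ρ ^ 4 * H ≤ 5 * X * y ^ 2 * (8 * κ * ξ₁) ^ 2 * ρ ^ 4 * H := by
    have h3 : 0 ≤ y ^ 2 * ρ ^ 4 * H := by positivity
    have h4 : T * ξ ^ 2 ≤ 5 * X * (8 * κ * ξ₁) ^ 2 := mul_le_mul hT h1 (sq_nonneg _) (by linarith)
    calc T * y ^ 2 * ξ ^ 2 * ρ ^ 4 * H = (T * ξ ^ 2) * (y ^ 2 * ρ ^ 4 * H) := by ring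
      _ ≤ (5 * X * (8 * κ * ξ₁) ^ 2) * (y ^ 2 * ρ ^ 4 * H) := mul_le_mul_of_nonneg_right h4 h3
      _ = _ := by ring
  have h3 : 5 * X * y ^ 2 * (8 * κ * ξ₁) ^ 2 * ρ ^ 4 * H = 5 * (1 / 4) := by
    rw [← h]
    ring
  linarith only [h, h2]

/-- `half` with given constants -/
private lemma half45 {c₁ B lam c₀ Cl Cw : ℝ} {Cd : ℕ → ℝ} (hc : 0 < c₁) (hc1 : c₁ ≤ 1) (hB : 1 ≤ B)
    (hCl : 1 ≤ Cl)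
    (hloc : ∀ (p : ℝ → ℝ) (S : Finset (ℤ × ℤ)) (a : ℤ × ℤ → ℂ) (x₀ ξ T y ρ H : ℝ), Cv c₁ B p → 0 < H → 0 ≤ T → 0 < y → 0 ≤ ρ → y * ρ ≤ 1 / 2 → |ξ| * ρ ≤ 1 / 10 →
      T * y ^ 2 * ξ ^ 2 * ρ ^ 4 * H ≤ 2 → (∀ k ∈ S, 0 < uu x₀ k ∧ uu x₀ k ≤ lam * H ∧ |tt x₀ k| ≤ ρ) →
      W p y S a T (x₀ + ξ) ≤ Cl * lf p x₀ y S a (y ^ 2 * T) (-(y ^ 2 * T * ξ)) ∧
      lf p x₀ y S a (y ^ 2 * T) (-(y ^ 2 * T * ξ)) ≤ Cl * W p y S a T (x₀ + ξ))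
    (hlow : ∀ (p : ℝ → ℝ) (S : Finset (ℤ × ℤ)) (a : ℤ × ℤ → ℂ) (x₀ y T₁ X₁ ξ₁ : ℝ) (v w : ℝ → ℝ), 0 < y → 0 < X₁ → X₁ ≤ T₁ → 0 < ξ₁ → (∀ k, ‖a k‖ ≤ 1) →
      IsDw (y ^ 2 * X₁) (y ^ 2 * T₁) v c₀ Cd → IsDw (4 * y ^ 2 * T₁ * ξ₁) (-(4 * y ^ 2 * T₁ * ξ₁)) w c₀ Cd →
      ∫ T in Icc T₁ (T₁ + X₁), ∫ ξ in Icc 0 ξ₁, lf p x₀ y S a (y ^ 2 * T) (-(y ^ 2 * T * ξ)) ≤ Cw * (X₁ * ξ₁) * LL v w p x₀ y S a)
    (p : ℝ → ℝ) (x₀ y ρ X T₁ H G κ ξ₁ : ℝ) (a : ℤ × ℤ → ℂ) (S : Finset (ℤ × ℤ)) (hp : Cv c₁ B p) (ha : ∀ k, ‖a k‖ ≤ 1)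
    (hy : 0 < y) (hρ : 0 < ρ) (hyρ : y * ρ ≤ k₀ c₁ B)
    (hH : 0 < H) (hX : 0 < X) (hXT : X ≤ T₁) (hTX : T₁ ≤ 4 * X) (hκ : 4 ≤ κ) (hG : G = y ^ 2 * X * H) (hρG : 10 ≤ ρ * √G)
    (hξ₁ : ξ₁ = 1 / (16 * κ * ρ ^ 2 * √G))
    (hS : ∀ k ∈ S, 0 < uu x₀ k ∧ uu x₀ k ≤ lam * H ∧ |tt x₀ k| ≤ ρ) (v w : ℝ → ℝ)
    (hv : IsDw (y ^ 2 * (X / (4 * κ))) (y ^ 2 * T₁) v c₀ Cd)
    (hw : IsDw (4 * y ^ 2 * T₁ * ξ₁) (-(4 * y ^ 2 * T₁ * ξ₁)) w c₀ Cd) :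
    BX p y S a T₁ (T₁ + X / (4 * κ)) x₀ (x₀ + ξ₁) ≤ Cl * Cw * (X / (4 * κ) * ξ₁) * LL v w p x₀ y S a := by
  obtain ⟨hG0, hs, hξ0, hn1, hn2⟩ := nums45 hy hρ hH hX hκ hG hρG hξ₁
  have hκ0 : 0 < κ := by linarith
  have hX1 : 0 < X / (4 * κ) := by positivity
  have hX1' : X / (4 * κ) ≤ X / 16 := div_le_div_of_nonneg_left hX.le (by norm_num) (by linarith only [hκ])
  have hξκ : ξ₁ ≤ 8 * κ * ξ₁ := by nlinarith only [hξ0, hκ]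
  have hξb : ∀ ξ ∈ Icc (0 : ℝ) ξ₁, |ξ| ≤ 8 * κ * ξ₁ ∧ |ξ| * ρ ≤ 1 / 10 := by
    intro ξ hξ
    have h1 : |ξ| ≤ 8 * κ * ξ₁ := by
      rw [abs_of_nonneg hξ.1]
      exact hξ.2.trans hξκ
    refine ⟨h1, ?_⟩
    have h2 := mul_le_mul_of_nonneg_right h1 hρ.le
    linarith only [hn1, h2]
  have hyρ2 : y * ρ ≤ 1 / 2 := hyρ.trans (k0_le45 hc hc1 hB)
  have h1 : BX p y S a T₁ (T₁ + X / (4 * κ)) x₀ (x₀ + ξ₁) =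
      ∫ T in Icc T₁ (T₁ + X / (4 * κ)), ∫ ξ in Icc 0 ξ₁, W p y S a T (x₀ + ξ) := by
    have h2 := BX_shift45 p y S a T₁ (T₁ + X / (4 * κ)) x₀ 0 ξ₁
    rw [add_zero] at h2
    exact h2
  have h2 : ∫ T in Icc T₁ (T₁ + X / (4 * κ)), ∫ ξ in Icc 0 ξ₁, W p y S a T (x₀ + ξ) ≤
      ∫ T in Icc T₁ (T₁ + X / (4 * κ)), ∫ ξ in Icc 0 ξ₁, Cl * lf p x₀ y S a (y ^ 2 * T) (-(y ^ 2 * T * ξ)) := by
    refine iter_mono (f := fun T ξ => W p y S a T (x₀ + ξ))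
      (g := fun T ξ => Cl * lf p x₀ y S a (y ^ 2 * T) (-(y ^ 2 * T * ξ)))
      (W_cont45 hp.sm.continuous a (fun k hk => ⟨(hS k hk).1, (hS k hk).2.2⟩) fun ξ hξ => (hξb ξ hξ).2)
      (lf_cont45 a Cl _) ?_
    intro T hT ξ hξ
    have hT0 : 0 ≤ T := by linarith only [hXT, hX1, hX1', hT.1]
    exact (hloc p S a x₀ ξ T y ρ H hp hH hT0 hy hρ.le hyρ2 (hξb ξ hξ).2
      (small45 hH hT0 (by linarith only [hTX, hX1, hX1', hT.2]) hn2 (hξb ξ hξ).1) hS).1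
  have h3 : ∫ T in Icc T₁ (T₁ + X / (4 * κ)), ∫ ξ in Icc 0 ξ₁, Cl * lf p x₀ y S a (y ^ 2 * T) (-(y ^ 2 * T * ξ)) =
      Cl * ∫ T in Icc T₁ (T₁ + X / (4 * κ)), ∫ ξ in Icc 0 ξ₁, lf p x₀ y S a (y ^ 2 * T) (-(y ^ 2 * T * ξ)) := by
    simp only [integral_const_mul]
  have h4 := hlow p S a x₀ y T₁ (X / (4 * κ)) ξ₁ v w hy hX1 (by linarith only [hXT, hX1, hX1']) hξ0 ha hv hw
  rw [h1]
  refine (h2.trans (le_of_eq h3)).trans ?_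
  refine (mul_le_mul_of_nonneg_left h4 (by linarith only [hCl])).trans (le_of_eq ?_)
  ring

/-- from the family on a window to weights -/
theorem half {c₁ B lam : ℝ} (hc : 0 < c₁) (hc1 : c₁ ≤ 1) (hB : 1 ≤ B) (hl : 1 ≤ lam) : ∃ c₀ : ℝ, 0 < c₀ ∧ ∃ Cd : ℕ → ℝ, ∃ C : ℝ, 1 ≤ C ∧
    ∀ (p : ℝ → ℝ) (x₀ y ρ X T₁ H G κ ξ₁ : ℝ) (a : ℤ × ℤ → ℂ) (S : Finset (ℤ × ℤ)), Cv c₁ B p → (∀ k, ‖a k‖ ≤ 1) → 0 < y → 0 < ρ → ρ ≤ 5 → y * ρ ≤ k₀ c₁ B →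
      0 < H → 0 < X → X ≤ T₁ → T₁ ≤ 4 * X → 4 ≤ κ → G = y ^ 2 * X * H → 10 ≤ ρ * √G → ξ₁ = 1 / (16 * κ * ρ ^ 2 * √G) →
      (∀ k ∈ S, H / lam ≤ uu x₀ k ∧ uu x₀ k ≤ lam * H ∧ |tt x₀ k| ≤ ρ) →
      ∃ v w : ℝ → ℝ, IsDw (y ^ 2 * (X / (4 * κ))) (y ^ 2 * T₁) v c₀ Cd ∧ IsDw (4 * y ^ 2 * T₁ * ξ₁) (-(4 * y ^ 2 * T₁ * ξ₁)) w c₀ Cd ∧
        BX p y S a T₁ (T₁ + X / (4 * κ)) x₀ (x₀ + ξ₁) ≤ C * (X / (4 * κ) * ξ₁) * LL v w p x₀ y S a := by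
  obtain ⟨c₀, hc₀, Cd, hdw⟩ := exists_dw
  obtain ⟨Cl, hCl, hloc⟩ := loc (lam := lam) hc hB hl
  obtain ⟨Cw, hCw, hlow⟩ := low_LL (c₀ := c₀) (Cd := Cd) hc₀
  refine ⟨c₀, hc₀, Cd, Cl * Cw, one_le_mul_of_one_le_of_one_le hCl hCw, ?_⟩
  intro p x₀ y ρ X T₁ H G κ ξ₁ a S hp ha hy hρ hρ5 hyρ hH hX hXT hTX hκ hG hρG hξ₁ hS
  obtain ⟨hG0, hs, hξ0, hn1, hn2⟩ := nums45 hy hρ hH hX hκ hG hρG hξ₁
  have hκ0 : 0 < κ := by linarith only [hκ]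
  have hT0 : 0 < T₁ := by linarith
  obtain ⟨v, hv⟩ := hdw (y ^ 2 * (X / (4 * κ))) (by positivity) (y ^ 2 * T₁)
  obtain ⟨w, hw⟩ := hdw (4 * y ^ 2 * T₁ * ξ₁) (by positivity) (-(4 * y ^ 2 * T₁ * ξ₁))
  have hHl : 0 < H / lam := by positivity
  exact ⟨v, w, hv, hw, half45 hc hc1 hB hCl hloc hlow p x₀ y ρ X T₁ H G κ ξ₁ a S hp ha hy hρ hyρ hH hX hXT hTX
    hκ hG hρG hξ₁ (fun k hk => ⟨hHl.trans_le (hS k hk).1, (hS k hk).2⟩) v w hv hw⟩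

theorem window {ε c₁ B lam : ℝ} (hε : 0 < ε) (hc : 0 < c₁) (hc1 : c₁ ≤ 1) (hB : 1 ≤ B) (hl : 1 ≤ lam) (n : ℕ) : ∃ M : ℕ, 2 ≤ M ∧ ∃ C E : ℝ, 1 ≤ C ∧ 1 ≤ E ∧
    ∀ (m : ℕ) (p : ℝ → ℝ) (x₀ y ρ X T₁ H G κ ξ₁ : ℝ) (a : ℤ × ℤ → ℂ) (S : Finset (ℤ × ℤ)), Cv c₁ B p → (∀ k, ‖a k‖ ≤ 1) → 0 < y → 0 < ρ → ρ ≤ 5 → y * ρ ≤ k₀ c₁ B →
      0 < H → 0 < X → X ≤ T₁ → T₁ ≤ 4 * X → 4 ≤ κ → G = y ^ 2 * X * H → 10 ≤ ρ * √G → ξ₁ = 1 / (16 * κ * ρ ^ 2 * √G) →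
      (∀ k ∈ S, H / lam ≤ uu x₀ k ∧ uu x₀ k ≤ lam * H ∧ |tt x₀ k| ≤ ρ) →
      C * κ * ρ ^ 2 * (M : ℝ) ^ (3 * m) ≤ √G → C * κ * ρ * (M : ℝ) ^ (3 * m) ≤ G →
      BX p y S a T₁ (T₁ + X / (4 * κ)) x₀ (x₀ + ξ₁) ^ (1 / 6 : ℝ) ≤ C * (M : ℝ) ^ (ε * (m : ℝ)) *
        ∑ r ∈ Finset.range (M ^ m), (BX p y (arc x₀ S (M ^ m) r) a (T₁ - X / 4) (T₁ + X / 4) (x₀ - 8 * κ * ξ₁) (x₀ + 8 * κ * ξ₁) +
          E * X * ξ₁ * (S.card : ℝ) ^ 12 * κ⁻¹ ^ n) ^ (1 / 6 : ℝ) := by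
  obtain ⟨c₀, hc₀, Cd, Ch, hCh, hhalf⟩ := half (c₁ := c₁) (B := B) (lam := lam) hc hc1 hB hl
  obtain ⟨M, hM, C12, hC12, hdec⟩ := Pool.Agent.Helper78.CG.dec12 (C₀ := B + 4) (lam := lam) hε hc hl
  obtain ⟨Cl, hCl, hloc⟩ := loc (lam := lam) hc hB hl
  obtain ⟨Cu, hCu, Eu, hEu, hup⟩ := up_LL (c₀ := c₀) (Cd := Cd) hc₀ n
  obtain ⟨A, hA⟩ : ∃ A, A = Ch * Cu * Cl := ⟨_, rfl⟩
  have hA1 : 1 ≤ A := by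
    rw [hA]
    exact one_le_mul_of_one_le_of_one_le (one_le_mul_of_one_le_of_one_le hCh hCu) hCl
  have hE1 : 1 ≤ Ch * Eu := one_le_mul_of_one_le_of_one_le hCh hEu
  refine ⟨M, hM, 8 * C12 * A, Ch * Eu, by nlinarith only [hC12, hA1], hE1, ?_⟩
  intro m p x₀ y ρ X T₁ H G κ ξ₁ a S hp ha hy hρ hρ5 hyρ hH hX hXT hTX hκ hG hρG hξ₁ hS hM1 hM2
  obtain ⟨v, w, hv, hw, hh⟩ := hhalf p x₀ y ρ X T₁ H G κ ξ₁ a S hp ha hy hρ hρ5 hyρ hH hX hXT hTX hκ hG hρG hξ₁ hS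
  obtain ⟨hG0, hs, hξ0, hn1, hn2⟩ := nums45 hy hρ hH hX hκ hG hρG hξ₁
  have hκ0 : 0 < κ := by linarith only [hκ]
  have hT0 : 0 < T₁ := by linarith only [hX, hXT]
  have hX1 : 0 < X / (4 * κ) := by positivity
  have hX1X : X / (4 * κ) ≤ X := div_le_self hX.le (by linarith only [hκ])
  have hMp : (0 : ℝ) < M := by
    have : 0 < M := by omega
    exact_mod_cast this
  have hMm : (0 : ℝ) < (M : ℝ) ^ (3 * m) := by positivity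
  have hHl : 0 < H / lam := by positivity
  have hyρ2 : y * ρ ≤ 1 / 2 := hyρ.trans (k0_le45 hc hc1 hB)
  have hss : √G * √G = G := Real.mul_self_sqrt hG0.le
  -- the condition of the decoupling theorem
  have hcond : C12 * (1 / (4 * y ^ 2 * T₁ * ξ₁) + ρ / (y ^ 2 * (X / (4 * κ)))) ≤ H * (1 / (M : ℝ) ^ m) ^ 3 := by
    have e1 : 1 / (4 * y ^ 2 * T₁ * ξ₁) ≤ 4 * κ * ρ ^ 2 * H / √G := by
      have e2 : 1 / (4 * y ^ 2 * T₁ * ξ₁) ≤ 1 / (4 * y ^ 2 * X * ξ₁) := by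
        refine one_div_le_one_div_of_le (by positivity) ?_
        have : 4 * y ^ 2 * X ≤ 4 * y ^ 2 * T₁ := mul_le_mul_of_nonneg_left hXT (by positivity)
        exact mul_le_mul_of_nonneg_right this hξ0.le
      refine e2.trans (le_of_eq ?_)
      have e3 : 4 * y ^ 2 * X * ξ₁ = √G / (4 * κ * ρ ^ 2 * H) := by
        have e4 : y ^ 2 * X = G / H := by
          rw [hG]
          field_simp
        have e5 : 4 * y ^ 2 * X * ξ₁ = 4 * (y ^ 2 * X) * ξ₁ := by ring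
        have e6 : 4 * (G / H) * (1 / (16 * κ * ρ ^ 2 * √G)) =
            (4 * (√G * √G) / H) * (1 / (16 * κ * ρ ^ 2 * √G)) := by
          rw [hss]
          ring
        rw [e5, e4, hξ₁, e6]
        field_simp
        ring
      rw [e3, one_div_div]
    have e2 : ρ / (y ^ 2 * (X / (4 * κ))) = 4 * κ * ρ * H / G := by
      rw [hG]
      field_simp
    have e3 : 4 * κ * ρ ^ 2 * H / √G ≤ H / (2 * C12 * (M : ℝ) ^ (3 * m)) := by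
      rw [div_le_div_iff₀ hs (by positivity)]
      have e4 : 8 * C12 * κ * ρ ^ 2 * (M : ℝ) ^ (3 * m) ≤ 8 * C12 * A * κ * ρ ^ 2 * (M : ℝ) ^ (3 * m) := by
        have : 0 ≤ 8 * C12 * κ * ρ ^ 2 * (M : ℝ) ^ (3 * m) := by positivity
        nlinarith only [hA1, this]
      calc 4 * κ * ρ ^ 2 * H * (2 * C12 * (M : ℝ) ^ (3 * m))
          = H * (8 * C12 * κ * ρ ^ 2 * (M : ℝ) ^ (3 * m)) := by ring
        _ ≤ H * √G := mul_le_mul_of_nonneg_left (e4.trans hM1) hH.le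
    have e5 : 4 * κ * ρ * H / G ≤ H / (2 * C12 * (M : ℝ) ^ (3 * m)) := by
      rw [div_le_div_iff₀ hG0 (by positivity)]
      have e4 : 8 * C12 * κ * ρ * (M : ℝ) ^ (3 * m) ≤ 8 * C12 * A * κ * ρ * (M : ℝ) ^ (3 * m) := by
        have : 0 ≤ 8 * C12 * κ * ρ * (M : ℝ) ^ (3 * m) := by positivity
        nlinarith only [hA1, this]
      calc 4 * κ * ρ * H * (2 * C12 * (M : ℝ) ^ (3 * m))
          = H * (8 * C12 * κ * ρ * (M : ℝ) ^ (3 * m)) := by ring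
        _ ≤ H * G := mul_le_mul_of_nonneg_left (e4.trans hM2) hH.le
    rw [e2]
    calc C12 * (1 / (4 * y ^ 2 * T₁ * ξ₁) + 4 * κ * ρ * H / G)
        ≤ C12 * (H / (2 * C12 * (M : ℝ) ^ (3 * m)) + H / (2 * C12 * (M : ℝ) ^ (3 * m))) :=
          mul_le_mul_of_nonneg_left (add_le_add (e1.trans e3) e5) (by linarith only [hC12])
      _ = H * (1 / (M : ℝ) ^ m) ^ 3 := by
          have hC0 : C12 ≠ 0 := by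
            have : 0 < C12 := by linarith only [hC12]
            exact this.ne'
          rw [div_pow, one_pow, ← pow_mul, mul_comm m 3]
          field_simp
          ring
  have hd := hdec m x₀ H ρ (y ^ 2 * (X / (4 * κ))) (4 * y ^ 2 * T₁ * ξ₁) (fy p y) (gy p y) (ry p y) v w a S hH
    (by positivity) (by positivity) hρ hρ5 hS (crv_fy hc hc1 hB hp hy hρ hyρ) hv.wt hw.wt hcond
  rw [LL_eq hv.wt hw.wt] at hd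
  simp only [LL_eq hv.wt hw.wt] at hd
  have hLL0 : ∀ S', 0 ≤ LL v w p x₀ y S' a := fun S' => LL_nonneg hv.wt hw.wt _ _ _ _ _
  -- the arcs
  have harc : ∀ r, LL v w p x₀ y (arc x₀ S (M ^ m) r) a ≤ Cu * Cl / (X / (4 * κ) * ξ₁) *
      BX p y (arc x₀ S (M ^ m) r) a (T₁ - X / 4) (T₁ + X / 4) (x₀ - 8 * κ * ξ₁) (x₀ + 8 * κ * ξ₁) +
      Eu * (S.card : ℝ) ^ 12 * κ⁻¹ ^ n := by
    intro r
    obtain ⟨S', hS'⟩ : ∃ S', S' = arc x₀ S (M ^ m) r := ⟨_, rfl⟩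
    rw [← hS']
    have hsub : S' ⊆ S := by
      rw [hS']
      unfold arc
      exact Finset.filter_subset _ _
    have hSk : ∀ k ∈ S', 0 < uu x₀ k ∧ uu x₀ k ≤ lam * H ∧ |tt x₀ k| ≤ ρ :=
      fun k hk => ⟨hHl.trans_le (hS k (hsub hk)).1, (hS k (hsub hk)).2⟩
    have hκX : κ * (X / (4 * κ)) = X / 4 := by
      field_simp
    have h1 := hup p S' a x₀ y T₁ (X / (4 * κ)) ξ₁ κ ((S.card : ℝ) ^ 12) v w hy hX1 hξ0 hκ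
      (by rw [hκX]; linarith only [hXT]) ha hv hw (fun R Z => (lf_le ha R Z).trans
        (pow_le_pow_left₀ (by positivity) (by exact_mod_cast Finset.card_le_card hsub) 12))
    rw [hκX] at h1
    have hξb : ∀ ξ ∈ Icc (-(8 * κ * ξ₁)) (8 * κ * ξ₁), |ξ| ≤ 8 * κ * ξ₁ ∧ |ξ| * ρ ≤ 1 / 10 := by
      intro ξ hξ
      have h2 : |ξ| ≤ 8 * κ * ξ₁ := abs_le.2 hξ
      refine ⟨h2, ?_⟩
      have h3 := mul_le_mul_of_nonneg_right h2 hρ.le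
      linarith only [hn1, h3]
    have h2 : ∫ T in Icc (T₁ - X / 4) (T₁ + X / 4), ∫ ξ in Icc (-(8 * κ * ξ₁)) (8 * κ * ξ₁),
          lf p x₀ y S' a (y ^ 2 * T) (-(y ^ 2 * T * ξ)) ≤
        Cl * BX p y S' a (T₁ - X / 4) (T₁ + X / 4) (x₀ - 8 * κ * ξ₁) (x₀ + 8 * κ * ξ₁) := by
      have h3 := BX_shift45 p y S' a (T₁ - X / 4) (T₁ + X / 4) x₀ (-(8 * κ * ξ₁)) (8 * κ * ξ₁)
      rw [← sub_eq_add_neg] at h3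
      rw [h3]
      have h4 : Cl * ∫ T in Icc (T₁ - X / 4) (T₁ + X / 4), ∫ ξ in Icc (-(8 * κ * ξ₁)) (8 * κ * ξ₁), W p y S' a T (x₀ + ξ) =
          ∫ T in Icc (T₁ - X / 4) (T₁ + X / 4), ∫ ξ in Icc (-(8 * κ * ξ₁)) (8 * κ * ξ₁), Cl * W p y S' a T (x₀ + ξ) := by
        simp only [integral_const_mul]
      rw [h4]
      have h5 : ContinuousOn (fun q : ℝ × ℝ => lf p x₀ y S' a (y ^ 2 * q.1) (-(y ^ 2 * q.1 * q.2)))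
          (Icc (T₁ - X / 4) (T₁ + X / 4) ×ˢ Icc (-(8 * κ * ξ₁)) (8 * κ * ξ₁)) := by
        have := lf_cont45 (p := p) (x₀ := x₀) (y := y) (S := S') a 1
          (Icc (T₁ - X / 4) (T₁ + X / 4) ×ˢ Icc (-(8 * κ * ξ₁)) (8 * κ * ξ₁))
        simpa only [one_mul] using this
      refine iter_mono (f := fun T ξ => lf p x₀ y S' a (y ^ 2 * T) (-(y ^ 2 * T * ξ)))
        (g := fun T ξ => Cl * W p y S' a T (x₀ + ξ)) h5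
        ((W_cont45 hp.sm.continuous a (fun k hk => ⟨(hSk k hk).1, (hSk k hk).2.2⟩)
          fun ξ hξ => (hξb ξ hξ).2).const_smul Cl) ?_
      intro T hT ξ hξ
      have hT0' : 0 ≤ T := by linarith only [hX, hXT, hT.1]
      exact (hloc p S' a x₀ ξ T y ρ H hp hH hT0' hy hρ.le hyρ2 (hξb ξ hξ).2
        (small45 hH hT0' (by linarith only [hX, hTX, hT.2]) hn2 (hξb ξ hξ).1) hSk).2
    refine h1.trans (add_le_add ?_ le_rfl)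
    have h3 : 0 ≤ Cu / (X / (4 * κ) * ξ₁) := by positivity
    refine (mul_le_mul_of_nonneg_left h2 h3).trans (le_of_eq ?_)
    ring
  -- combination
  obtain ⟨V, hV⟩ : ∃ V : ℕ → ℝ, V = fun r => BX p y (arc x₀ S (M ^ m) r) a (T₁ - X / 4) (T₁ + X / 4)
      (x₀ - 8 * κ * ξ₁) (x₀ + 8 * κ * ξ₁) + Ch * Eu * X * ξ₁ * (S.card : ℝ) ^ 12 * κ⁻¹ ^ n := ⟨_, rfl⟩
  have hκn : 0 ≤ κ⁻¹ ^ n := by positivity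
  have hV0 : ∀ r, 0 ≤ V r := by
    intro r
    rw [hV]
    exact add_nonneg (BX_nonneg45 _ _ _ _ _ _ _ _) (by (clear * - hCh hEu hX hξ0 hκ; positivity))
  have hU0 : 0 ≤ Ch * (X / (4 * κ) * ξ₁) := by positivity
  have harc2 : ∀ r, Ch * (X / (4 * κ) * ξ₁) * LL v w p x₀ y (arc x₀ S (M ^ m) r) a ≤ A * V r := by
    intro r
    refine (mul_le_mul_of_nonneg_left (harc r) hU0).trans ?_
    obtain ⟨Bx, hBx⟩ : ∃ Bx, Bx = BX p y (arc x₀ S (M ^ m) r) a (T₁ - X / 4) (T₁ + X / 4)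
      (x₀ - 8 * κ * ξ₁) (x₀ + 8 * κ * ξ₁) := ⟨_, rfl⟩
    rw [hV]
    simp only
    rw [← hBx]
    have hXξ : X / (4 * κ) * ξ₁ ≠ 0 := (mul_pos hX1 hξ0).ne'
    have e1 : Ch * (X / (4 * κ) * ξ₁) * (Cu * Cl / (X / (4 * κ) * ξ₁) * Bx + Eu * (S.card : ℝ) ^ 12 * κ⁻¹ ^ n) =
        A * Bx + X / (4 * κ) * (Ch * Eu * ξ₁ * (S.card : ℝ) ^ 12 * κ⁻¹ ^ n) := by
      rw [hA]
      have e2 : ∀ U : ℝ, U ≠ 0 → Ch * U * (Cu * Cl / U * Bx) = Ch * Cu * Cl * Bx := by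
        intro U hU
        field_simp
      rw [mul_add, e2 _ hXξ]
      ring
    rw [e1]
    have e3 : 0 ≤ Ch * Eu * ξ₁ * (S.card : ℝ) ^ 12 * κ⁻¹ ^ n := by (clear * - hCh hEu hξ0 hκ; positivity)
    have e4 : X / (4 * κ) * (Ch * Eu * ξ₁ * (S.card : ℝ) ^ 12 * κ⁻¹ ^ n) ≤
        X * (Ch * Eu * ξ₁ * (S.card : ℝ) ^ 12 * κ⁻¹ ^ n) := mul_le_mul_of_nonneg_right hX1X e3
    have e5 : X * (Ch * Eu * ξ₁ * (S.card : ℝ) ^ 12 * κ⁻¹ ^ n) ≤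
        A * (X * (Ch * Eu * ξ₁ * (S.card : ℝ) ^ 12 * κ⁻¹ ^ n)) :=
      le_mul_of_one_le_left (by (clear * - hX hCh hEu hξ0 hκ; positivity)) hA1
    calc A * Bx + X / (4 * κ) * (Ch * Eu * ξ₁ * (S.card : ℝ) ^ 12 * κ⁻¹ ^ n)
        ≤ A * Bx + A * (X * (Ch * Eu * ξ₁ * (S.card : ℝ) ^ 12 * κ⁻¹ ^ n)) := by linarith only [e4, e5]
      _ = _ := by ring
  have hA6 : A ^ (1 / 6 : ℝ) ≤ A := by
    calc A ^ (1 / 6 : ℝ) ≤ A ^ (1 : ℝ) := rpow_le_rpow_of_exponent_le hA1 (by norm_num)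
      _ = A := rpow_one A
  have hsum0 : 0 ≤ ∑ r ∈ Finset.range (M ^ m), V r ^ (1 / 6 : ℝ) :=
    Finset.sum_nonneg fun r _ => rpow_nonneg (hV0 r) _
  have hfin : BX p y S a T₁ (T₁ + X / (4 * κ)) x₀ (x₀ + ξ₁) ^ (1 / 6 : ℝ) ≤
      C12 * (M : ℝ) ^ (ε * (m : ℝ)) * (A ^ (1 / 6 : ℝ) * ∑ r ∈ Finset.range (M ^ m), V r ^ (1 / 6 : ℝ)) := by
    calc BX p y S a T₁ (T₁ + X / (4 * κ)) x₀ (x₀ + ξ₁) ^ (1 / 6 : ℝ)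
        ≤ (Ch * (X / (4 * κ) * ξ₁) * LL v w p x₀ y S a) ^ (1 / 6 : ℝ) :=
          rpow_le_rpow (BX_nonneg45 _ _ _ _ _ _ _ _) hh (by norm_num)
      _ = (Ch * (X / (4 * κ) * ξ₁)) ^ (1 / 6 : ℝ) * LL v w p x₀ y S a ^ (1 / 6 : ℝ) := mul_rpow hU0 (hLL0 _)
      _ ≤ (Ch * (X / (4 * κ) * ξ₁)) ^ (1 / 6 : ℝ) * (C12 * (M : ℝ) ^ (ε * (m : ℝ)) *
            ∑ r ∈ Finset.range (M ^ m), LL v w p x₀ y (arc x₀ S (M ^ m) r) a ^ (1 / 6 : ℝ)) :=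
          mul_le_mul_of_nonneg_left hd (by positivity)
      _ = C12 * (M : ℝ) ^ (ε * (m : ℝ)) * ∑ r ∈ Finset.range (M ^ m),
            (Ch * (X / (4 * κ) * ξ₁) * LL v w p x₀ y (arc x₀ S (M ^ m) r) a) ^ (1 / 6 : ℝ) := by
          have e : ∀ r, (Ch * (X / (4 * κ) * ξ₁) * LL v w p x₀ y (arc x₀ S (M ^ m) r) a) ^ (1 / 6 : ℝ) =
              (Ch * (X / (4 * κ) * ξ₁)) ^ (1 / 6 : ℝ) * LL v w p x₀ y (arc x₀ S (M ^ m) r) a ^ (1 / 6 : ℝ) :=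
            fun r => mul_rpow hU0 (hLL0 _)
          simp only [e]
          rw [← Finset.mul_sum]
          ring
      _ ≤ C12 * (M : ℝ) ^ (ε * (m : ℝ)) * ∑ r ∈ Finset.range (M ^ m), (A * V r) ^ (1 / 6 : ℝ) := by
          refine mul_le_mul_of_nonneg_left (Finset.sum_le_sum fun r _ => ?_) (by positivity)
          exact rpow_le_rpow (mul_nonneg hU0 (hLL0 _)) (harc2 r) (by norm_num)
      _ = _ := by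
          have e : ∀ r, (A * V r) ^ (1 / 6 : ℝ) = A ^ (1 / 6 : ℝ) * V r ^ (1 / 6 : ℝ) :=
            fun r => mul_rpow (by linarith only [hA1]) (hV0 r)
          simp only [e]
          rw [← Finset.mul_sum]
  have hfin2 : C12 * (M : ℝ) ^ (ε * (m : ℝ)) * (A ^ (1 / 6 : ℝ) * ∑ r ∈ Finset.range (M ^ m), V r ^ (1 / 6 : ℝ)) ≤
      8 * C12 * A * (M : ℝ) ^ (ε * (m : ℝ)) * ∑ r ∈ Finset.range (M ^ m), V r ^ (1 / 6 : ℝ) := by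
    obtain ⟨Q, hQ⟩ : ∃ Q, Q = ∑ r ∈ Finset.range (M ^ m), V r ^ (1 / 6 : ℝ) := ⟨_, rfl⟩
    rw [← hQ] at hsum0 ⊢
    have e1 : 0 ≤ C12 * (M : ℝ) ^ (ε * (m : ℝ)) * Q := by positivity
    calc C12 * (M : ℝ) ^ (ε * (m : ℝ)) * (A ^ (1 / 6 : ℝ) * Q)
        = A ^ (1 / 6 : ℝ) * (C12 * (M : ℝ) ^ (ε * (m : ℝ)) * Q) := by ring
      _ ≤ (8 * A) * (C12 * (M : ℝ) ^ (ε * (m : ℝ)) * Q) :=
          mul_le_mul_of_nonneg_right (by linarith only [hA1, hA6]) e1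
      _ = _ := by ring
  have := hfin.trans hfin2
  rw [hV] at this
  exact this

end Pool.Agent.Helper60.LT
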