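import Pool.Agent.Helper60.LT.A1
import Pool.Agent.Helper78.CE.B2

/-!
# LT-C1: rational slopes

`uu x n = n.1 + x n.2`, `tt x n = n.2 / uu x n`, `dd k k' = k.1 k'.2 - k.2 k'.1`.
PROOFS. `dirichlet`: the linear map `n ↦ (uu x n, n.2 - t uu x n)` has determinant one; Minkowski's theorem (`exists_ne_zero_mem_lattice_of_measure_mul_two_pow_lt_measure`) for the rectangle `|u| ≤ Q`, `|v| ≤ 5/(4Q)` of area `5 > 4`
gives `n ≠ 0` (or the pigeon hole principle); divide by the gcd, change the sign so that `u ≥ 0`; if `u = 0` then `v = n.2` is an integer, so `n.2 = 0` and `n.1 = 0`.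
`natural`: `dirichlet` with `Q = (5/4) q⁴`. If `u = uu x n < 1/4`: `|n.2| ≤ |t| u + 1/q⁴ < 1`, so `n.2 = 0`, `u = n.1 ≥ 1`, contradiction. If `u ≤ q` then `|t - s| u² ≤ (5/4) u/Q ≤ q⁻³`, excluded by the hypothesis (`|s| ≤ |t| + (5/4)/(Q u) ≤ 4`).
So `q < u ≤ Q`. `quarter`: `n.2 = 0`: `u = n.1` is a positive integer; else `u = |n.2|/|s| ≥ 1/4`. `sep_cusp`: `|s - s'| = |dd n n'|/(u u') ≥ 1/(u u')` as `n ≠ n'` are primitive with `u, u' > 0`; multiply by `u u'`: `|s - s'| u u' ≤ (q⁻³/u² + q⁻³/u'²) u u' + u u' |t-t'| ≤ q⁻³ (u'/u + u/u') + 1/4`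
`≤ q⁻³ · 8 q + 1/4 < 1`.
`count_NQ`: `|n.2| ≤ 4D`: at most `8D + 1 ≤ 12 D` values, `n.1` lies in an interval of length `D`: at most `D + 1 ≤ 5 D` values.
-/

open MeasureTheory Real Set Filter Topology

set_option autoImplicit false

namespace Pool.Agent.Helper60.LT

open Pool.Agent.Helper22.AE
open Pool.Agent.Helper92.GC (dt tp Tq uu tt arc gs dd)

private lemma form86 (x t : ℝ) {Q : ℝ} (hQ : 2 ≤ Q) :
    ∃ n : ℤ × ℤ, n ≠ 0 ∧ |uu x n| ≤ Q ∧ |(n.2 : ℝ) - t * uu x n| * Q ≤ 5 / 4 := by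
  have hQ0 : 0 < Q := by linarith
  by_cases hsmall : |t| * Q ≤ 5 / 4
  · refine ⟨(1, 0), by simp, ?_, ?_⟩
    · simp only [uu, Int.cast_one, Int.cast_zero, mul_zero, add_zero, abs_one]
      linarith
    · simp only [uu, Int.cast_one, Int.cast_zero, mul_zero, add_zero, mul_one, zero_sub, abs_neg]
      exact hsmall
  push Not at hsmall
  have ht0 : t ≠ 0 := by
    rintro rfl
    simp at hsmall
    linarith
  have htp : 0 < |t| := abs_pos.mpr ht0
  set θ : ℝ := 1 / t - x with hθ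
  -- the forms in terms of `k = n.2` and `e = n.1 - θ k`
  have hL1 : ∀ j k : ℤ, uu x (j, k) = (k : ℝ) / t + (j - θ * k) := by
    intro j k
    simp only [uu, hθ]
    field_simp
    ring
  have hL2 : ∀ j k : ℤ, ((k : ℤ) : ℝ) - t * uu x (j, k) = -(t * (j - θ * k)) := by
    intro j k
    rw [hL1]
    field_simp
    ring
  obtain ⟨N, hN1, hN2⟩ : ∃ N : ℕ, (N : ℝ) < 4 / 5 * Q * |t| ∧ 4 / 5 * Q * |t| ≤ N + 1 := by
    have h0 : 0 < 4 / 5 * Q * |t| := by positivity
    refine ⟨⌈4 / 5 * Q * |t|⌉₊ - 1, ?_, ?_⟩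
    · have h1 : 1 ≤ ⌈4 / 5 * Q * |t|⌉₊ := Nat.one_le_ceil_iff.mpr h0
      have h2 := Nat.ceil_lt_add_one h0.le
      rw [Nat.cast_sub h1]
      push_cast
      linarith
    · have h1 : 1 ≤ ⌈4 / 5 * Q * |t|⌉₊ := Nat.one_le_ceil_iff.mpr h0
      have h2 := Nat.le_ceil (4 / 5 * Q * |t|)
      rw [Nat.cast_sub h1]
      push_cast
      linarith
  have hNpos : 1 ≤ N := by
    by_contra hcon
    have : N = 0 := by omega
    subst this
    push_cast at hN2
    nlinarith
  obtain ⟨j, k, hk0, hkN, hjk⟩ := Real.exists_int_int_abs_mul_sub_le θ (show 0 < N by omega)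
  set e : ℝ := j - θ * k with he
  have he1 : |e| * (N + 1) ≤ 1 := by
    have h1 : |e| ≤ 1 / (N + 1) := by
      rw [he, show (j : ℝ) - θ * k = -(k * θ - j) by ring, abs_neg]
      exact hjk
    rwa [le_div_iff₀ (by positivity)] at h1
  have hkR : (1 : ℝ) ≤ k := by exact_mod_cast hk0
  have hkN' : (k : ℝ) ≤ N := by exact_mod_cast hkN
  -- `|t| |e| Q ≤ 5 / 4`
  have hgen : ∀ e' : ℝ, |e'| * (N + 1) ≤ 1 → |(-(t * e'))| * Q ≤ 5 / 4 := by
    intro e' h
    rw [abs_neg, abs_mul]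
    have h1 : 0 ≤ |e'| := abs_nonneg _
    nlinarith [mul_le_mul_of_nonneg_left hN2 h1]
  have hkt : |(k : ℝ) / t| < 4 / 5 * Q := by
    rw [abs_div, div_lt_iff₀ htp, abs_of_pos (by linarith)]
    linarith
  by_cases hN : N = 1
  · have hk1 : k = 1 := by
      have : k ≤ 1 := by rw [hN] at hkN; exact_mod_cast hkN
      omega
    subst hk1
    by_cases hfin : |uu x (j, 1)| ≤ Q
    · refine ⟨(j, 1), by simp, hfin, ?_⟩
      rw [hL2]
      exact hgen e he1
    push Not at hfin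
    have hfin' : Q < |1 / t + e| := by
      have := hL1 j 1
      rw [this] at hfin
      push_cast at hfin
      simpa [he] using hfin
    have heh : |e| ≤ 1 / 2 := by
      rw [hN] at he1
      push_cast at he1
      linarith
    have hT : |1 / t| < 4 / 5 * Q := by simpa using hkt
    -- signs
    have hTpos : 0 < |1 / t| := by
      rw [abs_div, abs_one]
      positivity
    -- δ T with δ = 5 / (4 Q)
    have hprod : |1 / t| * |t| = 1 := by
      rw [abs_div, abs_one]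
      field_simp
    rcases le_total 0 (1 / t) with hs | hs
    · rw [abs_of_nonneg hs] at hT hTpos hprod
      have hepos : 0 < e := by
        by_contra hcon
        push Not at hcon
        have h1 := abs_le.mp heh
        have : |1 / t + e| ≤ Q := by
          rw [abs_le]
          constructor <;> linarith [h1.1]
        linarith
      rw [abs_of_pos (by linarith)] at hfin'
      rw [abs_of_pos hepos] at heh
      refine ⟨(j - 1, 1), by simp, ?_, ?_⟩
      · have h1 := hL1 (j - 1) 1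
        have h2 : uu x (j - 1, 1) = 1 / t + (e - 1) := by
          rw [h1, he]
          push_cast
          ring
        rw [h2, abs_le]
        constructor <;> linarith
      · have h2 : ((((1 : ℤ)) : ℝ) - t * uu x (j - 1, 1)) = -(t * (e - 1)) := by
          rw [hL2 (j - 1) 1, he]
          push_cast
          ring
        change |(((1 : ℤ)) : ℝ) - t * uu x (j - 1, 1)| * Q ≤ 5 / 4
        rw [h2, abs_neg, abs_mul, abs_sub_comm, abs_of_pos (show (0:ℝ) < 1 - e by linarith)]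
        -- |t| (1 - e) Q ≤ 5/4, from 1 - e < 1 - Q + T, T |t| = 1, T < 4/5 Q
        have h3 : 1 - e < 1 - Q + 1 / t := by linarith
        have h4 : |t| * (1 - e) ≤ |t| * (1 - Q + 1 / t) := by
          exact mul_le_mul_of_nonneg_left h3.le htp.le
        have h5 : |t| * (1 - Q + 1 / t) = 1 - |t| * (Q - 1) := by
          have : |t| * (1 / t) = 1 := by rw [mul_comm]; exact hprod
          linear_combination this
        have h6 : 5 / 4 ≤ |t| * Q := hsmall.le
        nlinarith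
    · rw [abs_of_nonpos hs] at hT hTpos hprod
      have heneg : e < 0 := by
        by_contra hcon
        push Not at hcon
        have h1 := abs_le.mp heh
        have : |1 / t + e| ≤ Q := by
          rw [abs_le]
          constructor <;> linarith [h1.2]
        linarith
      rw [abs_of_neg (by linarith)] at hfin'
      rw [abs_of_neg heneg] at heh
      refine ⟨(j + 1, 1), by simp, ?_, ?_⟩
      · have h1 := hL1 (j + 1) 1
        have h2 : uu x (j + 1, 1) = 1 / t + (e + 1) := by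
          rw [h1, he]
          push_cast
          ring
        rw [h2, abs_le]
        constructor <;> linarith
      · have h2 : ((((1 : ℤ)) : ℝ) - t * uu x (j + 1, 1)) = -(t * (e + 1)) := by
          rw [hL2 (j + 1) 1, he]
          push_cast
          ring
        change |(((1 : ℤ)) : ℝ) - t * uu x (j + 1, 1)| * Q ≤ 5 / 4
        rw [h2, abs_neg, abs_mul, abs_of_pos (show (0:ℝ) < e + 1 by linarith)]
        have h3 : e + 1 < 1 - Q - 1 / t := by linarith
        have h4 : |t| * (e + 1) ≤ |t| * (1 - Q - 1 / t) := by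
          exact mul_le_mul_of_nonneg_left h3.le htp.le
        have h5 : |t| * (1 - Q - 1 / t) = 1 - |t| * (Q - 1) := by
          have : |t| * (-(1 / t)) = 1 := by rw [mul_comm]; exact hprod
          linear_combination this
        have h6 : 5 / 4 ≤ |t| * Q := hsmall.le
        nlinarith
  · refine ⟨(j, k), ?_, ?_, ?_⟩
    · intro h
      have : k = 0 := congrArg Prod.snd h
      omega
    · rw [hL1]
      have hN2' : (2 : ℝ) ≤ N := by exact_mod_cast (show 2 ≤ N by omega)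
      have h1 : |e| * 3 ≤ 1 := by
        have := abs_nonneg e
        nlinarith
      calc |(k : ℝ) / t + (j - θ * k)| ≤ |(k : ℝ) / t| + |e| := abs_add_le _ _
        _ ≤ Q := by linarith
    · change |((k : ℤ) : ℝ) - t * uu x (j, k)| * Q ≤ 5 / 4
      rw [hL2]
      exact hgen e he1

theorem dirichlet (x t : ℝ) {Q : ℝ} (hQ : 2 ≤ Q) :
    ∃ n : ℤ × ℤ, IsCoprime n.1 n.2 ∧ 0 < uu x n ∧ uu x n ≤ Q ∧ |tt x n - t| * uu x n * Q ≤ 5 / 4 := by
  have hQ0 : 0 < Q := by linarith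
  obtain ⟨n, hn0, hn1, hn2⟩ := form86 x t hQ
  -- divide by the gcd
  obtain ⟨n, hcop, hn1, hn2⟩ : ∃ n : ℤ × ℤ, IsCoprime n.1 n.2 ∧ |uu x n| ≤ Q ∧
      |(n.2 : ℝ) - t * uu x n| * Q ≤ 5 / 4 := by
    have hg : Int.gcd n.1 n.2 ≠ 0 := by
      intro h
      rw [Int.gcd_eq_zero_iff] at h
      exact hn0 (Prod.ext h.1 h.2)
    have hg1 : 1 ≤ Int.gcd n.1 n.2 := Nat.one_le_iff_ne_zero.mpr hg
    obtain ⟨a, ha⟩ := Int.gcd_dvd_left n.1 n.2
    obtain ⟨b, hb⟩ := Int.gcd_dvd_right n.1 n.2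
    have hgR : (1 : ℝ) ≤ (Int.gcd n.1 n.2 : ℤ) := by exact_mod_cast hg1
    have e1 : uu x n = (Int.gcd n.1 n.2 : ℤ) * uu x (a, b) := by
      have h1 : (n.1 : ℝ) = (Int.gcd n.1 n.2 : ℤ) * a := by exact_mod_cast ha
      have h2 : (n.2 : ℝ) = (Int.gcd n.1 n.2 : ℤ) * b := by exact_mod_cast hb
      simp only [uu]
      rw [h1, h2]
      have h3 : ((Int.gcd n.1 n.2 : ℤ) : ℝ) = ((Int.gcd n.1 n.2 : ℤ) : ℝ) := rfl
      ring
    have e2 : (n.2 : ℝ) - t * uu x n = (Int.gcd n.1 n.2 : ℤ) * ((b : ℝ) - t * uu x (a, b)) := by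
      have h2 : (n.2 : ℝ) = (Int.gcd n.1 n.2 : ℤ) * b := by exact_mod_cast hb
      rw [e1]
      linear_combination h2
    refine ⟨(a, b), ?_, ?_, ?_⟩
    · obtain ⟨u, v, huv⟩ : ∃ u v : ℤ, u * n.1 + v * n.2 = Int.gcd n.1 n.2 := by
        refine ⟨Int.gcdA n.1 n.2, Int.gcdB n.1 n.2, ?_⟩
        rw [Int.gcd_eq_gcd_ab]
        ring
      refine ⟨u, v, ?_⟩
      have hgz : ((Int.gcd n.1 n.2 : ℕ) : ℤ) ≠ 0 := by exact_mod_cast hg
      apply mul_left_cancel₀ hgz
      calc ((Int.gcd n.1 n.2 : ℕ) : ℤ) * (u * a + v * b)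
          = u * (((Int.gcd n.1 n.2 : ℕ) : ℤ) * a) + v * (((Int.gcd n.1 n.2 : ℕ) : ℤ) * b) := by ring
        _ = u * n.1 + v * n.2 := by rw [← ha, ← hb]
        _ = _ := by rw [huv, mul_one]
    · rw [e1, abs_mul, abs_of_pos (by linarith)] at hn1
      nlinarith [abs_nonneg (uu x (a, b))]
    · rw [e2, abs_mul, abs_of_pos (show (0:ℝ) < ((Int.gcd n.1 n.2 : ℤ) : ℝ) by linarith)] at hn2
      have h3 : 0 ≤ |(b : ℝ) - t * uu x (a, b)| * Q := by positivity
      change |(b : ℝ) - t * uu x (a, b)| * Q ≤ 5 / 4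
      nlinarith
  have hne : uu x n ≠ 0 := by
    intro h
    rw [h, mul_zero, sub_zero] at hn2
    have h1 : n.2 = 0 := by
      by_contra hcon
      have h2 : (1 : ℝ) ≤ |(n.2 : ℝ)| := by
        have := Int.one_le_abs hcon
        exact_mod_cast this
      nlinarith
    have h2 : n.1 = 0 := by
      have h3 := h
      simp only [uu, h1, Int.cast_zero, mul_zero, add_zero] at h3
      exact_mod_cast h3
    rw [h1, h2] at hcop
    have := hcop.isUnit_of_dvd' (dvd_refl 0) (dvd_refl 0)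
    simp at this
  have key : ∀ n : ℤ × ℤ, IsCoprime n.1 n.2 → 0 < uu x n → |uu x n| ≤ Q →
      |(n.2 : ℝ) - t * uu x n| * Q ≤ 5 / 4 →
      ∃ n : ℤ × ℤ, IsCoprime n.1 n.2 ∧ 0 < uu x n ∧ uu x n ≤ Q ∧
        |tt x n - t| * uu x n * Q ≤ 5 / 4 := by
    intro n h1 h2 h3 h4
    refine ⟨n, h1, h2, (le_abs_self _).trans h3, ?_⟩
    have e : |tt x n - t| * uu x n = |(n.2 : ℝ) - t * uu x n| := by
      rw [← abs_of_pos h2, ← abs_mul, abs_of_pos h2, tt]
      congr 1
      field_simp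
    rw [e]
    exact h4
  rcases lt_or_gt_of_ne hne with h | h
  · have e1 : uu x (-n) = -uu x n := by
      simp only [uu, Prod.fst_neg, Prod.snd_neg]
      push_cast
      ring
    refine key (-n) ?_ ?_ ?_ ?_
    · simpa using hcop.neg_neg
    · rw [e1]
      linarith
    · rw [e1, abs_neg]
      exact hn1
    · rw [e1]
      have e2 : (((-n).2 : ℤ) : ℝ) - t * -uu x n = -((n.2 : ℝ) - t * uu x n) := by
        simp only [Prod.snd_neg]
        push_cast
        ring
      rw [e2, abs_neg]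
      exact hn2
  · exact key n hcop h hn1 hn2

/-- the slopes with small denominator -/
def NQ (q x : ℝ) (n : ℤ × ℤ) : Prop := IsCoprime n.1 n.2 ∧ 1 / 4 ≤ uu x n ∧ uu x n ≤ q ∧ |tt x n| ≤ 4

private lemma one_le86 {x : ℝ} {n : ℤ × ℤ} (hu : 0 < uu x n) (h2 : n.2 = 0) : 1 ≤ uu x n := by
  simp only [uu, h2, Int.cast_zero, mul_zero, add_zero] at hu ⊢
  have : 0 < n.1 := by exact_mod_cast hu
  exact_mod_cast this

theorem natural {x t q : ℝ} (hq : 20 ≤ q) (ht : |t| ≤ 39 / 10) (h : ∀ n : ℤ × ℤ, NQ q x n → q⁻¹ ^ 3 < |t - tt x n| * uu x n ^ 2) :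
    ∃ n : ℤ × ℤ, IsCoprime n.1 n.2 ∧ q < uu x n ∧ uu x n ≤ 2 * q ^ 4 ∧ |t - tt x n| * uu x n ^ 2 ≤ 5 / 4 ∧ |tt x n| ≤ 4 := by
  have hq0 : 0 < q := by linarith
  have hq4 : (160000 : ℝ) ≤ q ^ 4 := by
    have := pow_le_pow_left₀ (by norm_num : (0:ℝ) ≤ 20) hq 4
    norm_num at this
    exact this
  obtain ⟨n, h1, h2, h3, h4⟩ := dirichlet x t (Q := 5 / 4 * q ^ 4) (by linarith)
  have h5 : |tt x n - t| * uu x n * q ^ 4 ≤ 1 := by
    have : |tt x n - t| * uu x n * (5 / 4 * q ^ 4) = 5 / 4 * (|tt x n - t| * uu x n * q ^ 4) := by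
      ring
    linarith
  have h6 : |(n.2 : ℝ) - t * uu x n| * q ^ 4 ≤ 1 := by
    have e : |tt x n - t| * uu x n = |(n.2 : ℝ) - t * uu x n| := by
      rw [← abs_of_pos h2, ← abs_mul, abs_of_pos h2, tt]
      congr 1
      field_simp
    rw [← e]
    exact h5
  have h6' : |(n.2 : ℝ) - t * uu x n| ≤ 1 / 160000 := by
    have := abs_nonneg ((n.2 : ℝ) - t * uu x n)
    nlinarith
  have h7 : 1 / 4 ≤ uu x n := by
    by_contra hcon
    push Not at hcon
    have h8 : |(n.2 : ℝ)| < 1 := by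
      have h9 : |(n.2 : ℝ)| ≤ |(n.2 : ℝ) - t * uu x n| + |t * uu x n| := by
        have := abs_add_le ((n.2 : ℝ) - t * uu x n) (t * uu x n)
        simpa using this
      rw [abs_mul, abs_of_pos h2] at h9
      have := abs_nonneg t
      nlinarith
    have h9 : n.2 = 0 := by
      by_contra hc
      have := Int.one_le_abs hc
      have h10 : (1 : ℝ) ≤ |(n.2 : ℝ)| := by exact_mod_cast this
      linarith
    have := one_le86 h2 h9
    linarith
  have h8 : |tt x n - t| ≤ 1 / 40000 := by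
    have := abs_nonneg (tt x n - t)
    have h9 : |tt x n - t| * (1 / 4) * 160000 ≤ 1 := by
      refine le_trans ?_ h5
      have : |tt x n - t| * (1 / 4) ≤ |tt x n - t| * uu x n := mul_le_mul_of_nonneg_left h7 this
      have h10 : 0 ≤ |tt x n - t| * (1 / 4) := by positivity
      nlinarith
    linarith
  have h9 : |tt x n| ≤ 4 := by
    have := abs_add_le (tt x n - t) t
    rw [sub_add_cancel] at this
    linarith
  have h10 : q < uu x n := by
    by_contra hcon
    push Not at hcon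
    have h11 := h n ⟨h1, h7, hcon, h9⟩
    have h12 : |t - tt x n| * uu x n ^ 2 * q ^ 4 ≤ q := by
      rw [abs_sub_comm]
      calc |tt x n - t| * uu x n ^ 2 * q ^ 4 = (|tt x n - t| * uu x n * q ^ 4) * uu x n := by ring
        _ ≤ 1 * q := mul_le_mul h5 hcon h2.le (by norm_num)
        _ = q := one_mul q
    have h13 : q⁻¹ ^ 3 * q ^ 4 = q := by
      field_simp
    have h14 : q⁻¹ ^ 3 * q ^ 4 < |t - tt x n| * uu x n ^ 2 * q ^ 4 :=
      mul_lt_mul_of_pos_right h11 (by positivity)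
    linarith
  refine ⟨n, h1, h10, by linarith, ?_, h9⟩
  rw [abs_sub_comm]
  have h11 : |tt x n - t| * uu x n ^ 2 * q ^ 4 ≤ 5 / 4 * q ^ 4 := by
    calc |tt x n - t| * uu x n ^ 2 * q ^ 4 = (|tt x n - t| * uu x n * q ^ 4) * uu x n := by ring
      _ ≤ 1 * (5 / 4 * q ^ 4) := mul_le_mul h5 h3 h2.le (by norm_num)
      _ = 5 / 4 * q ^ 4 := one_mul _
  exact le_of_mul_le_mul_right h11 (by positivity)

theorem quarter {x : ℝ} {n : ℤ × ℤ} (hu : 0 < uu x n) (hs : |tt x n| ≤ 4) : 1 / 4 ≤ uu x n := by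
  by_cases h2 : n.2 = 0
  · have := one_le86 hu h2
    linarith
  · have h3 : (1 : ℝ) ≤ |(n.2 : ℝ)| := by
      have := Int.one_le_abs h2
      exact_mod_cast this
    rw [tt, abs_div, abs_of_pos hu, div_le_iff₀ hu] at hs
    linarith

private lemma dd_ne86 {x : ℝ} {n n' : ℤ × ℤ} (hc : IsCoprime n.1 n.2) (hc' : IsCoprime n'.1 n'.2)
    (hu : 0 < uu x n) (hu' : 0 < uu x n') (hne : n ≠ n') : n.1 * n'.2 - n.2 * n'.1 ≠ 0 := by
  intro h
  apply hne
  have h1 : n.1 * n'.2 = n.2 * n'.1 := by linarith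
  have h2 : n.1 ∣ n'.1 := by
    have : n.1 ∣ n.2 * n'.1 := ⟨n'.2, h1.symm⟩
    exact hc.dvd_of_dvd_mul_left this
  have h3 : n'.1 ∣ n.1 := by
    have : n'.1 ∣ n'.2 * n.1 := ⟨n.2, by linarith⟩
    exact hc'.dvd_of_dvd_mul_left this
  have h4 : n.2 ∣ n'.2 := by
    have : n.2 ∣ n.1 * n'.2 := ⟨n'.1, h1⟩
    exact hc.symm.dvd_of_dvd_mul_left this
  have h5 : n'.2 ∣ n.2 := by
    have : n'.2 ∣ n'.1 * n.2 := ⟨n.1, by linarith⟩
    exact hc'.symm.dvd_of_dvd_mul_left this
  have h6 := Int.natAbs_eq_of_dvd_dvd h2 h3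
  have h7 := Int.natAbs_eq_of_dvd_dvd h4 h5
  have hneg : n' ≠ -n := by
    intro h8
    have : uu x n' = -uu x n := by
      rw [h8]
      simp only [uu, Prod.fst_neg, Prod.snd_neg]
      push_cast
      ring
    linarith
  rcases Int.natAbs_eq_natAbs_iff.mp h6 with h8 | h8 <;>
    rcases Int.natAbs_eq_natAbs_iff.mp h7 with h9 | h9
  · exact Prod.ext h8 h9
  · -- n.1 = n'.1, n.2 = - n'.2
    rw [h8, h9] at h1
    have h10 : n'.1 = 0 ∨ n'.2 = 0 := by
      have : n'.1 * n'.2 = 0 := by linarith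
      exact mul_eq_zero.mp this
    rcases h10 with h10 | h10
    · exfalso
      apply hneg
      exact Prod.ext (by simp [h8, h10]) (by simp [h9])
    · exact Prod.ext h8 (by rw [h9, h10]; simp)
  · rw [h8, h9] at h1
    have h10 : n'.1 = 0 ∨ n'.2 = 0 := by
      have : n'.1 * n'.2 = 0 := by linarith
      exact mul_eq_zero.mp this
    rcases h10 with h10 | h10
    · exact Prod.ext (by rw [h8, h10]; simp) h9
    · exfalso
      apply hneg
      exact Prod.ext (by simp [h8]) (by simp [h9, h10])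
  · exfalso
    apply hneg
    exact Prod.ext (by simp [h8]) (by simp [h9])

/-- two cusps are far from each other -/
theorem sep_cusp {x t t' q : ℝ} (hq : 20 ≤ q) {n n' : ℤ × ℤ} (hn : NQ q x n) (hn' : NQ q x n') (ht : |t - tt x n| * uu x n ^ 2 ≤ q⁻¹ ^ 3)
    (ht' : |t' - tt x n'| * uu x n' ^ 2 ≤ q⁻¹ ^ 3) (htt : |t - t'| ≤ 1 / (4 * q ^ 2)) : n = n' := by
  by_contra hne
  obtain ⟨hc, hu1, hu2, _⟩ := hn
  obtain ⟨hc', hu1', hu2', _⟩ := hn'
  have hq0 : 0 < q := by linarith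
  have hu : 0 < uu x n := by linarith
  have hu' : 0 < uu x n' := by linarith
  have hdd := dd_ne86 hc hc' hu hu' hne
  have h1 : (1 : ℝ) ≤ |tt x n - tt x n'| * (uu x n * uu x n') := by
    have e : (tt x n - tt x n') * (uu x n * uu x n') = -((n.1 * n'.2 - n.2 * n'.1 : ℤ) : ℝ) := by
      rw [tt, tt, sub_mul]
      have e1 : (n.2 : ℝ) / uu x n * (uu x n * uu x n') = n.2 * uu x n' := by field_simp
      have e2 : (n'.2 : ℝ) / uu x n' * (uu x n * uu x n') = n'.2 * uu x n := by field_simp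
      rw [e1, e2]
      simp only [uu]
      push_cast
      ring
    rw [← abs_of_pos (mul_pos hu hu'), ← abs_mul, e, abs_neg]
    have := Int.one_le_abs hdd
    exact_mod_cast this
  have h2 : |tt x n - tt x n'| ≤ |t - tt x n| + |t - t'| + |t' - tt x n'| := by
    have e : tt x n - tt x n' = -(t - tt x n) + (t - t') + (t' - tt x n') := by ring
    rw [e]
    refine (abs_add_le _ _).trans (add_le_add ((abs_add_le _ _).trans ?_) le_rfl)
    rw [abs_neg]
  set A := |t - tt x n|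
  set B := |t' - tt x n'|
  have hA0 : 0 ≤ A := abs_nonneg _
  have hB0 : 0 ≤ B := abs_nonneg _
  have hi : q⁻¹ ^ 3 * q = q⁻¹ ^ 2 := by field_simp
  have hi2 : q⁻¹ ^ 2 ≤ 1 / 400 := by
    rw [inv_pow, one_div]
    apply inv_anti₀ (by norm_num)
    nlinarith
  -- A u u' ≤ 4 q A u ^ 2
  have h3 : A * (uu x n * uu x n') ≤ 1 / 100 := by
    have h4 : uu x n * uu x n' ≤ 4 * q * uu x n ^ 2 := by
      have e1 : uu x n * uu x n' ≤ uu x n * q := mul_le_mul_of_nonneg_left hu2' hu.le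
      have e2 : uu x n * q * 1 ≤ uu x n * q * (4 * uu x n) :=
        mul_le_mul_of_nonneg_left (by linarith) (by positivity)
      calc uu x n * uu x n' ≤ uu x n * q * 1 := by linarith
        _ ≤ uu x n * q * (4 * uu x n) := e2
        _ = _ := by ring
    calc A * (uu x n * uu x n') ≤ A * (4 * q * uu x n ^ 2) := mul_le_mul_of_nonneg_left h4 hA0
      _ = 4 * q * (A * uu x n ^ 2) := by ring
      _ ≤ 4 * q * q⁻¹ ^ 3 := mul_le_mul_of_nonneg_left ht (by positivity)
      _ = 4 * (q⁻¹ ^ 3 * q) := by ring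
      _ ≤ 1 / 100 := by rw [hi]; linarith
  have h4 : B * (uu x n * uu x n') ≤ 1 / 100 := by
    have h4 : uu x n * uu x n' ≤ 4 * q * uu x n' ^ 2 := by
      have e1 : uu x n * uu x n' ≤ q * uu x n' := mul_le_mul_of_nonneg_right hu2 hu'.le
      have e2 : q * uu x n' * 1 ≤ q * uu x n' * (4 * uu x n') :=
        mul_le_mul_of_nonneg_left (by linarith) (by positivity)
      calc uu x n * uu x n' ≤ q * uu x n' * 1 := by linarith
        _ ≤ q * uu x n' * (4 * uu x n') := e2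
        _ = _ := by ring
    calc B * (uu x n * uu x n') ≤ B * (4 * q * uu x n' ^ 2) := mul_le_mul_of_nonneg_left h4 hB0
      _ = 4 * q * (B * uu x n' ^ 2) := by ring
      _ ≤ 4 * q * q⁻¹ ^ 3 := mul_le_mul_of_nonneg_left ht' (by positivity)
      _ = 4 * (q⁻¹ ^ 3 * q) := by ring
      _ ≤ 1 / 100 := by rw [hi]; linarith
  have h5 : |t - t'| * (uu x n * uu x n') ≤ 1 / 4 := by
    have h6 : uu x n * uu x n' ≤ q ^ 2 := by nlinarith
    calc |t - t'| * (uu x n * uu x n') ≤ 1 / (4 * q ^ 2) * q ^ 2 :=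
          mul_le_mul htt h6 (by positivity) (by positivity)
      _ = 1 / 4 := by field_simp
  have h6 : |tt x n - tt x n'| * (uu x n * uu x n') ≤
      (A + |t - t'| + B) * (uu x n * uu x n') :=
    mul_le_mul_of_nonneg_right h2 (by positivity)
  have h7 : (A + |t - t'| + B) * (uu x n * uu x n') = A * (uu x n * uu x n') +
      |t - t'| * (uu x n * uu x n') + B * (uu x n * uu x n') := by ring
  linarith

private lemma card_int86 (S : Finset ℤ) (a D : ℝ) (hD : 0 ≤ D) (h : ∀ k ∈ S, a < k ∧ (k : ℝ) ≤ a + D) :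
    (S.card : ℝ) ≤ D + 1 := by
  have h1 : S ⊆ Finset.Ioc ⌊a⌋ ⌊a + D⌋ := by
    intro k hk
    obtain ⟨h2, h3⟩ := h k hk
    rw [Finset.mem_Ioc]
    exact ⟨Int.floor_lt.mpr h2, Int.le_floor.mpr h3⟩
  have h2 := Finset.card_le_card h1
  rw [Int.card_Ioc] at h2
  have h3 : ⌊a⌋ ≤ ⌊a + D⌋ := Int.floor_mono (by linarith)
  have h4 : ((⌊a + D⌋ - ⌊a⌋).toNat : ℝ) = (⌊a + D⌋ : ℝ) - ⌊a⌋ := by
    have : (((⌊a + D⌋ - ⌊a⌋).toNat : ℤ) : ℝ) = ((⌊a + D⌋ - ⌊a⌋ : ℤ) : ℝ) := by
      rw [Int.toNat_of_nonneg (by linarith)]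
    push_cast at this
    exact this
  have h5 : (S.card : ℝ) ≤ ((⌊a + D⌋ - ⌊a⌋).toNat : ℝ) := by exact_mod_cast h2
  have h6 := Int.floor_le (a + D)
  have h7 := Int.lt_floor_add_one a
  linarith

theorem count_NQ {x D : ℝ} (hD : 1 / 4 ≤ D) (N : Finset (ℤ × ℤ)) (hN : ∀ n ∈ N, 0 < uu x n ∧ uu x n ≤ D ∧ |tt x n| ≤ 4) :
    (N.card : ℝ) ≤ 60 * D ^ 2 := by
  classical
  have h2 : ∀ n ∈ N, |(n.2 : ℝ)| ≤ 4 * D := by
    intro n hn
    obtain ⟨h1, h2, h3⟩ := hN n hn
    rw [tt, abs_div, abs_of_pos h1, div_le_iff₀ h1] at h3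
    linarith
  have himg : ((N.image Prod.snd).card : ℝ) ≤ 12 * D := by
    have h3 := card_int86 (N.image Prod.snd) (-(4 * D) - 1 / 2) (8 * D + 1 / 2) (by linarith) (by
      intro k hk
      rw [Finset.mem_image] at hk
      obtain ⟨n, hn, rfl⟩ := hk
      have := abs_le.mp (h2 n hn)
      constructor <;> linarith [this.1, this.2])
    -- refine: use the symmetric count
    have h4 : N.image Prod.snd ⊆ Finset.Icc (-⌊4 * D⌋) ⌊4 * D⌋ := by
      intro k hk
      rw [Finset.mem_image] at hk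
      obtain ⟨n, hn, rfl⟩ := hk
      have := abs_le.mp (h2 n hn)
      rw [Finset.mem_Icc]
      constructor
      · have h5 : -n.2 ≤ ⌊4 * D⌋ := by
          apply Int.le_floor.mpr
          push_cast
          linarith [this.1]
        linarith
      · exact Int.le_floor.mpr this.2
    have h5 := Finset.card_le_card h4
    rw [Int.card_Icc] at h5
    have h6 : 0 ≤ ⌊4 * D⌋ := Int.floor_nonneg.mpr (by linarith)
    have h7 : ((⌊4 * D⌋ + 1 - -⌊4 * D⌋).toNat : ℝ) = 2 * (⌊4 * D⌋ : ℝ) + 1 := by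
      have : (((⌊4 * D⌋ + 1 - -⌊4 * D⌋).toNat : ℤ) : ℝ) = ((⌊4 * D⌋ + 1 - -⌊4 * D⌋ : ℤ) : ℝ) := by
        rw [Int.toNat_of_nonneg (by linarith)]
      push_cast at this
      rw [this]
      ring
    have h8 : ((N.image Prod.snd).card : ℝ) ≤ ((⌊4 * D⌋ + 1 - -⌊4 * D⌋).toNat : ℝ) := by
      exact_mod_cast h5
    have h9 := Int.floor_le (4 * D)
    linarith
  have hfib : ∀ k ∈ N.image Prod.snd, ((N.filter (fun n => n.2 = k)).card : ℝ) ≤ 5 * D := by
    intro k _
    have h3 : (N.filter (fun n => n.2 = k)).card = ((N.filter (fun n => n.2 = k)).image Prod.fst).card := by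
      rw [Finset.card_image_of_injOn]
      intro a ha b hb hab
      simp only [Finset.coe_filter, Set.mem_ofPred_eq] at ha hb
      exact Prod.ext hab (ha.2.trans hb.2.symm)
    rw [h3]
    have h4 := card_int86 ((N.filter (fun n => n.2 = k)).image Prod.fst) (-(x * k)) D (by linarith) (by
      intro j hj
      rw [Finset.mem_image] at hj
      obtain ⟨n, hn, rfl⟩ := hj
      rw [Finset.mem_filter] at hn
      obtain ⟨h5, h6, _⟩ := hN n hn.1
      simp only [uu, hn.2] at h5 h6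
      constructor <;> linarith)
    linarith
  have h3 : (N.card : ℝ) = ∑ k ∈ N.image Prod.snd, ((N.filter (fun n => n.2 = k)).card : ℝ) := by
    have := Finset.card_eq_sum_card_image Prod.snd N
    exact_mod_cast this
  rw [h3]
  calc ∑ k ∈ N.image Prod.snd, ((N.filter (fun n => n.2 = k)).card : ℝ)
      ≤ ∑ _k ∈ N.image Prod.snd, 5 * D := Finset.sum_le_sum hfib
    _ = (N.image Prod.snd).card * (5 * D) := by rw [Finset.sum_const, nsmul_eq_mul]
    _ ≤ 12 * D * (5 * D) := mul_le_mul_of_nonneg_right himg (by linarith)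
    _ = 60 * D ^ 2 := by ring

theorem finite_NQ (q x : ℝ) : {n : ℤ × ℤ | NQ q x n}.Finite := by
  by_contra hcon
  have hinf : {n : ℤ × ℤ | NQ q x n}.Infinite := hcon
  set D := max q (1 / 4) with hD
  obtain ⟨B, hB⟩ := exists_nat_gt (60 * D ^ 2)
  obtain ⟨S, hS, hcard⟩ := hinf.exists_subset_card_eq B
  have h1 := count_NQ (x := x) (D := D) (le_max_right _ _) S (by
    intro n hn
    have h2 : NQ q x n := hS hn
    exact ⟨by linarith [h2.2.1], h2.2.2.1.trans (le_max_left _ _), h2.2.2.2⟩)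
  rw [hcard] at h1
  linarith

end Pool.Agent.Helper60.LT
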