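import Pool.Agent.Helper60.LT.A1
import Pool.Agent.Helper78.CE.B3

/-!
# LT-C4: pairs in a cusp

PROOF of the first part: `|k.2| ≤ ρ lam H`, `k.2 ≠ 0`: at most `2 ρ lam H` values; `k.1` in an interval of length `lam H`: at most `lam H + 1 ≤ 2 lam H` values.
PROOF of the second part. For `k` let `g = gcd k`, `k = g k̂`. If `dd k k' = d` then `g ∣ d` and `k'` lies on a fixed line `k'₀ + ℤ k̂`; as `uu x k̂ = uu x k/g ≥ H/(lam g)` and `0 < uu x k' ≤ lam H` there are at most `lam² g + 1 ≤ 2 lam² g` such `k'`. So for given `k` at most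
`2 lam² g (2 D₀/g + 1) ≤ 4 lam² (g + D₀)` pairs. `∑_k g(k) ≤ ∑_{g ≥ 1} g #{k ∈ S : g ∣ k}`; `k = g k̂`, `1 ≤ |k̂.2| ≤ ρ lam H/g`, `k̂.1` in an interval of length `lam H/g`: `g #{..} ≤ g (2 ρ lam H/g) (lam H/g + 1) = 2 ρ lam² H²/g + 2 ρ lam H`, only for `g ≤ ρ lam H` (`≤ 5 lam H`);
sum `≤ C ρ H² (1 + log (1 + H)) + C ρ² H²`. See GC.Q3 (`reg_pairs`) for a similar proof.
-/

open MeasureTheory Real Set Filter Topology

set_option autoImplicit false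

namespace Pool.Agent.Helper60.LT

open Pool.Agent.Helper22.AE
open Pool.Agent.Helper92.GC (dt tp Tq uu tt arc gs dd)

/-- integers in an interval -/
private lemma c4_int99 {c U : ℝ} (hU : 0 ≤ U) (F : Finset ℤ) (hF : ∀ n ∈ F, c ≤ (n : ℝ) ∧ (n : ℝ) ≤ c + U) :
    (F.card : ℝ) ≤ U + 1 := by
  have h1 : F ⊆ Finset.Icc ⌈c⌉ ⌊c + U⌋ := by
    intro n hn
    rw [Finset.mem_Icc]
    exact ⟨Int.ceil_le.2 (hF n hn).1, Int.le_floor.2 (hF n hn).2⟩
  have h2 := Finset.card_le_card h1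
  rw [Int.card_Icc] at h2
  have h3 : (F.card : ℝ) ≤ (((⌊c + U⌋ + 1 - ⌈c⌉).toNat : ℕ) : ℝ) := by exact_mod_cast h2
  refine h3.trans ?_
  rcases le_total 0 (⌊c + U⌋ + 1 - ⌈c⌉) with h | h
  · have h4 : (((⌊c + U⌋ + 1 - ⌈c⌉).toNat : ℕ) : ℝ) = (⌊c + U⌋ : ℝ) + 1 - (⌈c⌉ : ℝ) := by
      have h5 : (((⌊c + U⌋ + 1 - ⌈c⌉).toNat : ℕ) : ℤ) = ⌊c + U⌋ + 1 - ⌈c⌉ := Int.toNat_of_nonneg h
      rw [← Int.cast_natCast (R := ℝ), h5]
      push_cast
      ring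
    rw [h4]
    linarith [Int.floor_le (c + U), Int.le_ceil c]
  · rw [Int.toNat_of_nonpos h]
    simp only [Nat.cast_zero]
    linarith

/-- lattice points of a cell -/
private lemma c4_cell99 {x M U : ℝ} (hM : 0 ≤ M) (hU : 0 ≤ U) (F : Finset (ℤ × ℤ))
    (hF : ∀ m ∈ F, m.2 ≠ 0 ∧ |(m.2 : ℝ)| ≤ M ∧ 0 ≤ uu x m ∧ uu x m ≤ U) :
    (F.card : ℝ) ≤ 2 * M * (U + 1) := by
  classical
  obtain ⟨N, hN⟩ : ∃ N : ℕ, N = ⌊M⌋₊ := ⟨_, rfl⟩
  have hNM : (N : ℝ) ≤ M := by rw [hN]; exact Nat.floor_le hM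
  have h1 : ∀ m ∈ F, m.2 ∈ (Finset.Icc (-(N : ℤ)) N).erase 0 := by
    intro m hm
    obtain ⟨h2, h3, -, -⟩ := hF m hm
    have h4 : m.2.natAbs ≤ N := by
      rw [hN]
      refine Nat.le_floor ?_
      rw [Nat.cast_natAbs, Int.cast_abs]
      exact h3
    rw [Finset.mem_erase, Finset.mem_Icc]
    omega
  rw [Finset.card_eq_sum_card_fiberwise (f := fun m : ℤ × ℤ => m.2) (t := (Finset.Icc (-(N : ℤ)) N).erase 0) h1,
    Nat.cast_sum]
  have h2 : ∀ b ∈ (Finset.Icc (-(N : ℤ)) N).erase 0, (((F.filter (fun m : ℤ × ℤ => m.2 = b)).card : ℕ) : ℝ) ≤ U + 1 := by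
    intro b _
    have h3 : ((F.filter (fun m : ℤ × ℤ => m.2 = b)).image Prod.fst).card = (F.filter (fun m : ℤ × ℤ => m.2 = b)).card := by
      refine Finset.card_image_of_injOn ?_
      intro k hk l hl hkl
      rw [Finset.mem_coe, Finset.mem_filter] at hk hl
      exact Prod.ext hkl (hk.2.trans hl.2.symm)
    rw [← h3]
    refine c4_int99 (c := -(x * b)) hU _ ?_
    intro n hn
    obtain ⟨m, hm, rfl⟩ := Finset.mem_image.1 hn
    rw [Finset.mem_filter] at hm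
    obtain ⟨-, -, h4, h5⟩ := hF m hm.1
    rw [uu, hm.2] at h4 h5
    constructor <;> linarith
  refine (Finset.sum_le_card_nsmul _ _ _ h2).trans ?_
  rw [nsmul_eq_mul]
  have h4 : (((Finset.Icc (-(N : ℤ)) N).erase 0).card : ℝ) = 2 * N := by
    rw [Finset.card_erase_of_mem (by rw [Finset.mem_Icc]; omega), Int.card_Icc]
    rw [show (N : ℤ) + 1 - -(N : ℤ) = ((2 * N + 1 : ℕ) : ℤ) by push_cast; ring, Int.toNat_natCast]
    simp
  rw [h4]
  refine mul_le_mul_of_nonneg_right ?_ (by linarith)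
  linarith

/-- the multiples of `g` in a cell -/
private lemma c4_mult99 {x M U : ℝ} (hM : 0 ≤ M) (hU : 0 ≤ U) (F : Finset (ℤ × ℤ))
    (hF : ∀ m ∈ F, m.2 ≠ 0 ∧ |(m.2 : ℝ)| ≤ M ∧ 0 ≤ uu x m ∧ uu x m ≤ U) {g : ℕ} (hg : 1 ≤ g)
    (hd : ∀ m ∈ F, (g : ℤ) ∣ m.1 ∧ (g : ℤ) ∣ m.2) :
    (F.card : ℝ) ≤ 2 * (M / g) * (U / g + 1) := by
  classical
  have hgz : (0 : ℤ) < g := by exact_mod_cast hg
  have hgr : (0 : ℝ) < g := by exact_mod_cast hg
  have h1 : (F.image (fun k : ℤ × ℤ => (k.1 / (g : ℤ), k.2 / (g : ℤ)))).card = F.card := by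
    refine Finset.card_image_of_injOn ?_
    intro k hk l hl hkl
    simp only [Prod.mk.injEq] at hkl
    have h2 := hd k hk
    have h3 := hd l hl
    refine Prod.ext ?_ ?_
    · rw [← Int.mul_ediv_cancel' h2.1, ← Int.mul_ediv_cancel' h3.1, hkl.1]
    · rw [← Int.mul_ediv_cancel' h2.2, ← Int.mul_ediv_cancel' h3.2, hkl.2]
  rw [← h1]
  refine c4_cell99 (x := x) (by positivity) (by positivity) _ ?_
  intro m hm
  obtain ⟨k, hk, rfl⟩ := Finset.mem_image.1 hm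
  obtain ⟨h2, h3, h4, h5⟩ := hF k hk
  obtain ⟨⟨a, ha⟩, ⟨b, hb⟩⟩ := hd k hk
  have h6 : k.1 / (g : ℤ) = a := by rw [ha, Int.mul_ediv_cancel_left _ hgz.ne']
  have h7 : k.2 / (g : ℤ) = b := by rw [hb, Int.mul_ediv_cancel_left _ hgz.ne']
  have h8 : (k.1 : ℝ) = g * a := by rw [ha]; push_cast; ring
  have h9 : (k.2 : ℝ) = g * b := by rw [hb]; push_cast; ring
  simp only [uu] at h4 h5 ⊢
  rw [h6, h7]
  rw [h8, h9] at h4 h5
  rw [h9, abs_mul, Nat.abs_cast] at h3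
  have h10 : (g : ℝ) * a + x * (g * b) = g * (a + x * b) := by ring
  rw [h10] at h4 h5
  refine ⟨?_, ?_, ?_, ?_⟩
  · intro h0
    rw [h0, mul_zero] at hb
    exact h2 hb
  · rw [le_div_iff₀' hgr]; exact h3
  · exact nonneg_of_mul_nonneg_right h4 hgr
  · rw [le_div_iff₀' hgr]; exact h5

/-- sum of the greatest common divisors over a cell -/
private lemma c4_gcd99 {x M U : ℝ} (hM : 0 ≤ M) (hU : 0 ≤ U) (F : Finset (ℤ × ℤ))
    (hF : ∀ m ∈ F, m.2 ≠ 0 ∧ |(m.2 : ℝ)| ≤ M ∧ 0 ≤ uu x m ∧ uu x m ≤ U) :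
    ∑ k ∈ F, (Int.gcd k.1 k.2 : ℝ) ≤ 2 * M * U * (1 + log ⌊M⌋₊) + 2 * M ^ 2 := by
  classical
  obtain ⟨N, hN⟩ : ∃ N : ℕ, N = ⌊M⌋₊ := ⟨_, rfl⟩
  have hNM : (N : ℝ) ≤ M := by rw [hN]; exact Nat.floor_le hM
  rw [← hN]
  have h1 : ∀ k ∈ F, (Int.gcd k.1 k.2 : ℝ) ≤ ∑ g ∈ Finset.Icc 1 N,
      if ((g : ℤ) ∣ k.1 ∧ (g : ℤ) ∣ k.2) then (g : ℝ) else 0 := by
    intro k hk
    obtain ⟨h2, h3, -, -⟩ := hF k hk
    have hg0 : 0 < Int.gcd k.1 k.2 := by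
      rw [Int.gcd_pos_iff]
      exact Or.inr h2
    have h4 : k.2.natAbs ≤ N := by
      rw [hN]
      refine Nat.le_floor ?_
      rw [Nat.cast_natAbs, Int.cast_abs]
      exact h3
    have hgB : Int.gcd k.1 k.2 ≤ N := by
      have h6 := Int.gcd_le_natAbs_right k.1 h2
      omega
    have h7 : Int.gcd k.1 k.2 ∈ Finset.Icc 1 N := Finset.mem_Icc.2 ⟨hg0, hgB⟩
    have h8 := Finset.single_le_sum (s := Finset.Icc 1 N) (f := fun g : ℕ =>
      if ((g : ℤ) ∣ k.1 ∧ (g : ℤ) ∣ k.2) then (g : ℝ) else 0) (by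
        intro g _
        split_ifs
        · positivity
        · exact le_refl _) h7
    refine le_trans ?_ h8
    have h9 : ((Int.gcd k.1 k.2 : ℤ) ∣ k.1 ∧ (Int.gcd k.1 k.2 : ℤ) ∣ k.2) :=
      ⟨Int.gcd_dvd_left .., Int.gcd_dvd_right ..⟩
    rw [if_pos h9]
  refine (Finset.sum_le_sum h1).trans ?_
  rw [Finset.sum_comm]
  have h2 : ∀ g ∈ Finset.Icc 1 N, (∑ k ∈ F, if ((g : ℤ) ∣ k.1 ∧ (g : ℤ) ∣ k.2) then (g : ℝ) else 0) ≤
      2 * M * U * ((g : ℝ))⁻¹ + 2 * M := by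
    intro g hg
    rw [Finset.mem_Icc] at hg
    have hg1 : (1 : ℝ) ≤ g := by exact_mod_cast hg.1
    rw [← Finset.sum_filter, Finset.sum_const, nsmul_eq_mul]
    have h3 := c4_mult99 (x := x) hM hU (F.filter (fun k : ℤ × ℤ => (g : ℤ) ∣ k.1 ∧ (g : ℤ) ∣ k.2))
      (fun m hm => hF m (Finset.mem_filter.1 hm).1) hg.1 (fun m hm => (Finset.mem_filter.1 hm).2)
    calc ((F.filter (fun k : ℤ × ℤ => (g : ℤ) ∣ k.1 ∧ (g : ℤ) ∣ k.2)).card : ℝ) * g ≤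
          (2 * (M / g) * (U / g + 1)) * g := mul_le_mul_of_nonneg_right h3 (by linarith)
      _ = 2 * M * U * ((g : ℝ))⁻¹ + 2 * M := by
          have : (g : ℝ) ≠ 0 := by linarith
          field_simp
  refine (Finset.sum_le_sum h2).trans ?_
  rw [Finset.sum_add_distrib, ← Finset.mul_sum, Finset.sum_const, nsmul_eq_mul, Nat.card_Icc]
  have h3 := harmonic_le_one_add_log N
  rw [harmonic_eq_sum_Icc] at h3
  push_cast at h3
  have h4 : (((N + 1 - 1 : ℕ)) : ℝ) * (2 * M) ≤ 2 * M ^ 2 := by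
    rw [Nat.add_sub_cancel]
    nlinarith
  have h5 : 2 * M * U * (∑ i ∈ Finset.Icc 1 N, ((i : ℝ))⁻¹) ≤ 2 * M * U * (1 + log N) :=
    mul_le_mul_of_nonneg_left h3 (by positivity)
  linarith

/-- points of a cell on a line -/
private lemma c4_line99 {x w U : ℝ} (hw : 0 < w) (hU : 0 ≤ U) {a b e : ℤ} (h : IsCoprime a b) (hb : b ≠ 0)
    (hab : w ≤ uu x (a, b)) (F : Finset (ℤ × ℤ)) (hF : ∀ m ∈ F, 0 ≤ uu x m ∧ uu x m ≤ U)
    (he : ∀ m ∈ F, a * m.2 - b * m.1 = e) : (F.card : ℝ) ≤ U / w + 1 := by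
  classical
  rcases F.eq_empty_or_nonempty with h0 | ⟨m₀, hm₀⟩
  · rw [h0, Finset.card_empty, Nat.cast_zero]
    positivity
  have h1 : ∀ m ∈ F, ∃ j : ℤ, m.2 = m₀.2 + j * b ∧ m.1 = m₀.1 + j * a := by
    intro m hm
    have h2 : b ∣ a * (m.2 - m₀.2) := ⟨m.1 - m₀.1, by linarith [he m hm, he m₀ hm₀]⟩
    obtain ⟨j, hj⟩ := h.symm.dvd_of_dvd_mul_left h2
    refine ⟨j, by linarith [mul_comm j b], ?_⟩
    have h3 : b * (m.1 - m₀.1) = b * (j * a) := by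
      have h4 : a * (m.2 - m₀.2) = b * (m.1 - m₀.1) := by linarith [he m hm, he m₀ hm₀]
      rw [← h4, hj]; ring
    have h5 := mul_left_cancel₀ hb h3
    linarith
  choose! J hJ2 hJ1 using h1
  have h2 : (F.image J).card = F.card := by
    refine Finset.card_image_of_injOn ?_
    intro k hk l hl hkl
    refine Prod.ext ?_ ?_
    · rw [hJ1 k hk, hJ1 l hl, hkl]
    · rw [hJ2 k hk, hJ2 l hl, hkl]
  rw [← h2]
  have hv : 0 < uu x (a, b) := lt_of_lt_of_le hw hab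
  have h3 := c4_int99 (c := -(uu x m₀ / uu x (a, b))) (U := U / uu x (a, b)) (by positivity) (F.image J) (by
    intro n hn
    obtain ⟨m, hm, rfl⟩ := Finset.mem_image.1 hn
    have h4 : uu x m = uu x m₀ + J m * uu x (a, b) := by
      simp only [uu]
      rw [hJ1 m hm, hJ2 m hm]
      push_cast
      ring
    obtain ⟨h5, h6⟩ := hF m hm
    rw [h4] at h5 h6
    constructor
    · rw [← neg_div, div_le_iff₀ hv]
      linarith
    · rw [← neg_div, ← add_div, le_div_iff₀ hv]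
      linarith)
  refine h3.trans ?_
  have h7 : U / uu x (a, b) ≤ U / w := div_le_div_of_nonneg_left hU hw hab
  linarith

/-- the partners of a fixed vector -/
private lemma c4_row99 {lam : ℝ} (hl : 1 ≤ lam) {x H D : ℝ} (hH : 1 ≤ H) (hD : 0 ≤ D) (S : Finset (ℤ × ℤ))
    (hS : ∀ m ∈ S, 0 ≤ uu x m ∧ uu x m ≤ lam * H) {k : ℤ × ℤ} (hk2 : k.2 ≠ 0) (hk : H / lam ≤ uu x k) :
    ((S.filter (fun l : ℤ × ℤ => |((dd k l : ℤ) : ℝ)| ≤ D)).card : ℝ) ≤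
      4 * lam ^ 2 * (Int.gcd k.1 k.2 : ℝ) * (1 + D) := by
  classical
  have hg0 : 0 < Int.gcd k.1 k.2 := by
    rw [Int.gcd_pos_iff]
    exact Or.inr hk2
  obtain ⟨g, hg⟩ : ∃ g : ℕ, g = Int.gcd k.1 k.2 := ⟨_, rfl⟩
  rw [← hg] at hg0 ⊢
  have hgr : (1 : ℝ) ≤ g := by exact_mod_cast hg0
  obtain ⟨a, ha⟩ : ∃ a : ℤ, a = k.1 / g := ⟨_, rfl⟩
  obtain ⟨b, hb⟩ : ∃ b : ℤ, b = k.2 / g := ⟨_, rfl⟩
  have hga : (g : ℤ) ∣ k.1 := by rw [hg]; exact Int.gcd_dvd_left ..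
  have hgb : (g : ℤ) ∣ k.2 := by rw [hg]; exact Int.gcd_dvd_right ..
  have hka : k.1 = g * a := by rw [ha, Int.mul_ediv_cancel' hga]
  have hkb : k.2 = g * b := by rw [hb, Int.mul_ediv_cancel' hgb]
  have hcop : IsCoprime a b := by
    rw [ha, hb, hg]
    refine Int.isCoprime_iff_gcd_eq_one.2 ?_
    exact Int.gcd_div_gcd_div_gcd (by rw [← hg]; exact hg0)
  have hb0 : b ≠ 0 := by
    intro h0
    rw [h0, mul_zero] at hkb
    exact hk2 hkb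
  have hlam : 0 < lam := by linarith
  have hw : H / lam / g ≤ uu x (a, b) := by
    rw [div_le_iff₀ (by linarith)]
    have h1 : uu x (a, b) * g = uu x k := by
      simp only [uu]
      rw [hka, hkb]
      push_cast
      ring
    rw [h1]
    exact hk
  have hw0 : 0 < H / lam / g := by positivity
  have hfib : ∀ e : ℤ, ((S.filter (fun l : ℤ × ℤ => a * l.2 - b * l.1 = e)).card : ℝ) ≤ 2 * lam ^ 2 * g := by
    intro e
    refine (c4_line99 (x := x) (U := lam * H) hw0 (by positivity) hcop hb0 hw _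
      (fun m hm => hS m (Finset.mem_filter.1 hm).1) (fun m hm => (Finset.mem_filter.1 hm).2)).trans ?_
    have h1 : lam * H / (H / lam / g) = lam ^ 2 * g := by
      have h2 : H ≠ 0 := by linarith
      have h3 : (g : ℝ) ≠ 0 := by linarith
      field_simp
    rw [h1]
    nlinarith [one_le_pow₀ (n := 2) hl]
  obtain ⟨n, hn⟩ : ∃ n : ℕ, n = ⌊D / g⌋₊ := ⟨_, rfl⟩
  have hnT : (n : ℝ) ≤ D / g := by rw [hn]; exact Nat.floor_le (by positivity)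
  have hmaps : ∀ l ∈ S.filter (fun l : ℤ × ℤ => |((dd k l : ℤ) : ℝ)| ≤ D),
      a * l.2 - b * l.1 ∈ Finset.Icc (-(n : ℤ)) n := by
    intro l hl
    have h1 := (Finset.mem_filter.1 hl).2
    have h2 : dd k l = g * (a * l.2 - b * l.1) := by
      rw [dd, hka, hkb]; ring
    rw [h2, Int.cast_mul, abs_mul, Int.cast_natCast, Nat.abs_cast, ← le_div_iff₀' (by linarith)] at h1
    have h3 : ((a * l.2 - b * l.1).natAbs : ℝ) ≤ D / g := by
      rw [Nat.cast_natAbs, Int.cast_abs]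
      exact h1
    have h4 : (a * l.2 - b * l.1).natAbs ≤ n := by
      rw [hn]
      exact Nat.le_floor h3
    rw [Finset.mem_Icc]
    omega
  rw [Finset.card_eq_sum_card_fiberwise (f := fun l : ℤ × ℤ => a * l.2 - b * l.1)
    (t := Finset.Icc (-(n : ℤ)) n) hmaps, Nat.cast_sum]
  have h5 : ∀ e ∈ Finset.Icc (-(n : ℤ)) (n : ℤ),
      ((((S.filter (fun l : ℤ × ℤ => |((dd k l : ℤ) : ℝ)| ≤ D)).filter
        (fun l : ℤ × ℤ => a * l.2 - b * l.1 = e)).card : ℕ) : ℝ) ≤ 2 * lam ^ 2 * g := by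
    intro e _
    refine le_trans ?_ (hfib e)
    rw [Nat.cast_le]
    refine Finset.card_le_card ?_
    intro l hl
    rw [Finset.mem_filter, Finset.mem_filter] at hl
    exact Finset.mem_filter.2 ⟨hl.1.1, hl.2⟩
  refine (Finset.sum_le_card_nsmul _ _ _ h5).trans ?_
  rw [nsmul_eq_mul, Int.card_Icc]
  have h6 : (((n : ℤ) + 1 - -(n : ℤ)).toNat : ℝ) = 2 * n + 1 := by
    rw [show (n : ℤ) + 1 - -(n : ℤ) = ((2 * n + 1 : ℕ) : ℤ) by push_cast; ring, Int.toNat_natCast]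
    push_cast
    ring
  rw [h6]
  have h7 : (n : ℝ) * g ≤ D := by
    rw [← le_div_iff₀ (by linarith)]
    exact hnT
  have h8 : (2 * (n : ℝ) + 1) * g ≤ 2 * g * (1 + D) := by nlinarith
  calc (2 * (n : ℝ) + 1) * (2 * lam ^ 2 * g) = 2 * lam ^ 2 * ((2 * (n : ℝ) + 1) * g) := by ring
    _ ≤ 2 * lam ^ 2 * (2 * g * (1 + D)) := mul_le_mul_of_nonneg_left h8 (by positivity)
    _ = 4 * lam ^ 2 * (g : ℝ) * (1 + D) := by ring

open Classical in
theorem pairs {lam : ℝ} (hl : 1 ≤ lam) : ∃ C : ℝ, 1 ≤ C ∧ ∀ (x ρ H : ℝ) (S : Finset (ℤ × ℤ)), 1 ≤ H → 0 < ρ → ρ ≤ 5 →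
    (∀ k ∈ S, k.2 ≠ 0 ∧ H / lam ≤ uu x k ∧ uu x k ≤ lam * H ∧ |(k.2 : ℝ)| ≤ ρ * uu x k) →
      (S.card : ℝ) ≤ C * ρ * H ^ 2 ∧ ∀ D₀ : ℝ, 0 ≤ D₀ →
        (((S ×ˢ S).filter (fun z => |((dd z.1 z.2 : ℤ) : ℝ)| ≤ D₀)).card : ℝ) ≤ C * ρ * H ^ 2 * (1 + log (1 + H)) * (1 + D₀) := by
  have hl0 : (0 : ℝ) < lam := by linarith
  refine ⟨88 * lam ^ 5, ?_, fun x ρ H S hH hρ hρ5 hS => ?_⟩
  · nlinarith [one_le_pow₀ (n := 5) hl]
  have hH0 : (0 : ℝ) < H := by linarith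
  have hcell : ∀ m ∈ S, m.2 ≠ 0 ∧ |(m.2 : ℝ)| ≤ ρ * (lam * H) ∧ 0 ≤ uu x m ∧ uu x m ≤ lam * H := by
    intro m hm
    obtain ⟨h1, h2, h3, h4⟩ := hS m hm
    exact ⟨h1, h4.trans (mul_le_mul_of_nonneg_left h3 hρ.le), le_trans (by positivity) h2, h3⟩
  have hlH : 1 ≤ lam * H := by nlinarith
  have hM0 : 0 ≤ ρ * (lam * H) := by positivity
  have hpow : lam ^ 2 ≤ lam ^ 5 := pow_le_pow_right₀ hl (by norm_num)
  constructor
  · refine (c4_cell99 (x := x) hM0 (by positivity) S hcell).trans ?_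
    calc 2 * (ρ * (lam * H)) * (lam * H + 1) ≤ 2 * (ρ * (lam * H)) * (2 * (lam * H)) :=
          mul_le_mul_of_nonneg_left (by linarith) (by positivity)
      _ = lam ^ 2 * (4 * ρ * H ^ 2) := by ring
      _ ≤ lam ^ 5 * (4 * ρ * H ^ 2) := mul_le_mul_of_nonneg_right hpow (by positivity)
      _ ≤ 88 * lam ^ 5 * ρ * H ^ 2 := by
          have h1 : 0 ≤ lam ^ 5 * (ρ * H ^ 2) := by positivity
          nlinarith
  · intro D hD
    have h1 : (((S ×ˢ S).filter (fun z => |((dd z.1 z.2 : ℤ) : ℝ)| ≤ D)).card : ℝ) =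
        ∑ k ∈ S, ((S.filter (fun l => |((dd k l : ℤ) : ℝ)| ≤ D)).card : ℝ) := by
      simp only [Finset.card_filter, Nat.cast_sum]
      rw [Finset.sum_product]
    rw [h1]
    have h2 : ∀ k ∈ S, ((S.filter (fun l => |((dd k l : ℤ) : ℝ)| ≤ D)).card : ℝ) ≤
        4 * lam ^ 2 * (Int.gcd k.1 k.2 : ℝ) * (1 + D) := by
      intro k hk
      refine le_trans (le_of_eq ?_) (c4_row99 hl (x := x) hH hD S (fun m hm => (hcell m hm).2.2) (hS k hk).1 (hS k hk).2.1)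
      congr
    refine (Finset.sum_le_sum h2).trans ?_
    rw [← Finset.sum_mul, ← Finset.mul_sum]
    have h3 := c4_gcd99 (x := x) hM0 (by positivity) S hcell
    have hlogH : 0 ≤ log (1 + H) := Real.log_nonneg (by linarith)
    have h4 : log ((⌊ρ * (lam * H)⌋₊ : ℕ) : ℝ) ≤ 5 * lam + log (1 + H) := by
      rcases Nat.eq_zero_or_pos ⌊ρ * (lam * H)⌋₊ with h0 | h0
      · rw [h0, Nat.cast_zero, Real.log_zero]
        positivity
      · have h5 : (0 : ℝ) < ((⌊ρ * (lam * H)⌋₊ : ℕ) : ℝ) := by exact_mod_cast h0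
        have h6 : ((⌊ρ * (lam * H)⌋₊ : ℕ) : ℝ) ≤ 5 * lam * (1 + H) := by
          refine (Nat.floor_le hM0).trans ?_
          calc ρ * (lam * H) ≤ 5 * (lam * H) := mul_le_mul_of_nonneg_right hρ5 (by positivity)
            _ ≤ 5 * lam * (1 + H) := by nlinarith
        refine (Real.log_le_log h5 h6).trans ?_
        rw [Real.log_mul (by positivity) (by positivity)]
        have h7 : log (5 * lam) ≤ 5 * lam - 1 := Real.log_le_sub_one_of_pos (by positivity)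
        linarith
    have h5 : 2 * (ρ * (lam * H)) * (lam * H) * (1 + log ((⌊ρ * (lam * H)⌋₊ : ℕ) : ℝ)) + 2 * (ρ * (lam * H)) ^ 2 ≤
        22 * lam ^ 3 * (ρ * H ^ 2) * (1 + log (1 + H)) := by
      have h6 : 2 * (ρ * (lam * H)) * (lam * H) * (1 + log ((⌊ρ * (lam * H)⌋₊ : ℕ) : ℝ)) ≤
          2 * (ρ * (lam * H)) * (lam * H) * (1 + (5 * lam + log (1 + H))) :=
        mul_le_mul_of_nonneg_left (by linarith) (by positivity)
      have h7 : 2 * (ρ * (lam * H)) ^ 2 ≤ 10 * (lam ^ 2 * (ρ * H ^ 2)) := by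
        have h8 : 0 ≤ lam ^ 2 * (ρ * H ^ 2) := by positivity
        nlinarith
      have h9 : 2 * (1 + (5 * lam + log (1 + H))) + 10 ≤ 22 * lam * (1 + log (1 + H)) := by
        nlinarith
      have h10 : 0 ≤ lam ^ 2 * (ρ * H ^ 2) := by positivity
      calc 2 * (ρ * (lam * H)) * (lam * H) * (1 + log ((⌊ρ * (lam * H)⌋₊ : ℕ) : ℝ)) + 2 * (ρ * (lam * H)) ^ 2 ≤
            2 * (ρ * (lam * H)) * (lam * H) * (1 + (5 * lam + log (1 + H))) + 10 * (lam ^ 2 * (ρ * H ^ 2)) := by linarith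
        _ = lam ^ 2 * (ρ * H ^ 2) * (2 * (1 + (5 * lam + log (1 + H))) + 10) := by ring
        _ ≤ lam ^ 2 * (ρ * H ^ 2) * (22 * lam * (1 + log (1 + H))) := mul_le_mul_of_nonneg_left h9 h10
        _ = 22 * lam ^ 3 * (ρ * H ^ 2) * (1 + log (1 + H)) := by ring
    calc 4 * lam ^ 2 * (∑ k ∈ S, (Int.gcd k.1 k.2 : ℝ)) * (1 + D) ≤
          4 * lam ^ 2 * (22 * lam ^ 3 * (ρ * H ^ 2) * (1 + log (1 + H))) * (1 + D) := by
          refine mul_le_mul_of_nonneg_right ?_ (by linarith)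
          exact mul_le_mul_of_nonneg_left (h3.trans h5) (by positivity)
      _ = 88 * lam ^ 5 * ρ * H ^ 2 * (1 + log (1 + H)) * (1 + D) := by ring

end Pool.Agent.Helper60.LT
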