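import Pool.Agent.Helper60.LT.A4

/-!
# LT-D1: integration over frames in coordinates

PROOF of `int_fr`. `lintegral_prod` on `Fr = ℝ² × ℝ²`; for the first vector `e₁` polar coordinates (`lintegral_comp_polarCoord_symm`: `∫⁻ e₁, g e₁ = ∫⁻ (T, θ) in polarCoord.target, T • g (T cos θ, T sin θ)`, target `Ioi 0 ×ˢ Ioo (-π) π`), for fixed `e₁ = T e_θ` the linear change of variables
`e₂ = T (x e_θ + y e_θ^⊥)`, determinant `T²` (`MeasureTheory.lintegral_image_eq_lintegral_abs_det_fderiv_mul` or `Measure.addHaar` under linear maps; or two one dimensional steps), Tonelli (`lintegral_lintegral_swap`), all functions measurable (`fr_meas`).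
PROOF of `lift`. `T₀ = √(Δ₀/y₀)`. `int_fr` for the indicator of `EE Δ₀ y₀ β` times `F`. If `fr θ y T x ∈ EE Δ₀ y₀ β` (`T > 0`, `fr_coord`) then `y₀/β ≤ y ≤ β y₀`, `T² = df/y ∈ [T₀²/β², β² T₀²]`, `0 ≤ x < 1`; cover `[T₀/β, β T₀]` by the intervals `[X, 2X]`, `X = 2^i T₀/β`, `i ≤ N`, `2^N ≤ β² < 2^(N+1)`
(`X ≤ β T₀`). For each `X` use `h` (`T³ ≤ 8 X³` on the left, `T³ ≥ X³/8` on the right). The points `fr θ y T x` with `y ∈ [y₀/β, β y₀]`, `T ∈ [X/2, 4X]`, `x ∈ [-1, 2]` are in `EX Δ₀ y₀ (16 β³)`. The constant term: `∫ dθ dy 8 X³ X A ≤ 2π β y₀ 8 (β T₀)⁴ A`, `T₀⁴ y₀ = Δ₀²/y₀`.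
-/

open MeasureTheory Real Set Filter Topology

set_option autoImplicit false

namespace Pool.Agent.Helper60.LT

/-- linear change of variables in the plane -/
private theorem lin56 {G : ℝ × ℝ → ENNReal} (hG : Measurable G) (T θ : ℝ) (hT : 0 < T) :
    ∫⁻ v, G v = ENNReal.ofReal (T ^ 2) * ∫⁻ v : ℝ × ℝ, G (T * (v.1 * cos θ - v.2 * sin θ), T * (v.1 * sin θ + v.2 * cos θ)) := by
  set A : (ℝ × ℝ) →ₗ[ℝ] (ℝ × ℝ) := Matrix.toLin (Module.Basis.finTwoProd ℝ) (Module.Basis.finTwoProd ℝ)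
    !![T * cos θ, -(T * sin θ); T * sin θ, T * cos θ] with hA
  have hAv : ∀ v : ℝ × ℝ, A v = (T * (v.1 * cos θ - v.2 * sin θ), T * (v.1 * sin θ + v.2 * cos θ)) := by
    intro v
    rw [hA, Matrix.toLin_finTwoProd_apply]
    ext
    · simp only
      ring
    · simp only
      ring
  have hdet : LinearMap.det A = T ^ 2 := by
    rw [hA, LinearMap.det_toLin, Matrix.det_fin_two_of]
    have := sin_sq_add_cos_sq θ
    linear_combination T ^ 2 * this
  have hdet0 : LinearMap.det A ≠ 0 := by rw [hdet]; positivity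
  have hAm : Measurable A := (LinearMap.continuous_of_finiteDimensional A).measurable
  have h1 := Measure.map_linearMap_addHaar_eq_smul_addHaar (volume : Measure (ℝ × ℝ)) hdet0
  have h2 : ∫⁻ v, G (A v) = ENNReal.ofReal |(LinearMap.det A)⁻¹| * ∫⁻ v, G v := by
    rw [← lintegral_map hG hAm, h1, lintegral_smul_measure, smul_eq_mul]
  have h3 : ∫⁻ v : ℝ × ℝ, G (T * (v.1 * cos θ - v.2 * sin θ), T * (v.1 * sin θ + v.2 * cos θ)) = ∫⁻ v, G (A v) := by
    refine lintegral_congr fun v => ?_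
    rw [hAv]
  rw [h3, h2, hdet, ← mul_assoc, ← ENNReal.ofReal_mul (by positivity), abs_of_pos (by positivity),
    mul_inv_cancel₀ (by positivity), ENNReal.ofReal_one, one_mul]

private theorem pol56 {Φ : ℝ × ℝ → ENNReal} (hΦ : Measurable Φ) :
    ∫⁻ p in polarCoord.target, Φ p = ∫⁻ θ in Ioc (-π) π, ∫⁻ T in Ioi (0 : ℝ), Φ (T, θ) := by
  have ht : polarCoord.target = Ioi (0 : ℝ) ×ˢ Ioo (-π) π := rfl
  have hv : (volume : Measure (ℝ × ℝ)) = (volume : Measure ℝ).prod (volume : Measure ℝ) := rfl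
  rw [ht, hv, ← Measure.prod_restrict, lintegral_prod_symm _ hΦ.aemeasurable, restrict_Ioo_eq_restrict_Ioc]

theorem int_fr {F : Fr → ENNReal} (hF : Measurable F) :
    ∫⁻ f, F f = ∫⁻ θ in Ioc (-π) π, ∫⁻ y, ∫⁻ T in Ioi (0 : ℝ), ∫⁻ x, ENNReal.ofReal (T ^ 3) * F (fr θ y T x) := by
  have hFf : Measurable (fun q : ℝ × ℝ × ℝ × ℝ => F (fr q.1 q.2.1 q.2.2.1 q.2.2.2)) := hF.comp fr_meas
  have hg : Measurable (fun e : ℝ × ℝ => ∫⁻ v : ℝ × ℝ, F (e, v)) := hF.lintegral_prod_right'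
  have h1 : ∫⁻ f, F f = ∫⁻ e : ℝ × ℝ, ∫⁻ v : ℝ × ℝ, F (e, v) := by
    rw [← lintegral_prod _ hF.aemeasurable]
    rfl
  rw [h1, ← lintegral_comp_polarCoord_symm]
  have h2 : ∀ p ∈ polarCoord.target, ENNReal.ofReal p.1 • ∫⁻ v : ℝ × ℝ, F (polarCoord.symm p, v) =
      ∫⁻ y, ∫⁻ x, ENNReal.ofReal (p.1 ^ 3) * F (fr p.2 y p.1 x) := by
    intro p hp
    have hp1 : 0 < p.1 := hp.1
    have hm1 : Measurable (fun v : ℝ × ℝ => F (polarCoord.symm p, v)) := hF.comp (measurable_const.prodMk measurable_id)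
    rw [lin56 hm1 p.1 p.2 hp1, smul_eq_mul, ← mul_assoc, ← ENNReal.ofReal_mul hp1.le]
    have hm2 : Measurable (fun v : ℝ × ℝ => F (fr p.2 v.2 p.1 v.1)) :=
      hFf.comp (measurable_const.prodMk (measurable_snd.prodMk (measurable_const.prodMk measurable_fst)))
    have e1 : ∫⁻ v : ℝ × ℝ, F (polarCoord.symm p, (p.1 * (v.1 * cos p.2 - v.2 * sin p.2), p.1 * (v.1 * sin p.2 + v.2 * cos p.2))) =
        ∫⁻ y, ∫⁻ x, F (fr p.2 y p.1 x) := by
      rw [← lintegral_prod_symm _ hm2.aemeasurable]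
      rfl
    rw [e1, ← lintegral_const_mul]
    · refine lintegral_congr fun y => ?_
      rw [← lintegral_const_mul]
      · refine lintegral_congr fun x => ?_
        congr 2
        ring
      · exact hm2.comp (measurable_id.prodMk measurable_const)
    · exact hm2.lintegral_prod_left'
  have h3 : ∫⁻ p in polarCoord.target, ENNReal.ofReal p.1 • ∫⁻ v : ℝ × ℝ, F (polarCoord.symm p, v) =
      ∫⁻ p in polarCoord.target, ∫⁻ y, ∫⁻ x, ENNReal.ofReal (p.1 ^ 3) * F (fr p.2 y p.1 x) :=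
    setLIntegral_congr_fun polarCoord.open_target.measurableSet h2
  rw [h3]
  have hm4 : Measurable (fun q : (ℝ × ℝ) × ℝ => ∫⁻ x, ENNReal.ofReal (q.1.1 ^ 3) * F (fr q.1.2 q.2 q.1.1 x)) := by
    have h3 : Measurable (fun q : ((ℝ × ℝ) × ℝ) × ℝ => (q.1.1.2, q.1.2, q.1.1.1, q.2)) := by fun_prop
    have h4 : Measurable (fun q : ((ℝ × ℝ) × ℝ) × ℝ => F (fr q.1.1.2 q.1.2 q.1.1.1 q.2)) := hFf.comp h3
    have h5 : Measurable (fun q : ((ℝ × ℝ) × ℝ) × ℝ => ENNReal.ofReal (q.1.1.1 ^ 3)) := by fun_prop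
    exact (h5.mul h4).lintegral_prod_right'
  have hm5 : Measurable (fun p : ℝ × ℝ => ∫⁻ y, ∫⁻ x, ENNReal.ofReal (p.1 ^ 3) * F (fr p.2 y p.1 x)) :=
    hm4.lintegral_prod_right'
  rw [pol56 hm5]
  refine lintegral_congr fun θ => ?_
  rw [lintegral_lintegral_swap]
  exact (hm4.comp ((measurable_fst.prodMk measurable_const).prodMk measurable_snd)).aemeasurable


/-- a larger box of frames -/
def EX (Δ₀ y₀ β : ℝ) : Set Fr :=
  {f | 0 < Tf f ∧ -β ≤ xf f ∧ xf f ≤ β ∧ Δ₀ ≤ β * df f ∧ df f ≤ β * Δ₀ ∧ y₀ ≤ β * yf f ∧ yf f ≤ β * y₀}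

theorem EX_meas (Δ₀ y₀ β : ℝ) : MeasurableSet (EX Δ₀ y₀ β) := by
  have h1 : Measurable Tf := by
    unfold Tf
    fun_prop
  have h2 : Measurable xf := by
    unfold xf
    fun_prop
  have h3 : Measurable df := by
    unfold df
    fun_prop
  have h4 : Measurable yf := by
    unfold yf
    fun_prop
  exact (measurableSet_lt measurable_const h1).inter ((measurableSet_le measurable_const h2).inter
    ((measurableSet_le h2 measurable_const).inter ((measurableSet_le measurable_const (h3.const_mul β)).inter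
    ((measurableSet_le h3 measurable_const).inter ((measurableSet_le measurable_const (h4.const_mul β)).inter
    (measurableSet_le h4 measurable_const))))))

private theorem EE_fr56 {Δ₀ y₀ β θ y T x : ℝ} (hβ : 1 ≤ β) (_hΔ : 0 < Δ₀) (hy₀ : 0 < y₀) (hT : 0 < T)
    (h : fr θ y T x ∈ EE Δ₀ y₀ β) : y₀ ≤ β * y ∧ y ≤ β * y₀ ∧ √(Δ₀ / y₀) ≤ β * T ∧ T ≤ β * √(Δ₀ / y₀) ∧ 0 ≤ x ∧ x ≤ 1 := by
  obtain ⟨e1, e2, e3, e4⟩ := fr_coord (θ := θ) (y := y) (T := T) (x := x) hT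
  obtain ⟨-, h1, h2, h3, h4, h5, h6⟩ := h
  rw [e2] at h1 h2
  rw [e4] at h3 h4
  rw [e3] at h5 h6
  have hβ0 : 0 < β := by linarith
  have hy : 0 < y := by
    by_contra hcon
    push Not at hcon
    nlinarith
  refine ⟨h5, h6, ?_, ?_, h1, h2.le⟩
  · rw [Real.sqrt_le_left (by positivity), div_le_iff₀ hy₀]
    calc Δ₀ ≤ β * (T ^ 2 * y) := h3
      _ ≤ β * (T ^ 2 * (β * y₀)) := by gcongr
      _ = (β * T) ^ 2 * y₀ := by ring
  · have h7 : T / β ≤ √(Δ₀ / y₀) := by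
      apply Real.le_sqrt_of_sq_le
      rw [le_div_iff₀ hy₀]
      have h8 : T ^ 2 * y₀ ≤ β ^ 2 * Δ₀ := by
        calc T ^ 2 * y₀ ≤ T ^ 2 * (β * y) := by gcongr
          _ = β * (T ^ 2 * y) := by ring
          _ ≤ β * (β * Δ₀) := by gcongr
          _ = β ^ 2 * Δ₀ := by ring
      rw [div_pow, div_mul_eq_mul_div, div_le_iff₀ (by positivity)]
      linarith
    rw [div_le_iff₀ hβ0] at h7
    linarith

private theorem EX_fr56 {Δ₀ y₀ β θ y T x : ℝ} (hβ : 1 ≤ β) (hΔ : 0 < Δ₀) (hy₀ : 0 < y₀) (hT : 0 < T)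
    (h1 : y₀ ≤ β * y) (h2 : y ≤ β * y₀) (h3 : √(Δ₀ / y₀) ≤ 2 * β * T) (h4 : T ≤ 4 * β * √(Δ₀ / y₀)) (h5 : -1 ≤ x)
    (h6 : x ≤ 2) : fr θ y T x ∈ EX Δ₀ y₀ (16 * β ^ 3) := by
  obtain ⟨e1, e2, e3, e4⟩ := fr_coord (θ := θ) (y := y) (T := T) (x := x) hT
  have hβ0 : 0 < β := by linarith
  have hy : 0 < y := by
    by_contra hcon
    push Not at hcon
    nlinarith
  have hβ3 : β ≤ β ^ 3 := le_self_pow₀ hβ (by norm_num)
  have hβ3' : β ≤ 16 * β ^ 3 := by linarith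
  have hs : √(Δ₀ / y₀) ^ 2 = Δ₀ / y₀ := Real.sq_sqrt (by positivity)
  have hs2 : √(Δ₀ / y₀) ^ 2 * y₀ = Δ₀ := by
    rw [hs]
    field_simp
  have hs0 : 0 ≤ √(Δ₀ / y₀) := Real.sqrt_nonneg _
  refine ⟨by rw [e1]; exact hT, by rw [e2]; linarith, by rw [e2]; linarith, ?_, ?_, ?_, ?_⟩
  · rw [e4]
    have h7 : √(Δ₀ / y₀) ^ 2 ≤ (2 * β * T) ^ 2 := pow_le_pow_left₀ hs0 h3 2
    calc Δ₀ = √(Δ₀ / y₀) ^ 2 * y₀ := hs2.symm
      _ ≤ (2 * β * T) ^ 2 * (β * y) := mul_le_mul h7 h1 hy₀.le (by positivity)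
      _ = 4 * β ^ 3 * (T ^ 2 * y) := by ring
      _ ≤ 16 * β ^ 3 * (T ^ 2 * y) := by
        refine mul_le_mul_of_nonneg_right ?_ (by positivity)
        have : 0 < β ^ 3 := by positivity
        linarith
  · rw [e4]
    have h7 : T ^ 2 ≤ (4 * β * √(Δ₀ / y₀)) ^ 2 := pow_le_pow_left₀ hT.le h4 2
    calc T ^ 2 * y ≤ (4 * β * √(Δ₀ / y₀)) ^ 2 * (β * y₀) := mul_le_mul h7 h2 hy.le (by positivity)
      _ = 16 * β ^ 3 * (√(Δ₀ / y₀) ^ 2 * y₀) := by ring
      _ = 16 * β ^ 3 * Δ₀ := by rw [hs2]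
  · rw [e3]
    exact h1.trans (mul_le_mul_of_nonneg_right hβ3' hy.le)
  · rw [e3]
    exact h2.trans (mul_le_mul_of_nonneg_right hβ3' hy₀.le)

theorem lift {β : ℝ} (hβ : 1 ≤ β) : ∃ C : ℝ, 1 ≤ C ∧ ∀ (F G : Fr → ENNReal) (A : ENNReal) (Δ₀ y₀ : ℝ), Measurable F → Measurable G → 0 < Δ₀ → 0 < y₀ →
    (∀ θ y X : ℝ, y₀ ≤ β * y → y ≤ β * y₀ → √(Δ₀ / y₀) ≤ β * X → X ≤ β * √(Δ₀ / y₀) →
      ∫⁻ T in Icc X (2 * X), ∫⁻ x in Icc 0 1, F (fr θ y T x) ≤
        (∫⁻ T in Icc (X / 2) (4 * X), ∫⁻ x in Icc (-1) 2, G (fr θ y T x)) + ENNReal.ofReal X * A) →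
    ∫⁻ f in EE Δ₀ y₀ β, F f ≤ ENNReal.ofReal C * ((∫⁻ f in EX Δ₀ y₀ (16 * β ^ 3), G f) + ENNReal.ofReal (Δ₀ ^ 2 / y₀) * A) := by
  have hβ0 : 0 < β := by linarith
  obtain ⟨N, hN1, hN2⟩ := exists_nat_pow_near (x := β ^ 2) (y := 2) (one_le_pow₀ hβ) one_lt_two
  refine ⟨64 * (N + 1) + 16 * π * β ^ 5 * (N + 1), ?_, ?_⟩
  · have h1 : (0 : ℝ) ≤ N := Nat.cast_nonneg N
    have h2 : 0 ≤ 16 * π * β ^ 5 * (N + 1) := by positivity
    linarith
  intro F G A Δ₀ y₀ hF hG hΔ hy₀ h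
  obtain ⟨T₀, hT₀⟩ : ∃ T₀, T₀ = √(Δ₀ / y₀) := ⟨_, rfl⟩
  rw [← hT₀] at h
  have hT₀pos : 0 < T₀ := by
    rw [hT₀]
    exact Real.sqrt_pos.2 (by positivity)
  have hT₀4 : T₀ ^ 4 * y₀ = Δ₀ ^ 2 / y₀ := by
    have h1 : T₀ ^ 2 = Δ₀ / y₀ := by
      rw [hT₀]
      exact Real.sq_sqrt (by positivity)
    have h2 : T₀ ^ 4 = (Δ₀ / y₀) ^ 2 := by
      rw [← h1]
      ring
    rw [h2]
    field_simp
  obtain ⟨X, hX⟩ : ∃ X : Fin (N + 1) → ℝ, ∀ i, X i = 2 ^ (i : ℕ) * (T₀ / β) := ⟨_, fun i => rfl⟩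
  have hXpos : ∀ i, 0 < X i := fun i => by rw [hX]; positivity
  have hX1 : ∀ i, T₀ ≤ β * X i := by
    intro i
    have h1 : (1 : ℝ) ≤ 2 ^ (i : ℕ) := one_le_pow₀ one_le_two
    have h2 : β * X i = 2 ^ (i : ℕ) * T₀ := by
      rw [hX]
      field_simp
    rw [h2]
    nlinarith
  have hX2 : ∀ i, X i ≤ β * T₀ := by
    intro i
    have h1 : (2 : ℝ) ^ (i : ℕ) ≤ β ^ 2 := (pow_le_pow_right₀ one_le_two (Nat.lt_succ_iff.1 i.2)).trans hN1
    rw [hX, ← mul_div_assoc, div_le_iff₀ hβ0]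
    nlinarith
  have hcov : ∀ T, 0 < T → T₀ ≤ β * T → T ≤ β * T₀ → ∃ i, T ∈ Icc (X i) (2 * X i) := by
    intro T hT h1 h2
    have h3 : 1 ≤ β * T / T₀ := by
      rw [le_div_iff₀ hT₀pos]
      linarith
    obtain ⟨n, hn1, hn2⟩ := exists_nat_pow_near h3 one_lt_two
    have h4 : β * T / T₀ ≤ β ^ 2 := by
      rw [div_le_iff₀ hT₀pos]
      nlinarith
    have h5 : n < N + 1 := by
      rw [← pow_lt_pow_iff_right₀ (one_lt_two (α := ℝ))]
      exact lt_of_le_of_lt (hn1.trans h4) hN2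
    refine ⟨⟨n, h5⟩, ?_, ?_⟩
    · rw [hX]
      rw [le_div_iff₀ hT₀pos] at hn1
      rw [← mul_div_assoc, div_le_iff₀ hβ0]
      simp only
      linarith
    · rw [hX]
      rw [div_lt_iff₀ hT₀pos] at hn2
      have e : 2 * (2 ^ n * (T₀ / β)) = 2 ^ (n + 1) * T₀ / β := by
        rw [pow_succ]
        ring
      simp only
      rw [e, le_div_iff₀ hβ0]
      linarith
  -- the claim for fixed `θ`, `y`
  obtain ⟨c, hc⟩ : ∃ c : ENNReal, c = ENNReal.ofReal ((N + 1) * (8 * (β * T₀) ^ 4)) * A := ⟨_, rfl⟩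
  have claim : ∀ θ y : ℝ, ∫⁻ T in Ioi (0 : ℝ), ∫⁻ x, ENNReal.ofReal (T ^ 3) * (EE Δ₀ y₀ β).indicator F (fr θ y T x) ≤
      ENNReal.ofReal (64 * (N + 1)) * (∫⁻ T in Ioi (0 : ℝ), ∫⁻ x, ENNReal.ofReal (T ^ 3) * (EX Δ₀ y₀ (16 * β ^ 3)).indicator G (fr θ y T x)) +
        (Icc 0 (β * y₀)).indicator (fun _ => c) y := by
    intro θ y
    by_cases hy : y₀ ≤ β * y ∧ y ≤ β * y₀
    · obtain ⟨hy1, hy2⟩ := hy
      have hypos : 0 < y := by
        by_contra hcon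
        push Not at hcon
        nlinarith
      rw [indicator_of_mem (show y ∈ Icc 0 (β * y₀) from ⟨hypos.le, hy2⟩)]
      have s1 : ∫⁻ T in Ioi (0 : ℝ), ∫⁻ x, ENNReal.ofReal (T ^ 3) * (EE Δ₀ y₀ β).indicator F (fr θ y T x) ≤
          ∑ i, ∫⁻ T in Icc (X i) (2 * X i), ∫⁻ x, ENNReal.ofReal (T ^ 3) * (EE Δ₀ y₀ β).indicator F (fr θ y T x) := by
        refine le_trans ?_ ((lintegral_iUnion_le (fun i => Icc (X i) (2 * X i)) _).trans (le_of_eq (tsum_fintype _)))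
        rw [← lintegral_indicator measurableSet_Ioi, ← lintegral_indicator (MeasurableSet.iUnion fun i => measurableSet_Icc)]
        refine lintegral_mono fun T => ?_
        by_cases hT : T ∈ Ioi (0 : ℝ)
        · rw [indicator_of_mem hT]
          by_cases hT2 : T ∈ ⋃ i, Icc (X i) (2 * X i)
          · rw [indicator_of_mem hT2]
          · rw [indicator_of_notMem hT2, nonpos_iff_eq_zero]
            have h0 : ∀ x, ENNReal.ofReal (T ^ 3) * (EE Δ₀ y₀ β).indicator F (fr θ y T x) = 0 := by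
              intro x
              rw [indicator_of_notMem, mul_zero]
              intro hmem
              obtain ⟨-, -, h3, h4, -, -⟩ := EE_fr56 hβ hΔ hy₀ hT hmem
              rw [← hT₀] at h3 h4
              exact hT2 (mem_iUnion.2 (hcov T hT h3 h4))
            simp only [h0, lintegral_zero]
        · rw [indicator_of_notMem hT]
          exact zero_le
      have s2 : ∀ i, ∫⁻ T in Icc (X i) (2 * X i), ∫⁻ x, ENNReal.ofReal (T ^ 3) * (EE Δ₀ y₀ β).indicator F (fr θ y T x) ≤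
          ENNReal.ofReal (8 * X i ^ 3) * ∫⁻ T in Icc (X i) (2 * X i), ∫⁻ x in Icc 0 1, F (fr θ y T x) := by
        intro i
        rw [← lintegral_const_mul' _ _ ENNReal.ofReal_ne_top]
        refine setLIntegral_mono' measurableSet_Icc fun T hT => ?_
        rw [← lintegral_const_mul' _ _ ENNReal.ofReal_ne_top, ← lintegral_indicator measurableSet_Icc]
        refine lintegral_mono fun x => ?_
        by_cases hmem : fr θ y T x ∈ EE Δ₀ y₀ β
        · obtain ⟨-, -, -, -, h5, h6⟩ := EE_fr56 hβ hΔ hy₀ (lt_of_lt_of_le (hXpos i) hT.1) hmem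
          rw [indicator_of_mem hmem, indicator_of_mem (show x ∈ Icc (0 : ℝ) 1 from ⟨h5, h6⟩)]
          refine mul_le_mul_left (ENNReal.ofReal_le_ofReal ?_) _
          calc T ^ 3 ≤ (2 * X i) ^ 3 := pow_le_pow_left₀ (le_trans (hXpos i).le hT.1) hT.2 3
            _ = 8 * X i ^ 3 := by ring
        · rw [indicator_of_notMem hmem, mul_zero]
          exact zero_le
      have s3 : ∀ i, ENNReal.ofReal (8 * X i ^ 3) * ∫⁻ T in Icc (X i / 2) (4 * X i), ∫⁻ x in Icc (-1) 2, G (fr θ y T x) ≤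
          ENNReal.ofReal 64 * ∫⁻ T in Ioi (0 : ℝ), ∫⁻ x, ENNReal.ofReal (T ^ 3) * (EX Δ₀ y₀ (16 * β ^ 3)).indicator G (fr θ y T x) := by
        intro i
        rw [← lintegral_const_mul' _ _ ENNReal.ofReal_ne_top, ← lintegral_const_mul' _ _ ENNReal.ofReal_ne_top,
          ← lintegral_indicator measurableSet_Icc, ← lintegral_indicator measurableSet_Ioi]
        refine lintegral_mono fun T => ?_
        by_cases hT : T ∈ Icc (X i / 2) (4 * X i)
        · have hT0 : 0 < T := lt_of_lt_of_le (half_pos (hXpos i)) hT.1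
          rw [indicator_of_mem hT, indicator_of_mem (show T ∈ Ioi (0 : ℝ) from hT0),
            ← lintegral_const_mul' _ _ ENNReal.ofReal_ne_top, ← lintegral_const_mul' _ _ ENNReal.ofReal_ne_top,
            ← lintegral_indicator measurableSet_Icc]
          refine lintegral_mono fun x => ?_
          by_cases hx : x ∈ Icc (-1 : ℝ) 2
          · have h3 : √(Δ₀ / y₀) ≤ 2 * β * T := by
              rw [← hT₀]
              have := hX1 i
              have := hT.1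
              nlinarith
            have h4 : T ≤ 4 * β * √(Δ₀ / y₀) := by
              rw [← hT₀]
              have := hX2 i
              have := hT.2
              nlinarith
            rw [indicator_of_mem hx, indicator_of_mem (EX_fr56 hβ hΔ hy₀ hT0 hy1 hy2 h3 h4 hx.1 hx.2), ← mul_assoc,
              ← ENNReal.ofReal_mul (by norm_num)]
            refine mul_le_mul_left (ENNReal.ofReal_le_ofReal ?_) _
            have h5 : X i ≤ 2 * T := by linarith [hT.1]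
            have h6 := pow_le_pow_left₀ (hXpos i).le h5 3
            calc 8 * X i ^ 3 ≤ 8 * (2 * T) ^ 3 := by linarith
              _ = 64 * T ^ 3 := by ring
          · rw [indicator_of_notMem hx]
            exact zero_le
        · rw [indicator_of_notMem hT]
          exact zero_le
      have s4 : ∀ i, ENNReal.ofReal (8 * X i ^ 3) * (ENNReal.ofReal (X i) * A) ≤ ENNReal.ofReal (8 * (β * T₀) ^ 4) * A := by
        intro i
        rw [← mul_assoc, ← ENNReal.ofReal_mul (by have := hXpos i; positivity)]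
        refine mul_le_mul_left (ENNReal.ofReal_le_ofReal ?_) _
        have h6 := pow_le_pow_left₀ (hXpos i).le (hX2 i) 4
        calc 8 * X i ^ 3 * X i = 8 * X i ^ 4 := by ring
          _ ≤ 8 * (β * T₀) ^ 4 := by linarith
      have s5 : ∀ i, ∫⁻ T in Icc (X i) (2 * X i), ∫⁻ x, ENNReal.ofReal (T ^ 3) * (EE Δ₀ y₀ β).indicator F (fr θ y T x) ≤
          ENNReal.ofReal 64 * (∫⁻ T in Ioi (0 : ℝ), ∫⁻ x, ENNReal.ofReal (T ^ 3) * (EX Δ₀ y₀ (16 * β ^ 3)).indicator G (fr θ y T x)) +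
            ENNReal.ofReal (8 * (β * T₀) ^ 4) * A := by
        intro i
        refine (s2 i).trans ((mul_le_mul_right (h θ y (X i) hy1 hy2 (hX1 i) (hX2 i)) _).trans ?_)
        rw [mul_add]
        exact add_le_add (s3 i) (s4 i)
      refine s1.trans ((Finset.sum_le_sum fun i _ => s5 i).trans ?_)
      rw [Finset.sum_const, Finset.card_univ, Fintype.card_fin, nsmul_eq_mul, mul_add, ← mul_assoc, ← mul_assoc, hc]
      have e1 : ((N + 1 : ℕ) : ENNReal) = ENNReal.ofReal (N + 1) := by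
        rw [← Nat.cast_succ, ENNReal.ofReal_natCast]
      rw [e1, ← ENNReal.ofReal_mul (by positivity), ← ENNReal.ofReal_mul (by positivity), mul_comm (64 : ℝ)]
    · have h0 : ∫⁻ T in Ioi (0 : ℝ), ∫⁻ x, ENNReal.ofReal (T ^ 3) * (EE Δ₀ y₀ β).indicator F (fr θ y T x) = 0 := by
        rw [← nonpos_iff_eq_zero, ← lintegral_zero (μ := volume.restrict (Ioi (0 : ℝ)))]
        refine setLIntegral_mono' measurableSet_Ioi fun T hT => ?_
        rw [nonpos_iff_eq_zero]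
        have h1 : ∀ x, ENNReal.ofReal (T ^ 3) * (EE Δ₀ y₀ β).indicator F (fr θ y T x) = 0 := by
          intro x
          rw [indicator_of_notMem, mul_zero]
          intro hmem
          obtain ⟨h1, h2, -, -, -, -⟩ := EE_fr56 hβ hΔ hy₀ hT hmem
          exact hy ⟨h1, h2⟩
        simp only [h1, lintegral_zero]
      rw [h0]
      exact zero_le
  -- integration
  have hFi : Measurable ((EE Δ₀ y₀ β).indicator F) := hF.indicator (EE_meas _ _ _)
  have hGi : Measurable ((EX Δ₀ y₀ (16 * β ^ 3)).indicator G) := hG.indicator (EX_meas _ _ _)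
  rw [← lintegral_indicator (EE_meas _ _ _), ← lintegral_indicator (EX_meas _ _ _), int_fr hFi, int_fr hGi]
  have hint : ∫⁻ θ in Ioc (-π) π, ∫⁻ y, ∫⁻ T in Ioi (0 : ℝ), ∫⁻ x, ENNReal.ofReal (T ^ 3) * (EE Δ₀ y₀ β).indicator F (fr θ y T x) ≤
      ENNReal.ofReal (64 * (N + 1)) * (∫⁻ θ in Ioc (-π) π, ∫⁻ y, ∫⁻ T in Ioi (0 : ℝ), ∫⁻ x, ENNReal.ofReal (T ^ 3) *
        (EX Δ₀ y₀ (16 * β ^ 3)).indicator G (fr θ y T x)) + ENNReal.ofReal (2 * π) * (ENNReal.ofReal (β * y₀) * c) := by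
    have e1 : ∀ θ : ℝ, ∫⁻ y, ∫⁻ T in Ioi (0 : ℝ), ∫⁻ x, ENNReal.ofReal (T ^ 3) * (EE Δ₀ y₀ β).indicator F (fr θ y T x) ≤
        ENNReal.ofReal (64 * (N + 1)) * (∫⁻ y, ∫⁻ T in Ioi (0 : ℝ), ∫⁻ x, ENNReal.ofReal (T ^ 3) *
          (EX Δ₀ y₀ (16 * β ^ 3)).indicator G (fr θ y T x)) + ENNReal.ofReal (β * y₀) * c := by
      intro θ
      refine (lintegral_mono fun y => claim θ y).trans ?_
      rw [lintegral_add_right _ (measurable_const.indicator measurableSet_Icc), lintegral_const_mul' _ _ ENNReal.ofReal_ne_top,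
        lintegral_indicator measurableSet_Icc, setLIntegral_const, Real.volume_Icc, sub_zero, mul_comm c]
    refine (lintegral_mono fun θ => e1 θ).trans ?_
    rw [lintegral_add_right _ measurable_const, lintegral_const_mul' _ _ ENNReal.ofReal_ne_top, setLIntegral_const, Real.volume_Ioc,
      mul_comm (ENNReal.ofReal (β * y₀) * c)]
    have e2 : π - -π = 2 * π := by ring
    rw [e2]
  refine hint.trans (le_trans (add_le_add (mul_le_mul_left (ENNReal.ofReal_le_ofReal ?_) _) ?_)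
    (le_of_eq (mul_add _ _ _).symm))
  · have : 0 ≤ 16 * π * β ^ 5 * (N + 1) := by positivity
    linarith
  · have e3 : ENNReal.ofReal (2 * π) * (ENNReal.ofReal (β * y₀) * c) =
        ENNReal.ofReal (2 * π * (β * y₀) * ((N + 1) * (8 * (β * T₀) ^ 4))) * A := by
      rw [hc, ENNReal.ofReal_mul (p := 2 * π * (β * y₀)) (by positivity), ENNReal.ofReal_mul (p := 2 * π) (by positivity),
        mul_assoc, mul_assoc]
    have e4 : ENNReal.ofReal (64 * (N + 1) + 16 * π * β ^ 5 * (N + 1)) * (ENNReal.ofReal (Δ₀ ^ 2 / y₀) * A) =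
        ENNReal.ofReal ((64 * (N + 1) + 16 * π * β ^ 5 * (N + 1)) * (T₀ ^ 4 * y₀)) * A := by
      rw [ENNReal.ofReal_mul (p := 64 * (N + 1) + 16 * π * β ^ 5 * (N + 1)) (by positivity), hT₀4]
      exact (mul_assoc _ _ _).symm
    rw [e3, e4]
    refine mul_le_mul_left (ENNReal.ofReal_le_ofReal ?_) _
    have e : 2 * π * (β * y₀) * ((N + 1) * (8 * (β * T₀) ^ 4)) = 16 * π * β ^ 5 * (N + 1) * (T₀ ^ 4 * y₀) := by ring
    rw [e]
    refine mul_le_mul_of_nonneg_right ?_ (by positivity)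
    have : 0 ≤ 64 * ((N : ℝ) + 1) := by positivity
    linarith

end Pool.Agent.Helper60.LT
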