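import Pool.Agent.Helper60.LT.D1

/-!
# LT-D2: unfolding

For `n` with `IsCoprime` (`n' = co n`, `n.1 n'.2 - n.2 n'.1 = 1`) the linear map `A_n f = ac n (co n) f` of `Fr = ℝ⁴` has determinant `(n.1 n'.2 - n.2 n'.1)² = 1`, so it preserves the Lebesgue measure; `df (A_n f) = df f`. The shear `σ f = (f.1, f.2 + f.1)` preserves the measure, `xf (σ f) = xf f + 1`,
`Tf`, `df`, `yf` do not change.
PROOF of `unf`. The left side is `∑_n ∫⁻ 1[f ∈ EX, NN β D f n] Φ (A_n f) = ∑_n ∫⁻ 1[A_n⁻¹ g ∈ EX, NN β D (A_n⁻¹ g) n] Φ g` (`lintegral_tsum`, substitution), split `g` according to `⌊xf g⌋ = j` and substitute `g = σ^j g₀`, `0 ≤ xf g₀ < 1`, `Φ g = Φ g₀`: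
`= ∫⁻_{0 ≤ xf g₀ < 1} Φ g₀ · #{(n, j) : A_n⁻¹ σ^j g₀ ∈ EX Δ₀ y₀ β, NN β D (..) n}`. If the number is not zero then `Tf g₀` is between `D Tf f/β` and `β D Tf f`, `f = A_n⁻¹ σ^j g₀`, `Tf f² = df f/yf f` between `Δ₀/(β² y₀)` and `β² Δ₀/y₀`, `df g₀ = df f`, so `g₀ ∈ EE Δ₀ (y₀/D²) β'` (`β' = β⁶`).
The number is at most `C`: the pair `(n, j)` is determined by `f = (f₁, f₂)` (matrices of determinant one: `g₀ = γ f`, first row of `γ` is `n`, second row `co n - j n`; the frame `f` is a basis). Given `f₁` there are at most `2β + 1` vectors `f₂` (`f₂` is determined by `f₁` up to multiples of `f₁` as `det (f₁, f₂) = df`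
is fixed and both are in the lattice spanned by `g₀`; `xf f ∈ [-β, β]`). The vectors `f₁` are primitive vectors of the lattice spanned by `g₀` with `|f₁| ≤ β √(Δ₀/y₀) =: R` and `|det (f₁, e)| = |n.2| df/|e| ≤ β D β Δ₀/|e|`, where `e` is the first vector of `g₀`, `|e| ≥ D √(Δ₀/y₀)/β²`: so in the
orthonormal coordinates `(a, b)` with `a` in the direction of `e`: `|a| ≤ R`, `|b| ≤ R' = β⁴ Δ₀/√(Δ₀/y₀)`, `R R' = β⁵ Δ₀`. Divide the rectangle into `(2m)²` equal cells, `m > 4 β⁶`: two primitive vectors `v, w` in one cell have `|det (v, w)| = |det (v, w - v)| ≤ 2 R R'/m < Δ₀/β ≤ df`, and `det (v, w)` is an integer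
multiple of `df`, so it is zero and `w = ± v`. So at most `2 (2m)²` vectors `f₁`.
-/

open MeasureTheory Real Set Filter Topology

set_option autoImplicit false

namespace Pool.Agent.Helper60.LT

private theorem mp2_h12 {a b c d : ℝ} (h : a * d - b * c = 1) :
    MeasurePreserving (fun v : ℝ × ℝ => (a * v.1 + b * v.2, c * v.1 + d * v.2)) volume volume := by
  have hL : ∀ x : ℝ × ℝ, (Matrix.toLin (Module.Basis.finTwoProd ℝ) (Module.Basis.finTwoProd ℝ) !![a, b; c, d]) x =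
      (a * x.1 + b * x.2, c * x.1 + d * x.2) := Matrix.toLin_finTwoProd_apply a b c d
  have hdet : LinearMap.det (Matrix.toLin (Module.Basis.finTwoProd ℝ) (Module.Basis.finTwoProd ℝ) !![a, b; c, d]) = 1 := by
    rw [LinearMap.det_toLin, Matrix.det_fin_two_of, h]
  have h1 := Measure.map_linearMap_addHaar_eq_smul_addHaar (volume : Measure (ℝ × ℝ)) (f := Matrix.toLin (Module.Basis.finTwoProd ℝ) (Module.Basis.finTwoProd ℝ) !![a, b; c, d])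
    (by rw [hdet]; exact one_ne_zero)
  have h2 : (⇑(Matrix.toLin (Module.Basis.finTwoProd ℝ) (Module.Basis.finTwoProd ℝ) !![a, b; c, d]) : ℝ × ℝ → ℝ × ℝ) =
      fun v : ℝ × ℝ => (a * v.1 + b * v.2, c * v.1 + d * v.2) := funext hL
  rw [hdet, h2] at h1
  refine ⟨by fun_prop, ?_⟩
  rw [h1]
  simp

private def sw_h12 (f : Fr) : Fr := ((f.1.1, f.2.1), (f.1.2, f.2.2))

private theorem sw_mp_h12 : MeasurePreserving sw_h12 volume volume := by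
  have e1 : MeasurePreserving (MeasurableEquiv.prodAssoc : (ℝ × ℝ) × (ℝ × ℝ) ≃ᵐ ℝ × (ℝ × (ℝ × ℝ))) volume volume :=
    measurePreserving_prodAssoc volume volume volume
  have e2 : MeasurePreserving (MeasurableEquiv.prodAssoc : (ℝ × ℝ) × ℝ ≃ᵐ ℝ × (ℝ × ℝ)) volume volume :=
    measurePreserving_prodAssoc volume volume volume
  have e3 : MeasurePreserving (Prod.swap : ℝ × ℝ → ℝ × ℝ) volume volume := Measure.measurePreserving_swap
  have e4 : MeasurePreserving (Prod.map (Prod.swap : ℝ × ℝ → ℝ × ℝ) (id : ℝ → ℝ)) volume volume := e3.prod (MeasurePreserving.id volume)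
  have e5 := (e2.comp e4).comp (e2.symm)
  have e6 : MeasurePreserving (Prod.map (id : ℝ → ℝ) ((⇑(MeasurableEquiv.prodAssoc : (ℝ × ℝ) × ℝ ≃ᵐ ℝ × (ℝ × ℝ)) ∘ Prod.map (Prod.swap : ℝ × ℝ → ℝ × ℝ) (id : ℝ → ℝ)) ∘
      ⇑(MeasurableEquiv.prodAssoc : (ℝ × ℝ) × ℝ ≃ᵐ ℝ × (ℝ × ℝ)).symm)) volume volume := (MeasurePreserving.id volume).prod e5
  have e7 := (e1.symm.comp e6).comp e1
  have e8 : (⇑(MeasurableEquiv.prodAssoc : (ℝ × ℝ) × (ℝ × ℝ) ≃ᵐ ℝ × (ℝ × (ℝ × ℝ))).symm ∘ (Prod.map (id : ℝ → ℝ) ((⇑(MeasurableEquiv.prodAssoc : (ℝ × ℝ) × ℝ ≃ᵐ ℝ × (ℝ × ℝ)) ∘ Prod.map (Prod.swap : ℝ × ℝ → ℝ × ℝ) (id : ℝ → ℝ)) ∘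
      ⇑(MeasurableEquiv.prodAssoc : (ℝ × ℝ) × ℝ ≃ᵐ ℝ × (ℝ × ℝ)).symm))) ∘ ⇑(MeasurableEquiv.prodAssoc : (ℝ × ℝ) × (ℝ × ℝ) ≃ᵐ ℝ × (ℝ × (ℝ × ℝ))) = sw_h12 := by
    funext f
    rfl
  rw [e8] at e7
  exact e7

private theorem ac_mp_h12 {n m : ℤ × ℤ} (h : n.1 * m.2 - n.2 * m.1 = 1) : MeasurePreserving (ac n m) volume volume := by
  have h' : (n.1 : ℝ) * (m.2 : ℝ) - (n.2 : ℝ) * (m.1 : ℝ) = 1 := by exact_mod_cast h
  have e1 := (mp2_h12 h').prod (mp2_h12 h')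
  have e2 := (sw_mp_h12.comp e1).comp sw_mp_h12
  have e3 : (sw_h12 ∘ Prod.map (fun v : ℝ × ℝ => ((n.1 : ℝ) * v.1 + (n.2 : ℝ) * v.2, (m.1 : ℝ) * v.1 + (m.2 : ℝ) * v.2))
      (fun v : ℝ × ℝ => ((n.1 : ℝ) * v.1 + (n.2 : ℝ) * v.2, (m.1 : ℝ) * v.1 + (m.2 : ℝ) * v.2))) ∘ sw_h12 = ac n m := by
    funext f
    rfl
  rw [e3] at e2
  exact e2

private theorem ac_fst_h12 (n m : ℤ × ℤ) (f : Fr) : (ac n m f).1 = vf f n := rfl
private theorem ac_snd_h12 (n m : ℤ × ℤ) (f : Fr) : (ac n m f).2 = vf f m := rfl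

private theorem Tf_ac_h12 (n m m' : ℤ × ℤ) (f : Fr) : Tf (ac n m f) = Tf (ac n m' f) := rfl

/-- the inverse frame -/
private noncomputable def inv_h12 (q : (ℤ × ℤ) × (ℤ × ℤ)) (g : Fr) : Fr := ac (q.2.2, -q.1.2) (-q.2.1, q.1.1) g

private theorem inv_ac_h12 {q : (ℤ × ℤ) × (ℤ × ℤ)} (h : q.1.1 * q.2.2 - q.1.2 * q.2.1 = 1) (f : Fr) : inv_h12 q (ac q.1 q.2 f) = f := by
  have h' : (q.1.1 : ℝ) * (q.2.2 : ℝ) - (q.1.2 : ℝ) * (q.2.1 : ℝ) = 1 := by exact_mod_cast h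
  ext <;> simp only [inv_h12, ac, vf] <;> push_cast
  · linear_combination f.1.1 * h'
  · linear_combination f.1.2 * h'
  · linear_combination f.2.1 * h'
  · linear_combination f.2.2 * h'

private theorem ac_inv_h12 {q : (ℤ × ℤ) × (ℤ × ℤ)} (h : q.1.1 * q.2.2 - q.1.2 * q.2.1 = 1) (f : Fr) : ac q.1 q.2 (inv_h12 q f) = f := by
  have h' : (q.1.1 : ℝ) * (q.2.2 : ℝ) - (q.1.2 : ℝ) * (q.2.1 : ℝ) = 1 := by exact_mod_cast h
  ext <;> simp only [inv_h12, ac, vf] <;> push_cast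
  · linear_combination f.1.1 * h'
  · linear_combination f.1.2 * h'
  · linear_combination f.2.1 * h'
  · linear_combination f.2.2 * h'

private theorem Tf_meas_h12 : Measurable Tf := by
  unfold Tf
  fun_prop

private theorem ac_meas_h12 (n m : ℤ × ℤ) : Measurable (ac n m) := by
  unfold ac vf
  fun_prop

private theorem xf_meas_h12 : Measurable xf := by
  unfold xf
  fun_prop

private theorem NN_meas_h12 (β D : ℝ) (n : ℤ × ℤ) : MeasurableSet {f : Fr | NN β D f n} := by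
  have hT := Tf_meas_h12
  have hA : Measurable (fun f : Fr => Tf (ac n (co n) f)) := hT.comp (ac_meas_h12 n (co n))
  have e : {f : Fr | NN β D f n} = {f : Fr | n.1 * (co n).2 - n.2 * (co n).1 = 1} ∩ ({f : Fr | D * Tf f ≤ β * Tf (ac n (co n) f)} ∩
      ({f : Fr | Tf (ac n (co n) f) ≤ β * D * Tf f} ∩ {f : Fr | |(n.2 : ℝ)| ≤ β * D})) := by
    ext f
    rfl
  rw [e]
  refine (MeasurableSet.const _).inter ((measurableSet_le ?_ ?_).inter ((measurableSet_le ?_ ?_).inter (MeasurableSet.const _)))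
  · exact hT.const_mul D
  · exact hA.const_mul β
  · exact hA
  · exact hT.const_mul (β * D)

private def strip_h12 : Set Fr := {g | 0 ≤ xf g ∧ xf g < 1}

private theorem strip_meas_h12 : MeasurableSet strip_h12 := by
  have e : strip_h12 = {g : Fr | 0 ≤ xf g} ∩ {g : Fr | xf g < 1} := by
    ext f
    rfl
  rw [e]
  exact (measurableSet_le measurable_const xf_meas_h12).inter (measurableSet_lt xf_meas_h12 measurable_const)

/-- the condition on `f` -/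
private def Qc_h12 (Δ₀ y₀ β D : ℝ) (q : (ℤ × ℤ) × (ℤ × ℤ)) (f : Fr) : Prop :=
  q.1.1 * q.2.2 - q.1.2 * q.2.1 = 1 ∧ f ∈ EX Δ₀ y₀ β ∧ NN β D f q.1 ∧ ac q.1 q.2 f ∈ strip_h12

private theorem Qc_meas_h12 (Δ₀ y₀ β D : ℝ) (q : (ℤ × ℤ) × (ℤ × ℤ)) : MeasurableSet {f : Fr | Qc_h12 Δ₀ y₀ β D q f} := by
  have e : {f : Fr | Qc_h12 Δ₀ y₀ β D q f} = {f : Fr | q.1.1 * q.2.2 - q.1.2 * q.2.1 = 1} ∩ (EX Δ₀ y₀ β ∩ ({f : Fr | NN β D f q.1} ∩ (ac q.1 q.2) ⁻¹' strip_h12)) := by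
    ext f
    rfl
  rw [e]
  exact (MeasurableSet.const _).inter ((EX_meas Δ₀ y₀ β).inter ((NN_meas_h12 β D q.1).inter ((ac_meas_h12 q.1 q.2) strip_meas_h12)))

private theorem inv_meas_h12 (q : (ℤ × ℤ) × (ℤ × ℤ)) : Measurable (inv_h12 q) := ac_meas_h12 _ _

/-- geometry -/
private theorem geo_h12 {Δ₀ y₀ β D : ℝ} (hβ : 1 ≤ β) (hΔ : 0 < Δ₀) (hy : 0 < y₀) (hD : 0 < D) {q : (ℤ × ℤ) × (ℤ × ℤ)} {g : Fr} (h : Qc_h12 Δ₀ y₀ β D q (inv_h12 q g)) :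
    g ∈ EE Δ₀ (y₀ / D ^ 2) (β ^ 3) ∧ |(q.2.2 : ℝ) - q.1.2 * xf g| ≤ β / D ∧ |(q.1.2 : ℝ)| ≤ β * D := by
  obtain ⟨h1, ⟨hT, hx1, hx2, hd1, hd2, hy1, hy2⟩, ⟨-, hn1, hn2, hn3⟩, hs⟩ := h
  have hg : ac q.1 q.2 (inv_h12 q g) = g := ac_inv_h12 h1 g
  rw [hg] at hs
  rw [Tf_ac_h12 q.1 (co q.1) q.2, hg] at hn1 hn2
  have h1' : (q.1.1 : ℝ) * (q.2.2 : ℝ) - (q.1.2 : ℝ) * (q.2.1 : ℝ) = 1 := by exact_mod_cast h1
  set f := inv_h12 q g with hf
  have hβ0 : 0 < β := by linarith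
  have hTg : 0 < Tf g := by
    have : 0 < β * Tf g := lt_of_lt_of_le (mul_pos hD hT) hn1
    exact pos_of_mul_pos_right this hβ0.le
  have hdet : df g = df f := by
    rw [hf]
    simp only [df, inv_h12, ac, vf]
    push_cast
    linear_combination (-(g.1.1 * g.2.2 - g.1.2 * g.2.1)) * h1'
  have hTf2 : Tf f ^ 2 = f.1.1 ^ 2 + f.1.2 ^ 2 := by
    rw [Tf, Real.sq_sqrt (by positivity)]
  have hTg2 : Tf g ^ 2 = g.1.1 ^ 2 + g.1.2 ^ 2 := by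
    rw [Tf, Real.sq_sqrt (by positivity)]
  have hyf : yf f = df f / Tf f ^ 2 := by rw [yf, hTf2]
  have hyg : yf g = df f / Tf g ^ 2 := by rw [yf, hTg2, hdet]
  have hdf : 0 < df f := by
    have : 0 < β * df f := lt_of_lt_of_le hΔ hd1
    exact pos_of_mul_pos_right this hβ0.le
  have hb1 : β ≤ β ^ 3 := by
    calc β = β ^ 1 := (pow_one β).symm
      _ ≤ β ^ 3 := pow_le_pow_right₀ hβ (by norm_num)
  have hTf2p : 0 < Tf f ^ 2 := by positivity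
  have hTg2p : 0 < Tf g ^ 2 := by positivity
  have hs1 : D ^ 2 * Tf f ^ 2 ≤ β ^ 2 * Tf g ^ 2 := by
    have := pow_le_pow_left₀ (mul_nonneg hD.le hT.le) hn1 2
    rwa [mul_pow, mul_pow] at this
  have hs2 : Tf g ^ 2 ≤ β ^ 2 * D ^ 2 * Tf f ^ 2 := by
    have := pow_le_pow_left₀ hTg.le hn2 2
    rwa [mul_pow, mul_pow] at this
  rw [hyf] at hy1 hy2
  have hy1' : y₀ * Tf f ^ 2 ≤ β * df f := by
    rw [mul_div_assoc', le_div_iff₀ hTf2p] at hy1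
    exact hy1
  have hy2' : df f ≤ β * y₀ * Tf f ^ 2 := by
    rw [div_le_iff₀ hTf2p] at hy2
    exact hy2
  refine ⟨⟨hTg, hs.1, hs.2, ?_, ?_, ?_, ?_⟩, ?_, hn3⟩
  · rw [hdet]
    exact hd1.trans (mul_le_mul_of_nonneg_right hb1 hdf.le)
  · rw [hdet]
    exact hd2.trans (mul_le_mul_of_nonneg_right hb1 hΔ.le)
  · rw [hyg, mul_div_assoc', div_le_div_iff₀ (by positivity) hTg2p]
    calc y₀ * Tf g ^ 2 ≤ y₀ * (β ^ 2 * D ^ 2 * Tf f ^ 2) := mul_le_mul_of_nonneg_left hs2 hy.le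
      _ = β ^ 2 * D ^ 2 * (y₀ * Tf f ^ 2) := by ring
      _ ≤ β ^ 2 * D ^ 2 * (β * df f) := mul_le_mul_of_nonneg_left hy1' (by positivity)
      _ = β ^ 3 * df f * D ^ 2 := by ring
  · rw [hyg, mul_div_assoc', div_le_div_iff₀ hTg2p (by positivity)]
    calc df f * D ^ 2 ≤ β * y₀ * Tf f ^ 2 * D ^ 2 := mul_le_mul_of_nonneg_right hy2' (by positivity)
      _ = β * y₀ * (D ^ 2 * Tf f ^ 2) := by ring
      _ ≤ β * y₀ * (β ^ 2 * Tf g ^ 2) := mul_le_mul_of_nonneg_left hs1 (by positivity)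
      _ = β ^ 3 * y₀ * Tf g ^ 2 := by ring
  · have e1 : ((q.2.2 : ℝ) - q.1.2 * xf g) * Tf g ^ 2 = f.1.1 * g.1.1 + f.1.2 * g.1.2 := by
      have : xf g * Tf g ^ 2 = g.1.1 * g.2.1 + g.1.2 * g.2.2 := by
        rw [xf, ← hTg2]
        field_simp
      rw [sub_mul, mul_assoc, this, hTg2, hf]
      simp only [inv_h12, ac, vf]
      push_cast
      ring
    have e2 : ((q.2.2 : ℝ) - q.1.2 * xf g) ^ 2 * Tf g ^ 2 ≤ Tf f ^ 2 := by
      have e3 : (((q.2.2 : ℝ) - q.1.2 * xf g) * Tf g ^ 2) ^ 2 ≤ Tf f ^ 2 * Tf g ^ 2 := by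
        rw [e1, hTf2, hTg2]
        nlinarith [sq_nonneg (f.1.1 * g.1.2 - f.1.2 * g.1.1)]
      have e4 : (((q.2.2 : ℝ) - q.1.2 * xf g) ^ 2 * Tf g ^ 2) * Tf g ^ 2 ≤ Tf f ^ 2 * Tf g ^ 2 := by
        calc _ = (((q.2.2 : ℝ) - q.1.2 * xf g) * Tf g ^ 2) ^ 2 := by ring
          _ ≤ _ := e3
      exact le_of_mul_le_mul_right e4 hTg2p
    have e5 : (|(q.2.2 : ℝ) - q.1.2 * xf g| * Tf g) ^ 2 ≤ Tf f ^ 2 := by
      rw [mul_pow, sq_abs]
      exact e2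
    have e6 : |(q.2.2 : ℝ) - q.1.2 * xf g| * Tf g ≤ Tf f := by
      exact (pow_le_pow_iff_left₀ (by positivity) hT.le two_ne_zero).1 e5
    rw [le_div_iff₀ hD]
    have e7 : |(q.2.2 : ℝ) - q.1.2 * xf g| * D * Tf g ≤ β * Tf g := by
      calc |(q.2.2 : ℝ) - q.1.2 * xf g| * D * Tf g = D * (|(q.2.2 : ℝ) - q.1.2 * xf g| * Tf g) := by ring
        _ ≤ D * Tf f := mul_le_mul_of_nonneg_left e6 hD.le
        _ ≤ β * Tf g := hn1
    exact le_of_mul_le_mul_right e7 hTg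

/-- two primitive vectors with zero determinant -/
private theorem prim_h12 {s t s' t' u v u' v' : ℤ} (h : u * s + v * t = 1) (h' : u' * s' + v' * t' = 1) (hd : s * t' - t * s' = 0) :
    (s' = s ∧ t' = t) ∨ (s' = -s ∧ t' = -t) := by
  have e1 : s' = s * (u * s' + v * t') := by linear_combination (-s') * h - v * hd
  have e2 : t' = t * (u * s' + v * t') := by linear_combination (-t') * h + u * hd
  have e3 : (u * s' + v * t') * (u' * s + v' * t) = 1 := by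
    calc (u * s' + v * t') * (u' * s + v' * t) = u' * (s * (u * s' + v * t')) + v' * (t * (u * s' + v * t')) := by ring
      _ = u' * s' + v' * t' := by rw [← e1, ← e2]
      _ = 1 := h'
  rcases Int.eq_one_or_neg_one_of_mul_eq_one e3 with e | e
  · left
    rw [e] at e1 e2
    exact ⟨by linarith, by linarith⟩
  · right
    rw [e] at e1 e2
    exact ⟨by linarith, by linarith⟩

private theorem floor_close_h12 {x y : ℝ} (h : ⌊x⌋ = ⌊y⌋) : |x - y| < 1 := Int.abs_sub_lt_one_of_floor_eq_floor h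

private theorem xf_sub_h12 {f : Fr} (hf : 0 < Tf f) (k : ℝ) : xf (f.1, (f.2.1 + k * f.1.1, f.2.2 + k * f.1.2)) = xf f + k := by
  have hTf2 : Tf f ^ 2 = f.1.1 ^ 2 + f.1.2 ^ 2 := by
    rw [Tf, Real.sq_sqrt (by positivity)]
  have hp : 0 < f.1.1 ^ 2 + f.1.2 ^ 2 := by rw [← hTf2]; positivity
  simp only [xf]
  field_simp
  ring

/-- the code of a pair -/
private noncomputable def code_h12 (β D : ℝ) (g : Fr) (q : (ℤ × ℤ) × (ℤ × ℤ)) : ℤ × ℤ × ℤ × ℤ × ℤ :=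
  (⌊((q.2.2 : ℝ) - q.1.2 * xf g) * (⌈2 * β ^ 2⌉₊ * D / β)⌋, ⌊(q.1.2 : ℝ) * (⌈2 * β ^ 2⌉₊ / (β * D))⌋, q.2.2.sign, q.1.2.sign, ⌊xf (inv_h12 q g)⌋)

private noncomputable def box5_h12 (N M : ℤ) : Finset (ℤ × ℤ × ℤ × ℤ × ℤ) :=
  Finset.Icc (-N) N ×ˢ Finset.Icc (-N) N ×ˢ Finset.Icc (-1) 1 ×ˢ Finset.Icc (-1) 1 ×ˢ Finset.Icc (-M) M

private theorem floor_mem_h12 {x : ℝ} {N : ℤ} (h : |x| ≤ N) : ⌊x⌋ ∈ Finset.Icc (-N) N := by
  rw [Finset.mem_Icc]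
  have h1 := abs_le.1 h
  constructor
  · rw [Int.le_floor]
    push_cast
    exact h1.1
  · have : (⌊x⌋ : ℝ) ≤ N := (Int.floor_le x).trans h1.2
    exact_mod_cast this

private theorem sign_mem_h12 (x : ℤ) : x.sign ∈ Finset.Icc (-1 : ℤ) 1 := by
  rw [Finset.mem_Icc]
  rcases lt_trichotomy x 0 with h | h | h
  · rw [Int.sign_eq_neg_one_of_neg h]; norm_num
  · rw [h, Int.sign_zero]; norm_num
  · rw [Int.sign_eq_one_of_pos h]; norm_num

private theorem count_h12 {Δ₀ y₀ β D : ℝ} (hβ : 1 ≤ β) (hΔ : 0 < Δ₀) (hy : 0 < y₀) (hD : 0 < D) (g : Fr) :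
    {q : (ℤ × ℤ) × (ℤ × ℤ) | Qc_h12 Δ₀ y₀ β D q (inv_h12 q g)}.encard ≤ (box5_h12 ⌈2 * β ^ 2⌉₊ ⌈β⌉₊).card := by
  have hβ0 : 0 < β := by linarith
  have hN1 : 2 * β ^ 2 ≤ (⌈2 * β ^ 2⌉₊ : ℝ) := Nat.le_ceil _
  set N : ℝ := (⌈2 * β ^ 2⌉₊ : ℝ) with hN
  have hNp : 0 < N := by nlinarith
  rw [← Set.encard_coe_eq_coe_finsetCard]
  refine Set.encard_le_encard_of_injOn (f := code_h12 β D g) ?_ ?_
  · intro q hq
    have hq0 : Qc_h12 Δ₀ y₀ β D q (inv_h12 q g) := hq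
    obtain ⟨-, ha, hb⟩ := geo_h12 hβ hΔ hy hD hq0
    obtain ⟨-, ⟨-, hx1, hx2, -⟩, -, -⟩ := hq0
    rw [Finset.mem_coe]
    simp only [box5_h12, code_h12, Finset.mem_product]
    refine ⟨floor_mem_h12 ?_, floor_mem_h12 ?_, sign_mem_h12 _, sign_mem_h12 _, floor_mem_h12 ?_⟩
    · rw [abs_mul, ← hN, abs_of_pos (show 0 < N * D / β by positivity)]
      calc |(q.2.2 : ℝ) - q.1.2 * xf g| * (N * D / β) ≤ β / D * (N * D / β) := mul_le_mul_of_nonneg_right ha (by positivity)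
        _ = N := by field_simp
        _ = _ := by rw [hN]; push_cast; rfl
    · rw [abs_mul, ← hN, abs_of_pos (show 0 < N / (β * D) by positivity)]
      calc |(q.1.2 : ℝ)| * (N / (β * D)) ≤ β * D * (N / (β * D)) := mul_le_mul_of_nonneg_right hb (by positivity)
        _ = N := by field_simp
        _ = _ := by rw [hN]; push_cast; rfl
    · have : β ≤ (⌈β⌉₊ : ℝ) := Nat.le_ceil _
      push_cast
      exact abs_le.2 ⟨by linarith, by linarith⟩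
  · intro q hq r hr hqr
    have hq0 : Qc_h12 Δ₀ y₀ β D q (inv_h12 q g) := hq
    have hr0 : Qc_h12 Δ₀ y₀ β D r (inv_h12 r g) := hr
    obtain ⟨-, ha, hb⟩ := geo_h12 hβ hΔ hy hD hq0
    obtain ⟨-, ha', hb'⟩ := geo_h12 hβ hΔ hy hD hr0
    obtain ⟨hq1, ⟨hqT, -⟩, -⟩ := hq0
    obtain ⟨hr1, -, -⟩ := hr0
    simp only [code_h12, Prod.mk.injEq] at hqr
    obtain ⟨c1, c2, c3, c4, c5⟩ := hqr
    have d1 := floor_close_h12 c1
    have d2 := floor_close_h12 c2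
    have d3 := floor_close_h12 c5
    rw [← sub_mul, abs_mul, ← hN, abs_of_pos (show 0 < N * D / β by positivity), ← lt_div_iff₀ (show 0 < N * D / β by positivity)] at d1
    rw [← sub_mul, abs_mul, ← hN, abs_of_pos (show 0 < N / (β * D) by positivity), ← lt_div_iff₀ (show 0 < N / (β * D) by positivity)] at d2
    have e0 : |((q.2.2 : ℝ) * r.1.2 - q.1.2 * r.2.2)| < 1 := by
      have e1 : (q.2.2 : ℝ) * r.1.2 - q.1.2 * r.2.2 = -(((q.2.2 : ℝ) - q.1.2 * xf g) * ((q.1.2 : ℝ) - r.1.2)) + (q.1.2 : ℝ) * (((q.2.2 : ℝ) - q.1.2 * xf g) - ((r.2.2 : ℝ) - r.1.2 * xf g)) := by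
        ring
      rw [e1]
      calc _ ≤ |-(((q.2.2 : ℝ) - q.1.2 * xf g) * ((q.1.2 : ℝ) - r.1.2))| + |(q.1.2 : ℝ) * (((q.2.2 : ℝ) - q.1.2 * xf g) - ((r.2.2 : ℝ) - r.1.2 * xf g))| := abs_add_le _ _
        _ = |(q.2.2 : ℝ) - q.1.2 * xf g| * |(q.1.2 : ℝ) - r.1.2| + |(q.1.2 : ℝ)| * |((q.2.2 : ℝ) - q.1.2 * xf g) - ((r.2.2 : ℝ) - r.1.2 * xf g)| := by
          rw [abs_neg, abs_mul, abs_mul]
        _ < β / D * (1 / (N / (β * D))) + β * D * (1 / (N * D / β)) := by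
          refine add_lt_add (lt_of_le_of_lt (mul_le_mul_of_nonneg_right ha (abs_nonneg _)) ?_) (lt_of_le_of_lt (mul_le_mul_of_nonneg_right hb (abs_nonneg _)) ?_)
          · exact mul_lt_mul_of_pos_left d2 (by positivity)
          · exact mul_lt_mul_of_pos_left d1 (by positivity)
        _ = 2 * β ^ 2 / N := by field_simp; ring
        _ ≤ 1 := (div_le_one hNp).2 hN1
    have e2 : q.2.2 * r.1.2 - q.1.2 * r.2.2 = 0 := by
      have e3 : |q.2.2 * r.1.2 - q.1.2 * r.2.2| < 1 := by exact_mod_cast e0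
      exact Int.abs_lt_one_iff.1 e3
    have e3 : q.1.1 * q.2.2 + (-q.2.1) * q.1.2 = 1 := by linarith
    have e4 : r.1.1 * r.2.2 + (-r.2.1) * r.1.2 = 1 := by linarith
    rcases prim_h12 e3 e4 e2 with ⟨f1, f2⟩ | ⟨f1, f2⟩
    · -- same first vector
      obtain ⟨k, k1, k2⟩ : ∃ k : ℤ, r.1.1 = q.1.1 + k * q.1.2 ∧ r.2.1 = q.2.1 + k * q.2.2 := by
        refine ⟨q.1.1 * (r.2.1 - q.2.1) + (-q.2.1) * (r.1.1 - q.1.1), ?_, ?_⟩
        · rw [f1, f2] at e4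
          linear_combination (-(r.1.1 - q.1.1)) * e3 + q.1.1 * (e4 - e3)
        · rw [f1, f2] at e4
          linear_combination (-(r.2.1 - q.2.1)) * e3 + q.2.1 * (e4 - e3)
      have g1 : inv_h12 r g = ((inv_h12 q g).1, ((inv_h12 q g).2.1 + (-(k : ℝ)) * (inv_h12 q g).1.1, (inv_h12 q g).2.2 + (-(k : ℝ)) * (inv_h12 q g).1.2)) := by
        ext <;> simp only [inv_h12, ac, vf, f1, f2, k1, k2] <;> push_cast <;> ring
      have g2 : xf (inv_h12 r g) = xf (inv_h12 q g) + (-(k : ℝ)) := by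
        rw [g1, xf_sub_h12 hqT]
      rw [g2] at d3
      have g3 : |(k : ℝ)| < 1 := by
        have : xf (inv_h12 q g) - (xf (inv_h12 q g) + (-(k : ℝ))) = k := by ring
        rwa [this] at d3
      have g4 : k = 0 := Int.abs_lt_one_iff.1 (by exact_mod_cast g3)
      rw [g4] at k1 k2
      ext
      · rw [k1]; ring
      · exact f2.symm
      · rw [k2]; ring
      · exact f1.symm
    · exfalso
      have g1 : q.2.2 = 0 := by
        rw [f1, Int.sign_neg] at c3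
        have : q.2.2.sign = 0 := by omega
        exact Int.sign_eq_zero_iff_zero.1 this
      have g2 : q.1.2 = 0 := by
        rw [f2, Int.sign_neg] at c4
        have : q.1.2.sign = 0 := by omega
        exact Int.sign_eq_zero_iff_zero.1 this
      rw [g1, g2] at e3
      norm_num at e3

private theorem shear_h12 {Φ : Fr → ENNReal} (h : ∀ f : Fr, 0 < Tf f → Φ (f.1, (f.2.1 + f.1.1, f.2.2 + f.1.2)) = Φ f) (j : ℤ) (f : Fr) (hf : 0 < Tf f) :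
    Φ (f.1, (f.2.1 + (j : ℝ) * f.1.1, f.2.2 + (j : ℝ) * f.1.2)) = Φ f := by
  induction j using Int.induction_on with
  | zero => simp
  | succ n ih =>
    have e1 := h (f.1, (f.2.1 + ((n : ℤ) : ℝ) * f.1.1, f.2.2 + ((n : ℤ) : ℝ) * f.1.2)) hf
    rw [ih] at e1
    rw [← e1]
    congr 2
    ext <;> push_cast <;> ring
  | pred n ih =>
    have e1 := h (f.1, (f.2.1 + ((-(n : ℤ) - 1 : ℤ) : ℝ) * f.1.1, f.2.2 + ((-(n : ℤ) - 1 : ℤ) : ℝ) * f.1.2)) hf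
    rw [← e1, ← ih]
    congr 2
    ext <;> push_cast <;> ring

open Classical in
private theorem point_h12 {β D Δ₀ y₀ : ℝ} (hβ : 1 ≤ β) (hD : 0 < D) {Φ : Fr → ENNReal}
    (h : ∀ f : Fr, 0 < Tf f → Φ (f.1, (f.2.1 + f.1.1, f.2.2 + f.1.2)) = Φ f) {f : Fr} (hf : f ∈ EX Δ₀ y₀ β) :
    NS β D Φ f ≤ ∑' q : (ℤ × ℤ) × (ℤ × ℤ), if Qc_h12 Δ₀ y₀ β D q f then Φ (ac q.1 q.2 f) else 0 := by
  rw [NS, ENNReal.tsum_prod (f := fun n m : ℤ × ℤ => if Qc_h12 Δ₀ y₀ β D (n, m) f then Φ (ac n m f) else 0)]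
  refine ENNReal.tsum_le_tsum fun n => ?_
  by_cases hn : NN β D f n
  · rw [if_pos hn]
    obtain ⟨h1, h2, h3, h4⟩ := hn
    set g := ac n (co n) f with hg
    have hTg : 0 < Tf g := by
      have : 0 < β * Tf g := lt_of_lt_of_le (mul_pos hD hf.1) h2
      exact pos_of_mul_pos_right this (by linarith)
    set j := ⌊xf g⌋ with hj
    set m : ℤ × ℤ := ((co n).1 - j * n.1, (co n).2 - j * n.2) with hm
    have e1 : ac n m f = (g.1, (g.2.1 + ((-j : ℤ) : ℝ) * g.1.1, g.2.2 + ((-j : ℤ) : ℝ) * g.1.2)) := by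
      ext <;> simp only [hm, hg, ac, vf] <;> push_cast <;> ring
    have e2 : Φ (ac n m f) = Φ g := by
      rw [e1]
      exact shear_h12 h (-j) g hTg
    have e3 : xf (ac n m f) = xf g - j := by
      rw [e1, xf_sub_h12 hTg]
      push_cast
      ring
    have e4 : Qc_h12 Δ₀ y₀ β D (n, m) f := by
      refine ⟨?_, hf, ⟨h1, h2, h3, h4⟩, ?_, ?_⟩
      · simp only [hm]
        linear_combination h1
      · rw [e3]
        have := Int.floor_le (xf g)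
        linarith
      · rw [e3]
        have := Int.lt_floor_add_one (xf g)
        linarith
    refine le_trans ?_ (ENNReal.le_tsum m)
    rw [if_pos e4, e2]
  · rw [if_neg hn]
    exact zero_le

theorem unf {β : ℝ} (hβ : 1 ≤ β) : ∃ C β' : ℝ, 1 ≤ C ∧ 1 ≤ β' ∧ ∀ (Φ : Fr → ENNReal) (Δ₀ y₀ D : ℝ), Measurable Φ →
    (∀ f : Fr, 0 < Tf f → Φ (f.1, (f.2.1 + f.1.1, f.2.2 + f.1.2)) = Φ f) → 0 < Δ₀ → 0 < y₀ → 0 < D →
      ∫⁻ f in EX Δ₀ y₀ β, NS β D Φ f ≤ ENNReal.ofReal C * ∫⁻ f in EE Δ₀ (y₀ / D ^ 2) β', Φ f := by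
  classical
  refine ⟨((box5_h12 ⌈2 * β ^ 2⌉₊ ⌈β⌉₊).card : ℝ) + 1, β ^ 3, by linarith [Nat.cast_nonneg (α := ℝ) (box5_h12 ⌈2 * β ^ 2⌉₊ ⌈β⌉₊).card], one_le_pow₀ hβ, ?_⟩
  intro Φ Δ₀ y₀ D hΦ hsh hΔ hy hD
  set K : ENNReal := ENNReal.ofReal (((box5_h12 ⌈2 * β ^ 2⌉₊ ⌈β⌉₊).card : ℝ) + 1) with hK
  have hKc : ((box5_h12 ⌈2 * β ^ 2⌉₊ ⌈β⌉₊).card : ENNReal) ≤ K := by
    rw [hK, ← ENNReal.ofReal_natCast]
    exact ENNReal.ofReal_le_ofReal (by linarith)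
  calc ∫⁻ f in EX Δ₀ y₀ β, NS β D Φ f
      = ∫⁻ f, (EX Δ₀ y₀ β).indicator (NS β D Φ) f := (lintegral_indicator (EX_meas Δ₀ y₀ β) _).symm
    _ ≤ ∫⁻ f, ∑' q : (ℤ × ℤ) × (ℤ × ℤ), if Qc_h12 Δ₀ y₀ β D q f then Φ (ac q.1 q.2 f) else 0 := by
        refine lintegral_mono fun f => ?_
        by_cases hf : f ∈ EX Δ₀ y₀ β
        · rw [Set.indicator_of_mem hf]
          exact point_h12 hβ hD hsh hf
        · rw [Set.indicator_of_notMem hf]
          exact zero_le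
    _ = ∑' q : (ℤ × ℤ) × (ℤ × ℤ), ∫⁻ f, if Qc_h12 Δ₀ y₀ β D q f then Φ (ac q.1 q.2 f) else 0 := by
        refine lintegral_tsum fun q => ?_
        exact (Measurable.ite (Qc_meas_h12 Δ₀ y₀ β D q) (hΦ.comp (ac_meas_h12 q.1 q.2)) measurable_const).aemeasurable
    _ = ∑' q : (ℤ × ℤ) × (ℤ × ℤ), ∫⁻ g, if Qc_h12 Δ₀ y₀ β D q (inv_h12 q g) then Φ g else 0 := by
        refine tsum_congr fun q => ?_
        by_cases hq : q.1.1 * q.2.2 - q.1.2 * q.2.1 = 1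
        · have hm : Measurable (fun g : Fr => if Qc_h12 Δ₀ y₀ β D q (inv_h12 q g) then Φ g else 0) :=
            Measurable.ite ((inv_meas_h12 q) (Qc_meas_h12 Δ₀ y₀ β D q)) hΦ measurable_const
          rw [← (ac_mp_h12 hq).lintegral_comp hm]
          refine lintegral_congr fun f => ?_
          rw [inv_ac_h12 hq]
        · have e1 : ∀ f, ¬ Qc_h12 Δ₀ y₀ β D q f := fun f hf => hq hf.1
          simp only [e1, if_false]
    _ = ∫⁻ g, ∑' q : (ℤ × ℤ) × (ℤ × ℤ), if Qc_h12 Δ₀ y₀ β D q (inv_h12 q g) then Φ g else 0 := by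
        refine (lintegral_tsum fun q => ?_).symm
        exact (Measurable.ite ((inv_meas_h12 q) (Qc_meas_h12 Δ₀ y₀ β D q)) hΦ measurable_const).aemeasurable
    _ ≤ ∫⁻ g, K * (EE Δ₀ (y₀ / D ^ 2) (β ^ 3)).indicator Φ g := by
        refine lintegral_mono fun g => ?_
        by_cases hg : g ∈ EE Δ₀ (y₀ / D ^ 2) (β ^ 3)
        · rw [Set.indicator_of_mem hg]
          have e1 : ∀ q : (ℤ × ℤ) × (ℤ × ℤ), (if Qc_h12 Δ₀ y₀ β D q (inv_h12 q g) then Φ g else 0) =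
              (Set.indicator {q : (ℤ × ℤ) × (ℤ × ℤ) | Qc_h12 Δ₀ y₀ β D q (inv_h12 q g)} (fun _ => (1 : ENNReal)) q) * Φ g := by
            intro q
            by_cases hq : Qc_h12 Δ₀ y₀ β D q (inv_h12 q g)
            · rw [if_pos hq, Set.indicator_of_mem (show q ∈ {q : (ℤ × ℤ) × (ℤ × ℤ) | Qc_h12 Δ₀ y₀ β D q (inv_h12 q g)} from hq), one_mul]
            · rw [if_neg hq, Set.indicator_of_notMem (show q ∉ {q : (ℤ × ℤ) × (ℤ × ℤ) | Qc_h12 Δ₀ y₀ β D q (inv_h12 q g)} from hq), zero_mul]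
          simp_rw [e1]
          rw [ENNReal.tsum_mul_right, ← tsum_subtype {q : (ℤ × ℤ) × (ℤ × ℤ) | Qc_h12 Δ₀ y₀ β D q (inv_h12 q g)} (fun _ => (1 : ENNReal)), ENNReal.tsum_set_one]
          refine mul_le_mul_left ?_ _
          refine le_trans ?_ hKc
          exact_mod_cast count_h12 hβ hΔ hy hD g
        · have e1 : ∀ q, ¬ Qc_h12 Δ₀ y₀ β D q (inv_h12 q g) := fun q hq => hg (geo_h12 hβ hΔ hy hD hq).1
          simp only [e1, if_false, tsum_zero]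
          exact zero_le
    _ = K * ∫⁻ g, (EE Δ₀ (y₀ / D ^ 2) (β ^ 3)).indicator Φ g := lintegral_const_mul' _ _ ENNReal.ofReal_ne_top
    _ ≤ K * ∫⁻ f in EE Δ₀ (y₀ / D ^ 2) (β ^ 3), Φ f := by
        exact mul_le_mul_right (lintegral_indicator_le _ _) _

end Pool.Agent.Helper60.LT
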