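import Mathlib

/-!
# LT-D3: coverings by windows

PROOF. `T₁ = X + i X/(4κ)`, `0 ≤ i ≤ 4κ` (all `≤ 2X`), `x₀ = j ξ₁`, `0 ≤ j ≤ 1/ξ₁`: at most `(4κ + 1)(1/ξ₁ + 1) ≤ 10 κ/ξ₁` windows cover `[X, 2X] × [0, 1]`. Sum `h` over the windows. A point `(T, x)` is in at most `(X/2)/(X/(4κ)) + 1 ≤ 3 κ` intervals `[T₁ - X/4, T₁ + X/4]` and in at most
`16 κ ξ₁/ξ₁ + 1 ≤ 17 κ` intervals `[x₀ - 8κ ξ₁, x₀ + 8 κ ξ₁]`, all of them in `[X/2, 4X]` and `[-1, 2]` (write the integrals with indicators, `lintegral_finset_sum`, `lintegral_mono`). See MM.B2 (`count86`, `overlap`), MM.B3 for similar proofs.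
-/

open MeasureTheory Real Set Filter Topology

set_option autoImplicit false

namespace Pool.Agent.Helper60.LT

private theorem h80_count {x x₀ X Y : ℝ} (n : ℕ) (hX : 0 < X) (hY : 0 ≤ Y) :
    (((Finset.range n).filter fun i : ℕ => x ∈ Icc (x₀ + i * X - Y) (x₀ + i * X + Y)).card : ℝ) ≤
      2 * Y / X + 1 := by
  rcases ((Finset.range n).filter fun i : ℕ => x ∈ Icc (x₀ + i * X - Y) (x₀ + i * X + Y)).eq_empty_or_nonempty
    with h | h
  · rw [h, Finset.card_empty]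
    have h1 : 0 ≤ 2 * Y / X := by positivity
    push_cast
    linarith
  · obtain ⟨m, hm, hm'⟩ := Finset.exists_min_image _ id h
    obtain ⟨M, hM, hM'⟩ := Finset.exists_max_image _ id h
    have h1 : ((Finset.range n).filter fun i : ℕ => x ∈ Icc (x₀ + i * X - Y) (x₀ + i * X + Y)) ⊆
        Finset.Icc m M := fun i hi => Finset.mem_Icc.2 ⟨hm' i hi, hM' i hi⟩
    have h2 := Finset.card_le_card h1
    rw [Nat.card_Icc] at h2
    have h3 : m ≤ M := hm' M hM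
    have h4 := (Finset.mem_filter.1 hm).2
    have h5 := (Finset.mem_filter.1 hM).2
    rw [Set.mem_Icc] at h4 h5
    have h6 : ((M : ℝ) - m) * X ≤ 2 * Y := by linarith [h4.2, h5.1]
    have h7 : ((M : ℝ) - m) ≤ 2 * Y / X := by
      rw [le_div_iff₀ hX]
      exact h6
    have h8 : (((Finset.range n).filter fun i : ℕ => x ∈ Icc (x₀ + i * X - Y) (x₀ + i * X + Y)).card : ℝ) ≤
        ((M + 1 - m : ℕ) : ℝ) := by exact_mod_cast h2
    rw [Nat.cast_sub (by omega)] at h8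
    push_cast at h8
    linarith

private theorem h80_cover (f : ℝ → ENNReal) (a δ : ℝ) (hδ : 0 ≤ δ) (n : ℕ) :
    ∫⁻ x in Icc a (a + n * δ), f x ≤ ∑ i ∈ Finset.range n, ∫⁻ x in Icc (a + i * δ) (a + i * δ + δ), f x := by
  induction n with
  | zero => simp
  | succ n ih =>
    rw [Finset.sum_range_succ]
    have hsub : Icc a (a + ((n + 1 : ℕ) : ℝ) * δ) ⊆ Icc a (a + n * δ) ∪ Icc (a + n * δ) (a + n * δ + δ) := by
      intro x hx
      rw [mem_Icc] at hx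
      have h1 : ((n + 1 : ℕ) : ℝ) * δ = n * δ + δ := by push_cast; ring
      rw [h1] at hx
      rcases le_or_gt x (a + n * δ) with h | h
      · exact Or.inl ⟨hx.1, h⟩
      · exact Or.inr ⟨h.le, by linarith [hx.2]⟩
    calc ∫⁻ x in Icc a (a + ((n + 1 : ℕ) : ℝ) * δ), f x
        ≤ ∫⁻ x in Icc a (a + n * δ) ∪ Icc (a + n * δ) (a + n * δ + δ), f x := lintegral_mono_set hsub
      _ ≤ _ := lintegral_union_le _ _ _
      _ ≤ _ := add_le_add ih le_rfl

private theorem h80_overlap {f : ℝ → ENNReal} (hf : Measurable f) (a δ Y c d : ℝ) (hδ : 0 < δ) (hY : 0 ≤ Y) (n : ℕ)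
    (hsub : ∀ i < n, Icc (a + (i : ℕ) * δ - Y) (a + i * δ + Y) ⊆ Icc c d) :
    ∑ i ∈ Finset.range n, ∫⁻ x in Icc (a + i * δ - Y) (a + i * δ + Y), f x ≤
      ENNReal.ofReal (2 * Y / δ + 1) * ∫⁻ x in Icc c d, f x := by
  classical
  have h1 : ∀ i ∈ Finset.range n, ∫⁻ x in Icc (a + i * δ - Y) (a + i * δ + Y), f x =
      ∫⁻ x, (Icc (a + i * δ - Y) (a + i * δ + Y)).indicator f x := fun i _ =>
    (lintegral_indicator measurableSet_Icc f).symm
  rw [Finset.sum_congr rfl h1, ← lintegral_finset_sum _ fun i _ => hf.indicator measurableSet_Icc,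
    ← lintegral_indicator measurableSet_Icc f, ← lintegral_const_mul _ (hf.indicator measurableSet_Icc)]
  refine lintegral_mono fun x => ?_
  show ∑ i ∈ Finset.range n, (Icc (a + i * δ - Y) (a + i * δ + Y)).indicator f x ≤
    ENNReal.ofReal (2 * Y / δ + 1) * (Icc c d).indicator f x
  by_cases hx : x ∈ Icc c d
  · rw [indicator_of_mem hx]
    have h3 : ∑ i ∈ Finset.range n, (Icc (a + i * δ - Y) (a + i * δ + Y)).indicator f x =
        (((Finset.range n).filter fun i : ℕ => x ∈ Icc (a + i * δ - Y) (a + i * δ + Y)).card : ENNReal) * f x := by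
      rw [← nsmul_eq_mul, ← Finset.sum_const, Finset.sum_filter]
      refine Finset.sum_congr rfl fun i _ => ?_
      rw [Set.indicator_apply]
    rw [h3]
    refine mul_le_mul' ?_ le_rfl
    rw [← ENNReal.ofReal_natCast]
    exact ENNReal.ofReal_le_ofReal (h80_count n hδ hY)
  · rw [indicator_of_notMem hx, mul_zero]
    refine le_of_eq (Finset.sum_eq_zero fun i hi => ?_)
    exact indicator_of_notMem (fun h => hx (hsub i (Finset.mem_range.1 hi) h)) _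

theorem grid {F G : ℝ → ℝ → ENNReal} (hF : Measurable (fun z : ℝ × ℝ => F z.1 z.2)) (hG : Measurable (fun z : ℝ × ℝ => G z.1 z.2)) {X κ ξ₁ : ℝ} {A : ENNReal}
    (hX : 0 < X) (hκ : 4 ≤ κ) (hξ : 0 < ξ₁) (hκξ : 16 * κ * ξ₁ ≤ 1)
    (h : ∀ T₁ x₀ : ℝ, X ≤ T₁ → T₁ ≤ 2 * X → 0 ≤ x₀ → x₀ ≤ 1 →
      ∫⁻ T in Icc T₁ (T₁ + X / (4 * κ)), ∫⁻ x in Icc x₀ (x₀ + ξ₁), F T x ≤
        (∫⁻ T in Icc (T₁ - X / 4) (T₁ + X / 4), ∫⁻ x in Icc (x₀ - 8 * κ * ξ₁) (x₀ + 8 * κ * ξ₁), G T x) + A) :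
    ∫⁻ T in Icc X (2 * X), ∫⁻ x in Icc 0 1, F T x ≤
      ENNReal.ofReal (100 * κ ^ 2) * (∫⁻ T in Icc (X / 2) (4 * X), ∫⁻ x in Icc (-1) 2, G T x) + ENNReal.ofReal (10 * κ / ξ₁) * A := by
  have hκ0 : 0 < κ := by linarith
  obtain ⟨δ, hδe⟩ : ∃ δ, δ = X / (4 * κ) := ⟨_, rfl⟩
  have hδ : 0 < δ := by rw [hδe]; positivity
  have hδX : 4 * κ * δ = X := by rw [hδe]; field_simp
  obtain ⟨n, hn⟩ : ∃ n : ℕ, n = ⌈4 * κ⌉₊ := ⟨_, rfl⟩
  obtain ⟨m, hm⟩ : ∃ m : ℕ, m = ⌈1 / ξ₁⌉₊ := ⟨_, rfl⟩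
  have hn1 : 4 * κ ≤ n := by rw [hn]; exact Nat.le_ceil _
  have hn2 : (n : ℝ) < 4 * κ + 1 := by rw [hn]; exact Nat.ceil_lt_add_one (by linarith)
  have hm1 : 1 / ξ₁ ≤ m := by rw [hm]; exact Nat.le_ceil _
  have hm2 : (m : ℝ) < 1 / ξ₁ + 1 := by rw [hm]; exact Nat.ceil_lt_add_one (by positivity)
  have hmF : ∀ a b : ℝ, Measurable fun T => ∫⁻ x in Icc a b, F T x := fun a b => hF.lintegral_prod_right'
  have hmG : ∀ a b : ℝ, Measurable fun T => ∫⁻ x in Icc a b, G T x := fun a b => hG.lintegral_prod_right'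
  -- the covering
  have hc1 : Icc X (2 * X) ⊆ Icc X (X + n * δ) := by
    refine Icc_subset_Icc le_rfl ?_
    have : 4 * κ * δ ≤ n * δ := mul_le_mul_of_nonneg_right hn1 hδ.le
    linarith
  have hc2 : Icc (0 : ℝ) 1 ⊆ Icc 0 (0 + m * ξ₁) := by
    refine Icc_subset_Icc le_rfl ?_
    have : 1 / ξ₁ * ξ₁ ≤ m * ξ₁ := mul_le_mul_of_nonneg_right hm1 hξ.le
    rw [one_div_mul_cancel hξ.ne'] at this
    linarith
  have s1 : ∫⁻ T in Icc X (2 * X), ∫⁻ x in Icc 0 1, F T x ≤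
      ∑ j ∈ Finset.range m, ∑ i ∈ Finset.range n,
        ∫⁻ T in Icc (X + i * δ) (X + i * δ + δ), ∫⁻ x in Icc (0 + j * ξ₁) (0 + j * ξ₁ + ξ₁), F T x := by
    calc ∫⁻ T in Icc X (2 * X), ∫⁻ x in Icc 0 1, F T x
        ≤ ∫⁻ T in Icc X (X + n * δ), ∫⁻ x in Icc 0 1, F T x := lintegral_mono_set hc1
      _ ≤ ∫⁻ T in Icc X (X + n * δ), ∑ j ∈ Finset.range m, ∫⁻ x in Icc (0 + j * ξ₁) (0 + j * ξ₁ + ξ₁), F T x := by
          refine lintegral_mono fun T => ?_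
          exact (lintegral_mono_set hc2).trans (h80_cover (F T) 0 ξ₁ hξ.le m)
      _ = ∑ j ∈ Finset.range m, ∫⁻ T in Icc X (X + n * δ), ∫⁻ x in Icc (0 + j * ξ₁) (0 + j * ξ₁ + ξ₁), F T x :=
          lintegral_finset_sum _ fun j _ => hmF _ _
      _ ≤ _ := Finset.sum_le_sum fun j _ => h80_cover _ X δ hδ.le n
  -- the windows
  have s2 : ∑ j ∈ Finset.range m, ∑ i ∈ Finset.range n,
        ∫⁻ T in Icc (X + i * δ) (X + i * δ + δ), ∫⁻ x in Icc (0 + j * ξ₁) (0 + j * ξ₁ + ξ₁), F T x ≤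
      ∑ j ∈ Finset.range m, ∑ i ∈ Finset.range n,
        ((∫⁻ T in Icc (X + i * δ - X / 4) (X + i * δ + X / 4),
          ∫⁻ x in Icc (0 + j * ξ₁ - 8 * κ * ξ₁) (0 + j * ξ₁ + 8 * κ * ξ₁), G T x) + A) := by
    refine Finset.sum_le_sum fun j hj => Finset.sum_le_sum fun i hi => ?_
    have hi' : ((i : ℝ) + 1) ≤ n := by exact_mod_cast Finset.mem_range.1 hi
    have hj' : ((j : ℝ) + 1) ≤ m := by exact_mod_cast Finset.mem_range.1 hj
    have e1 : 0 ≤ (i : ℝ) * δ := by positivity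
    have e2 : (i : ℝ) * δ ≤ 4 * κ * δ := mul_le_mul_of_nonneg_right (by linarith) hδ.le
    have e3 : 0 ≤ (j : ℝ) * ξ₁ := by positivity
    have e4 : (j : ℝ) * ξ₁ ≤ 1 / ξ₁ * ξ₁ := mul_le_mul_of_nonneg_right (by linarith) hξ.le
    rw [one_div_mul_cancel hξ.ne'] at e4
    have := h (X + i * δ) (0 + j * ξ₁) (by linarith) (by linarith) (by linarith) (by linarith)
    rw [← hδe] at this
    exact this
  -- the overlaps
  have s3 : ∑ j ∈ Finset.range m, ∑ i ∈ Finset.range n,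
        (∫⁻ T in Icc (X + i * δ - X / 4) (X + i * δ + X / 4),
          ∫⁻ x in Icc (0 + j * ξ₁ - 8 * κ * ξ₁) (0 + j * ξ₁ + 8 * κ * ξ₁), G T x) ≤
      ENNReal.ofReal (100 * κ ^ 2) * (∫⁻ T in Icc (X / 2) (4 * X), ∫⁻ x in Icc (-1) 2, G T x) := by
    calc ∑ j ∈ Finset.range m, ∑ i ∈ Finset.range n,
        (∫⁻ T in Icc (X + i * δ - X / 4) (X + i * δ + X / 4),
          ∫⁻ x in Icc (0 + j * ξ₁ - 8 * κ * ξ₁) (0 + j * ξ₁ + 8 * κ * ξ₁), G T x)
        ≤ ∑ j ∈ Finset.range m, ENNReal.ofReal (2 * (X / 4) / δ + 1) * ∫⁻ T in Icc (X / 2) (4 * X),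
            ∫⁻ x in Icc (0 + j * ξ₁ - 8 * κ * ξ₁) (0 + j * ξ₁ + 8 * κ * ξ₁), G T x := by
          refine Finset.sum_le_sum fun j _ => ?_
          refine h80_overlap (hmG _ _) X δ (X / 4) (X / 2) (4 * X) hδ (by positivity) n fun i hi => ?_
          have hi' : ((i : ℝ) + 1) ≤ n := by exact_mod_cast hi
          have e1 : 0 ≤ (i : ℝ) * δ := by positivity
          have e2 : (i : ℝ) * δ ≤ 4 * κ * δ := mul_le_mul_of_nonneg_right (by linarith) hδ.le
          exact Icc_subset_Icc (by linarith) (by linarith)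
      _ = ENNReal.ofReal (2 * (X / 4) / δ + 1) * ∫⁻ T in Icc (X / 2) (4 * X), ∑ j ∈ Finset.range m,
            ∫⁻ x in Icc (0 + j * ξ₁ - 8 * κ * ξ₁) (0 + j * ξ₁ + 8 * κ * ξ₁), G T x := by
          rw [lintegral_finset_sum _ fun j _ => hmG _ _, Finset.mul_sum]
      _ ≤ ENNReal.ofReal (2 * (X / 4) / δ + 1) * ∫⁻ T in Icc (X / 2) (4 * X),
            ENNReal.ofReal (2 * (8 * κ * ξ₁) / ξ₁ + 1) * ∫⁻ x in Icc (-1) 2, G T x := by
          refine mul_le_mul' le_rfl (lintegral_mono fun T => ?_)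
          refine h80_overlap (hG.comp (measurable_const.prodMk measurable_id)) 0 ξ₁ (8 * κ * ξ₁) (-1) 2 hξ (by positivity) m
            fun j hj => ?_
          have hj' : ((j : ℝ) + 1) ≤ m := by exact_mod_cast hj
          have e3 : 0 ≤ (j : ℝ) * ξ₁ := by positivity
          have e4 : (j : ℝ) * ξ₁ ≤ 1 / ξ₁ * ξ₁ := mul_le_mul_of_nonneg_right (by linarith) hξ.le
          rw [one_div_mul_cancel hξ.ne'] at e4
          exact Icc_subset_Icc (by linarith) (by linarith)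
      _ = ENNReal.ofReal (2 * (X / 4) / δ + 1) * ENNReal.ofReal (2 * (8 * κ * ξ₁) / ξ₁ + 1) *
            (∫⁻ T in Icc (X / 2) (4 * X), ∫⁻ x in Icc (-1) 2, G T x) := by
          rw [lintegral_const_mul _ (hmG _ _)]
          exact (mul_assoc _ _ _).symm
      _ ≤ _ := by
          refine mul_le_mul' ?_ le_rfl
          have e5 : 2 * (X / 4) / δ + 1 = 2 * κ + 1 := by
            have e : X / δ = 4 * κ := by
              rw [div_eq_iff hδ.ne']
              exact hδX.symm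
            have e' : 2 * (X / 4) / δ = X / δ / 2 := by ring
            rw [e', e]
            ring
          have e6 : 2 * (8 * κ * ξ₁) / ξ₁ + 1 = 16 * κ + 1 := by
            field_simp
            ring
          rw [e5, e6, ← ENNReal.ofReal_mul (by linarith)]
          refine ENNReal.ofReal_le_ofReal ?_
          nlinarith
  -- the number of windows
  have s4 : ∑ j ∈ Finset.range m, ∑ i ∈ Finset.range n, A ≤ ENNReal.ofReal (10 * κ / ξ₁) * A := by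
    rw [Finset.sum_const, Finset.sum_const, Finset.card_range, Finset.card_range, nsmul_eq_mul, nsmul_eq_mul, ← mul_assoc]
    refine mul_le_mul' ?_ le_rfl
    rw [← ENNReal.ofReal_natCast, ← ENNReal.ofReal_natCast, ← ENNReal.ofReal_mul (by positivity)]
    refine ENNReal.ofReal_le_ofReal ?_
    have e7 : 1 ≤ 1 / ξ₁ := by
      rw [le_div_iff₀ hξ]
      nlinarith
    have e8 : (m : ℝ) ≤ 2 * (1 / ξ₁) := by linarith
    have e9 : (n : ℝ) ≤ 5 * κ := by linarith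
    calc (m : ℝ) * n ≤ 2 * (1 / ξ₁) * (5 * κ) := mul_le_mul e8 e9 (by positivity) (by positivity)
      _ = 10 * κ / ξ₁ := by ring
  refine (s1.trans s2).trans ?_
  simp only [Finset.sum_add_distrib]
  exact add_le_add s3 s4

end Pool.Agent.Helper60.LT
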