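import Pool.Agent.Helper60.LT.B1
import Pool.Agent.Helper60.LT.B3
import Pool.Agent.Helper60.LT.C4
import Pool.Agent.Helper92.GC.T1
import Pool.Agent.Helper92.GC.Q2
import Pool.Agent.Helper78.CG.Main

/-!
# LT-E1: the cusp near the origin, fixed weights

PROOF of `six`. `M`, `C'` from `dec6` with `ε/6` and `c = c₁`, `C₀ = B + 4`, `lam` (`crv6_fy`). `P = min (H²) √(H X₁/C')`. If `P < 1` (so `H X₁ < C'`) all pairs satisfy the condition (`|dd k k'| = u u' |t - t'| ≤ lam² H² 10`) and `n6 ^ 3 ≤ card^5` (`n6_gs_card`, GC.T1). If `P ≥ 1`: `m` with `M^m ≤ P < M^(m+1)`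
(`exists_nat_pow_near`): `dec6` and `n6_gs_card`: `n6 ≤ C' M^(ε m/6) ∑_r (#arc_r)^(5/3)`, Hölder `(∑ x^(5/3))^3 ≤ (∑ x²)² ∑ x`, `∑ #arc_r = #A`, two members of one arc have `|dd| ≤ lam² H² 12/M^m ≤ 12 M lam² H²/P`, `∑ (#arc_r)² ≤` number of pairs (the products `arc_r × arc_r` are disjoint). `M^(ε m/2) ≤ H^ε`.
PROOF of `bad_LL`. `M`, `C'` from `dec12` with `ε' = ε/100` (`crv_fy`, `LL_eq`). For a set `A` of frequencies: `LL v w p x₀ y A a = ∫ Z, w Z ∫ R, v R lf ≤ (#A)^6 sup_Z ∫ R, v R m6 A (a_Z k ee(R ff k))`, `a_Z k = a k ee(Z ff x₀ (gy p y) k)` (`‖tp‖^12 ≤ (#A)^6 ‖tp‖^6`, as `d2_m12` in MM.D2),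
`= (#A)^6 sup_Z n6 (mu v) (gs A a_Z ..)^3` (`n6_slice`, GC.T1) `≤ C H^ε' (#A)^7 P(A)²` (`six`), `P(A)` the number of pairs with `|dd| ≤ D₀ = C (1 + H²/√(H X₁))`. Let `P = min (H²) (1/(C'^(1/3) η))`; if `P < 1` use this for `A = S`; otherwise `m` with `M^m ≤ P < M^(m+1)`, condition of `dec12`:
`C' (1/X₂ + ρ/X₁) ≤ C' H η³ ≤ H M^(-3m)`. So `LL(S)^(1/6) ≤ C H^(3ε') ∑_r (#arc_r)^(7/6) P(arc_r)^(1/3)`, Hölder with exponents `2, 6, 3`: `(∑ (x²)^(1/2) x^(1/6) z^(1/3))^6 ≤ (∑ x²)^3 (∑ x) (∑ z)²`. `∑ (#arc_r)² ≤` pairs with `|dd| ≤ 12 lam² H²/M^m ≤ C (1 + H² η)`, `∑ P(arc_r) ≤` pairs with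
`|dd| ≤ D₀`; `pairs` (C4), `1 + log (1 + H) ≤ C H^ε'`.
-/

open MeasureTheory Real Set Filter Topology

set_option autoImplicit false

namespace Pool.Agent.Helper60.LT

open Pool.Agent.Helper22.AE
open Pool.Agent.Helper92.GC (dt tp Tq uu tt arc gs dd m6)
open Pool.Agent.Helper92.DT (m12 IsMul12)
open Pool.Agent.Helper22.AC (n6 IsWt mu)
open Pool.Agent.Helper78.CG (ff)
open Pool.Agent.Helper78.CD (n12)
open Pool.Agent.Helper78.CE (hs mu2)

open Classical in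
/-- pairs with small determinant -/
private noncomputable def e1P (S : Finset (ℤ × ℤ)) (D : ℝ) : Finset ((ℤ × ℤ) × (ℤ × ℤ)) :=
  (S ×ˢ S).filter (fun z => |((dd z.1 z.2 : ℤ) : ℝ)| ≤ D)

private theorem e1_cub {ι : Type} (s : Finset ι) (f g : ι → ℝ) (hf : ∀ i ∈ s, 0 ≤ f i) (hg : ∀ i ∈ s, 0 ≤ g i) :
    (∑ i ∈ s, f i ^ 2 * g i) ^ 3 ≤ (∑ i ∈ s, f i ^ 3) ^ 2 * ∑ i ∈ s, g i ^ 3 := by
  have hpq : (3 / 2 : ℝ).HolderConjugate 3 := by
    rw [Real.holderConjugate_iff]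
    norm_num
  have h1 := Real.inner_le_Lp_mul_Lq_of_nonneg s hpq (f := fun i => f i ^ 2) (g := g) (fun i hi => by positivity) hg
  have e1 : ∑ i ∈ s, (f i ^ 2) ^ (3 / 2 : ℝ) = ∑ i ∈ s, f i ^ 3 := by
    refine Finset.sum_congr rfl fun i hi => ?_
    rw [← rpow_natCast, ← rpow_mul (hf i hi), ← rpow_natCast]
    norm_num
  have e2 : ∑ i ∈ s, g i ^ (3 : ℝ) = ∑ i ∈ s, g i ^ 3 := by
    refine Finset.sum_congr rfl fun i _ => ?_
    rw [← rpow_natCast]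
    norm_num
  rw [e1, e2] at h1
  have hF : 0 ≤ ∑ i ∈ s, f i ^ 3 := Finset.sum_nonneg fun i hi => pow_nonneg (hf i hi) 3
  have hG : 0 ≤ ∑ i ∈ s, g i ^ 3 := Finset.sum_nonneg fun i hi => pow_nonneg (hg i hi) 3
  have h0 : 0 ≤ ∑ i ∈ s, f i ^ 2 * g i := Finset.sum_nonneg fun i hi => mul_nonneg (by positivity) (hg i hi)
  refine (pow_le_pow_left₀ h0 h1 3).trans (le_of_eq ?_)
  rw [mul_pow, ← rpow_natCast, ← rpow_mul hF, ← rpow_natCast, ← rpow_mul hG]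
  norm_num

private theorem e1_hold1 (N : ℕ) (x : ℕ → ℝ) (hx : ∀ i, 0 ≤ x i) :
    (∑ i ∈ Finset.range N, x i ^ (5 / 3 : ℝ)) ^ 3 ≤ (∑ i ∈ Finset.range N, x i ^ 2) ^ 2 * ∑ i ∈ Finset.range N, x i := by
  have h := e1_cub (Finset.range N) (fun i => x i ^ (2 / 3 : ℝ)) (fun i => x i ^ (1 / 3 : ℝ))
    (fun i _ => rpow_nonneg (hx i) _) (fun i _ => rpow_nonneg (hx i) _)
  have e1 : ∀ i ∈ Finset.range N, (x i ^ (2 / 3 : ℝ)) ^ 2 * x i ^ (1 / 3 : ℝ) = x i ^ (5 / 3 : ℝ) := by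
    intro i _
    rw [← rpow_natCast, ← rpow_mul (hx i), ← rpow_add_of_nonneg (hx i) (by norm_num) (by norm_num)]
    norm_num
  have e2 : ∀ i ∈ Finset.range N, (x i ^ (2 / 3 : ℝ)) ^ 3 = x i ^ 2 := by
    intro i _
    rw [← rpow_natCast, ← rpow_mul (hx i), ← rpow_natCast]
    norm_num
  have e3 : ∀ i ∈ Finset.range N, (x i ^ (1 / 3 : ℝ)) ^ 3 = x i := by
    intro i _
    rw [← rpow_natCast, ← rpow_mul (hx i)]
    norm_num
  rw [Finset.sum_congr rfl e1, Finset.sum_congr rfl e2, Finset.sum_congr rfl e3] at h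
  exact h

private theorem e1_hold2 (N : ℕ) (x z : ℕ → ℝ) (hx : ∀ i, 0 ≤ x i) (hz : ∀ i, 0 ≤ z i) :
    (∑ i ∈ Finset.range N, x i * (x i ^ (1 / 6 : ℝ) * z i ^ (1 / 3 : ℝ))) ^ 6 ≤
      (∑ i ∈ Finset.range N, x i ^ 2) ^ 3 * (∑ i ∈ Finset.range N, x i) * (∑ i ∈ Finset.range N, z i) ^ 2 := by
  have h := e1_cub (Finset.range N) (fun i => z i ^ (1 / 3 : ℝ)) (fun i => x i ^ (1 / 3 : ℝ))
    (fun i _ => rpow_nonneg (hz i) _) (fun i _ => rpow_nonneg (hx i) _)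
  have e2 : ∀ i ∈ Finset.range N, (z i ^ (1 / 3 : ℝ)) ^ 3 = z i := by
    intro i _
    rw [← rpow_natCast, ← rpow_mul (hz i)]
    norm_num
  have e3 : ∀ i ∈ Finset.range N, (x i ^ (1 / 3 : ℝ)) ^ 3 = x i := by
    intro i _
    rw [← rpow_natCast, ← rpow_mul (hx i)]
    norm_num
  rw [Finset.sum_congr rfl e2, Finset.sum_congr rfl e3] at h
  have h2 := Finset.sum_mul_sq_le_sq_mul_sq (Finset.range N) x (fun i => x i ^ (1 / 6 : ℝ) * z i ^ (1 / 3 : ℝ))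
  have e4 : ∀ i ∈ Finset.range N, (x i ^ (1 / 6 : ℝ) * z i ^ (1 / 3 : ℝ)) ^ 2 = (z i ^ (1 / 3 : ℝ)) ^ 2 * x i ^ (1 / 3 : ℝ) := by
    intro i _
    have : (x i ^ (1 / 6 : ℝ)) ^ 2 = x i ^ (1 / 3 : ℝ) := by
      rw [← rpow_natCast, ← rpow_mul (hx i)]
      norm_num
    rw [mul_pow, this]
    ring
  rw [Finset.sum_congr rfl e4] at h2
  have h3 : (∑ i ∈ Finset.range N, x i * (x i ^ (1 / 6 : ℝ) * z i ^ (1 / 3 : ℝ))) ^ 6 =
      ((∑ i ∈ Finset.range N, x i * (x i ^ (1 / 6 : ℝ) * z i ^ (1 / 3 : ℝ))) ^ 2) ^ 3 := by ring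
  rw [h3]
  refine (pow_le_pow_left₀ (by positivity) h2 3).trans ?_
  rw [mul_pow, mul_assoc]
  refine mul_le_mul_of_nonneg_left ?_ (by positivity)
  refine h.trans (le_of_eq ?_)
  ring

private theorem e1_arc_sub {β : ℝ} {S : Finset (ℤ × ℤ)} {N j : ℕ} : arc β S N j ⊆ S := by
  classical
  unfold arc
  exact Finset.filter_subset _ _

private theorem e1_dd {β U δ : ℝ} {k k' : ℤ × ℤ} (hk : 0 < uu β k) (hk' : 0 < uu β k') (hU : uu β k ≤ U) (hU' : uu β k' ≤ U)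
    (ht : |tt β k' - tt β k| ≤ δ) : |((dd k k' : ℤ) : ℝ)| ≤ U ^ 2 * δ := by
  have e1 : (k.2 : ℝ) = tt β k * uu β k := by
    unfold tt
    rw [div_mul_cancel₀ _ hk.ne']
  have e1' : (k'.2 : ℝ) = tt β k' * uu β k' := by
    unfold tt
    rw [div_mul_cancel₀ _ hk'.ne']
  have e2 : (k.1 : ℝ) = uu β k - β * k.2 := by
    unfold uu
    ring
  have e2' : (k'.1 : ℝ) = uu β k' - β * k'.2 := by
    unfold uu
    ring
  have e : ((dd k k' : ℤ) : ℝ) = uu β k * uu β k' * (tt β k' - tt β k) := by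
    unfold dd
    push_cast
    rw [e2, e2']
    have : (uu β k - β * (k.2 : ℝ)) * (k'.2 : ℝ) - (k.2 : ℝ) * (uu β k' - β * (k'.2 : ℝ)) =
      uu β k * (k'.2 : ℝ) - (k.2 : ℝ) * uu β k' := by ring
    rw [this, e1, e1']
    ring
  rw [e, abs_mul, abs_mul, abs_of_pos hk, abs_of_pos hk']
  have hU0 : 0 ≤ U := hk.le.trans hU
  have h1 : uu β k * uu β k' ≤ U * U := mul_le_mul hU hU' hk'.le hU0
  calc uu β k * uu β k' * |tt β k' - tt β k| ≤ (U * U) * δ := mul_le_mul h1 ht (abs_nonneg _) (by positivity)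
    _ = _ := by ring

private theorem e1_arc {β : ℝ} {S : Finset (ℤ × ℤ)} {N j : ℕ} (hN : 1 ≤ N) (hS : ∀ k ∈ S, |tt β k| ≤ 5) {k k' : ℤ × ℤ}
    (hk : k ∈ arc β S N j) (hk' : k' ∈ arc β S N j) : |tt β k' - tt β k| ≤ 12 / N := by
  classical
  unfold arc at hk hk'
  rw [Finset.mem_filter] at hk hk'
  have hN0 : (0 : ℝ) < N := by exact_mod_cast hN
  have a1 := (abs_le.1 (hS k hk.1)).1
  have a2 := (abs_le.1 (hS k' hk'.1)).1
  have f1 := (Nat.floor_eq_iff (by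
    have : 0 ≤ (tt β k + 6) / 12 := by linarith
    positivity)).1 hk.2
  have f2 := (Nat.floor_eq_iff (by
    have : 0 ≤ (tt β k' + 6) / 12 := by linarith
    positivity)).1 hk'.2
  have h7 : |tt β k' - tt β k| * N = |(tt β k' - tt β k) * N| := by rw [abs_mul, abs_of_pos hN0]
  rw [le_div_iff₀ hN0, h7, abs_le]
  constructor <;> linarith [f1.1, f1.2, f2.1, f2.2]

private theorem e1_disj {β : ℝ} {S : Finset (ℤ × ℤ)} {N : ℕ} (F : ℕ → Finset ((ℤ × ℤ) × (ℤ × ℤ))) {T : ℝ}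
    (hF : ∀ j, F j ⊆ arc β S N j ×ˢ arc β S N j) (hT : ∀ j, ∀ q ∈ F j, |((dd q.1 q.2 : ℤ) : ℝ)| ≤ T) :
    ∑ j ∈ Finset.range N, ((F j).card : ℝ) ≤ ((e1P S T).card : ℝ) := by
  classical
  have h4 : ((Finset.range N).biUnion F).card = ∑ j ∈ Finset.range N, (F j).card := by
    refine Finset.card_biUnion fun i _ j _ hij => ?_
    refine Finset.disjoint_left.2 ?_
    rintro ⟨k, k'⟩ h5 h6
    have h7 := (Finset.mem_product.1 (hF _ h5)).1
    have h8 := (Finset.mem_product.1 (hF _ h6)).1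
    unfold arc at h7 h8
    rw [Finset.mem_filter] at h7 h8
    exact hij (h7.2.symm.trans h8.2)
  have h5 : ((Finset.range N).biUnion F) ⊆ e1P S T := by
    intro q hq
    rw [Finset.mem_biUnion] at hq
    obtain ⟨j, -, hj⟩ := hq
    have h7 := (Finset.mem_product.1 (hF _ hj)).1
    have h8 := (Finset.mem_product.1 (hF _ hj)).2
    unfold e1P
    rw [Finset.mem_filter]
    exact ⟨Finset.mem_product.2 ⟨e1_arc_sub h7, e1_arc_sub h8⟩, hT j q hj⟩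
  have h6 := Finset.card_le_card h5
  rw [h4] at h6
  exact_mod_cast h6

private theorem e1_sum {β : ℝ} {S : Finset (ℤ × ℤ)} {N : ℕ} : ∑ j ∈ Finset.range N, ((arc β S N j).card : ℝ) ≤ (S.card : ℝ) := by
  classical
  have h4 : ((Finset.range N).biUnion (fun j => arc β S N j)).card = ∑ j ∈ Finset.range N, (arc β S N j).card := by
    refine Finset.card_biUnion fun i _ j _ hij => ?_
    refine Finset.disjoint_left.2 ?_
    intro k h5 h6
    unfold arc at h5 h6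
    rw [Finset.mem_filter] at h5 h6
    exact hij (h5.2.symm.trans h6.2)
  have h5 : ((Finset.range N).biUnion (fun j => arc β S N j)) ⊆ S := by
    intro q hq
    rw [Finset.mem_biUnion] at hq
    obtain ⟨j, -, hj⟩ := hq
    exact e1_arc_sub hj
  have h6 := Finset.card_le_card h5
  rw [h4] at h6
  exact_mod_cast h6

/-- the squares of the arcs -/
private theorem e1_sq {β U : ℝ} {S : Finset (ℤ × ℤ)} {N : ℕ} (hN : 1 ≤ N) (hS : ∀ k ∈ S, 0 < uu β k ∧ uu β k ≤ U ∧ |tt β k| ≤ 5) :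
    ∑ j ∈ Finset.range N, ((arc β S N j).card : ℝ) ^ 2 ≤ ((e1P S (U ^ 2 * (12 / N))).card : ℝ) := by
  have h7 : ∑ j ∈ Finset.range N, ((arc β S N j).card : ℝ) ^ 2 =
      ∑ j ∈ Finset.range N, ((arc β S N j ×ˢ arc β S N j).card : ℝ) := by
    refine Finset.sum_congr rfl fun j _ => ?_
    rw [Finset.card_product]
    push_cast
    ring
  rw [h7]
  refine e1_disj (fun j => arc β S N j ×ˢ arc β S N j) (fun j => Finset.Subset.refl _) ?_
  intro j q hq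
  have h1 := (Finset.mem_product.1 hq).1
  have h2 := (Finset.mem_product.1 hq).2
  have h3 := hS _ (e1_arc_sub h1)
  have h4 := hS _ (e1_arc_sub h2)
  exact e1_dd h3.1 h4.1 h3.2.1 h4.2.1 (e1_arc hN (fun k hk => (hS k hk).2.2) h1 h2)

private theorem e1P_mono {S : Finset (ℤ × ℤ)} {D D' : ℝ} (h : D ≤ D') : ((e1P S D).card : ℝ) ≤ ((e1P S D').card : ℝ) := by
  classical
  have : e1P S D ⊆ e1P S D' := by
    intro q hq
    unfold e1P at hq ⊢
    rw [Finset.mem_filter] at hq ⊢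
    exact ⟨hq.1, hq.2.trans h⟩
  exact_mod_cast Finset.card_le_card this

private theorem e1P_sub {A S : Finset (ℤ × ℤ)} {D : ℝ} (h : A ⊆ S) : ((e1P A D).card : ℝ) ≤ ((e1P S D).card : ℝ) := by
  classical
  have : e1P A D ⊆ e1P S D := by
    intro q hq
    unfold e1P at hq ⊢
    rw [Finset.mem_filter] at hq ⊢
    exact ⟨Finset.product_subset_product h h hq.1, hq.2⟩
  exact_mod_cast Finset.card_le_card this

open Classical in
theorem six {ε c₁ B lam : ℝ} (hε : 0 < ε) (hc : 0 < c₁) (hc1 : c₁ ≤ 1) (hB : 1 ≤ B) (hl : 1 ≤ lam) : ∃ C : ℝ, 1 ≤ C ∧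
    ∀ (p : ℝ → ℝ) (x₀ y ρ H X₁ : ℝ) (v : ℝ → ℝ) (a : ℤ × ℤ → ℂ) (A : Finset (ℤ × ℤ)), Cv c₁ B p → (∀ k, ‖a k‖ ≤ 1) → 0 < y → 0 < ρ → ρ ≤ 5 →
      y * ρ ≤ k₀ c₁ B → 1 ≤ H → 0 < X₁ → IsWt X₁ v → (∀ k ∈ A, H / lam ≤ uu x₀ k ∧ uu x₀ k ≤ lam * H ∧ |tt x₀ k| ≤ ρ) →
      n6 (mu v) (gs A a (ff x₀ (fy p y))) ^ 3 ≤ C * H ^ ε * (A.card : ℝ) *
        (((A ×ˢ A).filter (fun z => |((dd z.1 z.2 : ℤ) : ℝ)| ≤ C * (1 + H ^ 2 / √(H * X₁)))).card : ℝ) ^ 2 := by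
  classical
  obtain ⟨M, hM, C', hC', h6⟩ := Pool.Agent.Helper78.CG.dec6 (ε := ε / 6) (c := c₁) (C₀ := B + 4) (lam := lam) (by positivity) hc hl
  have hM0 : (1 : ℝ) < M := by exact_mod_cast (by omega : 1 < M)
  have hC0 : 0 < C' := by linarith
  have hsC : 1 ≤ √C' := by rw [one_le_sqrt]; exact hC'
  obtain ⟨K, hK⟩ : ∃ K : ℝ, K = 12 * M * lam ^ 2 * (1 + √C') := ⟨_, rfl⟩
  have hl2 : 1 ≤ lam ^ 2 := one_le_pow₀ hl
  have hK0 : 0 < K := by rw [hK]; positivity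
  obtain ⟨C, hC⟩ : ∃ C : ℝ, C = C' ^ 3 + K := ⟨_, rfl⟩
  have hC3 : 1 ≤ C' ^ 3 := one_le_pow₀ hC'
  have hC1 : 1 ≤ C := by rw [hC]; linarith
  refine ⟨C, hC1, ?_⟩
  intro p x₀ y ρ H X₁ v a A hp ha hy hρ hρ5 hyρ hH hX hv hA
  have hH0 : 0 < H := by linarith
  have hHX : 0 < H * X₁ := by positivity
  have hsH : 0 < √(H * X₁) := sqrt_pos.2 hHX
  have hHe : 1 ≤ H ^ ε := one_le_rpow hH hε.le
  change _ ≤ C * H ^ ε * (A.card : ℝ) * ((e1P A (C * (1 + H ^ 2 / √(H * X₁)))).card : ℝ) ^ 2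
  have hA' : ∀ k ∈ A, 0 < uu x₀ k ∧ uu x₀ k ≤ lam * H ∧ |tt x₀ k| ≤ 5 := fun k hk =>
    ⟨lt_of_lt_of_le (by positivity) (hA k hk).1, (hA k hk).2.1, (hA k hk).2.2.trans hρ5⟩
  rcases le_or_gt 1 (min (H ^ 2) (√(H * X₁ / C'))) with hP | hP
  · obtain ⟨P, hPd⟩ : ∃ P : ℝ, P = min (H ^ 2) (√(H * X₁ / C')) := ⟨_, rfl⟩
    rw [← hPd] at hP
    obtain ⟨m, hm1, hm2⟩ := exists_nat_pow_near hP hM0
    have hP0 : 0 < P := by linarith
    have hMm : (0 : ℝ) < (M : ℝ) ^ m := by positivity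
    have hPH : P ≤ H ^ 2 := by rw [hPd]; exact min_le_left _ _
    have hPX : P ≤ √(H * X₁ / C') := by rw [hPd]; exact min_le_right _ _
    have hcond : C' / X₁ ≤ H * (1 / (M : ℝ) ^ m) ^ 2 := by
      have h1 : ((M : ℝ) ^ m) ^ 2 ≤ H * X₁ / C' := by
        have h2 : (M : ℝ) ^ m ≤ √(H * X₁ / C') := hm1.trans hPX
        have h3 := pow_le_pow_left₀ hMm.le h2 2
        rwa [sq_sqrt (by positivity)] at h3
      rw [one_div, inv_pow, ← div_eq_mul_inv, div_le_div_iff₀ hX (by positivity)]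
      rw [le_div_iff₀ hC0] at h1
      linarith
    have h7 := h6 m x₀ H ρ X₁ (fy p y) v a A hH0 hX hρ hρ5 hA (crv6_fy hc hc1 hB hp hy hρ hyρ) hv hcond
    obtain ⟨x, hx⟩ : ∃ x : ℕ → ℝ, ∀ r, x r = ((arc x₀ A (M ^ m) r).card : ℝ) := ⟨_, fun _ => rfl⟩
    have hx0 : ∀ r, 0 ≤ x r := fun r => by rw [hx]; positivity
    have h8 : ∑ r ∈ Finset.range (M ^ m), n6 (mu v) (gs (arc x₀ A (M ^ m) r) a (ff x₀ (fy p y))) ≤
        ∑ r ∈ Finset.range (M ^ m), x r ^ (5 / 3 : ℝ) := by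
      refine Finset.sum_le_sum fun r _ => ?_
      rw [hx]
      exact Pool.Agent.Helper92.GC.n6_gs_card hv _ ha _
    have hMe : 0 < (M : ℝ) ^ (ε / 6 * (m : ℝ)) := by positivity
    have h9 : n6 (mu v) (gs A a (ff x₀ (fy p y))) ^ 3 ≤
        (C' * (M : ℝ) ^ (ε / 6 * (m : ℝ)) * ∑ r ∈ Finset.range (M ^ m), x r ^ (5 / 3 : ℝ)) ^ 3 := by
      refine pow_le_pow_left₀ (Pool.Agent.Helper22.AC.n6_nonneg _ _) (h7.trans ?_) 3
      exact mul_le_mul_of_nonneg_left h8 (by positivity)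
    have h10 := e1_hold1 (M ^ m) x hx0
    have h11 : ∑ r ∈ Finset.range (M ^ m), x r ≤ (A.card : ℝ) := by
      have := e1_sum (β := x₀) (S := A) (N := M ^ m)
      simpa only [hx] using this
    have hMm1 : 1 ≤ M ^ m := Nat.one_le_pow _ _ (by omega)
    have h12 : ∑ r ∈ Finset.range (M ^ m), x r ^ 2 ≤ ((e1P A (C * (1 + H ^ 2 / √(H * X₁)))).card : ℝ) := by
      have h13 := e1_sq (β := x₀) (S := A) (N := M ^ m) (U := lam * H) hMm1 hA'
      have h14 : ∑ r ∈ Finset.range (M ^ m), x r ^ 2 = ∑ j ∈ Finset.range (M ^ m), ((arc x₀ A (M ^ m) j).card : ℝ) ^ 2 := by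
        simp only [hx]
      rw [h14]
      refine h13.trans (e1P_mono ?_)
      push_cast
      have h15 : P < M * (M : ℝ) ^ m := by rw [pow_succ] at hm2; linarith
      have h16 : 1 / (M : ℝ) ^ m ≤ M / P := by
        rw [div_le_div_iff₀ hMm hP0]
        linarith
      have h17 : 1 / P ≤ 1 / H ^ 2 + √C' / √(H * X₁) := by
        rcases min_choice (H ^ 2) (√(H * X₁ / C')) with h | h
        · rw [hPd, h]
          have : 0 ≤ √C' / √(H * X₁) := by positivity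
          linarith
        · rw [hPd, h, sqrt_div hHX.le, one_div_div]
          have : 0 ≤ 1 / H ^ 2 := by positivity
          linarith
      have h18 : (lam * H) ^ 2 * (12 / (M : ℝ) ^ m) = 12 * lam ^ 2 * H ^ 2 * (1 / (M : ℝ) ^ m) := by ring
      rw [h18]
      have h19 : H ^ 2 * (M / P) ≤ M * (1 + √C' * (H ^ 2 / √(H * X₁))) := by
        have h20 : H ^ 2 * (M / P) = M * (H ^ 2 * (1 / P)) := by ring
        rw [h20]
        refine mul_le_mul_of_nonneg_left ?_ (by positivity)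
        refine (mul_le_mul_of_nonneg_left h17 (by positivity : (0 : ℝ) ≤ H ^ 2)).trans (le_of_eq ?_)
        have : H ^ 2 ≠ 0 := by positivity
        field_simp
      have h21 : 0 ≤ H ^ 2 / √(H * X₁) := by positivity
      calc 12 * lam ^ 2 * H ^ 2 * (1 / (M : ℝ) ^ m) ≤ 12 * lam ^ 2 * H ^ 2 * (M / P) :=
            mul_le_mul_of_nonneg_left h16 (by positivity)
        _ = 12 * lam ^ 2 * (H ^ 2 * (M / P)) := by ring
        _ ≤ 12 * lam ^ 2 * (M * (1 + √C' * (H ^ 2 / √(H * X₁)))) := mul_le_mul_of_nonneg_left h19 (by positivity)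
        _ ≤ 12 * lam ^ 2 * (M * ((1 + √C') * (1 + (H ^ 2 / √(H * X₁))))) := by
            refine mul_le_mul_of_nonneg_left ?_ (by positivity)
            refine mul_le_mul_of_nonneg_left ?_ (by positivity)
            have h22 : (1 + √C') * (1 + H ^ 2 / √(H * X₁)) = 1 + √C' * (H ^ 2 / √(H * X₁)) + (√C' + H ^ 2 / √(H * X₁)) := by ring
            rw [h22]
            linarith [sqrt_nonneg C']
        _ = K * (1 + H ^ 2 / √(H * X₁)) := by rw [hK]; ring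
        _ ≤ C * (1 + H ^ 2 / √(H * X₁)) := by
            refine mul_le_mul_of_nonneg_right ?_ (by positivity)
            rw [hC]
            linarith
    obtain ⟨Q, hQ⟩ : ∃ Q : ℝ, Q = ((e1P A (C * (1 + H ^ 2 / √(H * X₁)))).card : ℝ) := ⟨_, rfl⟩
    rw [← hQ] at h12 ⊢
    have hsx0 : 0 ≤ ∑ r ∈ Finset.range (M ^ m), x r := Finset.sum_nonneg fun r _ => hx0 r
    have hsx2 : 0 ≤ ∑ r ∈ Finset.range (M ^ m), x r ^ 2 := Finset.sum_nonneg fun r _ => by positivity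
    have hMe3 : ((M : ℝ) ^ (ε / 6 * (m : ℝ))) ^ 3 ≤ H ^ ε := by
      have e1 : ((M : ℝ) ^ (ε / 6 * (m : ℝ))) ^ 3 = ((M : ℝ) ^ m) ^ (ε / 2) := by
        rw [← rpow_natCast, ← rpow_mul (by positivity), ← rpow_natCast, ← rpow_mul (by positivity)]
        congr 1
        push_cast
        ring
      rw [e1]
      have e2 : ((M : ℝ) ^ m) ^ (ε / 2) ≤ (H ^ 2) ^ (ε / 2) := rpow_le_rpow hMm.le (hm1.trans hPH) (by positivity)
      refine e2.trans (le_of_eq ?_)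
      rw [← rpow_natCast, ← rpow_mul hH0.le]
      congr 1
      push_cast
      ring
    refine h9.trans ?_
    rw [mul_pow, mul_pow]
    have h22 : (∑ r ∈ Finset.range (M ^ m), x r ^ (5 / 3 : ℝ)) ^ 3 ≤ Q ^ 2 * A.card := by
      refine h10.trans ?_
      exact mul_le_mul (pow_le_pow_left₀ hsx2 h12 2) h11 hsx0 (by positivity)
    calc C' ^ 3 * ((M : ℝ) ^ (ε / 6 * (m : ℝ))) ^ 3 * (∑ r ∈ Finset.range (M ^ m), x r ^ (5 / 3 : ℝ)) ^ 3 ≤
          C' ^ 3 * H ^ ε * (Q ^ 2 * A.card) := by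
          refine mul_le_mul (mul_le_mul_of_nonneg_left hMe3 (by positivity)) h22 ?_ (by positivity)
          exact pow_nonneg (Finset.sum_nonneg fun r _ => rpow_nonneg (hx0 r) _) 3
      _ ≤ C * H ^ ε * (Q ^ 2 * A.card) := by
          refine mul_le_mul_of_nonneg_right ?_ (by positivity)
          refine mul_le_mul_of_nonneg_right ?_ (by positivity)
          rw [hC]
          linarith
      _ = _ := by ring
  · -- all pairs are admissible
    have h1 : √(H * X₁ / C') < 1 := by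
      rcases min_lt_iff.1 hP with h | h
      · have : 1 ≤ H ^ 2 := one_le_pow₀ hH
        linarith
      · exact h
    have h2 : √(H * X₁) ≤ √C' := by
      rw [sqrt_div hHX.le, div_lt_one (by positivity)] at h1
      exact h1.le
    have h3 : e1P A (C * (1 + H ^ 2 / √(H * X₁))) = A ×ˢ A := by
      unfold e1P
      rw [Finset.filter_eq_self]
      intro q hq
      have g1 := hA' _ (Finset.mem_product.1 hq).1
      have g2 := hA' _ (Finset.mem_product.1 hq).2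
      have g3 : |tt x₀ q.2 - tt x₀ q.1| ≤ 10 := by
        have := abs_sub (tt x₀ q.2) (tt x₀ q.1)
        linarith [g1.2.2, g2.2.2]
      refine (e1_dd g1.1 g2.1 g1.2.1 g2.2.1 g3).trans ?_
      have g4 : H ^ 2 ≤ √C' * (H ^ 2 / √(H * X₁)) := by
        rw [← mul_div_assoc, le_div_iff₀ hsH, mul_comm]
        exact mul_le_mul_of_nonneg_right h2 (by positivity)
      have g5 : 0 ≤ H ^ 2 / √(H * X₁) := by positivity
      have g6 : lam ^ 2 * 10 * √C' ≤ C := by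
        rw [hC, hK]
        have : lam ^ 2 * 10 * √C' ≤ 12 * M * lam ^ 2 * (1 + √C') := by
          have t1 : lam ^ 2 * √C' * 10 ≤ lam ^ 2 * √C' * (12 * M) := by
            refine mul_le_mul_of_nonneg_left ?_ (by positivity)
            linarith
          have t2 : 0 ≤ 12 * M * lam ^ 2 := by positivity
          nlinarith
        linarith
      calc (lam * H) ^ 2 * 10 = lam ^ 2 * 10 * H ^ 2 := by ring
        _ ≤ lam ^ 2 * 10 * (√C' * (H ^ 2 / √(H * X₁))) := mul_le_mul_of_nonneg_left g4 (by positivity)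
        _ = (lam ^ 2 * 10 * √C') * (H ^ 2 / √(H * X₁)) := by ring
        _ ≤ C * (H ^ 2 / √(H * X₁)) := mul_le_mul_of_nonneg_right g6 g5
        _ ≤ C * (1 + H ^ 2 / √(H * X₁)) := by
            refine mul_le_mul_of_nonneg_left ?_ (by linarith)
            linarith
    rw [h3, Finset.card_product]
    push_cast
    have h4 := Pool.Agent.Helper92.GC.n6_gs_card hv A ha (ff x₀ (fy p y))
    have h5 : n6 (mu v) (gs A a (ff x₀ (fy p y))) ^ 3 ≤ ((A.card : ℝ) ^ (5 / 3 : ℝ)) ^ 3 :=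
      pow_le_pow_left₀ (Pool.Agent.Helper22.AC.n6_nonneg _ _) h4 3
    have h6' : ((A.card : ℝ) ^ (5 / 3 : ℝ)) ^ 3 = (A.card : ℝ) ^ 5 := by
      rw [← rpow_natCast, ← rpow_mul (by positivity), ← rpow_natCast]
      norm_num
    rw [h6'] at h5
    refine h5.trans ?_
    have h7 : (A.card : ℝ) ^ 5 = 1 * 1 * (A.card : ℝ) * ((A.card : ℝ) * (A.card : ℝ)) ^ 2 := by ring
    rw [h7]
    gcongr

private theorem e1_wt {X : ℝ} {v : ℝ → ℝ} (hv : IsWt X v) : Integrable v := by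
  by_contra hcon
  have h2 := hv.int_one
  rw [integral_undef hcon] at h2
  exact zero_ne_one h2

private theorem e1_tq : IsProbabilityMeasure ((volume : Measure (ℝ × ℝ)).restrict Tq) := by
  constructor
  unfold Tq
  rw [Measure.restrict_apply_univ, Measure.volume_eq_prod, Measure.prod_prod, Real.volume_Icc,
    sub_zero, ENNReal.ofReal_one, mul_one]

private theorem e1_tp_card (S : Finset (ℤ × ℤ)) {b : ℤ × ℤ → ℂ} (hb : ∀ k, ‖b k‖ ≤ 1) (c : ℝ × ℝ) :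
    ‖tp S b c‖ ≤ (S.card : ℝ) := by
  refine (Pool.Agent.Helper92.GC.tp_norm_le S b c).trans ?_
  refine (Finset.sum_le_card_nsmul _ _ 1 fun k _ => hb k).trans (by simp)

private theorem e1_m12 (S : Finset (ℤ × ℤ)) {b : ℤ × ℤ → ℂ} (hb : ∀ k, ‖b k‖ ≤ 1) :
    m12 S b ≤ (S.card : ℝ) ^ 6 * m6 S b := by
  have hp := e1_tq
  have hint : Integrable (fun c => ‖tp S b c‖ ^ 6) (volume.restrict Tq) := by
    refine Integrable.of_bound (C := (S.card : ℝ) ^ 6)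
      ((Pool.Agent.Helper92.GC.tp_cont S b).norm.pow 6).aestronglyMeasurable (Filter.Eventually.of_forall fun c => ?_)
    rw [Real.norm_of_nonneg (by positivity)]
    exact pow_le_pow_left₀ (norm_nonneg _) (e1_tp_card S hb c) 6
  unfold m12 m6
  rw [← integral_const_mul]
  refine integral_mono_of_nonneg (Filter.Eventually.of_forall fun q => by positivity)
      (hint.const_mul _) (Filter.Eventually.of_forall fun c => ?_)
  change ‖tp S b c‖ ^ 12 ≤ _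
  have h4 : ‖tp S b c‖ ^ 12 = ‖tp S b c‖ ^ 6 * ‖tp S b c‖ ^ 6 := by ring
  rw [h4]
  exact mul_le_mul_of_nonneg_right (pow_le_pow_left₀ (norm_nonneg _) (e1_tp_card S hb c) 6) (by positivity)

private theorem e1_cont (S : Finset (ℤ × ℤ)) (a : ℤ × ℤ → ℂ) (f : ℤ × ℤ → ℝ) :
    Continuous (fun R : ℝ => m6 S (fun k => a k * ee (R * f k))) := by
  have hcomp : IsCompact Tq := isCompact_Icc.prod isCompact_Icc
  unfold m6
  refine continuous_parametric_integral_of_continuous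
    (f := fun (R : ℝ) (c : ℝ × ℝ) => ‖tp S (fun k => a k * ee (R * f k)) c‖ ^ 6) ?_ hcomp
  have h1 : Continuous (fun q : ℝ × (ℝ × ℝ) => tp S (fun k => a k * ee (q.1 * f k)) q.2) := by
    unfold tp dt
    refine continuous_finsetSum _ fun k _ => ?_
    refine Continuous.mul (continuous_const.mul (Pool.Agent.Helper22.AE.ee_cont.comp (by fun_prop)))
      (Pool.Agent.Helper22.AE.ee_cont.comp (by fun_prop))
  exact h1.norm.pow 6

private theorem e1_lf_nonneg (p : ℝ → ℝ) (x₀ y : ℝ) (S : Finset (ℤ × ℤ)) (a : ℤ × ℤ → ℂ) (R Z : ℝ) : 0 ≤ lf p x₀ y S a R Z :=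
  integral_nonneg fun c => by positivity

/-- from the twelfth to the sixth moment, for the two weights -/
private theorem e1_LL {X₁ X₂ : ℝ} {v w : ℝ → ℝ} (hv : IsWt X₁ v) (hw : IsWt X₂ w) (p : ℝ → ℝ) (x₀ y : ℝ) (A : Finset (ℤ × ℤ))
    {a : ℤ × ℤ → ℂ} (ha : ∀ k, ‖a k‖ ≤ 1) {Q : ℝ}
    (hQ : ∀ a' : ℤ × ℤ → ℂ, (∀ k, ‖a' k‖ ≤ 1) → n6 (mu v) (gs A a' (ff x₀ (fy p y))) ^ 3 ≤ Q) :
    LL v w p x₀ y A a ≤ (A.card : ℝ) ^ 6 * Q := by
  have hvi := e1_wt hv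
  have hwi := e1_wt hw
  have hsw : LL v w p x₀ y A a = ∫ Z, ∫ R, v R * w Z * lf p x₀ y A a R Z := by
    unfold LL
    refine integral_integral_swap ?_
    have h1 : Integrable (fun q : ℝ × ℝ => v q.1 * w q.2) (volume.prod volume) := hvi.mul_prod hwi
    refine h1.mul_bdd (c := (A.card : ℝ) ^ 12) (lf_cont a).aestronglyMeasurable (Filter.Eventually.of_forall fun q => ?_)
    rw [Real.norm_of_nonneg (e1_lf_nonneg _ _ _ _ _ _ _)]
    exact lf_le ha _ _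
  rw [hsw]
  have h1 : ∀ Z : ℝ, ∫ R, v R * w Z * lf p x₀ y A a R Z ≤ w Z * ((A.card : ℝ) ^ 6 * Q) := by
    intro Z
    obtain ⟨b, hb⟩ : ∃ b : ℤ × ℤ → ℂ, ∀ k, b k = a k * ee (Z * (uu x₀ k * gy p y (tt x₀ k))) := ⟨_, fun _ => rfl⟩
    have hb1 : ∀ k, ‖b k‖ ≤ 1 := fun k => by
      rw [hb, norm_mul, Pool.Agent.Helper22.AE.ee_norm, mul_one]
      exact ha k
    have hs := Pool.Agent.Helper92.GC.n6_slice hv A b (ff x₀ (fy p y))
    have hcb : ∀ R : ℝ, ∀ k, ‖b k * ee (R * ff x₀ (fy p y) k)‖ ≤ 1 := fun R k => by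
      rw [norm_mul, Pool.Agent.Helper22.AE.ee_norm, mul_one]
      exact hb1 k
    have hlf : ∀ R : ℝ, lf p x₀ y A a R Z ≤ (A.card : ℝ) ^ 6 * m6 A (fun k => b k * ee (R * ff x₀ (fy p y) k)) := by
      intro R
      have h2 : lf p x₀ y A a R Z = m12 A (fun k => b k * ee (R * ff x₀ (fy p y) k)) := by
        unfold lf
        congr 1
        funext k
        rw [hb, ee_add]
        unfold ff
        ring
      rw [h2]
      exact e1_m12 A (hcb R)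
    have hint : Integrable (fun R => v R * m6 A (fun k => b k * ee (R * ff x₀ (fy p y) k))) := by
      refine hvi.mul_bdd (c := (A.card : ℝ) ^ 6) (e1_cont A b _).aestronglyMeasurable (Filter.Eventually.of_forall fun R => ?_)
      rw [Real.norm_of_nonneg (Pool.Agent.Helper92.GC.m6_nonneg _ _)]
      exact Pool.Agent.Helper92.GC.m6_card A (hcb R)
    have h3 : ∫ R, v R * w Z * lf p x₀ y A a R Z ≤
        ∫ R, (w Z * (A.card : ℝ) ^ 6) * (v R * m6 A (fun k => b k * ee (R * ff x₀ (fy p y) k))) := by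
      refine integral_mono_of_nonneg (Filter.Eventually.of_forall fun R => ?_) (hint.const_mul _)
        (Filter.Eventually.of_forall fun R => ?_)
      · exact mul_nonneg (mul_nonneg (hv.nonneg R) (hw.nonneg Z)) (e1_lf_nonneg _ _ _ _ _ _ _)
      · change v R * w Z * lf p x₀ y A a R Z ≤ _
        refine (mul_le_mul_of_nonneg_left (hlf R) (mul_nonneg (hv.nonneg R) (hw.nonneg Z))).trans (le_of_eq ?_)
        ring
    refine h3.trans ?_
    rw [integral_const_mul, ← hs]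
    have h4 : 0 ≤ w Z * (A.card : ℝ) ^ 6 := mul_nonneg (hw.nonneg Z) (by positivity)
    refine (mul_le_mul_of_nonneg_left (hQ b hb1) h4).trans (le_of_eq ?_)
    ring
  have h2 : ∫ Z, ∫ R, v R * w Z * lf p x₀ y A a R Z ≤ ∫ Z, w Z * ((A.card : ℝ) ^ 6 * Q) := by
    refine integral_mono_of_nonneg (Filter.Eventually.of_forall fun Z => ?_) (hwi.mul_const _) (Filter.Eventually.of_forall h1)
    exact integral_nonneg fun R => mul_nonneg (mul_nonneg (hv.nonneg R) (hw.nonneg Z)) (e1_lf_nonneg _ _ _ _ _ _ _)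
  refine h2.trans (le_of_eq ?_)
  rw [integral_mul_const, hw.int_one, one_mul]

theorem bad_LL {ε c₁ B lam : ℝ} (hε : 0 < ε) (hc : 0 < c₁) (hc1 : c₁ ≤ 1) (hB : 1 ≤ B) (hl : 1 ≤ lam) : ∃ C : ℝ, 1 ≤ C ∧
    ∀ (p : ℝ → ℝ) (x₀ y ρ H X₁ X₂ η : ℝ) (v w : ℝ → ℝ) (a : ℤ × ℤ → ℂ) (S : Finset (ℤ × ℤ)), Cv c₁ B p → (∀ k, ‖a k‖ ≤ 1) → 0 < y → 0 < ρ → ρ ≤ 5 →
      y * ρ ≤ k₀ c₁ B → 1 ≤ H → 0 < X₁ → 0 < X₂ → IsWt X₁ v → IsWt X₂ w → 0 < η → 1 / (H * X₂) + ρ / (H * X₁) ≤ η ^ 3 →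
      (∀ k ∈ S, k.2 ≠ 0 ∧ H / lam ≤ uu x₀ k ∧ uu x₀ k ≤ lam * H ∧ |tt x₀ k| ≤ ρ) →
      LL v w p x₀ y S a ≤ C * H ^ ε * (ρ * H ^ 2) ^ 6 * (1 + H ^ 2 * η) ^ 3 * (1 + H ^ 2 / √(H * X₁)) ^ 2 := by
  classical
  obtain ⟨ε', hε'⟩ : ∃ ε' : ℝ, ε' = ε / 100 := ⟨_, rfl⟩
  have he' : 0 < ε' := by rw [hε']; positivity
  obtain ⟨M, hM, C', hC', hd⟩ := Pool.Agent.Helper78.CG.dec12 (ε := ε') (c := c₁) (C₀ := B + 4) (lam := lam) he' hc hl
  obtain ⟨C₆, hC₆, h6⟩ := six (ε := ε') (c₁ := c₁) (B := B) (lam := lam) he' hc hc1 hB hl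
  obtain ⟨Cp, hCp, hp⟩ := pairs hl
  have hM0 : (1 : ℝ) < M := by exact_mod_cast (by omega : 1 < M)
  have hC0 : 0 < C' := by linarith
  obtain ⟨γ, hγ⟩ : ∃ γ : ℝ, γ = C' ^ (1 / 3 : ℝ) := ⟨_, rfl⟩
  have hγ1 : 1 ≤ γ := by rw [hγ]; exact one_le_rpow hC' (by norm_num)
  have hγ3 : γ ^ 3 = C' := by
    rw [hγ, ← rpow_natCast, ← rpow_mul hC0.le]
    norm_num
  obtain ⟨K, hK⟩ : ∃ K : ℝ, K = 12 * lam ^ 2 * M * (1 + γ) := ⟨_, rfl⟩
  have hl2 : 1 ≤ lam ^ 2 := one_le_pow₀ hl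
  have hK1 : 1 ≤ K := by
    rw [hK]
    have t1 : 1 ≤ lam ^ 2 * (M : ℝ) := one_le_mul_of_one_le_of_one_le hl2 hM0.le
    have t2 : 1 ≤ (lam ^ 2 * (M : ℝ)) * (1 + γ) := one_le_mul_of_one_le_of_one_le t1 (by linarith)
    nlinarith
  obtain ⟨L, hL⟩ : ∃ L : ℝ, L = 2 + 1 / ε' := ⟨_, rfl⟩
  have hL1 : 1 ≤ L := by
    rw [hL]
    have : 0 ≤ 1 / ε' := by positivity
    linarith
  obtain ⟨C, hC⟩ : ∃ C : ℝ, C = C₆ * Cp ^ 9 * L ^ 2 * (4 * C₆ ^ 2) * (125 * C') + C' ^ 6 * C₆ * Cp ^ 6 * L ^ 5 * (8 * K ^ 3) * (4 * C₆ ^ 2) := ⟨_, rfl⟩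
  have hc1' : 0 ≤ C₆ * Cp ^ 9 * L ^ 2 * (4 * C₆ ^ 2) * (125 * C') := by positivity
  have hc2' : 1 ≤ C' ^ 6 * C₆ * Cp ^ 6 * L ^ 5 * (8 * K ^ 3) * (4 * C₆ ^ 2) := by
    have t1 : 1 ≤ C' ^ 6 := one_le_pow₀ hC'
    have t2 : 1 ≤ Cp ^ 6 := one_le_pow₀ hCp
    have t3 : 1 ≤ L ^ 5 := one_le_pow₀ hL1
    have t4 : 1 ≤ 8 * K ^ 3 := by
      have : 1 ≤ K ^ 3 := one_le_pow₀ hK1
      linarith
    have t5 : 1 ≤ 4 * C₆ ^ 2 := by
      have : 1 ≤ C₆ ^ 2 := one_le_pow₀ hC₆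
      linarith
    exact one_le_mul_of_one_le_of_one_le (one_le_mul_of_one_le_of_one_le (one_le_mul_of_one_le_of_one_le
      (one_le_mul_of_one_le_of_one_le (one_le_mul_of_one_le_of_one_le t1 hC₆) t2) t3) t4) t5
  refine ⟨C, by rw [hC]; linarith, ?_⟩
  intro p x₀ y ρ H X₁ X₂ η v w a S hpp ha hy hρ hρ5 hyρ hH hX₁ hX₂ hv hw hη hcond hS
  have hH0 : 0 < H := by linarith
  have hHX : 0 < H * X₁ := by positivity
  have hsH : 0 < √(H * X₁) := sqrt_pos.2 hHX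
  have hS1 : ∀ k ∈ S, H / lam ≤ uu x₀ k ∧ uu x₀ k ≤ lam * H ∧ |tt x₀ k| ≤ ρ := fun k hk => (hS k hk).2
  have hS2 : ∀ k ∈ S, 0 < uu x₀ k ∧ uu x₀ k ≤ lam * H ∧ |tt x₀ k| ≤ 5 := fun k hk =>
    ⟨lt_of_lt_of_le (by positivity) (hS1 k hk).1, (hS1 k hk).2.1, (hS1 k hk).2.2.trans hρ5⟩
  obtain ⟨hpc, hpd⟩ := hp x₀ ρ H S hH hρ hρ5 (fun k hk => by
    obtain ⟨g1, g2, g3, g4⟩ := hS k hk
    refine ⟨g1, g2, g3, ?_⟩
    have g0 := (hS2 k hk).1
    unfold tt at g4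
    rwa [abs_div, abs_of_pos g0, div_le_iff₀ g0] at g4)
  obtain ⟨G, hG⟩ : ∃ G : ℝ, G = H ^ 2 / √(H * X₁) := ⟨_, rfl⟩
  have hG0 : 0 ≤ G := by rw [hG]; positivity
  obtain ⟨D, hD⟩ : ∃ D : ℝ, D = C₆ * (1 + G) := ⟨_, rfl⟩
  have hD0 : 0 ≤ D := by rw [hD]; positivity
  have hD1 : 1 + D ≤ 2 * C₆ * (1 + G) := by
    rw [hD]
    have : 1 ≤ C₆ * (1 + G) := one_le_mul_of_one_le_of_one_le hC₆ (by linarith)
    linarith
  obtain ⟨q, hq⟩ : ∃ q : ℝ, q = ρ * H ^ 2 := ⟨_, rfl⟩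
  have hq0 : 0 < q := by rw [hq]; positivity
  obtain ⟨h, hh⟩ : ∃ h : ℝ, h = H ^ ε' := ⟨_, rfl⟩
  have hh1 : 1 ≤ h := by rw [hh]; exact one_le_rpow hH he'.le
  have hh0 : 0 < h := by linarith
  have hhn : ∀ n : ℕ, h ^ n = H ^ (ε' * n) := by
    intro n
    rw [hh, ← rpow_natCast, ← rpow_mul hH0.le]
  have hhe : ∀ n : ℕ, n ≤ 100 → h ^ n ≤ H ^ ε := by
    intro n hn
    rw [hhn]
    refine rpow_le_rpow_of_exponent_le hH ?_
    have hn' : (n : ℝ) ≤ 100 := by exact_mod_cast hn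
    rw [hε']
    have hn2 := mul_le_mul_of_nonneg_left hn' (by positivity : 0 ≤ ε / 100)
    linarith
  have hlog : 1 + log (1 + H) ≤ L * h := by
    have h1 : log (1 + H) ≤ log 2 + log H := by
      rw [← log_mul (by norm_num) hH0.ne']
      exact log_le_log (by linarith) (by linarith)
    have h2 := log_le_rpow_div hH0.le he'
    rw [← hh] at h2
    have h3 : log 2 ≤ 1 := by
      have := Real.log_two_lt_d9
      linarith
    rw [hL]
    have h4 : h / ε' = 1 / ε' * h := by ring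
    rw [h4] at h2
    have h5 : (2 + 1 / ε') * h = 2 * h + 1 / ε' * h := by ring
    rw [h5]
    linarith
  have hpd' : ∀ D₀ : ℝ, 0 ≤ D₀ → ((e1P S D₀).card : ℝ) ≤ Cp * q * (L * h) * (1 + D₀) := by
    intro D₀ hD₀
    refine (hpd D₀ hD₀).trans ?_
    have e1 : Cp * ρ * H ^ 2 * (1 + log (1 + H)) * (1 + D₀) = Cp * q * (1 + log (1 + H)) * (1 + D₀) := by rw [hq]; ring
    rw [e1]
    refine mul_le_mul_of_nonneg_right ?_ (by linarith)
    exact mul_le_mul_of_nonneg_left hlog (by positivity)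
  have hpc' : (S.card : ℝ) ≤ Cp * q := by
    refine hpc.trans (le_of_eq ?_)
    rw [hq]
    ring
  -- a subset
  have hsub : ∀ A : Finset (ℤ × ℤ), A ⊆ S →
      LL v w p x₀ y A a ≤ C₆ * h * (A.card : ℝ) ^ 7 * ((e1P A D).card : ℝ) ^ 2 := by
    intro A hA
    have h1 := e1_LL hv hw p x₀ y A ha (Q := C₆ * h * (A.card : ℝ) * ((e1P A D).card : ℝ) ^ 2) (fun a' ha' => by
      have := h6 p x₀ y ρ H X₁ v a' A hpp ha' hy hρ hρ5 hyρ hH hX₁ hv (fun k hk => hS1 k (hA hk))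
      rw [hD, hG, hh]
      exact this)
    refine h1.trans (le_of_eq ?_)
    ring
  change _ ≤ C * H ^ ε * (ρ * H ^ 2) ^ 6 * (1 + H ^ 2 * η) ^ 3 * (1 + H ^ 2 / √(H * X₁)) ^ 2
  rw [← hq, ← hG]
  have hγη : 0 < γ * η := by positivity
  have hHη : 0 ≤ H ^ 2 * η := by positivity
  rcases le_or_gt 1 (min (H ^ 2) (1 / (γ * η))) with hP | hP
  · obtain ⟨P, hPd⟩ : ∃ P : ℝ, P = min (H ^ 2) (1 / (γ * η)) := ⟨_, rfl⟩
    rw [← hPd] at hP
    obtain ⟨m, hm1, hm2⟩ := exists_nat_pow_near hP hM0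
    have hP0 : 0 < P := by linarith
    have hMm : (0 : ℝ) < (M : ℝ) ^ m := by positivity
    have hPH : P ≤ H ^ 2 := by rw [hPd]; exact min_le_left _ _
    have hPX : P ≤ 1 / (γ * η) := by rw [hPd]; exact min_le_right _ _
    have hcond' : C' * (1 / X₂ + ρ / X₁) ≤ H * (1 / (M : ℝ) ^ m) ^ 3 := by
      have g1 : 1 / X₂ + ρ / X₁ ≤ H * η ^ 3 := by
        have g2 := mul_le_mul_of_nonneg_left hcond hH0.le
        refine le_trans (le_of_eq ?_) g2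
        field_simp
      have g3 : (M : ℝ) ^ m * (γ * η) ≤ 1 := by
        have := hm1.trans hPX
        rwa [le_div_iff₀ hγη] at this
      have g4 : γ * η ≤ 1 / (M : ℝ) ^ m := by
        rw [le_div_iff₀ hMm]
        linarith
      have g5 := pow_le_pow_left₀ hγη.le g4 3
      calc C' * (1 / X₂ + ρ / X₁) ≤ C' * (H * η ^ 3) := mul_le_mul_of_nonneg_left g1 hC0.le
        _ = H * (γ * η) ^ 3 := by rw [mul_pow, hγ3]; ring
        _ ≤ _ := mul_le_mul_of_nonneg_left g5 hH0.le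
    have h7 := hd m x₀ H ρ X₁ X₂ (fy p y) (gy p y) (ry p y) v w a S hH0 hX₁ hX₂ hρ hρ5 hS1 (crv_fy hc hc1 hB hpp hy hρ hyρ) hv hw hcond'
    obtain ⟨x, hx⟩ : ∃ x : ℕ → ℝ, ∀ r, x r = ((arc x₀ S (M ^ m) r).card : ℝ) := ⟨_, fun _ => rfl⟩
    obtain ⟨z, hz⟩ : ∃ z : ℕ → ℝ, ∀ r, z r = ((e1P (arc x₀ S (M ^ m) r) D).card : ℝ) := ⟨_, fun _ => rfl⟩
    have hx0 : ∀ r, 0 ≤ x r := fun r => by rw [hx]; positivity
    have hz0 : ∀ r, 0 ≤ z r := fun r => by rw [hz]; positivity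
    have hLL0 : ∀ A : Finset (ℤ × ℤ), 0 ≤ LL v w p x₀ y A a := fun A => LL_nonneg hv hw p x₀ y A a
    have hQ0 : 0 ≤ C₆ * h := by positivity
    have h8 : ∀ r, n12 (mu2 v w) (hs (arc x₀ S (M ^ m) r) a (ff x₀ (fy p y)) (ff x₀ (gy p y))) ≤
        (C₆ * h) ^ (1 / 6 : ℝ) * (x r * (x r ^ (1 / 6 : ℝ) * z r ^ (1 / 3 : ℝ))) := by
      intro r
      rw [LL_eq hv hw]
      have g1 := hsub (arc x₀ S (M ^ m) r) e1_arc_sub
      rw [← hx, ← hz] at g1
      refine (rpow_le_rpow (hLL0 _) g1 (by norm_num)).trans (le_of_eq ?_)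
      have g2 : C₆ * h * x r ^ 7 * z r ^ 2 = C₆ * h * (x r ^ 6 * (x r * z r ^ 2)) := by ring
      rw [g2, mul_rpow hQ0 (by have := hx0 r; have := hz0 r; positivity)]
      congr 1
      have g3 := hx0 r
      have g4 := hz0 r
      rw [mul_rpow (by positivity) (by positivity), mul_rpow g3 (by positivity)]
      congr 1
      · rw [← rpow_natCast, ← rpow_mul g3]
        norm_num
      · congr 1
        rw [← rpow_natCast, ← rpow_mul g4]
        norm_num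
    obtain ⟨Ss, hSs⟩ : ∃ Ss : ℝ, Ss = ∑ r ∈ Finset.range (M ^ m), x r * (x r ^ (1 / 6 : ℝ) * z r ^ (1 / 3 : ℝ)) := ⟨_, rfl⟩
    have hSs0 : 0 ≤ Ss := by
      rw [hSs]
      exact Finset.sum_nonneg fun r _ => mul_nonneg (hx0 r) (mul_nonneg (rpow_nonneg (hx0 r) _) (rpow_nonneg (hz0 r) _))
    have hMe : 0 < (M : ℝ) ^ (ε' * (m : ℝ)) := by positivity
    have h9 : LL v w p x₀ y S a ^ (1 / 6 : ℝ) ≤ C' * (M : ℝ) ^ (ε' * (m : ℝ)) * ((C₆ * h) ^ (1 / 6 : ℝ) * Ss) := by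
      rw [← LL_eq hv hw]
      refine h7.trans (mul_le_mul_of_nonneg_left ?_ (by positivity))
      rw [hSs, Finset.mul_sum]
      exact Finset.sum_le_sum fun r _ => h8 r
    have h10 : LL v w p x₀ y S a ≤ C' ^ 6 * ((M : ℝ) ^ (ε' * (m : ℝ))) ^ 6 * (C₆ * h) * Ss ^ 6 := by
      have g1 := pow_le_pow_left₀ (rpow_nonneg (hLL0 S) _) h9 6
      have g2 : (LL v w p x₀ y S a ^ (1 / 6 : ℝ)) ^ 6 = LL v w p x₀ y S a := by
        rw [← rpow_natCast, ← rpow_mul (hLL0 S)]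
        norm_num
      rw [g2] at g1
      refine g1.trans (le_of_eq ?_)
      have g3 : ((C₆ * h) ^ (1 / 6 : ℝ)) ^ 6 = C₆ * h := by
        rw [← rpow_natCast, ← rpow_mul hQ0]
        norm_num
      calc (C' * (M : ℝ) ^ (ε' * (m : ℝ)) * ((C₆ * h) ^ (1 / 6 : ℝ) * Ss)) ^ 6 =
            C' ^ 6 * ((M : ℝ) ^ (ε' * (m : ℝ))) ^ 6 * ((C₆ * h) ^ (1 / 6 : ℝ)) ^ 6 * Ss ^ 6 := by ring
        _ = _ := by rw [g3]
    have hMe6 : ((M : ℝ) ^ (ε' * (m : ℝ))) ^ 6 ≤ h ^ 12 := by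
      have e1 : ((M : ℝ) ^ (ε' * (m : ℝ))) ^ 6 = ((M : ℝ) ^ m) ^ (6 * ε') := by
        rw [← rpow_natCast, ← rpow_mul (by positivity), ← rpow_natCast, ← rpow_mul (by positivity)]
        congr 1
        push_cast
        ring
      rw [e1]
      have e2 : ((M : ℝ) ^ m) ^ (6 * ε') ≤ (H ^ 2) ^ (6 * ε') := rpow_le_rpow hMm.le (hm1.trans hPH) (by positivity)
      refine e2.trans (le_of_eq ?_)
      rw [hhn, ← rpow_natCast, ← rpow_mul hH0.le]
      congr 1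
      push_cast
      ring
    have h11 := e1_hold2 (M ^ m) x z hx0 hz0
    rw [← hSs] at h11
    have hMm1 : 1 ≤ M ^ m := Nat.one_le_pow _ _ (by omega)
    have hsx : ∑ r ∈ Finset.range (M ^ m), x r ≤ Cp * q := by
      have := e1_sum (β := x₀) (S := S) (N := M ^ m)
      simp only [hx]
      exact this.trans hpc'
    have hsz : ∑ r ∈ Finset.range (M ^ m), z r ≤ Cp * q * (L * h) * (2 * C₆ * (1 + G)) := by
      have g1 := e1_disj (β := x₀) (S := S) (N := M ^ m) (fun j => e1P (arc x₀ S (M ^ m) j) D) (T := D)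
        (fun j => by unfold e1P; exact Finset.filter_subset _ _) (fun j t ht => by
          unfold e1P at ht
          exact (Finset.mem_filter.1 ht).2)
      simp only [hz]
      refine (g1.trans (hpd' D hD0)).trans ?_
      exact mul_le_mul_of_nonneg_left hD1 (by positivity)
    have hsxx : ∑ r ∈ Finset.range (M ^ m), x r ^ 2 ≤ Cp * q * (L * h) * (2 * K * (1 + H ^ 2 * η)) := by
      have g1 := e1_sq (β := x₀) (S := S) (N := M ^ m) (U := lam * H) hMm1 hS2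
      simp only [hx]
      refine g1.trans ?_
      have g2 : (lam * H) ^ 2 * (12 / ((M ^ m : ℕ) : ℝ)) ≤ K * (1 + H ^ 2 * η) := by
        push_cast
        have h15 : P < M * (M : ℝ) ^ m := by rw [pow_succ] at hm2; linarith
        have h16 : 1 / (M : ℝ) ^ m ≤ M / P := by
          rw [div_le_div_iff₀ hMm hP0]
          linarith
        have h17 : 1 / P ≤ 1 / H ^ 2 + γ * η := by
          rcases min_choice (H ^ 2) (1 / (γ * η)) with h | h
          · rw [hPd, h]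
            linarith
          · rw [hPd, h, one_div_one_div]
            have : 0 ≤ 1 / H ^ 2 := by positivity
            linarith
        have h19 : H ^ 2 * (M / P) ≤ M * (1 + γ * (H ^ 2 * η)) := by
          have h20 : H ^ 2 * (M / P) = M * (H ^ 2 * (1 / P)) := by ring
          rw [h20]
          refine mul_le_mul_of_nonneg_left ?_ (by positivity)
          refine (mul_le_mul_of_nonneg_left h17 (by positivity : (0 : ℝ) ≤ H ^ 2)).trans (le_of_eq ?_)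
          have : H ^ 2 ≠ 0 := by positivity
          field_simp
        calc (lam * H) ^ 2 * (12 / (M : ℝ) ^ m) = 12 * lam ^ 2 * H ^ 2 * (1 / (M : ℝ) ^ m) := by ring
          _ ≤ 12 * lam ^ 2 * H ^ 2 * (M / P) := mul_le_mul_of_nonneg_left h16 (by positivity)
          _ = 12 * lam ^ 2 * (H ^ 2 * (M / P)) := by ring
          _ ≤ 12 * lam ^ 2 * (M * (1 + γ * (H ^ 2 * η))) := mul_le_mul_of_nonneg_left h19 (by positivity)
          _ ≤ 12 * lam ^ 2 * (M * ((1 + γ) * (1 + H ^ 2 * η))) := by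
              refine mul_le_mul_of_nonneg_left ?_ (by positivity)
              refine mul_le_mul_of_nonneg_left ?_ (by positivity)
              have h22 : (1 + γ) * (1 + H ^ 2 * η) = 1 + γ * (H ^ 2 * η) + (γ + H ^ 2 * η) := by ring
              have h23 : 0 ≤ H ^ 2 * η := by positivity
              rw [h22]
              linarith
          _ = K * (1 + H ^ 2 * η) := by rw [hK]; ring
      refine (e1P_mono g2).trans ?_
      refine (hpd' _ (by positivity)).trans ?_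
      refine mul_le_mul_of_nonneg_left ?_ (by positivity)
      have : 1 ≤ K * (1 + H ^ 2 * η) := one_le_mul_of_one_le_of_one_le hK1 (by linarith)
      linarith
    have hsx0 : 0 ≤ ∑ r ∈ Finset.range (M ^ m), x r := Finset.sum_nonneg fun r _ => hx0 r
    have hsz0 : 0 ≤ ∑ r ∈ Finset.range (M ^ m), z r := Finset.sum_nonneg fun r _ => hz0 r
    have hsxx0 : 0 ≤ ∑ r ∈ Finset.range (M ^ m), x r ^ 2 := Finset.sum_nonneg fun r _ => by positivity
    have h12 : Ss ^ 6 ≤ (Cp * q * (L * h) * (2 * K * (1 + H ^ 2 * η))) ^ 3 * (Cp * q) * (Cp * q * (L * h) * (2 * C₆ * (1 + G))) ^ 2 := by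
      refine h11.trans ?_
      refine mul_le_mul (mul_le_mul (pow_le_pow_left₀ hsxx0 hsxx 3) hsx hsx0 (by positivity)) (pow_le_pow_left₀ hsz0 hsz 2)
        (by positivity) (by positivity)
    calc LL v w p x₀ y S a ≤ C' ^ 6 * ((M : ℝ) ^ (ε' * (m : ℝ))) ^ 6 * (C₆ * h) * Ss ^ 6 := h10
      _ ≤ C' ^ 6 * h ^ 12 * (C₆ * h) * ((Cp * q * (L * h) * (2 * K * (1 + H ^ 2 * η))) ^ 3 * (Cp * q) *
            (Cp * q * (L * h) * (2 * C₆ * (1 + G))) ^ 2) := by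
          refine mul_le_mul (mul_le_mul_of_nonneg_right (mul_le_mul_of_nonneg_left hMe6 (by positivity)) hQ0) h12 (by positivity) (by positivity)
      _ = (C' ^ 6 * C₆ * Cp ^ 6 * L ^ 5 * (8 * K ^ 3) * (4 * C₆ ^ 2)) * h ^ 18 * (q ^ 6 * (1 + H ^ 2 * η) ^ 3 * (1 + G) ^ 2) := by ring
      _ ≤ C * H ^ ε * (q ^ 6 * (1 + H ^ 2 * η) ^ 3 * (1 + G) ^ 2) := by
          refine mul_le_mul_of_nonneg_right ?_ (by positivity)
          refine mul_le_mul ?_ (hhe 18 (by norm_num)) (by positivity) (by rw [hC]; linarith)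
          rw [hC]
          linarith
      _ = _ := by ring
  · have h1 : 1 < γ * η := by
      have h2 : 1 / (γ * η) < 1 := by
        rcases min_lt_iff.1 hP with h | h
        · have : 1 ≤ H ^ 2 := one_le_pow₀ hH
          linarith
        · exact h
      rwa [div_lt_one hγη] at h2
    have h2 := hsub S (Finset.Subset.refl _)
    have h3 : ((e1P S D).card : ℝ) ≤ Cp * q * (L * h) * (2 * C₆ * (1 + G)) :=
      (hpd' D hD0).trans (mul_le_mul_of_nonneg_left hD1 (by positivity))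
    have h4 : q ^ 3 ≤ 125 * C' * (1 + H ^ 2 * η) ^ 3 := by
      have g1 : q ≤ 5 * H ^ 2 := by
        rw [hq]
        exact mul_le_mul_of_nonneg_right hρ5 (by positivity)
      have g2 : q ≤ 5 * γ * (1 + H ^ 2 * η) := by
        refine g1.trans ?_
        have g3 : H ^ 2 ≤ γ * (H ^ 2 * η) := by
          have : H ^ 2 * 1 ≤ H ^ 2 * (γ * η) := mul_le_mul_of_nonneg_left h1.le (by positivity)
          linarith
        have g4 : 5 * γ * (1 + H ^ 2 * η) = 5 * γ + 5 * (γ * (H ^ 2 * η)) := by ring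
        rw [g4]
        linarith
      refine (pow_le_pow_left₀ hq0.le g2 3).trans (le_of_eq ?_)
      rw [← hγ3]
      ring
    calc LL v w p x₀ y S a ≤ C₆ * h * (S.card : ℝ) ^ 7 * ((e1P S D).card : ℝ) ^ 2 := h2
      _ ≤ C₆ * h * (Cp * q) ^ 7 * (Cp * q * (L * h) * (2 * C₆ * (1 + G))) ^ 2 := by
          gcongr
      _ = (C₆ * Cp ^ 9 * L ^ 2 * (4 * C₆ ^ 2)) * h ^ 3 * (q ^ 6 * (1 + G) ^ 2) * q ^ 3 := by ring
      _ ≤ (C₆ * Cp ^ 9 * L ^ 2 * (4 * C₆ ^ 2)) * h ^ 3 * (q ^ 6 * (1 + G) ^ 2) * (125 * C' * (1 + H ^ 2 * η) ^ 3) :=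
          mul_le_mul_of_nonneg_left h4 (by positivity)
      _ = (C₆ * Cp ^ 9 * L ^ 2 * (4 * C₆ ^ 2) * (125 * C')) * h ^ 3 * (q ^ 6 * (1 + H ^ 2 * η) ^ 3 * (1 + G) ^ 2) := by ring
      _ ≤ C * H ^ ε * (q ^ 6 * (1 + H ^ 2 * η) ^ 3 * (1 + G) ^ 2) := by
          refine mul_le_mul_of_nonneg_right ?_ (by positivity)
          refine mul_le_mul ?_ (hhe 3 (by norm_num)) (by positivity) (by rw [hC]; linarith)
          rw [hC]
          linarith
      _ = _ := by ring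

end Pool.Agent.Helper60.LT
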