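import Pool.Agent.Helper60.LT.A5
import Pool.Agent.Helper60.LT.B4
import Pool.Agent.Helper60.LT.E1

/-!
# LT-E3: the cusp near the origin

PROOF. `H = K/X ≥ 1`, `G = y² X H`, `ρ_b = (11/10) κ G^(-1/8)`, `ξ₁ = 1/(16 κ ρ_b² √G)`. Cover `[X, 2X] × [0, 1]` by windows `[T₁, T₁ + X/(4κ)] × [x₀, x₀ + ξ₁]` (`T₁ = X + i X/(4κ) ≤ 2X`, `x₀ = j ξ₁ ≤ 1`), at most `(4κ + 1)(1/ξ₁ + 1) ≤ 10 κ/ξ₁` windows (`ξ₁ ≤ 1` as `κ ≥ 10`, `G ≥ 1`).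
For `(T, x)` in a window, `k ∈ s0 L ρ K T x`: with `u = uu x k`, `uu x₀ k = u (1 - (x - x₀) t)`, `|(x - x₀) t| ≤ ξ₁ ρ ≤ 1/100`, so `k ∈ S_w := s0 (2L) (11/10 · κ G^(-1/8)) K T₁ x₀`, and `s0 L ρ K T x` is a cut of norm `24⁴ + 24⁶` (`cut_poly`, `cut_diff`): `RR h L ρ K (fr θ y T x) ≤ ofReal (C W (sl h θ) y S_w 1 T x)`
(`RR_fr`, `m12_cut`). `half` (B4) with `lam = 4L`, `ρ := ρ_b ≤ 5`, (`10 ≤ ρ_b √G`), then `bad_LL` (E1) with `X₁ = y² X/(4κ)`, `X₂ = 4 y² T₁ ξ₁`: `H X₁ = G/(4κ)`, `H X₂ ≥ 4 G ξ₁ = G^(3/4)/(4 (11/10)² κ³)`, `1/(H X₂) + ρ_b/(H X₁) ≤ 5 κ³ G^(-3/4) + 5 κ² G^(-9/8) ≤ 27 κ³ G^(-3/4)`, `η = 3 κ G^(-1/4)`: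
the integral over a window is at most `C (X/(4κ)) ξ₁ · C H^ε (κ G^(-1/8) H²)^6 (1 + 3 κ H² G^(-1/4))^3 (1 + 2 √κ H² G^(-1/2))² ≤ C (X/κ) ξ₁ κ^10 H^ε (H^12 G^(-3/4) + H^18 G^(-3/2) + H^16 G^(-7/4) + H^22 G^(-5/2))`; `H^16 G^(-7/4) ≤ H^12 + H^22 G^(-5/2)` (two cases `H^4 ≤ G^(7/4)` or not).
Sum over the windows. `H ≤ K²` as `1 ≤ K X`.
-/

open MeasureTheory Real Set Filter Topology

set_option autoImplicit false

namespace Pool.Agent.Helper60.LT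

open Pool.Agent.Helper22.AE
open Pool.Agent.Helper92.GC (dt tp Tq uu tt arc gs dd IsDw)
open Pool.Agent.Helper92.DT (m12 IsMul12)

private lemma mem_s0_95 {L S K T x : ℝ} (hT : 0 < T) (hL : 0 < L) (hK : 0 < K) (hS : 0 ≤ S) {k : ℤ × ℤ} :
    k ∈ s0 L S K T x ↔ (K ≤ L * (T * uu x k) ∧ T * uu x k ≤ L * K ∧ |(k.2 : ℝ)| ≤ S * uu x k) ∧ k.2 ≠ 0 := by
  unfold s0
  rw [Finset.mem_filter, mem_st hT hL hK hS]

/-- the set `s0` is a cut -/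
private lemma cut_s0_95 {L S K T x : ℝ} (hT : 0 < T) (hL : 0 < L) (hK : 0 < K) (hS : 0 ≤ S) :
    Cut (24 ^ 4 + 24 ^ 6) (s0 L S K T x) := by
  classical
  have h1 : Cut (24 ^ 4) (st L S K T x) := by
    refine cut_poly 4 ![L * T, -T, S, S] ![L * T * x, -(T * x), S * x - 1, S * x + 1] ![K, -(L * K), 0, 0]
      (fun _ => true) _ (fun k => ?_)
    rw [mem_st hT hL hK hS]
    simp only [if_true, Fin.forall_fin_succ, IsEmpty.forall_iff, and_true]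
    simp only [Matrix.cons_val_zero, Matrix.cons_val_succ, Matrix.cons_val_fin_one]
    unfold uu
    rw [abs_le]
    constructor
    · rintro ⟨a, b, c, d⟩
      exact ⟨by linarith, by linarith, by linarith, by linarith⟩
    · rintro ⟨a, b, c, d⟩
      exact ⟨by linarith, by linarith, by linarith, by linarith⟩
  have h2 : Cut (24 ^ 6) ((st L S K T x).filter (fun k => k.2 = 0)) := by
    refine cut_poly 6 ![L * T, -T, S, S, 0, 0] ![L * T * x, -(T * x), S * x - 1, S * x + 1, 1, -1] ![K, -(L * K), 0, 0, 0, 0]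
      (fun _ => true) _ (fun k => ?_)
    rw [Finset.mem_filter, mem_st hT hL hK hS]
    simp only [if_true, Fin.forall_fin_succ, IsEmpty.forall_iff, and_true]
    simp only [Matrix.cons_val_zero, Matrix.cons_val_succ, Matrix.cons_val_fin_one]
    unfold uu
    rw [abs_le]
    constructor
    · rintro ⟨⟨a, b, c, d⟩, e⟩
      have e' : (k.2 : ℝ) = 0 := by exact_mod_cast e
      exact ⟨by linarith, by linarith, by linarith, by linarith, by linarith, by linarith⟩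
    · rintro ⟨a, b, c, d, e, f⟩
      have e' : (k.2 : ℝ) = 0 := by linarith
      exact ⟨⟨by linarith, by linarith, by linarith, by linarith⟩, by exact_mod_cast e'⟩
  have h3 := cut_diff h1 h2 (Finset.filter_subset _ _)
  have h4 : s0 L S K T x = st L S K T x \ (st L S K T x).filter (fun k => k.2 = 0) := by
    ext k
    unfold s0
    simp only [Finset.mem_filter, Finset.mem_sdiff]
    tauto
  rw [h4]
  exact h3

/-- near frequencies -/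
private lemma near_95 {x x₀ ξ₁ ρ : ℝ} (hx : x₀ ≤ x) (hx1 : x ≤ x₀ + ξ₁) {k : ℤ × ℤ}
    (hk : |(k.2 : ℝ)| ≤ ρ * uu x k) (hs : ξ₁ * ρ ≤ 1 / 100) (hu : 0 < uu x k) :
    99 / 100 * uu x k ≤ uu x₀ k ∧ uu x₀ k ≤ 101 / 100 * uu x k := by
  have h1 : uu x₀ k = uu x k - (x - x₀) * (k.2 : ℝ) := by
    unfold uu
    ring
  have h2 : |(x - x₀) * (k.2 : ℝ)| ≤ 1 / 100 * uu x k := by
    rw [abs_mul, abs_of_nonneg (by linarith : 0 ≤ x - x₀)]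
    calc (x - x₀) * |(k.2 : ℝ)| ≤ ξ₁ * (ρ * uu x k) :=
          mul_le_mul (by linarith) hk (abs_nonneg _) (by linarith)
      _ = (ξ₁ * ρ) * uu x k := by ring
      _ ≤ 1 / 100 * uu x k := mul_le_mul_of_nonneg_right hs hu.le
  rw [abs_le] at h2
  rw [h1]
  exact ⟨by linarith [h2.2], by linarith [h2.1]⟩

private lemma pos_95 {L K T x : ℝ} (hT : 0 < T) (hL : 0 < L) (hK : 0 < K) {k : ℤ × ℤ}
    (h : K ≤ L * (T * uu x k)) : 0 < uu x k := by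
  by_contra hc
  rw [not_lt] at hc
  have h1 : L * (T * uu x k) ≤ 0 := by
    have : T * uu x k ≤ 0 := mul_nonpos_of_nonneg_of_nonpos hT.le hc
    exact mul_nonpos_of_nonneg_of_nonpos hL.le this
  linarith

/-- the frequencies of a point of the window belong to the set of the corner -/
private lemma sub_95 {L ρ ρ₁ K T T₁ x x₀ ξ₁ : ℝ} (hL : 1 ≤ L) (hK : 0 < K) (hρ : 0 < ρ) (hρ1 : ρ ≤ ρ₁)
    (hT₁ : 0 < T₁) (hT : T₁ ≤ T) (hT2 : T ≤ 5 / 4 * T₁) (hx : x₀ ≤ x) (hx1 : x ≤ x₀ + ξ₁) (hs : ξ₁ * ρ ≤ 1 / 100) :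
    s0 L ρ K T x ⊆ s0 (2 * L) (11 / 10 * ρ₁) K T₁ x₀ := by
  intro k hk
  rw [mem_s0_95 (by linarith) (by linarith) hK hρ.le] at hk
  rw [mem_s0_95 hT₁ (by linarith) hK (by linarith)]
  obtain ⟨⟨h1, h2, h3⟩, h4⟩ := hk
  have hu := pos_95 (by linarith) (by linarith) hK h1
  obtain ⟨h5, h6⟩ := near_95 hx hx1 h3 hs hu
  refine ⟨⟨?_, ?_, ?_⟩, h4⟩
  · have h7 : T * uu x k ≤ 2 * (T₁ * uu x₀ k) := by
      calc T * uu x k ≤ (5 / 4 * T₁) * (100 / 99 * uu x₀ k) :=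
            mul_le_mul hT2 (by linarith) hu.le (by linarith)
        _ = (125 / 99) * (T₁ * uu x₀ k) := by ring
        _ ≤ 2 * (T₁ * uu x₀ k) := by
            have : 0 ≤ T₁ * uu x₀ k := mul_nonneg hT₁.le (by linarith)
            linarith
    calc K ≤ L * (T * uu x k) := h1
      _ ≤ L * (2 * (T₁ * uu x₀ k)) := mul_le_mul_of_nonneg_left h7 (by linarith)
      _ = 2 * L * (T₁ * uu x₀ k) := by ring
  · calc T₁ * uu x₀ k ≤ T * (101 / 100 * uu x k) := mul_le_mul hT h6 (by linarith) (by linarith)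
      _ = 101 / 100 * (T * uu x k) := by ring
      _ ≤ 101 / 100 * (L * K) := by linarith
      _ ≤ 2 * L * K := by nlinarith [mul_pos (show 0 < L by linarith) hK]
  · calc |(k.2 : ℝ)| ≤ ρ * uu x k := h3
      _ ≤ ρ₁ * (100 / 99 * uu x₀ k) := mul_le_mul hρ1 (by linarith) hu.le (by linarith)
      _ = 100 / 99 * (ρ₁ * uu x₀ k) := by ring
      _ ≤ 11 / 10 * (ρ₁ * uu x₀ k) := by
          have : 0 ≤ ρ₁ * uu x₀ k := mul_nonneg (by linarith) (by linarith)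
          linarith
      _ = 11 / 10 * ρ₁ * uu x₀ k := by ring


private lemma arith_95 {H g κ : ℝ} (hH : 1 ≤ H) (hg : 1 ≤ g) (hκ : 10 ≤ κ) :
    (11 / 10 * (κ / g) * H ^ 2) ^ 6 * (1 + H ^ 2 * (3 * κ / g ^ 2)) ^ 3 * (1 + H ^ 2 / √(g ^ 8 / (4 * κ))) ^ 2 ≤
      4000 * κ ^ 10 * (H ^ 12 + H ^ 18 / g ^ 12 + H ^ 22 / g ^ 20) := by
  have hg0 : 0 < g := by linarith
  obtain ⟨z, hz⟩ : ∃ z, z = g⁻¹ := ⟨_, rfl⟩
  have hz0 : 0 < z := by rw [hz]; positivity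
  have hz1 : z ≤ 1 := by rw [hz]; exact inv_le_one_of_one_le₀ hg
  have hκ0 : 0 < κ := by linarith
  have hH0 : 0 < H := by linarith
  obtain ⟨r, hr⟩ : ∃ r, r = √κ := ⟨_, rfl⟩
  have hr0 : 0 < r := by rw [hr]; exact Real.sqrt_pos.2 hκ0
  have hr2 : r ^ 2 = κ := by rw [hr]; exact Real.sq_sqrt hκ0.le
  have e1 : H ^ 2 / √(g ^ 8 / (4 * κ)) = 2 * r * H ^ 2 * z ^ 4 := by
    have h1 : √(g ^ 8 / (4 * κ)) = g ^ 4 / (2 * r) := by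
      rw [show g ^ 8 / (4 * κ) = (g ^ 4 / (2 * r)) ^ 2 by rw [← hr2]; field_simp; ring]
      exact Real.sqrt_sq (by positivity)
    rw [h1, hz]
    field_simp
  have e2 : 11 / 10 * (κ / g) * H ^ 2 = 11 / 10 * κ * H ^ 2 * z := by
    rw [hz]
    field_simp
  have e3 : H ^ 2 * (3 * κ / g ^ 2) = 3 * κ * H ^ 2 * z ^ 2 := by
    rw [hz]
    field_simp
  have e4 : H ^ 12 + H ^ 18 / g ^ 12 + H ^ 22 / g ^ 20 = H ^ 12 + H ^ 18 * z ^ 12 + H ^ 22 * z ^ 20 := by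
    rw [hz]
    field_simp
  rw [e1, e2, e3, e4]
  obtain ⟨A, hA⟩ : ∃ A, A = H ^ 2 * z ^ 2 := ⟨_, rfl⟩
  have hA0 : 0 < A := by rw [hA]; positivity
  have h1 : (1 + 3 * κ * H ^ 2 * z ^ 2) ^ 3 ≤ 108 * κ ^ 3 * (1 + A ^ 3) := by
    have h2 : 1 + 3 * κ * H ^ 2 * z ^ 2 ≤ 3 * κ * (1 + A) := by
      rw [hA]
      nlinarith
    calc (1 + 3 * κ * H ^ 2 * z ^ 2) ^ 3 ≤ (3 * κ * (1 + A)) ^ 3 := pow_le_pow_left₀ (by positivity) h2 3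
      _ = 27 * κ ^ 3 * (1 + A) ^ 3 := by ring
      _ ≤ 27 * κ ^ 3 * (4 * (1 + A ^ 3)) := by
          refine mul_le_mul_of_nonneg_left ?_ (by positivity)
          nlinarith [mul_nonneg (by linarith : 0 ≤ 1 + A) (sq_nonneg (1 - A))]
      _ = 108 * κ ^ 3 * (1 + A ^ 3) := by ring
  have h3 : (1 + 2 * r * H ^ 2 * z ^ 4) ^ 2 ≤ 8 * κ * (1 + H ^ 4 * z ^ 8) := by
    have h4 : (1 + 2 * r * H ^ 2 * z ^ 4) ^ 2 ≤ 2 * (1 + (2 * r * H ^ 2 * z ^ 4) ^ 2) := by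
      nlinarith [sq_nonneg (1 - 2 * r * H ^ 2 * z ^ 4)]
    have h5 : (2 * r * H ^ 2 * z ^ 4) ^ 2 = 4 * κ * (H ^ 4 * z ^ 8) := by
      rw [← hr2]
      ring
    rw [h5] at h4
    have h6 : 0 < H ^ 4 * z ^ 8 := by positivity
    nlinarith
  have h7 : (11 / 10 * κ * H ^ 2 * z) ^ 6 ≤ 18 / 10 * κ ^ 6 * H ^ 12 * z ^ 6 := by
    have : (11 / 10 * κ * H ^ 2 * z) ^ 6 = (11 / 10) ^ 6 * (κ ^ 6 * H ^ 12 * z ^ 6) := by ring
    rw [this]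
    have h8 : 0 < κ ^ 6 * H ^ 12 * z ^ 6 := by positivity
    nlinarith
  have h9 : (11 / 10 * κ * H ^ 2 * z) ^ 6 * (1 + 3 * κ * H ^ 2 * z ^ 2) ^ 3 * (1 + 2 * r * H ^ 2 * z ^ 4) ^ 2 ≤
      (18 / 10 * κ ^ 6 * H ^ 12 * z ^ 6) * (108 * κ ^ 3 * (1 + A ^ 3)) * (8 * κ * (1 + H ^ 4 * z ^ 8)) :=
    mul_le_mul (mul_le_mul h7 h1 (by positivity) (by positivity)) h3 (by positivity) (by positivity)
  refine h9.trans ?_
  have e5 : (18 / 10 * κ ^ 6 * H ^ 12 * z ^ 6) * (108 * κ ^ 3 * (1 + A ^ 3)) * (8 * κ * (1 + H ^ 4 * z ^ 8)) =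
      18 / 10 * 108 * 8 * κ ^ 10 * (H ^ 12 * z ^ 6 + H ^ 18 * z ^ 12 + H ^ 16 * z ^ 14 + H ^ 22 * z ^ 20) := by
    rw [hA]
    ring
  rw [e5]
  have f1 : H ^ 12 * z ^ 6 ≤ H ^ 12 := mul_le_of_le_one_right (by positivity) (pow_le_one₀ hz0.le hz1)
  have f2 : H ^ 16 * z ^ 14 ≤ H ^ 12 + H ^ 22 * z ^ 20 := by
    rcases le_total (H * z) 1 with h10 | h10
    · have h11 : H ^ 4 * z ^ 14 ≤ 1 := by
        calc H ^ 4 * z ^ 14 = (H * z) ^ 4 * z ^ 10 := by ring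
          _ ≤ 1 * 1 := mul_le_mul (pow_le_one₀ (by positivity) h10) (pow_le_one₀ hz0.le hz1) (by positivity) (by norm_num)
          _ = 1 := by norm_num
      have h12 : H ^ 16 * z ^ 14 ≤ H ^ 12 := by
        calc H ^ 16 * z ^ 14 = H ^ 12 * (H ^ 4 * z ^ 14) := by ring
          _ ≤ H ^ 12 * 1 := mul_le_mul_of_nonneg_left h11 (by positivity)
          _ = H ^ 12 := mul_one _
      have : 0 < H ^ 22 * z ^ 20 := by positivity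
      linarith
    · have h11 : 1 ≤ (H * z) ^ 6 := one_le_pow₀ h10
      have h12 : H ^ 16 * z ^ 14 ≤ H ^ 22 * z ^ 20 := by
        calc H ^ 16 * z ^ 14 = H ^ 16 * z ^ 14 * 1 := (mul_one _).symm
          _ ≤ H ^ 16 * z ^ 14 * (H * z) ^ 6 := mul_le_mul_of_nonneg_left h11 (by positivity)
          _ = H ^ 22 * z ^ 20 := by ring
      have : 0 < H ^ 12 := by positivity
      linarith
  have f3 : 0 < H ^ 12 := by positivity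
  have f4 : 0 < H ^ 18 * z ^ 12 := by positivity
  have f5 : 0 < H ^ 22 * z ^ 20 := by positivity
  have f6 : H ^ 12 * z ^ 6 + H ^ 18 * z ^ 12 + H ^ 16 * z ^ 14 + H ^ 22 * z ^ 20 ≤
      2 * (H ^ 12 + H ^ 18 * z ^ 12 + H ^ 22 * z ^ 20) := by linarith
  calc 18 / 10 * 108 * 8 * κ ^ 10 * (H ^ 12 * z ^ 6 + H ^ 18 * z ^ 12 + H ^ 16 * z ^ 14 + H ^ 22 * z ^ 20) ≤
      18 / 10 * 108 * 8 * κ ^ 10 * (2 * (H ^ 12 + H ^ 18 * z ^ 12 + H ^ 22 * z ^ 20)) :=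
        mul_le_mul_of_nonneg_left f6 (by positivity)
    _ ≤ 4000 * κ ^ 10 * (H ^ 12 + H ^ 18 * z ^ 12 + H ^ 22 * z ^ 20) := by
        have : 0 < κ ^ 10 * (H ^ 12 + H ^ 18 * z ^ 12 + H ^ 22 * z ^ 20) := by positivity
        nlinarith

/-- from a pointwise bound to a bound of the integral over a window -/
private lemma lint_95 {F : ℝ → ℝ → ENNReal} {f : ℝ → ℝ → ℝ} {a b c d : ℝ}
    (hf : ContinuousOn (fun q : ℝ × ℝ => f q.1 q.2) (univ ×ˢ Icc c d))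
    (h0 : ∀ T x, 0 ≤ f T x)
    (hF : ∀ T ∈ Icc a b, ∀ x ∈ Icc c d, F T x ≤ ENNReal.ofReal (f T x)) :
    ∫⁻ T in Icc a b, ∫⁻ x in Icc c d, F T x ≤ ENNReal.ofReal (∫ T in Icc a b, ∫ x in Icc c d, f T x) := by
  have hs : ∀ T, ContinuousOn (f T) (Icc c d) := by
    intro T
    exact hf.comp (f := fun x : ℝ => (T, x)) (by fun_prop) (fun x hx => ⟨mem_univ _, hx⟩)
  have h1 : ∀ T ∈ Icc a b, ∫⁻ x in Icc c d, F T x ≤ ENNReal.ofReal (∫ x in Icc c d, f T x) := by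
    intro T hT
    rw [ofReal_integral_eq_lintegral_ofReal ((hs T).integrableOn_compact isCompact_Icc)
      (Filter.Eventually.of_forall fun x => h0 T x)]
    exact setLIntegral_mono' measurableSet_Icc fun x hx => hF T hT x hx
  have h2 : ContinuousOn (fun T => ∫ x in Icc c d, f T x) (Icc a b) :=
    Pool.Agent.Helper76.MM.inner_contOn (hf.mono (prod_mono (subset_univ _) le_rfl))
  rw [ofReal_integral_eq_lintegral_ofReal (h2.integrableOn_compact isCompact_Icc)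
    (Filter.Eventually.of_forall fun T => integral_nonneg fun x => h0 T x)]
  exact setLIntegral_mono' measurableSet_Icc fun T hT => h1 T hT


private lemma win_95 {ε c₁ B L : ℝ} (hε : 0 < ε) (hc : 0 < c₁) (hc1 : c₁ ≤ 1) (hB : 1 ≤ B) (hL : 1 ≤ L) : ∃ C : ℝ, 1 ≤ C ∧
    ∀ (h : ℝ × ℝ → ℝ) (θ y X K g κ ρ T₁ x₀ ξ₁ : ℝ), Hom c₁ B h → 0 < y → 0 < X → X ≤ K → K * y ^ 2 = g ^ 8 → 1 ≤ g → 10 ≤ κ → 0 < ρ → ρ ≤ κ / g →
      κ / g ≤ 4 → 11 / 10 * (y * (κ / g)) ≤ k₀ c₁ B → X ≤ T₁ → T₁ ≤ 2 * X → ξ₁ = 1 / (16 * κ * (11 / 10 * (κ / g)) ^ 2 * g ^ 4) →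
      ∫⁻ T in Icc T₁ (T₁ + X / (4 * κ)), ∫⁻ x in Icc x₀ (x₀ + ξ₁), RR h L ρ K (fr θ y T x) ≤
        ENNReal.ofReal (C * (K / X) ^ ε * (X / (4 * κ) * ξ₁) * (κ ^ 10 * ((K / X) ^ 12 + (K / X) ^ 18 / g ^ 12 + (K / X) ^ 22 / g ^ 20))) := by
  obtain ⟨c₀, hc₀, Cd, C₁, hC₁, hhalf⟩ := half (c₁ := c₁) (B := B) (lam := 4 * L) hc hc1 hB (by linarith)
  obtain ⟨C₂, hC₂, hbad⟩ := bad_LL (ε := ε) (c₁ := c₁) (B := B) (lam := 4 * L) hε hc hc1 hB (by linarith)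
  refine ⟨(24 ^ 4 + 24 ^ 6) ^ 12 * (C₁ * (C₂ * 4000)), ?_, ?_⟩
  · have h1 : (1 : ℝ) ≤ C₁ * (C₂ * 4000) := by nlinarith
    have h2 : (1 : ℝ) ≤ (24 ^ 4 + 24 ^ 6) ^ 12 := by norm_num
    nlinarith
  intro h θ y X K g κ ρ T₁ x₀ ξ₁ hh hy hX hXK hKy hg hκ hρ hρκ hκg hk₀ hT₁ hT₁' hξ
  have hκ0 : 0 < κ := by linarith
  have hg0 : 0 < g := by linarith
  have hK : 0 < K := by linarith
  have hT₁0 : 0 < T₁ := by linarith
  obtain ⟨ρ₁, hρ₁⟩ : ∃ ρ₁, ρ₁ = κ / g := ⟨_, rfl⟩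
  rw [← hρ₁] at hρκ hκg hk₀ hξ
  have hρ₁0 : 0 < ρ₁ := by rw [hρ₁]; positivity
  have hgρ : g * ρ₁ = κ := by rw [hρ₁]; field_simp
  have hξ0 : 0 < ξ₁ := by rw [hξ]; positivity
  have hs1 : ξ₁ * (11 / 10 * ρ₁) ≤ 1 / 100 := by
    rw [hξ]
    have h1 : 1 / (16 * κ * (11 / 10 * ρ₁) ^ 2 * g ^ 4) * (11 / 10 * ρ₁) = 1 / (16 * κ * (11 / 10) * (g * ρ₁) * g ^ 3) := by
      field_simp
    rw [h1, hgρ]
    refine one_div_le_one_div_of_le (by norm_num) ?_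
    have h2 : 1 ≤ g ^ 3 := one_le_pow₀ hg
    have h3 : 100 ≤ 16 * κ * (11 / 10) * κ := by nlinarith
    nlinarith
  have hs : ξ₁ * ρ ≤ 1 / 100 := le_trans (mul_le_mul_of_nonneg_left (by linarith) hξ0.le) hs1
  have hH : 1 ≤ K / X := by rw [le_div_iff₀ hX]; linarith
  have hH0 : 0 < K / X := by positivity
  have hq : X / (4 * κ) ≤ 1 / 4 * T₁ := by
    rw [div_le_iff₀ (by positivity)]
    nlinarith
  obtain ⟨S, hS⟩ : ∃ S, S = s0 (2 * L) (11 / 10 * ρ₁) K T₁ x₀ := ⟨_, rfl⟩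
  have hSk : ∀ k ∈ S, k.2 ≠ 0 ∧ (K / X) / (4 * L) ≤ uu x₀ k ∧ uu x₀ k ≤ 4 * L * (K / X) ∧ |tt x₀ k| ≤ 11 / 10 * ρ₁ := by
    intro k hk
    rw [hS, mem_s0_95 hT₁0 (by linarith) hK (by positivity)] at hk
    obtain ⟨⟨h1, h2, h3⟩, h4⟩ := hk
    have hu := pos_95 hT₁0 (by linarith) hK h1
    refine ⟨h4, ?_, ?_, ?_⟩
    · rw [div_div, div_le_iff₀ (by positivity)]
      calc K ≤ 2 * L * (T₁ * uu x₀ k) := h1
        _ ≤ 2 * L * (2 * X * uu x₀ k) := by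
            refine mul_le_mul_of_nonneg_left ?_ (by linarith)
            exact mul_le_mul_of_nonneg_right hT₁' hu.le
        _ = uu x₀ k * (X * (4 * L)) := by ring
    · have h5 : X * uu x₀ k ≤ 2 * L * K := (mul_le_mul_of_nonneg_right hT₁ hu.le).trans h2
      rw [show 4 * L * (K / X) = (4 * L * K) / X by ring, le_div_iff₀ hX]
      nlinarith [mul_pos (show 0 < L by linarith) hK]
    · unfold tt
      rw [abs_div, abs_of_pos hu, div_le_iff₀ hu]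
      exact h3
  -- pointwise
  have hp := hh.cv θ
  have hu0 : ∀ x ∈ Icc x₀ (x₀ + ξ₁), ∀ k ∈ S, uu x k ≠ 0 := by
    intro x hx k hk hu
    obtain ⟨h4, h1, h2, h3⟩ := hSk k hk
    have hu₀ : 0 < uu x₀ k := lt_of_lt_of_le (by positivity) h1
    have h5 : uu x k = uu x₀ k + (x - x₀) * (k.2 : ℝ) := by unfold uu; ring
    have h6 : |(k.2 : ℝ)| ≤ 11 / 10 * ρ₁ * uu x₀ k := by
      unfold tt at h3
      rwa [abs_div, abs_of_pos hu₀, div_le_iff₀ hu₀] at h3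
    have h7 : |(x - x₀) * (k.2 : ℝ)| ≤ 1 / 100 * uu x₀ k := by
      rw [abs_mul, abs_of_nonneg (by linarith [hx.1] : 0 ≤ x - x₀)]
      calc (x - x₀) * |(k.2 : ℝ)| ≤ ξ₁ * (11 / 10 * ρ₁ * uu x₀ k) :=
            mul_le_mul (by linarith [hx.2]) h6 (abs_nonneg _) hξ0.le
        _ = (ξ₁ * (11 / 10 * ρ₁)) * uu x₀ k := by ring
        _ ≤ 1 / 100 * uu x₀ k := mul_le_mul_of_nonneg_right hs1 hu₀.le
    rw [abs_le] at h7
    linarith [h7.1]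
  have hpt : ∀ T ∈ Icc T₁ (T₁ + X / (4 * κ)), ∀ x ∈ Icc x₀ (x₀ + ξ₁),
      RR h L ρ K (fr θ y T x) ≤ ENNReal.ofReal ((24 ^ 4 + 24 ^ 6) ^ 12 * W (sl h θ) y S (fun _ => 1) T x) := by
    intro T hT x hx
    have hT0 : 0 < T := by linarith [hT.1]
    rw [RR_fr hh hT0 (by linarith) hK hρ.le]
    refine ENNReal.ofReal_le_ofReal ?_
    unfold W
    refine m12_cut (cut_s0_95 hT0 (by linarith) hK hρ.le) ?_ _
    rw [hS]
    exact sub_95 hL hK hρ hρκ hT₁0 hT.1 (by linarith [hT.2]) hx.1 hx.2 hs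
  have hcont : ContinuousOn (fun q : ℝ × ℝ => (24 ^ 4 + 24 ^ 6) ^ 12 * W (sl h θ) y S (fun _ => 1) q.1 q.2) (univ ×ˢ Icc x₀ (x₀ + ξ₁)) :=
    (W_cont hp.sm.continuous (fun _ => 1) hu0).const_mul _
  refine (lint_95 (f := fun T x => (24 ^ 4 + 24 ^ 6) ^ 12 * W (sl h θ) y S (fun _ => 1) T x) hcont
    (fun T x => mul_nonneg (by positivity) (Pool.Agent.Helper92.DT.m12_nonneg _ _)) hpt).trans ?_
  refine ENNReal.ofReal_le_ofReal ?_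
  have e1 : ∫ T in Icc T₁ (T₁ + X / (4 * κ)), ∫ x in Icc x₀ (x₀ + ξ₁), (24 ^ 4 + 24 ^ 6) ^ 12 * W (sl h θ) y S (fun _ => 1) T x =
      (24 ^ 4 + 24 ^ 6) ^ 12 * BX (sl h θ) y S (fun _ => 1) T₁ (T₁ + X / (4 * κ)) x₀ (x₀ + ξ₁) := by
    unfold BX
    simp only [integral_const_mul]
  rw [e1]
  -- `half`
  have hG : g ^ 8 = y ^ 2 * X * (K / X) := by
    rw [← hKy]
    field_simp
  have hsq : √(g ^ 8) = g ^ 4 := by
    rw [show g ^ 8 = (g ^ 4) ^ 2 by ring]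
    exact Real.sqrt_sq (by positivity)
  obtain ⟨v, w, hv, hw, hle⟩ := hhalf (sl h θ) x₀ y (11 / 10 * ρ₁) X T₁ (K / X) (g ^ 8) κ ξ₁ (fun _ => 1) S hp
    (fun _ => by simp) hy (by positivity) (by linarith) (by linarith) hH0 hX hT₁ (by linarith) (by linarith) hG
    (by
      rw [hsq]
      have h2 : 1 ≤ g ^ 3 := one_le_pow₀ hg
      have h3 : 11 / 10 * ρ₁ * g ^ 4 = 11 / 10 * (g * ρ₁) * g ^ 3 := by ring
      rw [h3, hgρ]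
      nlinarith)
    (by rw [hsq]; exact hξ) (fun k hk => (hSk k hk).2)
  -- `bad_LL`
  have hX₁ : 0 < y ^ 2 * (X / (4 * κ)) := by positivity
  have hX₂ : 0 < 4 * y ^ 2 * T₁ * ξ₁ := by positivity
  have hHX₁ : K / X * (y ^ 2 * (X / (4 * κ))) = g ^ 8 / (4 * κ) := by
    rw [← hKy]
    field_simp
  have hHX₂ : g ^ 6 / (484 / 100 * κ ^ 3) ≤ K / X * (4 * y ^ 2 * T₁ * ξ₁) := by
    have h1 : K / X * (4 * y ^ 2 * X * ξ₁) ≤ K / X * (4 * y ^ 2 * T₁ * ξ₁) := by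
      refine mul_le_mul_of_nonneg_left ?_ hH0.le
      refine mul_le_mul_of_nonneg_right ?_ hξ0.le
      exact mul_le_mul_of_nonneg_left hT₁ (by positivity)
    refine le_trans (le_of_eq ?_) h1
    have h2 : K / X * (4 * y ^ 2 * X * ξ₁) = 4 * (K * y ^ 2) * ξ₁ := by field_simp
    rw [h2, hKy, hξ]
    have h3 : ρ₁ = κ / g := hρ₁
    rw [h3]
    field_simp
    ring
  have hη : 1 / (K / X * (4 * y ^ 2 * T₁ * ξ₁)) + 11 / 10 * ρ₁ / (K / X * (y ^ 2 * (X / (4 * κ)))) ≤ (3 * κ / g ^ 2) ^ 3 := by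
    have h1 : 1 / (K / X * (4 * y ^ 2 * T₁ * ξ₁)) ≤ 1 / (g ^ 6 / (484 / 100 * κ ^ 3)) :=
      one_div_le_one_div_of_le (by positivity) hHX₂
    rw [hHX₁]
    refine (add_le_add h1 le_rfl).trans ?_
    obtain ⟨z, hz⟩ : ∃ z, z = g⁻¹ := ⟨_, rfl⟩
    have hz0 : 0 < z := by rw [hz]; positivity
    have hz1 : z ≤ 1 := by rw [hz]; exact inv_le_one_of_one_le₀ hg
    have e2 : 1 / (g ^ 6 / (484 / 100 * κ ^ 3)) = 484 / 100 * κ ^ 3 * z ^ 6 := by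
      rw [hz]
      field_simp
    have e3 : 11 / 10 * ρ₁ / (g ^ 8 / (4 * κ)) = 44 / 10 * κ ^ 2 * z ^ 9 := by
      rw [hz, hρ₁]
      field_simp
      ring
    have e4 : (3 * κ / g ^ 2) ^ 3 = 27 * κ ^ 3 * z ^ 6 := by
      rw [hz]
      field_simp
      ring
    rw [e2, e3, e4]
    have h2 : 44 / 10 * κ ^ 2 * z ^ 9 ≤ 44 / 10 * κ ^ 3 * z ^ 6 := by
      have h3 : z ^ 3 ≤ 1 := pow_le_one₀ hz0.le hz1
      have h4 : z ^ 3 ≤ κ := by linarith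
      calc 44 / 10 * κ ^ 2 * z ^ 9 = 44 / 10 * κ ^ 2 * z ^ 6 * z ^ 3 := by ring
        _ ≤ 44 / 10 * κ ^ 2 * z ^ 6 * κ := mul_le_mul_of_nonneg_left h4 (by positivity)
        _ = 44 / 10 * κ ^ 3 * z ^ 6 := by ring
    have h5 : 0 < κ ^ 3 * z ^ 6 := by positivity
    linarith
  have hLL := hbad (sl h θ) x₀ y (11 / 10 * ρ₁) (K / X) (y ^ 2 * (X / (4 * κ))) (4 * y ^ 2 * T₁ * ξ₁) (3 * κ / g ^ 2) v w
    (fun _ => 1) S hp (fun _ => by simp) hy (by positivity) (by linarith) (by linarith) hH hX₁ hX₂ hv.wt hw.wt (by positivity) hη hSk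
  rw [hHX₁] at hLL
  have har := arith_95 hH hg hκ
  rw [← hρ₁] at har
  have hHε : 0 < (K / X) ^ ε := Real.rpow_pos_of_pos hH0 _
  have hbound : LL v w (sl h θ) x₀ y S (fun _ => 1) ≤ C₂ * (K / X) ^ ε *
      (4000 * κ ^ 10 * ((K / X) ^ 12 + (K / X) ^ 18 / g ^ 12 + (K / X) ^ 22 / g ^ 20)) := by
    refine hLL.trans ?_
    calc C₂ * (K / X) ^ ε * (11 / 10 * ρ₁ * (K / X) ^ 2) ^ 6 * (1 + (K / X) ^ 2 * (3 * κ / g ^ 2)) ^ 3 *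
          (1 + (K / X) ^ 2 / √(g ^ 8 / (4 * κ))) ^ 2 =
        C₂ * (K / X) ^ ε * ((11 / 10 * ρ₁ * (K / X) ^ 2) ^ 6 * (1 + (K / X) ^ 2 * (3 * κ / g ^ 2)) ^ 3 *
          (1 + (K / X) ^ 2 / √(g ^ 8 / (4 * κ))) ^ 2) := by ring
      _ ≤ _ := mul_le_mul_of_nonneg_left har (by positivity)
  have h1 : BX (sl h θ) y S (fun _ => 1) T₁ (T₁ + X / (4 * κ)) x₀ (x₀ + ξ₁) ≤ C₁ * (X / (4 * κ) * ξ₁) * (C₂ * (K / X) ^ ε *
      (4000 * κ ^ 10 * ((K / X) ^ 12 + (K / X) ^ 18 / g ^ 12 + (K / X) ^ 22 / g ^ 20))) :=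
    hle.trans (mul_le_mul_of_nonneg_left hbound (by positivity))
  calc (24 ^ 4 + 24 ^ 6) ^ 12 * BX (sl h θ) y S (fun _ => 1) T₁ (T₁ + X / (4 * κ)) x₀ (x₀ + ξ₁) ≤
      (24 ^ 4 + 24 ^ 6) ^ 12 * (C₁ * (X / (4 * κ) * ξ₁) * (C₂ * (K / X) ^ ε *
      (4000 * κ ^ 10 * ((K / X) ^ 12 + (K / X) ^ 18 / g ^ 12 + (K / X) ^ 22 / g ^ 20)))) :=
        mul_le_mul_of_nonneg_left h1 (by positivity)
    _ = _ := by ring

/-- covering of a rectangle by windows -/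
private lemma cover_95 {F : ℝ → ℝ → ENNReal} (hF : Measurable (fun q : ℝ × ℝ => F q.1 q.2)) {a b c d δ ξ : ℝ} {M : ENNReal} (I J : ℕ)
    (hδ : 0 < δ) (hξ : 0 < ξ) (hI : b ≤ a + I * δ) (hJ : d ≤ c + J * ξ)
    (h : ∀ i < I, ∀ j < J, ∫⁻ T in Icc (a + i * δ) (a + i * δ + δ), ∫⁻ x in Icc (c + j * ξ) (c + j * ξ + ξ), F T x ≤ M) :
    ∫⁻ T in Icc a b, ∫⁻ x in Icc c d, F T x ≤ (I * J : ℕ) * M := by
  have hcov : ∀ {a b δ : ℝ} {I : ℕ}, 0 < δ → b ≤ a + I * δ → Icc a b ⊆ (⋃ i : Fin I, Icc (a + (i : ℕ) * δ) (a + (i : ℕ) * δ + δ)) ∪ {a + I * δ} := by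
    intro a b δ I hδ hI t ht
    rcases eq_or_ne t (a + I * δ) with h1 | h1
    · exact Or.inr h1
    refine Or.inl ?_
    have h2 : t < a + I * δ := lt_of_le_of_ne (ht.2.trans hI) h1
    have h3 : 0 ≤ (t - a) / δ := div_nonneg (by linarith [ht.1]) hδ.le
    have h4 := Nat.floor_le h3
    have h5 := Nat.lt_floor_add_one ((t - a) / δ)
    rw [le_div_iff₀ hδ] at h4
    rw [div_lt_iff₀ hδ] at h5
    have h6 : ⌊(t - a) / δ⌋₊ < I := by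
      rw [Nat.floor_lt h3, div_lt_iff₀ hδ]
      linarith
    refine mem_iUnion.2 ⟨⟨_, h6⟩, ?_, ?_⟩
    · show a + (⌊(t - a) / δ⌋₊ : ℝ) * δ ≤ t
      linarith
    · show t ≤ a + (⌊(t - a) / δ⌋₊ : ℝ) * δ + δ
      linarith
  have hint : ∀ {a b δ : ℝ} {I : ℕ} (f : ℝ → ENNReal), 0 < δ → b ≤ a + I * δ →
      ∫⁻ t in Icc a b, f t ≤ ∑ i : Fin I, ∫⁻ t in Icc (a + (i : ℕ) * δ) (a + (i : ℕ) * δ + δ), f t := by
    intro a b δ I f hδ hI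
    refine (lintegral_mono_set (hcov hδ hI)).trans ?_
    refine (lintegral_union_le _ _ _).trans ?_
    have h1 : ∫⁻ t in {a + I * δ}, f t = 0 := by
      rw [Measure.restrict_eq_zero.2 (by simp), lintegral_zero_measure]
    rw [h1, add_zero]
    refine (lintegral_iUnion_le _ _).trans ?_
    rw [tsum_fintype]
  have hm : ∀ s : Set ℝ, Measurable (fun T => ∫⁻ x in s, F T x) := fun s => hF.lintegral_prod_right'
  calc ∫⁻ T in Icc a b, ∫⁻ x in Icc c d, F T x ≤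
      ∫⁻ T in Icc a b, ∑ j : Fin J, ∫⁻ x in Icc (c + (j : ℕ) * ξ) (c + (j : ℕ) * ξ + ξ), F T x :=
        lintegral_mono fun T => hint _ hξ hJ
    _ = ∑ j : Fin J, ∫⁻ T in Icc a b, ∫⁻ x in Icc (c + (j : ℕ) * ξ) (c + (j : ℕ) * ξ + ξ), F T x :=
        lintegral_finsetSum _ fun j _ => hm _
    _ ≤ ∑ j : Fin J, ∑ i : Fin I, ∫⁻ T in Icc (a + (i : ℕ) * δ) (a + (i : ℕ) * δ + δ),
          ∫⁻ x in Icc (c + (j : ℕ) * ξ) (c + (j : ℕ) * ξ + ξ), F T x :=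
        Finset.sum_le_sum fun j _ => hint _ hδ hI
    _ ≤ ∑ j : Fin J, ∑ i : Fin I, M :=
        Finset.sum_le_sum fun j _ => Finset.sum_le_sum fun i _ => h i i.2 j j.2
    _ = (I * J : ℕ) * M := by
        simp only [Finset.sum_const, Finset.card_univ, Fintype.card_fin, nsmul_eq_mul]
        push_cast
        ring


theorem bad {ε c₁ B L : ℝ} (hε : 0 < ε) (hc : 0 < c₁) (hc1 : c₁ ≤ 1) (hB : 1 ≤ B) (hL : 1 ≤ L) : ∃ C : ℝ, 1 ≤ C ∧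
    ∀ (h : ℝ × ℝ → ℝ) (θ y X K G κ ρ : ℝ), Hom c₁ B h → 0 < y → 0 < X → 1 ≤ K * X → X ≤ K → G = K * y ^ 2 → 1 ≤ G → 10 ≤ κ → 0 < ρ → ρ ≤ κ * G ^ (-(1 / 8) : ℝ) →
      κ * G ^ (-(1 / 8) : ℝ) ≤ 4 → 11 / 10 * (y * (κ * G ^ (-(1 / 8) : ℝ))) ≤ k₀ c₁ B →
      ∫⁻ T in Icc X (2 * X), ∫⁻ x in Icc 0 1, RR h L ρ K (fr θ y T x) ≤ ENNReal.ofReal (C * κ ^ 20 * K ^ ε * X * BB (K / X) G) := by
  obtain ⟨C, hC, hwin⟩ := win_95 (ε := ε / 2) (c₁ := c₁) (B := B) (L := L) (by linarith) hc hc1 hB hL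
  refine ⟨3 * C, by linarith, ?_⟩
  intro h θ y X K G κ ρ hh hy hX hKX hXK hG hG1 hκ hρ hρκ hκg hk₀
  have hκ0 : 0 < κ := by linarith
  have hG0 : 0 < G := by linarith
  obtain ⟨g, hg⟩ : ∃ g, g = G ^ (1 / 8 : ℝ) := ⟨_, rfl⟩
  have hg0 : 0 < g := by rw [hg]; exact Real.rpow_pos_of_pos hG0 _
  have hg1 : 1 ≤ g := by rw [hg]; exact Real.one_le_rpow hG1 (by norm_num)
  have hg8 : g ^ 8 = G := by
    rw [hg, ← Real.rpow_natCast, ← Real.rpow_mul hG0.le]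
    norm_num
  have e1 : G ^ (-(1 / 8) : ℝ) = g⁻¹ := by rw [hg, Real.rpow_neg hG0.le]
  have e2 : G ^ (-(3 / 2) : ℝ) = (g ^ 12)⁻¹ := by
    rw [Real.rpow_neg hG0.le, hg, ← Real.rpow_natCast, ← Real.rpow_mul hG0.le]
    norm_num
  have e3 : G ^ (-(5 / 2) : ℝ) = (g ^ 20)⁻¹ := by
    rw [Real.rpow_neg hG0.le, hg, ← Real.rpow_natCast, ← Real.rpow_mul hG0.le]
    norm_num
  rw [e1, ← div_eq_mul_inv] at hρκ hκg hk₀
  obtain ⟨ξ₁, hξ⟩ : ∃ ξ₁, ξ₁ = 1 / (16 * κ * (11 / 10 * (κ / g)) ^ 2 * g ^ 4) := ⟨_, rfl⟩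
  have hξ0 : 0 < ξ₁ := by rw [hξ]; positivity
  have hξ1 : ξ₁ ≤ 1 := by
    rw [hξ, div_le_one (by positivity)]
    have h1 : 16 * κ * (11 / 10 * (κ / g)) ^ 2 * g ^ 4 = 16 * κ * (11 / 10) ^ 2 * κ ^ 2 * g ^ 2 := by
      field_simp
    rw [h1]
    have h2 : 1 ≤ g ^ 2 := one_le_pow₀ hg1
    have h3 : 1 ≤ κ ^ 2 := one_le_pow₀ (by linarith)
    have h4 : 1 ≤ κ ^ 2 * g ^ 2 := by nlinarith
    have h5 : 1 ≤ 16 * κ * (11 / 10) ^ 2 := by nlinarith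
    nlinarith
  have hK1 : 1 ≤ K := by nlinarith
  have hK : 0 < K := by linarith
  have hH0 : 0 < K / X := by positivity
  obtain ⟨Q, hQ⟩ : ∃ Q, Q = (K / X) ^ 12 + (K / X) ^ 18 / g ^ 12 + (K / X) ^ 22 / g ^ 20 := ⟨_, rfl⟩
  have hQ0 : 0 < Q := by rw [hQ]; positivity
  have hBB : BB (K / X) G = Q := by
    unfold BB
    rw [e2, e3, hQ]
    rfl
  have hmeas : Measurable (fun q : ℝ × ℝ => RR h L ρ K (fr θ y q.1 q.2)) :=
    (RR_meas hh.cont L ρ K).comp (fr_meas.comp (f := fun q : ℝ × ℝ => ((θ, y, q.1, q.2) : ℝ × ℝ × ℝ × ℝ)) (by fun_prop))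
  have hI1 := Nat.lt_floor_add_one (4 * κ)
  have hI2 := Nat.floor_le (show 0 ≤ 4 * κ by linarith)
  have hJ1 := Nat.lt_floor_add_one (1 / ξ₁)
  have hJ2 := Nat.floor_le (show 0 ≤ 1 / ξ₁ by positivity)
  have hδ : 0 < X / (4 * κ) := by positivity
  have hδ4 : 4 * κ * (X / (4 * κ)) = X := by field_simp
  have hcov := cover_95 (F := fun T x => RR h L ρ K (fr θ y T x)) hmeas (a := X) (b := 2 * X) (c := 0) (d := 1)
    (δ := X / (4 * κ)) (ξ := ξ₁)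
    (M := ENNReal.ofReal (C * (K / X) ^ (ε / 2) * (X / (4 * κ) * ξ₁) * (κ ^ 10 * Q)))
    (⌊4 * κ⌋₊ + 1) (⌊1 / ξ₁⌋₊ + 1) hδ hξ0
    (by
      push_cast
      have : 4 * κ * (X / (4 * κ)) ≤ ((⌊4 * κ⌋₊ : ℝ) + 1) * (X / (4 * κ)) := mul_le_mul_of_nonneg_right hI1.le hδ.le
      linarith)
    (by
      push_cast
      have : 1 / ξ₁ * ξ₁ ≤ ((⌊1 / ξ₁⌋₊ : ℝ) + 1) * ξ₁ := mul_le_mul_of_nonneg_right hJ1.le hξ0.le
      have h2 : 1 / ξ₁ * ξ₁ = 1 := by field_simp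
      linarith)
    (by
      intro i hi j _
      have hi' : (i : ℝ) ≤ 4 * κ := by
        have : (i : ℝ) ≤ (⌊4 * κ⌋₊ : ℝ) := by exact_mod_cast Nat.lt_succ_iff.1 hi
        linarith
      rw [hQ]
      refine hwin h θ y X K g κ ρ (X + i * (X / (4 * κ))) (0 + j * ξ₁) ξ₁ hh hy hX hXK (by rw [hg8, hG]) hg1 hκ hρ hρκ hκg hk₀ ?_ ?_ hξ
      · have : 0 ≤ (i : ℝ) * (X / (4 * κ)) := by positivity
        linarith
      · have : (i : ℝ) * (X / (4 * κ)) ≤ 4 * κ * (X / (4 * κ)) := mul_le_mul_of_nonneg_right hi' hδ.le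
        linarith)
  refine hcov.trans ?_
  have hε2 : (K / X) ^ (ε / 2) ≤ K ^ ε := by
    have h1 : K / X ≤ K ^ 2 := by
      rw [div_le_iff₀ hX]
      nlinarith
    calc (K / X) ^ (ε / 2) ≤ (K ^ 2) ^ (ε / 2) := Real.rpow_le_rpow hH0.le h1 (by linarith)
      _ = K ^ ε := by
          rw [← Real.rpow_natCast, ← Real.rpow_mul hK.le]
          congr 1
          push_cast
          ring
  have hHε : 0 < (K / X) ^ (ε / 2) := Real.rpow_pos_of_pos hH0 _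
  have hKε : 0 < K ^ ε := Real.rpow_pos_of_pos hK _
  have hnat : (((⌊4 * κ⌋₊ + 1) * (⌊1 / ξ₁⌋₊ + 1) : ℕ) : ENNReal) =
      ENNReal.ofReal (((⌊4 * κ⌋₊ : ℝ) + 1) * ((⌊1 / ξ₁⌋₊ : ℝ) + 1)) := by
    rw [← ENNReal.ofReal_natCast]
    push_cast
    rfl
  rw [hnat, ← ENNReal.ofReal_mul (by positivity), hBB]
  refine ENNReal.ofReal_le_ofReal ?_
  have hI3 : (⌊4 * κ⌋₊ : ℝ) + 1 ≤ 9 / 2 * κ := by linarith
  have hJ3 : (⌊1 / ξ₁⌋₊ : ℝ) + 1 ≤ 2 / ξ₁ := by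
    have h1 : 1 ≤ 1 / ξ₁ := by rw [le_div_iff₀ hξ0]; linarith
    have h2 : 2 / ξ₁ = 1 / ξ₁ + 1 / ξ₁ := by ring
    linarith
  have hκ10 : κ ^ 10 ≤ κ ^ 20 := pow_le_pow_right₀ (by linarith) (by norm_num)
  calc ((⌊4 * κ⌋₊ : ℝ) + 1) * ((⌊1 / ξ₁⌋₊ : ℝ) + 1) * (C * (K / X) ^ (ε / 2) * (X / (4 * κ) * ξ₁) * (κ ^ 10 * Q)) ≤
      (9 / 2 * κ * (2 / ξ₁)) * (C * K ^ ε * (X / (4 * κ) * ξ₁) * (κ ^ 20 * Q)) := by
        refine mul_le_mul (mul_le_mul hI3 hJ3 (by positivity) (by positivity)) ?_ (by positivity) (by positivity)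
        refine mul_le_mul ?_ (mul_le_mul_of_nonneg_right hκ10 hQ0.le) (by positivity) (by positivity)
        exact mul_le_mul_of_nonneg_right (mul_le_mul_of_nonneg_left hε2 (by linarith)) (by positivity)
    _ = 9 / 4 * C * κ ^ 20 * K ^ ε * X * Q := by
        field_simp
    _ ≤ 3 * C * κ ^ 20 * K ^ ε * X * Q := by
        have : 0 < C * κ ^ 20 * K ^ ε * X * Q := by positivity
        nlinarith

end Pool.Agent.Helper60.LT
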