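import Pool.Agent.Helper60.LT.A3
import Pool.Agent.Helper60.LT.A5
import Pool.Agent.Helper60.LT.C3

/-!
# LT-F0: from arcs to frames, pointwise

PROOFS. `st_cut`, `s0_cut`: `cut_poly` for four half planes (`mem_st`: `K ≤ L T u`, `T u ≤ L K`, `k.2 ≤ S u`, `-k.2 ≤ S u`), `cut_diff` with `{k.2 = 0}`. `PP_mono`: `st L S K T x ⊆ st L S' K T x`, `m12_cut` with `st_cut`.
`base_sub`: `uu x₀ k = u (1 - (x - x₀) t)` with `u = uu x k`, `t = tt x k`, `|(x - x₀) t| ≤ 1/40`, so `T₁ uu x₀ k` is between `(4/5)(39/40) T u` and `(41/40) T u`, `|tt x₀ k| ≤ (40/39) S`.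
`arc_pt`: for `k ∈ I`: `uu x k = uu x₀ k (1 + (x - x₀) tt x₀ k)`, `|(x - x₀) tt x₀ k| ≤ 33/800`, the same for `n` with `1/20`; `T uu x k` between `(3/4)(767/800) K/(2L) ≥ K/(3L)` and `(5/4)(833/800) 2 L K ≤ 3 L K`; `(tt x k - tt x n) uu x n ^ 2 = dd n k · uu x n/uu x k`
(`dd n k = uu x n uu x k (tt x k - tt x n)` for every `x`), so it is at most `(21/20)/(767/800) ≤ 10/9` times the value at `x₀`; `yf |tt x n| ≤ (1/5)(20/19) ≤ 1/4`, `yf |tt x k| ≤ (11/10)(1/10)(800/767) ≤ 1/4`; `transfer` (A3) with `3 L`, `σ := (10/9) σ`; `fr_coord`. Sizes: `Tf_ac`.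
`nn_of`: `co_spec`, `Tf (fr ..) = T ∈ [3/4 T₁, 5/4 T₁]`, `|n.2| = |s| u ≤ 4 u`.
-/

open MeasureTheory Real Set Filter Topology

set_option autoImplicit false

namespace Pool.Agent.Helper60.LT

open Pool.Agent.Helper22.AE
open Pool.Agent.Helper92.GC (dt tp Tq uu tt arc gs dd)
open Pool.Agent.Helper92.DT (m12 IsMul12)

private lemma upos33 {L K T u : ℝ} (hT : 0 < T) (hL : 0 < L) (hK : 0 < K) (h : K ≤ L * (T * u)) : 0 < u := by
  by_contra hu
  push Not at hu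
  have h1 : L * (T * u) ≤ 0 := mul_nonpos_of_nonneg_of_nonpos hL.le (mul_nonpos_of_nonneg_of_nonpos hT.le hu)
  linarith

private lemma near33 {x x₀ S : ℝ} {k : ℤ × ℤ} (hu : 0 < uu x k) (hS : 0 ≤ S) (hk : |(k.2 : ℝ)| ≤ S * uu x k) (hx : |x - x₀| * S ≤ 1 / 40) :
    39 / 40 * uu x k ≤ uu x₀ k ∧ uu x₀ k ≤ 41 / 40 * uu x k := by
  have e1 : uu x₀ k = uu x k - (x - x₀) * (k.2 : ℝ) := by
    unfold uu
    ring
  have q1 : |(x - x₀) * (k.2 : ℝ)| ≤ 1 / 40 * uu x k := by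
    rw [abs_mul]
    have q2 : |x - x₀| * |(k.2 : ℝ)| ≤ |x - x₀| * (S * uu x k) := mul_le_mul_of_nonneg_left hk (abs_nonneg _)
    have q3 : |x - x₀| * S * uu x k ≤ 1 / 40 * uu x k := mul_le_mul_of_nonneg_right hx hu.le
    have e2 : |x - x₀| * (S * uu x k) = |x - x₀| * S * uu x k := by ring
    linarith
  have q2 := abs_le.1 q1
  constructor <;> linarith

private lemma abs_tt33 {x : ℝ} {k : ℤ × ℤ} (hu : 0 < uu x k) : |(k.2 : ℝ)| = |tt x k| * uu x k := by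
  unfold tt
  rw [abs_div, abs_of_pos hu, div_mul_cancel₀ _ hu.ne']

private lemma nearn33 {x x₀ : ℝ} {n : ℤ × ℤ} (hun : 0 < uu x₀ n) (hsn : |tt x₀ n| ≤ 4) (hx : |x - x₀| ≤ 1 / 80) :
    19 / 20 * uu x₀ n ≤ uu x n ∧ uu x n ≤ 21 / 20 * uu x₀ n := by
  have e1 : uu x n = uu x₀ n + (x - x₀) * (n.2 : ℝ) := by
    unfold uu
    ring
  have q0 : |(n.2 : ℝ)| ≤ 4 * uu x₀ n := by
    rw [abs_tt33 hun]
    exact mul_le_mul_of_nonneg_right hsn hun.le
  have q1 : |(x - x₀) * (n.2 : ℝ)| ≤ 1 / 80 * (4 * uu x₀ n) := by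
    rw [abs_mul]
    exact mul_le_mul hx q0 (abs_nonneg _) (by norm_num)
  have q2 := abs_le.1 q1
  constructor <;> linarith

private lemma diff33 {x D : ℝ} {k n : ℤ × ℤ} (hu : 0 < uu x k) (hun : 0 < uu x n) (hD : D = |(n.1 : ℝ) * k.2 - n.2 * k.1|) :
    |tt x k - tt x n| * uu x n ^ 2 * uu x k = D * uu x n := by
  have e1 : (tt x k - tt x n) * uu x n * uu x k = (n.1 : ℝ) * k.2 - n.2 * k.1 := by
    have a1 : tt x k * uu x k = (k.2 : ℝ) := by
      unfold tt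
      rw [div_mul_cancel₀ _ hu.ne']
    have a2 : tt x n * uu x n = (n.2 : ℝ) := by
      unfold tt
      rw [div_mul_cancel₀ _ hun.ne']
    have b1 : uu x k = (k.1 : ℝ) + x * (k.2 : ℝ) := rfl
    have b2 : uu x n = (n.1 : ℝ) + x * (n.2 : ℝ) := rfl
    have c1 : (tt x k - tt x n) * uu x n * uu x k = (tt x k * uu x k) * uu x n - (tt x n * uu x n) * uu x k := by ring
    rw [c1, a1, a2, b1, b2]
    ring
  have e2 : D = |tt x k - tt x n| * uu x n * uu x k := by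
    rw [hD, ← e1, abs_mul, abs_mul, abs_of_pos hun, abs_of_pos hu]
  rw [e2]
  ring

theorem st_cut {L S K T x : ℝ} (hT : 0 < T) (hL : 0 < L) (hK : 0 < K) (hS : 0 ≤ S) : Cut (24 ^ 4) (st L S K T x) := by
  have h1 : ∀ k : ℤ × ℤ, k ∈ st L S K T x ↔ ∀ i : Fin 4, if (![true, true, true, true] : Fin 4 → Bool) i then
      (![K, -(L * K), 0, 0] : Fin 4 → ℝ) i ≤ (![L * T, -T, S, S] : Fin 4 → ℝ) i * (k.1 : ℝ) +
        (![L * T * x, -(T * x), S * x - 1, S * x + 1] : Fin 4 → ℝ) i * (k.2 : ℝ)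
      else (![K, -(L * K), 0, 0] : Fin 4 → ℝ) i < (![L * T, -T, S, S] : Fin 4 → ℝ) i * (k.1 : ℝ) +
        (![L * T * x, -(T * x), S * x - 1, S * x + 1] : Fin 4 → ℝ) i * (k.2 : ℝ) := by
    intro k
    rw [mem_st hT hL hK hS, abs_le]
    simp only [Fin.forall_fin_succ, IsEmpty.forall_iff, and_true, Matrix.cons_val_zero, Matrix.cons_val_succ, if_true]
    unfold uu
    constructor
    · rintro ⟨h1, h2, h3, h4⟩
      refine ⟨?_, ?_, ?_, ?_⟩ <;> linarith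
    · rintro ⟨h1, h2, h3, h4⟩
      refine ⟨?_, ?_, ?_, ?_⟩ <;> linarith
  exact cut_poly 4 _ _ _ _ _ h1

theorem s0_cut {L S K T x : ℝ} (hT : 0 < T) (hL : 0 < L) (hK : 0 < K) (hS : 0 ≤ S) : Cut (24 ^ 4 + 24 ^ 6) (s0 L S K T x) := by
  classical
  have hst := st_cut (S := S) (x := x) hT hL hK hS
  obtain ⟨J, hJ⟩ : ∃ J : Finset (ℤ × ℤ), ∀ k, k ∈ J ↔ k ∈ st L S K T x ∧ k.2 = 0 :=
    ⟨(st L S K T x).filter (fun k => k.2 = 0), fun k => Finset.mem_filter⟩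
  have h1 : Cut (24 ^ 2 * 24 ^ 4) J := by
    refine cut_inter hst (by positivity) 2 ![0, 0] ![1, -1] ![0, 0] ![true, true] J fun k => ?_
    rw [hJ k]
    refine and_congr_right fun _ => ?_
    simp only [Fin.forall_fin_two, Matrix.cons_val_zero, Matrix.cons_val_one, if_true]
    constructor
    · intro h0
      rw [h0]
      norm_num
    · rintro ⟨h2, h3⟩
      have h4 : (k.2 : ℝ) = 0 := by linarith
      exact_mod_cast h4
  have e : s0 L S K T x = st L S K T x \ J := by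
    ext k
    unfold s0
    rw [Finset.mem_filter, Finset.mem_sdiff, hJ]
    tauto
  rw [e]
  have e2 : (24 : ℝ) ^ 2 * 24 ^ 4 = 24 ^ 6 := by norm_num
  rw [e2] at h1
  exact cut_diff hst h1 fun k hk => ((hJ k).1 hk).1

theorem sh_cut {L S K T x : ℝ} (hT : 0 < T) (hL : 0 < L) (hK : 0 < K) (hS : 0 ≤ S) : Cut (24 ^ 4 + 24 ^ 6) (sh L S K T x) := by
  classical
  have hst := st_cut (S := S) (x := x) hT hL hK hS
  obtain ⟨J, hJ⟩ : ∃ J : Finset (ℤ × ℤ), ∀ k, k ∈ J ↔ k ∈ st L S K T x ∧ |(k.2 : ℝ)| ≤ S / 2 * uu x k :=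
    ⟨(st L S K T x).filter (fun k => |(k.2 : ℝ)| ≤ S / 2 * uu x k), fun k => Finset.mem_filter⟩
  have h1 : Cut (24 ^ 2 * 24 ^ 4) J := by
    refine cut_inter hst (by positivity) 2 ![S / 2, S / 2] ![S / 2 * x - 1, S / 2 * x + 1] ![0, 0] ![true, true] J fun k => ?_
    rw [hJ k]
    refine and_congr_right fun _ => ?_
    rw [abs_le]
    simp only [Fin.forall_fin_two, Matrix.cons_val_zero, Matrix.cons_val_one, if_true]
    unfold uu
    constructor
    · rintro ⟨h2, h3⟩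
      constructor <;> linarith
    · rintro ⟨h2, h3⟩
      constructor <;> linarith
  have e : sh L S K T x = st L S K T x \ J := by
    ext k
    unfold sh
    rw [Finset.mem_filter, Finset.mem_sdiff, hJ, ← not_le]
    tauto
  rw [e]
  have e2 : (24 : ℝ) ^ 2 * 24 ^ 4 = 24 ^ 6 := by norm_num
  rw [e2] at h1
  exact cut_diff hst h1 fun k hk => ((hJ k).1 hk).1

theorem PP_mono {h : ℝ × ℝ → ℝ} {L S S' K : ℝ} (hL : 0 < L) (hK : 0 < K) (hS : 0 ≤ S) (hSS : S ≤ S') {f : Fr} (hf : 0 < Tf f) :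
    PP h L S K f ≤ ENNReal.ofReal (24 ^ 48) * PP h L S' K f := by
  have hsub : st L S K (Tf f) (xf f) ⊆ st L S' K (Tf f) (xf f) := by
    intro k hk
    rw [mem_st hf hL hK hS] at hk
    rw [mem_st hf hL hK (hS.trans hSS)]
    obtain ⟨h1, h2, h3⟩ := hk
    exact ⟨h1, h2, h3.trans (mul_le_mul_of_nonneg_right hSS (upos33 hf hL hK h1).le)⟩
  have h1 := m12_cut (st_cut (S := S) (x := xf f) hf hL hK hS) hsub (fun k => ee (h (vf f k)))
  unfold PP
  rw [← ENNReal.ofReal_mul (by positivity)]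
  refine ENNReal.ofReal_le_ofReal (h1.trans (le_of_eq ?_))
  rw [← pow_mul]

theorem base_sub {L S K T T₁ x x₀ : ℝ} (hL : 1 ≤ L) (hK : 0 < K) (hS : 0 ≤ S) (hT₁ : 0 < T₁) (h1 : T₁ ≤ T) (h2 : T ≤ 5 / 4 * T₁) (hx : |x - x₀| * S ≤ 1 / 40) :
    st L S K T x ⊆ st (2 * L) (11 / 10 * S) K T₁ x₀ ∧ s0 L S K T x ⊆ s0 (2 * L) (11 / 10 * S) K T₁ x₀ ∧
      ∀ k ∈ sh L S K T x, k ∈ st (2 * L) (11 / 10 * S) K T₁ x₀ ∧ 2 / 5 * S * uu x₀ k < |(k.2 : ℝ)| := by
  have hL0 : 0 < L := by linarith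
  have hT : 0 < T := by linarith
  have hmain : ∀ k ∈ st L S K T x, k ∈ st (2 * L) (11 / 10 * S) K T₁ x₀ ∧ uu x₀ k ≤ 41 / 40 * uu x k := by
    intro k hk
    rw [mem_st hT hL0 hK hS] at hk
    obtain ⟨g1, g2, g3⟩ := hk
    have hu := upos33 hT hL0 hK g1
    obtain ⟨g4, g5⟩ := near33 (x := x) (x₀ := x₀) (k := k) hu hS g3 hx
    rw [mem_st hT₁ (by linarith) hK (by linarith)]
    have hu₀ : 0 < uu x₀ k := by linarith
    refine ⟨⟨?_, ?_, ?_⟩, g5⟩
    · have q1 : 4 / 5 * T * (39 / 40 * uu x k) ≤ T₁ * uu x₀ k :=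
        mul_le_mul (by linarith) g4 (by positivity) hT₁.le
      have q2 : L * (4 / 5 * T * (39 / 40 * uu x k)) ≤ L * (T₁ * uu x₀ k) := mul_le_mul_of_nonneg_left q1 hL0.le
      have q3 : 0 ≤ L * (T * uu x k) := by positivity
      have e1 : L * (4 / 5 * T * (39 / 40 * uu x k)) = 39 / 50 * (L * (T * uu x k)) := by ring
      have e2 : 2 * L * (T₁ * uu x₀ k) = 2 * (L * (T₁ * uu x₀ k)) := by ring
      linarith
    · have q1 : T₁ * uu x₀ k ≤ T * (41 / 40 * uu x k) := mul_le_mul h1 g5 hu₀.le hT.le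
      have q2 : 0 < L * K := by positivity
      have e1 : T * (41 / 40 * uu x k) = 41 / 40 * (T * uu x k) := by ring
      have e2 : 2 * L * K = 2 * (L * K) := by ring
      linarith
    · have q1 : S * uu x k ≤ S * (11 / 10 * uu x₀ k) := mul_le_mul_of_nonneg_left (by linarith) hS
      have e1 : S * (11 / 10 * uu x₀ k) = 11 / 10 * S * uu x₀ k := by ring
      linarith
  refine ⟨fun k hk => (hmain k hk).1, fun k hk => ?_, fun k hk => ?_⟩
  · unfold s0 at hk ⊢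
    rw [Finset.mem_filter] at hk ⊢
    exact ⟨(hmain k hk.1).1, hk.2⟩
  · unfold sh at hk
    rw [Finset.mem_filter] at hk
    obtain ⟨g1, g2⟩ := hk
    refine ⟨(hmain k g1).1, lt_of_le_of_lt ?_ g2⟩
    have g3 := (hmain k g1).2
    rw [mem_st hT hL0 hK hS] at g1
    have hu := upos33 hT hL0 hK g1.1
    have q1 : 2 / 5 * S * uu x₀ k ≤ 2 / 5 * S * (41 / 40 * uu x k) := mul_le_mul_of_nonneg_left g3 (by positivity)
    have q2 : 0 ≤ S * uu x k := by positivity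
    have e1 : 2 / 5 * S * (41 / 40 * uu x k) = 41 / 100 * (S * uu x k) := by ring
    have e2 : S / 2 * uu x k = 1 / 2 * (S * uu x k) := by ring
    linarith

theorem arc_pt {c₁ B L : ℝ} (hL : 1 ≤ L) {h : ℝ × ℝ → ℝ} (hh : Hom c₁ B h) {θ y T T₁ x x₀ S K C σ : ℝ} (hy : 0 < y) (hT₁ : 0 < T₁) (hT : |T - T₁| ≤ T₁ / 4)
    (hx : |x - x₀| ≤ 1 / 80) (hS : 0 ≤ S) (hS3 : S ≤ 3) (hK : 0 < K) {n : ℤ × ℤ} (hn : IsCoprime n.1 n.2) (hun : 0 < uu x₀ n) (hsn : |tt x₀ n| ≤ 4)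
    (hyn : y * |tt x₀ n| ≤ 1 / 5) (hyS : y * S ≤ 1 / 10) {I : Finset (ℤ × ℤ)} (hIS : I ⊆ st (2 * L) (11 / 10 * S) K T₁ x₀) (hC0 : 0 ≤ C) (hC : Cut C I)
    (hσ : 0 < σ) (hI : ∀ k ∈ I, |tt x₀ k - tt x₀ n| * uu x₀ n ^ 2 ≤ σ) :
    ENNReal.ofReal (m12 I (fun k => ee (h (vf (fr θ y T x) k)))) ≤ ENNReal.ofReal (C ^ 12) * PP h (6 * L) (4 / 3 * σ) K (ac n (co n) (fr θ y T x)) := by
  have hL0 : 0 < L := by linarith
  have hT' := abs_le.1 hT
  have hT0 : 0 < T := by linarith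
  obtain ⟨eT, ex, ey, -⟩ := fr_coord (θ := θ) (y := y) (x := x) hT0
  obtain ⟨n1, n2⟩ := nearn33 hun hsn hx
  have hun' : 0 < uu x n := by linarith
  have hyn' : y * |tt x n| ≤ 1 / 4 := by
    have q1 : |(n.2 : ℝ)| = |tt x₀ n| * uu x₀ n := abs_tt33 hun
    have q2 : |(n.2 : ℝ)| = |tt x n| * uu x n := abs_tt33 hun'
    have q3 : y * |tt x n| * uu x n ≤ 1 / 5 * uu x₀ n := by
      have e1 : y * |tt x n| * uu x n = y * |tt x₀ n| * uu x₀ n := by
        rw [mul_assoc, ← q2, q1, mul_assoc]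
      rw [e1]
      exact mul_le_mul_of_nonneg_right hyn hun.le
    by_contra hcon
    push Not at hcon
    have q4 : 1 / 4 * uu x n < y * |tt x n| * uu x n := mul_lt_mul_of_pos_right hcon hun'
    linarith
  have key : ∀ k ∈ I, K ≤ 3 * L * (T * uu x k) ∧ T * uu x k ≤ 3 * L * K ∧ y * |tt x k| ≤ 1 / 4 ∧
      |tt x k - tt x n| * uu x n ^ 2 ≤ 10 / 9 * σ := by
    intro k hk
    have hk1 := hIS hk
    rw [mem_st hT₁ (by linarith) hK (by linarith)] at hk1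
    obtain ⟨g1, g2, g3⟩ := hk1
    have hu₀ := upos33 hT₁ (by linarith) hK g1
    have g3' : |(k.2 : ℝ)| ≤ 33 / 10 * uu x₀ k := by
      have q1 : 11 / 10 * S * uu x₀ k ≤ 33 / 10 * uu x₀ k := mul_le_mul_of_nonneg_right (by linarith) hu₀.le
      linarith
    obtain ⟨k1, k2⟩ : 767 / 800 * uu x₀ k ≤ uu x k ∧ uu x k ≤ 833 / 800 * uu x₀ k := by
      have e1 : uu x k = uu x₀ k + (x - x₀) * (k.2 : ℝ) := by
        unfold uu
        ring
      have q1 : |(x - x₀) * (k.2 : ℝ)| ≤ 1 / 80 * (33 / 10 * uu x₀ k) := by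
        rw [abs_mul]
        exact mul_le_mul hx g3' (abs_nonneg _) (by norm_num)
      have q2 := abs_le.1 q1
      constructor <;> linarith
    have hu : 0 < uu x k := by linarith
    refine ⟨?_, ?_, ?_, ?_⟩
    · have q1 : 3 / 4 * T₁ * (767 / 800 * uu x₀ k) ≤ T * uu x k := mul_le_mul (by linarith) k1 (by positivity) hT0.le
      have q2 : L * (3 / 4 * T₁ * (767 / 800 * uu x₀ k)) ≤ L * (T * uu x k) := mul_le_mul_of_nonneg_left q1 hL0.le
      have q3 : 0 ≤ L * (T₁ * uu x₀ k) := by positivity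
      have e1 : L * (3 / 4 * T₁ * (767 / 800 * uu x₀ k)) = 2301 / 3200 * (L * (T₁ * uu x₀ k)) := by ring
      have e2 : 2 * L * (T₁ * uu x₀ k) = 2 * (L * (T₁ * uu x₀ k)) := by ring
      have e3 : 3 * L * (T * uu x k) = 3 * (L * (T * uu x k)) := by ring
      linarith
    · have q1 : T * uu x k ≤ 5 / 4 * T₁ * (833 / 800 * uu x₀ k) := mul_le_mul (by linarith) k2 hu.le (by positivity)
      have q2 : 0 < L * K := by positivity
      have e1 : 5 / 4 * T₁ * (833 / 800 * uu x₀ k) = 833 / 640 * (T₁ * uu x₀ k) := by ring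
      have e2 : 2 * L * K = 2 * (L * K) := by ring
      have e3 : 3 * L * K = 3 * (L * K) := by ring
      linarith
    · have q2 : |(k.2 : ℝ)| = |tt x k| * uu x k := abs_tt33 hu
      have q3 : y * |tt x k| * uu x k ≤ 11 / 100 * uu x₀ k := by
        have e1 : y * |tt x k| * uu x k = y * |(k.2 : ℝ)| := by rw [mul_assoc, ← q2]
        have q4 : y * |(k.2 : ℝ)| ≤ y * (11 / 10 * S * uu x₀ k) := mul_le_mul_of_nonneg_left g3 hy.le
        have e2 : y * (11 / 10 * S * uu x₀ k) = 11 / 10 * (y * S * uu x₀ k) := by ring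
        have q5 : y * S * uu x₀ k ≤ 1 / 10 * uu x₀ k := mul_le_mul_of_nonneg_right hyS hu₀.le
        linarith
      by_contra hcon
      push Not at hcon
      have q4 : 1 / 4 * uu x k < y * |tt x k| * uu x k := mul_lt_mul_of_pos_right hcon hu
      linarith
    · have hI' := hI k hk
      obtain ⟨D, hD⟩ : ∃ D : ℝ, D = |(n.1 : ℝ) * k.2 - n.2 * k.1| := ⟨_, rfl⟩
      have hD0 : 0 ≤ D := by
        rw [hD]
        exact abs_nonneg _
      have p1 := diff33 (x := x₀) hu₀ hun hD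
      have p2 := diff33 (x := x) hu hun' hD
      -- `p1 : |..| * u_n ^ 2 * u_k = D * u_n`
      have q1 : D * uu x₀ n ≤ σ * uu x₀ k := by
        rw [← p1]
        exact mul_le_mul_of_nonneg_right hI' hu₀.le
      have q2 : D * uu x n ≤ 21 / 20 * (D * uu x₀ n) := by
        have q3 : D * uu x n ≤ D * (21 / 20 * uu x₀ n) := mul_le_mul_of_nonneg_left n2 hD0
        have e1 : D * (21 / 20 * uu x₀ n) = 21 / 20 * (D * uu x₀ n) := by ring
        linarith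
      by_contra hcon
      push Not at hcon
      have q4 : 10 / 9 * σ * uu x k < |tt x k - tt x n| * uu x n ^ 2 * uu x k := mul_lt_mul_of_pos_right hcon hu
      rw [p2] at q4
      have q5 : σ * (767 / 800 * uu x₀ k) ≤ σ * uu x k := mul_le_mul_of_nonneg_left k1 hσ.le
      have q6 : 0 < σ * uu x₀ k := mul_pos hσ hu₀
      have e1 : σ * (767 / 800 * uu x₀ k) = 767 / 800 * (σ * uu x₀ k) := by ring
      have e2 : 10 / 9 * σ * uu x k = 10 / 9 * (σ * uu x k) := by ring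
      linarith
  have h1 := transfer (h := h) (L := 3 * L) (K := K) (σ := 10 / 9 * σ) (C := C) (by linarith) hK (by positivity)
    (f := fr θ y T x) (by rw [eT]; exact hT0) (by rw [ey]; exact hy) hn (by rw [ex]; exact hun') (by rw [ey, ex]; exact hyn') hC
    (fun k hk => by
      rw [eT, ex, ey]
      exact key k hk)
  have e1 : 2 * (3 * L) = 6 * L := by ring
  have e2 : 6 * (10 / 9 * σ) / 5 = 4 / 3 * σ := by ring
  rw [e1, e2] at h1
  exact h1

theorem nn_of {θ y T T₁ x x₀ b D : ℝ} (hb : 0 ≤ b) (hy : 0 < y) (hT₁ : 0 < T₁) (hT : |T - T₁| ≤ T₁ / 4) (hx : |x - x₀| ≤ 1 / 80) {n : ℤ × ℤ} (hn : IsCoprime n.1 n.2)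
    (hun : 0 < uu x₀ n) (hsn : |tt x₀ n| ≤ 4) (hyn : y * |tt x₀ n| ≤ 1 / 5) (h1 : D ≤ b * uu x₀ n) (h2 : uu x₀ n ≤ b * D) :
    NN (12 * b) D (fr θ y T x) n := by
  have hT' := abs_le.1 hT
  have hT0 : 0 < T := by linarith
  obtain ⟨eT, ex, ey, -⟩ := fr_coord (θ := θ) (y := y) (x := x) hT0
  obtain ⟨n1, n2⟩ := nearn33 hun hsn hx
  have hun' : 0 < uu x n := by linarith
  have hyn' : y * |tt x n| ≤ 1 / 4 := by
    have q1 : |(n.2 : ℝ)| = |tt x₀ n| * uu x₀ n := abs_tt33 hun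
    have q2 : |(n.2 : ℝ)| = |tt x n| * uu x n := abs_tt33 hun'
    have q3 : y * |tt x n| * uu x n ≤ 1 / 5 * uu x₀ n := by
      have e1 : y * |tt x n| * uu x n = y * |tt x₀ n| * uu x₀ n := by
        rw [mul_assoc, ← q2, q1, mul_assoc]
      rw [e1]
      exact mul_le_mul_of_nonneg_right hyn hun.le
    by_contra hcon
    push Not at hcon
    have q4 : 1 / 4 * uu x n < y * |tt x n| * uu x n := mul_lt_mul_of_pos_right hcon hun'
    linarith
  have h3 := Tf_ac (f := fr θ y T x) (n := n) (n' := co n) (by rw [eT]; exact hT0) (by rw [ey]; exact hy) (by rw [ex]; exact hun')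
    (by rw [ey, ex]; exact hyn')
  rw [eT, ex] at h3
  obtain ⟨h4, h5⟩ := h3
  have hbD : 0 < b * D := by linarith
  refine ⟨co_spec hn, ?_, ?_, ?_⟩
  · rw [eT]
    have q1 : D * T ≤ b * uu x₀ n * T := mul_le_mul_of_nonneg_right h1 hT0.le
    have q2 : b * T * uu x₀ n ≤ b * T * (20 / 19 * uu x n) := mul_le_mul_of_nonneg_left (by linarith) (by positivity)
    have q3 : b * (uu x n * T) ≤ b * Tf (ac n (co n) (fr θ y T x)) := mul_le_mul_of_nonneg_left h4 hb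
    have q4 : 0 ≤ b * (uu x n * T) := by positivity
    have e1 : b * uu x₀ n * T = b * T * uu x₀ n := by ring
    have e2 : b * T * (20 / 19 * uu x n) = 20 / 19 * (b * (uu x n * T)) := by ring
    have e3 : 12 * b * Tf (ac n (co n) (fr θ y T x)) = 12 * (b * Tf (ac n (co n) (fr θ y T x))) := by ring
    linarith
  · rw [eT]
    refine h5.trans ?_
    have q1 : uu x n * T ≤ 21 / 20 * uu x₀ n * T := mul_le_mul_of_nonneg_right n2 hT0.le
    have q2 : uu x₀ n * T ≤ b * D * T := mul_le_mul_of_nonneg_right h2 hT0.le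
    have q3 : 0 < b * D * T := by positivity
    have e1 : 21 / 20 * uu x₀ n * T = 21 / 20 * (uu x₀ n * T) := by ring
    have e2 : 12 * b * D * T = 12 * (b * D * T) := by ring
    linarith
  · have q1 : |(n.2 : ℝ)| = |tt x₀ n| * uu x₀ n := abs_tt33 hun
    have q2 : |tt x₀ n| * uu x₀ n ≤ 4 * uu x₀ n := mul_le_mul_of_nonneg_right hsn hun.le
    have e2 : 12 * b * D = 12 * (b * D) := by ring
    linarith

end Pool.Agent.Helper60.LT
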