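import Pool.Agent.Helper60.LT.F0
import Pool.Agent.Helper60.LT.B4

/-!
# LT-F1: stage A on one window

PROOF. `S_w = st (2L) (11/10 S) K T₁ x₀`, `H = K/X`, `ρ = 11/10 S`, `lam = 4L`; on `S_w`: `H/(4L) ≤ u ≤ 2 L H`, `|t| ≤ ρ ≤ 33/10`. Large window: `|T - T₁| ≤ X/4 ≤ T₁/4`, `|x - x₀| ≤ 8 κ ξ₁ = 1/(2 ρ² √G) ≤ 1/90` (`ρ² √G ≥ 48`). Small window: `X/(4κ) ≤ T₁/4`, `|x - x₀| S ≤ 1/40`.
(1) For `(T, x)` in the small window `PP h L S K (fr θ y T x) ≤ ofReal (24^48) · ofReal (m12 S_w (ee h(vf (fr θ y T x) ·)))` (`base_sub`, `st_cut`, `m12_cut`; `fr_coord`).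
(2) `decomp` (C3) for `x = x₀`, `S = S_w`, `C = 24^4`: at most `Λ ≤ C (1 + log q)` levels `m` with `Kf m ≠ ∅` (then `q² ≤ M^m < 200 M q⁸`, for: a nonempty arc gives `n` with `q < u_n`, `48 u_n² ≤ M^m`), cusps grouped by `2^i/4 ≤ uu x₀ n < 2^(i+1)/4`, `2^i ≤ 4q`; each group has `≤ 15 · 4^i` elements (`count_NQ`);
`m12_union` twice: `m12 S_w ≤ C (1 + log q)^11 (∑_m m12 (Kf m) + ∑_i 15^11 2^(22 i) ∑_n m12 (cus n))`.
(3) Cusps: `arc_pt` (`σ = q⁻³`), `PP_mono` (`4/3 q⁻³ ≤ 2 q⁻³`), `nn_of` (`D = 2^i`, `b = 4`), at every `(T, x)` of the small window; `y |tt x₀ n| ≤ 1/5` if the cusp is not empty: `|s| ≤ ρ + 16 q⁻³`, `y ρ ≤ k₀ ≤ 1/100`, `y ≤ q`.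
(4) `Kf m`: `window` (B4, with `ε/6`, `n`) for `p = sl h θ`, `a = 1`: `BX (Kf m) ≤ C M^(ε m) M^(5 m) ∑_r (BX (arc_r, large window) + tail)` (`(∑_{r < N} x_r)^6 ≤ N^5 ∑ x_r^6`); conditions: `M^(3m) ≤ (200 M)³ q^24`. For a nonempty arc `r` `decomp` gives `n = n(r)`; `arc_pt` (`σ = 3/2`), `PP_mono` (`2 ≤ 3`), `nn_of`
(`D = √(M^m)`, `b = 48 M`) at every `(T, x)` of the large window. For given `n` at most `13 M` values `r` have `n(r) = n` (`r = ⌊M^m (t + 6)/12⌋`, `|t - s_n| ≤ (3/2)/u_n² ≤ 72 M/M^m`). So `∑_r ofReal W(arc_r) ≤ C · NS β √(M^m) (PP h (6L) 3 K) (fr θ y T x)`.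
`y |tt x₀ n| ≤ y ρ + (3/2) y/q² ≤ 1/5`. Real integrals to `∫⁻`: `ofReal` of the integral of a nonnegative continuous function over a rectangle (`W_cont`; `BX`), `W (sl h θ) y I 1 T x = m12 I (ee h(vf (fr θ y T x) ·))` (`vf_fr`).
(5) Tail: `∑_m M^((5+ε) m) M^m E X ξ₁ (card S_w)^12 κ⁻ⁿ`, `card S_w ≤ C K⁴` (`st_card`, `K/X ≤ K²`), `M^m ≤ 200 M q⁸`, `q ≤ K`.
-/

open MeasureTheory Real Set Filter Topology

set_option autoImplicit false

namespace Pool.Agent.Helper60.LT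

open Pool.Agent.Helper22.AE
open Pool.Agent.Helper92.GC (dt tp Tq uu tt arc gs dd)
open Pool.Agent.Helper92.DT (m12 IsMul12 m12_nonneg m12_congr)

open Classical in
/-- the levels of the natural arcs -/
noncomputable def lvA (M : ℕ) (q : ℝ) : Finset ℕ :=
  (Finset.range (⌈200 * M * q ^ 8⌉₊ + 1)).filter (fun m => q ^ 2 ≤ (M : ℝ) ^ m ∧ (M : ℝ) ^ m ≤ 200 * M * q ^ 8)

open Classical in
/-- the dyadic sizes of the cusps -/
noncomputable def lvC (q : ℝ) : Finset ℕ := (Finset.range (⌈4 * q⌉₊ + 1)).filter (fun i => (2 : ℝ) ^ i ≤ 4 * q)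

/-- the right side of stage A -/
noncomputable def GA (h : ℝ × ℝ → ℝ) (M : ℕ) (ε β C L K q : ℝ) (f : Fr) : ENNReal :=
  ENNReal.ofReal (C * (1 + log q) ^ 12) *
    (∑ m ∈ lvA M q, ENNReal.ofReal (((M : ℝ) ^ m) ^ (5 + ε)) * NS β (√((M : ℝ) ^ m)) (PP h (6 * L) 3 K) f +
      ∑ i ∈ lvC q, ENNReal.ofReal ((2 : ℝ) ^ (22 * i)) * NS β (2 ^ i) (PP h (6 * L) (2 * q⁻¹ ^ 3) K) f)

/-- the moment over a fixed set of frequencies, in coordinates -/
private noncomputable def w24 (h : ℝ × ℝ → ℝ) (θ y : ℝ) (I : Finset (ℤ × ℤ)) (T x : ℝ) : ℝ :=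
  m12 I (fun k => ee (h (vf (fr θ y T x) k)))

private theorem w24_nonneg (h : ℝ × ℝ → ℝ) (θ y : ℝ) (I : Finset (ℤ × ℤ)) (T x : ℝ) : 0 ≤ w24 h θ y I T x :=
  m12_nonneg _ _

private theorem cont24 {h : ℝ × ℝ → ℝ} (hh : Continuous h) (θ y : ℝ) (I : Finset (ℤ × ℤ)) :
    Continuous (fun q : ℝ × ℝ => w24 h θ y I q.1 q.2) := by
  unfold w24 m12 tp
  refine continuous_parametric_integral_of_continuous
    (f := fun (q : ℝ × ℝ) (c : ℝ × ℝ) => ‖∑ k ∈ I, ee (h (vf (fr θ y q.1 q.2) k)) * ee (dt k c)‖ ^ 12) ?_ ?_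
  · have h1 : ∀ k ∈ I, Continuous fun q : (ℝ × ℝ) × (ℝ × ℝ) => ee (h (vf (fr θ y q.1.1 q.1.2) k)) := fun k _ =>
      ee_cont.comp (hh.comp (by unfold vf fr; fun_prop))
    have h2 : ∀ k : ℤ × ℤ, Continuous fun q : (ℝ × ℝ) × (ℝ × ℝ) => ee (dt k q.2) := fun k =>
      ee_cont.comp (by unfold dt; fun_prop)
    have h3 : Continuous fun q : (ℝ × ℝ) × (ℝ × ℝ) => ∑ k ∈ I, ee (h (vf (fr θ y q.1.1 q.1.2) k)) * ee (dt k q.2) :=
      continuous_finsetSum _ fun k hk => (h1 k hk).mul (h2 k)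
    exact (h3.norm).pow 12
  · exact isCompact_Icc.prod isCompact_Icc

private theorem meas24 {h : ℝ × ℝ → ℝ} (hh : Continuous h) (θ y : ℝ) (I : Finset (ℤ × ℤ)) :
    Measurable (fun q : ℝ × ℝ => ENNReal.ofReal (w24 h θ y I q.1 q.2)) :=
  (cont24 hh θ y I).measurable.ennreal_ofReal

/-- double integrals -/
private noncomputable def J24 (s t : Set ℝ) (f : ℝ → ℝ → ENNReal) : ENNReal := ∫⁻ T in s, ∫⁻ x in t, f T x

private theorem J24_mono {s t : Set ℝ} (hs : MeasurableSet s) (ht : MeasurableSet t) {f g : ℝ → ℝ → ENNReal}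
    (h : ∀ T ∈ s, ∀ x ∈ t, f T x ≤ g T x) : J24 s t f ≤ J24 s t g :=
  setLIntegral_mono' hs fun T hT => setLIntegral_mono' ht fun x hx => h T hT x hx

private theorem J24_set {s s' t t' : Set ℝ} (hs : s ⊆ s') (ht : t ⊆ t') (f : ℝ → ℝ → ENNReal) :
    J24 s t f ≤ J24 s' t' f := by
  unfold J24
  refine (lintegral_mono_set hs).trans (lintegral_mono fun T => lintegral_mono_set ht)

private theorem J24_add_le (s t : Set ℝ) (f g : ℝ → ℝ → ENNReal) :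
    J24 s t f + J24 s t g ≤ J24 s t (fun T x => f T x + g T x) := by
  unfold J24
  refine (le_lintegral_add _ _).trans (lintegral_mono fun T => ?_)
  exact le_lintegral_add _ _

private theorem J24_sum_le {ι : Type} (A : Finset ι) (s t : Set ℝ) (f : ι → ℝ → ℝ → ENNReal) :
    ∑ i ∈ A, J24 s t (f i) ≤ J24 s t (fun T x => ∑ i ∈ A, f i T x) := by
  classical
  induction A using Finset.induction_on with
  | empty => simp
  | insert a A ha ih =>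
    rw [Finset.sum_insert ha]
    refine (add_le_add le_rfl ih).trans ((J24_add_le _ _ _ _).trans (le_of_eq ?_))
    congr 1
    funext T x
    rw [Finset.sum_insert ha]

private theorem J24_add {s t : Set ℝ} {f g : ℝ → ℝ → ENNReal} (hf : Measurable (fun q : ℝ × ℝ => f q.1 q.2)) :
    J24 s t (fun T x => f T x + g T x) = J24 s t f + J24 s t g := by
  unfold J24
  have h1 : ∀ T, ∫⁻ x in t, (f T x + g T x) = (∫⁻ x in t, f T x) + ∫⁻ x in t, g T x := fun T =>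
    lintegral_add_left (hf.comp (measurable_const.prodMk measurable_id)) _
  simp_rw [h1]
  exact lintegral_add_left (Measurable.lintegral_prod_right' hf) _

private theorem J24_sum {ι : Type} (A : Finset ι) {s t : Set ℝ} {f : ι → ℝ → ℝ → ENNReal} {g : ℝ → ℝ → ENNReal}
    (hf : ∀ i ∈ A, Measurable (fun q : ℝ × ℝ => f i q.1 q.2)) :
    J24 s t (fun T x => ∑ i ∈ A, f i T x + g T x) = ∑ i ∈ A, J24 s t (f i) + J24 s t g := by
  classical
  induction A using Finset.induction_on with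
  | empty => simp [J24]
  | insert a A ha ih =>
    have h1 := ih (fun i hi => hf i (Finset.mem_insert_of_mem hi))
    rw [Finset.sum_insert ha, add_assoc, ← h1, ← J24_add (hf a (Finset.mem_insert_self _ _))]
    congr 1
    funext T x
    rw [Finset.sum_insert ha, add_assoc]

private theorem J24_const {s t : Set ℝ} {c : ENNReal} (hc : c ≠ ⊤) (f : ℝ → ℝ → ENNReal) :
    J24 s t (fun T x => c * f T x) = c * J24 s t f := by
  unfold J24
  simp_rw [lintegral_const_mul' c _ hc]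

/-- from the lower integral to the integral -/
private theorem J24_real {w : ℝ × ℝ → ℝ} (hw : Continuous w) (h0 : ∀ q, 0 ≤ w q) (a b c d : ℝ) :
    J24 (Icc a b) (Icc c d) (fun T x => ENNReal.ofReal (w (T, x))) =
      ENNReal.ofReal (∫ T in Icc a b, ∫ x in Icc c d, w (T, x)) := by
  have h1 : Continuous fun T => ∫ x in Icc c d, w (T, x) := by
    refine continuous_parametric_integral_of_continuous (f := fun T x => w (T, x)) ?_ isCompact_Icc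
    exact hw
  unfold J24
  have h2 : ∀ T, ∫⁻ x in Icc c d, ENNReal.ofReal (w (T, x)) = ENNReal.ofReal (∫ x in Icc c d, w (T, x)) := by
    intro T
    rw [ofReal_integral_eq_lintegral_ofReal]
    · exact (hw.comp (by fun_prop : Continuous fun x : ℝ => ((T, x) : ℝ × ℝ))).integrableOn_Icc
    · exact Eventually.of_forall fun x => h0 _
  simp_rw [h2]
  rw [ofReal_integral_eq_lintegral_ofReal]
  · exact h1.integrableOn_Icc
  · exact Eventually.of_forall fun T => integral_nonneg fun x => h0 _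


private structure D24 (c₁ B L : ℝ) (h : ℝ × ℝ → ℝ) (y T₁ X K G κ ξ₁ q S : ℝ) : Prop where
  c1 : 0 < c₁
  c1' : c₁ ≤ 1
  B1 : 1 ≤ B
  L1 : 1 ≤ L
  hh : Hom c₁ B h
  S0 : 0 < S
  S3 : S ≤ 3
  y0 : 0 < y
  yS : 11 / 10 * (y * S) ≤ k₀ c₁ B
  yq : y ≤ q
  q20 : 20 ≤ q
  qK : q ≤ K
  X0 : 0 < X
  KX : 1 ≤ K * X
  XK : X ≤ K
  XT : X ≤ T₁
  TX : T₁ ≤ 2 * X
  hG : G = K * y ^ 2
  κ10 : 10 ≤ κ
  SG : 40 ≤ S ^ 2 * √G
  hξ : ξ₁ = 1 / (16 * κ * (11 / 10 * S) ^ 2 * √G)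

section basics

variable {c₁ B L : ℝ} {h : ℝ × ℝ → ℝ} {y T₁ X K G κ ξ₁ q S : ℝ}

private theorem k0_24 (hc : 0 < c₁) (hc1 : c₁ ≤ 1) (hB : 1 ≤ B) : k₀ c₁ B ≤ 1 / 100 := by
  unfold k₀
  rw [div_le_div_iff₀ (by positivity) (by norm_num)]
  have h1 : c₁ ^ 2 ≤ 1 := by nlinarith
  have h2 : 1 ≤ (B + 1) ^ 2 := by nlinarith
  nlinarith

private theorem ys24 (D : D24 c₁ B L h y T₁ X K G κ ξ₁ q S) : 11 / 10 * (y * S) ≤ 1 / 100 :=
  D.yS.trans (k0_24 D.c1 D.c1' D.B1)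

private theorem sg24 (D : D24 c₁ B L h y T₁ X K G κ ξ₁ q S) : 0 < √G ∧ 40 ≤ 3 * (S * √G) := by
  have h1 := D.SG
  have h2 := D.S0
  have h3 := D.S3
  have h4 : 0 ≤ √G := Real.sqrt_nonneg _
  have h5 : 0 < √G := by
    rcases h4.lt_or_eq with h | h
    · exact h
    · rw [← h] at h1
      norm_num at h1
  refine ⟨h5, h1.trans ?_⟩
  have h6 : S ^ 2 * √G = S * (S * √G) := by ring
  rw [h6]
  exact mul_le_mul_of_nonneg_right h3 (by positivity)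

private theorem xi24 (D : D24 c₁ B L h y T₁ X K G κ ξ₁ q S) :
    0 < ξ₁ ∧ 8 * κ * ξ₁ ≤ 1 / 80 ∧ ξ₁ ≤ 8 * κ * ξ₁ ∧ ξ₁ * S ≤ 1 / 40 := by
  have h1 := (sg24 D).1
  have h2 := D.κ10
  have h3 := D.S0
  have h4 := D.SG
  have hκ : 0 < κ := by linarith
  have h5 : 0 < ξ₁ := by
    rw [D.hξ]
    positivity
  have h6 : 8 * κ * ξ₁ ≤ 1 / 80 := by
    have e : 8 * κ * ξ₁ = 1 / (2 * (121 / 100) * (S ^ 2 * √G)) := by
      rw [D.hξ]
      field_simp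
      ring
    rw [e]
    refine one_div_le_one_div_of_le (by norm_num) ?_
    linarith
  have h7 : ξ₁ ≤ 8 * κ * ξ₁ := by nlinarith only [h5, h2]
  refine ⟨h5, h6, h7, ?_⟩
  have h8 := D.S3
  have h9 : 80 * ξ₁ ≤ 8 * κ * ξ₁ := by nlinarith only [h2, h5]
  nlinarith only [h2, h5, h6, h8, h9, h3]

private theorem T1_24 (D : D24 c₁ B L h y T₁ X K G κ ξ₁ q S) : 0 < T₁ := D.X0.trans_le D.XT

private theorem K0_24 (D : D24 c₁ B L h y T₁ X K G κ ξ₁ q S) : 20 ≤ K := D.q20.trans D.qK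

/-- the large window -/
private theorem big24 (D : D24 c₁ B L h y T₁ X K G κ ξ₁ q S) {x₀ : ℝ} {T x : ℝ} (hT : T ∈ Icc (T₁ - X / 4) (T₁ + X / 4))
    (hx : x ∈ Icc (x₀ - 8 * κ * ξ₁) (x₀ + 8 * κ * ξ₁)) : |T - T₁| ≤ T₁ / 4 ∧ |x - x₀| ≤ 1 / 80 ∧ 0 < T := by
  have h1 := (xi24 D).2.1
  have h2 := D.XT
  have h3 := D.X0
  refine ⟨abs_le.2 ⟨by linarith [hT.1], by linarith [hT.2]⟩, abs_le.2 ⟨by linarith [hx.1], by linarith [hx.2]⟩, by linarith [hT.1]⟩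

private theorem sub24 (D : D24 c₁ B L h y T₁ X K G κ ξ₁ q S) (x₀ : ℝ) :
    Icc T₁ (T₁ + X / (4 * κ)) ⊆ Icc (T₁ - X / 4) (T₁ + X / 4) ∧ Icc x₀ (x₀ + ξ₁) ⊆ Icc (x₀ - 8 * κ * ξ₁) (x₀ + 8 * κ * ξ₁) := by
  have h1 := xi24 D
  have h3 := D.X0
  have h4 : X / (4 * κ) ≤ X / 4 := by
    have := D.κ10
    exact div_le_div_of_nonneg_left h3.le (by norm_num) (by linarith)
  exact ⟨Icc_subset_Icc (by linarith) (by linarith), Icc_subset_Icc (by linarith [h1.1, h1.2.2.1]) (by linarith [h1.2.2.1])⟩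

private theorem mem24 (D : D24 c₁ B L h y T₁ X K G κ ξ₁ q S) {x₀ : ℝ} {k : ℤ × ℤ}
    (hk : k ∈ st (2 * L) (11 / 10 * S) K T₁ x₀) : 0 < uu x₀ k ∧ |tt x₀ k| ≤ 11 / 10 * S ∧ K ≤ 2 * L * (T₁ * uu x₀ k) ∧
      T₁ * uu x₀ k ≤ 2 * L * K := by
  have hT := T1_24 D
  have hK := K0_24 D
  have hL := D.L1
  have hS := D.S0
  rw [mem_st hT (by linarith) (by linarith) (by linarith)] at hk
  obtain ⟨h1, h2, h3⟩ := hk
  have hu : 0 < uu x₀ k := by
    by_contra hu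
    push Not at hu
    have h4 : T₁ * uu x₀ k ≤ 0 := mul_nonpos_of_nonneg_of_nonpos hT.le hu
    have h5 : 2 * L * (T₁ * uu x₀ k) ≤ 0 := mul_nonpos_of_nonneg_of_nonpos (by linarith) h4
    linarith
  refine ⟨hu, ?_, h1, h2⟩
  unfold tt
  rw [abs_div, abs_of_pos hu, div_le_iff₀ hu]
  exact h3

private theorem card24 (D : D24 c₁ B L h y T₁ X K G κ ξ₁ q S) (x₀ : ℝ) :
    ((st (2 * L) (11 / 10 * S) K T₁ x₀).card : ℝ) ≤ 540 * L ^ 2 * K ^ 4 := by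
  have hT := T1_24 D
  have hK := K0_24 D
  have hL := D.L1
  have hX := D.X0
  have h0 : K / T₁ ≤ K ^ 2 := by
    rw [div_le_iff₀ hT]
    have h1 := D.KX
    have h2 := D.XT
    have h3 : 1 ≤ K * T₁ := h1.trans (mul_le_mul_of_nonneg_left h2 (by linarith))
    nlinarith only [h1, h2, hK]
  have h00 : 0 ≤ 2 * L * (K / T₁) := by positivity
  have h1 := count_NQ (x := x₀) (D := 1 / 4 + 2 * L * (K / T₁)) (by linarith only [h00])
    (st (2 * L) (11 / 10 * S) K T₁ x₀) (fun k hk => by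
      obtain ⟨h2, h3, h4, h5⟩ := mem24 D hk
      refine ⟨h2, ?_, h3.trans (by linarith [D.S3])⟩
      have h6 : uu x₀ k ≤ 2 * L * (K / T₁) := by
        rw [← mul_div_assoc, le_div_iff₀ hT]
        linarith
      linarith)
  refine h1.trans ?_
  have h2 : 1 / 4 + 2 * L * (K / T₁) ≤ 3 * L * K ^ 2 := by
    have h3 : 2 * L * (K / T₁) ≤ 2 * L * K ^ 2 := mul_le_mul_of_nonneg_left h0 (by positivity)
    have h4 : 1 ≤ L * K ^ 2 := one_le_mul_of_one_le_of_one_le hL (one_le_pow₀ (by linarith only [hK]))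
    linarith only [h3, h4]
  have h3 : (1 / 4 + 2 * L * (K / T₁)) ^ 2 ≤ (3 * L * K ^ 2) ^ 2 := pow_le_pow_left₀ (by positivity) h2 2
  calc 60 * (1 / 4 + 2 * L * (K / T₁)) ^ 2 ≤ 60 * (3 * L * K ^ 2) ^ 2 := by linarith only [h3]
    _ = 540 * L ^ 2 * K ^ 4 := by ring

private theorem upos24 {x x₀ : ℝ} (hx : |x - x₀| ≤ 1 / 80) {k : ℤ × ℤ} (hu : 0 < uu x₀ k) (ht : |tt x₀ k| ≤ 4) : 0 < uu x k := by
  have h1 : uu x k = uu x₀ k * (1 + (x - x₀) * tt x₀ k) := by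
    unfold tt
    field_simp
    unfold uu
    ring
  rw [h1]
  have h2 : |(x - x₀) * tt x₀ k| ≤ 1 / 80 * 4 := by
    rw [abs_mul]
    exact mul_le_mul hx ht (abs_nonneg _) (by norm_num)
  have h3 := (abs_le.1 h2).1
  exact mul_pos hu (by linarith only [h3])


end basics

section points

variable {c₁ B L : ℝ} {h : ℝ × ℝ → ℝ} {y T₁ X K G κ ξ₁ q S : ℝ}

private theorem wempty24 (h : ℝ × ℝ → ℝ) (θ y T x : ℝ) : w24 h θ y ∅ T x = 0 := by
  refine le_antisymm ?_ (w24_nonneg _ _ _ _ _ _)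
  have h1 := m12_le_card ∅ (a := fun k => ee (h (vf (fr θ y T x) k))) (by simp)
  simpa [w24] using h1

private theorem PPmono24 (D : D24 c₁ B L h y T₁ X K G κ ξ₁ q S) {θ x₀ T x S₁ S₂ : ℝ} (hT : |T - T₁| ≤ T₁ / 4) (hx : |x - x₀| ≤ 1 / 80)
    {n : ℤ × ℤ} (hun : 0 < uu x₀ n) (hsn : |tt x₀ n| ≤ 4) (hyn : y * |tt x₀ n| ≤ 1 / 5) (h1 : 0 ≤ S₁) (h2 : S₁ ≤ S₂) :
    PP h (6 * L) S₁ K (ac n (co n) (fr θ y T x)) ≤ ENNReal.ofReal (24 ^ 48) * PP h (6 * L) S₂ K (ac n (co n) (fr θ y T x)) := by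
  have hL := D.L1
  have hK := K0_24 D
  have hT1 := T1_24 D
  have hy := D.y0
  have hT0 : 0 < T := by
    have := (abs_le.1 hT).1
    linarith only [hT1, this]
  obtain ⟨e1, e2, e3, e4⟩ := fr_coord (θ := θ) (y := y) (T := T) (x := x) hT0
  have hu : 0 < uu x n := upos24 hx hun hsn
  have huu : uu x n = uu x₀ n * (1 + (x - x₀) * tt x₀ n) := by
    unfold tt
    field_simp
    unfold uu
    ring
  have hb : |(x - x₀) * tt x₀ n| ≤ 1 / 80 * 4 := by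
    rw [abs_mul]
    exact mul_le_mul hx hsn (abs_nonneg _) (by norm_num)
  have hlo : 19 / 20 * uu x₀ n ≤ uu x n := by
    rw [huu]
    have := (abs_le.1 hb).1
    nlinarith only [hun, this]
  have ht : yf (fr θ y T x) * |tt (xf (fr θ y T x)) n| ≤ 1 / 4 := by
    rw [e2, e3]
    have h3 : |tt x n| ≤ 20 / 19 * |tt x₀ n| := by
      unfold tt
      rw [abs_div, abs_div, abs_of_pos hu, abs_of_pos hun, div_le_iff₀ hu]
      have h4 : |(n.2 : ℝ)| / uu x₀ n * uu x₀ n = |(n.2 : ℝ)| := by field_simp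
      have h5 : 0 ≤ |(n.2 : ℝ)| / uu x₀ n := by positivity
      have h6 := mul_le_mul_of_nonneg_left hlo h5
      nlinarith only [h4, h6]
    have h7 := mul_le_mul_of_nonneg_left h3 hy.le
    linarith only [hyn, h7]
  have hTf := (Tf_ac (f := fr θ y T x) (n := n) (n' := co n) (by rw [e1]; exact hT0) (by rw [e3]; exact hy) (by rw [e2]; exact hu) ht).1
  rw [e1, e2] at hTf
  have hTf0 : 0 < Tf (ac n (co n) (fr θ y T x)) := lt_of_lt_of_le (mul_pos hu hT0) hTf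
  exact PP_mono (by linarith only [hL]) (by linarith only [hK]) h1 h2 hTf0

private theorem cut24 (D : D24 c₁ B L h y T₁ X K G κ ξ₁ q S) (x₀ : ℝ) : Cut (24 ^ 4) (st (2 * L) (11 / 10 * S) K T₁ x₀) := by
  have hL := D.L1
  have hS := D.S0
  have hK := K0_24 D
  exact st_cut (T1_24 D) (by linarith) (by linarith) (by linarith)

/-- the constant of the pointwise bounds -/
private noncomputable def cc24 : ℝ := (400000 * 24 ^ 4) ^ 12 * 24 ^ 48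

private theorem cc24_pos : 1 ≤ cc24 := by
  unfold cc24
  norm_num

/-- the bound for one piece -/
private theorem piece24 (D : D24 c₁ B L h y T₁ X K G κ ξ₁ q S) {θ x₀ T x σ C Δ : ℝ} {M : ℕ} (hT : |T - T₁| ≤ T₁ / 4)
    (hx : |x - x₀| ≤ 1 / 80) {n : ℤ × ℤ} (hn : IsCoprime n.1 n.2) (hun : 0 < uu x₀ n) (hsn : |tt x₀ n| ≤ 4) {I : Finset (ℤ × ℤ)}
    (hI : I ⊆ st (2 * L) (11 / 10 * S) K T₁ x₀) (hC0 : 0 ≤ C) (hC1 : C ≤ 400000 * 24 ^ 4) (hC : Cut C I) (hσ : 0 < σ)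
    (hσI : ∀ k ∈ I, |tt x₀ k - tt x₀ n| * uu x₀ n ^ 2 ≤ σ) {S₂ : ℝ} (hS₂ : 4 / 3 * σ ≤ S₂) (hσq : y * σ ≤ 1 / 10 * uu x₀ n ^ 2)
    (h1 : Δ ≤ 48 * M * uu x₀ n) (h2 : uu x₀ n ≤ 48 * M * Δ) :
    ENNReal.ofReal (w24 h θ y I T x) ≤ ENNReal.ofReal cc24 *
      (open Classical in if NN (576 * M) Δ (fr θ y T x) n then PP h (6 * L) S₂ K (ac n (co n) (fr θ y T x)) else 0) := by
  classical
  rcases I.eq_empty_or_nonempty with he | ⟨k, hk⟩
  · rw [he, wempty24]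
    simp
  have hL := D.L1
  have hK := K0_24 D
  have hT1 := T1_24 D
  have hy := D.y0
  have hyS := ys24 D
  have hS := D.S0
  have hyn : y * |tt x₀ n| ≤ 1 / 5 := by
    obtain ⟨h3, h4, -, -⟩ := mem24 D (hI hk)
    have h5 := hσI k hk
    have h6 : y * |tt x₀ k - tt x₀ n| ≤ 1 / 10 := by
      have h7 : 0 < uu x₀ n ^ 2 := by positivity
      refine le_of_mul_le_mul_right ?_ h7
      have h8 := mul_le_mul_of_nonneg_left h5 hy.le
      nlinarith only [hσq, h8]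
    have h7 : |tt x₀ n| ≤ |tt x₀ k| + |tt x₀ k - tt x₀ n| := by
      have := abs_sub_abs_le_abs_sub (tt x₀ n) (tt x₀ k)
      rw [abs_sub_comm] at this
      linarith only [this]
    have h8 := mul_le_mul_of_nonneg_left h7 hy.le
    have h9 := mul_le_mul_of_nonneg_left h4 hy.le
    nlinarith only [hyS, h6, h8, h9]
  have h3 := arc_pt hL D.hh (θ := θ) hy hT1 hT hx hS.le D.S3 (by linarith only [hK]) hn hun hsn hyn (by linarith only [hyS]) hI hC0 hC hσ hσI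
  have h4 := nn_of (θ := θ) (b := 48 * M) (D := Δ) (by positivity) hy hT1 hT hx hn hun hsn hyn h1 h2
  have e : (12 * (48 * (M : ℝ))) = 576 * M := by ring
  rw [e] at h4
  rw [if_pos h4]
  refine h3.trans ?_
  have h5 := PPmono24 (θ := θ) D hT hx hun hsn hyn (S₁ := 4 / 3 * σ) (S₂ := S₂) (by positivity) hS₂
  refine (mul_le_mul_right h5 _).trans ?_
  rw [← mul_assoc, ← ENNReal.ofReal_mul (by positivity)]
  refine mul_le_mul_left (ENNReal.ofReal_le_ofReal ?_) _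
  unfold cc24
  exact mul_le_mul_of_nonneg_right (pow_le_pow_left₀ hC0 hC1 12) (by positivity)


/-- the cusps of one size -/
private theorem cusps24 (D : D24 c₁ B L h y T₁ X K G κ ξ₁ q S) {θ x₀ T x : ℝ} {M : ℕ} (hM : 2 ≤ M) (hT : |T - T₁| ≤ T₁ / 4)
    (hx : |x - x₀| ≤ 1 / 80) (i : ℕ) (N : Finset (ℤ × ℤ))
    (hN : ∀ n ∈ N, NQ q x₀ n ∧ (2 : ℝ) ^ i ≤ 4 * uu x₀ n ∧ 4 * uu x₀ n < 2 ^ (i + 1) ∧
      Cut (576 * 24 ^ 4) (cus q x₀ (st (2 * L) (11 / 10 * S) K T₁ x₀) n)) :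
    ∑ n ∈ N, ENNReal.ofReal (w24 h θ y (cus q x₀ (st (2 * L) (11 / 10 * S) K T₁ x₀) n) T x) ≤ ENNReal.ofReal cc24 *
      NS (576 * M) (2 ^ i) (PP h (6 * L) (2 * q⁻¹ ^ 3) K) (fr θ y T x) := by
  classical
  have hq := D.q20
  have hM' : (2 : ℝ) ≤ M := by exact_mod_cast hM
  have hq3 : 0 < q⁻¹ ^ 3 := by positivity
  have h1 : ∀ n ∈ N, ENNReal.ofReal (w24 h θ y (cus q x₀ (st (2 * L) (11 / 10 * S) K T₁ x₀) n) T x) ≤ ENNReal.ofReal cc24 *
      (if NN (576 * M) (2 ^ i) (fr θ y T x) n then PP h (6 * L) (2 * q⁻¹ ^ 3) K (ac n (co n) (fr θ y T x)) else 0) := by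
    intro n hn
    obtain ⟨⟨a1, a2, a3, a4⟩, a5, a6, a7⟩ := hN n hn
    have hu : 0 < uu x₀ n := by linarith only [a2]
    have h2i : (2 : ℝ) ^ (i + 1) = 2 * 2 ^ i := by ring
    have hp : (0 : ℝ) < 2 ^ i := by positivity
    refine piece24 D hT hx a1 hu a4 (Finset.filter_subset _ _) (by norm_num) (by norm_num) a7 hq3 ?_ (by linarith only [hq3]) ?_ ?_ ?_
    · intro k hk
      exact (Finset.mem_filter.1 hk).2
    · have h3 : y * q⁻¹ ^ 3 ≤ 1 / 400 := by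
        have h4 : y * q⁻¹ ^ 3 ≤ q * q⁻¹ ^ 3 := mul_le_mul_of_nonneg_right D.yq hq3.le
        have h5 : q * q⁻¹ ^ 3 = 1 / q ^ 2 := by field_simp
        rw [h5] at h4
        refine h4.trans ?_
        exact one_div_le_one_div_of_le (by norm_num) (by nlinarith only [hq])
      have h6 : (1 / 4 : ℝ) ^ 2 ≤ uu x₀ n ^ 2 := pow_le_pow_left₀ (by norm_num) a2 2
      nlinarith only [h3, h6]
    · nlinarith only [hM', a5, a2]
    · nlinarith only [hM', a2, a6, h2i]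
  refine (Finset.sum_le_sum h1).trans ?_
  rw [← Finset.mul_sum]
  refine mul_le_mul_right ?_ _
  unfold NS
  exact ENNReal.sum_le_tsum N

private theorem fib24 {c : ℝ} (M : ℕ) (hM : 2 ≤ M) (R : Finset ℕ)
    (hR : ∀ r ∈ R, ∃ z : ℝ, ⌊z⌋₊ = r ∧ |z - c| ≤ 6 * M) : R.card ≤ 13 * M := by
  classical
  have h1 : R ⊆ Finset.Icc ⌊c - 6 * M⌋₊ (⌊c - 6 * M⌋₊ + 12 * M) := by
    intro r hr
    obtain ⟨z, hz, hzc⟩ := hR r hr
    obtain ⟨h2, h3⟩ := abs_le.1 hzc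
    rw [Finset.mem_Icc, ← hz]
    refine ⟨Nat.floor_le_floor (by linarith), ?_⟩
    have h4 : z ≤ (c - 6 * M) + (12 * M : ℕ) := by push_cast; linarith
    refine (Nat.floor_le_floor h4).trans ?_
    rcases le_total 0 (c - 6 * M) with h5 | h5
    · rw [Nat.floor_add_natCast h5]
    · refine (Nat.floor_le_floor (by linarith : (c - 6 * M) + ((12 * M : ℕ) : ℝ) ≤ ((12 * M : ℕ) : ℝ))).trans ?_
      rw [Nat.floor_natCast]
      omega
  refine (Finset.card_le_card h1).trans ?_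
  rw [Nat.card_Icc]
  omega

/-- the arcs of one level -/
private theorem arcs24 (D : D24 c₁ B L h y T₁ X K G κ ξ₁ q S) {θ x₀ T x : ℝ} {M : ℕ} (hM : 2 ≤ M) (hT : |T - T₁| ≤ T₁ / 4)
    (hx : |x - x₀| ≤ 1 / 80) (m : ℕ) (Kf : Finset (ℤ × ℤ)) (hK : Kf ⊆ st (2 * L) (11 / 10 * S) K T₁ x₀)
    (hr : ∀ r, (arc x₀ Kf (M ^ m) r).Nonempty → ∃ n : ℤ × ℤ, IsCoprime n.1 n.2 ∧ q < uu x₀ n ∧ uu x₀ n ≤ 2 * q ^ 4 ∧
      48 * uu x₀ n ^ 2 ≤ (M : ℝ) ^ m ∧ (M : ℝ) ^ m < 48 * M * uu x₀ n ^ 2 ∧ |tt x₀ n| ≤ 4 ∧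
      (∀ k ∈ arc x₀ Kf (M ^ m) r, |tt x₀ k - tt x₀ n| * uu x₀ n ^ 2 ≤ 3 / 2) ∧ Cut (400000 * 24 ^ 4) (arc x₀ Kf (M ^ m) r)) :
    ∑ r ∈ Finset.range (M ^ m), ENNReal.ofReal (w24 h θ y (arc x₀ Kf (M ^ m) r) T x) ≤ ENNReal.ofReal (13 * M * cc24) *
      NS (576 * M) (√((M : ℝ) ^ m)) (PP h (6 * L) 3 K) (fr θ y T x) := by
  classical
  have hq := D.q20
  have hM' : (2 : ℝ) ≤ M := by exact_mod_cast hM
  choose! ν hν using hr
  obtain ⟨R, hR⟩ : ∃ R, R = (Finset.range (M ^ m)).filter (fun r => (arc x₀ Kf (M ^ m) r).Nonempty) := ⟨_, rfl⟩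
  obtain ⟨g, hg⟩ : ∃ g : ℤ × ℤ → ENNReal, g = fun n => if NN (576 * M) (√((M : ℝ) ^ m)) (fr θ y T x) n then
    PP h (6 * L) 3 K (ac n (co n) (fr θ y T x)) else 0 := ⟨_, rfl⟩
  have hRn : ∀ r ∈ R, (arc x₀ Kf (M ^ m) r).Nonempty := by
    intro r hr
    rw [hR] at hr
    exact (Finset.mem_filter.1 hr).2
  have h1 : ∑ r ∈ Finset.range (M ^ m), ENNReal.ofReal (w24 h θ y (arc x₀ Kf (M ^ m) r) T x) =
      ∑ r ∈ R, ENNReal.ofReal (w24 h θ y (arc x₀ Kf (M ^ m) r) T x) := by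
    rw [hR]
    symm
    refine Finset.sum_subset (Finset.filter_subset _ _) ?_
    intro r hr hr'
    have h2 : ¬ (arc x₀ Kf (M ^ m) r).Nonempty := fun h => hr' (Finset.mem_filter.2 ⟨hr, h⟩)
    rw [Finset.not_nonempty_iff_eq_empty] at h2
    rw [h2, wempty24, ENNReal.ofReal_zero]
  have h2 : ∀ r ∈ R, ENNReal.ofReal (w24 h θ y (arc x₀ Kf (M ^ m) r) T x) ≤ ENNReal.ofReal cc24 * g (ν r) := by
    intro r hr
    obtain ⟨a1, a2, a3, a4, a5, a6, a7, a8⟩ := hν r (hRn r hr)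
    have hu : 0 < uu x₀ (ν r) := by linarith only [hq, a2]
    have hp : (0 : ℝ) < (M : ℝ) ^ m := by positivity
    have hs : √((M : ℝ) ^ m) ^ 2 = (M : ℝ) ^ m := Real.sq_sqrt hp.le
    have hs0 : 0 ≤ √((M : ℝ) ^ m) := Real.sqrt_nonneg _
    rw [hg]
    refine piece24 D hT hx a1 hu a6 ((Finset.filter_subset _ _).trans hK) (by norm_num) le_rfl a8 (by norm_num) a7 (by norm_num) ?_ ?_ ?_
    · have h3 := D.yq
      nlinarith only [hq, a2, h3]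
    · refine (sq_le_sq₀ hs0 (by positivity)).1 ?_
      rw [hs]
      refine a5.le.trans ?_
      have : 48 * (M : ℝ) ≤ (48 * M) ^ 2 := by nlinarith only [hM']
      nlinarith only [this]
    · have h3 : uu x₀ (ν r) ≤ √((M : ℝ) ^ m) := by
        refine (sq_le_sq₀ hu.le hs0).1 ?_
        rw [hs]
        nlinarith only [a4, hp]
      nlinarith only [hM', hq, a2, h3]
  have h3 : ∑ r ∈ R, g (ν r) ≤ ENNReal.ofReal (13 * M) * NS (576 * M) (√((M : ℝ) ^ m)) (PP h (6 * L) 3 K) (fr θ y T x) := by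
    rw [Finset.sum_comp g ν]
    have h4 : ∀ n ∈ R.image ν, (R.filter (fun r => ν r = n)).card • g n ≤ ENNReal.ofReal (13 * M) * g n := by
      intro n hn
      rw [nsmul_eq_mul]
      refine mul_le_mul_left ?_ _
      have h5 : (R.filter (fun r => ν r = n)).card ≤ 13 * M := by
        refine fib24 (c := (M : ℝ) ^ m * ((tt x₀ n + 6) / 12)) M hM _ ?_
        intro r hr
        obtain ⟨hr1, hr2⟩ := Finset.mem_filter.1 hr
        obtain ⟨k, hk⟩ := hRn r hr1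
        obtain ⟨a1, a2, a3, a4, a5, a6, a7, a8⟩ := hν r (hRn r hr1)
        rw [hr2] at a1 a2 a3 a4 a5 a6 a7
        refine ⟨(M : ℝ) ^ m * ((tt x₀ k + 6) / 12), ?_, ?_⟩
        · have h6 := (Finset.mem_filter.1 hk).2
          push_cast at h6
          exact h6
        · have h6 := a7 k hk
          have h7 : (M : ℝ) ^ m * ((tt x₀ k + 6) / 12) - (M : ℝ) ^ m * ((tt x₀ n + 6) / 12) =
              (M : ℝ) ^ m * (tt x₀ k - tt x₀ n) / 12 := by ring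
          have hp : (0 : ℝ) < (M : ℝ) ^ m := by positivity
          rw [h7, abs_div, abs_mul, abs_of_pos hp, abs_of_pos (by norm_num : (0 : ℝ) < 12), div_le_iff₀ (by norm_num)]
          have h8 : (M : ℝ) ^ m * |tt x₀ k - tt x₀ n| ≤ 48 * M * uu x₀ n ^ 2 * |tt x₀ k - tt x₀ n| :=
            mul_le_mul_of_nonneg_right a5.le (abs_nonneg _)
          have h9 : 48 * (M : ℝ) * (|tt x₀ k - tt x₀ n| * uu x₀ n ^ 2) ≤ 48 * M * (3 / 2) :=
            mul_le_mul_of_nonneg_left h6 (by positivity)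
          nlinarith only [h8, h9]
      have h6 : (((R.filter (fun r => ν r = n)).card : ℕ) : ENNReal) ≤ ((13 * M : ℕ) : ENNReal) := by exact_mod_cast h5
      refine h6.trans (le_of_eq ?_)
      rw [← ENNReal.ofReal_natCast]
      push_cast
      rfl
    refine (Finset.sum_le_sum h4).trans ?_
    rw [← Finset.mul_sum]
    refine mul_le_mul_right ?_ _
    unfold NS
    rw [hg]
    exact ENNReal.sum_le_tsum (R.image ν)
  rw [h1]
  refine (Finset.sum_le_sum h2).trans ?_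
  rw [← Finset.mul_sum]
  refine (mul_le_mul_right h3 _).trans (le_of_eq ?_)
  rw [← mul_assoc, ← ENNReal.ofReal_mul (by have := cc24_pos; linarith)]
  congr 2
  ring


end points

section windows

variable {c₁ B L : ℝ} {h : ℝ × ℝ → ℝ} {y T₁ X K G κ ξ₁ q S : ℝ}

/-- the integral over a rectangle in the two notations -/
private theorem BX24 {c₁ B : ℝ} {h : ℝ × ℝ → ℝ} (hh : Hom c₁ B h) {θ y : ℝ} {I : Finset (ℤ × ℤ)} {a b c d : ℝ} (ha : 0 < a)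
    (hI : ∀ x ∈ Icc c d, ∀ k ∈ I, 0 < uu x k) :
    ENNReal.ofReal (BX (sl h θ) y I (fun _ => 1) a b c d) = J24 (Icc a b) (Icc c d) (fun T x => ENNReal.ofReal (w24 h θ y I T x)) := by
  have e := J24_real (w := fun q => w24 h θ y I q.1 q.2) (cont24 hh.cont θ y I) (fun q => w24_nonneg _ _ _ _ _ _) a b c d
  simp only at e
  rw [e]
  congr 1
  unfold BX
  refine setIntegral_congr_fun measurableSet_Icc fun T hT => ?_
  refine setIntegral_congr_fun measurableSet_Icc fun x hx => ?_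
  unfold W w24
  refine m12_congr fun k hk => ?_
  rw [one_mul, vf_fr hh (ha.trans_le hT.1) (hI x hx k hk)]

private def Win24 (ε c₁ B lam : ℝ) (n M : ℕ) (C E : ℝ) : Prop :=
    ∀ (m : ℕ) (p : ℝ → ℝ) (x₀ y ρ X T₁ H G κ ξ₁ : ℝ) (a : ℤ × ℤ → ℂ) (S : Finset (ℤ × ℤ)), Cv c₁ B p → (∀ k, ‖a k‖ ≤ 1) → 0 < y → 0 < ρ → ρ ≤ 5 → y * ρ ≤ k₀ c₁ B →
      0 < H → 0 < X → X ≤ T₁ → T₁ ≤ 4 * X → 4 ≤ κ → G = y ^ 2 * X * H → 10 ≤ ρ * √G → ξ₁ = 1 / (16 * κ * ρ ^ 2 * √G) →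
      (∀ k ∈ S, H / lam ≤ uu x₀ k ∧ uu x₀ k ≤ lam * H ∧ |tt x₀ k| ≤ ρ) →
      C * κ * ρ ^ 2 * (M : ℝ) ^ (3 * m) ≤ √G → C * κ * ρ * (M : ℝ) ^ (3 * m) ≤ G →
      BX p y S a T₁ (T₁ + X / (4 * κ)) x₀ (x₀ + ξ₁) ^ (1 / 6 : ℝ) ≤ C * (M : ℝ) ^ (ε * (m : ℝ)) *
        ∑ r ∈ Finset.range (M ^ m), (BX p y (arc x₀ S (M ^ m) r) a (T₁ - X / 4) (T₁ + X / 4) (x₀ - 8 * κ * ξ₁) (x₀ + 8 * κ * ξ₁) +
          E * X * ξ₁ * (S.card : ℝ) ^ 12 * κ⁻¹ ^ n) ^ (1 / 6 : ℝ)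

/-- sixth powers -/
private theorem six24 {N : ℕ} {z : ℕ → ℝ} {b A : ℝ} (hb : 0 ≤ b) (hz : ∀ r, 0 ≤ z r)
    (h : b ^ (1 / 6 : ℝ) ≤ A * ∑ r ∈ Finset.range N, z r ^ (1 / 6 : ℝ)) :
    b ≤ A ^ 6 * (N : ℝ) ^ 5 * ∑ r ∈ Finset.range N, z r := by
  have e : ∀ t : ℝ, 0 ≤ t → (t ^ (1 / 6 : ℝ)) ^ 6 = t := by
    intro t ht
    rw [← Real.rpow_natCast, ← Real.rpow_mul ht]
    norm_num
  have h0 : ∀ r, 0 ≤ z r ^ (1 / 6 : ℝ) := fun r => Real.rpow_nonneg (hz r) _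
  have h1 : b ≤ (A * ∑ r ∈ Finset.range N, z r ^ (1 / 6 : ℝ)) ^ 6 := by
    rw [← e b hb]
    exact pow_le_pow_left₀ (Real.rpow_nonneg hb _) h 6
  refine h1.trans ?_
  rw [mul_pow, mul_assoc]
  refine mul_le_mul_of_nonneg_left ?_ (by positivity)
  have h2 : ∑ r ∈ Finset.range N, z r = ∑ r ∈ Finset.range N, (z r ^ (1 / 6 : ℝ)) ^ (5 + 1) := by
    refine Finset.sum_congr rfl fun r _ => ?_
    rw [show 5 + 1 = 6 from rfl, e _ (hz r)]
  rw [h2]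
  rcases Nat.eq_zero_or_pos N with hN | hN
  · subst hN
    simp
  have h3 := pow_sum_div_card_le_sum_pow (s := Finset.range N) (f := fun r => z r ^ (1 / 6 : ℝ)) (fun r _ => h0 r) 5
  rw [Finset.card_range] at h3
  have hN' : (0 : ℝ) < (N : ℝ) ^ 5 := by positivity
  rw [div_le_iff₀ hN'] at h3
  calc _ ≤ _ := h3
    _ = _ := by ring

private theorem win24 (D : D24 c₁ B L h y T₁ X K G κ ξ₁ q S) {M n : ℕ} {ε Cw Ew : ℝ} (hM : 2 ≤ M) (hCw : 1 ≤ Cw) (hEw : 1 ≤ Ew)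
    (hw : Win24 (ε / 6) c₁ B (4 * L) n M Cw Ew) {θ x₀ : ℝ} (m : ℕ) (Kf : Finset (ℤ × ℤ)) (hK : Kf ⊆ st (2 * L) (11 / 10 * S) K T₁ x₀)
    (hm : (M : ℝ) ^ m ≤ 200 * M * q ^ 8) (hbig : Cw * 11 * (200 * M) ^ 3 * κ * q ^ 24 ≤ √G) :
    J24 (Icc T₁ (T₁ + X / (4 * κ))) (Icc x₀ (x₀ + ξ₁)) (fun T x => ENNReal.ofReal (w24 h θ y Kf T x)) ≤
      ENNReal.ofReal (Cw ^ 6 * ((M : ℝ) ^ m) ^ (5 + ε)) *
        (∑ r ∈ Finset.range (M ^ m), J24 (Icc (T₁ - X / 4) (T₁ + X / 4)) (Icc (x₀ - 8 * κ * ξ₁) (x₀ + 8 * κ * ξ₁))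
            (fun T x => ENNReal.ofReal (w24 h θ y (arc x₀ Kf (M ^ m) r) T x)) +
          ENNReal.ofReal ((M : ℝ) ^ m * (Ew * X * ξ₁ * (Kf.card : ℝ) ^ 12 * κ⁻¹ ^ n))) := by
  have hS := D.S0
  have hS3 := D.S3
  have hX := D.X0
  have hK20 := K0_24 D
  have hL := D.L1
  have hκ := D.κ10
  have hT := T1_24 D
  have hXT := D.XT
  have hsg := sg24 D
  have hq := D.q20
  have hxi := xi24 D
  have hM' : (2 : ℝ) ≤ M := by exact_mod_cast hM
  have hp : (0 : ℝ) < (M : ℝ) ^ m := by positivity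
  have hp1 : (1 : ℝ) ≤ (M : ℝ) ^ m := one_le_pow₀ (by linarith only [hM', hxi])
  have hm3 : (M : ℝ) ^ (3 * m) ≤ (200 * M) ^ 3 * q ^ 24 := by
    have e1 : (M : ℝ) ^ (3 * m) = ((M : ℝ) ^ m) ^ 3 := by rw [← pow_mul]; ring
    have e2 : (200 * (M : ℝ)) ^ 3 * q ^ 24 = (200 * M * q ^ 8) ^ 3 := by ring
    rw [e1, e2]
    exact pow_le_pow_left₀ hp.le hm 3
  have hm1 : (1 : ℝ) ≤ (M : ℝ) ^ (3 * m) := one_le_pow₀ (by linarith)
  have hκ0 : 0 < κ := by linarith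
  have hb1 : Cw * κ * 11 * (M : ℝ) ^ (3 * m) ≤ √G := by
    refine le_trans ?_ hbig
    have : Cw * κ * 11 * (M : ℝ) ^ (3 * m) ≤ Cw * κ * 11 * ((200 * M) ^ 3 * q ^ 24) :=
      mul_le_mul_of_nonneg_left hm3 (by positivity)
    refine this.trans (le_of_eq ?_)
    ring
  have hsG1 : 1 ≤ √G := by
    refine le_trans ?_ hb1
    have h1 : 1 ≤ Cw * κ := one_le_mul_of_one_le_of_one_le hCw (by linarith)
    have h2 : 1 ≤ Cw * κ * 11 := by linarith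
    exact one_le_mul_of_one_le_of_one_le h2 hm1
  have hG0 : 0 < G := Real.sqrt_pos.1 hsg.1
  have hGG : √G ≤ G := by
    have h1 : √G * √G = G := Real.mul_self_sqrt hG0.le
    nlinarith only [h1, hS3, hκ, hsg, hxi]
  have hρ2 : (11 / 10 * S) ^ 2 ≤ 11 := by nlinarith only [hS3, hS, hxi]
  have hρ1 : 11 / 10 * S ≤ 11 := by linarith only [hS3, hxi]
  have key := hw m (sl h θ) x₀ y (11 / 10 * S) X T₁ (K / X) G κ ξ₁ (fun _ => 1) Kf (D.hh.cv θ) (by simp) D.y0 (by linarith only [hS]) (by linarith only [hS3, hxi])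
    (by have := D.yS; linarith only [this]) (by positivity) hX hXT (by linarith only [hX, D.TX]) (by linarith only [hκ, hxi]) (by rw [D.hG]; field_simp)
    (by linarith only [hxi, hsg.2]) D.hξ ?_ ?_ ?_
  rotate_left
  · intro k hk
    obtain ⟨h1, h2, h3, h4⟩ := mem24 D (hK hk)
    refine ⟨?_, ?_, h2⟩
    · rw [div_div, div_le_iff₀ (by positivity)]
      have h5 : T₁ * uu x₀ k ≤ 2 * X * uu x₀ k := mul_le_mul_of_nonneg_right D.TX h1.le
      have h6 : 2 * L * (T₁ * uu x₀ k) ≤ 2 * L * (2 * X * uu x₀ k) := mul_le_mul_of_nonneg_left h5 (by linarith only [hL, hxi])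
      linarith only [h3, h6]
    · rw [← mul_div_assoc, le_div_iff₀ hX]
      have h5 : X * uu x₀ k ≤ T₁ * uu x₀ k := mul_le_mul_of_nonneg_right hXT h1.le
      have h6 : 0 ≤ 2 * L * K := by positivity
      linarith only [h4, h5, h6]
  · refine le_trans ?_ hb1
    have h1 : Cw * κ * (11 / 10 * S) ^ 2 ≤ Cw * κ * 11 := mul_le_mul_of_nonneg_left hρ2 (by positivity)
    exact mul_le_mul_of_nonneg_right h1 (by positivity)
  · refine le_trans ?_ (hb1.trans hGG)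
    have h1 : Cw * κ * (11 / 10 * S) ≤ Cw * κ * 11 := mul_le_mul_of_nonneg_left hρ1 (by positivity)
    exact mul_le_mul_of_nonneg_right h1 (by positivity)
  have hBX0 : ∀ (I : Finset (ℤ × ℤ)) (a b c d : ℝ), 0 ≤ BX (sl h θ) y I (fun _ => 1) a b c d := fun I a b c d =>
    integral_nonneg fun T => integral_nonneg fun x => m12_nonneg _ _
  have hκn : 0 ≤ κ⁻¹ ^ n := by positivity
  have ht0 : 0 ≤ Ew * X * ξ₁ * (Kf.card : ℝ) ^ 12 * κ⁻¹ ^ n := by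
    have := hxi.1
    (clear * - hEw hX this hκ; positivity)
  have key2 := six24 (hBX0 _ _ _ _ _) (fun r => add_nonneg (hBX0 _ _ _ _ _) ht0) key
  -- the constants
  have e1 : (Cw * (M : ℝ) ^ (ε / 6 * (m : ℝ))) ^ 6 * ((M ^ m : ℕ) : ℝ) ^ 5 = Cw ^ 6 * ((M : ℝ) ^ m) ^ (5 + ε) := by
    have h1 : ((M : ℝ) ^ (ε / 6 * (m : ℝ))) ^ 6 = ((M : ℝ) ^ m) ^ ε := by
      rw [← Real.rpow_natCast, ← Real.rpow_natCast, ← Real.rpow_mul (by positivity), ← Real.rpow_mul (by positivity)]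
      congr 1
      push_cast
      ring
    have h2 : ((M : ℝ) ^ m) ^ (5 + ε) = ((M : ℝ) ^ m) ^ 5 * ((M : ℝ) ^ m) ^ ε := by
      rw [Real.rpow_add hp]
      congr 1
      exact_mod_cast Real.rpow_natCast ((M : ℝ) ^ m) 5
    rw [mul_pow, h1, h2]
    push_cast
    ring
  rw [e1, Finset.sum_add_distrib, Finset.sum_const, Finset.card_range, nsmul_eq_mul] at key2
  -- back to lower integrals
  have hu : ∀ x ∈ Icc (x₀ - 8 * κ * ξ₁) (x₀ + 8 * κ * ξ₁), ∀ k ∈ Kf, 0 < uu x k := by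
    intro x hx k hk
    obtain ⟨h1, h2, h3, h4⟩ := mem24 D (hK hk)
    exact upos24 (big24 D (T := T₁) ⟨by linarith only [hX], by linarith only [hX]⟩ hx).2.1 h1 (h2.trans (by linarith only [hS3, hxi]))
  rw [← BX24 D.hh hT (fun x hx k hk => hu x ((sub24 D x₀).2 hx) k hk)]
  refine (ENNReal.ofReal_le_ofReal key2).trans ?_
  rw [ENNReal.ofReal_mul (by positivity)]
  refine mul_le_mul_right ?_ _
  rw [ENNReal.ofReal_add (Finset.sum_nonneg fun r _ => hBX0 _ _ _ _ _) (by positivity)]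
  refine add_le_add ?_ (le_of_eq ?_)
  · rw [ENNReal.ofReal_sum_of_nonneg (fun r _ => hBX0 _ _ _ _ _)]
    refine Finset.sum_le_sum fun r _ => le_of_eq ?_
    exact BX24 D.hh (by linarith only [hT, hXT]) (fun x hx k hk => hu x hx k ((Finset.filter_subset _ _) hk))
  · congr 1
    push_cast
    rfl


end windows

section levels

private theorem log2_24 {A a : ℝ} {m : ℕ} (hA : 2 ≤ A) (h : A ^ m ≤ a) : (m : ℝ) ≤ 2 * log a := by
  have hA0 : 0 < A ^ m := by positivity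
  have h1 : log (A ^ m) ≤ log a := Real.log_le_log hA0 h
  rw [Real.log_pow] at h1
  have h2 : 1 / 2 ≤ log A := by
    have h3 : log 2 ≤ log A := Real.log_le_log (by norm_num) hA
    have h4 := Real.log_two_gt_d9
    linarith only [h3, h4]
  have h3 : (m : ℝ) * (1 / 2) ≤ m * log A := mul_le_mul_of_nonneg_left h2 (Nat.cast_nonneg _)
  linarith

private theorem cardle24 {A : Finset ℕ} {a : ℝ} (ha : 0 ≤ a) (h : ∀ m ∈ A, (m : ℝ) ≤ a) : (A.card : ℝ) ≤ a + 1 := by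
  have h1 : A ⊆ Finset.range (⌊a⌋₊ + 1) := by
    intro m hm
    rw [Finset.mem_range, Nat.lt_succ_iff]
    exact Nat.le_floor (h m hm)
  have h2 := Finset.card_le_card h1
  rw [Finset.card_range] at h2
  have h3 : (A.card : ℝ) ≤ (⌊a⌋₊ : ℝ) + 1 := by exact_mod_cast h2
  linarith [Nat.floor_le ha]

private theorem lvA_card24 {M : ℕ} (hM : 2 ≤ M) {q : ℝ} (hq : 20 ≤ q) : ((lvA M q).card : ℝ) ≤ 401 * M * (1 + log q) := by
  have hM' : (2 : ℝ) ≤ M := by exact_mod_cast hM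
  have hlq : 0 ≤ log q := Real.log_nonneg (by linarith)
  refine (cardle24 (a := 400 * M + 16 * log q) (by positivity) fun m hm => ?_).trans ?_
  · have h1 := (Finset.mem_filter.1 hm).2.2
    have h2 := log2_24 hM' h1
    have h3 : log (200 * M * q ^ 8) = log (200 * M) + 8 * log q := by
      rw [Real.log_mul (by positivity) (by positivity), Real.log_pow]
      norm_num
    have h4 : log (200 * (M : ℝ)) ≤ 200 * M := (Real.log_le_sub_one_of_pos (by positivity)).trans (by linarith)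
    rw [h3] at h2
    linarith
  · nlinarith only [hM', hlq]

private theorem lvC_card24 {q : ℝ} (hq : 20 ≤ q) : ((lvC q).card : ℝ) ≤ 5 * (1 + log q) := by
  have hlq : 0 ≤ log q := Real.log_nonneg (by linarith)
  refine (cardle24 (a := 4 + 2 * log q) (by positivity) fun m hm => ?_).trans (by linarith)
  have h1 := (Finset.mem_filter.1 hm).2
  have h2 := log2_24 le_rfl h1
  have h3 : log (4 * q) = log 4 + log q := Real.log_mul (by norm_num) (by positivity)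
  have h4 : log (4 : ℝ) ≤ 2 := by
    have h5 : (4 : ℝ) = 2 ^ 2 := by norm_num
    rw [h5, Real.log_pow]
    have := Real.log_two_lt_d9
    norm_num
    linarith
  rw [h3] at h2
  linarith

private theorem mem_lvA24 {M : ℕ} (hM : 2 ≤ M) {q : ℝ} {m : ℕ} (h1 : q ^ 2 ≤ (M : ℝ) ^ m) (h2 : (M : ℝ) ^ m ≤ 200 * M * q ^ 8) : m ∈ lvA M q := by
  refine Finset.mem_filter.2 ⟨?_, h1, h2⟩
  rw [Finset.mem_range, Nat.lt_succ_iff]
  have h3 : m < M ^ m := Nat.lt_pow_self (by omega)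
  have h4 : (m : ℝ) ≤ (M : ℝ) ^ m := by exact_mod_cast h3.le
  exact_mod_cast (h4.trans h2).trans (Nat.le_ceil _)

private theorem mem_lvC24 {q : ℝ} {i : ℕ} (h2 : (2 : ℝ) ^ i ≤ 4 * q) : i ∈ lvC q := by
  refine Finset.mem_filter.2 ⟨?_, h2⟩
  rw [Finset.mem_range, Nat.lt_succ_iff]
  have h3 : i < 2 ^ i := Nat.lt_pow_self (by omega)
  have h4 : (i : ℝ) ≤ (2 : ℝ) ^ i := by exact_mod_cast h3.le
  exact_mod_cast (h4.trans h2).trans (Nat.le_ceil _)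

open Classical in
/-- the cusps of size `2^i` -/
private noncomputable def gr24 (x₀ : ℝ) (N : Finset (ℤ × ℤ)) (i : ℕ) : Finset (ℤ × ℤ) :=
  N.filter (fun n => (2 : ℝ) ^ i ≤ 4 * uu x₀ n ∧ 4 * uu x₀ n < 2 ^ (i + 1))

private theorem gr_card24 {q x₀ : ℝ} {N : Finset (ℤ × ℤ)} (hN : ∀ n ∈ N, NQ q x₀ n) (i : ℕ) :
    ((gr24 x₀ N i).card : ℝ) ≤ 15 * 4 ^ i := by
  have hp : (1 : ℝ) ≤ 2 ^ i := one_le_pow₀ (by norm_num)
  have h1 := count_NQ (x := x₀) (D := 2 ^ i / 2) (by linarith) (gr24 x₀ N i) (fun n hn => by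
    obtain ⟨h1, h2, h3⟩ := Finset.mem_filter.1 hn
    obtain ⟨a1, a2, a3, a4⟩ := hN n h1
    refine ⟨by linarith, ?_, a4⟩
    rw [pow_succ] at h3
    linarith)
  refine h1.trans (le_of_eq ?_)
  have : (4 : ℝ) ^ i = (2 ^ i) ^ 2 := by
    rw [← pow_mul, mul_comm i 2, pow_mul]
    norm_num
  rw [this]
  ring

/-- the decomposition of the moment -/
private theorem union24 {M : ℕ} (hM : 2 ≤ M) {q x₀ : ℝ} (hq : 20 ≤ q) {S : Finset (ℤ × ℤ)} {N : Finset (ℤ × ℤ)} {Kf : ℕ → Finset (ℤ × ℤ)}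
    (hN : ∀ n, n ∈ N ↔ NQ q x₀ n) (hNN : ∀ n ∈ N, ∀ n' ∈ N, n ≠ n' → Disjoint (cus q x₀ S n) (cus q x₀ S n'))
    (hK : ∀ m, Kf m ⊆ S) (hKK : ∀ m m', m ≠ m' → Disjoint (Kf m) (Kf m')) (hNK : ∀ n ∈ N, ∀ m, Disjoint (cus q x₀ S n) (Kf m))
    (hcov : ∀ k ∈ S, (∃ n ∈ N, k ∈ cus q x₀ S n) ∨ ∃ m : ℕ, (M : ℝ) ^ m < 200 * M * q ^ 8 ∧ k ∈ Kf m)
    (hlev : ∀ m, (Kf m).Nonempty → q ^ 2 ≤ (M : ℝ) ^ m) (a : ℤ × ℤ → ℂ) :
    m12 S a ≤ (406 * M * (1 + log q)) ^ 11 * (∑ m ∈ lvA M q, m12 (Kf m) a +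
      ∑ i ∈ lvC q, 15 ^ 11 * (2 : ℝ) ^ (22 * i) * ∑ n ∈ gr24 x₀ N i, m12 (cus q x₀ S n) a) := by
  classical
  have hM' : (2 : ℝ) ≤ M := by exact_mod_cast hM
  have hlq : 0 ≤ log q := Real.log_nonneg (by linarith)
  have hgr : ∀ i n, n ∈ gr24 x₀ N i ↔ n ∈ N ∧ (2 : ℝ) ^ i ≤ 4 * uu x₀ n ∧ 4 * uu x₀ n < 2 ^ (i + 1) := fun i n => Finset.mem_filter
  have hgrd : ∀ i j n, n ∈ gr24 x₀ N i → n ∈ gr24 x₀ N j → i = j := by
    intro i j n hi hj
    rw [hgr] at hi hj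
    have h1 : (2 : ℝ) ^ i < 2 ^ (j + 1) := hi.2.1.trans_lt hj.2.2
    have h2 : (2 : ℝ) ^ j < 2 ^ (i + 1) := hj.2.1.trans_lt hi.2.2
    have h3 := (pow_lt_pow_iff_right₀ (by norm_num : (1 : ℝ) < 2)).1 h1
    have h4 := (pow_lt_pow_iff_right₀ (by norm_num : (1 : ℝ) < 2)).1 h2
    omega
  have h1 := m12_union ((lvA M q).disjSum (lvC q))
    (fun j => Sum.elim Kf (fun i => (gr24 x₀ N i).biUnion (fun n => cus q x₀ S n)) j) S a ?_ ?_
  · rw [Finset.sum_disjSum, Finset.card_disjSum] at h1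
    simp only [Sum.elim_inl, Sum.elim_inr] at h1
    have h2 : ∀ i ∈ lvC q, m12 ((gr24 x₀ N i).biUnion (fun n => cus q x₀ S n)) a ≤
        15 ^ 11 * (2 : ℝ) ^ (22 * i) * ∑ n ∈ gr24 x₀ N i, m12 (cus q x₀ S n) a := by
      intro i _
      have h3 := m12_union (gr24 x₀ N i) (fun n => cus q x₀ S n) ((gr24 x₀ N i).biUnion (fun n => cus q x₀ S n)) a
        (fun n hn n' hn' hne => hNN n ((hgr i n).1 hn).1 n' ((hgr i n').1 hn').1 hne) (fun k => by simp)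
      refine h3.trans (mul_le_mul_of_nonneg_right ?_ (Finset.sum_nonneg fun n _ => m12_nonneg _ _))
      have h4 := pow_le_pow_left₀ (Nat.cast_nonneg _) (gr_card24 (fun n hn => (hN n).1 hn) i) 11
      refine h4.trans (le_of_eq ?_)
      rw [mul_pow]
      congr 1
      rw [show (4 : ℝ) = 2 ^ 2 by norm_num, ← pow_mul, ← pow_mul]
      congr 1
      ring
    refine h1.trans ?_
    have h5 : (((lvA M q).card + (lvC q).card : ℕ) : ℝ) ≤ 406 * M * (1 + log q) := by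
      push_cast
      have h6 := lvA_card24 hM hq
      have h7 := lvC_card24 hq
      nlinarith only [hM', h6, hlq, h7]
    have h6 := pow_le_pow_left₀ (Nat.cast_nonneg _) h5 11
    refine mul_le_mul h6 (add_le_add le_rfl (Finset.sum_le_sum h2)) ?_ (by positivity)
    exact add_nonneg (Finset.sum_nonneg fun n _ => m12_nonneg _ _) (Finset.sum_nonneg fun n _ => m12_nonneg _ _)
  · rintro (i | i) hi (j | j) hj hij
    · exact hKK i j (fun h => hij (by rw [h]))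
    · simp only [Sum.elim_inl, Sum.elim_inr]
      rw [Finset.disjoint_biUnion_right]
      exact fun n hn => (hNK n ((hgr j n).1 hn).1 i).symm
    · simp only [Sum.elim_inl, Sum.elim_inr]
      rw [Finset.disjoint_biUnion_left]
      exact fun n hn => hNK n ((hgr i n).1 hn).1 j
    · simp only [Sum.elim_inr]
      rw [Finset.disjoint_biUnion_left]
      intro n hn
      rw [Finset.disjoint_biUnion_right]
      intro n' hn'
      refine hNN n ((hgr i n).1 hn).1 n' ((hgr j n').1 hn').1 ?_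
      rintro rfl
      exact hij (by rw [hgrd i j n hn hn'])
  · intro k
    constructor
    · intro hk
      rcases hcov k hk with ⟨n, hn, hkn⟩ | ⟨m, hm, hkm⟩
      · obtain ⟨a1, a2, a3, a4⟩ := (hN n).1 hn
        obtain ⟨i, hi1, hi2⟩ := exists_nat_pow_near (x := 4 * uu x₀ n) (y := (2 : ℝ)) (by linarith) (by norm_num)
        refine ⟨Sum.inr i, ?_, ?_⟩
        · rw [Finset.inr_mem_disjSum]
          exact mem_lvC24 (by linarith)
        · simp only [Sum.elim_inr, Finset.mem_biUnion]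
          exact ⟨n, (hgr i n).2 ⟨hn, hi1, hi2⟩, hkn⟩
      · refine ⟨Sum.inl m, ?_, hkm⟩
        rw [Finset.inl_mem_disjSum]
        exact mem_lvA24 hM (hlev m ⟨k, hkm⟩) hm.le
    · rintro ⟨j, hj, hk⟩
      rcases j with m | i
      · exact hK m hk
      · simp only [Sum.elim_inr, Finset.mem_biUnion] at hk
        obtain ⟨n, _, hn⟩ := hk
        exact (Finset.mem_filter.1 hn).1


end levels

section final

variable {c₁ B L : ℝ} {h : ℝ × ℝ → ℝ} {y T₁ X K G κ ξ₁ q S : ℝ}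

/-- to the large set of frequencies -/
private theorem base24 (D : D24 c₁ B L h y T₁ X K G κ ξ₁ q S) {θ x₀ T x : ℝ} (hT : T ∈ Icc T₁ (T₁ + X / (4 * κ))) (hx : x ∈ Icc x₀ (x₀ + ξ₁)) :
    PP h L S K (fr θ y T x) ≤ ENNReal.ofReal (24 ^ 48) * ENNReal.ofReal (w24 h θ y (st (2 * L) (11 / 10 * S) K T₁ x₀) T x) := by
  have hT1 := T1_24 D
  have hS := D.S0
  have hK := K0_24 D
  have hL := D.L1
  have hX := D.X0
  have hκ := D.κ10
  have hT0 : 0 < T := hT1.trans_le hT.1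
  obtain ⟨e1, e2, e3, e4⟩ := fr_coord (θ := θ) (y := y) (T := T) (x := x) hT0
  have h4 : X / (4 * κ) ≤ X / 4 := div_le_div_of_nonneg_left hX.le (by norm_num) (by linarith)
  have hxS : |x - x₀| * S ≤ 1 / 40 := by
    have h5 : |x - x₀| ≤ ξ₁ := by
      rw [abs_of_nonneg (by linarith [hx.1])]
      linarith [hx.2]
    exact (mul_le_mul_of_nonneg_right h5 hS.le).trans (xi24 D).2.2.2
  have h1 := (base_sub (L := L) (S := S) (K := K) hL (by linarith) hS.le hT1 hT.1 (by linarith [hT.2, D.XT]) hxS).1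
  have h2 := m12_cut (st_cut (L := L) (S := S) (K := K) (T := T) (x := x) hT0 (by linarith) (by linarith) hS.le) h1
    (fun k => ee (h (vf (fr θ y T x) k)))
  unfold PP
  rw [e1, e2, ← ENNReal.ofReal_mul (by positivity)]
  refine ENNReal.ofReal_le_ofReal (h2.trans (le_of_eq ?_))
  unfold w24
  norm_num

end final

private theorem mm24 {a b : ℝ} (ha : 0 ≤ a) (Z : ENNReal) :
    ENNReal.ofReal a * (ENNReal.ofReal b * Z) = ENNReal.ofReal (a * b) * Z := by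
  rw [← mul_assoc, ← ENNReal.ofReal_mul ha]

theorem stageA {ε c₁ B L : ℝ} (hε : 0 < ε) (hε1 : ε ≤ 1) (hc : 0 < c₁) (hc1 : c₁ ≤ 1) (hB : 1 ≤ B) (hL : 1 ≤ L) (n : ℕ) : ∃ M : ℕ, 2 ≤ M ∧ ∃ C β E : ℝ, 1 ≤ C ∧ 1 ≤ β ∧ 1 ≤ E ∧
    ∀ (h : ℝ × ℝ → ℝ) (θ y T₁ x₀ X K G κ ξ₁ q S : ℝ), Hom c₁ B h → 0 < S → S ≤ 3 → 0 < y → 11 / 10 * (y * S) ≤ k₀ c₁ B → y ≤ q → 20 ≤ q → q ≤ K →
      0 < X → 1 ≤ K * X → X ≤ K → X ≤ T₁ → T₁ ≤ 2 * X → G = K * y ^ 2 → 10 ≤ κ → 40 ≤ S ^ 2 * √G → ξ₁ = 1 / (16 * κ * (11 / 10 * S) ^ 2 * √G) →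
      C * κ * q ^ 24 ≤ √G →
      ∫⁻ T in Icc T₁ (T₁ + X / (4 * κ)), ∫⁻ x in Icc x₀ (x₀ + ξ₁), PP h L S K (fr θ y T x) ≤
        (∫⁻ T in Icc (T₁ - X / 4) (T₁ + X / 4), ∫⁻ x in Icc (x₀ - 8 * κ * ξ₁) (x₀ + 8 * κ * ξ₁), GA h M ε β C L K q (fr θ y T x)) +
          ENNReal.ofReal (E * X * ξ₁ * K ^ 200 * κ⁻¹ ^ n) := by
  classical
  obtain ⟨M, hM, Cw, Ew, hCw, hEw, hw⟩ := window (ε := ε / 6) (c₁ := c₁) (B := B) (lam := 4 * L) (by positivity) hc hc1 hB (by linarith) n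
  have hM' : (2 : ℝ) ≤ M := by exact_mod_cast hM
  have hcc := cc24_pos
  obtain ⟨b₁, hb₁⟩ : ∃ b₁ : ℝ, b₁ = 24 ^ 48 * (406 * M) ^ 11 := ⟨_, rfl⟩
  have hb₁1 : 1 ≤ b₁ := by
    rw [hb₁]
    exact one_le_mul_of_one_le_of_one_le (by norm_num) (one_le_pow₀ (by linarith))
  obtain ⟨C, hC⟩ : ∃ C : ℝ, C = b₁ * (Cw ^ 6 * (13 * M * cc24) + 15 ^ 11 * cc24) + Cw * 11 * (200 * M) ^ 3 := ⟨_, rfl⟩
  obtain ⟨E, hE⟩ : ∃ E : ℝ, E = b₁ * (Cw ^ 6 * (401 * M * (200 * M) ^ 7 * Ew * (540 * L ^ 2) ^ 12)) := ⟨_, rfl⟩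
  have hb0 : 0 ≤ b₁ := by linarith
  have hcc0 : 0 ≤ cc24 := by linarith
  have hCw0 : 0 < Cw := by linarith
  have hL0 : 0 < L := by linarith
  have hCa : b₁ * (Cw ^ 6 * (13 * M * cc24)) ≤ C := by
    rw [hC]
    have h1 : 0 ≤ b₁ * (15 ^ 11 * cc24) := by positivity
    have h2 : 0 ≤ Cw * 11 * (200 * (M : ℝ)) ^ 3 := by positivity
    rw [mul_add]
    linarith
  have hCb : b₁ * (15 ^ 11 * cc24) ≤ C := by
    rw [hC]
    have h1 : 0 ≤ b₁ * (Cw ^ 6 * (13 * M * cc24)) := by positivity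
    have h2 : 0 ≤ Cw * 11 * (200 * (M : ℝ)) ^ 3 := by positivity
    rw [mul_add]
    linarith
  have hCc : Cw * 11 * (200 * M) ^ 3 ≤ C := by
    rw [hC]
    have h1 : 0 ≤ b₁ * (Cw ^ 6 * (13 * M * cc24) + 15 ^ 11 * cc24) := by positivity
    linarith
  have hC1 : 1 ≤ C := by
    refine le_trans ?_ hCb
    exact one_le_mul_of_one_le_of_one_le hb₁1 (one_le_mul_of_one_le_of_one_le (by norm_num) hcc)
  refine ⟨M, hM, C, 576 * M, E, hC1, by linarith, ?_, ?_⟩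
  · rw [hE]
    have h1 : 1 ≤ Cw ^ 6 := one_le_pow₀ hCw
    have h2 : 1 ≤ (200 * (M : ℝ)) ^ 7 := one_le_pow₀ (by linarith)
    have h3 : 1 ≤ L ^ 2 := one_le_pow₀ hL
    have h4 : 1 ≤ (540 * L ^ 2) ^ 12 := one_le_pow₀ (by linarith)
    refine one_le_mul_of_one_le_of_one_le hb₁1 (one_le_mul_of_one_le_of_one_le h1 (one_le_mul_of_one_le_of_one_le
      (one_le_mul_of_one_le_of_one_le (one_le_mul_of_one_le_of_one_le (by linarith) h2) hEw) h4))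
  intro h θ y T₁ x₀ X K G κ ξ₁ q S hh hS hS3 hy hyS hyq hq hqK hX hKX hXK hXT hTX hG hκ hSG hξ hCG
  have D : D24 c₁ B L h y T₁ X K G κ ξ₁ q S :=
    ⟨hc, hc1, hB, hL, hh, hS, hS3, hy, hyS, hyq, hq, hqK, hX, hKX, hXK, hXT, hTX, hG, hκ, hSG, hξ⟩
  obtain ⟨Sw, hSw⟩ : ∃ Sw, Sw = st (2 * L) (11 / 10 * S) K T₁ x₀ := ⟨_, rfl⟩
  obtain ⟨N, Kf, hN, hNN, hK, hKK, hNK, hcov, hNcut, harc⟩ := decomp hM (x := x₀) (C := 24 ^ 4) (S := Sw) hq
    (fun k hk => by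
      rw [hSw] at hk
      obtain ⟨h1, h2, h3, h4⟩ := mem24 D hk
      exact ⟨h1, h2.trans (by linarith only [hS3])⟩) (by norm_num) (by rw [hSw]; exact cut24 D x₀)
  have hlev : ∀ m, (Kf m).Nonempty → q ^ 2 ≤ (M : ℝ) ^ m := by
    rintro m ⟨k, hk⟩
    obtain ⟨n', h1, h2, h3, h4, h5, -⟩ := harc m (⌊((M ^ m : ℕ) : ℝ) * ((tt x₀ k + 6) / 12)⌋₊) ⟨k, Finset.mem_filter.2 ⟨hk, rfl⟩⟩
    nlinarith only [hy, h2, h4, hyq, hq]
  have hlq : 0 ≤ log q := Real.log_nonneg (by linarith)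
  have hxi := xi24 D
  -- the small and the large window
  obtain ⟨s, hs⟩ : ∃ s, s = Icc T₁ (T₁ + X / (4 * κ)) := ⟨_, rfl⟩
  obtain ⟨t, ht⟩ : ∃ t, t = Icc x₀ (x₀ + ξ₁) := ⟨_, rfl⟩
  obtain ⟨s', hs'⟩ : ∃ s', s' = Icc (T₁ - X / 4) (T₁ + X / 4) := ⟨_, rfl⟩
  obtain ⟨t', ht'⟩ : ∃ t', t' = Icc (x₀ - 8 * κ * ξ₁) (x₀ + 8 * κ * ξ₁) := ⟨_, rfl⟩
  have hss : s ⊆ s' := by rw [hs, hs']; exact (sub24 D x₀).1
  have htt : t ⊆ t' := by rw [ht, ht']; exact (sub24 D x₀).2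
  have hms : MeasurableSet s := by rw [hs]; exact measurableSet_Icc
  have hmt : MeasurableSet t := by rw [ht]; exact measurableSet_Icc
  have hms' : MeasurableSet s' := by rw [hs']; exact measurableSet_Icc
  have hmt' : MeasurableSet t' := by rw [ht']; exact measurableSet_Icc
  have hbig : ∀ T ∈ s', ∀ x ∈ t', |T - T₁| ≤ T₁ / 4 ∧ |x - x₀| ≤ 1 / 80 ∧ 0 < T := by
    intro T hT x hx
    rw [hs'] at hT
    rw [ht'] at hx
    exact big24 D hT hx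
  -- the functions
  obtain ⟨NA, hNA⟩ : ∃ NA : ℕ → ℝ → ℝ → ENNReal, NA = fun m T x => NS (576 * M) (√((M : ℝ) ^ m)) (PP h (6 * L) 3 K) (fr θ y T x) := ⟨_, rfl⟩
  obtain ⟨NC, hNC⟩ : ∃ NC : ℕ → ℝ → ℝ → ENNReal, NC = fun i T x => NS (576 * M) (2 ^ i) (PP h (6 * L) (2 * q⁻¹ ^ 3) K) (fr θ y T x) := ⟨_, rfl⟩
  obtain ⟨g, hg⟩ : ∃ g : ℝ → ℝ → ENNReal, g = fun T x => ∑ i ∈ lvC q, ENNReal.ofReal (15 ^ 11 * (2 : ℝ) ^ (22 * i)) * (ENNReal.ofReal cc24 * NC i T x) := ⟨_, rfl⟩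
  obtain ⟨b₂, hb₂⟩ : ∃ b₂ : ℝ, b₂ = b₁ * (1 + log q) ^ 11 := ⟨_, rfl⟩
  have hb₂0 : 0 ≤ b₂ := by rw [hb₂]; positivity
  have step1 : ∀ T ∈ s, ∀ x ∈ t, PP h L S K (fr θ y T x) ≤
      ENNReal.ofReal b₂ * (∑ m ∈ lvA M q, ENNReal.ofReal (w24 h θ y (Kf m) T x) + g T x) := by
    intro T hT x hx
    obtain ⟨hT1, hx1, hT0⟩ := hbig T (hss hT) x (htt hx)
    rw [hs] at hT
    rw [ht] at hx
    refine (base24 D hT hx).trans ?_
    rw [← hSw]
    have h1 := union24 hM hq hN hNN hK hKK hNK hcov hlev (fun k => ee (h (vf (fr θ y T x) k)))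
    have h2 : w24 h θ y Sw T x ≤ (406 * M * (1 + log q)) ^ 11 * (∑ m ∈ lvA M q, w24 h θ y (Kf m) T x +
      ∑ i ∈ lvC q, 15 ^ 11 * (2 : ℝ) ^ (22 * i) * ∑ n ∈ gr24 x₀ N i, w24 h θ y (cus q x₀ Sw n) T x) := h1
    have hw0 : ∀ I, 0 ≤ w24 h θ y I T x := fun I => w24_nonneg _ _ _ _ _ _
    have h3 := ENNReal.ofReal_le_ofReal h2
    rw [ENNReal.ofReal_mul (by positivity), ENNReal.ofReal_add (Finset.sum_nonneg fun m _ => hw0 _)
      (Finset.sum_nonneg fun i _ => mul_nonneg (by positivity) (Finset.sum_nonneg fun n _ => hw0 _)),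
      ENNReal.ofReal_sum_of_nonneg (fun m _ => hw0 _),
      ENNReal.ofReal_sum_of_nonneg (fun i _ => mul_nonneg (by positivity) (Finset.sum_nonneg fun n _ => hw0 _))] at h3
    have h4 : ∀ i ∈ lvC q, ENNReal.ofReal (15 ^ 11 * (2 : ℝ) ^ (22 * i) * ∑ n ∈ gr24 x₀ N i, w24 h θ y (cus q x₀ Sw n) T x) ≤
        ENNReal.ofReal (15 ^ 11 * (2 : ℝ) ^ (22 * i)) * (ENNReal.ofReal cc24 * NC i T x) := by
      intro i _
      rw [ENNReal.ofReal_mul (by positivity), ENNReal.ofReal_sum_of_nonneg (fun n _ => hw0 _)]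
      refine mul_le_mul_right ?_ _
      rw [hNC, hSw]
      refine cusps24 D hM hT1 hx1 i (gr24 x₀ N i) ?_
      intro n' hn'
      obtain ⟨h5, h6, h7⟩ := Finset.mem_filter.1 hn'
      refine ⟨(hN n').1 h5, h6, h7, ?_⟩
      have := hNcut n' h5
      rw [hSw] at this
      exact this
    have h5 : ENNReal.ofReal (w24 h θ y Sw T x) ≤ ENNReal.ofReal ((406 * M * (1 + log q)) ^ 11) *
        (∑ m ∈ lvA M q, ENNReal.ofReal (w24 h θ y (Kf m) T x) + g T x) := by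
      refine h3.trans (mul_le_mul_right (add_le_add le_rfl ?_) _)
      rw [hg]
      exact Finset.sum_le_sum h4
    refine (mul_le_mul_right h5 _).trans (le_of_eq ?_)
    rw [← mul_assoc, ← ENNReal.ofReal_mul (by positivity)]
    congr 2
    rw [hb₂, hb₁]
    ring
  have step2 : J24 s t (fun T x => PP h L S K (fr θ y T x)) ≤
      ENNReal.ofReal b₂ * (∑ m ∈ lvA M q, J24 s t (fun T x => ENNReal.ofReal (w24 h θ y (Kf m) T x)) + J24 s t g) := by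
    refine (J24_mono hms hmt step1).trans (le_of_eq ?_)
    rw [J24_const ENNReal.ofReal_ne_top]
    congr 1
    exact J24_sum (lvA M q) (fun m _ => meas24 hh.cont θ y (Kf m))
  -- the tails
  obtain ⟨tl, htl⟩ : ∃ tl : ℝ, tl = (200 * M) ^ 7 * K ^ 56 * (Ew * X * ξ₁ * ((540 * L ^ 2) ^ 12 * K ^ 48) * κ⁻¹ ^ n) := ⟨_, rfl⟩
  have hK20 := K0_24 D
  have hκ0 : 0 < κ := by linarith only [hκ, hxi]
  have hxi0 := hxi.1
  have hEw0 : 0 < Ew := by linarith only [hEw, hxi]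
  have step3 : ∀ m ∈ lvA M q, J24 s t (fun T x => ENNReal.ofReal (w24 h θ y (Kf m) T x)) ≤
      J24 s' t' (fun T x => ENNReal.ofReal (Cw ^ 6 * ((M : ℝ) ^ m) ^ (5 + ε) * (13 * M * cc24)) * NA m T x) + ENNReal.ofReal (Cw ^ 6 * tl) := by
    intro m hm
    obtain ⟨hm1, hm2⟩ := (Finset.mem_filter.1 hm).2
    have hp : (0 : ℝ) < (M : ℝ) ^ m := by positivity
    have hp1 : (1 : ℝ) ≤ (M : ℝ) ^ m := one_le_pow₀ (by linarith only [hM', hxi])
    have h1 := win24 D (θ := θ) (x₀ := x₀) hM hCw hEw hw m (Kf m) (by rw [← hSw]; exact hK m) hm2 (by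
      refine le_trans ?_ hCG
      exact mul_le_mul_of_nonneg_right (mul_le_mul_of_nonneg_right hCc hκ0.le) (by positivity))
    rw [← hs, ← ht, ← hs', ← ht'] at h1
    refine h1.trans ?_
    rw [mul_add]
    refine add_le_add ?_ ?_
    · have h2 : ∑ r ∈ Finset.range (M ^ m), J24 s' t' (fun T x => ENNReal.ofReal (w24 h θ y (arc x₀ (Kf m) (M ^ m) r) T x)) ≤
          J24 s' t' (fun T x => ENNReal.ofReal (13 * M * cc24) * NA m T x) := by
        refine (J24_sum_le _ _ _ _).trans (J24_mono hms' hmt' fun T hT x hx => ?_)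
        obtain ⟨hT1, hx1, hT0⟩ := hbig T hT x hx
        rw [hNA]
        exact arcs24 D hM hT1 hx1 m (Kf m) (by rw [← hSw]; exact hK m) (fun r hr => harc m r hr)
      refine (mul_le_mul_right h2 _).trans (le_of_eq ?_)
      rw [← J24_const ENNReal.ofReal_ne_top]
      congr 1
      funext T x
      rw [← mul_assoc, ← ENNReal.ofReal_mul (by positivity)]
    · rw [← ENNReal.ofReal_mul (by positivity)]
      refine ENNReal.ofReal_le_ofReal ?_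
      rw [mul_assoc]
      refine mul_le_mul_of_nonneg_left ?_ (by positivity)
      have h2 : ((M : ℝ) ^ m) ^ (5 + ε) ≤ ((M : ℝ) ^ m) ^ (6 : ℝ) := Real.rpow_le_rpow_of_exponent_le hp1 (by linarith only [hε1])
      have h3 : ((M : ℝ) ^ m) ^ (6 : ℝ) = ((M : ℝ) ^ m) ^ 6 := by exact_mod_cast Real.rpow_natCast ((M : ℝ) ^ m) 6
      rw [h3] at h2
      have h4 : ((M : ℝ) ^ m) ^ (5 + ε) * (M : ℝ) ^ m ≤ (200 * M) ^ 7 * K ^ 56 := by
        calc ((M : ℝ) ^ m) ^ (5 + ε) * (M : ℝ) ^ m ≤ ((M : ℝ) ^ m) ^ 6 * (M : ℝ) ^ m := mul_le_mul_of_nonneg_right h2 hp.le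
          _ = ((M : ℝ) ^ m) ^ 7 := by ring
          _ ≤ (200 * M * q ^ 8) ^ 7 := pow_le_pow_left₀ hp.le hm2 7
          _ ≤ (200 * M * K ^ 8) ^ 7 := by
            refine pow_le_pow_left₀ (by positivity) ?_ 7
            exact mul_le_mul_of_nonneg_left (pow_le_pow_left₀ (by linarith only [hq, hxi]) hqK 8) (by positivity)
          _ = (200 * M) ^ 7 * K ^ 56 := by ring
      have h5 : ((Kf m).card : ℝ) ≤ 540 * L ^ 2 * K ^ 4 := by
        refine le_trans ?_ (card24 D x₀)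
        rw [← hSw]
        exact_mod_cast Finset.card_le_card (hK m)
      have h6 : ((Kf m).card : ℝ) ^ 12 ≤ (540 * L ^ 2) ^ 12 * K ^ 48 := by
        refine (pow_le_pow_left₀ (Nat.cast_nonneg _) h5 12).trans (le_of_eq ?_)
        ring
      have hκn : 0 ≤ κ⁻¹ ^ n := by positivity
      have h7 : Ew * X * ξ₁ * ((Kf m).card : ℝ) ^ 12 * κ⁻¹ ^ n ≤ Ew * X * ξ₁ * ((540 * L ^ 2) ^ 12 * K ^ 48) * κ⁻¹ ^ n :=
        mul_le_mul_of_nonneg_right (mul_le_mul_of_nonneg_left h6 (by positivity)) hκn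
      rw [htl, ← mul_assoc]
      exact mul_le_mul h4 h7 (by (clear * - hEw hX hxi0 hκ; positivity)) (by positivity)
  have step4 : ∑ m ∈ lvA M q, J24 s t (fun T x => ENNReal.ofReal (w24 h θ y (Kf m) T x)) + J24 s t g ≤
      J24 s' t' (fun T x => ∑ m ∈ lvA M q, ENNReal.ofReal (Cw ^ 6 * ((M : ℝ) ^ m) ^ (5 + ε) * (13 * M * cc24)) * NA m T x + g T x) +
        (lvA M q).card • ENNReal.ofReal (Cw ^ 6 * tl) := by
    have h1 := Finset.sum_le_sum step3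
    rw [Finset.sum_add_distrib, Finset.sum_const] at h1
    have h2 := J24_sum_le (lvA M q) s' t' (fun m T x => ENNReal.ofReal (Cw ^ 6 * ((M : ℝ) ^ m) ^ (5 + ε) * (13 * M * cc24)) * NA m T x)
    have h3 : J24 s t g ≤ J24 s' t' g := J24_set hss htt g
    have h4 := J24_add_le s' t' (fun T x => ∑ m ∈ lvA M q, ENNReal.ofReal (Cw ^ 6 * ((M : ℝ) ^ m) ^ (5 + ε) * (13 * M * cc24)) * NA m T x) g
    refine (add_le_add h1 h3).trans ?_
    rw [add_right_comm]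
    exact add_le_add ((add_le_add h2 le_rfl).trans h4) le_rfl
  have hrhs : ENNReal.ofReal b₂ * J24 s' t' (fun T x => ∑ m ∈ lvA M q, ENNReal.ofReal (Cw ^ 6 * ((M : ℝ) ^ m) ^ (5 + ε) * (13 * M * cc24)) * NA m T x + g T x) ≤
      J24 s' t' (fun T x => GA h M ε (576 * M) C L K q (fr θ y T x)) := by
    rw [← J24_const ENNReal.ofReal_ne_top]
    refine J24_mono hms' hmt' fun T _ x _ => ?_
    have hlog : (1 + log q) ^ 11 ≤ (1 + log q) ^ 12 := pow_le_pow_right₀ (by linarith only [hlq]) (by norm_num)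
    unfold GA
    rw [mul_add, mul_add, Finset.mul_sum, Finset.mul_sum, Finset.mul_sum, hg, Finset.mul_sum]
    refine add_le_add (Finset.sum_le_sum fun m _ => ?_) (Finset.sum_le_sum fun i _ => ?_)
    · have hp : (0 : ℝ) ≤ ((M : ℝ) ^ m) ^ (5 + ε) := Real.rpow_nonneg (by positivity) _
      rw [hNA, mm24 hb₂0, mm24 (by positivity)]
      refine mul_le_mul_left (ENNReal.ofReal_le_ofReal ?_) _
      calc b₂ * (Cw ^ 6 * ((M : ℝ) ^ m) ^ (5 + ε) * (13 * M * cc24)) =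
          b₁ * (Cw ^ 6 * (13 * M * cc24)) * (1 + log q) ^ 11 * ((M : ℝ) ^ m) ^ (5 + ε) := by rw [hb₂]; ring
        _ ≤ C * (1 + log q) ^ 12 * ((M : ℝ) ^ m) ^ (5 + ε) :=
          mul_le_mul_of_nonneg_right (mul_le_mul hCa hlog (by positivity) (by positivity)) hp
    · rw [hNC, mm24 hb₂0, mm24 (by positivity), mm24 (by positivity)]
      refine mul_le_mul_left (ENNReal.ofReal_le_ofReal ?_) _
      calc b₂ * (15 ^ 11 * (2 : ℝ) ^ (22 * i)) * cc24 = b₁ * (15 ^ 11 * cc24) * (1 + log q) ^ 11 * (2 : ℝ) ^ (22 * i) := by rw [hb₂]; ring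
        _ ≤ C * (1 + log q) ^ 12 * (2 : ℝ) ^ (22 * i) :=
          mul_le_mul_of_nonneg_right (mul_le_mul hCb hlog (by positivity) (by positivity)) (by positivity)
  have htl0 : 0 ≤ tl := by rw [htl]; positivity
  have htail : ENNReal.ofReal b₂ * ((lvA M q).card • ENNReal.ofReal (Cw ^ 6 * tl)) ≤ ENNReal.ofReal (E * X * ξ₁ * K ^ 200 * κ⁻¹ ^ n) := by
    rw [nsmul_eq_mul, ← ENNReal.ofReal_natCast, ← ENNReal.ofReal_mul (Nat.cast_nonneg _), ← ENNReal.ofReal_mul hb₂0]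
    refine ENNReal.ofReal_le_ofReal ?_
    have h1 := lvA_card24 hM hq
    have h2 : 1 + log q ≤ K := by
      have := Real.log_le_sub_one_of_pos (show 0 < q by linarith only [hq, hxi])
      linarith only [hqK, this]
    have h3 : (1 + log q) ^ 12 ≤ K ^ 12 := pow_le_pow_left₀ (by linarith only [hlq, hxi]) h2 12
    have hκn : 0 ≤ κ⁻¹ ^ n := by positivity
    calc b₂ * (((lvA M q).card : ℝ) * (Cw ^ 6 * tl)) ≤ b₂ * ((401 * M * (1 + log q)) * (Cw ^ 6 * tl)) :=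
          mul_le_mul_of_nonneg_left (mul_le_mul_of_nonneg_right h1 (by positivity)) hb₂0
      _ = b₁ * Cw ^ 6 * (401 * M) * tl * (1 + log q) ^ 12 := by rw [hb₂]; ring
      _ ≤ b₁ * Cw ^ 6 * (401 * M) * tl * K ^ 12 := mul_le_mul_of_nonneg_left h3 (by positivity)
      _ = E * X * ξ₁ * K ^ 116 * κ⁻¹ ^ n := by rw [hE, htl]; ring
      _ ≤ E * X * ξ₁ * K ^ 200 * κ⁻¹ ^ n := by
        have hE0 : 0 ≤ E := by rw [hE]; positivity
        refine mul_le_mul_of_nonneg_right (mul_le_mul_of_nonneg_left ?_ (by positivity)) hκn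
        exact pow_le_pow_right₀ (by linarith only [hq, hqK, hxi]) (by norm_num)
  have hfin := step2.trans ((mul_le_mul_right step4 _).trans (le_of_eq (mul_add _ _ _)))
  have hfin2 := hfin.trans (add_le_add hrhs htail)
  unfold J24 at hfin2
  rw [hs, ht, hs', ht'] at hfin2
  exact hfin2

end Pool.Agent.Helper60.LT
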