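import Pool.Agent.Helper60.LT.F0

/-!
# LT-F2a: stage B, the pointwise estimate

PROOF. For a nonempty arc `r` take `k ∈ arc_r`, `t = tt x₀ k`, `2ρ/5 < |t| ≤ ρ' = 11/10 ρ`. Let `e = ± 1` be the sign of `t`, `n = (n₁, e)` with `n₁` the integer for which `u_n = n₁ + e x₀` satisfies `|u_n - 1/|t|| ≤ 1/2`.
Then `s_n = e/u_n`, `IsCoprime`, `u_n ≥ 1/ρ' - 1/2 ≥ 4/(5ρ)`, `u_n ≤ 5/(2ρ) + 1/2 ≤ 3/ρ`, `|t - s_n| u_n² = |t| |u_n - 1/|t|| u_n ≤ (1/2)(1 + |t|/2) ≤ 3/5`; all `t'` of the arc: `|t' - t| ≤ 12/M^m ≤ (12/100) ρ²`, times `u_n² ≤ 9/ρ²`: `≤ 11/10`; so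
`|t' - s_n| u_n² ≤ 17/10 ≤ 9/4`. `arc_pt` (`σ = 9/4`, `S := ρ`; `Cut` of the arc: `st_cut`, `cut_inter` + `cut_diff` for `{|k.2| ≤ 2/5 ρ u}`, `cut_inter` with two more half planes from the arc), `4/3 · 9/4 = 3`; `nn_of` (`D = 1/ρ`, `b = 3`).
`y |tt x₀ n| ≤ y 5ρ/4 ≤ 1/5` as `y ρ ≤ k₀ ≤ 1/100`. For given `n` at most `C M` values of `r` have `n(r) = n` (`|t - s_n| ≤ (9/4)/u_n² ≤ 4ρ²`, `r = ⌊M^m (t + 6)/12⌋`, `M^m < 100 M/ρ²`). `ENNReal.sum_le_tsum`.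
-/

open MeasureTheory Real Set Filter Topology

set_option autoImplicit false

namespace Pool.Agent.Helper60.LT

open Pool.Agent.Helper22.AE
open Pool.Agent.Helper92.GC (dt tp Tq uu tt arc gs dd)
open Pool.Agent.Helper92.DT (m12 IsMul12)

/-- the number of arcs that meet a small interval of slopes -/
private lemma arcsc68 {x₀ s δ : ℝ} {N : ℕ} {S : Finset (ℤ × ℤ)} (hδ : 0 ≤ δ) (R : Finset ℕ)
    (hR : ∀ r ∈ R, ∃ k ∈ arc x₀ S N r, |tt x₀ k - s| ≤ δ) : (R.card : ℝ) ≤ N * δ / 6 + 2 := by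
  have hN : (0 : ℝ) ≤ N := Nat.cast_nonneg _
  rcases R.eq_empty_or_nonempty with he | ⟨r₀, hr₀⟩
  · rw [he, Finset.card_empty]
    push_cast
    positivity
  have h1 : R ⊆ Finset.Icc ⌊(N : ℝ) * ((s - δ + 6) / 12)⌋₊ ⌊(N : ℝ) * ((s + δ + 6) / 12)⌋₊ := by
    intro r hr
    obtain ⟨k, hk, hks⟩ := hR r hr
    unfold arc at hk
    rw [Finset.mem_filter] at hk
    obtain ⟨h2, h3⟩ := hk
    have h4 := abs_le.1 hks
    rw [Finset.mem_Icc, ← h3]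
    exact ⟨Nat.floor_le_floor (mul_le_mul_of_nonneg_left (by linarith only [h4.1]) hN), Nat.floor_le_floor (mul_le_mul_of_nonneg_left (by linarith [h4.2]) hN)⟩
  have h2 := Finset.card_le_card h1
  rw [Nat.card_Icc] at h2
  have h3 : ⌊(N : ℝ) * ((s - δ + 6) / 12)⌋₊ ≤ ⌊(N : ℝ) * ((s + δ + 6) / 12)⌋₊ :=
    Nat.floor_le_floor (mul_le_mul_of_nonneg_left (by linarith only [hδ]) hN)
  have h4 : (R.card : ℝ) ≤ (⌊(N : ℝ) * ((s + δ + 6) / 12)⌋₊ : ℝ) + 1 - (⌊(N : ℝ) * ((s - δ + 6) / 12)⌋₊ : ℝ) := by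
    have h5 : R.card + ⌊(N : ℝ) * ((s - δ + 6) / 12)⌋₊ ≤ ⌊(N : ℝ) * ((s + δ + 6) / 12)⌋₊ + 1 := by omega
    have h6 : ((R.card + ⌊(N : ℝ) * ((s - δ + 6) / 12)⌋₊ : ℕ) : ℝ) ≤ ((⌊(N : ℝ) * ((s + δ + 6) / 12)⌋₊ + 1 : ℕ) : ℝ) := Nat.cast_le.2 h5
    push_cast at h6
    linarith only [h6]
  have h6 := Nat.lt_floor_add_one ((N : ℝ) * ((s - δ + 6) / 12))
  rcases le_or_gt 0 ((N : ℝ) * ((s + δ + 6) / 12)) with h0 | h0
  · have h5 := Nat.floor_le h0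
    linarith only [h4, h6, h5]
  · have e1 : ⌊(N : ℝ) * ((s + δ + 6) / 12)⌋₊ = 0 := Nat.floor_of_nonpos h0.le
    rw [e1] at h3 h4
    have e2 : ⌊(N : ℝ) * ((s - δ + 6) / 12)⌋₊ = 0 := by omega
    rw [e2] at h4
    push_cast at h4
    have : 0 ≤ (N : ℝ) * δ / 6 := by positivity
    linarith only [h4, this]

/-- the cut of an arc -/
private lemma cut_arc68 {L ρ K T₁ x₀ : ℝ} {N : ℕ} {S : Finset (ℤ × ℤ)} (hT₁ : 0 < T₁) (hL : 0 < L) (hK : 0 < K) (hρ : 0 < ρ) (hρ1 : ρ ≤ 1) (hN : 0 < N)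
    (hS : ∀ k, k ∈ S ↔ k ∈ st (2 * L) (11 / 10 * ρ) K T₁ x₀ ∧ 2 / 5 * ρ * uu x₀ k < |(k.2 : ℝ)|) (hpos : ∀ k ∈ S, 0 < uu x₀ k ∧ |tt x₀ k| ≤ 11 / 10 * ρ) (r : ℕ) :
    Cut (24 ^ 2 * (24 ^ 4 + 24 ^ 2 * 24 ^ 4)) (arc x₀ S N r) := by
  classical
  have hst := st_cut (L := 2 * L) (S := 11 / 10 * ρ) (x := x₀) hT₁ (by linarith) hK (by linarith)
  obtain ⟨J, hJ⟩ : ∃ J : Finset (ℤ × ℤ), ∀ k, k ∈ J ↔ k ∈ st (2 * L) (11 / 10 * ρ) K T₁ x₀ ∧ |(k.2 : ℝ)| ≤ 2 / 5 * ρ * uu x₀ k :=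
    ⟨(st (2 * L) (11 / 10 * ρ) K T₁ x₀).filter (fun k => |(k.2 : ℝ)| ≤ 2 / 5 * ρ * uu x₀ k), fun k => Finset.mem_filter⟩
  have h1 : Cut (24 ^ 2 * 24 ^ 4) J := by
    refine cut_inter hst (by positivity) 2 ![2 / 5 * ρ, 2 / 5 * ρ] ![2 / 5 * ρ * x₀ - 1, 2 / 5 * ρ * x₀ + 1] ![0, 0] ![true, true] J fun k => ?_
    rw [hJ k]
    refine and_congr_right fun _ => ?_
    rw [abs_le]
    simp only [Fin.forall_fin_two, Matrix.cons_val_zero, Matrix.cons_val_one, if_true]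
    unfold uu
    constructor
    · rintro ⟨h2, h3⟩
      constructor <;> linarith only [h3, h2]
    · rintro ⟨h2, h3⟩
      constructor <;> linarith only [h3, h2]
  have e : S = st (2 * L) (11 / 10 * ρ) K T₁ x₀ \ J := by
    ext k
    rw [hS, Finset.mem_sdiff, hJ, ← not_le]
    tauto
  have h2 : Cut (24 ^ 4 + 24 ^ 2 * 24 ^ 4) S := by
    rw [e]
    exact cut_diff hst h1 fun k hk => ((hJ k).1 hk).1
  have hN' : (0 : ℝ) < N := by exact_mod_cast hN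
  have hab : ∀ k, k ∈ arc x₀ S N r ↔ k ∈ S ∧ 12 * (r : ℝ) / N - 6 ≤ tt x₀ k ∧ tt x₀ k < 12 * ((r : ℝ) + 1) / N - 6 := by
    intro k
    unfold arc
    rw [Finset.mem_filter]
    refine and_congr_right fun hk => ?_
    have h6 := (abs_le.1 (hpos k hk).2).1
    have h7 : 0 ≤ (N : ℝ) * ((tt x₀ k + 6) / 12) := mul_nonneg hN'.le (by linarith only [hρ1, h6])
    rw [Nat.floor_eq_iff h7]
    have e1 : (r : ℝ) ≤ (N : ℝ) * ((tt x₀ k + 6) / 12) ↔ 12 * r / N - 6 ≤ tt x₀ k := by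
      rw [sub_le_iff_le_add, div_le_iff₀ hN']
      constructor <;> intro h <;> linarith
    have e2 : (N : ℝ) * ((tt x₀ k + 6) / 12) < r + 1 ↔ tt x₀ k < 12 * (r + 1) / N - 6 := by
      rw [lt_sub_iff_add_lt, lt_div_iff₀ hN']
      constructor <;> intro h <;> linarith
    rw [e1, e2]
  obtain ⟨a, ha⟩ : ∃ a : ℝ, a = 12 * (r : ℝ) / N - 6 := ⟨_, rfl⟩
  obtain ⟨b, hb⟩ : ∃ b : ℝ, b = 12 * ((r : ℝ) + 1) / N - 6 := ⟨_, rfl⟩
  rw [← ha, ← hb] at hab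
  refine cut_inter h2 (by positivity) 2 ![-a, b] ![1 - a * x₀, b * x₀ - 1] ![0, 0] ![true, false] (arc x₀ S N r) fun k => ?_
  rw [hab k]
  refine and_congr_right fun hk => ?_
  have hu := (hpos k hk).1
  have e : tt x₀ k * uu x₀ k = (k.2 : ℝ) := by
    unfold tt
    rw [div_mul_cancel₀ _ hu.ne']
  have eu : uu x₀ k = (k.1 : ℝ) + x₀ * (k.2 : ℝ) := rfl
  have e1 : -a * (k.1 : ℝ) + (1 - a * x₀) * (k.2 : ℝ) = (tt x₀ k - a) * uu x₀ k := by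
    linear_combination (-1) * e + a * eu
  have e2 : b * (k.1 : ℝ) + (b * x₀ - 1) * (k.2 : ℝ) = (b - tt x₀ k) * uu x₀ k := by
    linear_combination e - b * eu
  simp only [Fin.forall_fin_two, Matrix.cons_val_zero, Matrix.cons_val_one, if_true, Bool.false_eq_true, if_false]
  rw [e1, e2, mul_nonneg_iff_of_pos_right hu, mul_pos_iff_of_pos_right hu, sub_nonneg, sub_pos]

/-- the vector `(n₁, ±1)` of a frequency -/
private lemma vec68 {x₀ ρ t : ℝ} (hρ : 0 < ρ) (hρ1 : ρ ≤ 1 / 20) (ht1 : 2 / 5 * ρ < |t|) (ht2 : |t| ≤ 11 / 10 * ρ) :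
    ∃ n : ℤ × ℤ, IsCoprime n.1 n.2 ∧ 4 / 5 * ρ⁻¹ ≤ uu x₀ n ∧ uu x₀ n ≤ 3 * ρ⁻¹ ∧ |t - tt x₀ n| * uu x₀ n ^ 2 ≤ 3 / 5 := by
  obtain ⟨z, hz⟩ : ∃ z, z = ρ⁻¹ := ⟨_, rfl⟩
  have hρz : ρ * z = 1 := by
    rw [hz]
    exact mul_inv_cancel₀ hρ.ne'
  have hz0 : 0 < z := by
    rw [hz]
    positivity
  have hz20 : 20 ≤ z := by nlinarith only [hρ1, hρz, hρ]
  have hta : 0 < |t| := by
    have : 0 < 2 / 5 * ρ := by positivity
    linarith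
  obtain ⟨w, hw⟩ : ∃ w, w = |t|⁻¹ := ⟨_, rfl⟩
  have htw : |t| * w = 1 := by
    rw [hw]
    exact mul_inv_cancel₀ hta.ne'
  have hw0 : 0 < w := by
    rw [hw]
    positivity
  -- bounds for `w = 1/|t|`
  have hw1 : 10 / 11 * z ≤ w := by
    have h1 : |t| * z ≤ 11 / 10 := by
      have := mul_le_mul_of_nonneg_right ht2 hz0.le
      have e : 11 / 10 * ρ * z = 11 / 10 * (ρ * z) := by ring
      rw [e, hρz] at this
      linarith only [this]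
    have h2 := mul_le_mul_of_nonneg_right h1 hw0.le
    have e : |t| * z * w = |t| * w * z := by ring
    rw [e, htw] at h2
    linarith only [h2]
  have hw2 : w ≤ 5 / 2 * z := by
    have h1 : 2 / 5 ≤ |t| * z := by
      have := mul_le_mul_of_nonneg_right ht1.le hz0.le
      have e : 2 / 5 * ρ * z = 2 / 5 * (ρ * z) := by ring
      rw [e, hρz] at this
      linarith only [this]
    have h2 := mul_le_mul_of_nonneg_right h1 hw0.le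
    have e : |t| * z * w = |t| * w * z := by ring
    rw [e, htw] at h2
    linarith only [h2]
  obtain ⟨e, he, het⟩ : ∃ e : ℤ, (e = 1 ∨ e = -1) ∧ (e : ℝ) * |t| = t := by
    rcases le_or_gt 0 t with h0 | h0
    · exact ⟨1, Or.inl rfl, by rw [abs_of_nonneg h0]; simp⟩
    · exact ⟨-1, Or.inr rfl, by rw [abs_of_neg h0]; simp⟩
  have hee : (e : ℝ) * e = 1 := by
    rcases he with h | h <;> rw [h] <;> norm_num
  obtain ⟨n₁, hn₁⟩ : ∃ n₁ : ℤ, |w - e * x₀ - n₁| ≤ 1 / 2 := ⟨round (w - e * x₀), abs_sub_round _⟩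
  obtain ⟨u, hu⟩ : ∃ u, u = uu x₀ (n₁, e) := ⟨_, rfl⟩
  have hu' : u = (n₁ : ℝ) + x₀ * e := hu
  have hn2 := abs_le.1 hn₁
  have hu1 : 4 / 5 * z ≤ u := by
    rw [hu']
    have : x₀ * (e : ℝ) = e * x₀ := mul_comm _ _
    linarith only [hρ, hρ1, hz20, hw1, hn2.2]
  have hu2 : u ≤ w + 1 / 2 := by
    rw [hu']
    have : x₀ * (e : ℝ) = e * x₀ := mul_comm _ _
    linarith only [hn2.1]
  have hu0 : 0 < u := by linarith only [hρ, hρ1, hz20, hw1, hu', hn2]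
  have huw : |u - w| ≤ 1 / 2 := by
    rw [hu', abs_sub_comm]
    have e1 : w - ((n₁ : ℝ) + x₀ * e) = w - e * x₀ - n₁ := by ring
    rw [e1]
    exact hn₁
  refine ⟨(n₁, e), ?_, ?_, ?_, ?_⟩
  · rcases he with h | h <;> rw [h]
    · exact isCoprime_one_right
    · exact isCoprime_one_right.neg_right
  · rw [← hu, ← hz]
    exact hu1
  · rw [← hu, ← hz]
    linarith only [hρ, hρ1, hz20, hw2, hu', hn2]
  · have e1 : tt x₀ (n₁, e) = e / u := by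
      unfold tt
      rw [← hu]
    rw [← hu, e1]
    have e2 : |t - e / u| = |(|t| - 1 / u)| := by
      have e3 : t - e / u = e * (|t| - 1 / u) := by
        rw [mul_sub, het]
        ring
      rw [e3, abs_mul]
      have e4 : |(e : ℝ)| = 1 := by
        rcases he with h | h <;> rw [h] <;> norm_num
      rw [e4, one_mul]
    have e5 : |(|t| - 1 / u)| * u ^ 2 = |t| * |u - w| * u := by
      have e6 : (|t| - 1 / u) * u = |t| * (u - w) := by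
        rw [sub_mul, one_div_mul_cancel hu0.ne', mul_sub, htw]
      have e7 : |(|t| - 1 / u)| * u = |t| * |u - w| := by
        calc |(|t| - 1 / u)| * u = |(|t| - 1 / u)| * |u| := by rw [abs_of_pos hu0]
          _ = |(|t| - 1 / u) * u| := (abs_mul _ _).symm
          _ = |(|t| * (u - w))| := by rw [e6]
          _ = |t| * |u - w| := by rw [abs_mul, abs_abs]
      calc |(|t| - 1 / u)| * u ^ 2 = |(|t| - 1 / u)| * u * u := by ring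
        _ = |t| * |u - w| * u := by rw [e7]
    rw [e2, e5]
    calc |t| * |u - w| * u ≤ |t| * (1 / 2) * (w + 1 / 2) :=
          mul_le_mul (mul_le_mul_of_nonneg_left huw hta.le) hu2 hu0.le (by positivity)
      _ = 1 / 2 * (|t| * w) + 1 / 4 * |t| := by ring
      _ = 1 / 2 + 1 / 4 * |t| := by rw [htw]; ring
      _ ≤ 3 / 5 := by linarith only [hρ, hρ1, ht2]

theorem ptB {c₁ B L : ℝ} (hc : 0 < c₁) (hc1 : c₁ ≤ 1) (hB : 1 ≤ B) (hL : 1 ≤ L) {M : ℕ} (hM : 2 ≤ M) : ∃ C : ℝ, 1 ≤ C ∧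
    ∀ (h : ℝ × ℝ → ℝ) (θ y T₁ x₀ K ρ T x : ℝ) (m : ℕ) (S : Finset (ℤ × ℤ)), Hom c₁ B h → 0 < ρ → ρ ≤ 1 / 20 → 0 < y → 11 / 10 * (y * ρ) ≤ k₀ c₁ B → 0 < T₁ → 0 < K →
      (∀ k, k ∈ S ↔ k ∈ st (2 * L) (11 / 10 * ρ) K T₁ x₀ ∧ 2 / 5 * ρ * uu x₀ k < |(k.2 : ℝ)|) →
      100 * ρ⁻¹ ^ 2 ≤ (M : ℝ) ^ m → (M : ℝ) ^ m < 100 * M * ρ⁻¹ ^ 2 → |T - T₁| ≤ T₁ / 4 → |x - x₀| ≤ 1 / 80 →
      ∑ r ∈ Finset.range (M ^ m), ENNReal.ofReal (m12 (arc x₀ S (M ^ m) r) (fun k => ee (h (vf (fr θ y T x) k)))) ≤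
        ENNReal.ofReal C * NS 36 (1 / ρ) (PP h (6 * L) 3 K) (fr θ y T x) := by
  classical
  have hMr : (2 : ℝ) ≤ (M : ℝ) := by exact_mod_cast hM
  obtain ⟨Cc, hCc⟩ : ∃ Cc : ℝ, Cc = 24 ^ 2 * (24 ^ 4 + 24 ^ 2 * 24 ^ 4) := ⟨_, rfl⟩
  have hCc1 : 1 ≤ Cc := by
    rw [hCc]
    norm_num
  have hCc0 : 0 ≤ Cc := by linarith
  refine ⟨Cc ^ 12 * (70 * M), one_le_mul_of_one_le_of_one_le (one_le_pow₀ hCc1) (by linarith), ?_⟩
  intro h θ y T₁ x₀ K ρ T x m S hh hρ hρ1 hy hyρ hT₁ hK hS hm1 hm2 hT hx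
  have hL0 : 0 < L := by linarith only [hL, hρ, hρ1]
  have hMm0 : (0 : ℝ) < (M : ℝ) ^ m := by positivity
  have hk : k₀ c₁ B ≤ 1 / 400 := by
    unfold k₀
    rw [div_le_iff₀ (by positivity)]
    nlinarith only [hc1, hB, hc]
  have hyρ2 : y * ρ ≤ 1 / 400 := by
    have : 0 < y * ρ := by positivity
    linarith only [hyρ, hk, this]
  have hS1 : ∀ k ∈ S, 0 < uu x₀ k ∧ |tt x₀ k| ≤ 11 / 10 * ρ ∧ 2 / 5 * ρ < |tt x₀ k| := by
    intro k hk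
    obtain ⟨hk1, hk2⟩ := (hS k).1 hk
    rw [mem_st hT₁ (by linarith only [hL, hρ, hρ1]) hK (by linarith only [hρ])] at hk1
    obtain ⟨g1, g2, g3⟩ := hk1
    have hu : 0 < uu x₀ k := by
      by_contra hu
      push Not at hu
      have h1 : 2 * L * (T₁ * uu x₀ k) ≤ 0 :=
        mul_nonpos_of_nonneg_of_nonpos (by linarith only [hL, hρ, hρ1]) (mul_nonpos_of_nonneg_of_nonpos hT₁.le hu)
      linarith only [hK, g1, h1]
    refine ⟨hu, ?_, ?_⟩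
    · unfold tt
      rw [abs_div, abs_of_pos hu, div_le_iff₀ hu]
      exact g3
    · unfold tt
      rw [abs_div, abs_of_pos hu, lt_div_iff₀ hu]
      exact hk2
  obtain ⟨z, hz⟩ : ∃ z, z = ρ⁻¹ := ⟨_, rfl⟩
  have hρz : ρ * z = 1 := by
    rw [hz]
    exact mul_inv_cancel₀ hρ.ne'
  have hz0 : 0 < z := by
    rw [hz]
    positivity
  have hone : 1 / ρ = z := by rw [hz, one_div]
  rw [← hz] at hm1 hm2
  -- the non-empty arcs and their vectors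
  obtain ⟨R, hR⟩ : ∃ R : Finset ℕ, ∀ r, r ∈ R ↔ r ∈ Finset.range (M ^ m) ∧ (arc x₀ S (M ^ m) r).Nonempty :=
    ⟨(Finset.range (M ^ m)).filter (fun r => (arc x₀ S (M ^ m) r).Nonempty), fun r => Finset.mem_filter⟩
  have hmem : ∀ r k, k ∈ arc x₀ S (M ^ m) r → k ∈ S ∧ ⌊((M ^ m : ℕ) : ℝ) * ((tt x₀ k + 6) / 12)⌋₊ = r := by
    intro r k hk
    unfold arc at hk
    exact Finset.mem_filter.1 hk
  have hclose : ∀ r, ∀ k ∈ arc x₀ S (M ^ m) r, ∀ l ∈ arc x₀ S (M ^ m) r, |tt x₀ k - tt x₀ l| ≤ 12 / (M : ℝ) ^ m := by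
    intro r k hk l hl
    obtain ⟨hk1, hk2⟩ := hmem r k hk
    obtain ⟨hl1, hl2⟩ := hmem r l hl
    have b1 := (abs_le.1 (hS1 k hk1).2.1).1
    have b2 := (abs_le.1 (hS1 l hl1).2.1).1
    push_cast at hk2 hl2
    have h1 : 0 ≤ (M : ℝ) ^ m * ((tt x₀ k + 6) / 12) := mul_nonneg hMm0.le (by linarith only [hρ, hρ1, b1])
    have h2 : 0 ≤ (M : ℝ) ^ m * ((tt x₀ l + 6) / 12) := mul_nonneg hMm0.le (by linarith only [hρ, hρ1, b2])
    have a1 := Nat.floor_le h1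
    have a2 := Nat.lt_floor_add_one ((M : ℝ) ^ m * ((tt x₀ k + 6) / 12))
    have a3 := Nat.floor_le h2
    have a4 := Nat.lt_floor_add_one ((M : ℝ) ^ m * ((tt x₀ l + 6) / 12))
    rw [hk2] at a1 a2
    rw [hl2] at a3 a4
    rw [abs_le]
    constructor
    · rw [neg_le, le_div_iff₀ hMm0]
      linarith only [a1, a4]
    · rw [le_div_iff₀ hMm0]
      linarith only [a2, a3]
  have hex : ∀ r, ∃ n : ℤ × ℤ, r ∈ R → IsCoprime n.1 n.2 ∧ 4 / 5 * z ≤ uu x₀ n ∧ uu x₀ n ≤ 3 * z ∧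
      ∀ k ∈ arc x₀ S (M ^ m) r, |tt x₀ k - tt x₀ n| * uu x₀ n ^ 2 ≤ 9 / 4 := by
    intro r
    by_cases hr : r ∈ R
    · obtain ⟨k, hk⟩ := ((hR r).1 hr).2
      obtain ⟨hu, h1, h2⟩ := hS1 k (hmem r k hk).1
      obtain ⟨n, g1, g2, g3, g4⟩ := vec68 (x₀ := x₀) hρ hρ1 h2 h1
      rw [← hz] at g2 g3
      refine ⟨n, fun _ => ⟨g1, g2, g3, fun l hl => ?_⟩⟩
      have hun : 0 ≤ uu x₀ n := by
        have : 0 ≤ 4 / 5 * z := by positivity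
        linarith only [hz0, g2]
      have h3 := hclose r l hl k hk
      have h4 : |tt x₀ l - tt x₀ n| ≤ |tt x₀ l - tt x₀ k| + |tt x₀ k - tt x₀ n| := abs_sub_le _ _ _
      have h5 : 12 / (M : ℝ) ^ m * uu x₀ n ^ 2 ≤ 27 / 25 := by
        have h6 : uu x₀ n ^ 2 ≤ (3 * z) ^ 2 := pow_le_pow_left₀ hun g3 2
        rw [div_mul_eq_mul_div, div_le_iff₀ hMm0]
        nlinarith only [hm1, h6]
      have h7 : |tt x₀ l - tt x₀ k| * uu x₀ n ^ 2 ≤ 12 / (M : ℝ) ^ m * uu x₀ n ^ 2 := mul_le_mul_of_nonneg_right h3 (by positivity)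
      have h8 := mul_le_mul_of_nonneg_right h4 (by positivity : 0 ≤ uu x₀ n ^ 2)
      rw [add_mul] at h8
      linarith only [hρ, hρ1, g4, h5, h7, h8]
    · exact ⟨0, fun h => absurd h hr⟩
  choose nu hnu using hex
  obtain ⟨Φ, hΦ⟩ : ∃ Φ : ℤ × ℤ → ENNReal, Φ = fun n => PP h (6 * L) 3 K (ac n (co n) (fr θ y T x)) := ⟨_, rfl⟩
  have hyn : ∀ r ∈ R, 0 < uu x₀ (nu r) ∧ |tt x₀ (nu r)| ≤ 4 ∧ y * |tt x₀ (nu r)| ≤ 1 / 5 := by
    intro r hr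
    obtain ⟨g1, g2, g3, g4⟩ := hnu r hr
    have hun : 0 < uu x₀ (nu r) := by
      have : 0 < 4 / 5 * z := by positivity
      linarith only [hz0, g2]
    obtain ⟨k, hk⟩ := ((hR r).1 hr).2
    obtain ⟨hu, h1, h2⟩ := hS1 k (hmem r k hk).1
    have h3 := g4 k hk
    have h4 : |tt x₀ k - tt x₀ (nu r)| ≤ 4 * ρ := by
      have h5 : (4 / 5 * z) ^ 2 ≤ uu x₀ (nu r) ^ 2 := pow_le_pow_left₀ (by positivity) g2 2
      have h6 := (mul_le_mul_of_nonneg_left h5 (abs_nonneg (tt x₀ k - tt x₀ (nu r)))).trans h3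
      have h7 := mul_le_mul_of_nonneg_right h6 (by positivity : 0 ≤ ρ ^ 2)
      have e1 : |tt x₀ k - tt x₀ (nu r)| * (4 / 5 * z) ^ 2 * ρ ^ 2 = 16 / 25 * |tt x₀ k - tt x₀ (nu r)| * (ρ * z) ^ 2 := by ring
      rw [e1, hρz] at h7
      nlinarith only [hρ, h7, hρ1]
    have h5 : |tt x₀ (nu r)| ≤ 6 * ρ := by
      have h6 : |tt x₀ (nu r)| ≤ |tt x₀ k| + |tt x₀ k - tt x₀ (nu r)| := by
        have := abs_sub_abs_le_abs_sub (tt x₀ (nu r)) (tt x₀ k)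
        rw [abs_sub_comm] at this
        linarith only [this]
      linarith only [hρ, h1, h4, h6]
    refine ⟨hun, by linarith only [hρ, hρ1, h5], ?_⟩
    have h6 := mul_le_mul_of_nonneg_left h5 hy.le
    have e1 : y * (6 * ρ) = 6 * (y * ρ) := by ring
    linarith
  have hNN : ∀ r ∈ R, NN 36 (1 / ρ) (fr θ y T x) (nu r) := by
    intro r hr
    obtain ⟨g1, g2, g3, g4⟩ := hnu r hr
    obtain ⟨a1, a2, a3⟩ := hyn r hr
    have h1 := nn_of (θ := θ) (b := 3) (D := 1 / ρ) (by norm_num) hy hT₁ hT hx g1 a1 a2 a3 (by rw [hone]; linarith only [g2, a1]) (by rw [hone]; exact g3)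
    have e1 : (12 : ℝ) * 3 = 36 := by norm_num
    rwa [e1] at h1
  have hpt : ∀ r ∈ R, ENNReal.ofReal (m12 (arc x₀ S (M ^ m) r) (fun k => ee (h (vf (fr θ y T x) k)))) ≤ ENNReal.ofReal (Cc ^ 12) * Φ (nu r) := by
    intro r hr
    obtain ⟨g1, g2, g3, g4⟩ := hnu r hr
    obtain ⟨a1, a2, a3⟩ := hyn r hr
    have hcut := cut_arc68 (x₀ := x₀) (S := S) hT₁ hL0 hK hρ (by linarith only [hρ, hρ1]) (pow_pos (by omega : 0 < M) m) hS (fun k hk => ⟨(hS1 k hk).1, (hS1 k hk).2.1⟩) r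
    rw [← hCc] at hcut
    have h1 := arc_pt hL hh (θ := θ) (y := y) (S := ρ) (σ := 9 / 4) hy hT₁ hT hx hρ.le (by linarith only [hρ, hρ1]) hK g1 a1 a2 a3 (by linarith only [hρ, hρ1, hyρ, hk])
      (fun k hk => ((hS k).1 (hmem r k hk).1).1) hCc0 hcut (by norm_num) g4
    have e1 : (4 / 3 * (9 / 4) : ℝ) = 3 := by norm_num
    rw [e1] at h1
    rw [hΦ]
    exact h1
  have hmul : ∀ n ∈ R.image nu, (((R.filter (fun r => nu r = n)).card : ℕ) : ENNReal) ≤ ENNReal.ofReal (70 * M) := by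
    intro n hn
    obtain ⟨r₀, hr₀, rfl⟩ := Finset.mem_image.1 hn
    obtain ⟨g1, g2, g3, g4⟩ := hnu r₀ hr₀
    have hun : 0 < uu x₀ (nu r₀) := (hyn r₀ hr₀).1
    have h1 := arcsc68 (x₀ := x₀) (s := tt x₀ (nu r₀)) (δ := 4 * ρ ^ 2) (N := M ^ m) (S := S) (by positivity) (R.filter (fun r => nu r = nu r₀)) (by
      intro r hr
      obtain ⟨hr1, hr2⟩ := Finset.mem_filter.1 hr
      obtain ⟨k, hk⟩ := ((hR r).1 hr1).2
      refine ⟨k, hk, ?_⟩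
      have h3 := (hnu r hr1).2.2.2 k hk
      rw [hr2] at h3
      have h5 : (4 / 5 * z) ^ 2 ≤ uu x₀ (nu r₀) ^ 2 := pow_le_pow_left₀ (by positivity) g2 2
      have h6 := (mul_le_mul_of_nonneg_left h5 (abs_nonneg (tt x₀ k - tt x₀ (nu r₀)))).trans h3
      have h7 := mul_le_mul_of_nonneg_right h6 (by positivity : 0 ≤ ρ ^ 2)
      have e1 : |tt x₀ k - tt x₀ (nu r₀)| * (4 / 5 * z) ^ 2 * ρ ^ 2 = 16 / 25 * |tt x₀ k - tt x₀ (nu r₀)| * (ρ * z) ^ 2 := by ring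
      rw [e1, hρz] at h7
      have h8 : 0 ≤ ρ ^ 2 := by positivity
      linarith only [h7, h8])
    have h2 : ((R.filter (fun r => nu r = nu r₀)).card : ℝ) ≤ 70 * M := by
      refine h1.trans ?_
      push_cast
      have h3 := mul_le_mul_of_nonneg_right hm2.le (by positivity : 0 ≤ 4 * ρ ^ 2)
      have e1 : 100 * (M : ℝ) * z ^ 2 * (4 * ρ ^ 2) = 400 * M * (ρ * z) ^ 2 := by ring
      rw [e1, hρz] at h3
      linarith only [hMr, hρ, hρ1, h3]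
    have h3 := ENNReal.ofReal_le_ofReal h2
    rwa [ENNReal.ofReal_natCast] at h3
  have hzero : ∀ r ∈ Finset.range (M ^ m), r ∉ R → ENNReal.ofReal (m12 (arc x₀ S (M ^ m) r) (fun k => ee (h (vf (fr θ y T x) k)))) = 0 := by
    intro r hr hrR
    have he : arc x₀ S (M ^ m) r = ∅ := by
      by_contra hne
      exact hrR ((hR r).2 ⟨hr, Finset.nonempty_iff_ne_empty.2 hne⟩)
    rw [he]
    unfold m12 tp
    simp
  rw [← Finset.sum_subset (fun r hr => ((hR r).1 hr).1) hzero]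
  calc ∑ r ∈ R, ENNReal.ofReal (m12 (arc x₀ S (M ^ m) r) (fun k => ee (h (vf (fr θ y T x) k))))
      ≤ ∑ r ∈ R, ENNReal.ofReal (Cc ^ 12) * Φ (nu r) := Finset.sum_le_sum hpt
    _ = ENNReal.ofReal (Cc ^ 12) * ∑ r ∈ R, Φ (nu r) := by rw [Finset.mul_sum]
    _ = ENNReal.ofReal (Cc ^ 12) * ∑ n ∈ R.image nu, (R.filter (fun r => nu r = n)).card • Φ n := by
        rw [Finset.sum_comp Φ nu]
    _ ≤ ENNReal.ofReal (Cc ^ 12) * ∑ n ∈ R.image nu, ENNReal.ofReal (70 * M) * Φ n := by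
        refine mul_le_mul_right (Finset.sum_le_sum fun n hn => ?_) _
        rw [nsmul_eq_mul]
        exact mul_le_mul_left (hmul n hn) _
    _ = ENNReal.ofReal (Cc ^ 12 * (70 * M)) * ∑ n ∈ R.image nu, Φ n := by
        rw [← Finset.mul_sum, ← mul_assoc, ← ENNReal.ofReal_mul (by positivity)]
    _ ≤ ENNReal.ofReal (Cc ^ 12 * (70 * M)) * NS 36 (1 / ρ) (PP h (6 * L) 3 K) (fr θ y T x) := by
        refine mul_le_mul_right ?_ _
        unfold NS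
        refine le_trans (le_of_eq ?_) (ENNReal.sum_le_tsum (R.image nu))
        refine Finset.sum_congr rfl fun n hn => ?_
        obtain ⟨r, hr, rfl⟩ := Finset.mem_image.1 hn
        rw [if_pos (hNN r hr), hΦ]

end Pool.Agent.Helper60.LT
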