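import Pool.Agent.Helper76.MM.A7

/-!
# LT-LI: real and extended integrals over rectangles (used by stage A and stage B on one window)
-/

open MeasureTheory Real Set Filter Topology

set_option autoImplicit false

namespace Pool.Agent.Helper60.LT

open Pool.Agent.Helper76.MM (inner_contOn iter_mono iter_nonneg)

/-- the integral of a nonnegative continuous function over a rectangle, in `ENNReal` -/
theorem ofReal_iter {f : ℝ → ℝ → ℝ} {a b c d : ℝ} (hf : ContinuousOn (fun q : ℝ × ℝ => f q.1 q.2) (Icc a b ×ˢ Icc c d))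
    (h0 : ∀ y ∈ Icc a b, ∀ r ∈ Icc c d, 0 ≤ f y r) :
    ENNReal.ofReal (∫ y in Icc a b, ∫ r in Icc c d, f y r) = ∫⁻ y in Icc a b, ∫⁻ r in Icc c d, ENNReal.ofReal (f y r) := by
  have hs : ∀ y ∈ Icc a b, ContinuousOn (f y) (Icc c d) := by
    intro y hy
    exact hf.comp (f := fun r : ℝ => (y, r)) (by fun_prop) fun r hr => ⟨hy, hr⟩
  rw [ofReal_integral_eq_lintegral_ofReal ((inner_contOn hf).integrableOn_compact isCompact_Icc)]
  · refine setLIntegral_congr_fun measurableSet_Icc fun y hy => ?_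
    rw [ofReal_integral_eq_lintegral_ofReal ((hs y hy).integrableOn_compact isCompact_Icc)]
    rw [EventuallyLE, ae_restrict_iff' measurableSet_Icc]
    exact Eventually.of_forall fun r hr => h0 y hy r hr
  · rw [EventuallyLE, ae_restrict_iff' measurableSet_Icc]
    exact Eventually.of_forall fun y hy => setIntegral_nonneg measurableSet_Icc fun r hr => h0 y hy r hr

/-- monotonicity on a rectangle -/
theorem lint_mono {F G : ℝ → ℝ → ENNReal} {a b c d : ℝ} (h : ∀ T ∈ Icc a b, ∀ x ∈ Icc c d, F T x ≤ G T x) :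
    ∫⁻ T in Icc a b, ∫⁻ x in Icc c d, F T x ≤ ∫⁻ T in Icc a b, ∫⁻ x in Icc c d, G T x :=
  setLIntegral_mono' measurableSet_Icc fun T hT => setLIntegral_mono' measurableSet_Icc fun x hx => h T hT x hx

/-- a finite sum of upper integrals is at most the upper integral of the sum -/
theorem sum_lint {ι : Type} (s : Finset ι) (F : ι → ℝ → ℝ → ENNReal) (a b c d : ℝ) :
    ∑ i ∈ s, ∫⁻ T in Icc a b, ∫⁻ x in Icc c d, F i T x ≤ ∫⁻ T in Icc a b, ∫⁻ x in Icc c d, ∑ i ∈ s, F i T x := by
  classical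
  have h1 : ∀ (μ : Measure ℝ) (G : ι → ℝ → ENNReal), ∑ i ∈ s, ∫⁻ T, G i T ∂μ ≤ ∫⁻ T, ∑ i ∈ s, G i T ∂μ := by
    intro μ G
    induction s using Finset.induction_on with
    | empty => simp
    | insert i s hi ih =>
      rw [Finset.sum_insert hi]
      refine (add_le_add le_rfl ih).trans ((le_lintegral_add _ _).trans (le_of_eq ?_))
      refine lintegral_congr fun T => ?_
      rw [Finset.sum_insert hi]
  refine (h1 _ _).trans (lintegral_mono fun T => h1 _ _)

/-- constants -/
theorem lint_const {F : ℝ → ℝ → ENNReal} (C : ℝ) (a b c d : ℝ) :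
    ∫⁻ T in Icc a b, ∫⁻ x in Icc c d, ENNReal.ofReal C * F T x = ENNReal.ofReal C * ∫⁻ T in Icc a b, ∫⁻ x in Icc c d, F T x := by
  rw [← lintegral_const_mul' _ _ ENNReal.ofReal_ne_top]
  refine lintegral_congr fun T => ?_
  rw [lintegral_const_mul' _ _ ENNReal.ofReal_ne_top]

end Pool.Agent.Helper60.LT
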