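import Pool.Agent.Helper60.LT.F0
import Pool.Agent.Helper60.LT.B4
import Pool.Agent.Helper60.LT.F2a
import Pool.Agent.Helper60.LT.LI

/-!
# LT-F2: stage B on one window

PROOF. `ρ' = 11/10 ρ`, `S_w` = the `k ∈ st (2L) ρ' K T₁ x₀` with `2/5 ρ uu x₀ k < |k.2|` (`base_sub`), `H = K/X`, `lam = 4L`. `ρ⁴ √G ≥ C κ` with large `C`: `ρ² √G ≥ 400 C κ`. Large window: `|T - T₁| ≤ X/4 ≤ T₁/4`, `|x - x₀| ≤ 8 κ ξ₁ = 1/(2 ρ'² √G) ≤ 1/90`.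
(1) For `(T, x)` in the small window `QQ h L ρ K (fr θ y T x) ≤ ofReal ((24^4 + 24^6)^12) · ofReal (m12 S_w (ee h(vf (fr θ y T x) ·)))` (`base_sub`, `sh_cut`, `m12_cut`; `fr_coord`).
(2) `m` with `100 ρ⁻² ≤ M^m < 100 M ρ⁻²` (`exists_nat_pow_near`). `window` (B4, with `ε/12`, `n`) for `p = sl h θ`, `a = 1`, `ρ := ρ'`: conditions `C' κ ρ'² M^(3m) ≤ C'' κ ρ⁻⁴ ≤ √G`, `C' κ ρ' M^(3m) ≤ C'' κ ρ⁻⁵ ≤ (√G)² = G`, `10 ≤ ρ' √G`. At most `C M/ρ` arcs of `S_w` are not empty (`|t| ≤ ρ'`: `r` in an interval of length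
`M^m 2ρ'/12`): `BX (S_w) ≤ C ρ^(-ε) ρ⁻⁵ ∑_r (BX (arc_r, large window) + tail)` (`(∑_{r ∈ R} x_r)^6 ≤ #R^5 ∑ x_r^6`; the empty arcs contribute at most `(M^m)^6` times the tail: treat them separately or bound everything by `#`; simplest: `x_r = (BX_r + τ)^(1/6) ≤ BX_r^(1/6) + τ^(1/6)`, `BX_r = 0` for empty arcs).
(3) For a nonempty arc `r` take `k ∈ arc_r`, `t = tt x₀ k`, `2ρ/5 < |t| ≤ ρ'`. Let `e = ± 1` be the sign of `t`, `n = (n₁, e)` with `n₁` the integer for which `u_n = n₁ + e x₀` satisfies `|u_n - 1/|t|| ≤ 1/2`. Then `s_n = e/u_n`, `IsCoprime`, `u_n ≥ 1/ρ' - 1/2 ≥ 4/(5ρ)`, `u_n ≤ 5/(2ρ) + 1/2 ≤ 3/ρ`,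
`|t - s_n| u_n² = |t| |u_n - 1/|t|| u_n ≤ (1/2)(1 + |t|/2) ≤ 3/5`; all `t'` of the arc: `|t' - t| ≤ 12/M^m ≤ (12/100) ρ²`, times `u_n² ≤ 9/ρ²`: `≤ 11/10`; so `|t' - s_n| u_n² ≤ 17/10 ≤ 9/4`. `arc_pt` (`σ = 9/4`, `S := ρ`; `Cut` of the arc of `S_w`: `cut_inter` with two more half planes from the arc and `cut_diff`:
`S_w = st (..) \ {|k.2| ≤ 2/5 ρ u}`), `4/3 · 9/4 = 3`; `nn_of` (`D = 1/ρ`, `b = 3`). `y |tt x₀ n| ≤ y 5ρ/4 ≤ 1/5` as `y ρ ≤ k₀ ≤ 1/100`. For given `n` at most `C M` values of `r` have `n(r) = n` (`|t - s_n| ≤ (9/4)/u_n² ≤ 4ρ²`, `M^m < 100 M/ρ²`). So `∑_r ofReal W(arc_r) ≤ C · NS β (1/ρ) (PP h (6L) 3 K)`.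
Real integrals to `∫⁻` and tail as in F1 (`ρ⁻¹ ≤ K`: from `ρ⁴ √G ≥ C κ` one has `ρ⁻⁴ ≤ √G`, and `y ≤ K`).
-/

open MeasureTheory Real Set Filter Topology

set_option autoImplicit false

namespace Pool.Agent.Helper60.LT

open Pool.Agent.Helper22.AE
open Pool.Agent.Helper92.GC (dt tp Tq uu tt arc gs dd)
open Pool.Agent.Helper92.DT (m12 IsMul12 m12_nonneg)
open Pool.Agent.Helper76.MM (iter_nonneg)

private lemma sixth68 {ι : Type} (s R : Finset ι) (hR : R ⊆ s) {A D τ : ℝ} {b : ι → ℝ} (hA : 0 ≤ A) (hb : ∀ r, 0 ≤ b r)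
    (hb0 : ∀ r ∈ s, r ∉ R → b r = 0) (hτ : 0 ≤ τ) (h : A ^ (1 / 6 : ℝ) ≤ D * ∑ r ∈ s, (b r + τ) ^ (1 / 6 : ℝ)) :
    A ≤ D ^ 6 * (32 * ((R.card : ℝ) ^ 5 * (∑ r ∈ s, b r + R.card * τ) + (s.card : ℝ) ^ 6 * τ)) := by
  classical
  have hp : ∀ a : ℝ, 0 ≤ a → (a ^ (1 / 6 : ℝ)) ^ 6 = a := by
    intro a ha
    rw [← Real.rpow_natCast, ← Real.rpow_mul ha]
    norm_num
  have hx0 : ∀ r, 0 ≤ (b r + τ) ^ (1 / 6 : ℝ) := fun r => Real.rpow_nonneg (add_nonneg (hb r) hτ) _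
  have hτ0 : 0 ≤ τ ^ (1 / 6 : ℝ) := Real.rpow_nonneg hτ _
  have h1 : A ≤ (D * ∑ r ∈ s, (b r + τ) ^ (1 / 6 : ℝ)) ^ 6 := by
    have h2 := pow_le_pow_left₀ (Real.rpow_nonneg hA _) h 6
    rwa [hp A hA] at h2
  have h2 : ∑ r ∈ s, (b r + τ) ^ (1 / 6 : ℝ) ≤ ∑ r ∈ R, (b r + τ) ^ (1 / 6 : ℝ) + s.card * τ ^ (1 / 6 : ℝ) := by
    rw [← Finset.sum_sdiff hR, add_comm]
    refine add_le_add le_rfl ?_
    have h3 : ∑ r ∈ s \ R, (b r + τ) ^ (1 / 6 : ℝ) = ((s \ R).card : ℝ) * τ ^ (1 / 6 : ℝ) := by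
      rw [← nsmul_eq_mul, ← Finset.sum_const]
      refine Finset.sum_congr rfl fun r hr => ?_
      rw [Finset.mem_sdiff] at hr
      rw [hb0 r hr.1 hr.2, zero_add]
    rw [h3]
    refine mul_le_mul_of_nonneg_right ?_ hτ0
    exact_mod_cast Finset.card_le_card Finset.sdiff_subset
  have hS0 : 0 ≤ ∑ r ∈ R, (b r + τ) ^ (1 / 6 : ℝ) := Finset.sum_nonneg fun r _ => hx0 r
  have hs0 : 0 ≤ ∑ r ∈ s, (b r + τ) ^ (1 / 6 : ℝ) := Finset.sum_nonneg fun r _ => hx0 r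
  have hT0 : 0 ≤ (s.card : ℝ) * τ ^ (1 / 6 : ℝ) := mul_nonneg (Nat.cast_nonneg _) hτ0
  have h3 : (∑ r ∈ s, (b r + τ) ^ (1 / 6 : ℝ)) ^ 6 ≤
      32 * ((∑ r ∈ R, (b r + τ) ^ (1 / 6 : ℝ)) ^ 6 + (s.card * τ ^ (1 / 6 : ℝ)) ^ 6) := by
    refine (pow_le_pow_left₀ hs0 h2 6).trans ((add_pow_le hS0 hT0 6).trans (le_of_eq ?_))
    norm_num
  have h4 : (∑ r ∈ R, (b r + τ) ^ (1 / 6 : ℝ)) ^ 6 ≤ (R.card : ℝ) ^ 5 * (∑ r ∈ s, b r + R.card * τ) := by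
    have h5 := pow_sum_div_card_le_sum_pow (s := R) (f := fun r => (b r + τ) ^ (1 / 6 : ℝ)) (n := 5) (fun r _ => hx0 r)
    rcases R.eq_empty_or_nonempty with hs | hs
    · subst hs
      simp
    · have h6 : (0 : ℝ) < (R.card : ℝ) ^ 5 := by
        have : 0 < R.card := hs.card_pos
        positivity
      rw [div_le_iff₀ h6] at h5
      have h7 : ∑ r ∈ R, ((b r + τ) ^ (1 / 6 : ℝ)) ^ (5 + 1) ≤ ∑ r ∈ s, b r + R.card * τ := by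
        have e1 : ∑ r ∈ R, ((b r + τ) ^ (1 / 6 : ℝ)) ^ (5 + 1) = ∑ r ∈ R, b r + R.card * τ := by
          rw [← nsmul_eq_mul, ← Finset.sum_const, ← Finset.sum_add_distrib]
          exact Finset.sum_congr rfl fun r _ => hp _ (add_nonneg (hb r) hτ)
        rw [e1]
        exact add_le_add (Finset.sum_le_sum_of_subset_of_nonneg hR fun r _ _ => hb r) le_rfl
      refine h5.trans ?_
      rw [mul_comm]
      exact mul_le_mul_of_nonneg_left h7 h6.le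
  have h5 : ((s.card : ℝ) * τ ^ (1 / 6 : ℝ)) ^ 6 = (s.card : ℝ) ^ 6 * τ := by
    rw [mul_pow, hp τ hτ]
  rw [mul_pow] at h1
  refine h1.trans (mul_le_mul_of_nonneg_left ?_ (by positivity))
  rw [h5] at h3
  exact h3.trans (mul_le_mul_of_nonneg_left (add_le_add h4 le_rfl) (by norm_num))

private lemma numsB68 {ρ y K X G κ : ℝ} (hρ : 0 < ρ) (hρ1 : ρ ≤ 1 / 20) (hy : 0 < y) (hyK : y ≤ K) (hKX : 1 ≤ K * X) (hXK : X ≤ K)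
    (hG : G = K * y ^ 2) (hκ : 10 ≤ κ) (h : κ ≤ ρ ^ 4 * √G) : 1 ≤ K ∧ 0 < G ∧ 0 < √G ∧ ρ⁻¹ ≤ K := by
  have hK0 : 0 < K := lt_of_lt_of_le hy hyK
  have hK1 : 1 ≤ K := by nlinarith only [hKX, hρ, hρ1, hy, hXK, hyK]
  have hG0 : 0 < G := by
    rw [hG]
    positivity
  have hs : 0 < √G := Real.sqrt_pos.2 hG0
  refine ⟨hK1, hG0, hs, ?_⟩
  by_contra hcon
  push Not at hcon
  have h1 : K * ρ < 1 := by
    have := mul_lt_mul_of_pos_right hcon hρ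
    rwa [inv_mul_cancel₀ hρ.ne'] at this
  have h2 : (ρ ^ 4 * √G) ^ 2 = ρ ^ 8 * G := by
    rw [mul_pow, Real.sq_sqrt hG0.le]
    ring
  have h3 : κ ^ 2 ≤ ρ ^ 8 * G := by
    rw [← h2]
    exact pow_le_pow_left₀ (by linarith) h 2
  have h4 : ρ ^ 8 * G ≤ 1 := by
    have h5 : G ≤ K ^ 3 := by
      rw [hG]
      have : y ^ 2 ≤ K ^ 2 := pow_le_pow_left₀ hy.le hyK 2
      nlinarith only [hρ, hρ1, hy, this, hyK]
    have h6 : ρ ^ 8 * K ^ 3 = (K * ρ) ^ 3 * ρ ^ 5 := by ring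
    have h7 : (K * ρ) ^ 3 ≤ 1 := pow_le_one₀ (by positivity) h1.le
    have h8 : ρ ^ 5 ≤ 1 := pow_le_one₀ hρ.le (by linarith)
    calc ρ ^ 8 * G ≤ ρ ^ 8 * K ^ 3 := mul_le_mul_of_nonneg_left h5 (by positivity)
      _ = (K * ρ) ^ 3 * ρ ^ 5 := h6
      _ ≤ 1 * 1 := mul_le_mul h7 h8 (by positivity) (by norm_num)
      _ = 1 := by norm_num
  nlinarith only [hρ1, hκ, h3, h4, hρ]

private lemma numsW68 {ρ G κ ξ₁ : ℝ} (hρ : 0 < ρ) (hρ1 : ρ ≤ 1 / 20) (hG : 0 < √G) (hκ : 10 ≤ κ) (h : κ ≤ ρ ^ 4 * √G)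
    (hξ : ξ₁ = 1 / (16 * κ * (11 / 10 * ρ) ^ 2 * √G)) :
    10 ≤ 11 / 10 * ρ * √G ∧ 0 < ξ₁ ∧ ξ₁ ≤ 8 * κ * ξ₁ ∧ 8 * κ * ξ₁ ≤ 1 / 80 := by
  have h1 : ρ ^ 4 * √G ≤ 1 / 8000 * (ρ * √G) := by
    have : ρ ^ 3 ≤ (1 / 20) ^ 3 := pow_le_pow_left₀ hρ.le hρ1 3
    calc ρ ^ 4 * √G = ρ ^ 3 * (ρ * √G) := by ring
      _ ≤ (1 / 20) ^ 3 * (ρ * √G) := mul_le_mul_of_nonneg_right this (by positivity)
      _ = 1 / 8000 * (ρ * √G) := by norm_num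
  have h2 : ρ ^ 4 * √G ≤ 1 / 400 * (ρ ^ 2 * √G) := by
    have : ρ ^ 2 ≤ (1 / 20) ^ 2 := pow_le_pow_left₀ hρ.le hρ1 2
    calc ρ ^ 4 * √G = ρ ^ 2 * (ρ ^ 2 * √G) := by ring
      _ ≤ (1 / 20) ^ 2 * (ρ ^ 2 * √G) := mul_le_mul_of_nonneg_right this (by positivity)
      _ = 1 / 400 * (ρ ^ 2 * √G) := by norm_num
  have hκ0 : 0 < κ := by linarith only [hρ, hρ1, hκ]
  have hξ0 : 0 < ξ₁ := by
    rw [hξ]
    positivity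
  refine ⟨by linarith only [hρ, hρ1, hκ, h, h1], hξ0, by nlinarith only [hρ, hξ0, hρ1, hκ], ?_⟩
  have h3 : 8 * κ * ξ₁ = 1 / (2 * ((11 / 10 * ρ) ^ 2 * √G)) := by
    rw [hξ]
    field_simp
    ring
  rw [h3]
  refine one_div_le_one_div_of_le (by norm_num) ?_
  have e : 2 * ((11 / 10 * ρ) ^ 2 * √G) = 242 / 100 * (ρ ^ 2 * √G) := by ring
  rw [e]
  linarith only [hρ, hρ1, hκ, h, h2]

private lemma condB68 {ρ G κ C₁ C Mm M : ℝ} (hρ : 0 < ρ) (hρ1 : ρ ≤ 1 / 20) (hG : 0 < G) (hκ : 10 ≤ κ) (hC₁ : 1 ≤ C₁) (hM : 1 ≤ M)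
    (hC : 2 * 10 ^ 6 * C₁ * M ^ 3 ≤ C) (h : C * κ ≤ ρ ^ 4 * √G) (hMm0 : 0 ≤ Mm) (hMm : Mm < 100 * M * ρ⁻¹ ^ 2) :
    C₁ * κ * (11 / 10 * ρ) ^ 2 * Mm ^ 3 ≤ √G ∧ C₁ * κ * (11 / 10 * ρ) * Mm ^ 3 ≤ G := by
  have hs : 0 < √G := Real.sqrt_pos.2 hG
  have hss : √G * √G = G := Real.mul_self_sqrt hG.le
  obtain ⟨z, hz⟩ : ∃ z, z = ρ⁻¹ := ⟨_, rfl⟩
  have hz0 : 0 < z := by
    rw [hz]
    positivity
  have hρz : ρ * z = 1 := by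
    rw [hz]
    exact mul_inv_cancel₀ hρ.ne'
  have hz1 : 1 ≤ z := by nlinarith only [hρ1, hρz, hρ]
  rw [← hz] at hMm
  have h1 : C * κ * z ^ 4 ≤ √G := by
    have h2 := mul_le_mul_of_nonneg_right h (by positivity : 0 ≤ z ^ 4)
    have e : ρ ^ 4 * √G * z ^ 4 = (ρ * z) ^ 4 * √G := by ring
    rw [e, hρz] at h2
    linarith
  have h3 : Mm ^ 3 ≤ 10 ^ 6 * M ^ 3 * z ^ 6 := by
    refine (pow_le_pow_left₀ hMm0 hMm.le 3).trans (le_of_eq ?_)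
    ring
  have hκ0 : 0 < κ := by linarith
  have hC₁0 : 0 < C₁ := by linarith
  have hM0 : 0 < M := by linarith
  have h4 : 2 * 10 ^ 6 * C₁ * M ^ 3 * κ * z ^ 4 ≤ √G := by
    refine le_trans ?_ h1
    exact mul_le_mul_of_nonneg_right (mul_le_mul_of_nonneg_right hC hκ0.le) (by positivity)
  constructor
  · calc C₁ * κ * (11 / 10 * ρ) ^ 2 * Mm ^ 3 ≤ C₁ * κ * (11 / 10 * ρ) ^ 2 * (10 ^ 6 * M ^ 3 * z ^ 6) :=
          mul_le_mul_of_nonneg_left h3 (by positivity)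
      _ = 121 / 100 * 10 ^ 6 * C₁ * M ^ 3 * κ * z ^ 4 * (ρ * z) ^ 2 := by ring
      _ = 121 / 100 * 10 ^ 6 * C₁ * M ^ 3 * κ * z ^ 4 := by rw [hρz]; ring
      _ ≤ 2 * 10 ^ 6 * C₁ * M ^ 3 * κ * z ^ 4 := by
          have : 0 ≤ C₁ * M ^ 3 * κ * z ^ 4 := by positivity
          linarith
      _ ≤ √G := h4
  · have h5 : z ≤ √G := by
      have h6 : 1 * z ≤ 2 * 10 ^ 6 * C₁ * M ^ 3 * κ * z ^ 3 * z := by
        refine mul_le_mul_of_nonneg_right ?_ hz0.le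
        have a1 : (1 : ℝ) ≤ M ^ 3 := one_le_pow₀ hM
        have a2 : (1 : ℝ) ≤ z ^ 3 := one_le_pow₀ hz1
        have a3 : (1 : ℝ) ≤ C₁ * M ^ 3 := one_le_mul_of_one_le_of_one_le hC₁ a1
        have a4 : (1 : ℝ) ≤ C₁ * M ^ 3 * κ := one_le_mul_of_one_le_of_one_le a3 (by linarith)
        have a5 : (1 : ℝ) ≤ C₁ * M ^ 3 * κ * z ^ 3 := one_le_mul_of_one_le_of_one_le a4 a2
        linarith
      have e : 2 * 10 ^ 6 * C₁ * M ^ 3 * κ * z ^ 3 * z = 2 * 10 ^ 6 * C₁ * M ^ 3 * κ * z ^ 4 := by ring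
      linarith
    calc C₁ * κ * (11 / 10 * ρ) * Mm ^ 3 ≤ C₁ * κ * (11 / 10 * ρ) * (10 ^ 6 * M ^ 3 * z ^ 6) :=
          mul_le_mul_of_nonneg_left h3 (by positivity)
      _ = 11 / 10 * 10 ^ 6 * C₁ * M ^ 3 * κ * z ^ 4 * z * (ρ * z) := by ring
      _ = 11 / 10 * 10 ^ 6 * C₁ * M ^ 3 * κ * z ^ 4 * z := by rw [hρz]; ring
      _ ≤ 2 * 10 ^ 6 * C₁ * M ^ 3 * κ * z ^ 4 * z := by
          have : 0 ≤ C₁ * M ^ 3 * κ * z ^ 4 * z := by positivity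
          linarith only [this]
      _ ≤ √G * √G := mul_le_mul h4 h5 hz0.le hs.le
      _ = G := hss

private lemma powB68 {ε M z Mm : ℝ} {m : ℕ} (hε : 0 < ε) (hε1 : ε ≤ 1) (hM : 1 ≤ M) (hz : 1 ≤ z) (hMm : Mm = M ^ m) (h : Mm < 100 * M * z ^ 2) :
    (M ^ (ε / 12 * (m : ℝ))) ^ 6 ≤ 100 * M * z ^ ε := by
  have hM0 : 0 < M := by linarith
  have hz0 : 0 < z := by linarith
  have e1 : (M ^ (ε / 12 * (m : ℝ))) ^ 6 = Mm ^ (ε / 2) := by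
    rw [hMm, ← Real.rpow_natCast M m, ← Real.rpow_mul hM0.le, ← Real.rpow_natCast, ← Real.rpow_mul hM0.le]
    congr 1
    push_cast
    ring
  rw [e1]
  have hMm0 : 0 ≤ Mm := by
    rw [hMm]
    positivity
  calc Mm ^ (ε / 2) ≤ (100 * M * z ^ 2) ^ (ε / 2) := Real.rpow_le_rpow hMm0 h.le (by positivity)
    _ = (100 * M) ^ (ε / 2) * (z ^ 2) ^ (ε / 2) := Real.mul_rpow (by positivity) (by positivity)
    _ ≤ (100 * M) ^ (1 : ℝ) * (z ^ 2) ^ (ε / 2) := by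
        refine mul_le_mul_of_nonneg_right ?_ (Real.rpow_nonneg (by positivity) _)
        exact Real.rpow_le_rpow_of_exponent_le (by linarith) (by linarith)
    _ = 100 * M * z ^ ε := by
        rw [Real.rpow_one, ← Real.rpow_natCast z 2, ← Real.rpow_mul hz0.le]
        congr 2
        push_cast
        ring

private lemma arcs68 {x₀ ρ' : ℝ} {N : ℕ} {S : Finset (ℤ × ℤ)} (hρ0 : 0 ≤ ρ') (hS : ∀ k ∈ S, |tt x₀ k| ≤ ρ')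
    (R : Finset ℕ) (hR : ∀ r ∈ R, (arc x₀ S N r).Nonempty) : (R.card : ℝ) ≤ N * ρ' / 6 + 2 := by
  have hN : (0 : ℝ) ≤ N := Nat.cast_nonneg _
  have h1 : R ⊆ Finset.Icc ⌊(N : ℝ) * ((-ρ' + 6) / 12)⌋₊ ⌊(N : ℝ) * ((ρ' + 6) / 12)⌋₊ := by
    intro r hr
    obtain ⟨k, hk⟩ := hR r hr
    unfold arc at hk
    rw [Finset.mem_filter] at hk
    obtain ⟨h2, h3⟩ := hk
    have h4 := abs_le.1 (hS k h2)
    rw [Finset.mem_Icc, ← h3]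
    exact ⟨Nat.floor_le_floor (mul_le_mul_of_nonneg_left (by linarith only [h4.1]) hN), Nat.floor_le_floor (mul_le_mul_of_nonneg_left (by linarith [h4.2]) hN)⟩
  have h2 := Finset.card_le_card h1
  rw [Nat.card_Icc] at h2
  have h3 : ⌊(N : ℝ) * ((-ρ' + 6) / 12)⌋₊ ≤ ⌊(N : ℝ) * ((ρ' + 6) / 12)⌋₊ :=
    Nat.floor_le_floor (mul_le_mul_of_nonneg_left (by linarith only [hρ0]) hN)
  have h4 : (R.card : ℝ) ≤ (⌊(N : ℝ) * ((ρ' + 6) / 12)⌋₊ : ℝ) + 1 - (⌊(N : ℝ) * ((-ρ' + 6) / 12)⌋₊ : ℝ) := by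
    have h5 : R.card + ⌊(N : ℝ) * ((-ρ' + 6) / 12)⌋₊ ≤ ⌊(N : ℝ) * ((ρ' + 6) / 12)⌋₊ + 1 := by omega
    have h6 : ((R.card + ⌊(N : ℝ) * ((-ρ' + 6) / 12)⌋₊ : ℕ) : ℝ) ≤ ((⌊(N : ℝ) * ((ρ' + 6) / 12)⌋₊ + 1 : ℕ) : ℝ) := Nat.cast_le.2 h5
    push_cast at h6
    linarith only [h6]
  have h5 := Nat.floor_le (a := (N : ℝ) * ((ρ' + 6) / 12)) (mul_nonneg hN (by linarith only [hρ0]))
  have h6 := Nat.lt_floor_add_one ((N : ℝ) * ((-ρ' + 6) / 12))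
  linarith only [h4, h5, h6]

private lemma fin68 {ε A z M C₁ D Mm Nr Sg τ E₁ X ξ₁ cd C₄ K κn : ℝ} (hz : 1 ≤ z) (hzK : z ≤ K) (hM : 1 ≤ M) (hC₁ : 1 ≤ C₁) (hε1 : ε ≤ 1)
    (hD : D ^ 6 ≤ 100 * M * z ^ ε) (hMm0 : 0 ≤ Mm) (hMm : Mm ≤ 100 * M * z ^ 2) (hNr0 : 0 ≤ Nr) (hNr : Nr ≤ 20 * M * z) (hSg : 0 ≤ Sg)
    (hE₁ : 1 ≤ E₁) (hX : 0 < X) (hξ : 0 < ξ₁) (hκn : 0 ≤ κn) (hcd0 : 0 ≤ cd) (hC₄ : 1 ≤ C₄) (hcd : cd ≤ C₄ * K ^ 4) (hτ : τ = E₁ * X * ξ₁ * cd ^ 12 * κn)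
    (h : A ≤ (C₁ * D) ^ 6 * (32 * (Nr ^ 5 * (Sg + Nr * τ) + Mm ^ 6 * τ))) :
    A ≤ 32 * C₁ ^ 6 * (100 * M) * (20 * M) ^ 5 * (z ^ (5 : ℝ) * z ^ ε) * Sg +
      32 * C₁ ^ 6 * (100 * M) * ((20 * M) ^ 6 + (100 * M) ^ 6) * E₁ * C₄ ^ 12 * (X * ξ₁ * K ^ 200 * κn) := by
  have hM0 : 0 < M := by linarith
  have hz0 : 0 < z := by linarith
  have hK1 : 1 ≤ K := hz.trans hzK
  have hτ0 : 0 ≤ τ := by
    rw [hτ]
    positivity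
  have hzε0 : 0 ≤ z ^ ε := Real.rpow_nonneg hz0.le _
  have hzε : z ^ ε ≤ z := by
    have := Real.rpow_le_rpow_of_exponent_le hz hε1
    rwa [Real.rpow_one] at this
  have h1 : (C₁ * D) ^ 6 ≤ C₁ ^ 6 * (100 * M * z ^ ε) := by
    rw [mul_pow]
    exact mul_le_mul_of_nonneg_left hD (by positivity)
  have h2 : Nr ^ 5 ≤ (20 * M * z) ^ 5 := pow_le_pow_left₀ hNr0 hNr 5
  have h3 : Nr ^ 6 ≤ (20 * M * z) ^ 6 := pow_le_pow_left₀ hNr0 hNr 6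
  have h4 : Mm ^ 6 ≤ (100 * M * z ^ 2) ^ 6 := pow_le_pow_left₀ hMm0 hMm 6
  have h5 : 32 * (Nr ^ 5 * (Sg + Nr * τ) + Mm ^ 6 * τ) ≤ 32 * ((20 * M * z) ^ 5 * Sg + ((20 * M * z) ^ 6 + (100 * M * z ^ 2) ^ 6) * τ) := by
    have a1 := mul_le_mul_of_nonneg_right h2 hSg
    have a2 := mul_le_mul_of_nonneg_right h3 hτ0
    have a3 := mul_le_mul_of_nonneg_right h4 hτ0
    have e : Nr ^ 5 * (Sg + Nr * τ) = Nr ^ 5 * Sg + Nr ^ 6 * τ := by ring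
    rw [e]
    linarith
  have h6 : A ≤ C₁ ^ 6 * (100 * M * z ^ ε) * (32 * ((20 * M * z) ^ 5 * Sg + ((20 * M * z) ^ 6 + (100 * M * z ^ 2) ^ 6) * τ)) := by
    refine h.trans (mul_le_mul h1 h5 ?_ (by positivity))
    positivity
  have h7 : (20 * M * z) ^ 6 + (100 * M * z ^ 2) ^ 6 ≤ ((20 * M) ^ 6 + (100 * M) ^ 6) * z ^ 12 := by
    have b1 : z ^ 6 ≤ z ^ 12 := pow_le_pow_right₀ hz (by norm_num)
    have b2 : (20 * M * z) ^ 6 = (20 * M) ^ 6 * z ^ 6 := by ring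
    have b3 : (100 * M * z ^ 2) ^ 6 = (100 * M) ^ 6 * z ^ 12 := by ring
    rw [b2, b3, add_mul]
    exact add_le_add (mul_le_mul_of_nonneg_left b1 (by positivity)) le_rfl
  have h8 : τ ≤ E₁ * C₄ ^ 12 * (X * ξ₁ * κn) * K ^ 48 := by
    have c1 : cd ^ 12 ≤ C₄ ^ 12 * K ^ 48 := by
      refine (pow_le_pow_left₀ hcd0 hcd 12).trans (le_of_eq ?_)
      ring
    rw [hτ]
    calc E₁ * X * ξ₁ * cd ^ 12 * κn = E₁ * (X * ξ₁ * κn) * cd ^ 12 := by ring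
      _ ≤ E₁ * (X * ξ₁ * κn) * (C₄ ^ 12 * K ^ 48) := mul_le_mul_of_nonneg_left c1 (by positivity)
      _ = _ := by ring
  have h9 : z ^ ε * z ^ 12 * K ^ 48 ≤ K ^ 200 := by
    have d1 : z ^ ε * z ^ 12 ≤ K * K ^ 12 := mul_le_mul (hzε.trans hzK) (pow_le_pow_left₀ hz0.le hzK 12) (by positivity) (by linarith)
    calc z ^ ε * z ^ 12 * K ^ 48 ≤ K * K ^ 12 * K ^ 48 := mul_le_mul_of_nonneg_right d1 (by positivity)
      _ = K ^ 61 := by ring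
      _ ≤ K ^ 200 := pow_le_pow_right₀ hK1 (by norm_num)
  have e5 : z ^ (5 : ℝ) = z ^ 5 := by
    have := Real.rpow_natCast z 5
    push_cast at this
    exact this
  refine h6.trans ?_
  have h10 : C₁ ^ 6 * (100 * M * z ^ ε) * (32 * ((20 * M * z) ^ 5 * Sg + ((20 * M * z) ^ 6 + (100 * M * z ^ 2) ^ 6) * τ)) =
      32 * C₁ ^ 6 * (100 * M) * (20 * M) ^ 5 * (z ^ 5 * z ^ ε) * Sg +
        32 * C₁ ^ 6 * (100 * M) * z ^ ε * (((20 * M * z) ^ 6 + (100 * M * z ^ 2) ^ 6) * τ) := by ring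
  rw [h10, e5]
  refine add_le_add le_rfl ?_
  have h11 : ((20 * M * z) ^ 6 + (100 * M * z ^ 2) ^ 6) * τ ≤ ((20 * M) ^ 6 + (100 * M) ^ 6) * z ^ 12 * (E₁ * C₄ ^ 12 * (X * ξ₁ * κn) * K ^ 48) :=
    mul_le_mul h7 h8 hτ0 (by positivity)
  calc 32 * C₁ ^ 6 * (100 * M) * z ^ ε * (((20 * M * z) ^ 6 + (100 * M * z ^ 2) ^ 6) * τ)
      ≤ 32 * C₁ ^ 6 * (100 * M) * z ^ ε * (((20 * M) ^ 6 + (100 * M) ^ 6) * z ^ 12 * (E₁ * C₄ ^ 12 * (X * ξ₁ * κn) * K ^ 48)) :=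
        mul_le_mul_of_nonneg_left h11 (by positivity)
    _ = 32 * C₁ ^ 6 * (100 * M) * ((20 * M) ^ 6 + (100 * M) ^ 6) * E₁ * C₄ ^ 12 * (X * ξ₁ * κn) * (z ^ ε * z ^ 12 * K ^ 48) := by ring
    _ ≤ 32 * C₁ ^ 6 * (100 * M) * ((20 * M) ^ 6 + (100 * M) ^ 6) * E₁ * C₄ ^ 12 * (X * ξ₁ * κn) * K ^ 200 :=
        mul_le_mul_of_nonneg_left h9 (by positivity)
    _ = _ := by ring

private lemma bx0_68 (p : ℝ → ℝ) (y : ℝ) (a : ℤ × ℤ → ℂ) (T₁ T₂ x₁ x₂ : ℝ) : BX p y ∅ a T₁ T₂ x₁ x₂ = 0 := by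
  have h1 : ∀ T x : ℝ, W p y ∅ a T x = 0 := by
    intro T x
    unfold W m12 tp
    simp
  unfold BX
  simp only [h1, integral_zero]

theorem stageB {ε c₁ B L : ℝ} (hε : 0 < ε) (hε1 : ε ≤ 1) (hc : 0 < c₁) (hc1 : c₁ ≤ 1) (hB : 1 ≤ B) (hL : 1 ≤ L) (n : ℕ) : ∃ C β E : ℝ, 1 ≤ C ∧ 1 ≤ β ∧ 1 ≤ E ∧
    ∀ (h : ℝ × ℝ → ℝ) (θ y T₁ x₀ X K G κ ξ₁ ρ : ℝ), Hom c₁ B h → 0 < ρ → ρ ≤ 1 / 20 → 0 < y → y ≤ K → 11 / 10 * (y * ρ) ≤ k₀ c₁ B →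
      0 < X → 1 ≤ K * X → X ≤ K → X ≤ T₁ → T₁ ≤ 2 * X → G = K * y ^ 2 → 10 ≤ κ → ξ₁ = 1 / (16 * κ * (11 / 10 * ρ) ^ 2 * √G) → C * κ ≤ ρ ^ 4 * √G →
      ∫⁻ T in Icc T₁ (T₁ + X / (4 * κ)), ∫⁻ x in Icc x₀ (x₀ + ξ₁), QQ h L ρ K (fr θ y T x) ≤
        (∫⁻ T in Icc (T₁ - X / 4) (T₁ + X / 4), ∫⁻ x in Icc (x₀ - 8 * κ * ξ₁) (x₀ + 8 * κ * ξ₁),
          ENNReal.ofReal (C * ρ ^ (-(5 + ε))) * NS β (1 / ρ) (PP h (6 * L) 3 K) (fr θ y T x)) + ENNReal.ofReal (E * X * ξ₁ * K ^ 200 * κ⁻¹ ^ n) := by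
  classical
  obtain ⟨M, hM, C₁, E₁, hC₁, hE₁, hwin⟩ := window (ε := ε / 12) (lam := 4 * L) (by positivity) hc hc1 hB (by linarith) n
  obtain ⟨C₂, hC₂, hpt⟩ := ptB hc hc1 hB hL hM
  obtain ⟨C₃, hC₃, hcard⟩ := st_card (L := 2 * L) (by linarith)
  have hMr : (2 : ℝ) ≤ (M : ℝ) := by exact_mod_cast hM
  have hM0 : (0 : ℝ) < (M : ℝ) := by linarith
  have hM1 : (1 : ℝ) ≤ (M : ℝ) := by linarith
  obtain ⟨C₀, hC₀⟩ : ∃ C₀ : ℝ, C₀ = (24 ^ 4 + 24 ^ 6) ^ 12 := ⟨_, rfl⟩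
  have hC₀1 : 1 ≤ C₀ := by
    rw [hC₀]
    norm_num
  obtain ⟨Ca, hCa⟩ : ∃ Ca : ℝ, Ca = 32 * C₁ ^ 6 * (100 * (M : ℝ)) * (20 * (M : ℝ)) ^ 5 := ⟨_, rfl⟩
  obtain ⟨Cb, hCb⟩ : ∃ Cb : ℝ, Cb = 32 * C₁ ^ 6 * (100 * (M : ℝ)) * ((20 * (M : ℝ)) ^ 6 + (100 * (M : ℝ)) ^ 6) * E₁ * (2 * C₃) ^ 12 := ⟨_, rfl⟩
  have hC₁0 : 0 < C₁ := by linarith
  have hE₁0 : 0 < E₁ := by linarith
  have hCa0 : 0 ≤ Ca := by
    rw [hCa]
    positivity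
  have hCb0 : 0 ≤ Cb := by
    rw [hCb]
    positivity
  have hq1 : (1 : ℝ) ≤ 2 * 10 ^ 6 * C₁ * (M : ℝ) ^ 3 := by
    have a1 : (1 : ℝ) ≤ C₁ * (M : ℝ) ^ 3 := one_le_mul_of_one_le_of_one_le hC₁ (one_le_pow₀ hM1)
    linarith
  have hq2 : 0 ≤ C₀ * Ca * C₂ := by positivity
  refine ⟨2 * 10 ^ 6 * C₁ * (M : ℝ) ^ 3 + C₀ * Ca * C₂, 36, C₀ * Cb + 1, by linarith, by norm_num, by nlinarith only [hC₀1, hCb0, mul_nonneg (zero_le_one.trans hC₀1) hCb0], ?_⟩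
  intro h θ y T₁ x₀ X K G κ ξ₁ ρ hh hρ hρ1 hy hyK hyρ hX hKX hXK hXT hTX hG hκ hξ₁ hC
  have hκ0 : 0 < κ := by linarith only [hρ, hρ1, hκ]
  have hκC : κ ≤ ρ ^ 4 * √G := by
    refine le_trans ?_ hC
    nlinarith only [hq1, hq2, hκ]
  obtain ⟨hK1, hG0, hs, hzK⟩ := numsB68 hρ hρ1 hy hyK hKX hXK hG hκ hκC
  obtain ⟨hρG, hξ0, hξκ, hξ80⟩ := numsW68 hρ hρ1 hs hκ hκC hξ₁
  have hK0 : 0 < K := by linarith only [hK1, hξ0, hξκ, hξ80]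
  have hL0 : 0 < L := by linarith only [hL, hξ0, hξκ, hξ80]
  have hT₁ : 0 < T₁ := by linarith only [hX, hXT]
  have hz1 : 1 ≤ ρ⁻¹ := by
    rw [one_le_inv₀ hρ]
    linarith only [hρ1, hξ0, hξκ, hξ80]
  -- the frequencies
  obtain ⟨Sw, hSw⟩ : ∃ Sw : Finset (ℤ × ℤ), ∀ k, k ∈ Sw ↔ k ∈ st (2 * L) (11 / 10 * ρ) K T₁ x₀ ∧ 2 / 5 * ρ * uu x₀ k < |(k.2 : ℝ)| :=
    ⟨(st (2 * L) (11 / 10 * ρ) K T₁ x₀).filter (fun k => 2 / 5 * ρ * uu x₀ k < |(k.2 : ℝ)|), fun k => Finset.mem_filter⟩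
  have hSw1 : ∀ k ∈ Sw, 0 < uu x₀ k ∧ K / X / (4 * L) ≤ uu x₀ k ∧ uu x₀ k ≤ 4 * L * (K / X) ∧ |tt x₀ k| ≤ 11 / 10 * ρ := by
    intro k hk
    have hk1 := ((hSw k).1 hk).1
    rw [mem_st hT₁ (by linarith only [hL, hξ0, hξκ, hξ80]) hK0 (by linarith only [hρ])] at hk1
    obtain ⟨g1, g2, g3⟩ := hk1
    have hu : 0 < uu x₀ k := by
      by_contra hu
      push Not at hu
      have h1 : 2 * L * (T₁ * uu x₀ k) ≤ 0 :=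
        mul_nonpos_of_nonneg_of_nonpos (by linarith only [hL, hξ0, hξκ, hξ80]) (mul_nonpos_of_nonneg_of_nonpos hT₁.le hu)
      linarith only [hK1, hξ0, hξκ, hξ80, g1, h1]
    refine ⟨hu, ?_, ?_, ?_⟩
    · rw [div_div, div_le_iff₀ (by positivity)]
      have h1 : 2 * L * (T₁ * uu x₀ k) ≤ 2 * L * (2 * X * uu x₀ k) :=
        mul_le_mul_of_nonneg_left (mul_le_mul_of_nonneg_right hTX hu.le) (by linarith only [hL, hξ0, hξκ, hξ80])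
      have e : uu x₀ k * (X * (4 * L)) = 2 * L * (2 * X * uu x₀ k) := by ring
      linarith only [g1, h1]
    · rw [← mul_div_assoc, le_div_iff₀ hX]
      have h1 : X * uu x₀ k ≤ T₁ * uu x₀ k := mul_le_mul_of_nonneg_right hXT hu.le
      have h2 : 0 < L * K := by positivity
      have e1 : uu x₀ k * X = X * uu x₀ k := by ring
      have e2 : 4 * L * K = 2 * (2 * L * K) := by ring
      have e3 : 2 * L * K = 2 * (L * K) := by ring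
      linarith only [g2, h1, h2]
    · unfold tt
      rw [abs_div, abs_of_pos hu, div_le_iff₀ hu]
      exact g3
  have huu : ∀ x : ℝ, |x - x₀| ≤ 1 / 80 → ∀ k ∈ Sw, 0 < uu x k := by
    intro x hx k hk
    obtain ⟨hu, -, -, ht⟩ := hSw1 k hk
    have e1 : uu x k = uu x₀ k + (x - x₀) * (k.2 : ℝ) := by
      unfold uu
      ring
    have e2 : |(k.2 : ℝ)| = |tt x₀ k| * uu x₀ k := by
      unfold tt
      rw [abs_div, abs_of_pos hu, div_mul_cancel₀ _ hu.ne']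
    have q1 : |(x - x₀) * (k.2 : ℝ)| ≤ 1 / 80 * (1 * uu x₀ k) := by
      rw [abs_mul]
      refine mul_le_mul hx ?_ (abs_nonneg _) (by norm_num)
      rw [e2]
      exact mul_le_mul_of_nonneg_right (by linarith only [hρ1, hξ0, hξκ, hξ80, ht]) hu.le
    have q2 := abs_le.1 q1
    rw [e1]
    linarith only [hu, q2.1]
  obtain ⟨p, hp⟩ : ∃ p, p = sl h θ := ⟨_, rfl⟩
  have hpc : Cv c₁ B p := by
    rw [hp]
    exact hh.cv θ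
  have hWc : ∀ (I : Finset (ℤ × ℤ)), I ⊆ Sw → ∀ a b c d : ℝ, (∀ x ∈ Icc c d, |x - x₀| ≤ 1 / 80) →
      ContinuousOn (fun q : ℝ × ℝ => W p y I (fun _ => 1) q.1 q.2) (Icc a b ×ˢ Icc c d) := by
    intro I hI a b c d hcd
    have h1 := W_cont hpc.sm.continuous (y := y) (S := I) (fun _ => 1) (s := Icc c d)
      (fun x hx k hk => (huu x (hcd x hx) k (hI hk)).ne')
    exact h1.mono (prod_mono (subset_univ _) (Subset.refl _))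
  have hsm : ∀ x ∈ Icc x₀ (x₀ + ξ₁), |x - x₀| ≤ 1 / 80 := by
    intro x hx
    rw [abs_le]
    constructor <;> linarith only [hξ0, hξκ, hξ80, hx.1, hx.2]
  have hlg : ∀ x ∈ Icc (x₀ - 8 * κ * ξ₁) (x₀ + 8 * κ * ξ₁), |x - x₀| ≤ 1 / 80 := by
    intro x hx
    rw [abs_le]
    constructor <;> linarith only [hξ80, hx.1, hx.2]
  have hX4 : X / (4 * κ) ≤ X / 40 := div_le_div_of_nonneg_left hX.le (by norm_num) (by linarith only [hκ])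
  -- step 1
  have s1 : ∫⁻ T in Icc T₁ (T₁ + X / (4 * κ)), ∫⁻ x in Icc x₀ (x₀ + ξ₁), QQ h L ρ K (fr θ y T x) ≤
      ENNReal.ofReal C₀ * ENNReal.ofReal (BX p y Sw (fun _ => 1) T₁ (T₁ + X / (4 * κ)) x₀ (x₀ + ξ₁)) := by
    have h1 : ∫⁻ T in Icc T₁ (T₁ + X / (4 * κ)), ∫⁻ x in Icc x₀ (x₀ + ξ₁), QQ h L ρ K (fr θ y T x) ≤
        ∫⁻ T in Icc T₁ (T₁ + X / (4 * κ)), ∫⁻ x in Icc x₀ (x₀ + ξ₁), ENNReal.ofReal C₀ * ENNReal.ofReal (W p y Sw (fun _ => 1) T x) := by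
      refine lint_mono fun T hT x hx => ?_
      have hT0 : 0 < T := by linarith only [hX, hXT, hT.1]
      rw [QQ_fr hh hT0 hL0 hK0 hρ.le, ← ENNReal.ofReal_mul (by linarith only [hC₀, hξ0, hξκ, hξ80]), ← hp]
      refine ENNReal.ofReal_le_ofReal ?_
      have hxs : |x - x₀| * ρ ≤ 1 / 40 := by
        have := mul_le_mul (hsm x hx) hρ1 hρ.le (by norm_num)
        linarith only [hξ0, hξκ, hξ80, this]
      have h2 : sh L ρ K T x ⊆ Sw := fun k hk =>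
        (hSw k).2 ((base_sub hL hK0 hρ.le hT₁ hT.1 (by linarith only [hX, hXT, hX4, hT.2]) hxs).2.2 k hk)
      have h3 := m12_cut (sh_cut (x := x) hT0 hL0 hK0 hρ.le) h2 (fun k => (1 : ℂ) * ee (T * pf p x y k))
      rw [← hC₀] at h3
      unfold W
      exact h3
    refine h1.trans (le_of_eq ?_)
    rw [lint_const]
    congr 1
    unfold BX
    rw [ofReal_iter (f := fun T x => W p y Sw (fun _ => 1) T x) (hWc Sw (Finset.Subset.refl _) _ _ _ _ hsm)]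
    exact fun T _ x _ => m12_nonneg _ _
  -- step 2: decoupling
  obtain ⟨m, hm1, hm2⟩ : ∃ m : ℕ, 100 * ρ⁻¹ ^ 2 ≤ (M : ℝ) ^ m ∧ (M : ℝ) ^ m < 100 * M * ρ⁻¹ ^ 2 := by
    have hex : ∃ m : ℕ, 100 * ρ⁻¹ ^ 2 ≤ (M : ℝ) ^ m := by
      obtain ⟨m, hm⟩ := pow_unbounded_of_one_lt (100 * ρ⁻¹ ^ 2) (by linarith only [hMr, hξ0, hξκ, hξ80] : (1 : ℝ) < M)
      exact ⟨m, hm.le⟩
    refine ⟨Nat.find hex, Nat.find_spec hex, ?_⟩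
    have hz2 : (1 : ℝ) ≤ ρ⁻¹ ^ 2 := one_le_pow₀ hz1
    rcases Nat.eq_zero_or_pos (Nat.find hex) with h0 | h0
    · rw [h0, pow_zero]
      have hz3 : (1 : ℝ) ≤ M * ρ⁻¹ ^ 2 := one_le_mul_of_one_le_of_one_le hM1 hz2
      linarith only [hξ0, hξκ, hξ80, hz3]
    · have h1 := Nat.find_min hex (Nat.sub_one_lt (Nat.pos_iff_ne_zero.mp h0))
      push Not at h1
      have e : (M : ℝ) ^ (Nat.find hex) = M * (M : ℝ) ^ (Nat.find hex - 1) := by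
        rw [← pow_succ', Nat.sub_add_cancel h0]
      rw [e]
      have h2 := mul_lt_mul_of_pos_left h1 hM0
      linarith only [h2]
  obtain ⟨hcn1, hcn2⟩ := condB68 hρ hρ1 hG0 hκ hC₁ hM1 (by linarith only [hq2]) hC (by positivity : 0 ≤ (M : ℝ) ^ m) hm2
  have e3 : (M : ℝ) ^ (3 * m) = ((M : ℝ) ^ m) ^ 3 := by
    rw [mul_comm, pow_mul]
  have hw := hwin m p x₀ y (11 / 10 * ρ) X T₁ (K / X) G κ ξ₁ (fun _ => 1) Sw hpc (fun _ => by simp) hy (by positivity) (by linarith only [hρ1, hξ0, hξκ, hξ80])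
    (by linarith only [hyρ]) (by positivity) hX hXT (by linarith only [hX, hTX]) (by linarith only [hκ, hξ0, hξκ, hξ80]) (by rw [hG]; field_simp) hρG hξ₁ (fun k hk => (hSw1 k hk).2)
    (by rw [e3]; exact hcn1) (by rw [e3]; exact hcn2)
  obtain ⟨b, hb⟩ : ∃ b : ℕ → ℝ, b = fun r => BX p y (arc x₀ Sw (M ^ m) r) (fun _ => 1) (T₁ - X / 4) (T₁ + X / 4) (x₀ - 8 * κ * ξ₁) (x₀ + 8 * κ * ξ₁) := ⟨_, rfl⟩
  have hb0 : ∀ r, 0 ≤ b r := by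
    intro r
    rw [hb]
    exact iter_nonneg fun T _ x _ => m12_nonneg _ _
  obtain ⟨τ, hτ⟩ : ∃ τ : ℝ, τ = E₁ * X * ξ₁ * (Sw.card : ℝ) ^ 12 * κ⁻¹ ^ n := ⟨_, rfl⟩
  have hτ0 : 0 ≤ τ := by
    rw [hτ]
    (clear * - hE₁ hX hξ0 hκ; positivity)
  obtain ⟨A, hA⟩ : ∃ A : ℝ, A = BX p y Sw (fun _ => 1) T₁ (T₁ + X / (4 * κ)) x₀ (x₀ + ξ₁) := ⟨_, rfl⟩
  have hA0 : 0 ≤ A := by
    rw [hA]
    exact iter_nonneg fun T _ x _ => m12_nonneg _ _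
  have hw' : A ^ (1 / 6 : ℝ) ≤ C₁ * (M : ℝ) ^ (ε / 12 * (m : ℝ)) * ∑ r ∈ Finset.range (M ^ m), (b r + τ) ^ (1 / 6 : ℝ) := by
    rw [hA, hb, hτ]
    exact hw
  obtain ⟨R, hR⟩ : ∃ R : Finset ℕ, ∀ r, r ∈ R ↔ r ∈ Finset.range (M ^ m) ∧ (arc x₀ Sw (M ^ m) r).Nonempty :=
    ⟨(Finset.range (M ^ m)).filter (fun r => (arc x₀ Sw (M ^ m) r).Nonempty), fun r => Finset.mem_filter⟩
  have hRs : R ⊆ Finset.range (M ^ m) := fun r hr => ((hR r).1 hr).1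
  have h6 := sixth68 (Finset.range (M ^ m)) R hRs hA0 hb0 (fun r hr hrR => by
    have he : arc x₀ Sw (M ^ m) r = ∅ := by
      by_contra hne
      exact hrR ((hR r).2 ⟨hr, Finset.nonempty_iff_ne_empty.2 hne⟩)
    rw [hb]
    simp only
    rw [he]
    exact bx0_68 _ _ _ _ _ _ _) hτ0 hw'
  have hRc : (R.card : ℝ) ≤ 20 * M * ρ⁻¹ := by
    have h1 := arcs68 (x₀ := x₀) (ρ' := 11 / 10 * ρ) (N := M ^ m) (S := Sw) (by linarith only [hρ]) (fun k hk => (hSw1 k hk).2.2.2) R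
      (fun r hr => ((hR r).1 hr).2)
    push_cast at h1
    have hρz : ρ * ρ⁻¹ = 1 := mul_inv_cancel₀ hρ.ne'
    have h2 : (M : ℝ) ^ m * (11 / 10 * ρ) ≤ 110 * M * ρ⁻¹ := by
      have h3 := mul_le_mul_of_nonneg_right hm2.le (by linarith only [hρ] : 0 ≤ 11 / 10 * ρ)
      refine h3.trans (le_of_eq ?_)
      calc 100 * (M : ℝ) * ρ⁻¹ ^ 2 * (11 / 10 * ρ) = 110 * M * ρ⁻¹ * (ρ * ρ⁻¹) := by ring
        _ = 110 * M * ρ⁻¹ := by rw [hρz, mul_one]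
    have h4 : (20 : ℝ) ≤ ρ⁻¹ := by
      rw [le_inv_comm₀ (by norm_num) hρ]
      linarith only [hρ1]
    have h5 : (40 : ℝ) ≤ M * ρ⁻¹ := by
      have h6 := mul_le_mul hMr h4 (by norm_num) hM0.le
      linarith only [h6]
    linarith only [hξ0, hξκ, hξ80, h1, h2, h5]
  have hcc : (Sw.card : ℝ) ≤ 2 * C₃ * K ^ 4 := by
    have h1 : (Sw.card : ℝ) ≤ ((st (2 * L) (11 / 10 * ρ) K T₁ x₀).card : ℝ) := by
      exact_mod_cast Finset.card_le_card fun k hk => ((hSw k).1 hk).1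
    have h2 := hcard (11 / 10 * ρ) K T₁ x₀ hT₁ hK0 (by linarith only [hρ]) (by linarith only [hρ1, hξ0, hξκ, hξ80])
    have h3 : K / T₁ ≤ K ^ 2 := by
      rw [div_le_iff₀ hT₁]
      have a1 : 1 ≤ K * T₁ := hKX.trans (mul_le_mul_of_nonneg_left hXT hK0.le)
      have a2 := mul_le_mul_of_nonneg_left a1 hK0.le
      have a3 : K * (K * T₁) = K ^ 2 * T₁ := by ring
      linarith only [a2]
    have h30 : 0 ≤ K / T₁ := by positivity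
    have h4 : (K / T₁) ^ 2 ≤ K ^ 4 := by
      have := pow_le_pow_left₀ h30 h3 2
      refine this.trans (le_of_eq ?_)
      ring
    have h5 : K ^ 2 ≤ K ^ 4 := pow_le_pow_right₀ hK1 (by norm_num)
    have h6 : 11 / 10 * ρ * (K / T₁) ^ 2 + K / T₁ ≤ 2 * K ^ 4 := by
      have a1 : 11 / 10 * ρ * (K / T₁) ^ 2 ≤ 1 * K ^ 4 := mul_le_mul (by linarith only [hρ1, hξ0, hξκ, hξ80]) h4 (by positivity) (by norm_num)
      linarith only [h3, h5, a1]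
    have h7 := mul_le_mul_of_nonneg_left h6 (by linarith only [hC₃, hξ0, hξκ, hξ80] : 0 ≤ C₃)
    linarith only [h1, h2, h7]
  have h7 := fin68 (ε := ε) (A := A) (z := ρ⁻¹) (M := M) (C₁ := C₁) (D := (M : ℝ) ^ (ε / 12 * (m : ℝ))) (Mm := (M : ℝ) ^ m) (Nr := R.card)
    (Sg := ∑ r ∈ Finset.range (M ^ m), b r) (τ := τ) (E₁ := E₁) (X := X) (ξ₁ := ξ₁) (cd := Sw.card) (C₄ := 2 * C₃) (K := K) (κn := κ⁻¹ ^ n)
    hz1 hzK hM1 hC₁ hε1 (powB68 hε hε1 hM1 hz1 rfl hm2) (by positivity) hm2.le (by (clear * -; positivity)) hRc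
    (Finset.sum_nonneg fun r _ => hb0 r) hE₁ hX hξ0 (by positivity) (by (clear * -; positivity)) (by linarith only [hC₃, hξ0, hξκ, hξ80]) hcc hτ (by
      have e : ((Finset.range (M ^ m)).card : ℝ) = (M : ℝ) ^ m := by
        rw [Finset.card_range]
        push_cast
        rfl
      rw [e] at h6
      exact h6)
  rw [← hCa, ← hCb] at h7
  -- step 3: the sum over the arcs
  have s3 : ENNReal.ofReal (∑ r ∈ Finset.range (M ^ m), b r) ≤ ENNReal.ofReal C₂ *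
      ∫⁻ T in Icc (T₁ - X / 4) (T₁ + X / 4), ∫⁻ x in Icc (x₀ - 8 * κ * ξ₁) (x₀ + 8 * κ * ξ₁), NS 36 (1 / ρ) (PP h (6 * L) 3 K) (fr θ y T x) := by
    rw [ENNReal.ofReal_sum_of_nonneg fun r _ => hb0 r]
    have h8 : ∀ r ∈ Finset.range (M ^ m), ENNReal.ofReal (b r) = ∫⁻ T in Icc (T₁ - X / 4) (T₁ + X / 4),
        ∫⁻ x in Icc (x₀ - 8 * κ * ξ₁) (x₀ + 8 * κ * ξ₁), ENNReal.ofReal (W p y (arc x₀ Sw (M ^ m) r) (fun _ => 1) T x) := by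
      intro r _
      rw [hb]
      simp only
      unfold BX
      rw [ofReal_iter (f := fun T x => W p y (arc x₀ Sw (M ^ m) r) (fun _ => 1) T x)
        (hWc _ (by unfold arc; exact Finset.filter_subset _ _) _ _ _ _ hlg)]
      exact fun T _ x _ => m12_nonneg _ _
    rw [Finset.sum_congr rfl h8]
    refine (sum_lint _ _ _ _ _ _).trans ?_
    rw [← lint_const]
    refine lint_mono fun T hT x hx => ?_
    have hT0 : 0 < T := by linarith only [hX, hXT, hT.1]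
    have hTT : |T - T₁| ≤ T₁ / 4 := by
      rw [abs_le]
      constructor <;> linarith only [hXT, hT.1, hT.2]
    have h9 := hpt h θ y T₁ x₀ K ρ T x m Sw hh hρ hρ1 hy hyρ hT₁ hK0 hSw hm1 hm2 hTT (hlg x hx)
    refine le_trans (le_of_eq ?_) h9
    refine Finset.sum_congr rfl fun r _ => ?_
    congr 1
    unfold W
    refine Pool.Agent.Helper92.DT.m12_congr fun k hk => ?_
    have hkS : k ∈ Sw := by
      unfold arc at hk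
      exact (Finset.mem_filter.1 hk).1
    rw [one_mul, vf_fr hh hT0 (huu x (hlg x hx) k hkS), hp]
  -- assembly
  have hzp : ρ⁻¹ ^ (5 : ℝ) * ρ⁻¹ ^ ε = ρ ^ (-(5 + ε)) := by
    rw [← Real.rpow_add (by positivity), Real.rpow_neg hρ.le, Real.inv_rpow hρ.le]
  rw [hzp] at h7
  have hρp : 0 < ρ ^ (-(5 + ε)) := Real.rpow_pos_of_pos hρ _
  have hSg0 : 0 ≤ ∑ r ∈ Finset.range (M ^ m), b r := Finset.sum_nonneg fun r _ => hb0 r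
  have hKn : 0 ≤ X * ξ₁ * K ^ 200 * κ⁻¹ ^ n := by positivity
  rw [← hA] at s1
  calc ∫⁻ T in Icc T₁ (T₁ + X / (4 * κ)), ∫⁻ x in Icc x₀ (x₀ + ξ₁), QQ h L ρ K (fr θ y T x)
      ≤ ENNReal.ofReal C₀ * ENNReal.ofReal A := s1
    _ ≤ ENNReal.ofReal C₀ * ENNReal.ofReal (Ca * ρ ^ (-(5 + ε)) * ∑ r ∈ Finset.range (M ^ m), b r + Cb * (X * ξ₁ * K ^ 200 * κ⁻¹ ^ n)) := by
        gcongr
    _ = ENNReal.ofReal (C₀ * (Ca * ρ ^ (-(5 + ε)))) * ENNReal.ofReal (∑ r ∈ Finset.range (M ^ m), b r) +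
          ENNReal.ofReal (C₀ * (Cb * (X * ξ₁ * K ^ 200 * κ⁻¹ ^ n))) := by
        rw [← ENNReal.ofReal_mul (by linarith only [hC₀, hξ0, hξκ, hξ80]), ← ENNReal.ofReal_mul (by positivity), ← ENNReal.ofReal_add (by positivity) (by positivity)]
        congr 1
        ring
    _ ≤ ENNReal.ofReal (C₀ * (Ca * ρ ^ (-(5 + ε)))) * (ENNReal.ofReal C₂ *
          ∫⁻ T in Icc (T₁ - X / 4) (T₁ + X / 4), ∫⁻ x in Icc (x₀ - 8 * κ * ξ₁) (x₀ + 8 * κ * ξ₁), NS 36 (1 / ρ) (PP h (6 * L) 3 K) (fr θ y T x)) +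
          ENNReal.ofReal ((C₀ * Cb + 1) * X * ξ₁ * K ^ 200 * κ⁻¹ ^ n) := by
        refine add_le_add (by gcongr) (ENNReal.ofReal_le_ofReal ?_)
        have e : (C₀ * Cb + 1) * X * ξ₁ * K ^ 200 * κ⁻¹ ^ n = C₀ * (Cb * (X * ξ₁ * K ^ 200 * κ⁻¹ ^ n)) + X * ξ₁ * K ^ 200 * κ⁻¹ ^ n := by ring
        rw [e]
        linarith only [hKn]
    _ ≤ _ := by
        refine add_le_add ?_ le_rfl
        rw [lint_const, ← mul_assoc, ← ENNReal.ofReal_mul (by positivity)]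
        refine mul_le_mul_left ?_ _
        refine ENNReal.ofReal_le_ofReal ?_
        have e : C₀ * (Ca * ρ ^ (-(5 + ε))) * C₂ = C₀ * Ca * C₂ * ρ ^ (-(5 + ε)) := by ring
        rw [e]
        exact mul_le_mul_of_nonneg_right (by linarith only [hq1, hξ0, hξκ, hξ80]) hρp.le

end Pool.Agent.Helper60.LT
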