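import Pool.Agent.Helper60.LT.F1
import Pool.Agent.Helper60.LT.D2
import Pool.Agent.Helper60.LT.D3

/-!
# LT-F3: stage A for frames

PROOF of `EE_vol`: `lift` with `F = 1`, `G = 0`, `A = 1`.
PROOF of `stepA`. Fix `θ`, `y ∈ [y₀/β, β y₀]`, `X ∈ [T₀/β, β T₀]`, `T₀ = √(Δ₀/y₀)`; `G = K y²` is between `K y₀²/β²` and `β² K y₀²`. `stageA` (F1) holds for all `T₁ ∈ [X, 2X]`, `x₀ ∈ [0, 1]` (`√G ≥ √(K y₀²)/β`); `grid` (D3), `16 κ ξ₁ = 1/((11/10 S)² √G) ≤ 1`, `F T x = PP h L S K (fr θ y T x)`,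
`G T x = GA .. (fr θ y T x)` (measurable: A4, `fr_meas`), constant term `10 κ/ξ₁ · E X ξ₁ K^200 κ⁻ⁿ`. `lift` (D1) with `F = PP h L S K`, `G = ofReal (100 κ²) * GA ..`, `A = ofReal (10 E κ K^200 κ⁻ⁿ)`. Then `lintegral` of the finite sum `GA` over `EX Δ₀ y₀ (16 β³)`;
`NS β₁ D Φ ≤ NS β₂ D Φ` and `EX .. β₁ ⊆ EX .. β₂` for `β₁ ≤ β₂` (take the maximum of the `β` of F1 and `16 β³`); `unf` (D2) with `D = √(M^m)`, `D² = M^m`, and `D = 2^i`, `D² = 4^i`; `Φ = PP ..` is measurable (`PP_meas`) and invariant (`PP_shear`).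
-/

open MeasureTheory Real Set Filter Topology

set_option autoImplicit false

namespace Pool.Agent.Helper60.LT

private theorem Tf_nonneg61 (f : Fr) : 0 ≤ Tf f := Real.sqrt_nonneg _

theorem EE_vol {β : ℝ} (hβ : 1 ≤ β) : ∃ C : ℝ, 1 ≤ C ∧ ∀ Δ₀ y₀ : ℝ, 0 < Δ₀ → 0 < y₀ →
    volume (EE Δ₀ y₀ β) ≤ ENNReal.ofReal (C * (Δ₀ ^ 2 / y₀)) := by
  obtain ⟨C, hC, hlift⟩ := lift hβ
  refine ⟨C, hC, fun Δ₀ y₀ hΔ hy => ?_⟩
  have h := hlift (fun _ => 1) (fun _ => 0) 1 Δ₀ y₀ measurable_const measurable_const hΔ hy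
    (fun θ y X _ _ h1 _ => by
      have hX : 0 < X := by
        have h0 : 0 < √(Δ₀ / y₀) := Real.sqrt_pos.2 (by positivity)
        by_contra hX
        push Not at hX
        nlinarith
      rw [mul_one]
      simp only [lintegral_const, Measure.restrict_apply MeasurableSet.univ, univ_inter, Real.volume_Icc, one_mul,
        sub_zero, ENNReal.ofReal_one, zero_mul, zero_add]
      rw [show 2 * X - X = X by ring])
  simp only [lintegral_const, Measure.restrict_apply MeasurableSet.univ, univ_inter, one_mul, zero_mul, zero_add,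
    mul_one] at h
  rw [ENNReal.ofReal_mul (by linarith)]
  exact h

theorem NS_mono {β₁ β₂ D : ℝ} (h : β₁ ≤ β₂) (hD : 0 ≤ D) (Φ : Fr → ENNReal) (f : Fr) : NS β₁ D Φ f ≤ NS β₂ D Φ f := by
  classical
  unfold NS
  refine ENNReal.tsum_le_tsum fun n => ?_
  by_cases h1 : NN β₁ D f n
  · have h2 : NN β₂ D f n := by
      obtain ⟨a, b, c, d⟩ := h1
      refine ⟨a, b.trans (mul_le_mul_of_nonneg_right h (Tf_nonneg61 _)), c.trans ?_, d.trans (mul_le_mul_of_nonneg_right h hD)⟩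
      exact mul_le_mul_of_nonneg_right (mul_le_mul_of_nonneg_right h hD) (Tf_nonneg61 _)
    rw [if_pos h1, if_pos h2]
  · rw [if_neg h1]
    exact zero_le

theorem EX_mono {β₁ β₂ Δ₀ y₀ : ℝ} (h : β₁ ≤ β₂) (h0 : 0 < β₁) (hΔ : 0 ≤ Δ₀) (hy : 0 ≤ y₀) : EX Δ₀ y₀ β₁ ⊆ EX Δ₀ y₀ β₂ := by
  rintro f ⟨a, b, c, d, e, g, i⟩
  have hdf : 0 ≤ df f := by
    by_contra hd
    push Not at hd
    have := mul_neg_of_pos_of_neg h0 hd
    linarith
  have hyf : 0 ≤ yf f := by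
    by_contra hd
    push Not at hd
    have := mul_neg_of_pos_of_neg h0 hd
    linarith
  exact ⟨a, by linarith, by linarith, d.trans (mul_le_mul_of_nonneg_right h hdf), e.trans (mul_le_mul_of_nonneg_right h hΔ),
    g.trans (mul_le_mul_of_nonneg_right h hyf), i.trans (mul_le_mul_of_nonneg_right h hy)⟩

private theorem GA_meas61 {h : ℝ × ℝ → ℝ} (hh : Continuous h) (M : ℕ) (ε β C L K q : ℝ) : Measurable (GA h M ε β C L K q) := by
  unfold GA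
  refine Measurable.const_mul (Measurable.add ?_ ?_) _
  · exact Finset.measurable_sum _ fun m _ => (NS_meas (PP_meas hh _ _ _) _ _).const_mul _
  · exact Finset.measurable_sum _ fun m _ => (NS_meas (PP_meas hh _ _ _) _ _).const_mul _

theorem stepA {ε c₁ B L β : ℝ} (hε : 0 < ε) (hε1 : ε ≤ 1) (hc : 0 < c₁) (hc1 : c₁ ≤ 1) (hB : 1 ≤ B) (hL : 1 ≤ L) (hβ : 1 ≤ β) (n : ℕ) : ∃ M : ℕ, 2 ≤ M ∧ ∃ C β' E : ℝ, 1 ≤ C ∧ 1 ≤ β' ∧ 1 ≤ E ∧
    ∀ (h : ℝ × ℝ → ℝ) (Δ₀ y₀ K κ q S : ℝ), Hom c₁ B h → 0 < Δ₀ → 0 < y₀ → 0 < S → S ≤ 3 → 11 / 10 * (β * y₀ * S) ≤ k₀ c₁ B → β * y₀ ≤ q → 20 ≤ q → q ≤ K →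
      β ≤ K * √(Δ₀ / y₀) → β * √(Δ₀ / y₀) ≤ K → 10 ≤ κ → 40 * β ≤ S ^ 2 * √(K * y₀ ^ 2) → C * κ * q ^ 24 ≤ √(K * y₀ ^ 2) →
      ∫⁻ f in EE Δ₀ y₀ β, PP h L S K f ≤ ENNReal.ofReal (C * κ ^ 2 * (1 + log q) ^ 12) *
        (∑ m ∈ lvA M q, ENNReal.ofReal (((M : ℝ) ^ m) ^ (5 + ε)) * (∫⁻ f in EE Δ₀ (y₀ / (M : ℝ) ^ m) β', PP h (6 * L) 3 K f) +
          ∑ i ∈ lvC q, ENNReal.ofReal ((2 : ℝ) ^ (22 * i)) * (∫⁻ f in EE Δ₀ (y₀ / 4 ^ i) β', PP h (6 * L) (2 * q⁻¹ ^ 3) K f)) +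
        ENNReal.ofReal (E * κ * (Δ₀ ^ 2 / y₀) * K ^ 200 * κ⁻¹ ^ n) := by
  obtain ⟨M, hM, C₁, β₁, E₁, hC₁, hβ₁, hE₁, hA⟩ := stageA (L := L) hε hε1 hc hc1 hB hL n
  obtain ⟨Cl, hCl, hlift⟩ := lift hβ
  obtain ⟨β₂, hβ₂⟩ : ∃ β₂, β₂ = max β₁ (16 * β ^ 3) := ⟨_, rfl⟩
  have hβ₂1 : β₁ ≤ β₂ := by rw [hβ₂]; exact le_max_left _ _
  have hβ₂2 : 16 * β ^ 3 ≤ β₂ := by rw [hβ₂]; exact le_max_right _ _
  have hβ3 : 1 ≤ β ^ 3 := one_le_pow₀ hβ
  obtain ⟨Cu, β', hCu, hβ', hunf⟩ := unf (hβ₁.trans hβ₂1)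
  have hβ0 : 0 < β := by linarith
  have hC₁0 : 0 < C₁ := by linarith
  have hCl0 : 0 < Cl := by linarith
  have hCu0 : 0 < Cu := by linarith
  have hE₁0 : 0 < E₁ := by linarith
  refine ⟨M, hM, C₁ * β + Cl * 100 * C₁ * Cu, β', Cl * 10 * E₁, ?_, hβ', ?_, ?_⟩
  · have h1 : 1 ≤ C₁ * β := one_le_mul_of_one_le_of_one_le hC₁ hβ
    have h2 : 0 < Cl * 100 * C₁ * Cu := by positivity
    linarith
  · have h1 : 1 ≤ Cl * E₁ := one_le_mul_of_one_le_of_one_le hCl hE₁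
    nlinarith
  intro h Δ₀ y₀ K κ q S hh hΔ hy₀ hS hS3 hk hyq hq hqK hKT hTK hκ hSK hCK
  obtain ⟨T₀, hT₀⟩ : ∃ T₀, T₀ = √(Δ₀ / y₀) := ⟨_, rfl⟩
  rw [← hT₀] at hKT hTK
  have hT₀0 : 0 < T₀ := by rw [hT₀]; exact Real.sqrt_pos.2 (by positivity)
  have hK0 : 0 < K := by linarith
  have hκ0 : 0 < κ := by linarith
  have hq0 : 0 < q := by linarith
  have hlog : 0 ≤ log q := Real.log_nonneg (by linarith)
  have hcont := hh.cont
  -- the integrand of the larger box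
  obtain ⟨G, hG⟩ : ∃ G : Fr → ENNReal, G = fun f => ENNReal.ofReal (100 * κ ^ 2) * GA h M ε β₁ C₁ L K q f := ⟨_, rfl⟩
  obtain ⟨A, hAe⟩ : ∃ A : ENNReal, A = ENNReal.ofReal (10 * κ * E₁ * K ^ 200 * κ⁻¹ ^ n) := ⟨_, rfl⟩
  have hGm : Measurable G := by rw [hG]; exact (GA_meas61 hcont _ _ _ _ _ _ _).const_mul _
  have step1 := hlift (PP h L S K) G A Δ₀ y₀ (PP_meas hcont _ _ _) hGm hΔ hy₀ (by
    intro θ y X hy1 hy2 hX1 hX2
    rw [← hT₀] at hX1 hX2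
    have hy : 0 < y := by
      by_contra h0
      push Not at h0
      nlinarith
    have hX : 0 < X := by
      by_contra h0
      push Not at h0
      nlinarith
    obtain ⟨g, hg⟩ : ∃ g, g = √(K * y ^ 2) := ⟨_, rfl⟩
    have hgg : √(K * y₀ ^ 2) ≤ β * g := by
      have h1 : K * y₀ ^ 2 ≤ β ^ 2 * (K * y ^ 2) := by
        have h2 : y₀ ^ 2 ≤ (β * y) ^ 2 := pow_le_pow_left₀ hy₀.le hy1 2
        calc K * y₀ ^ 2 ≤ K * (β * y) ^ 2 := mul_le_mul_of_nonneg_left h2 hK0.le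
          _ = β ^ 2 * (K * y ^ 2) := by ring
      calc √(K * y₀ ^ 2) ≤ √(β ^ 2 * (K * y ^ 2)) := Real.sqrt_le_sqrt h1
        _ = β * g := by rw [Real.sqrt_mul (by positivity), Real.sqrt_sq hβ0.le, hg]
    have hg0 : 0 < g := by rw [hg]; exact Real.sqrt_pos.2 (by positivity)
    have hS40 : 40 ≤ S ^ 2 * g := by
      have h1 : S ^ 2 * √(K * y₀ ^ 2) ≤ S ^ 2 * (β * g) := mul_le_mul_of_nonneg_left hgg (by positivity)
      have h2 : 40 * β ≤ (S ^ 2 * g) * β := by linarith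
      exact le_of_mul_le_mul_right h2 hβ0
    have hCg : C₁ * κ * q ^ 24 ≤ g := by
      have h1 : C₁ * β * (κ * q ^ 24) ≤ β * g := by
        have h2 : C₁ * β * (κ * q ^ 24) ≤ (C₁ * β + Cl * 100 * C₁ * Cu) * (κ * q ^ 24) := by
          refine mul_le_mul_of_nonneg_right ?_ (by positivity)
          have : 0 < Cl * 100 * C₁ * Cu := by positivity
          linarith
        calc C₁ * β * (κ * q ^ 24) ≤ (C₁ * β + Cl * 100 * C₁ * Cu) * (κ * q ^ 24) := h2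
          _ = (C₁ * β + Cl * 100 * C₁ * Cu) * κ * q ^ 24 := by ring
          _ ≤ β * g := hCK.trans hgg
      have h3 : (C₁ * κ * q ^ 24) * β ≤ g * β := by
        calc (C₁ * κ * q ^ 24) * β = C₁ * β * (κ * q ^ 24) := by ring
          _ ≤ β * g := h1
          _ = g * β := by ring
      exact le_of_mul_le_mul_right h3 hβ0
    obtain ⟨ξ₁, hξ₁⟩ : ∃ ξ₁, ξ₁ = 1 / (16 * κ * (11 / 10 * S) ^ 2 * g) := ⟨_, rfl⟩
    have hξ0 : 0 < ξ₁ := by rw [hξ₁]; positivity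
    have hξ1 : 16 * κ * ξ₁ ≤ 1 := by
      rw [hξ₁, mul_one_div, div_le_one (by positivity)]
      have h1 : 1 ≤ (11 / 10 * S) ^ 2 * g := by nlinarith
      calc 16 * κ = 16 * κ * 1 := by ring
        _ ≤ 16 * κ * ((11 / 10 * S) ^ 2 * g) := mul_le_mul_of_nonneg_left h1 (by positivity)
        _ = 16 * κ * (11 / 10 * S) ^ 2 * g := by ring
    have hmeas : ∀ Φ : Fr → ENNReal, Measurable Φ → Measurable (fun z : ℝ × ℝ => Φ (fr θ y z.1 z.2)) := by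
      intro Φ hΦ
      exact hΦ.comp (fr_meas.comp (measurable_const.prodMk (measurable_const.prodMk (measurable_fst.prodMk measurable_snd))))
    have hgrid := grid (F := fun T x => PP h L S K (fr θ y T x)) (G := fun T x => GA h M ε β₁ C₁ L K q (fr θ y T x))
      (hmeas _ (PP_meas hcont _ _ _)) (hmeas _ (GA_meas61 hcont _ _ _ _ _ _ _)) (X := X) (κ := κ) (ξ₁ := ξ₁)
      (A := ENNReal.ofReal (E₁ * X * ξ₁ * K ^ 200 * κ⁻¹ ^ n)) hX (by linarith) hξ0 hξ1 (by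
        intro T₁ x₀ hT1 hT2 _ _
        refine hA h θ y T₁ x₀ X K (K * y ^ 2) κ ξ₁ q S hh hS hS3 hy ?_ (hy2.trans hyq) hq hqK hX ?_ (hX2.trans hTK) hT1 hT2 rfl hκ
          ?_ ?_ ?_
        · refine le_trans ?_ hk
          have h1 : y * S ≤ β * y₀ * S := mul_le_mul_of_nonneg_right hy2 hS.le
          linarith
        · have h1 : β * 1 ≤ β * (K * X) := by
            calc β * 1 = β := mul_one _
              _ ≤ K * T₀ := hKT
              _ ≤ K * (β * X) := mul_le_mul_of_nonneg_left hX1 hK0.le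
              _ = β * (K * X) := by ring
          exact le_of_mul_le_mul_left h1 hβ0
        · rw [← hg]; exact hS40
        · rw [← hg]; exact hξ₁
        · rw [← hg]; exact hCg)
    refine hgrid.trans (add_le_add (le_of_eq ?_) (le_of_eq ?_))
    · rw [hG]
      simp only
      rw [← lintegral_const_mul' _ _ ENNReal.ofReal_ne_top]
      refine lintegral_congr fun T => ?_
      rw [← lintegral_const_mul' _ _ ENNReal.ofReal_ne_top]
    · rw [hAe, ← ENNReal.ofReal_mul (by positivity), ← ENNReal.ofReal_mul hX.le]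
      congr 1
      field_simp)
  -- unfolding
  have hN : ∀ (D y₁ : ℝ) (S' : ℝ), 0 < D → y₁ = y₀ / D ^ 2 → 0 ≤ S' →
      ∫⁻ f in EX Δ₀ y₀ (16 * β ^ 3), NS β₁ D (PP h (6 * L) S' K) f ≤ ENNReal.ofReal Cu * ∫⁻ f in EE Δ₀ y₁ β', PP h (6 * L) S' K f := by
    intro D y₁ S' hD hy₁ hS'
    rw [hy₁]
    calc ∫⁻ f in EX Δ₀ y₀ (16 * β ^ 3), NS β₁ D (PP h (6 * L) S' K) f
        ≤ ∫⁻ f in EX Δ₀ y₀ (16 * β ^ 3), NS β₂ D (PP h (6 * L) S' K) f := lintegral_mono fun f => NS_mono hβ₂1 hD.le _ f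
      _ ≤ ∫⁻ f in EX Δ₀ y₀ β₂, NS β₂ D (PP h (6 * L) S' K) f :=
          lintegral_mono_set (EX_mono hβ₂2 (by positivity) hΔ.le hy₀.le)
      _ ≤ _ := hunf _ Δ₀ y₀ D (PP_meas hcont _ _ _) (fun f hf => PP_shear (by linarith) hK0 hS' f hf) hΔ hy₀ hD
  have step2 : ∫⁻ f in EX Δ₀ y₀ (16 * β ^ 3), G f ≤ ENNReal.ofReal (100 * κ ^ 2) * (ENNReal.ofReal (C₁ * (1 + log q) ^ 12) *
      (∑ m ∈ lvA M q, ENNReal.ofReal (((M : ℝ) ^ m) ^ (5 + ε)) * (ENNReal.ofReal Cu * ∫⁻ f in EE Δ₀ (y₀ / (M : ℝ) ^ m) β', PP h (6 * L) 3 K f) +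
          ∑ i ∈ lvC q, ENNReal.ofReal ((2 : ℝ) ^ (22 * i)) * (ENNReal.ofReal Cu * ∫⁻ f in EE Δ₀ (y₀ / 4 ^ i) β', PP h (6 * L) (2 * q⁻¹ ^ 3) K f))) := by
    rw [hG]
    simp only
    rw [lintegral_const_mul' _ _ ENNReal.ofReal_ne_top]
    refine mul_le_mul' le_rfl ?_
    unfold GA
    rw [lintegral_const_mul' _ _ ENNReal.ofReal_ne_top]
    refine mul_le_mul' le_rfl ?_
    have hm1 : ∀ (D : ℝ) (S' : ℝ) (c : ENNReal), Measurable fun f => c * NS β₁ D (PP h (6 * L) S' K) f := fun D S' c =>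
      (NS_meas (PP_meas hcont _ _ _) _ _).const_mul _
    rw [lintegral_add_left (Finset.measurable_sum _ fun m _ => hm1 _ _ _), lintegral_finsetSum _ fun m _ => hm1 _ _ _,
      lintegral_finsetSum _ fun m _ => hm1 _ _ _]
    refine add_le_add (Finset.sum_le_sum fun m _ => ?_) (Finset.sum_le_sum fun i _ => ?_)
    · rw [lintegral_const_mul' _ _ ENNReal.ofReal_ne_top]
      refine mul_le_mul' le_rfl (hN _ _ _ ?_ ?_ (by norm_num))
      · exact Real.sqrt_pos.2 (by positivity)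
      · rw [Real.sq_sqrt (by positivity)]
    · rw [lintegral_const_mul' _ _ ENNReal.ofReal_ne_top]
      refine mul_le_mul' le_rfl (hN _ _ _ (by positivity) ?_ (by positivity))
      rw [← pow_mul, mul_comm i 2, pow_mul]
      norm_num
  -- the end
  refine step1.trans ?_
  rw [mul_add]
  refine add_le_add ?_ ?_
  · refine (mul_le_mul' le_rfl step2).trans ?_
    have e1 : ∀ (a b c : ENNReal), a * (b * c) = b * (a * c) := fun a b c => mul_left_comm a b c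
    simp only [e1 (ENNReal.ofReal _) (ENNReal.ofReal Cu) (lintegral _ _)]
    rw [← Finset.mul_sum, ← Finset.mul_sum, ← mul_add, ← mul_assoc, ← mul_assoc, ← mul_assoc,
      ← ENNReal.ofReal_mul hCl0.le, ← ENNReal.ofReal_mul (by positivity), ← ENNReal.ofReal_mul (by positivity)]
    refine mul_le_mul' (ENNReal.ofReal_le_ofReal ?_) le_rfl
    have h1 : 0 ≤ C₁ * β * (κ ^ 2 * (1 + log q) ^ 12) := by positivity
    calc Cl * (100 * κ ^ 2) * (C₁ * (1 + log q) ^ 12) * Cu = Cl * 100 * C₁ * Cu * (κ ^ 2 * (1 + log q) ^ 12) := by ring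
      _ ≤ C₁ * β * (κ ^ 2 * (1 + log q) ^ 12) + Cl * 100 * C₁ * Cu * (κ ^ 2 * (1 + log q) ^ 12) := by linarith
      _ = (C₁ * β + Cl * 100 * C₁ * Cu) * κ ^ 2 * (1 + log q) ^ 12 := by ring
  · rw [hAe, ← ENNReal.ofReal_mul (by positivity), ← ENNReal.ofReal_mul hCl0.le]
    refine le_of_eq ?_
    congr 1
    ring

end Pool.Agent.Helper60.LT

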