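import Pool.Agent.Helper60.LT.F3
import Pool.Agent.Helper60.LT.F2
import Pool.Agent.Helper60.LT.E3

/-!
# LT-F4: stage B for frames

PROOF. `T₀ = √(Δ₀/y₀)`, `H₀ = K/T₀ ≥ β`, `G₀ = K y₀²`. `N` = the smallest natural number with `S/2^N ≤ κ (β² G₀)^(-1/8)`; `N ≤ C (1 + log K)` as `G₀ ≤ K³`. `cusp_split` (A5) for this `N`, integrated over `EE Δ₀ y₀ β`: four kinds of terms.
(1) `ofReal ((L K/Tf f)^11) ≤ ofReal ((L β H₀)^11)`, `EE_vol` (F3), `H₀^11 ≤ H₀^12 ≤ BB H₀ G₀`.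
(2) `QQ h L ρ K`, `ρ = S/2^j`, `j < N`: fix `θ`, `y ∈ [y₀/β, β y₀]`, `X ∈ [T₀/β, β T₀]`, `G = K y² ≥ G₀/β²`: `ρ⁴ √G ≥ κ⁴ (β² G₀)^(-1/2) (G₀)^(1/2)/β = κ⁴/β² ≥ C κ` (`κ ≥ C`). `stageB` (F2), `grid` (D3) (`16 κ ξ₁ = 1/((11/10 ρ)² √G) ≤ 1`), `lift` (D1), `unf` (D2) with `D = 1/ρ`, as in the proof of `stepA` (F3).
(3) `RR h L (S/2^N) K`: `lift` (D1) with `F = RR ..`, `G = 0`, `A = ofReal (C κ^20 K^ε BB-bound)`, and `bad` (E3) for `ρ = S/2^N ≤ κ (β² G₀)^(-1/8) ≤ κ G^(-1/8)` (`G ≤ β² G₀`); `BB (K/X) G ≤ C BB H₀ G₀` as `K/X ≤ β H₀`, `G ≥ G₀/β²`. Conditions: `G ≥ 1`, `κ G^(-1/8) ≤ 4`, `y κ G^(-1/8)` small: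
from `C κ^8 (1 + y₀)^8 ≤ G₀`.
(4) the tails: `N` terms.
-/

open MeasureTheory Real Set Filter Topology

set_option autoImplicit false

namespace Pool.Agent.Helper60.LT

private theorem T0_pos96 {Δ₀ y₀ : ℝ} (hΔ : 0 < Δ₀) (hy : 0 < y₀) : 0 < √(Δ₀ / y₀) := Real.sqrt_pos.2 (by positivity)

/-- A shell. -/
private theorem shell96 {ε c₁ B L β : ℝ} (hε : 0 < ε) (hε1 : ε ≤ 1) (hc : 0 < c₁) (hc1 : c₁ ≤ 1) (hB : 1 ≤ B) (hL : 1 ≤ L)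
    (hβ : 1 ≤ β) (n : ℕ) : ∃ C β' E : ℝ, 1 ≤ C ∧ 1 ≤ β' ∧ 1 ≤ E ∧
    ∀ (h : ℝ × ℝ → ℝ) (Δ₀ y₀ K κ ρ : ℝ), Hom c₁ B h → 0 < Δ₀ → 0 < y₀ → 0 < ρ → ρ ≤ 1 / 20 →
      11 / 10 * (β * y₀ * ρ) ≤ k₀ c₁ B → β * y₀ ≤ K → β ≤ K * √(Δ₀ / y₀) → β * √(Δ₀ / y₀) ≤ K → 10 ≤ κ →
      C * κ ≤ ρ ^ 4 * √(K * y₀ ^ 2) →
      ∫⁻ f in EE Δ₀ y₀ β, QQ h L ρ K f ≤ ENNReal.ofReal (C * κ ^ 2 * ρ ^ (-(5 + ε))) *
        (∫⁻ f in EE Δ₀ (y₀ * ρ ^ 2) β', PP h (6 * L) 3 K f) +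
        ENNReal.ofReal (E * κ * (Δ₀ ^ 2 / y₀) * K ^ 200 * κ⁻¹ ^ n) := by
  obtain ⟨C₂, β₂, E₂, hC₂, hβ₂, hE₂, hst⟩ := stageB hε hε1 hc hc1 hB hL n
  obtain ⟨Cl, hCl, hlift⟩ := lift hβ
  obtain ⟨βu, hβu⟩ : ∃ βu : ℝ, βu = max β₂ (16 * β ^ 3) := ⟨_, rfl⟩
  have hβu1 : 1 ≤ βu := by
    rw [hβu]
    exact le_trans hβ₂ (le_max_left _ _)
  obtain ⟨Cu, β', hCu, hβ', hunf⟩ := unf hβu1
  have hC0 : 1 ≤ C₂ * β := one_le_mul_of_one_le_of_one_le hC₂ hβ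
  refine ⟨max (C₂ * β) (Cl * 100 * C₂ * Cu), β', Cl * 10 * E₂, le_trans hC0 (le_max_left _ _), hβ', ?_, ?_⟩
  · nlinarith only [hE₂, hCl]
  intro h Δ₀ y₀ K κ ρ hh hΔ hy₀ hρ hρ1 hk hyK hKT hTK hκ hCκ
  have hT₀ := T0_pos96 hΔ hy₀
  have hβ0 : 0 < β := by linarith
  have hK : 0 < K := lt_of_lt_of_le (by positivity) hyK
  have hκ0 : 0 < κ := by linarith
  have hC₂0 : 0 < C₂ := by linarith
  have hE₂0 : 0 < E₂ := by linarith
  have hCl0 : 0 < Cl := by linarith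
  have hCu0 : 0 < Cu := by linarith
  have hL6 : 0 < 6 * L := by linarith
  have hρe : 0 < ρ ^ (-(5 + ε)) := Real.rpow_pos_of_pos hρ _
  have hPm : Measurable (PP h (6 * L) 3 K) := PP_meas hh.cont _ _ _
  have hNm : Measurable (NS β₂ (1 / ρ) (PP h (6 * L) 3 K)) := NS_meas hPm _ _
  have hfm : ∀ θ y : ℝ, Measurable (fun z : ℝ × ℝ => fr θ y z.1 z.2) := fun θ y =>
    fr_meas.comp (measurable_const.prodMk (measurable_const.prodMk measurable_id))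
  have h1 := hlift (QQ h L ρ K) (fun f => ENNReal.ofReal (100 * κ ^ 2) *
      (ENNReal.ofReal (C₂ * ρ ^ (-(5 + ε))) * NS β₂ (1 / ρ) (PP h (6 * L) 3 K) f))
    (ENNReal.ofReal (10 * E₂ * κ * K ^ 200 * κ⁻¹ ^ n)) Δ₀ y₀ (QQ_meas hh.cont L ρ K)
    ((hNm.const_mul _).const_mul _) hΔ hy₀ (by
      intro θ y X e1 e2 e3 e4
      have hy : 0 < y := by
        by_contra hcon
        have : β * y ≤ 0 := mul_nonpos_of_nonneg_of_nonpos hβ0.le (not_lt.1 hcon)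
        linarith
      have hX : 0 < X := by
        by_contra hcon
        have : β * X ≤ 0 := mul_nonpos_of_nonneg_of_nonpos hβ0.le (not_lt.1 hcon)
        linarith
      have hKX : 1 ≤ K * X := by
        have g1 : K * √(Δ₀ / y₀) ≤ K * (β * X) := mul_le_mul_of_nonneg_left e3 hK.le
        have g2 : β * 1 ≤ β * (K * X) := by linarith
        exact le_of_mul_le_mul_left g2 hβ0
      -- `√G`
      have hG0 : √(K * y₀ ^ 2) ≤ β * √(K * y ^ 2) := by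
        rw [Real.sqrt_mul hK.le, Real.sqrt_mul hK.le, Real.sqrt_sq hy₀.le, Real.sqrt_sq hy.le]
        have g1 : √K * y₀ ≤ √K * (β * y) := mul_le_mul_of_nonneg_left e1 (Real.sqrt_nonneg K)
        linarith
      have hC₂κ : C₂ * κ ≤ ρ ^ 4 * √(K * y ^ 2) := by
        have g1 : C₂ * β * κ ≤ ρ ^ 4 * (β * √(K * y ^ 2)) := by
          refine le_trans ?_ (mul_le_mul_of_nonneg_left hG0 (by positivity))
          exact le_trans (mul_le_mul_of_nonneg_right (le_max_left _ _) hκ0.le) hCκ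
        have g2 : β * (C₂ * κ) ≤ β * (ρ ^ 4 * √(K * y ^ 2)) := by linarith
        exact le_of_mul_le_mul_left g2 hβ0
      have hsG : 0 < √(K * y ^ 2) := Real.sqrt_pos.2 (by positivity)
      obtain ⟨ξ₁, hξ⟩ : ∃ ξ₁ : ℝ, ξ₁ = 1 / (16 * κ * (11 / 10 * ρ) ^ 2 * √(K * y ^ 2)) := ⟨_, rfl⟩
      have hξ0 : 0 < ξ₁ := by
        rw [hξ]
        positivity
      have hκξ : 16 * κ * ξ₁ ≤ 1 := by
        have g0 : 1 ≤ C₂ * κ := one_le_mul_of_one_le_of_one_le hC₂ (by linarith only [hρ, hρ1, hκ])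
        have g1 : ρ ^ 4 ≤ ρ ^ 2 := pow_le_pow_of_le_one hρ.le (by linarith only [hρ, hρ1]) (by norm_num)
        have g2 : ρ ^ 4 * √(K * y ^ 2) ≤ ρ ^ 2 * √(K * y ^ 2) := mul_le_mul_of_nonneg_right g1 hsG.le
        have g3 : 1 ≤ (11 / 10 * ρ) ^ 2 * √(K * y ^ 2) := by nlinarith only [hρ, hρ1, hC₂κ, g0, g2, mul_pos (pow_pos hρ 2) hsG]
        have g4 : 16 * κ * ξ₁ = 1 / ((11 / 10 * ρ) ^ 2 * √(K * y ^ 2)) := by
          rw [hξ]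
          field_simp
        rw [g4, div_le_one (by positivity)]
        exact g3
      have hg := grid (F := fun T x => QQ h L ρ K (fr θ y T x))
        (G := fun T x => ENNReal.ofReal (C₂ * ρ ^ (-(5 + ε))) * NS β₂ (1 / ρ) (PP h (6 * L) 3 K) (fr θ y T x))
        ((QQ_meas hh.cont L ρ K).comp (hfm θ y)) ((hNm.comp (hfm θ y)).const_mul _) hX (by linarith only [hρ, hρ1, hκ]) hξ0 hκξ
        (A := ENNReal.ofReal (E₂ * X * ξ₁ * K ^ 200 * κ⁻¹ ^ n)) (fun T₁ x₀ t1 t2 _ _ =>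
          hst h θ y T₁ x₀ X K (K * y ^ 2) κ ξ₁ ρ hh hρ hρ1 hy (e2.trans hyK) (by
            refine le_trans ?_ hk
            have : y * ρ ≤ β * y₀ * ρ := mul_le_mul_of_nonneg_right e2 hρ.le
            linarith only [this]) hX hKX (e4.trans hTK) t1 t2 rfl hκ hξ hC₂κ)
      refine hg.trans (le_of_eq ?_)
      congr 1
      · rw [← lintegral_const_mul' _ _ ENNReal.ofReal_ne_top]
        refine lintegral_congr fun T => ?_
        rw [← lintegral_const_mul' _ _ ENNReal.ofReal_ne_top]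
      · rw [← ENNReal.ofReal_mul (by positivity), ← ENNReal.ofReal_mul hX.le]
        congr 1
        field_simp)
  refine h1.trans ?_
  have h2 : ∫⁻ f in EX Δ₀ y₀ (16 * β ^ 3), ENNReal.ofReal (100 * κ ^ 2) *
      (ENNReal.ofReal (C₂ * ρ ^ (-(5 + ε))) * NS β₂ (1 / ρ) (PP h (6 * L) 3 K) f) ≤
      ENNReal.ofReal (100 * κ ^ 2) * (ENNReal.ofReal (C₂ * ρ ^ (-(5 + ε))) *
        (ENNReal.ofReal Cu * ∫⁻ f in EE Δ₀ (y₀ * ρ ^ 2) β', PP h (6 * L) 3 K f)) := by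
    rw [lintegral_const_mul' _ _ ENNReal.ofReal_ne_top, lintegral_const_mul' _ _ ENNReal.ofReal_ne_top]
    refine mul_le_mul_right ?_ _
    refine mul_le_mul_right ?_ _
    have h3 := hunf (PP h (6 * L) 3 K) Δ₀ y₀ (1 / ρ) hPm (fun f hf => PP_shear hL6 hK (by norm_num) f hf) hΔ hy₀
      (by positivity)
    have h4 : y₀ / (1 / ρ) ^ 2 = y₀ * ρ ^ 2 := by
      field_simp
    rw [h4] at h3
    refine le_trans ?_ h3
    refine (lintegral_mono_set (EX_mono (hβu ▸ le_max_right _ _) (by positivity) hΔ.le hy₀.le)).trans ?_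
    exact lintegral_mono fun f => NS_mono (hβu ▸ le_max_left _ _) (by positivity) _ f
  rw [mul_add]
  refine add_le_add ((mul_le_mul_right h2 _).trans ?_) (le_of_eq ?_)
  · rw [← mul_assoc, ← mul_assoc, ← mul_assoc, ← ENNReal.ofReal_mul hCl0.le, ← ENNReal.ofReal_mul (by positivity),
      ← ENNReal.ofReal_mul (by positivity)]
    refine mul_le_mul_left (ENNReal.ofReal_le_ofReal ?_) _
    have h5 : Cl * (100 * κ ^ 2) * (C₂ * ρ ^ (-(5 + ε))) * Cu =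
        Cl * 100 * C₂ * Cu * (κ ^ 2 * ρ ^ (-(5 + ε))) := by ring
    rw [h5, mul_assoc (max (C₂ * β) (Cl * 100 * C₂ * Cu))]
    exact mul_le_mul_of_nonneg_right (le_max_right _ _) (by positivity)
  · rw [← ENNReal.ofReal_mul (by positivity), ← ENNReal.ofReal_mul hCl0.le]
    congr 1
    ring

/-- Comparison of the final bound. -/
private theorem BB_le96 {β H H₀ G G₀ : ℝ} (hβ : 1 ≤ β) (hH : 0 ≤ H) (hH₀ : 0 ≤ H₀) (hG₀ : 0 < G₀) (h1 : H ≤ β * H₀)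
    (h2 : G₀ ≤ β ^ 2 * G) : BB H G ≤ β ^ 27 * BB H₀ G₀ := by
  have hβ0 : 0 < β := by linarith
  have hG : 0 < G := by
    by_contra hcon
    have : β ^ 2 * G ≤ 0 := mul_nonpos_of_nonneg_of_nonpos (by positivity) (not_lt.1 hcon)
    linarith
  have hr : ∀ (a : ℝ) (m : ℕ), 0 < a → 2 * a = m → G ^ (-a) ≤ β ^ m * G₀ ^ (-a) := by
    intro a m ha hm
    have g1 : (β ^ 2 * G) ^ (-a) ≤ G₀ ^ (-a) := Real.rpow_le_rpow_of_nonpos hG₀ h2 (by linarith)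
    rw [Real.mul_rpow (by positivity) hG.le] at g1
    have g2 : (β ^ 2) ^ (-a) = (β ^ m)⁻¹ := by
      rw [← Real.rpow_natCast β 2, ← Real.rpow_mul hβ0.le, ← Real.rpow_natCast β m, ← Real.rpow_neg hβ0.le]
      congr 1
      push_cast
      linarith
    rw [g2] at g1
    have g3 := mul_le_mul_of_nonneg_left g1 (by positivity : (0 : ℝ) ≤ β ^ m)
    rwa [← mul_assoc, mul_inv_cancel₀ (by positivity), one_mul] at g3
  have r1 := hr (3 / 2) 3 (by norm_num) (by norm_num)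
  have r2 := hr (5 / 2) 5 (by norm_num) (by norm_num)
  have p1 : ∀ m : ℕ, H ^ m ≤ β ^ m * H₀ ^ m := fun m => by
    rw [← mul_pow]
    exact pow_le_pow_left₀ hH h1 m
  have q1 : 0 ≤ G₀ ^ (-(3 / 2 : ℝ)) := Real.rpow_nonneg hG₀.le _
  have q2 : 0 ≤ G₀ ^ (-(5 / 2 : ℝ)) := Real.rpow_nonneg hG₀.le _
  have q3 : 0 ≤ G ^ (-(3 / 2 : ℝ)) := Real.rpow_nonneg hG.le _
  have q4 : 0 ≤ G ^ (-(5 / 2 : ℝ)) := Real.rpow_nonneg hG.le _
  unfold BB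
  have b1 : H ^ 12 ≤ β ^ 27 * H₀ ^ 12 := (p1 12).trans
    (mul_le_mul_of_nonneg_right (pow_le_pow_right₀ hβ (by norm_num)) (by positivity))
  have b2 : H ^ 18 * G ^ (-(3 / 2) : ℝ) ≤ β ^ 27 * (H₀ ^ 18 * G₀ ^ (-(3 / 2) : ℝ)) := by
    calc H ^ 18 * G ^ (-(3 / 2) : ℝ) ≤ (β ^ 18 * H₀ ^ 18) * (β ^ 3 * G₀ ^ (-(3 / 2) : ℝ)) :=
          mul_le_mul (p1 18) r1 q3 (by positivity)
      _ = β ^ 21 * (H₀ ^ 18 * G₀ ^ (-(3 / 2) : ℝ)) := by ring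
      _ ≤ _ := mul_le_mul_of_nonneg_right (pow_le_pow_right₀ hβ (by norm_num)) (by positivity)
  have b3 : H ^ 22 * G ^ (-(5 / 2) : ℝ) ≤ β ^ 27 * (H₀ ^ 22 * G₀ ^ (-(5 / 2) : ℝ)) := by
    calc H ^ 22 * G ^ (-(5 / 2) : ℝ) ≤ (β ^ 22 * H₀ ^ 22) * (β ^ 5 * G₀ ^ (-(5 / 2) : ℝ)) :=
          mul_le_mul (p1 22) r2 q4 (by positivity)
      _ = β ^ 27 * (H₀ ^ 22 * G₀ ^ (-(5 / 2) : ℝ)) := by ring
  linarith only [b1, b2, b3]

/-- The cusp. -/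
private theorem cusp96 {ε c₁ B L β : ℝ} (hε : 0 < ε) (hc : 0 < c₁) (hc1 : c₁ ≤ 1) (hB : 1 ≤ B) (hL : 1 ≤ L)
    (hβ : 1 ≤ β) : ∃ C : ℝ, 1 ≤ C ∧
    ∀ (h : ℝ × ℝ → ℝ) (Δ₀ y₀ K κ ρ : ℝ), Hom c₁ B h → 0 < Δ₀ → 0 < y₀ → 0 < ρ →
      β ≤ K * √(Δ₀ / y₀) → β * √(Δ₀ / y₀) ≤ K → 10 ≤ κ → ρ ≤ κ * (β ^ 2 * (K * y₀ ^ 2)) ^ (-(1 / 8) : ℝ) →
      C * κ ^ 8 * (1 + y₀) ^ 8 ≤ K * y₀ ^ 2 →
      ∫⁻ f in EE Δ₀ y₀ β, RR h L ρ K f ≤ ENNReal.ofReal (C * κ ^ 20 * K ^ ε * (Δ₀ ^ 2 / y₀) *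
        BB (K / √(Δ₀ / y₀)) (K * y₀ ^ 2)) := by
  obtain ⟨C₃, hC₃, hbad⟩ := bad hε hc hc1 hB hL
  obtain ⟨Cl, hCl, hlift⟩ := lift hβ
  have hβ0 : 0 < β := by linarith
  have hk0 : 0 < k₀ c₁ B := by
    unfold k₀
    positivity
  obtain ⟨C, hCd⟩ : ∃ C : ℝ, C = Cl * C₃ * β ^ 27 + β ^ 2 + β ^ 10 * (11 / 10) ^ 8 / k₀ c₁ B ^ 8 := ⟨_, rfl⟩
  have hCl0 : 0 < Cl := by linarith
  have hC₃0 : 0 < C₃ := by linarith
  have d1 : 0 ≤ Cl * C₃ * β ^ 27 := by positivity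
  have d2 : 0 ≤ β ^ 2 := by positivity
  have d3 : 0 ≤ β ^ 10 * (11 / 10) ^ 8 / k₀ c₁ B ^ 8 := by positivity
  have hC1 : Cl * C₃ * β ^ 27 ≤ C := by linarith
  have hC2 : β ^ 2 ≤ C := by linarith
  have hC3 : β ^ 10 * (11 / 10) ^ 8 / k₀ c₁ B ^ 8 ≤ C := by linarith
  refine ⟨C, le_trans (one_le_pow₀ hβ) hC2, ?_⟩
  intro h Δ₀ y₀ K κ ρ hh hΔ hy₀ hρ hKT hTK hκ hρκ hG₀C
  have hT₀ := T0_pos96 hΔ hy₀
  have hK : 0 < K := lt_of_lt_of_le (by positivity) hTK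
  have hκ0 : 0 < κ := by linarith only [hκ]
  have hG₀ : 0 < K * y₀ ^ 2 := by positivity
  obtain ⟨H₀, hH₀⟩ : ∃ H₀ : ℝ, H₀ = K / √(Δ₀ / y₀) := ⟨_, rfl⟩
  have hH₀0 : 0 < H₀ := by
    rw [hH₀]
    positivity
  have hBB : 0 ≤ BB H₀ (K * y₀ ^ 2) := by
    unfold BB
    positivity
  have hCp : 0 ≤ C := by linarith only [hCd, d1, d2, d3]
  have h1 := hlift (RR h L ρ K) (fun _ => 0)
    (ENNReal.ofReal (C₃ * κ ^ 20 * K ^ ε * (β ^ 27 * BB H₀ (K * y₀ ^ 2)))) Δ₀ y₀ (RR_meas hh.cont L ρ K)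
    measurable_const hΔ hy₀ (by
      intro θ y X e1 e2 e3 e4
      have hy : 0 < y := by
        by_contra hcon
        have : β * y ≤ 0 := mul_nonpos_of_nonneg_of_nonpos hβ0.le (not_lt.1 hcon)
        linarith only [hy₀, e1, this]
      have hX : 0 < X := by
        by_contra hcon
        have : β * X ≤ 0 := mul_nonpos_of_nonneg_of_nonpos hβ0.le (not_lt.1 hcon)
        linarith only [hT₀, e3, this]
      have hKX : 1 ≤ K * X := by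
        have g1 : K * √(Δ₀ / y₀) ≤ K * (β * X) := mul_le_mul_of_nonneg_left e3 hK.le
        have g2 : β * 1 ≤ β * (K * X) := by linarith only [hKT, g1]
        exact le_of_mul_le_mul_left g2 hβ0
      obtain ⟨G, hG⟩ : ∃ G : ℝ, G = K * y ^ 2 := ⟨_, rfl⟩
      have hG0 : 0 < G := by
        rw [hG]
        positivity
      have hGle : G ≤ β ^ 2 * (K * y₀ ^ 2) := by
        have g1 : y ^ 2 ≤ (β * y₀) ^ 2 := pow_le_pow_left₀ hy.le e2 2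
        have g2 := mul_le_mul_of_nonneg_left g1 hK.le
        rw [hG]
        linarith only [g2]
      have hGge : K * y₀ ^ 2 ≤ β ^ 2 * G := by
        have g1 : y₀ ^ 2 ≤ (β * y) ^ 2 := pow_le_pow_left₀ hy₀.le e1 2
        have g2 := mul_le_mul_of_nonneg_left g1 hK.le
        rw [hG]
        linarith only [g2]
      -- the main condition
      have hcond : ∀ D : ℝ, 0 ≤ D → β ^ 2 * D ≤ C → D * κ ^ 8 * (1 + y₀) ^ 8 ≤ G := by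
        intro D hD hDC
        have g1 : β ^ 2 * D * (κ ^ 8 * (1 + y₀) ^ 8) ≤ C * (κ ^ 8 * (1 + y₀) ^ 8) :=
          mul_le_mul_of_nonneg_right hDC (by positivity)
        have g2 : β ^ 2 * (D * κ ^ 8 * (1 + y₀) ^ 8) ≤ β ^ 2 * G := by linarith only [hG₀C, hGge, g1]
        exact le_of_mul_le_mul_left g2 (by positivity)
      have hpow : ∀ (D E : ℝ), 0 ≤ D → 0 < E → D ^ 8 ≤ E ^ 8 * G → D * G ^ (-(1 / 8) : ℝ) ≤ E := by
        intro D E hD hE hDE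
        have g1 : D ≤ E * G ^ ((1 / 8 : ℝ)) := by
          have g2 : D ^ 8 ≤ (E * G ^ ((1 / 8 : ℝ))) ^ 8 := by
            rw [mul_pow, ← Real.rpow_natCast (G ^ ((1 / 8 : ℝ))) 8, ← Real.rpow_mul hG0.le]
            norm_num
            exact hDE
          exact le_of_pow_le_pow_left₀ (by norm_num) (by positivity) g2
        rw [Real.rpow_neg hG0.le, ← div_eq_mul_inv, div_le_iff₀ (Real.rpow_pos_of_pos hG0 _)]
        exact g1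
      have k1 : κ ^ 8 * 1 ≤ κ ^ 8 * (1 + y₀) ^ 8 :=
        mul_le_mul_of_nonneg_left (one_le_pow₀ (by linarith only [hy₀])) (by positivity)
      have k2 := hcond 1 zero_le_one (by linarith only [hCd, d1, d3])
      have hκ8 : 1 ≤ κ ^ 8 := one_le_pow₀ (by linarith only [hκ])
      have hG1 : 1 ≤ G := by linarith only [k1, k2, hκ8]
      have hκG : κ * G ^ (-(1 / 8) : ℝ) ≤ 4 := hpow κ 4 hκ0.le (by norm_num) (by nlinarith only [hG0, k1, k2])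
      have hyκ : 11 / 10 * (y * (κ * G ^ (-(1 / 8) : ℝ))) ≤ k₀ c₁ B := by
        have g1 := hpow (11 / 10 * (y * κ)) (k₀ c₁ B) (by positivity) hk0 (by
          have g2 := hcond (β ^ 8 * (11 / 10) ^ 8 / k₀ c₁ B ^ 8) (by positivity) (by
            refine le_trans (le_of_eq ?_) hC3
            ring)
          have g3 : (11 / 10 * (y * κ)) ^ 8 ≤ (11 / 10) ^ 8 * (β ^ 8 * (1 + y₀) ^ 8) * κ ^ 8 := by
            have g4 : y ^ 8 ≤ (β * (1 + y₀)) ^ 8 := by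
              refine pow_le_pow_left₀ hy.le (e2.trans ?_) 8
              refine mul_le_mul_of_nonneg_left (by linarith only []) hβ0.le
            rw [mul_pow] at g4
            calc (11 / 10 * (y * κ)) ^ 8 = (11 / 10) ^ 8 * y ^ 8 * κ ^ 8 := by ring
              _ ≤ (11 / 10) ^ 8 * (β ^ 8 * (1 + y₀) ^ 8) * κ ^ 8 :=
                mul_le_mul_of_nonneg_right (mul_le_mul_of_nonneg_left g4 (by positivity)) (by positivity)
          refine g3.trans ?_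
          have g5 := mul_le_mul_of_nonneg_left g2 (by positivity : (0 : ℝ) ≤ k₀ c₁ B ^ 8)
          refine le_trans (le_of_eq ?_) g5
          field_simp)
        calc 11 / 10 * (y * (κ * G ^ (-(1 / 8) : ℝ))) = 11 / 10 * (y * κ) * G ^ (-(1 / 8) : ℝ) := by ring
          _ ≤ _ := g1
      have hρG : ρ ≤ κ * G ^ (-(1 / 8) : ℝ) := hρκ.trans (mul_le_mul_of_nonneg_left
        (Real.rpow_le_rpow_of_nonpos hG0 hGle (by norm_num)) hκ0.le)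
      have h2 := hbad h θ y X K G κ ρ hh hy hX hKX (e4.trans hTK) hG hG1 hκ hρ hρG hκG hyκ
      have h3 : BB (K / X) G ≤ β ^ 27 * BB H₀ (K * y₀ ^ 2) := by
        refine BB_le96 hβ (by positivity) hH₀0.le hG₀ ?_ hGge
        rw [hH₀, div_le_iff₀ hX, mul_comm β, mul_assoc, div_mul_eq_mul_div, le_div_iff₀ hT₀]
        exact mul_le_mul_of_nonneg_left e3 hK.le
      refine (h2.trans ?_).trans le_add_self
      rw [← ENNReal.ofReal_mul hX.le]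
      refine ENNReal.ofReal_le_ofReal ?_
      have h4 : C₃ * κ ^ 20 * K ^ ε * X * BB (K / X) G ≤
          C₃ * κ ^ 20 * K ^ ε * X * (β ^ 27 * BB H₀ (K * y₀ ^ 2)) :=
        mul_le_mul_of_nonneg_left h3 (by positivity)
      linarith only [h4])
  refine h1.trans ?_
  rw [lintegral_zero, zero_add, ← ENNReal.ofReal_mul (by positivity), ← ENNReal.ofReal_mul hCl0.le, ← hH₀]
  refine ENNReal.ofReal_le_ofReal ?_
  have h5 : Cl * (Δ₀ ^ 2 / y₀ * (C₃ * κ ^ 20 * K ^ ε * (β ^ 27 * BB H₀ (K * y₀ ^ 2)))) =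
      Cl * C₃ * β ^ 27 * (κ ^ 20 * K ^ ε * (Δ₀ ^ 2 / y₀) * BB H₀ (K * y₀ ^ 2)) := by ring
  have h6 : C * κ ^ 20 * K ^ ε * (Δ₀ ^ 2 / y₀) * BB H₀ (K * y₀ ^ 2) =
      C * (κ ^ 20 * K ^ ε * (Δ₀ ^ 2 / y₀) * BB H₀ (K * y₀ ^ 2)) := by ring
  rw [h5, h6]
  exact mul_le_mul_of_nonneg_right hC1 (by positivity)

/-- The frequencies with `k.2 = 0`. -/
private theorem line96 {L β : ℝ} (hL : 1 ≤ L) (hβ : 1 ≤ β) : ∃ C : ℝ, 1 ≤ C ∧
    ∀ Δ₀ y₀ K : ℝ, 0 < Δ₀ → 0 < y₀ → 0 < K →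
      ∫⁻ f in EE Δ₀ y₀ β, ENNReal.ofReal ((L * (K / Tf f)) ^ 11) ≤
        ENNReal.ofReal (C * (Δ₀ ^ 2 / y₀) * (K / √(Δ₀ / y₀)) ^ 11) := by
  obtain ⟨Cv, hCv, hvol⟩ := EE_vol hβ
  have hβ0 : 0 < β := by linarith
  have hL0 : 0 < L := by linarith
  refine ⟨(L * β) ^ 11 * Cv, one_le_mul_of_one_le_of_one_le
    (one_le_pow₀ (one_le_mul_of_one_le_of_one_le hL hβ)) hCv, fun Δ₀ y₀ K hΔ hy₀ hK => ?_⟩
  have hT₀ := T0_pos96 hΔ hy₀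
  have h1 : ∀ f ∈ EE Δ₀ y₀ β, ENNReal.ofReal ((L * (K / Tf f)) ^ 11) ≤
      ENNReal.ofReal ((L * (β * (K / √(Δ₀ / y₀)))) ^ 11) := by
    intro f hf
    obtain ⟨hT, -, -, g1, g2, g3, g4⟩ := hf
    have hs : 0 < f.1.1 ^ 2 + f.1.2 ^ 2 := by
      unfold Tf at hT
      exact Real.sqrt_pos.1 hT
    have hT2 : Tf f ^ 2 = f.1.1 ^ 2 + f.1.2 ^ 2 := by
      unfold Tf
      exact Real.sq_sqrt hs.le
    have hyf : yf f * Tf f ^ 2 = df f := by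
      rw [hT2]
      unfold yf
      exact div_mul_cancel₀ _ hs.ne'
    have g5 : √(Δ₀ / y₀) ≤ β * Tf f := by
      rw [Real.sqrt_le_left (by positivity), div_le_iff₀ hy₀]
      have g6 : yf f * Tf f ^ 2 ≤ β * y₀ * Tf f ^ 2 := mul_le_mul_of_nonneg_right g4 (by positivity)
      have g7 : β * df f ≤ β * (β * y₀ * Tf f ^ 2) := mul_le_mul_of_nonneg_left (by linarith) hβ0.le
      calc Δ₀ ≤ β * df f := g1
        _ ≤ β * (β * y₀ * Tf f ^ 2) := g7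
        _ = (β * Tf f) ^ 2 * y₀ := by ring
    refine ENNReal.ofReal_le_ofReal (pow_le_pow_left₀ (by positivity) ?_ 11)
    refine mul_le_mul_of_nonneg_left ?_ hL0.le
    rw [div_le_iff₀ hT, mul_comm β, mul_assoc, div_mul_eq_mul_div, le_div_iff₀ hT₀]
    exact mul_le_mul_of_nonneg_left g5 hK.le
  refine (setLIntegral_mono' (EE_meas _ _ _) h1).trans ?_
  rw [setLIntegral_const]
  refine (mul_le_mul_right (hvol Δ₀ y₀ hΔ hy₀) _).trans (le_of_eq ?_)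
  rw [← ENNReal.ofReal_mul (by positivity)]
  congr 1
  ring

theorem stepB {ε c₁ B L β : ℝ} (hε : 0 < ε) (hε1 : ε ≤ 1) (hc : 0 < c₁) (hc1 : c₁ ≤ 1) (hB : 1 ≤ B) (hL : 1 ≤ L) (hβ : 1 ≤ β) (n : ℕ) : ∃ C β' E : ℝ, 1 ≤ C ∧ 1 ≤ β' ∧ 1 ≤ E ∧
    ∀ (h : ℝ × ℝ → ℝ) (Δ₀ y₀ K κ S : ℝ), Hom c₁ B h → 0 < Δ₀ → 0 < y₀ → 0 < S → S ≤ 1 / 20 → 11 / 10 * (β * y₀ * S) ≤ k₀ c₁ B → β * y₀ ≤ K → 20 ≤ K →
      β ≤ K * √(Δ₀ / y₀) → β * √(Δ₀ / y₀) ≤ K → C ≤ κ → C * κ ^ 8 * (1 + y₀) ^ 8 ≤ K * y₀ ^ 2 →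
      ∃ N : ℕ, (N : ℝ) ≤ C * (1 + log K) ∧
      ∫⁻ f in EE Δ₀ y₀ β, PP h L S K f ≤ ENNReal.ofReal (C * κ ^ 2 * (1 + log K) ^ 11) *
        (∑ j ∈ Finset.range N, ENNReal.ofReal ((S / 2 ^ j) ^ (-(5 + ε))) * ∫⁻ f in EE Δ₀ (y₀ * (S / 2 ^ j) ^ 2) β', PP h (6 * L) 3 K f) +
        ENNReal.ofReal (C * κ ^ 20 * (1 + log K) ^ 11 * K ^ ε * (Δ₀ ^ 2 / y₀) * BB (K / √(Δ₀ / y₀)) (K * y₀ ^ 2)) +
        ENNReal.ofReal (E * κ * (1 + log K) ^ 12 * (Δ₀ ^ 2 / y₀) * K ^ 200 * κ⁻¹ ^ n) := by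
  obtain ⟨Cs, β', Es, hCs, hβ', hEs, hshell⟩ := shell96 hε hε1 hc hc1 hB hL hβ n
  obtain ⟨Cc, hCc, hcusp⟩ := cusp96 hε hc hc1 hB hL hβ
  obtain ⟨Cv, hCv, hline⟩ := line96 hL hβ
  have hβ0 : 0 < β := by linarith
  obtain ⟨C, hC⟩ : ∃ C : ℝ, C = 3 ^ 11 * (Cs * β + Cc + Cv) + 10 := ⟨_, rfl⟩
  have hCsβ : 1 ≤ Cs * β := one_le_mul_of_one_le_of_one_le hCs hβ
  have hCsle : Cs ≤ Cs * β := le_mul_of_one_le_right (by linarith) hβ
  have c1 : 3 ^ 11 * Cs ≤ C := by linarith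
  have c2 : 3 ^ 11 * (Cc + Cv) ≤ C := by linarith
  have c3 : 10 ≤ C := by linarith
  have c4 : Cs * β ≤ C := by linarith
  have c5 : Cc ≤ C := by linarith
  refine ⟨C, β', 3 ^ 11 * Es, by linarith, hβ', by linarith, ?_⟩
  intro h Δ₀ y₀ K κ S hh hΔ hy₀ hS hS1 hk hyK hK20 hKT hTK hCκ hG₀C
  have hT₀ := T0_pos96 hΔ hy₀
  have hK : 0 < K := by linarith only [hS, hS1, hK20]
  have hκ10 : 10 ≤ κ := by linarith only [hCc, hCv, hC, hCsβ, hS, hS1, hCκ]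
  have hκ0 : 0 < κ := by linarith only [hCc, hCv, hC, hCsβ, hS, hS1, hCκ]
  have hG₀ : 0 < K * y₀ ^ 2 := by positivity
  have hlog : 0 ≤ log K := Real.log_nonneg (by linarith)
  obtain ⟨b, hb⟩ : ∃ b : ℝ, b = κ * (β ^ 2 * (K * y₀ ^ 2)) ^ (-(1 / 8) : ℝ) := ⟨_, rfl⟩
  have hb0 : 0 < b := by
    rw [hb]
    positivity
  have hex : ∃ N : ℕ, S / 2 ^ N ≤ b := by
    obtain ⟨N, hN⟩ := exists_pow_lt_of_lt_one (show 0 < b / S by positivity) (show (1 / 2 : ℝ) < 1 by norm_num)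
    refine ⟨N, ?_⟩
    rw [lt_div_iff₀ hS] at hN
    have e1 : S / 2 ^ N = (1 / 2) ^ N * S := by
      rw [div_pow, one_pow]
      ring
    rw [e1]
    exact hN.le
  classical
  obtain ⟨N, hN1, hN2⟩ : ∃ N : ℕ, S / 2 ^ N ≤ b ∧ ∀ j < N, b < S / 2 ^ j :=
    ⟨Nat.find hex, Nat.find_spec hex, fun j hj => not_le.1 (Nat.find_min hex hj)⟩
  -- the number of shells
  have hNlog : (N : ℝ) ≤ 1 + log K := by
    rcases Nat.eq_zero_or_pos N with h0 | h0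
    · rw [h0]
      push_cast
      linarith only [hS, hS1, hlog]
    · have g1 := hN2 (N - 1) (by omega)
      have g2 : K ^ (-(3 / 8) : ℝ) ≤ b := by
        have g3 : β ^ 2 * (K * y₀ ^ 2) ≤ K ^ (3 : ℕ) := by
          have g4 : (β * y₀) ^ 2 ≤ K ^ 2 := pow_le_pow_left₀ (by positivity) hyK 2
          have g5 := mul_le_mul_of_nonneg_left g4 hK.le
          calc β ^ 2 * (K * y₀ ^ 2) = K * (β * y₀) ^ 2 := by ring
            _ ≤ K * K ^ 2 := g5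
            _ = K ^ 3 := by ring
        have g6 : (K ^ (3 : ℕ)) ^ (-(1 / 8) : ℝ) ≤ (β ^ 2 * (K * y₀ ^ 2)) ^ (-(1 / 8) : ℝ) :=
          Real.rpow_le_rpow_of_nonpos (by positivity) g3 (by norm_num)
        have g7 : (K ^ (3 : ℕ)) ^ (-(1 / 8) : ℝ) = K ^ (-(3 / 8) : ℝ) := by
          rw [← Real.rpow_natCast K 3, ← Real.rpow_mul hK.le]
          norm_num
        rw [g7] at g6
        rw [hb]
        have g8 : (0 : ℝ) ≤ (β ^ 2 * (K * y₀ ^ 2)) ^ (-(1 / 8) : ℝ) := by positivity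
        nlinarith only [g6, hCc, g8, hCv, hC, hCsβ, hS, hb, hb0, hS1, hCκ]
      have g3 : K ^ (-(3 / 8) : ℝ) * 2 ^ (N - 1) ≤ 1 := by
        have g4 : (0 : ℝ) < 2 ^ (N - 1) := by positivity
        rw [lt_div_iff₀ g4] at g1
        have g5 := mul_le_mul_of_nonneg_right g2 g4.le
        linarith only [hS, hS1, g1, g5]
      have g4 := Real.log_le_log (by positivity) g3
      rw [Real.log_mul (by positivity) (by positivity), Real.log_rpow hK, Real.log_pow, Real.log_one] at g4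
      have g5 : ((N - 1 : ℕ) : ℝ) = N - 1 := by
        rw [Nat.cast_sub h0]
        push_cast
        ring
      rw [g5] at g4
      have g6 := Real.log_two_gt_d9
      have g7 : (1 : ℝ) ≤ N := by exact_mod_cast h0
      by_contra hcon
      rw [not_le] at hcon
      have g8 : log K * (3 / 8) ≤ log K * log 2 := mul_le_mul_of_nonneg_left (by linarith only [hS, hS1, g6]) hlog
      have g9 : log K * log 2 < (N - 1) * log 2 := mul_lt_mul_of_pos_right (by linarith only [hcon]) (by linarith only [hS, hS1, g6])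
      linarith only [g4, g8, g9]
  obtain ⟨Λ, hΛ⟩ : ∃ Λ : ℝ, Λ = 1 + log K := ⟨_, rfl⟩
  have hΛ1 : 1 ≤ Λ := by linarith only [hlog, hΛ]
  have hΛ0 : 0 < Λ := by linarith only [hS, hS1, hlog, hΛ]
  have hN3 : ((N : ℝ) + 2) ^ 11 ≤ 3 ^ 11 * Λ ^ 11 := by
    rw [← mul_pow]
    refine pow_le_pow_left₀ (by positivity) ?_ 11
    linarith only [hlog, hNlog, hΛ]
  refine ⟨N, ?_, ?_⟩
  · have : Λ ≤ C * Λ := le_mul_of_one_le_left hΛ0.le (by linarith only [hCc, hCv, hC, hCsβ, hS, hS1])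
    rw [← hΛ]
    linarith only [hNlog, hΛ, this]
  obtain ⟨D, hD⟩ : ∃ D : ℝ, D = Δ₀ ^ 2 / y₀ := ⟨_, rfl⟩
  have hD0 : 0 < D := by
    rw [hD]
    positivity
  obtain ⟨H₀, hH₀⟩ : ∃ H₀ : ℝ, H₀ = K / √(Δ₀ / y₀) := ⟨_, rfl⟩
  have hH₀1 : 1 ≤ H₀ := by
    rw [hH₀, one_le_div hT₀]
    have : √(Δ₀ / y₀) ≤ β * √(Δ₀ / y₀) := le_mul_of_one_le_left hT₀.le hβ
    linarith only [hTK, this]
  obtain ⟨Bd, hBd⟩ : ∃ Bd : ℝ, Bd = BB H₀ (K * y₀ ^ 2) := ⟨_, rfl⟩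
  have hBd0 : H₀ ^ 11 ≤ Bd := by
    rw [hBd]
    unfold BB
    have g1 : H₀ ^ 11 ≤ H₀ ^ 12 := pow_le_pow_right₀ hH₀1 (by norm_num)
    have g2 : 0 ≤ H₀ ^ 18 * (K * y₀ ^ 2) ^ (-(3 / 2) : ℝ) := by positivity
    have g3 : 0 ≤ H₀ ^ 22 * (K * y₀ ^ 2) ^ (-(5 / 2) : ℝ) := by positivity
    linarith only [g1, g2, g3]
  have hBd1 : 0 ≤ Bd := le_trans (by positivity) hBd0
  -- the splitting
  have hsplit : ∫⁻ f in EE Δ₀ y₀ β, PP h L S K f ≤ ENNReal.ofReal (((N : ℝ) + 2) ^ 11) *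
      ((∫⁻ f in EE Δ₀ y₀ β, ENNReal.ofReal ((L * (K / Tf f)) ^ 11)) +
        (∑ j ∈ Finset.range N, ∫⁻ f in EE Δ₀ y₀ β, QQ h L (S / 2 ^ j) K f) +
        ∫⁻ f in EE Δ₀ y₀ β, RR h L (S / 2 ^ N) K f) := by
    refine (setLIntegral_mono' (EE_meas Δ₀ y₀ β) (fun f hf => cusp_split hL hK hS f hf.1 N)).trans (le_of_eq ?_)
    rw [lintegral_const_mul' _ _ ENNReal.ofReal_ne_top, lintegral_add_right _ (RR_meas hh.cont _ _ _),
      lintegral_add_right _ (Finset.measurable_fun_sum _ fun j _ => QQ_meas hh.cont _ _ _),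
      lintegral_finset_sum _ fun j _ => QQ_meas hh.cont _ _ _]
  have t1 := hline Δ₀ y₀ K hΔ hy₀ hK
  have t3 := hcusp h Δ₀ y₀ K κ (S / 2 ^ N) hh hΔ hy₀ (by positivity) hKT hTK hκ10 (hb ▸ hN1) (by
    refine le_trans ?_ hG₀C
    exact mul_le_mul_of_nonneg_right (mul_le_mul_of_nonneg_right c5 (by positivity)) (by positivity))
  have t2 : ∀ j ∈ Finset.range N, ∫⁻ f in EE Δ₀ y₀ β, QQ h L (S / 2 ^ j) K f ≤
      ENNReal.ofReal (Cs * κ ^ 2 * (S / 2 ^ j) ^ (-(5 + ε))) *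
        (∫⁻ f in EE Δ₀ (y₀ * (S / 2 ^ j) ^ 2) β', PP h (6 * L) 3 K f) +
        ENNReal.ofReal (Es * κ * (Δ₀ ^ 2 / y₀) * K ^ 200 * κ⁻¹ ^ n) := by
    intro j hj
    have hj' := hN2 j (Finset.mem_range.1 hj)
    have hρ0 : 0 < S / 2 ^ j := by positivity
    have hρS : S / 2 ^ j ≤ S := div_le_self hS.le (one_le_pow₀ (by norm_num))
    refine hshell h Δ₀ y₀ K κ (S / 2 ^ j) hh hΔ hy₀ hρ0 (hρS.trans hS1) ?_ hyK hKT hTK hκ10 ?_
    · refine le_trans ?_ hk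
      have : β * y₀ * (S / 2 ^ j) ≤ β * y₀ * S := mul_le_mul_of_nonneg_left hρS (by positivity)
      linarith only [this]
    · have g1 : b ^ 4 ≤ (S / 2 ^ j) ^ 4 := pow_le_pow_left₀ hb0.le hj'.le 4
      have g2 : b ^ 4 * √(K * y₀ ^ 2) = κ ^ 4 / β := by
        rw [hb, mul_pow, ← Real.rpow_natCast ((β ^ 2 * (K * y₀ ^ 2)) ^ (-(1 / 8) : ℝ)) 4,
          ← Real.rpow_mul (by positivity), Real.mul_rpow (by positivity) hG₀.le, Real.sqrt_eq_rpow]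
        have g3 : (K * y₀ ^ 2) ^ (-(1 / 8) * ((4 : ℕ) : ℝ)) * (K * y₀ ^ 2) ^ (1 / 2 : ℝ) = 1 := by
          rw [← Real.rpow_add hG₀]
          norm_num
        have g4 : (β ^ 2) ^ (-(1 / 8) * ((4 : ℕ) : ℝ)) = β⁻¹ := by
          rw [← Real.rpow_natCast β 2, ← Real.rpow_mul hβ0.le, ← Real.rpow_neg_one]
          norm_num
        rw [g4, mul_assoc, mul_assoc, g3, mul_one, div_eq_mul_inv]
      have g3 : κ ^ 4 / β ≤ (S / 2 ^ j) ^ 4 * √(K * y₀ ^ 2) := by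
        rw [← g2]
        exact mul_le_mul_of_nonneg_right g1 (Real.sqrt_nonneg _)
      refine le_trans ?_ g3
      rw [le_div_iff₀ hβ0]
      have g4 : Cs * β ≤ κ := c4.trans hCκ
      have g5 : κ * κ ≤ κ ^ 4 := by
        calc κ * κ = κ ^ 2 := by ring
          _ ≤ κ ^ 4 := pow_le_pow_right₀ (by linarith only [hCc, hCv, hC, hCsβ, hS1, hCκ, hb0, hj', hρS]) (by norm_num)
      calc Cs * κ * β = Cs * β * κ := by ring
        _ ≤ κ * κ := mul_le_mul_of_nonneg_right g4 hκ0.le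
        _ ≤ κ ^ 4 := g5
  have t2' := Finset.sum_le_sum t2
  rw [Finset.sum_add_distrib, Finset.sum_const, Finset.card_range, nsmul_eq_mul] at t2'
  rw [← hD, ← hH₀] at t1
  rw [← hD, ← hH₀, ← hBd] at t3
  rw [← hD] at t2'
  rw [← hD, ← hH₀, ← hBd, ← hΛ]
  have hK200 : (0 : ℝ) ≤ K ^ 200 := by positivity
  have hKε : 1 ≤ K ^ ε := Real.one_le_rpow (by linarith only [hS, hS1, hK20]) hε.le
  have hκ20 : 1 ≤ κ ^ 20 := one_le_pow₀ (by linarith only [hCc, hCv, hC, hCsβ, hS, hS1, hCκ])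
  refine hsplit.trans ((mul_le_mul' (ENNReal.ofReal_le_ofReal hN3) (add_le_add (add_le_add t1 t2') t3)).trans ?_)
  -- collecting the terms
  have e1 : ENNReal.ofReal (3 ^ 11 * Λ ^ 11) * (ENNReal.ofReal (Cv * D * H₀ ^ 11) +
      ((∑ j ∈ Finset.range N, ENNReal.ofReal (Cs * κ ^ 2 * (S / 2 ^ j) ^ (-(5 + ε))) *
        (∫⁻ f in EE Δ₀ (y₀ * (S / 2 ^ j) ^ 2) β', PP h (6 * L) 3 K f)) +
        (N : ENNReal) * ENNReal.ofReal (Es * κ * D * K ^ 200 * κ⁻¹ ^ n)) +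
      ENNReal.ofReal (Cc * κ ^ 20 * K ^ ε * D * Bd)) =
      ENNReal.ofReal (3 ^ 11 * Λ ^ 11) * (∑ j ∈ Finset.range N, ENNReal.ofReal (Cs * κ ^ 2 * (S / 2 ^ j) ^ (-(5 + ε))) *
        (∫⁻ f in EE Δ₀ (y₀ * (S / 2 ^ j) ^ 2) β', PP h (6 * L) 3 K f)) +
      ENNReal.ofReal (3 ^ 11 * Λ ^ 11) * (ENNReal.ofReal (Cv * D * H₀ ^ 11) +
        ENNReal.ofReal (Cc * κ ^ 20 * K ^ ε * D * Bd)) +
      ENNReal.ofReal (3 ^ 11 * Λ ^ 11) * ((N : ENNReal) * ENNReal.ofReal (Es * κ * D * K ^ 200 * κ⁻¹ ^ n)) := by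
    ring
  rw [e1]
  refine add_le_add (add_le_add ?_ ?_) ?_
  · rw [Finset.mul_sum, Finset.mul_sum]
    refine Finset.sum_le_sum fun j _ => ?_
    rw [← mul_assoc, ← mul_assoc]
    refine mul_le_mul_left ?_ _
    have hρe : (0 : ℝ) ≤ (S / 2 ^ j) ^ (-(5 + ε)) := by positivity
    rw [← ENNReal.ofReal_mul (by positivity), ← ENNReal.ofReal_mul (by positivity)]
    refine ENNReal.ofReal_le_ofReal ?_
    calc 3 ^ 11 * Λ ^ 11 * (Cs * κ ^ 2 * (S / 2 ^ j) ^ (-(5 + ε))) =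
          3 ^ 11 * Cs * (κ ^ 2 * Λ ^ 11 * (S / 2 ^ j) ^ (-(5 + ε))) := by ring
      _ ≤ C * (κ ^ 2 * Λ ^ 11 * (S / 2 ^ j) ^ (-(5 + ε))) := mul_le_mul_of_nonneg_right c1 (by positivity)
      _ = _ := by ring
  · rw [← ENNReal.ofReal_add (by positivity) (by positivity), ← ENNReal.ofReal_mul (by positivity)]
    refine ENNReal.ofReal_le_ofReal ?_
    have g1 : Cv * D * H₀ ^ 11 ≤ Cv * (κ ^ 20 * K ^ ε * D * Bd) := by
      have g2 : 1 ≤ κ ^ 20 * K ^ ε := one_le_mul_of_one_le_of_one_le hκ20 hKε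
      have g3 : D * H₀ ^ 11 ≤ D * Bd := mul_le_mul_of_nonneg_left hBd0 hD0.le
      have g4 : D * Bd ≤ κ ^ 20 * K ^ ε * (D * Bd) := le_mul_of_one_le_left (by positivity) g2
      calc Cv * D * H₀ ^ 11 = Cv * (D * H₀ ^ 11) := by ring
        _ ≤ Cv * (κ ^ 20 * K ^ ε * (D * Bd)) := mul_le_mul_of_nonneg_left (g3.trans g4) (by linarith only [hCv, hS, hS1])
        _ = _ := by ring
    calc 3 ^ 11 * Λ ^ 11 * (Cv * D * H₀ ^ 11 + Cc * κ ^ 20 * K ^ ε * D * Bd) ≤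
          3 ^ 11 * Λ ^ 11 * (Cv * (κ ^ 20 * K ^ ε * D * Bd) + Cc * κ ^ 20 * K ^ ε * D * Bd) :=
          mul_le_mul_of_nonneg_left (by linarith only [g1]) (by positivity)
      _ = 3 ^ 11 * (Cc + Cv) * (κ ^ 20 * Λ ^ 11 * K ^ ε * D * Bd) := by ring
      _ ≤ C * (κ ^ 20 * Λ ^ 11 * K ^ ε * D * Bd) := mul_le_mul_of_nonneg_right c2 (by positivity)
      _ = _ := by ring
  · rw [← ENNReal.ofReal_natCast N, ← ENNReal.ofReal_mul (by positivity), ← ENNReal.ofReal_mul (by positivity)]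
    refine ENNReal.ofReal_le_ofReal ?_
    have hN4 : (N : ℝ) ≤ Λ := by linarith only [hNlog, hΛ]
    have g0 : (0 : ℝ) ≤ Es * κ * D * K ^ 200 * κ⁻¹ ^ n := by positivity
    calc 3 ^ 11 * Λ ^ 11 * ((N : ℝ) * (Es * κ * D * K ^ 200 * κ⁻¹ ^ n)) ≤
          3 ^ 11 * Λ ^ 11 * (Λ * (Es * κ * D * K ^ 200 * κ⁻¹ ^ n)) :=
          mul_le_mul_of_nonneg_left (mul_le_mul_of_nonneg_right hN4 g0) (by positivity)
      _ = _ := by ring

end Pool.Agent.Helper60.LT
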