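import Pool.Agent.Helper60.LT.F3

/-!
# LT-G1: small lemmas for the induction

PROOFS. `BB_scale`: `(H/D)^12 = D^(-12) H^12`, `(H/D)^18 (G/D^4)^(-3/2) = D^(-18+6) ..`, `(H/D)^22 (G/D^4)^(-5/2) = D^(-22+10) ..`. `lvA_card`: `2^m ≤ M^m ≤ 200 M q⁸`, so `m ≤ log (200 M q⁸)/log 2`; `lvC_card`: `2^i ≤ 4q`.
`triv`: on `EE Δ₀ y₀ β` one has `Tf f ≥ T₀/β`, so `K/Tf f ≤ β H₀`, `H₀ = K/T₀`, `T₀ = √(Δ₀/y₀)` (`Tf f ^ 2 = df f/yf f`). If `L β H₀ < 1/3` then `PP = 0` (`PP_zero`). Otherwise `PP_triv`: `PP ≤ C ((β H₀)^22 + (β H₀)^11) ≤ C' H₀^22` as `H₀ ≥ 1/(3Lβ)`; `EE_vol`.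
`log_le`: `C (1 + log K)^n ≤ K^η` for large `K` (`isLittleO_log_rpow_atTop` or `log K ≤ K^ε/ε`).
-/

open MeasureTheory Real Set Filter Topology

set_option autoImplicit false

namespace Pool.Agent.Helper60.LT

theorem BB_scale {H G D : ℝ} (hH : 0 < H) (hG : 0 < G) (hD : 0 < D) : BB (H / D) (G / D ^ 4) = BB H G / D ^ 12 := by
  unfold BB
  have e1 : (D ^ 4) ^ (-(3 / 2) : ℝ) = (D ^ 6)⁻¹ := by
    rw [← rpow_natCast, ← rpow_mul hD.le, ← rpow_natCast, ← rpow_neg hD.le]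
    congr 1
    norm_num
  have e2 : (D ^ 4) ^ (-(5 / 2) : ℝ) = (D ^ 10)⁻¹ := by
    rw [← rpow_natCast, ← rpow_mul hD.le, ← rpow_natCast, ← rpow_neg hD.le]
    congr 1
    norm_num
  rw [div_rpow hG.le (by positivity), div_rpow hG.le (by positivity), e1, e2]
  field_simp

theorem BB_pos {H G : ℝ} (hH : 0 < H) (hG : 0 < G) : 0 < BB H G ∧ H ^ 12 ≤ BB H G ∧ H ^ 22 * G ^ (-(5 / 2) : ℝ) ≤ BB H G := by
  unfold BB
  have h1 : 0 < H ^ 12 := by positivity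
  have h2 : 0 < H ^ 18 * G ^ (-(3 / 2) : ℝ) := mul_pos (by positivity) (rpow_pos_of_pos hG _)
  have h3 : 0 < H ^ 22 * G ^ (-(5 / 2) : ℝ) := mul_pos (by positivity) (rpow_pos_of_pos hG _)
  refine ⟨?_, ?_, ?_⟩ <;> linarith

private lemma card_log_g1 (s : Finset ℕ) {A : ℝ} (hA : 1 ≤ A) (h : ∀ m ∈ s, (2 : ℝ) ^ m ≤ A) : (s.card : ℝ) ≤ log A / log 2 + 1 := by
  have h2 : 0 < log 2 := log_pos (by norm_num)
  have h0 : 0 ≤ log A / log 2 := div_nonneg (log_nonneg hA) h2.le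
  have hsub : s ⊆ Finset.range (⌊log A / log 2⌋₊ + 1) := by
    intro m hm
    rw [Finset.mem_range, Nat.lt_succ_iff]
    apply Nat.le_floor
    rw [le_div_iff₀ h2]
    have h3 := log_le_log (by positivity) (h m hm)
    rwa [log_pow] at h3
  have h1 := Finset.card_le_card hsub
  rw [Finset.card_range] at h1
  have h3 : (s.card : ℝ) ≤ (⌊log A / log 2⌋₊ : ℝ) + 1 := by exact_mod_cast h1
  have h4 := Nat.floor_le h0
  linarith

theorem lvA_card (M : ℕ) (hM : 2 ≤ M) : ∃ C : ℝ, 1 ≤ C ∧ ∀ q : ℝ, 1 ≤ q → ((lvA M q).card : ℝ) ≤ C * (1 + log q) := by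
  have h2 : 0 < log 2 := log_pos (by norm_num)
  have hM2 : (2 : ℝ) ≤ M := by exact_mod_cast hM
  have hl : 0 ≤ log (200 * M) := log_nonneg (by linarith)
  refine ⟨log (200 * M) / log 2 + 1 + 8 / log 2, ?_, fun q hq => ?_⟩
  · have a1 : 0 ≤ log (200 * M) / log 2 := div_nonneg hl h2.le
    have a2 : 0 ≤ 8 / log 2 := by positivity
    linarith
  · have hq8 : 1 ≤ q ^ 8 := one_le_pow₀ hq
    have h1 := card_log_g1 (lvA M q) (A := 200 * M * q ^ 8) (by nlinarith) (fun m hm => by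
      have h3 := (Finset.mem_filter.mp hm).2.2
      exact (pow_le_pow_left₀ (by norm_num) hM2 m).trans h3)
    have h3 : log (200 * M * q ^ 8) = log (200 * M) + 8 * log q := by
      rw [log_mul (by positivity) (by positivity), log_pow]
      norm_num
    rw [h3, add_div] at h1
    have hlq : 0 ≤ log q := log_nonneg hq
    have a1 : 0 ≤ log (200 * M) / log 2 := div_nonneg hl h2.le
    have a2 : 0 ≤ 8 / log 2 := by positivity
    have a3 : 8 * log q / log 2 = 8 / log 2 * log q := by ring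
    rw [a3] at h1
    nlinarith [mul_nonneg a1 hlq, mul_nonneg a2 hlq]

theorem lvC_card : ∃ C : ℝ, 1 ≤ C ∧ ∀ q : ℝ, 1 ≤ q → ((lvC q).card : ℝ) ≤ C * (1 + log q) := by
  have h2 : 0 < log 2 := log_pos (by norm_num)
  have hl : 0 ≤ log 4 := log_nonneg (by norm_num)
  refine ⟨log 4 / log 2 + 1 + 1 / log 2, ?_, fun q hq => ?_⟩
  · have a1 : 0 ≤ log 4 / log 2 := div_nonneg hl h2.le
    have a2 : 0 ≤ 1 / log 2 := by positivity
    linarith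
  · have h1 := card_log_g1 (lvC q) (A := 4 * q) (by linarith) (fun m hm => (Finset.mem_filter.mp hm).2)
    have h3 : log (4 * q) = log 4 + log q := log_mul (by norm_num) (by linarith)
    rw [h3, add_div] at h1
    have hlq : 0 ≤ log q := log_nonneg hq
    have a1 : 0 ≤ log 4 / log 2 := div_nonneg hl h2.le
    have a2 : 0 ≤ 1 / log 2 := by positivity
    have a3 : log q / log 2 = 1 / log 2 * log q := by ring
    rw [a3] at h1
    nlinarith [mul_nonneg a1 hlq, mul_nonneg a2 hlq]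

theorem log_le {C η : ℝ} (hη : 0 < η) (n : ℕ) : ∃ K₀ : ℝ, 1 ≤ K₀ ∧ ∀ K : ℝ, K₀ ≤ K → C * (1 + log K) ^ n ≤ K ^ η := by
  obtain ⟨ε, hε, hεn⟩ : ∃ ε : ℝ, 0 < ε ∧ ε * n ≤ η / 2 := by
    refine ⟨η / (2 * (n + 1)), by positivity, ?_⟩
    rw [div_mul_eq_mul_div, div_le_div_iff₀ (by positivity) (by norm_num)]
    nlinarith
  have hc : 0 < (1 + 1 / ε) ^ n := by positivity
  have hA : 0 ≤ |C| * (1 + 1 / ε) ^ n := mul_nonneg (abs_nonneg _) hc.le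
  refine ⟨max 1 ((|C| * (1 + 1 / ε) ^ n) ^ (2 / η)), le_max_left _ _, fun K hK => ?_⟩
  have hK1 : 1 ≤ K := (le_max_left _ _).trans hK
  have hK0 : 0 < K := by linarith
  have h1 : log K ≤ K ^ ε / ε := log_le_rpow_div hK0.le hε
  have hKε : 1 ≤ K ^ ε := one_le_rpow hK1 hε.le
  have h2 : 1 + log K ≤ (1 + 1 / ε) * K ^ ε := by
    have : K ^ ε / ε = 1 / ε * K ^ ε := by ring
    rw [this] at h1
    linarith
  have h3 : (1 + log K) ^ n ≤ (1 + 1 / ε) ^ n * K ^ (η / 2) := by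
    have a1 : (1 + log K) ^ n ≤ ((1 + 1 / ε) * K ^ ε) ^ n :=
      pow_le_pow_left₀ (by linarith [log_nonneg hK1]) h2 n
    have a2 : ((1 + 1 / ε) * K ^ ε) ^ n = (1 + 1 / ε) ^ n * K ^ (ε * n) := by
      rw [mul_pow, rpow_mul hK0.le, rpow_natCast]
    rw [a2] at a1
    exact a1.trans (mul_le_mul_of_nonneg_left (rpow_le_rpow_of_exponent_le hK1 hεn) hc.le)
  have h4 : |C| * (1 + 1 / ε) ^ n ≤ K ^ (η / 2) := by
    have a1 : (|C| * (1 + 1 / ε) ^ n) ^ (2 / η) ≤ K := (le_max_right _ _).trans hK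
    have a2 := rpow_le_rpow (rpow_nonneg hA _) a1 (by positivity : 0 ≤ η / 2)
    rw [← rpow_mul hA] at a2
    have e : 2 / η * (η / 2) = 1 := by field_simp
    rwa [e, rpow_one] at a2
  have h5 : 0 ≤ (1 + log K) ^ n := pow_nonneg (by linarith [log_nonneg hK1]) n
  have hKη : 0 < K ^ (η / 2) := rpow_pos_of_pos hK0 _
  calc C * (1 + log K) ^ n ≤ |C| * (1 + log K) ^ n := mul_le_mul_of_nonneg_right (le_abs_self C) h5
    _ ≤ |C| * ((1 + 1 / ε) ^ n * K ^ (η / 2)) := mul_le_mul_of_nonneg_left h3 (abs_nonneg _)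
    _ = (|C| * (1 + 1 / ε) ^ n) * K ^ (η / 2) := by ring
    _ ≤ K ^ (η / 2) * K ^ (η / 2) := mul_le_mul_of_nonneg_right h4 hKη.le
    _ = K ^ η := by
      rw [← rpow_add hK0]
      congr 1
      ring

private lemma Tf_ge_g1 {β Δ₀ y₀ : ℝ} (hβ : 1 ≤ β) (hΔ : 0 < Δ₀) (hy : 0 < y₀) {f : Fr} (hf : f ∈ EE Δ₀ y₀ β) :
    √(Δ₀ / y₀) ≤ β * Tf f := by
  obtain ⟨h1, -, -, h2, -, h3, h4⟩ := hf
  have hβ0 : 0 < β := by linarith
  have hT2 : Tf f ^ 2 = f.1.1 ^ 2 + f.1.2 ^ 2 := sq_sqrt (by positivity)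
  have e : yf f * Tf f ^ 2 = df f := by
    rw [hT2]
    unfold yf
    rw [div_mul_cancel₀]
    rw [← hT2]
    positivity
  have hd : 0 < df f := by nlinarith
  have hyf : 0 < yf f := by nlinarith
  apply sqrt_le_iff.mpr
  refine ⟨by positivity, ?_⟩
  rw [div_le_iff₀ hy, mul_pow]
  -- Δ₀ ≤ β² Tf² y₀
  have h5 : Δ₀ ≤ β * (yf f * Tf f ^ 2) := by rwa [e]
  have h6 : β * (yf f * Tf f ^ 2) ≤ β * (β * y₀ * Tf f ^ 2) :=
    mul_le_mul_of_nonneg_left (mul_le_mul_of_nonneg_right h4 (by positivity)) hβ0.le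
  calc Δ₀ ≤ β * (yf f * Tf f ^ 2) := h5
    _ ≤ β * (β * y₀ * Tf f ^ 2) := h6
    _ = β ^ 2 * Tf f ^ 2 * y₀ := by ring

theorem triv {L β : ℝ} (hL : 1 ≤ L) (hβ : 1 ≤ β) : ∃ C : ℝ, 1 ≤ C ∧ ∀ (h : ℝ × ℝ → ℝ) (Δ₀ y₀ K S : ℝ), 0 < Δ₀ → 0 < y₀ → 0 < K → 0 ≤ S → S ≤ 3 →
    ∫⁻ f in EE Δ₀ y₀ β, PP h L S K f ≤ ENNReal.ofReal (C * (Δ₀ ^ 2 / y₀) * (K / √(Δ₀ / y₀)) ^ 22) := by
  obtain ⟨C₁, hC₁, hv⟩ := EE_vol hβ
  obtain ⟨C₂, hC₂, hp⟩ := PP_triv hL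
  have hβ0 : 0 < β := by linarith
  have hL0 : 0 < L := by linarith
  have hb22 : 1 ≤ β ^ 22 := one_le_pow₀ hβ
  have hl11 : 1 ≤ 1 + (3 * L) ^ 11 := by
    have : 0 ≤ (3 * L) ^ 11 := by positivity
    linarith
  refine ⟨C₁ * (C₂ * (1 + (3 * L) ^ 11) * β ^ 22), ?_, fun h Δ₀ y₀ K S hΔ hy hK hS hS3 => ?_⟩
  · have a1 : 1 ≤ C₂ * (1 + (3 * L) ^ 11) := one_le_mul_of_one_le_of_one_le hC₂ hl11
    have a2 : 1 ≤ C₂ * (1 + (3 * L) ^ 11) * β ^ 22 := one_le_mul_of_one_le_of_one_le a1 hb22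
    exact one_le_mul_of_one_le_of_one_le hC₁ a2
  have hT0 : 0 < √(Δ₀ / y₀) := sqrt_pos.mpr (by positivity)
  have hH0 : 0 < K / √(Δ₀ / y₀) := by positivity
  have hle : ∀ f ∈ EE Δ₀ y₀ β, K / Tf f ≤ β * (K / √(Δ₀ / y₀)) := by
    intro f hf
    have hT := Tf_ge_g1 hβ hΔ hy hf
    have hTf : 0 < Tf f := hf.1
    rw [← mul_div_assoc, div_le_div_iff₀ hTf hT0]
    nlinarith
  by_cases hs : L * (β * (K / √(Δ₀ / y₀))) < 1 / 3
  · have h0 : ∫⁻ f in EE Δ₀ y₀ β, PP h L S K f = 0 := by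
      rw [← nonpos_iff_eq_zero]
      calc ∫⁻ f in EE Δ₀ y₀ β, PP h L S K f ≤ ∫⁻ _ in EE Δ₀ y₀ β, 0 := by
            apply setLIntegral_mono' (EE_meas _ _ _)
            intro f hf
            rw [PP_zero hL hK hS hS3 hf.1]
            exact (mul_le_mul_of_nonneg_left (hle f hf) hL0.le).trans_lt hs
        _ = 0 := lintegral_zero
    rw [h0]
    exact zero_le
  · push Not at hs
    have h3 : 1 ≤ 3 * L * (β * (K / √(Δ₀ / y₀))) := by linarith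
    have hbH : 0 < β * (K / √(Δ₀ / y₀)) := by positivity
    have hpt : ∀ f ∈ EE Δ₀ y₀ β, PP h L S K f ≤
        ENNReal.ofReal (C₂ * (1 + (3 * L) ^ 11) * β ^ 22 * (K / √(Δ₀ / y₀)) ^ 22) := by
      intro f hf
      refine (hp h S K f hK hS hS3 hf.1).trans (ENNReal.ofReal_le_ofReal ?_)
      have hTf : 0 < Tf f := hf.1
      have hKT : 0 < K / Tf f := by positivity
      have b1 : (K / Tf f) ^ 22 ≤ (β * (K / √(Δ₀ / y₀))) ^ 22 := pow_le_pow_left₀ hKT.le (hle f hf) 22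
      have b2 : (K / Tf f) ^ 11 ≤ (β * (K / √(Δ₀ / y₀))) ^ 11 := pow_le_pow_left₀ hKT.le (hle f hf) 11
      have b3 : (β * (K / √(Δ₀ / y₀))) ^ 11 ≤ (3 * L) ^ 11 * (β * (K / √(Δ₀ / y₀))) ^ 22 := by
        have c1 : 1 ≤ (3 * L * (β * (K / √(Δ₀ / y₀)))) ^ 11 := one_le_pow₀ h3
        have c2 : (3 * L) ^ 11 * (β * (K / √(Δ₀ / y₀))) ^ 22 =
            (3 * L * (β * (K / √(Δ₀ / y₀)))) ^ 11 * (β * (K / √(Δ₀ / y₀))) ^ 11 := by ring
        rw [c2]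
        exact le_mul_of_one_le_left (by positivity) c1
      calc C₂ * ((K / Tf f) ^ 22 + (K / Tf f) ^ 11)
          ≤ C₂ * ((β * (K / √(Δ₀ / y₀))) ^ 22 + (3 * L) ^ 11 * (β * (K / √(Δ₀ / y₀))) ^ 22) :=
            mul_le_mul_of_nonneg_left (add_le_add b1 (b2.trans b3)) (by linarith)
        _ = C₂ * (1 + (3 * L) ^ 11) * β ^ 22 * (K / √(Δ₀ / y₀)) ^ 22 := by
            rw [mul_pow]
            ring
    calc ∫⁻ f in EE Δ₀ y₀ β, PP h L S K f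
        ≤ ∫⁻ _ in EE Δ₀ y₀ β, ENNReal.ofReal (C₂ * (1 + (3 * L) ^ 11) * β ^ 22 * (K / √(Δ₀ / y₀)) ^ 22) :=
          setLIntegral_mono' (EE_meas _ _ _) hpt
      _ = ENNReal.ofReal (C₂ * (1 + (3 * L) ^ 11) * β ^ 22 * (K / √(Δ₀ / y₀)) ^ 22) * volume (EE Δ₀ y₀ β) :=
          setLIntegral_const _ _
      _ ≤ ENNReal.ofReal (C₂ * (1 + (3 * L) ^ 11) * β ^ 22 * (K / √(Δ₀ / y₀)) ^ 22) * ENNReal.ofReal (C₁ * (Δ₀ ^ 2 / y₀)) := by
          gcongr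
          exact hv Δ₀ y₀ hΔ hy
      _ = ENNReal.ofReal (C₁ * (C₂ * (1 + (3 * L) ^ 11) * β ^ 22) * (Δ₀ ^ 2 / y₀) * (K / √(Δ₀ / y₀)) ^ 22) := by
          rw [← ENNReal.ofReal_mul (by positivity)]
          congr 1
          ring

end Pool.Agent.Helper60.LT
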