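import Pool.Agent.Helper60.LT.A4

/-!
# LT-G3: finitely many cones

For `f : Fr` with `df f > 0`, `n` with `IsCoprime`, `g = ac n (co n) f` and real `(a, b)` put `k'₂ = n.1 b - n.2 a`, `k'₁ = a (co n).2 - b (co n).1`, `u' = k'₁ + xf g k'₂ = ⟨a e₁ + b e₂, g.1⟩/|g.1|²` (`e₁, e₂` the vectors of `f`, `g.1 = n.1 e₁ + n.2 e₂`).
PROOF. (1) Fix `f₀` and a unit vector `ω = (a, b)`. There are `n`, `S ∈ (0, 3]` with (at `f₀`) `u' > 0`, `|k'₂| < S u'`, `yf g · S < κ₁`: if `ω` has the direction of a primitive `n` then `k'₂ = 0`, `k'₁ > 0`, take `S` small. Otherwise, say `|b| ≤ |a|` and `a > 0` (the other cases by symmetry),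
Dirichlet (`Real.exists_int_int_abs_mul_sub_le` or `Rat`-version, divided by the gcd) gives primitive `n` with `n.1 > 0` arbitrarily large and `|n.2 - (b/a) n.1| ≤ 1/n.1` (infinitely many, as `b/a` is irrational: `Real.infinite_rat_abs_sub_lt_one_div_den_sq_of_irrational`); so `|k'₂| ≤ a/n.1`, `n/n.1 → ω/a`, hence `n.1 u' → a`
(`g.1/n.1 → (a e₁ + b e₂)/a`), `|k'₂| ≤ (3/2) u'` for large `n.1`, and `yf g = df f₀/|g.1|² → 0`: take `S = 3`.
(2) These strict inequalities hold for `(ω', f)` in a neighbourhood of `(ω, f₀)` (continuity; `df f > 0`, `|g.1| > 0`), there also `y₀/2 ≤ yf g ≤ 2 y₀` with `y₀ = yf g(f₀)`, `d₀/2 ≤ df f ≤ 2 d₀`.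
(3) Compactness of the unit circle: a number `m ≥ 3` such that for every `i < m` the closed sector of the angles `[2π i/m, 2π (i+1)/m]` is contained in one of these neighbourhoods, and one neighbourhood `V` of `f₀` (Lebesgue number, `lebesgue_number_lemma`, or a compactness argument with finitely many arcs);
the half open sectors `{0 ≤ - sin θ_i k₁ + cos θ_i k₂, 0 < sin θ_(i+1) k₁ - cos θ_(i+1) k₂}` are disjoint and cover all `k ≠ 0` (`k = |k| (cos φ, sin φ)`, the two numbers are `|k| sin (φ - θ_i)`, `|k| sin (θ_(i+1) - φ)`).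
(4) The bounds with `L`: shrink `V` to a compact neighbourhood (its interior is the `V` of the statement); `u'` is continuous and positive on the compact set (closed sector of unit vectors) × (compact neighbourhood), homogeneous in `k`.
-/

open MeasureTheory Real Set Filter Topology

set_option autoImplicit false

namespace Pool.Agent.Helper60.LT

open Pool.Agent.Helper22.AE
open Pool.Agent.Helper92.GC (dt tp Tq uu tt arc gs dd)

/-- the coordinates of `k` in the basis `n, co n` -/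
noncomputable def kp (n k : ℤ × ℤ) : ℤ × ℤ := (k.1 * (co n).2 - k.2 * (co n).1, n.1 * k.2 - n.2 * k.1)

/-- a cone given by two linear inequalities -/
def InC (α : (ℝ × ℝ) × (ℝ × ℝ)) (k : ℤ × ℤ) : Prop := 0 ≤ α.1.1 * k.1 + α.1.2 * k.2 ∧ 0 < α.2.1 * k.1 + α.2.2 * k.2

/-- scalar product of the vectors `a e₁ + b e₂`, `c e₁ + d e₂` -/
private noncomputable def ip56 (f : Fr) (a b c d : ℝ) : ℝ :=
  (a * f.1.1 + b * f.2.1) * (c * f.1.1 + d * f.2.1) + (a * f.1.2 + b * f.2.2) * (c * f.1.2 + d * f.2.2)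

private noncomputable def uf56 (f : Fr) (n : ℤ × ℤ) (a b : ℝ) : ℝ := ip56 f a b n.1 n.2 / ip56 f n.1 n.2 n.1 n.2

private lemma ip_nonneg56 (f : Fr) (c d : ℝ) : 0 ≤ ip56 f c d c d := by
  unfold ip56
  nlinarith [mul_self_nonneg (c * f.1.1 + d * f.2.1), mul_self_nonneg (c * f.1.2 + d * f.2.2)]

private lemma ip_pos56 {f : Fr} (hf : 0 < df f) {c d : ℝ} (h : c ≠ 0 ∨ d ≠ 0) : 0 < ip56 f c d c d := by
  refine lt_of_le_of_ne (ip_nonneg56 f c d) fun h0 => ?_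
  have h1 : (c * f.1.1 + d * f.2.1) * (c * f.1.1 + d * f.2.1) = 0 := by
    unfold ip56 at h0
    nlinarith [mul_self_nonneg (c * f.1.1 + d * f.2.1), mul_self_nonneg (c * f.1.2 + d * f.2.2)]
  have h2 : (c * f.1.2 + d * f.2.2) * (c * f.1.2 + d * f.2.2) = 0 := by
    unfold ip56 at h0
    nlinarith [mul_self_nonneg (c * f.1.1 + d * f.2.1), mul_self_nonneg (c * f.1.2 + d * f.2.2)]
  have h3 := mul_self_eq_zero.1 h1
  have h4 := mul_self_eq_zero.1 h2
  have h5 : c * df f = 0 := by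
    unfold df
    linear_combination f.2.2 * h3 - f.2.1 * h4
  have h6 : d * df f = 0 := by
    unfold df
    linear_combination -f.1.2 * h3 + f.1.1 * h4
  rcases h with h | h
  · exact h ((mul_eq_zero.1 h5).resolve_right hf.ne')
  · exact h ((mul_eq_zero.1 h6).resolve_right hf.ne')

private lemma int_ne56 {n : ℤ × ℤ} (hn : IsCoprime n.1 n.2) : ((n.1 : ℝ) ≠ 0 ∨ (n.2 : ℝ) ≠ 0) := by
  by_contra hcon
  push Not at hcon
  obtain ⟨h1, h2⟩ := hcon
  rw [Int.cast_eq_zero] at h1 h2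
  rw [h1, h2] at hn
  exact not_isCoprime_zero_zero hn

private lemma co_real56 {n : ℤ × ℤ} (hn : IsCoprime n.1 n.2) : (n.1 : ℝ) * ((co n).2 : ℝ) - (n.2 : ℝ) * ((co n).1 : ℝ) = 1 := by
  exact_mod_cast co_spec hn

private lemma Tf_ac56 (f : Fr) (n : ℤ × ℤ) : Tf (ac n (co n) f) = √(ip56 f n.1 n.2 n.1 n.2) := by
  unfold Tf ac vf ip56
  simp only
  congr 1
  ring

private lemma df_ac56 {f : Fr} {n : ℤ × ℤ} (hn : IsCoprime n.1 n.2) : df (ac n (co n) f) = df f := by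
  have h := co_real56 hn
  unfold df ac vf
  simp only
  linear_combination (f.1.1 * f.2.2 - f.1.2 * f.2.1) * h

private lemma yf_ac56 {f : Fr} {n : ℤ × ℤ} (hn : IsCoprime n.1 n.2) : yf (ac n (co n) f) = df f / ip56 f n.1 n.2 n.1 n.2 := by
  have h := df_ac56 (f := f) hn
  unfold yf
  rw [h]
  unfold ac vf ip56
  simp only
  congr 1
  ring

private lemma xf_ac56 (f : Fr) (n : ℤ × ℤ) : xf (ac n (co n) f) = ip56 f n.1 n.2 (co n).1 (co n).2 / ip56 f n.1 n.2 n.1 n.2 := by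
  unfold xf ac vf ip56
  simp only
  congr 1
  ring

private lemma uu_ac56 {f : Fr} {n : ℤ × ℤ} (hn : IsCoprime n.1 n.2) (hf : 0 < df f) (k : ℤ × ℤ) :
    uu (xf (ac n (co n) f)) (kp n k) = uf56 f n k.1 k.2 := by
  have h := co_real56 hn
  have hpos := ip_pos56 hf (int_ne56 hn)
  have key : ((k.1 : ℝ) * ((co n).2 : ℝ) - k.2 * ((co n).1 : ℝ)) * ip56 f n.1 n.2 n.1 n.2 +
      ip56 f n.1 n.2 (co n).1 (co n).2 * ((n.1 : ℝ) * k.2 - n.2 * k.1) = ip56 f k.1 k.2 n.1 n.2 := by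
    unfold ip56
    linear_combination (((k.1 : ℝ) * f.1.1 + k.2 * f.2.1) * (n.1 * f.1.1 + n.2 * f.2.1) +
      (k.1 * f.1.2 + k.2 * f.2.2) * (n.1 * f.1.2 + n.2 * f.2.2)) * h
  rw [xf_ac56]
  unfold uu kp uf56
  rw [eq_div_iff hpos.ne', ← key]
  push_cast
  field_simp

private lemma kp2_56 (n k : ℤ × ℤ) : ((kp n k).2 : ℝ) = n.1 * k.2 - n.2 * k.1 := by
  unfold kp
  push_cast
  ring


private lemma ip_smul56 (f : Fr) (s a b c d : ℝ) : ip56 f (s * a) (s * b) (s * c) (s * d) = s ^ 2 * ip56 f a b c d := by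
  unfold ip56
  ring

private lemma ip_smulr56 (f : Fr) (s a b c d : ℝ) : ip56 f a b (s * c) (s * d) = s * ip56 f a b c d := by
  unfold ip56
  ring

private lemma ip_smull56 (f : Fr) (s a b c d : ℝ) : ip56 f (s * a) (s * b) c d = s * ip56 f a b c d := by
  unfold ip56
  ring

private lemma dir_pos56 {f : Fr} (hf : 0 < df f) {κ₁ : ℝ} (hκ : 0 < κ₁) {a b : ℝ} (hab : 0 < a ∨ (a = 0 ∧ 0 < b)) :
    ∃ (n : ℤ × ℤ) (S : ℝ), IsCoprime n.1 n.2 ∧ 0 < S ∧ S ≤ 3 ∧ df f / ip56 f n.1 n.2 n.1 n.2 * S ≤ κ₁ ∧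
      |(n.1 : ℝ) * b - n.2 * a| < S * uf56 f n a b := by
  rcases hab with ha | ⟨ha, hb⟩
  · have hR0 : 0 < ip56 f a b a b := ip_pos56 hf (Or.inl ha.ne')
    have hc1 : Continuous (fun x : ℝ => ip56 f a x a x) := by
      unfold ip56
      fun_prop
    have hc2 : Continuous (fun x : ℝ => 3 * ip56 f a b a x - ip56 f a x a x) := by
      unfold ip56
      fun_prop
    have h1 : ∀ᶠ x in 𝓝 b, ip56 f a b a b / 2 < ip56 f a x a x :=
      (hc1.tendsto b).eventually (lt_mem_nhds (half_lt_self hR0))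
    have h2 : ∀ᶠ x in 𝓝 b, 0 < 3 * ip56 f a b a x - ip56 f a x a x :=
      (hc2.tendsto b).eventually (lt_mem_nhds (by linarith))
    obtain ⟨ε, hε, hball⟩ := Metric.eventually_nhds_iff.1 (h1.and h2)
    obtain ⟨N, hN⟩ := exists_nat_gt (max (a / ε) (6 * df f * a ^ 2 / (ip56 f a b a b * κ₁)))
    have hN1 : a / ε < N := lt_of_le_of_lt (le_max_left _ _) hN
    have hN2 : 6 * df f * a ^ 2 / (ip56 f a b a b * κ₁) < N := lt_of_le_of_lt (le_max_right _ _) hN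
    have hNpos : (0 : ℝ) < N := lt_trans (by positivity) hN1
    have hNn : 0 < N := by exact_mod_cast hNpos
    obtain ⟨q, hq1, hq2⟩ := Real.exists_rat_abs_sub_le_and_den_le (b / a) hNn
    have hden : (0 : ℝ) < q.den := by exact_mod_cast q.den_pos
    have hden1 : (1 : ℝ) ≤ q.den := by exact_mod_cast q.den_pos
    have hqd : (q : ℝ) * q.den = q.num := by exact_mod_cast Rat.mul_den_eq_num q
    -- the distance
    have hd : |(q.den : ℝ) * b - q.num * a| ≤ a / (N + 1) := by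
      have e : (q.den : ℝ) * b - q.num * a = (q.den * a) * (b / a - q) := by
        rw [← hqd]
        field_simp
      rw [e, abs_mul, abs_of_pos (by positivity)]
      calc q.den * a * |b / a - q| ≤ q.den * a * (1 / ((N + 1) * q.den)) := mul_le_mul_of_nonneg_left hq1 (by positivity)
        _ = a / (N + 1) := by field_simp
    have hx : dist (a * (q : ℝ)) b < ε := by
      rw [Real.dist_eq]
      have e : a * (q : ℝ) - b = -(((q.den : ℝ) * b - q.num * a) / q.den) := by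
        rw [← hqd]
        field_simp
        ring
      rw [e, abs_neg, abs_div, abs_of_pos hden, div_lt_iff₀ hden]
      rw [div_lt_iff₀ hε] at hN1
      calc |(q.den : ℝ) * b - q.num * a| ≤ a / (N + 1) := hd
        _ < ε := by
          rw [div_lt_iff₀ (by positivity)]
          nlinarith
        _ ≤ ε * q.den := by nlinarith
    obtain ⟨hx1, hx2⟩ := hball hx
    set x : ℝ := a * q with hxdef
    set R := ip56 f a x a x with hR
    have hRpos : 0 < R := lt_trans (by positivity) hx1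
    obtain ⟨t, ht⟩ : ∃ t : ℝ, t = q.den / a := ⟨_, rfl⟩
    have htpos : 0 < t := by
      rw [ht]
      positivity
    have hn1 : (q.den : ℝ) = t * a := by
      rw [ht]
      field_simp
    have hn2 : (q.num : ℝ) = t * x := by
      rw [ht, hxdef, ← hqd]
      field_simp
    have hip1 : ip56 f q.den q.num q.den q.num = t ^ 2 * R := by
      rw [hn1, hn2, ip_smul56]
    have hip2 : ip56 f a b q.den q.num = t * ip56 f a b a x := by
      rw [hn1, hn2, ip_smulr56]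
    refine ⟨((q.den : ℤ), q.num), 3 * q.den / (N + 1), ?_, by positivity, ?_, ?_, ?_⟩
    · have h3 := q.reduced
      exact (Int.isCoprime_iff_gcd_eq_one.2 (by simpa [Int.gcd, Nat.Coprime] using h3)).symm
    · rw [div_le_iff₀ (by positivity)]
      have : (q.den : ℝ) ≤ N := by exact_mod_cast hq2
      linarith
    · simp only [Int.cast_natCast]
      rw [hip1]
      have e : df f / (t ^ 2 * R) * (3 * q.den / (N + 1)) = 3 * df f * a ^ 2 / (R * (q.den * (N + 1))) := by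
        rw [ht]
        field_simp
      rw [e, div_le_iff₀ (by positivity)]
      rw [div_lt_iff₀ (by positivity)] at hN2
      have h4 : 3 * df f * a ^ 2 ≤ κ₁ * (ip56 f a b a b / 2 * N) := by nlinarith
      have h5 : ip56 f a b a b / 2 * N ≤ R * (q.den * (N + 1)) := by
        refine mul_le_mul hx1.le ?_ hNpos.le hRpos.le
        nlinarith
      exact h4.trans (mul_le_mul_of_nonneg_left h5 hκ.le)
    · simp only [Int.cast_natCast]
      unfold uf56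
      simp only [Int.cast_natCast]
      rw [hip1, hip2]
      have e : 3 * q.den / (N + 1) * (t * ip56 f a b a x / (t ^ 2 * R)) = a * (3 * ip56 f a b a x) / ((N + 1) * R) := by
        rw [ht]
        field_simp
      rw [e]
      refine lt_of_le_of_lt hd ?_
      rw [div_lt_div_iff₀ (by positivity) (by positivity)]
      have h6 : a * (N + 1) * R < a * (N + 1) * (3 * ip56 f a b a x) := mul_lt_mul_of_pos_left (by linarith) (by positivity)
      linarith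
  · subst ha
    have hR0 : 0 < ip56 f 0 1 0 1 := ip_pos56 hf (Or.inr one_ne_zero)
    have hy : 0 < df f / ip56 f 0 1 0 1 := by positivity
    refine ⟨(0, 1), min 3 (κ₁ / (df f / ip56 f 0 1 0 1)), isCoprime_zero_left.2 isUnit_one, lt_min (by norm_num) (by positivity),
      min_le_left _ _, ?_, ?_⟩
    · simp only [Int.cast_zero, Int.cast_one]
      calc df f / ip56 f 0 1 0 1 * min 3 (κ₁ / (df f / ip56 f 0 1 0 1)) ≤
          df f / ip56 f 0 1 0 1 * (κ₁ / (df f / ip56 f 0 1 0 1)) := mul_le_mul_of_nonneg_left (min_le_right _ _) hy.le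
        _ = κ₁ := by field_simp
    · unfold uf56
      simp only [Int.cast_zero, Int.cast_one]
      have e : ip56 f 0 b 0 1 = b * ip56 f 0 1 0 1 := by
        unfold ip56
        ring
      rw [e, mul_div_assoc, div_self hR0.ne']
      simp only [zero_mul, mul_zero, sub_zero, abs_zero, mul_one]
      have : 0 < min 3 (κ₁ / (df f / ip56 f 0 1 0 1)) := lt_min (by norm_num) (by positivity)
      positivity

private lemma dir56 {f : Fr} (hf : 0 < df f) {κ₁ : ℝ} (hκ : 0 < κ₁) {a b : ℝ} (hab : a ≠ 0 ∨ b ≠ 0) :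
    ∃ (n : ℤ × ℤ) (S : ℝ), IsCoprime n.1 n.2 ∧ 0 < S ∧ S ≤ 3 ∧ df f / ip56 f n.1 n.2 n.1 n.2 * S ≤ κ₁ ∧
      |(n.1 : ℝ) * b - n.2 * a| < S * uf56 f n a b := by
  by_cases hpos : 0 < a ∨ (a = 0 ∧ 0 < b)
  · exact dir_pos56 hf hκ hpos
  · have h1 : 0 < -a ∨ (-a = 0 ∧ 0 < -b) := by
      push Not at hpos
      rcases lt_trichotomy a 0 with h | h | h
      · left; linarith
      · right
        have h2 := hpos.2 h
        refine ⟨by linarith, ?_⟩
        rcases hab with h3 | h3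
        · exact absurd h h3
        · have := lt_of_le_of_ne h2 h3
          linarith
      · exact absurd h (not_lt.2 hpos.1)
    obtain ⟨n, S, h2, h3, h4, h5, h6⟩ := dir_pos56 hf hκ h1
    refine ⟨(-n.1, -n.2), S, h2.neg_neg, h3, h4, ?_, ?_⟩
    · simp only [Int.cast_neg]
      have e : ip56 f (-(n.1 : ℝ)) (-(n.2 : ℝ)) (-(n.1 : ℝ)) (-(n.2 : ℝ)) = ip56 f n.1 n.2 n.1 n.2 := by
        unfold ip56
        ring
      rw [e]
      exact h5
    · unfold uf56 at h6 ⊢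
      simp only [Int.cast_neg]
      have e : ip56 f (-(n.1 : ℝ)) (-(n.2 : ℝ)) (-(n.1 : ℝ)) (-(n.2 : ℝ)) = ip56 f n.1 n.2 n.1 n.2 := by
        unfold ip56
        ring
      have e2 : ip56 f a b (-(n.1 : ℝ)) (-(n.2 : ℝ)) = ip56 f (-a) (-b) n.1 n.2 := by
        unfold ip56
        ring
      have e3 : -(n.1 : ℝ) * b - -(n.2 : ℝ) * a = n.1 * (-b) - n.2 * (-a) := by ring
      rw [e, e2, e3]
      exact h6

private lemma sector56 {θ θ' φ : ℝ} (h1 : 0 ≤ θ) (h2 : θ < θ') (h3 : θ' ≤ 2 * π) (h4 : θ' - θ < π) (hφ0 : 0 ≤ φ) (hφ1 : φ < 2 * π) :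
    (0 ≤ sin (φ - θ) ∧ 0 < sin (θ' - φ)) ↔ (θ ≤ φ ∧ φ < θ') := by
  constructor
  · rintro ⟨ha, hb⟩
    have h5 : θ ≤ φ := by
      by_contra hcon
      push Not at hcon
      have h6 : φ - θ ≤ -π := by
        by_contra h7
        push Not at h7
        have := sin_neg_of_neg_of_neg_pi_lt (by linarith : φ - θ < 0) h7
        linarith
      have h8 : sin (θ' - φ) = -sin (θ' - φ - π) := by
        rw [sin_sub_pi, neg_neg]
      have h9 : 0 ≤ sin (θ' - φ - π) := sin_nonneg_of_nonneg_of_le_pi (by linarith) (by linarith)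
      linarith
    refine ⟨h5, ?_⟩
    by_contra hcon
    push Not at hcon
    have h6 : θ' - φ < -π := by
      by_contra h7
      push Not at h7
      have := sin_nonpos_of_nonpos_of_neg_pi_le (by linarith : θ' - φ ≤ 0) h7
      linarith
    have h8 : sin (φ - θ) = -sin (φ - θ - π) := by
      rw [sin_sub_pi, neg_neg]
    have h9 : 0 < sin (φ - θ - π) := sin_pos_of_pos_of_lt_pi (by linarith) (by linarith)
    linarith
  · rintro ⟨ha, hb⟩
    exact ⟨sin_nonneg_of_nonneg_of_le_pi (by linarith) (by linarith), sin_pos_of_pos_of_lt_pi (by linarith) (by linarith)⟩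

private lemma polar56 {a b : ℝ} (h : a ≠ 0 ∨ b ≠ 0) : ∃ r φ : ℝ, 0 < r ∧ 0 ≤ φ ∧ φ < 2 * π ∧ a = r * cos φ ∧ b = r * sin φ := by
  obtain ⟨z, hz⟩ : ∃ z : ℂ, z = ⟨a, b⟩ := ⟨_, rfl⟩
  have hz0 : z ≠ 0 := by
    rintro rfl
    rcases h with h | h
    · exact h (congrArg Complex.re hz).symm
    · exact h (congrArg Complex.im hz).symm
  have h1 := Complex.norm_mul_cos_arg z
  have h2 := Complex.norm_mul_sin_arg z
  have h3 : z.re = a := by rw [hz]
  have h4 : z.im = b := by rw [hz]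
  rw [h3] at h1
  rw [h4] at h2
  have h5 := Complex.neg_pi_lt_arg z
  have h6 := Complex.arg_le_pi z
  by_cases h7 : 0 ≤ Complex.arg z
  · exact ⟨‖z‖, Complex.arg z, norm_pos_iff.2 hz0, h7, by linarith [pi_pos], h1.symm, h2.symm⟩
  · push Not at h7
    refine ⟨‖z‖, Complex.arg z + 2 * π, norm_pos_iff.2 hz0, by linarith, by linarith, ?_, ?_⟩
    · rw [cos_add_two_pi]
      exact h1.symm
    · rw [sin_add_two_pi]
      exact h2.symm

private lemma inC_iff56 {θ θ' φ r : ℝ} (h1 : 0 ≤ θ) (h2 : θ < θ') (h3 : θ' ≤ 2 * π) (h4 : θ' - θ < π) (hφ0 : 0 ≤ φ) (hφ1 : φ < 2 * π)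
    (hr : 0 < r) {k : ℤ × ℤ} (hk1 : (k.1 : ℝ) = r * cos φ) (hk2 : (k.2 : ℝ) = r * sin φ) :
    InC ((-sin θ, cos θ), (sin θ', -cos θ')) k ↔ (θ ≤ φ ∧ φ < θ') := by
  rw [← sector56 h1 h2 h3 h4 hφ0 hφ1]
  unfold InC
  simp only
  have e1 : -sin θ * (k.1 : ℝ) + cos θ * k.2 = r * sin (φ - θ) := by
    rw [hk1, hk2, sin_sub]
    ring
  have e2 : sin θ' * (k.1 : ℝ) + -cos θ' * k.2 = r * sin (θ' - φ) := by
    rw [hk1, hk2, sin_sub]
    ring
  rw [e1, e2, mul_nonneg_iff_of_pos_left hr, mul_pos_iff_of_pos_left hr]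

private lemma int_ne0_56 {k : ℤ × ℤ} (hk : k ≠ 0) : ((k.1 : ℝ) ≠ 0 ∨ (k.2 : ℝ) ≠ 0) := by
  by_contra hcon
  push Not at hcon
  obtain ⟨h1, h2⟩ := hcon
  rw [Int.cast_eq_zero] at h1 h2
  exact hk (Prod.ext h1 h2)

theorem cover {f₀ : Fr} (hf : 0 < df f₀) {κ₁ : ℝ} (hκ : 0 < κ₁) : ∃ (V : Set Fr) (L : ℝ) (m : ℕ) (n : Fin m → ℤ × ℤ) (S y₀ : Fin m → ℝ) (α : Fin m → (ℝ × ℝ) × (ℝ × ℝ)),
    IsOpen V ∧ f₀ ∈ V ∧ 1 ≤ L ∧ (∀ i, IsCoprime (n i).1 (n i).2 ∧ 0 < S i ∧ S i ≤ 3 ∧ 0 < y₀ i ∧ y₀ i * S i ≤ κ₁) ∧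
      (∀ k : ℤ × ℤ, k ≠ 0 → ∃ i, InC (α i) k) ∧ (∀ (k : ℤ × ℤ) (i j : Fin m), k ≠ 0 → InC (α i) k → InC (α j) k → i = j) ∧
      ∀ f ∈ V, df f₀ ≤ 2 * df f ∧ df f ≤ 2 * df f₀ ∧ ∀ i, 1 / L ≤ Tf (ac (n i) (co (n i)) f) ∧ Tf (ac (n i) (co (n i)) f) ≤ L ∧
        |xf (ac (n i) (co (n i)) f)| ≤ L ∧ y₀ i ≤ 2 * yf (ac (n i) (co (n i)) f) ∧ yf (ac (n i) (co (n i)) f) ≤ 2 * y₀ i ∧
        ∀ k : ℤ × ℤ, k ≠ 0 → InC (α i) k → (|(k.1 : ℝ)| + |(k.2 : ℝ)|) / L ≤ uu (xf (ac (n i) (co (n i)) f)) (kp (n i) k) ∧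
          uu (xf (ac (n i) (co (n i)) f)) (kp (n i) k) ≤ L * (|(k.1 : ℝ)| + |(k.2 : ℝ)|) ∧
          |((kp (n i) k).2 : ℝ)| ≤ S i * uu (xf (ac (n i) (co (n i)) f)) (kp (n i) k) := by
  classical
  have hopen : ∀ x : {x : (ℤ × ℤ) × ℝ // IsCoprime x.1.1 x.1.2 ∧ 0 < x.2 ∧ x.2 ≤ 3 ∧
      df f₀ / ip56 f₀ x.1.1 x.1.2 x.1.1 x.1.2 * x.2 ≤ κ₁},
      IsOpen {φ : ℝ | |(x.1.1.1 : ℝ) * sin φ - x.1.1.2 * cos φ| < x.1.2 * uf56 f₀ x.1.1 (cos φ) (sin φ)} := by
    intro x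
    refine isOpen_lt (by fun_prop) ?_
    unfold uf56 ip56
    fun_prop
  have hcov : Icc 0 (2 * π) ⊆ ⋃ x : {x : (ℤ × ℤ) × ℝ // IsCoprime x.1.1 x.1.2 ∧ 0 < x.2 ∧ x.2 ≤ 3 ∧
      df f₀ / ip56 f₀ x.1.1 x.1.2 x.1.1 x.1.2 * x.2 ≤ κ₁},
      {φ : ℝ | |(x.1.1.1 : ℝ) * sin φ - x.1.1.2 * cos φ| < x.1.2 * uf56 f₀ x.1.1 (cos φ) (sin φ)} := by
    intro φ _
    obtain ⟨n, S, h1, h2, h3, h4, h5⟩ := dir56 hf hκ (a := cos φ) (b := sin φ) (by
      by_contra hcon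
      push Not at hcon
      have := sin_sq_add_cos_sq φ
      rw [hcon.1, hcon.2] at this
      norm_num at this)
    exact mem_iUnion.2 ⟨⟨(n, S), h1, h2, h3, h4⟩, h5⟩
  obtain ⟨δ, hδ, hleb⟩ := lebesgue_number_lemma_of_metric isCompact_Icc hopen hcov
  obtain ⟨M, hM⟩ := exists_nat_gt (2 * π / δ)
  obtain ⟨m, hm⟩ : ∃ m : ℕ, m = max M 3 := ⟨_, rfl⟩
  have hm3 : 3 ≤ m := by rw [hm]; exact le_max_right _ _
  have hmM : (M : ℝ) ≤ m := by
    rw [hm]
    exact_mod_cast le_max_left _ _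
  have hm3r : (3 : ℝ) ≤ m := by exact_mod_cast hm3
  have hmpos : (0 : ℝ) < m := by linarith
  have hmδ : 2 * π / m < δ := by
    rw [div_lt_iff₀ hmpos]
    rw [div_lt_iff₀ hδ] at hM
    nlinarith
  obtain ⟨θ, hθ⟩ : ∃ θ : ℕ → ℝ, ∀ i, θ i = 2 * π / m * i := ⟨_, fun i => rfl⟩
  have hstep : 0 < 2 * π / m := by positivity
  have hθ0 : ∀ i, 0 ≤ θ i := fun i => by rw [hθ]; positivity
  have hθs : ∀ i, θ (i + 1) = θ i + 2 * π / m := fun i => by
    rw [hθ, hθ]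
    push_cast
    ring
  have hθm : ∀ i, i < m → θ (i + 1) ≤ 2 * π := by
    intro i hi
    rw [hθ]
    have h1 : ((i + 1 : ℕ) : ℝ) ≤ m := by exact_mod_cast hi
    calc 2 * π / m * ((i + 1 : ℕ) : ℝ) ≤ 2 * π / m * m := mul_le_mul_of_nonneg_left h1 hstep.le
      _ = 2 * π := by field_simp
  have hθπ : ∀ i, θ (i + 1) - θ i < π := by
    intro i
    rw [hθs, add_sub_cancel_left, div_lt_iff₀ hmpos]
    nlinarith [pi_pos]
  have hθlt : ∀ i, θ i < θ (i + 1) := fun i => by rw [hθs]; linarith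
  have hsel : ∀ i : Fin m, ∃ x : {x : (ℤ × ℤ) × ℝ // IsCoprime x.1.1 x.1.2 ∧ 0 < x.2 ∧ x.2 ≤ 3 ∧
      df f₀ / ip56 f₀ x.1.1 x.1.2 x.1.1 x.1.2 * x.2 ≤ κ₁},
      Metric.ball (θ i) δ ⊆ {φ : ℝ | |(x.1.1.1 : ℝ) * sin φ - x.1.1.2 * cos φ| < x.1.2 * uf56 f₀ x.1.1 (cos φ) (sin φ)} :=
    fun i => hleb _ ⟨hθ0 i, (hθlt i).le.trans (hθm i i.2)⟩
  choose x hx using hsel
  have hsec : ∀ i : Fin m, ∀ φ ∈ Icc (θ i) (θ (i + 1)), |((x i).1.1.1 : ℝ) * sin φ - (x i).1.1.2 * cos φ| <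
      (x i).1.2 * uf56 f₀ (x i).1.1 (cos φ) (sin φ) := by
    intro i φ hφ
    apply hx i
    rw [Metric.mem_ball, Real.dist_eq, abs_of_nonneg (by linarith [hφ.1])]
    have := hφ.2
    rw [hθs] at this
    linarith
  have hnz : ∀ i : Fin m, 0 < ip56 f₀ (x i).1.1.1 (x i).1.1.2 (x i).1.1.1 (x i).1.1.2 := fun i => ip_pos56 hf (int_ne56 (x i).2.1)
  have hupos : ∀ i : Fin m, ∀ φ ∈ Icc (θ i) (θ (i + 1)), 0 < uf56 f₀ (x i).1.1 (cos φ) (sin φ) := by
    intro i φ hφ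
    have h1 := lt_of_le_of_lt (abs_nonneg _) (hsec i φ hφ)
    exact (mul_pos_iff_of_pos_left (x i).2.2.1).1 h1
  have hC : ∀ i : Fin m, ∃ C : ℝ, 1 ≤ C ∧ (∀ φ ∈ Icc (θ i) (θ (i + 1)), 1 / C < uf56 f₀ (x i).1.1 (cos φ) (sin φ) ∧
      uf56 f₀ (x i).1.1 (cos φ) (sin φ) < C) ∧ 1 / C < Tf (ac (x i).1.1 (co (x i).1.1) f₀) ∧
      Tf (ac (x i).1.1 (co (x i).1.1) f₀) < C ∧ |xf (ac (x i).1.1 (co (x i).1.1) f₀)| < C := by
    intro i
    have hc : Continuous (fun φ : ℝ => uf56 f₀ (x i).1.1 (cos φ) (sin φ)) := by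
      unfold uf56 ip56
      fun_prop
    obtain ⟨C₁, hC₁⟩ := (isCompact_Icc (a := θ i) (b := θ (i + 1))).exists_bound_of_continuousOn hc.continuousOn
    obtain ⟨C₂, hC₂⟩ := (isCompact_Icc (a := θ i) (b := θ (i + 1))).exists_bound_of_continuousOn
      (hc.continuousOn.inv₀ (fun φ hφ => (hupos i φ hφ).ne'))
    have hT : 0 < Tf (ac (x i).1.1 (co (x i).1.1) f₀) := by
      rw [Tf_ac56]
      exact Real.sqrt_pos.2 (hnz i)
    obtain ⟨τ, hτ⟩ : ∃ τ, τ = Tf (ac (x i).1.1 (co (x i).1.1) f₀) := ⟨_, rfl⟩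
    rw [← hτ] at hT ⊢
    have h0 : 0 < τ⁻¹ := inv_pos.2 hT
    have hCC : 0 ≤ |xf (ac (x i).1.1 (co (x i).1.1) f₀)| := abs_nonneg _
    refine ⟨1 + |C₁| + |C₂| + τ + τ⁻¹ + |xf (ac (x i).1.1 (co (x i).1.1) f₀)|, ?_, ?_, ?_, ?_, ?_⟩
    · linarith [abs_nonneg C₁, abs_nonneg C₂]
    · intro φ hφ
      have h1 := hC₁ φ hφ
      have h2 := hC₂ φ hφ
      have h3 := hupos i φ hφ
      rw [Real.norm_eq_abs, abs_of_pos h3] at h1
      rw [Real.norm_eq_abs, Pi.inv_apply, abs_of_pos (inv_pos.2 h3)] at h2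
      constructor
      · rw [one_div, inv_lt_comm₀ (by positivity) h3]
        linarith [abs_nonneg C₁, le_abs_self C₂]
      · linarith [le_abs_self C₁, abs_nonneg C₂]
    · rw [one_div, inv_lt_comm₀ (by positivity) hT]
      linarith [abs_nonneg C₁, abs_nonneg C₂]
    · linarith [abs_nonneg C₁, abs_nonneg C₂]
    · linarith [abs_nonneg C₁, abs_nonneg C₂]
  choose C hC1 hC2 hC3 hC4 hC5 using hC
  obtain ⟨L₀, hL₀, hCL⟩ : ∃ L₀ : ℝ, 1 ≤ L₀ ∧ ∀ i, C i ≤ L₀ := by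
    obtain ⟨B, hB⟩ := (Set.finite_range C).bddAbove
    exact ⟨max 1 B, le_max_left _ _, fun i => (hB ⟨i, rfl⟩).trans (le_max_right _ _)⟩
  have hinv : ∀ i, 1 / L₀ ≤ 1 / C i := fun i => one_div_le_one_div_of_le (by linarith [hC1 i]) (hCL i)
  have hy₀ : ∀ i, 0 < df f₀ / ip56 f₀ (x i).1.1.1 (x i).1.1.2 (x i).1.1.1 (x i).1.1.2 := fun i => div_pos hf (hnz i)
  -- the neighbourhood
  have hcip : ∀ a b c d : ℝ, Continuous (fun f : Fr => ip56 f a b c d) := by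
    intro a b c d
    unfold ip56
    fun_prop
  have hcdf : Continuous df := by
    unfold df
    fun_prop
  have hev : ∀ᶠ f in 𝓝 f₀, df f₀ < 2 * df f ∧ df f < 2 * df f₀ ∧ ∀ i : Fin m,
      1 / L₀ < Tf (ac (x i).1.1 (co (x i).1.1) f) ∧ Tf (ac (x i).1.1 (co (x i).1.1) f) < L₀ ∧
      |xf (ac (x i).1.1 (co (x i).1.1) f)| < L₀ ∧
      df f₀ / ip56 f₀ (x i).1.1.1 (x i).1.1.2 (x i).1.1.1 (x i).1.1.2 < 2 * yf (ac (x i).1.1 (co (x i).1.1) f) ∧
      yf (ac (x i).1.1 (co (x i).1.1) f) < 2 * (df f₀ / ip56 f₀ (x i).1.1.1 (x i).1.1.2 (x i).1.1.1 (x i).1.1.2) ∧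
      ∀ φ ∈ Icc (θ i) (θ (i + 1)), 1 / L₀ < uf56 f (x i).1.1 (cos φ) (sin φ) ∧ uf56 f (x i).1.1 (cos φ) (sin φ) < L₀ ∧
        |((x i).1.1.1 : ℝ) * sin φ - (x i).1.1.2 * cos φ| < (x i).1.2 * uf56 f (x i).1.1 (cos φ) (sin φ) := by
    have hc2 : Continuous (fun f : Fr => 2 * df f) := continuous_const.mul hcdf
    refine ((hc2.tendsto f₀).eventually (lt_mem_nhds (by linarith))).and
      (((hcdf.tendsto f₀).eventually (gt_mem_nhds (by linarith))).and (eventually_all.2 fun i => ?_))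
    have hT : ContinuousAt (fun f : Fr => Tf (ac (x i).1.1 (co (x i).1.1) f)) f₀ := by
      simp only [Tf_ac56]
      exact ((hcip _ _ _ _).sqrt).continuousAt
    have hX : ContinuousAt (fun f : Fr => |xf (ac (x i).1.1 (co (x i).1.1) f)|) f₀ := by
      simp only [xf_ac56]
      exact ((hcip _ _ _ _).continuousAt.div (hcip _ _ _ _).continuousAt (hnz i).ne').abs
    have hY : ContinuousAt (fun f : Fr => yf (ac (x i).1.1 (co (x i).1.1) f)) f₀ := by
      simp only [yf_ac56 (x i).2.1]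
      exact hcdf.continuousAt.div (hcip _ _ _ _).continuousAt (hnz i).ne'
    refine (hT.eventually (lt_mem_nhds (lt_of_le_of_lt (hinv i) (hC3 i)))).and
      ((hT.eventually (gt_mem_nhds (lt_of_lt_of_le (hC4 i) (hCL i)))).and
      ((hX.eventually (gt_mem_nhds (lt_of_lt_of_le (hC5 i) (hCL i)))).and
      (((hY.const_mul 2).eventually (lt_mem_nhds ?_)).and ((hY.eventually (gt_mem_nhds ?_)).and ?_))))
    · have e : yf (ac (x i).1.1 (co (x i).1.1) f₀) = df f₀ / ip56 f₀ (x i).1.1.1 (x i).1.1.2 (x i).1.1.1 (x i).1.1.2 :=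
        yf_ac56 (x i).2.1
      dsimp only
      rw [e]
      linarith [hy₀ i]
    · have e : yf (ac (x i).1.1 (co (x i).1.1) f₀) = df f₀ / ip56 f₀ (x i).1.1.1 (x i).1.1.2 (x i).1.1.1 (x i).1.1.2 :=
        yf_ac56 (x i).2.1
      dsimp only
      rw [e]
      linarith [hy₀ i]
    · refine isCompact_Icc.eventually_forall_of_forall_eventually (P := fun f φ => 1 / L₀ < uf56 f (x i).1.1 (cos φ) (sin φ) ∧
        uf56 f (x i).1.1 (cos φ) (sin φ) < L₀ ∧ |((x i).1.1.1 : ℝ) * sin φ - (x i).1.1.2 * cos φ| <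
          (x i).1.2 * uf56 f (x i).1.1 (cos φ) (sin φ)) fun φ hφ => ?_
      have hU : ContinuousAt (fun z : Fr × ℝ => uf56 z.1 (x i).1.1 (cos z.2) (sin z.2)) (f₀, φ) := by
        unfold uf56
        refine ContinuousAt.div ?_ ?_ (hnz i).ne'
        · unfold ip56
          fun_prop
        · unfold ip56
          fun_prop
      have hK : ContinuousAt (fun z : Fr × ℝ => |((x i).1.1.1 : ℝ) * sin z.2 - (x i).1.1.2 * cos z.2|) (f₀, φ) := by
        fun_prop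
      obtain ⟨h1, h2⟩ := hC2 i φ hφ
      exact (hU.eventually (lt_mem_nhds (lt_of_le_of_lt (hinv i) h1))).and
        ((hU.eventually (gt_mem_nhds (lt_of_lt_of_le h2 (hCL i)))).and
        (hK.eventually_lt (continuousAt_const.mul hU) (hsec i φ hφ)))
  obtain ⟨V, hV, hVo, hfV⟩ := eventually_nhds_iff.1 hev
  have hkey : ∀ (k : ℤ × ℤ), k ≠ 0 → ∃ r φ : ℝ, 0 < r ∧ 0 ≤ φ ∧ φ < 2 * π ∧ (k.1 : ℝ) = r * cos φ ∧ (k.2 : ℝ) = r * sin φ ∧
      ∀ i : Fin m, InC ((-sin (θ i), cos (θ i)), (sin (θ (i + 1)), -cos (θ (i + 1)))) k ↔ (θ i ≤ φ ∧ φ < θ (i + 1)) := by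
    intro k hk
    obtain ⟨r, φ, hr, h0, h1, h2, h3⟩ := polar56 (int_ne0_56 hk)
    exact ⟨r, φ, hr, h0, h1, h2, h3, fun i => inC_iff56 (hθ0 i) (hθlt i) (hθm i i.2) (hθπ i) h0 h1 hr h2 h3⟩
  refine ⟨V, 2 * L₀, m, fun i => (x i).1.1, fun i => (x i).1.2, fun i => df f₀ / ip56 f₀ (x i).1.1.1 (x i).1.1.2 (x i).1.1.1 (x i).1.1.2,
    fun i => ((-sin (θ i), cos (θ i)), (sin (θ (i + 1)), -cos (θ (i + 1)))), hVo, hfV, by linarith, ?_, ?_, ?_, ?_⟩
  · intro i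
    exact ⟨(x i).2.1, (x i).2.2.1, (x i).2.2.2.1, hy₀ i, (x i).2.2.2.2⟩
  · intro k hk
    obtain ⟨r, φ, hr, h0, h1, -, -, h4⟩ := hkey k hk
    have h5 : φ / (2 * π / m) < m := by
      rw [div_lt_iff₀ hstep]
      calc φ < 2 * π := h1
        _ = m * (2 * π / m) := by field_simp
    have h6 : ⌊φ / (2 * π / m)⌋₊ < m := by
      rw [Nat.floor_lt (by positivity)]
      exact h5
    refine ⟨⟨⌊φ / (2 * π / m)⌋₊, h6⟩, (h4 _).2 ⟨?_, ?_⟩⟩
    · have h7 := Nat.floor_le (show 0 ≤ φ / (2 * π / m) by positivity)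
      rw [le_div_iff₀ hstep] at h7
      rw [hθ]
      linarith
    · have h7 := Nat.lt_floor_add_one (φ / (2 * π / m))
      rw [div_lt_iff₀ hstep] at h7
      rw [hθ]
      push_cast
      linarith
  · intro k i j hk hi hj
    obtain ⟨r, φ, hr, h0, h1, -, -, h4⟩ := hkey k hk
    have h5 := (h4 i).1 hi
    have h6 := (h4 j).1 hj
    have h7 : ∀ a b : ℕ, θ a < θ b → a < b := by
      intro a b hab
      rw [hθ, hθ] at hab
      exact_mod_cast lt_of_mul_lt_mul_left hab hstep.le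
    have h8 := h7 i (j + 1) (lt_of_le_of_lt h5.1 h6.2)
    have h9 := h7 j (i + 1) (lt_of_le_of_lt h6.1 h5.2)
    exact Fin.ext (by omega)
  · intro f hfm
    obtain ⟨g1, g2, g3⟩ := hV f hfm
    have hdf : 0 < df f := by linarith
    refine ⟨g1.le, g2.le, fun i => ?_⟩
    obtain ⟨a1, a2, a3, a4, a5, a6⟩ := g3 i
    have hL2 : 1 / (2 * L₀) ≤ 1 / L₀ := one_div_le_one_div_of_le (by linarith) (by linarith)
    refine ⟨hL2.trans a1.le, by linarith, by linarith, a4.le, a5.le, fun k hk hin => ?_⟩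
    obtain ⟨r, φ, hr, h0, h1, h2, h3, h4⟩ := hkey k hk
    obtain ⟨h5, h6⟩ := (h4 i).1 hin
    obtain ⟨b1, b2, b3⟩ := a6 φ ⟨h5, h6.le⟩
    have e1 : uf56 f (x i).1.1 (k.1 : ℝ) (k.2 : ℝ) = r * uf56 f (x i).1.1 (cos φ) (sin φ) := by
      unfold uf56
      rw [h2, h3, ip_smull56, mul_div_assoc]
    rw [uu_ac56 (x i).2.1 hdf, e1, kp2_56, h2, h3]
    have hca := abs_cos_le_one φ
    have hsa := abs_sin_le_one φ
    have hcs : 1 ≤ |cos φ| + |sin φ| := by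
      have h7 := sin_sq_add_cos_sq φ
      rw [← sq_abs (sin φ), ← sq_abs (cos φ)] at h7
      nlinarith [abs_nonneg (cos φ), abs_nonneg (sin φ)]
    have hsum : |r * cos φ| + |r * sin φ| = r * (|cos φ| + |sin φ|) := by
      rw [abs_mul, abs_mul, abs_of_pos hr]
      ring
    rw [hsum]
    refine ⟨?_, ?_, ?_⟩
    · rw [div_le_iff₀ (by linarith)]
      rw [div_lt_iff₀ (by linarith)] at b1
      nlinarith
    · have h8 : r * uf56 f (x i).1.1 (cos φ) (sin φ) ≤ r * L₀ := mul_le_mul_of_nonneg_left b2.le hr.le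
      have h9 : r * L₀ * 1 ≤ r * L₀ * (|cos φ| + |sin φ|) := mul_le_mul_of_nonneg_left hcs (by positivity)
      nlinarith
    · have e2 : ((x i).1.1.1 : ℝ) * (r * sin φ) - (x i).1.1.2 * (r * cos φ) =
          r * (((x i).1.1.1 : ℝ) * sin φ - (x i).1.1.2 * cos φ) := by ring
      rw [e2, abs_mul, abs_of_pos hr]
      calc r * |((x i).1.1.1 : ℝ) * sin φ - (x i).1.1.2 * cos φ| ≤ r * ((x i).1.2 * uf56 f (x i).1.1 (cos φ) (sin φ)) :=
            mul_le_mul_of_nonneg_left b3.le hr.le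
        _ = _ := by ring

end Pool.Agent.Helper60.LT
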