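import Pool.Agent.Helper60.LT.A3
import Pool.Agent.Helper60.LT.D1
import Pool.Agent.Helper60.LT.G3
import Pool.Agent.Helper92.GC.D2

/-!
# LT-G4: lemmas for the moment theorem on compact sets

PROOFS. `transfer0`: see the proof of `transfer` (A3): `k = (kp n k).1 n + (kp n k).2 co n` (`co_spec`), `vf f k = vf (ac n (co n) f) (kp n k)`; the image of `I` under the injective additive map `kp n` is contained in `st L S K ..` (`mem_st`), `m12_image`, `m12_cut`.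
`shear_red`: the set is the disjoint union over `j ∈ [-m, m)` of the sets with `xf f ∈ [j, j + 1)`; the shear `σ f = (f.1, f.2 + f.1)` preserves the measure (determinant one), `xf (σ f) = xf f + 1`, `Tf`, `df`, `yf` are not changed, so each of the `2m` integrals is the integral over `EE Δ₀ y₀ β` (`Φ` invariant).
`int_scl`: the linear map `f ↦ ac n (co n) (scl r f)` of `ℝ⁴` is injective with determinant `r⁴` (`MeasureTheory.lintegral_image_eq_lintegral_abs_det_fderiv_mul`, or `Measure.addHaar_preimage_linearMap`; or: `ac n (co n)` preserves the measure, dilation by `r`).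
`sqa_cut`: `sqa N ∩ cone = (P \ Q) ∩ cone`, `P = {|k₁| < 2N, |k₂| < 2N}`, `Q = {|k₁| < N, |k₂| < N}`, `cut_poly`, `cut_diff` with `P ∩ cone`, `Q ∩ cone`; norm `24^6 + 24^6`.
-/

open MeasureTheory Real Set Filter Topology

set_option autoImplicit false

namespace Pool.Agent.Helper60.LT

open Pool.Agent.Helper22.AE
open Pool.Agent.Helper92.GC (dt tp Tq uu tt arc gs dd sqa)
open Pool.Agent.Helper92.DT (m12 IsMul12)

/-- dilation of a frame -/
noncomputable def scl (r : ℝ) (f : Fr) : Fr := ((r * f.1.1, r * f.1.2), (r * f.2.1, r * f.2.2))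

private lemma Tf_meas34 : Measurable Tf := by
  unfold Tf
  fun_prop

private lemma xf_meas34 : Measurable xf := by
  unfold xf
  fun_prop

private lemma df_meas34 : Measurable df := by
  unfold df
  fun_prop

private lemma yf_meas34 : Measurable yf := by
  unfold yf
  exact df_meas34.div (by fun_prop)

private def Aj34 (Δ₀ y₀ β : ℝ) (j : ℤ) : Set Fr :=
  {f : Fr | 0 < Tf f ∧ (j : ℝ) ≤ xf f ∧ xf f < j + 1 ∧ Δ₀ ≤ β * df f ∧ df f ≤ β * Δ₀ ∧ y₀ ≤ β * yf f ∧ yf f ≤ β * y₀}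

private lemma Aj_meas34 (Δ₀ y₀ β : ℝ) (j : ℤ) : MeasurableSet (Aj34 Δ₀ y₀ β j) := by
  unfold Aj34
  refine (measurableSet_lt measurable_const Tf_meas34).inter ?_
  refine (measurableSet_le measurable_const xf_meas34).inter ?_
  refine (measurableSet_lt xf_meas34 measurable_const).inter ?_
  refine (measurableSet_le measurable_const (measurable_const.mul df_meas34)).inter ?_
  refine (measurableSet_le df_meas34 measurable_const).inter ?_
  refine (measurableSet_le measurable_const (measurable_const.mul yf_meas34)).inter ?_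
  exact measurableSet_le yf_meas34 measurable_const

private def sg34 (f : Fr) : Fr := (f.1, f.1 + f.2)

private lemma sg_mp34 : MeasurePreserving sg34 (volume : Measure Fr) volume :=
  measurePreserving_prod_add (volume : Measure (ℝ × ℝ)) (volume : Measure (ℝ × ℝ))

private lemma sg_Tf34 (f : Fr) : Tf (sg34 f) = Tf f := rfl

private lemma sg_df34 (f : Fr) : df (sg34 f) = df f := by
  unfold df sg34
  simp only [Prod.fst_add, Prod.snd_add]
  ring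

private lemma sg_yf34 (f : Fr) : yf (sg34 f) = yf f := by
  unfold yf
  rw [sg_df34]
  rfl

private lemma sq_pos34 {f : Fr} (hf : 0 < Tf f) : 0 < f.1.1 ^ 2 + f.1.2 ^ 2 := by
  unfold Tf at hf
  exact Real.sqrt_pos.1 hf

private lemma sg_xf34 {f : Fr} (hf : 0 < Tf f) : xf (sg34 f) = xf f + 1 := by
  have h := sq_pos34 hf
  unfold xf sg34
  simp only [Prod.fst_add, Prod.snd_add]
  field_simp
  ring

private lemma sg_pre34 (Δ₀ y₀ β : ℝ) (j : ℤ) : sg34 ⁻¹' (Aj34 Δ₀ y₀ β (j + 1)) = Aj34 Δ₀ y₀ β j := by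
  ext f
  unfold Aj34
  simp only [Set.mem_preimage, Set.mem_ofPred_eq, sg_Tf34, sg_df34, sg_yf34]
  constructor
  · rintro ⟨h0, h1, h2, h3⟩
    rw [sg_xf34 h0] at h1 h2
    push_cast at h1 h2
    exact ⟨h0, by linarith, by linarith, h3⟩
  · rintro ⟨h0, h1, h2, h3⟩
    rw [sg_xf34 h0]
    push_cast
    exact ⟨h0, by linarith, by linarith, h3⟩

private lemma step34 {Φ : Fr → ENNReal} (hΦ : Measurable Φ)
    (hinv : ∀ f : Fr, 0 < Tf f → Φ (f.1, (f.2.1 + f.1.1, f.2.2 + f.1.2)) = Φ f) (Δ₀ y₀ β : ℝ) (j : ℤ) :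
    ∫⁻ f in Aj34 Δ₀ y₀ β (j + 1), Φ f = ∫⁻ f in Aj34 Δ₀ y₀ β j, Φ f := by
  rw [← sg_mp34.setLIntegral_comp_preimage (Aj_meas34 Δ₀ y₀ β (j + 1)) hΦ, sg_pre34]
  refine setLIntegral_congr_fun (Aj_meas34 Δ₀ y₀ β j) fun f hf => ?_
  have h1 := hinv f hf.1
  rw [← h1]
  congr 1
  unfold sg34
  ext
  · rfl
  · rfl
  · show f.1.1 + f.2.1 = f.2.1 + f.1.1
    ring
  · show f.1.2 + f.2.2 = f.2.2 + f.1.2
    ring

private lemma all34 {Φ : Fr → ENNReal} (hΦ : Measurable Φ)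
    (hinv : ∀ f : Fr, 0 < Tf f → Φ (f.1, (f.2.1 + f.1.1, f.2.2 + f.1.2)) = Φ f) (Δ₀ y₀ β : ℝ) (j : ℤ) :
    ∫⁻ f in Aj34 Δ₀ y₀ β j, Φ f = ∫⁻ f in Aj34 Δ₀ y₀ β 0, Φ f := by
  induction j using Int.induction_on with
  | zero => rfl
  | succ i ih => rw [step34 hΦ hinv, ih]
  | pred i ih =>
    rw [← ih, ← step34 hΦ hinv Δ₀ y₀ β (-(i : ℤ) - 1), sub_add_cancel]

private noncomputable def lin34 (n n' : ℤ × ℤ) : (ℝ × ℝ) →ₗ[ℝ] (ℝ × ℝ) where
  toFun := fun v => ((n.1 : ℝ) * v.1 + n.2 * v.2, (n'.1 : ℝ) * v.1 + n'.2 * v.2)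
  map_add' := by
    intro v w
    ext
    · simp only [Prod.fst_add, Prod.snd_add]
      ring
    · simp only [Prod.fst_add, Prod.snd_add]
      ring
  map_smul' := by
    intro c v
    ext
    · simp only [Prod.smul_fst, Prod.smul_snd, smul_eq_mul, RingHom.id_apply]
      ring
    · simp only [Prod.smul_fst, Prod.smul_snd, smul_eq_mul, RingHom.id_apply]
      ring

private lemma det34 (n n' : ℤ × ℤ) : LinearMap.det (lin34 n n') = (n.1 : ℝ) * n'.2 - n.2 * n'.1 := by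
  rw [← LinearMap.det_toMatrix (Module.Basis.finTwoProd ℝ), Matrix.det_fin_two]
  simp [LinearMap.toMatrix_apply, lin34]

private noncomputable def big34 (r : ℝ) (n n' : ℤ × ℤ) : Fr →ₗ[ℝ] Fr :=
  r • (((LinearEquiv.prodProdProdComm ℝ ℝ ℝ ℝ ℝ).symm : ((ℝ × ℝ) × (ℝ × ℝ)) →ₗ[ℝ] ((ℝ × ℝ) × (ℝ × ℝ))) ∘ₗ
    (LinearMap.prodMap (lin34 n n') (lin34 n n')) ∘ₗ
    (((LinearEquiv.prodProdProdComm ℝ ℝ ℝ ℝ ℝ).symm).symm : ((ℝ × ℝ) × (ℝ × ℝ)) →ₗ[ℝ] ((ℝ × ℝ) × (ℝ × ℝ))))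

private lemma big_apply34 (r : ℝ) (n n' : ℤ × ℤ) (f : Fr) : big34 r n n' f = ac n n' (scl r f) := by
  unfold big34 ac vf scl
  ext
  · show r * ((n.1 : ℝ) * f.1.1 + n.2 * f.2.1) = (n.1 : ℝ) * (r * f.1.1) + n.2 * (r * f.2.1)
    ring
  · show r * ((n.1 : ℝ) * f.1.2 + n.2 * f.2.2) = (n.1 : ℝ) * (r * f.1.2) + n.2 * (r * f.2.2)
    ring
  · show r * ((n'.1 : ℝ) * f.1.1 + n'.2 * f.2.1) = (n'.1 : ℝ) * (r * f.1.1) + n'.2 * (r * f.2.1)
    ring
  · show r * ((n'.1 : ℝ) * f.1.2 + n'.2 * f.2.2) = (n'.1 : ℝ) * (r * f.1.2) + n'.2 * (r * f.2.2)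
    ring

private lemma big_det34 (r : ℝ) {n n' : ℤ × ℤ} (h : n.1 * n'.2 - n.2 * n'.1 = 1) :
    LinearMap.det (big34 r n n') = r ^ 4 := by
  have h1 : (n.1 : ℝ) * n'.2 - n.2 * n'.1 = 1 := by exact_mod_cast h
  have h2 : Module.finrank ℝ Fr = 4 := by simp [Module.finrank_prod]
  unfold big34
  rw [LinearMap.det_smul, h2, LinearMap.det_conj, LinearMap.det_prodMap, det34, h1]
  ring

theorem transfer0 {h : ℝ × ℝ → ℝ} {L S K C : ℝ} (hL : 0 < L) (hS : 0 ≤ S) (hK : 0 < K) {f : Fr} {n : ℤ × ℤ} (hn : IsCoprime n.1 n.2) (hg : 0 < Tf (ac n (co n) f))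
    {I : Finset (ℤ × ℤ)} (hC : Cut C I)
    (hI : ∀ k ∈ I, K ≤ L * (Tf (ac n (co n) f) * uu (xf (ac n (co n) f)) (kp n k)) ∧ Tf (ac n (co n) f) * uu (xf (ac n (co n) f)) (kp n k) ≤ L * K ∧
      |((kp n k).2 : ℝ)| ≤ S * uu (xf (ac n (co n) f)) (kp n k)) :
    ENNReal.ofReal (m12 I (fun k => ee (h (vf f k)))) ≤ ENNReal.ofReal (C ^ 12) * PP h L S K (ac n (co n) f) := by
  classical
  have hdet := co_spec hn
  have hkp : ∀ k, kp n k = (k.1 * (co n).2 - k.2 * (co n).1, n.1 * k.2 - n.2 * k.1) := fun k => rfl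
  obtain ⟨n', hn'⟩ : ∃ n', n' = co n := ⟨_, rfl⟩
  rw [← hn'] at hdet hI hg ⊢
  simp only [← hn'] at hkp
  let ψ : ℤ × ℤ → ℤ × ℤ := fun k' => (k'.1 * n.1 + k'.2 * n'.1, k'.1 * n.2 + k'.2 * n'.2)
  have hφψ : ∀ k, ψ (kp n k) = k := by
    intro k
    rw [hkp]
    ext
    · show (k.1 * n'.2 - k.2 * n'.1) * n.1 + (n.1 * k.2 - n.2 * k.1) * n'.1 = k.1
      linear_combination k.1 * hdet
    · show (k.1 * n'.2 - k.2 * n'.1) * n.2 + (n.1 * k.2 - n.2 * k.1) * n'.2 = k.2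
      linear_combination k.2 * hdet
  have hψφ : ∀ k, kp n (ψ k) = k := by
    intro k
    rw [hkp]
    ext
    · show (k.1 * n.1 + k.2 * n'.1) * n'.2 - (k.1 * n.2 + k.2 * n'.2) * n'.1 = k.1
      linear_combination k.1 * hdet
    · show n.1 * (k.1 * n.2 + k.2 * n'.2) - n.2 * (k.1 * n.1 + k.2 * n'.1) = k.2
      linear_combination k.2 * hdet
  have hadd : ∀ k l, ψ (k + l) = ψ k + ψ l := by
    intro k l
    ext
    · show (k.1 + l.1) * n.1 + (k.2 + l.2) * n'.1 = (k.1 * n.1 + k.2 * n'.1) + (l.1 * n.1 + l.2 * n'.1)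
      ring
    · show (k.1 + l.1) * n.2 + (k.2 + l.2) * n'.2 = (k.1 * n.2 + k.2 * n'.2) + (l.1 * n.2 + l.2 * n'.2)
      ring
  have hinj : Function.Injective ψ := Function.LeftInverse.injective hψφ
  obtain ⟨g, hg'⟩ : ∃ g, g = ac n n' f := ⟨_, rfl⟩
  rw [← hg'] at hg hI ⊢
  have hsub : I ⊆ (st L S K (Tf g) (xf g)).image ψ := by
    intro k hk
    rw [Finset.mem_image]
    refine ⟨kp n k, ?_, hφψ k⟩
    rw [mem_st hg hL hK hS]
    exact hI k hk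
  have hcut := m12_cut hC hsub (fun k => ee (h (vf f k)))
  rw [m12_image ψ hadd hinj] at hcut
  have hvf : ∀ k, vf f (ψ k) = vf g k := by
    intro k
    rw [hg']
    ext
    · show ((k.1 * n.1 + k.2 * n'.1 : ℤ) : ℝ) * f.1.1 + ((k.1 * n.2 + k.2 * n'.2 : ℤ) : ℝ) * f.2.1 =
        (k.1 : ℝ) * (n.1 * f.1.1 + n.2 * f.2.1) + (k.2 : ℝ) * (n'.1 * f.1.1 + n'.2 * f.2.1)
      push_cast
      ring
    · show ((k.1 * n.1 + k.2 * n'.1 : ℤ) : ℝ) * f.1.2 + ((k.1 * n.2 + k.2 * n'.2 : ℤ) : ℝ) * f.2.2 =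
        (k.1 : ℝ) * (n.1 * f.1.2 + n.2 * f.2.2) + (k.2 : ℝ) * (n'.1 * f.1.2 + n'.2 * f.2.2)
      push_cast
      ring
  simp only [hvf] at hcut
  unfold PP
  rw [← ENNReal.ofReal_mul (by positivity)]
  exact ENNReal.ofReal_le_ofReal hcut

theorem shear_red {Φ : Fr → ENNReal} (hΦ : Measurable Φ) (hinv : ∀ f : Fr, 0 < Tf f → Φ (f.1, (f.2.1 + f.1.1, f.2.2 + f.1.2)) = Φ f) (Δ₀ y₀ β : ℝ) (m : ℕ) :
    ∫⁻ f in {f : Fr | 0 < Tf f ∧ -(m : ℝ) ≤ xf f ∧ xf f < m ∧ Δ₀ ≤ β * df f ∧ df f ≤ β * Δ₀ ∧ y₀ ≤ β * yf f ∧ yf f ≤ β * y₀}, Φ f ≤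
      ENNReal.ofReal (2 * m) * ∫⁻ f in EE Δ₀ y₀ β, Φ f := by
  have hE : EE Δ₀ y₀ β = Aj34 Δ₀ y₀ β 0 := by
    unfold EE Aj34
    simp
  have hsub : {f : Fr | 0 < Tf f ∧ -(m : ℝ) ≤ xf f ∧ xf f < m ∧ Δ₀ ≤ β * df f ∧ df f ≤ β * Δ₀ ∧ y₀ ≤ β * yf f ∧ yf f ≤ β * y₀} ⊆
      ⋃ j : (Finset.Ico (-(m : ℤ)) m), Aj34 Δ₀ y₀ β (j : ℤ) := by
    rintro f ⟨h0, h1, h2, h3⟩
    rw [Set.mem_iUnion]
    refine ⟨⟨⌊xf f⌋, ?_⟩, h0, Int.floor_le _, Int.lt_floor_add_one _, h3⟩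
    rw [Finset.mem_Ico]
    constructor
    · rw [Int.le_floor]
      push_cast
      exact h1
    · rw [Int.floor_lt]
      push_cast
      exact h2
  calc _ ≤ ∫⁻ f in ⋃ j : (Finset.Ico (-(m : ℤ)) m), Aj34 Δ₀ y₀ β (j : ℤ), Φ f := lintegral_mono_set hsub
    _ ≤ ∑' j : (Finset.Ico (-(m : ℤ)) m), ∫⁻ f in Aj34 Δ₀ y₀ β (j : ℤ), Φ f := lintegral_iUnion_le _ _
    _ = ∑' j : (Finset.Ico (-(m : ℤ)) m), ∫⁻ f in EE Δ₀ y₀ β, Φ f := by
      refine tsum_congr fun j => ?_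
      rw [all34 hΦ hinv, hE]
    _ = _ := by
      rw [tsum_fintype, Finset.sum_const, Finset.card_univ, Fintype.card_coe, Int.card_Ico, nsmul_eq_mul]
      congr 1
      have h1 : ((m : ℤ) - -(m : ℤ)).toNat = 2 * m := by omega
      have h2 : (2 : ℝ) * (m : ℝ) = ((2 * m : ℕ) : ℝ) := by push_cast; ring
      rw [h1, h2, ENNReal.ofReal_natCast]

theorem int_scl {F : Fr → ENNReal} (hF : Measurable F) {r : ℝ} (hr : 0 < r) {n : ℤ × ℤ} (hn : IsCoprime n.1 n.2) {V E' : Set Fr} (hV : MeasurableSet V) (hE : MeasurableSet E')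
    (h : ∀ f ∈ V, ac n (co n) (scl r f) ∈ E') : ∫⁻ f in V, F (ac n (co n) (scl r f)) ≤ ENNReal.ofReal (r⁻¹ ^ 4) * ∫⁻ g in E', F g := by
  have hdet := big_det34 r (co_spec hn)
  have hne : LinearMap.det (big34 r n (co n)) ≠ 0 := by
    rw [hdet]
    positivity
  have hi2 : (volume : Measure (ℝ × ℝ)).IsAddHaarMeasure :=
    Measure.prod.instIsAddHaarMeasure (volume : Measure ℝ) (volume : Measure ℝ)
  have hi4 : (volume : Measure Fr).IsAddHaarMeasure :=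
    Measure.prod.instIsAddHaarMeasure (volume : Measure (ℝ × ℝ)) (volume : Measure (ℝ × ℝ))
  have hmap := Measure.map_linearMap_addHaar_eq_smul_addHaar (volume : Measure Fr) hne
  have hmeas : Measurable (big34 r n (co n)) :=
    (LinearMap.continuous_of_finiteDimensional (big34 r n (co n))).measurable
  have hG : Measurable (E'.indicator F) := hF.indicator hE
  calc ∫⁻ f in V, F (ac n (co n) (scl r f)) ≤ ∫⁻ f, E'.indicator F (big34 r n (co n) f) := by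
        rw [← lintegral_indicator hV]
        refine lintegral_mono fun f => ?_
        by_cases hf : f ∈ V
        · rw [Set.indicator_of_mem hf, big_apply34, Set.indicator_of_mem (h f hf)]
        · rw [Set.indicator_of_notMem hf]
          exact zero_le
    _ = ∫⁻ g, E'.indicator F g ∂(Measure.map (big34 r n (co n)) volume) := (lintegral_map hG hmeas).symm
    _ = ENNReal.ofReal (r⁻¹ ^ 4) * ∫⁻ g in E', F g := by
      rw [hmap, lintegral_smul_measure, lintegral_indicator hE, hdet, abs_of_pos (by positivity), smul_eq_mul,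
        inv_pow]

private lemma sq34 (M : ℕ) (α : (ℝ × ℝ) × (ℝ × ℝ)) (I : Finset (ℤ × ℤ))
    (hI : ∀ k, k ∈ I ↔ (|k.1| < (M : ℤ) ∧ |k.2| < (M : ℤ)) ∧ InC α k) : Cut (24 ^ 6) I := by
  refine cut_poly 6 ![1, -1, 0, 0, α.1.1, α.2.1] ![0, 0, 1, -1, α.1.2, α.2.2]
    ![-(M : ℝ), -(M : ℝ), -(M : ℝ), -(M : ℝ), 0, 0] ![false, false, false, false, true, false] I fun k => ?_
  rw [hI]
  have e1 : |k.1| < (M : ℤ) ↔ -(M : ℝ) < (k.1 : ℝ) ∧ -(M : ℝ) < -(k.1 : ℝ) := by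
    rw [abs_lt]
    constructor
    · rintro ⟨h1, h2⟩
      have h3 : (-(M : ℤ) : ℝ) < (k.1 : ℝ) := by exact_mod_cast h1
      have h4 : (k.1 : ℝ) < ((M : ℤ) : ℝ) := by exact_mod_cast h2
      push_cast at h3 h4
      exact ⟨h3, by linarith⟩
    · rintro ⟨h1, h2⟩
      have h3 : (k.1 : ℝ) < (M : ℝ) := by linarith
      exact ⟨by exact_mod_cast h1, by exact_mod_cast h3⟩
  have e2 : |k.2| < (M : ℤ) ↔ -(M : ℝ) < (k.2 : ℝ) ∧ -(M : ℝ) < -(k.2 : ℝ) := by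
    rw [abs_lt]
    constructor
    · rintro ⟨h1, h2⟩
      have h3 : (-(M : ℤ) : ℝ) < (k.2 : ℝ) := by exact_mod_cast h1
      have h4 : (k.2 : ℝ) < ((M : ℤ) : ℝ) := by exact_mod_cast h2
      push_cast at h3 h4
      exact ⟨h3, by linarith⟩
    · rintro ⟨h1, h2⟩
      have h3 : (k.2 : ℝ) < (M : ℝ) := by linarith
      exact ⟨by exact_mod_cast h1, by exact_mod_cast h3⟩
  rw [e1, e2]
  unfold InC
  simp only [Fin.forall_fin_succ, Matrix.cons_val_zero, Matrix.cons_val_succ,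
    IsEmpty.forall_iff, and_true, Bool.false_eq_true, if_false, if_true, one_mul, zero_mul, neg_mul, add_zero, zero_add]
  tauto

open Classical in
theorem sqa_cut (N : ℕ) (α : (ℝ × ℝ) × (ℝ × ℝ)) : Cut (2 * 24 ^ 6) ((sqa N).filter (fun k => InC α k)) := by
  obtain ⟨P, hP⟩ : ∃ P : Finset (ℤ × ℤ), P = (box (2 * N)).filter (fun k => (|k.1| < ((2 * N : ℕ) : ℤ) ∧ |k.2| < ((2 * N : ℕ) : ℤ)) ∧ InC α k) := ⟨_, rfl⟩
  obtain ⟨Q, hQ⟩ : ∃ Q : Finset (ℤ × ℤ), Q = (box (2 * N)).filter (fun k => (|k.1| < ((N : ℕ) : ℤ) ∧ |k.2| < ((N : ℕ) : ℤ)) ∧ InC α k) := ⟨_, rfl⟩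
  have hbox : ∀ k : ℤ × ℤ, k ∈ box (2 * N) ↔ |k.1| ≤ 2 * (N : ℤ) ∧ |k.2| ≤ 2 * (N : ℤ) := by
    intro k
    unfold box
    rw [Finset.mem_product, Finset.mem_Icc, Finset.mem_Icc, abs_le, abs_le]
    push_cast
    exact Iff.rfl
  have hPm : ∀ k, k ∈ P ↔ (|k.1| < ((2 * N : ℕ) : ℤ) ∧ |k.2| < ((2 * N : ℕ) : ℤ)) ∧ InC α k := by
    intro k
    rw [hP, Finset.mem_filter, hbox]
    push_cast
    constructor
    · exact fun h => h.2
    · exact fun h => ⟨⟨h.1.1.le, h.1.2.le⟩, h⟩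
  have hQm : ∀ k, k ∈ Q ↔ (|k.1| < ((N : ℕ) : ℤ) ∧ |k.2| < ((N : ℕ) : ℤ)) ∧ InC α k := by
    intro k
    rw [hQ, Finset.mem_filter, hbox]
    constructor
    · exact fun h => h.2
    · refine fun h => ⟨⟨?_, ?_⟩, h⟩
      · have := h.1.1
        omega
      · have := h.1.2
        omega
  have hQP : Q ⊆ P := by
    intro k hk
    rw [hPm]
    rw [hQm] at hk
    refine ⟨⟨?_, ?_⟩, hk.2⟩
    · have := hk.1.1
      push_cast
      omega
    · have := hk.1.2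
      push_cast
      omega
  have hcut := cut_diff (sq34 (2 * N) α P hPm) (sq34 N α Q hQm) hQP
  have e : (sqa N).filter (fun k => InC α k) = P \ Q := by
    ext k
    rw [Finset.mem_filter, Finset.mem_sdiff, hPm, hQm]
    unfold sqa
    rw [Finset.mem_filter, hbox]
    push_cast
    constructor
    · rintro ⟨⟨h1, h2, h3, h4⟩, h5⟩
      refine ⟨⟨⟨h3, h4⟩, h5⟩, fun h => ?_⟩
      rcases h2 with h2 | h2
      · exact absurd h.1.1 (not_lt.2 h2)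
      · exact absurd h.1.2 (not_lt.2 h2)
    · rintro ⟨⟨⟨h3, h4⟩, h5⟩, h6⟩
      refine ⟨⟨⟨h3.le, h4.le⟩, ?_, h3, h4⟩, h5⟩
      by_contra hcon
      push Not at hcon
      exact h6 ⟨⟨hcon.1, hcon.2⟩, h5⟩
  rw [e]
  refine cut_weaken hcut (le_of_eq ?_)
  ring

end Pool.Agent.Helper60.LT
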