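import Pool.Agent.Helper60.LT.G2

/-!
# LT-G6: the moment bound for all states

PROOF of `mom`. `e = ε/8`, `δ₂ = ε/2400`, `a = ε/16 + e`, `J = ⌈1/δ₂⌉₊`, `η = ε/(8 J)`: `bnd_zero` (GD) and `J` times `bnd_step` (G2; induction on the number of steps) give `Bnd c₁ B (a + J η) e (0 + J δ₂)`, `J δ₂ ≥ 1`; `H₀ = K/√(Δ₀/y₀) ≤ K ≤ K^(J δ₂)` as `√(Δ₀/y₀) ≥ 1`, `K ≥ 1`; `H₀^e ≤ K^(ε/8)`;
`a + J η + ε/8 ≤ ε`.
-/

open MeasureTheory Real Set Filter Topology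

set_option autoImplicit false

namespace Pool.Agent.Helper60.LT

theorem mom {ε c₁ B L β Y s₀ : ℝ} (hε : 0 < ε) (hε1 : ε ≤ 1) (hc : 0 < c₁) (hc1 : c₁ ≤ 1) (hB : 1 ≤ B) (hL : 1 ≤ L) (hβ : 1 ≤ β) (hY : 0 < Y) (hs : 0 < s₀) : ∃ C : ℝ, 1 ≤ C ∧
    ∀ (h : ℝ × ℝ → ℝ) (Δ₀ y₀ K S : ℝ), Hom c₁ B h → 0 < Δ₀ → 0 < y₀ → y₀ ≤ Y → 1 ≤ √(Δ₀ / y₀) → s₀ ≤ S → S ≤ 3 → 11 / 10 * (β * y₀ * S) ≤ k₀ c₁ B → 1 ≤ K →
      ∫⁻ f in EE Δ₀ y₀ β, PP h L S K f ≤ ENNReal.ofReal (C * K ^ ε * (Δ₀ ^ 2 / y₀) * BB (K / √(Δ₀ / y₀)) (K * y₀ ^ 2)) := by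
  have hδ : 0 < ε / 2400 := by positivity
  have hJ0 : (0 : ℝ) < ⌈1 / (ε / 2400)⌉₊ := by
    have : 0 < ⌈1 / (ε / 2400)⌉₊ := Nat.ceil_pos.mpr (by positivity)
    exact_mod_cast this
  have hJ1 : 1 / (ε / 2400) ≤ (⌈1 / (ε / 2400)⌉₊ : ℝ) := Nat.le_ceil _
  set J := ⌈1 / (ε / 2400)⌉₊ with hJ
  have hη : 0 < ε / (8 * J) := by positivity
  have hind : ∀ j : ℕ, Bnd c₁ B (ε / 16 + ε / 8 + j * (ε / (8 * J))) (ε / 8) (j * (ε / 2400)) := by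
    intro j
    induction j with
    | zero =>
      have := bnd_zero (c₁ := c₁) (B := B) (a := ε / 16 + ε / 8) (e := ε / 8) (by positivity) (by positivity) (by linarith)
      simpa using this
    | succ j ih =>
      have h1 : 0 ≤ (j : ℝ) * (ε / (8 * J)) := by positivity
      have := bnd_step (η := ε / (8 * J)) hc hc1 hB (by positivity : 0 < ε / 8) (by linarith) hδ (by linarith) hη
        (by linarith) (by positivity) ih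
      convert this using 1
      · push_cast
        ring
      · push_cast
        ring
  have hJη : (J : ℝ) * (ε / (8 * J)) = ε / 8 := by field_simp
  have hJδ : 1 ≤ (J : ℝ) * (ε / 2400) := by
    rw [div_le_iff₀ hδ] at hJ1
    exact hJ1
  obtain ⟨C, hC, hT⟩ := hind J L β Y s₀ hL hβ hY hs
  refine ⟨C, hC, fun h Δ₀ y₀ K S hh hΔ hy hyY hT1 hsS hS3 hk hK => ?_⟩
  have hK0 : 0 < K := by linarith
  have hT0 : 0 < √(Δ₀ / y₀) := by linarith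
  have hHK : K / √(Δ₀ / y₀) ≤ K := div_le_self hK0.le hT1
  have hH0 : 0 < K / √(Δ₀ / y₀) := by positivity
  have hKJ : K ≤ K ^ ((J : ℝ) * (ε / 2400)) := by
    have := rpow_le_rpow_of_exponent_le hK hJδ
    rwa [rpow_one] at this
  refine (hT h Δ₀ y₀ K S hh hΔ hy hyY hT1 hsS hS3 hk hK (hHK.trans hKJ)).trans (ENNReal.ofReal_le_ofReal ?_)
  have hBB := (BB_pos hH0 (by positivity : 0 < K * y₀ ^ 2)).1
  have h1 : (K / √(Δ₀ / y₀)) ^ (ε / 8) ≤ K ^ (ε / 8) := rpow_le_rpow hH0.le hHK (by positivity)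
  have h2 : K ^ (ε / 16 + ε / 8 + J * (ε / (8 * J))) * (K / √(Δ₀ / y₀)) ^ (ε / 8) ≤ K ^ ε := by
    calc K ^ (ε / 16 + ε / 8 + J * (ε / (8 * J))) * (K / √(Δ₀ / y₀)) ^ (ε / 8)
        ≤ K ^ (ε / 16 + ε / 8 + J * (ε / (8 * J))) * K ^ (ε / 8) := mul_le_mul_of_nonneg_left h1 (rpow_nonneg hK0.le _)
      _ = K ^ (ε / 16 + ε / 8 + J * (ε / (8 * J)) + ε / 8) := (rpow_add hK0 _ _).symm
      _ ≤ K ^ ε := rpow_le_rpow_of_exponent_le hK (by rw [hJη]; linarith)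
  have h3 : 0 ≤ C * ((Δ₀ ^ 2 / y₀) * BB (K / √(Δ₀ / y₀)) (K * y₀ ^ 2)) := by positivity
  calc C * K ^ (ε / 16 + ε / 8 + J * (ε / (8 * J))) * (K / √(Δ₀ / y₀)) ^ (ε / 8) * (Δ₀ ^ 2 / y₀) * BB (K / √(Δ₀ / y₀)) (K * y₀ ^ 2)
      = (K ^ (ε / 16 + ε / 8 + J * (ε / (8 * J))) * (K / √(Δ₀ / y₀)) ^ (ε / 8)) * (C * ((Δ₀ ^ 2 / y₀) * BB (K / √(Δ₀ / y₀)) (K * y₀ ^ 2))) := by ring
    _ ≤ K ^ ε * (C * ((Δ₀ ^ 2 / y₀) * BB (K / √(Δ₀ / y₀)) (K * y₀ ^ 2))) := mul_le_mul_of_nonneg_right h2 h3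
    _ = C * K ^ ε * (Δ₀ ^ 2 / y₀) * BB (K / √(Δ₀ / y₀)) (K * y₀ ^ 2) := by ring

end Pool.Agent.Helper60.LT
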